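import Pool.Agent.H56.SMC.Basic
import Pool.Agent.H22.GDefs

/-!
# The Cayley configuration of `f = ∑ κ_i x^{a_i}` and a Laurent polynomial `H = ∑ λ_k x^{β_k}`

Lattice `ℤ^{n+2}`, coordinates `(l, l2; q)`.
-/

set_option autoImplicit false

namespace Pool.Agent.H56.SMC

open Finset AddMonoidAlgebra

/-- Power series in `ε` and their fraction field. -/
abbrev PA : Type := PowerSeries ℂ

/-- The fraction field of `PA`. -/
abbrev KA : Type := FractionRing PA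

/-- The inclusion. -/
noncomputable def jK : PA →+* KA := algebraMap PA KA

/-- The vector `(l, l2; q)`. -/
def vec {n : ℕ} (l l2 : ℤ) (q : Fin n → ℤ) : Lat (n + 2) := Fin.cons l (Fin.cons l2 q)

/-- The exponents `(1,0;a_i)`, `(0,1;β_k)`. -/
def cA {n r : ℕ} {ϑ : Type} (a : Fin r → (Fin n →₀ ℕ)) (bb : ϑ → Lat n) :
    Fin r ⊕ ϑ → Lat (n + 2)
  | Sum.inl i => vec 1 0 (fun j => (a i j : ℤ))
  | Sum.inr k => vec 0 1 (bb k)

/-- The coefficients. -/
def cC {r : ℕ} {ϑ : Type} {R : Type} (κ : Fin r → R) (lam : ϑ → R) : Fin r ⊕ ϑ → R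
  | Sum.inl i => κ i
  | Sum.inr k => lam k

/-- The parameter `(-s, -t; 1, …, 1)`. -/
def pp {n : ℕ} {R : Type} [CommRing R] (s t : R) : Fin (n + 2) → R :=
  Fin.cons (-s) (Fin.cons (-t) (fun _ => 1))

/-- `f = ∑ κ_i x^{a_i}`. -/
noncomputable def fpoly {n r : ℕ} (a : Fin r → (Fin n →₀ ℕ)) (κ : Fin r → ℂ) :
    MvPolynomial (Fin n) ℂ := ∑ i, MvPolynomial.monomial (a i) (κ i)

/-- `H = ∑ λ_k x^{β_k}`. -/
noncomputable def Hl {n : ℕ} {ϑ : Type} [Fintype ϑ] (bb : ϑ → Lat n) (lam : ϑ → ℂ) : LP ℂ n :=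
  ∑ k, single (bb k) (lam k)

/-- The exponents `0`, `M e_j`, `M β_k` of `H`. -/
def bbM {n m : ℕ} (β : Fin m → Lat n) (M : ℤ) : Option (Fin n) ⊕ Fin m → Lat n
  | Sum.inl none => 0
  | Sum.inl (some j) => M • ev j
  | Sum.inr k => M • β k

/-- Polynomials as Laurent polynomials. -/
noncomputable def toL {n : ℕ} (R : Type) [CommRing R] : MvPolynomial (Fin n) R →+* LP R n :=
  (MvPolynomial.aeval (fun j => (single (ev j) 1 : LP R n))).toRingHom

/-- The derivative `∂/∂x_j` of a Laurent polynomial. -/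
noncomputable def dL {R : Type} [CommRing R] {n : ℕ} (j : Fin n) (g : LP R n) : LP R n :=
  single (-ev j) 1 * dg (fun u => (u j : R)) g

/-- `∂_{j_1} ⋯ ∂_{j_l} F^{s+1} = GG F s [j_1, …, j_l] F^{s+1-l}`. -/
noncomputable def GG {R : Type} [CommRing R] {n : ℕ} (F : LP R n) (s : R) :
    List (Fin n) → LP R n
  | [] => 1
  | j :: L => F * dL j (GG F s L) + (s + 1 - (L.length : R)) • (GG F s L * dL j F)

/-- The list with `β_j` entries `j`. -/
def lst {n : ℕ} (β : Fin n →₀ ℕ) : List (Fin n) :=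
  (List.finRange n).flatMap (fun j => List.replicate (β j) j)

/-- `e_q ↦ e_{(0,R;q)}`. -/
noncomputable def emb {R' : Type} [CommRing R'] {n : ℕ} (R : ℤ) (g : LP R' n) : LP R' (n + 2) :=
  ofCoeff (Finsupp.mapDomain (vec 0 R) g.coeff)

theorem dt_vec {n : ℕ} (l l2 : ℤ) (q : Fin n → ℤ) (m m2 : ℤ) (q' : Fin n → ℤ) :
    dt (vec l l2 q) (vec m m2 q') = l * m + l2 * m2 + ∑ j, q j * q' j := by
  simp only [dt, vec]
  rw [Fin.sum_univ_succ, Fin.sum_univ_succ]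
  simp only [Fin.cons_zero, Fin.cons_succ]
  ring

theorem pv_pp {n : ℕ} {R : Type} [CommRing R] (s t : R) (l l2 : ℤ) (q : Fin n → ℤ) :
    pv (pp s t) (vec l l2 q) = -((l : R) * s) - (l2 : R) * t + ((∑ j, q j : ℤ) : R) := by
  simp only [pv, pp, vec]
  rw [Fin.sum_univ_succ, Fin.sum_univ_succ]
  simp only [Fin.cons_zero, Fin.cons_succ]
  push_cast
  simp only [mul_one]
  ring

theorem vec_surj {n : ℕ} (u : Lat (n + 2)) :
    u = vec (u 0) (u (Fin.succ 0)) (fun j => u j.succ.succ) := by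
  funext i
  refine Fin.cases ?_ (fun i => Fin.cases ?_ (fun i => ?_) i) i <;> simp [vec]

theorem vec_add {n : ℕ} (l l2 : ℤ) (q : Fin n → ℤ) (m m2 : ℤ) (q' : Fin n → ℤ) :
    vec l l2 q + vec m m2 q' = vec (l + m) (l2 + m2) (q + q') := by
  funext i
  refine Fin.cases ?_ (fun i => Fin.cases ?_ (fun i => ?_) i) i <;> simp [vec]

/-- `f` is nondegenerate with respect to all faces of its Newton polytope `conv(a_1,…,a_r)`: for
every weight vector `w ∈ ℤ^n` the face polynomial `f_w` and all `x_j ∂f_w/∂x_j` have no common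
zero with all coordinates different from zero. -/
def Nondeg {n r : ℕ} (a : Fin r → (Fin n →₀ ℕ)) (κ : Fin r → ℂ) : Prop :=
  ∀ (w : Fin n → ℤ) (x : Fin n → ℂ), (∀ j, x j ≠ 0) →
    ¬ ((∑ i with ∀ i', ∑ j, w j * a i j ≤ ∑ j, w j * a i' j, κ i * ∏ j, x j ^ (a i j)) = 0 ∧
      ∀ k, (∑ i with ∀ i', ∑ j, w j * a i j ≤ ∑ j, w j * a i' j,
        κ i * (a i k : ℂ) * ∏ j, x j ^ (a i j)) = 0)

/-- `v ∈ ℕ^n` spans a ray of the subdivision of the cone `{v ≥ 0, β_k·v ≥ 0}` by the cones on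
which `v ↦ min_i a_i·v` is linear: the vectors `(1,a_i)` with `a_i·v` minimal, `(0,e_j)` with
`v_j = 0` and `(0,β_k)` with `β_k·v = 0` span a space of dimension `n`. -/
def RayNormal {n r m : ℕ} (a : Fin r → (Fin n →₀ ℕ)) (β : Fin m → Fin n → ℤ) (v : Fin n → ℕ) :
    Prop :=
  v ≠ 0 ∧ (∀ k, 0 ≤ ∑ j, β k j * v j) ∧ Module.finrank ℝ (Submodule.span ℝ
    ({y | ∃ i, ∑ j, a i j * v j = H22.wmin a v ∧ y = H22.rowR a i} ∪
      {y | ∃ j, v j = 0 ∧ y = Sum.elim (fun _ => 0) (Pi.single j 1)} ∪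
      {y | ∃ k, ∑ j, β k j * v j = 0 ∧ y = Sum.elim (fun _ => 0) (fun j => (β k j : ℝ))} :
        Set (Unit ⊕ Fin n → ℝ))) = n

/-- `w` is a normal vector of a facet of `conv(a_1,…,a_r) + ℝ^n_{≥0}`: the vectors `(1,a_i)`, `a_i`
on the face of `w`, and `(0,e_j)` with `w_j = 0` span a space of dimension `n`. -/
def FacetNormal {n r : ℕ} (a : Fin r → (Fin n →₀ ℕ)) (w : Fin n → ℕ) : Prop :=
  w ≠ 0 ∧ Module.finrank ℝ (Submodule.span ℝ
    ({y | ∃ i, ∑ j, a i j * w j = H22.wmin a w ∧ y = H22.rowR a i} ∪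
      {y | ∃ j, w j = 0 ∧ y = Sum.elim (fun _ => 0) (Pi.single j 1)} :
        Set (Unit ⊕ Fin n → ℝ))) = n

/-- The face of `w` contains a point `P` with `P_k > 1` for all `k` with `w_k ≠ 0` and
`x_k ∤ f`. -/
def Big {n r : ℕ} (a : Fin r → (Fin n →₀ ℕ)) (w : Fin n → ℕ) : Prop :=
  ∃ P ∈ convexHull ℝ (H22.pointR a '' {i | ∑ j, a i j * w j = H22.wmin a w}),
    ∀ k, w k ≠ 0 → (∃ i, a i k = 0) → 1 < P k

/-- The hypothesis of the general criterion: `β_k·w > 0`, and the vector `∑ θ_i (1,a_i)`, a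
combination of the exponents on the face of `w` with `θ_i ≥ 0`, `∑ θ_i < 1`, lies far enough from
the walls of the resonant rays. -/
def Crit {n r m : ℕ} (a : Fin r → (Fin n →₀ ℕ)) (w : Fin n → ℕ) (β : Fin m → Fin n → ℤ)
    (θ : Fin r → ℚ) : Prop :=
  (∀ k, 0 < ∑ j, β k j * w j) ∧ (∀ i, 0 ≤ θ i) ∧
  (∀ i, θ i ≠ 0 → ∑ j, a i j * w j = H22.wmin a w) ∧ ∑ i, θ i < 1 ∧
  ∀ v : Fin n → ℕ, RayNormal a β v → univ.gcd v = 1 → (∀ j, w j = 0 → v j = 0) →
    (H22.wmin a v = 0 → (H22.wsum v : ℚ) ≤ ∑ i, θ i * ∑ j, a i j * v j) ∧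
    ((∃ k, ∑ j, β k j * v j = 0) → ∀ l : ℕ, 0 < l →
      H22.wsum v * H22.wmin a w = l * H22.wmin a w + H22.wmin a v * H22.wsum w →
      (l : ℚ) ≤ ∑ i, θ i * (∑ j, a i j * v j - H22.wmin a v))

/-- The number of `j` with `w_j ≠ 0`. -/
def supCard {n : ℕ} (w : Fin n → ℕ) : ℕ := (univ.filter (fun j => w j ≠ 0)).card

/-- A complete flag of faces `F_0 ⊃ F_1 ⊃ …` of the face `F_0` of `w` (modulo the directions
`e_j` with `w_j = 0`), `F_t` the face of the weight vector `v_t`, `v_0 = w`. -/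
def IsFlag {n r m : ℕ} (a : Fin r → (Fin n →₀ ℕ)) (w : Fin n → ℕ) (β : Fin m → Fin n → ℤ)
    (v : ℕ → Fin n → ℕ) : Prop :=
  v 0 = w ∧
  (∀ t, t < supCard w → (∀ j, v t j = 0 ↔ w j = 0) ∧ (∀ k, 0 < ∑ j, β k j * v t j) ∧
    Module.finrank ℝ (Submodule.span ℝ
      ({y | ∃ i, ∑ j, a i j * v t j = H22.wmin a (v t) ∧ y = H22.rowR a i} ∪
        {y | ∃ j, w j = 0 ∧ y = Sum.elim (fun _ => 0) (Pi.single j 1)} :
          Set (Unit ⊕ Fin n → ℝ))) = n - t) ∧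
  ∀ t, t + 1 < supCard w → ∀ i, ∑ j, a i j * v (t + 1) j = H22.wmin a (v (t + 1)) →
    ∑ j, a i j * v t j = H22.wmin a (v t)

/-- A choice of exponents `q_t`, `t < supCard w`, with `q_t ∈ F_t` and `q_t ∉ F_{t+1}`
(`F_t = ∅` for `t = supCard w`). -/
def IsFlagChoice {n r : ℕ} (a : Fin r → (Fin n →₀ ℕ)) (w : Fin n → ℕ) (v : ℕ → Fin n → ℕ)
    (q : ℕ → Fin r) : Prop :=
  ∀ t, t < supCard w → ∑ j, a (q t) j * v t j = H22.wmin a (v t) ∧
    (t + 1 < supCard w → ∑ j, a (q t) j * v (t + 1) j ≠ H22.wmin a (v (t + 1)))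

/-- The hypothesis of the general criterion with a flag: for every choice of exponents `q_t` as
above the sum `∑_t (1, a_{q_t})` lies strictly behind the walls of the resonant rays. -/
def CritF {n r m : ℕ} (a : Fin r → (Fin n →₀ ℕ)) (w : Fin n → ℕ) (β : Fin m → Fin n → ℤ)
    (v : ℕ → Fin n → ℕ) : Prop :=
  IsFlag a w β v ∧
  ∀ q : ℕ → Fin r, IsFlagChoice a w v q →
    ∀ v' : Fin n → ℕ, RayNormal a β v' → univ.gcd v' = 1 → (∀ j, w j = 0 → v' j = 0) →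
      (H22.wmin a v' = 0 → H22.wsum v' < ∑ t ∈ range (supCard w), ∑ j, a (q t) j * v' j) ∧
      ((∃ k, ∑ j, β k j * v' j = 0) → ∀ l : ℕ, 0 < l →
        H22.wsum v' * H22.wmin a w = l * H22.wmin a w + H22.wmin a v' * H22.wsum w →
        l + supCard w * H22.wmin a v' < ∑ t ∈ range (supCard w), ∑ j, a (q t) j * v' j)

/-- The face of `w` is a simplex whose only exponents are its vertices (modulo the directions
`e_j` with `w_j = 0`), and for every `k` with `w_k ≠ 0` and `x_k ∤ f` the sum of the `k`-th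
coordinates of these exponents is different from `1`. -/
def Simp {n r : ℕ} (a : Fin r → (Fin n →₀ ℕ)) (w : Fin n → ℕ) : Prop :=
  (univ.filter (fun i => ∑ j, a i j * w j = H22.wmin a w)).card = supCard w ∧
  ∀ k, w k ≠ 0 → (∃ i, a i k = 0) →
    ∑ i ∈ univ.filter (fun i => ∑ j, a i j * w j = H22.wmin a w), a i k ≠ 1

/-- The facets to which the theorem applies. -/
def Fine {n r : ℕ} (a : Fin r → (Fin n →₀ ℕ)) (w : Fin n → ℕ) : Prop :=
  Big a w ∨ Simp a w ∨ (∃ (m : ℕ) (β : Fin m → Fin n → ℤ) (θ : Fin r → ℚ), Crit a w β θ) ∨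
    ∃ (m : ℕ) (β : Fin m → Fin n → ℤ) (v : ℕ → Fin n → ℕ), CritF a w β v

/-- No solution on any torus orbit: for every functional `h` which is nonnegative on all `a_i` and
zero on some `a_i`, the truncated symbols have no common zero on the torus. -/
def TorusND {d : ℕ} {ι : Type} [Fintype ι] (a : ι → Lat d) (c : ι → ℂ) : Prop :=
  ∀ h : Lat d, (∀ i, 0 ≤ dt h (a i)) → (∃ i, dt h (a i) = 0) → ∀ χ : Fin d → ℂˣ,
    ∃ j : Fin d, ∑ i with dt h (a i) = 0, c i * (a i j : ℂ) * ((∏ k, χ k ^ (a i k) : ℂˣ) : ℂ) ≠ 0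

end Pool.Agent.H56.SMC
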