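import Pool.Agent.H56.SMC.Basic

/-!
# FLEXT: a point of `Spec ℂ[S]` lies on a torus orbit

Proof.  All `a i ∈ Sset h` (`hh`).  `I = {i : φ (a i) ≠ 0}`.  `N • u0 = ∑ n_i a_i` (`hfac`), `φ(N u0) = φ(u0)^N ≠ 0 = ∏ φ(a_i)^{n_i}`, `u0 ≠ 0`, so (`dt δ`) some `n_i > 0` and `I` is not empty.
`H = ∑ of h_v over all v with dt (h v) (a i) = 0 for all i ∈ I`.  `dt H (a i) ≥ 0`, `= 0` for `i ∈ I`.  Let `l ∉ I`; claim `dt H (a l) > 0`: otherwise `dt (h v) (a l) = 0` for all `v` vanishing on `I`;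
let `A = ∑_{i∈I} a_i`; for `K` large `K A - a_l ∈ Sset h` (if `h_v` vanishes on `I` the value is `0`; if not then `dt (h v) A ≥ 1`).  So `φ(K A) = φ(a_l) φ(K A - a_l)`, and `φ(K A) ≠ 0` gives `φ(a_l) ≠ 0`, a
contradiction.  The torus point: the homomorphism from the subgroup `L` of `ℤ^d` generated by the `a_i`, `i ∈ I`, to `ℂˣ` with `a_i ↦ φ(a_i)` is well defined (if `∑ n_i a_i = 0`, move the negative terms to the
other side and use multiplicativity of `φ` on `Sset h`); `ℂˣ` is divisible (roots exist), so it extends to a homomorphism `ℤ^d → ℂˣ` (divisible groups are injective: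
`AddCommGrp.injective_of_divisible`, Baer's criterion `Module.Baer`), `χ_k` = the image of the `k`-th unit vector.
-/

set_option autoImplicit false

namespace Pool.Agent.H56.SMC

open Finset AddMonoidAlgebra

/-- `ℂˣ` is injective as a group. -/
theorem flext_baer : Module.Baer ℤ (Additive ℂˣ) := by
  let _ : DivisibleBy (Additive ℂˣ) ℕ := divisibleByOfSMulRightSurj _ _ (by
    intro n hn u
    obtain ⟨z, hz⟩ := IsAlgClosed.exists_pow_nat_eq (u.toMul : ℂ) (Nat.pos_of_ne_zero hn)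
    have hz0 : z ≠ 0 := by
      rintro rfl
      rw [zero_pow hn] at hz
      exact (Units.ne_zero u.toMul) hz.symm
    refine ⟨Additive.ofMul (Units.mk0 z hz0), ?_⟩
    apply Additive.toMul.injective
    apply Units.ext
    simpa using hz)
  let _ : DivisibleBy (Additive ℂˣ) ℤ := AddGroup.divisibleByIntOfDivisibleByNat _
  exact Module.Baer.of_divisible _

/-- A partially defined homomorphism to `ℂˣ` given by generators extends. -/
theorem flext_ext {d : ℕ} {J : Type} [Fintype J] (b : J → Lat d) (g : J → ℂˣ)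
    (hker : ∀ n : J → ℤ, ∑ j, n j • b j = 0 → ∏ j, g j ^ n j = 1) :
    ∃ ψ : Lat d →+ Additive ℂˣ, ∀ j, ψ (b j) = Additive.ofMul (g j) := by
  classical
  let f : (J → ℤ) →ₗ[ℤ] Lat d := Fintype.linearCombination ℤ b
  let G : (J → ℤ) →ₗ[ℤ] Additive ℂˣ :=
    Fintype.linearCombination ℤ (fun j => Additive.ofMul (g j))
  have hle : LinearMap.ker f ≤ LinearMap.ker G := by
    intro n hn
    rw [LinearMap.mem_ker] at hn ⊢
    have h1 := hker n (by simpa [f, Fintype.linearCombination_apply] using hn)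
    simp only [G, Fintype.linearCombination_apply]
    rw [← ofMul_one, ← h1, ofMul_prod]
    exact sum_congr rfl fun j _ => (ofMul_zpow _ _).symm
  obtain ⟨ψ, hψ⟩ := flext_baer.extension_property
    ((LinearMap.ker f).liftQ f le_rfl)
    (by
      rw [← LinearMap.ker_eq_bot, Submodule.ker_liftQ_eq_bot _ _ _ le_rfl])
    ((LinearMap.ker f).liftQ G hle)
  refine ⟨ψ.toAddMonoidHom, fun j => ?_⟩
  have h1 := LinearMap.congr_fun hψ (Submodule.Quotient.mk (Pi.single j 1))
  rw [LinearMap.comp_apply, Submodule.liftQ_apply, Submodule.liftQ_apply] at h1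
  have h2 : f (Pi.single j 1) = b j := by
    simp [f, Fintype.linearCombination_apply_single]
  have h3 : G (Pi.single j 1) = Additive.ofMul (g j) := by
    simp [G, Fintype.linearCombination_apply_single]
  rw [h2, h3] at h1
  exact h1

theorem flext_add_mem {d : ℕ} {κ : Type} {h : κ → Lat d} {u v : Lat d} (hu : u ∈ Sset h)
    (hv : v ∈ Sset h) : u + v ∈ Sset h := by
  intro k
  rw [dt_add]
  exact add_nonneg (hu k) (hv k)

theorem flext_zero_mem {d : ℕ} {κ : Type} (h : κ → Lat d) : (0 : Lat d) ∈ Sset h := by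
  intro k
  rw [dt_zero]

theorem flext_nsmul_mem {d : ℕ} {κ : Type} {h : κ → Lat d} {u : Lat d} (hu : u ∈ Sset h)
    (n : ℕ) : n • u ∈ Sset h := by
  intro k
  rw [dt_nsmul]
  exact mul_nonneg (Int.natCast_nonneg n) (hu k)

theorem flext_sum_mem {d : ℕ} {κ α : Type} {h : κ → Lat d} (s : Finset α) {u : α → Lat d}
    (hu : ∀ i ∈ s, u i ∈ Sset h) : ∑ i ∈ s, u i ∈ Sset h := by
  intro k
  rw [dt_sum]
  exact sum_nonneg fun i hi => hu i hi k

section
variable {d : ℕ} {κ : Type} {h : κ → Lat d} {φ : Lat d → ℂ}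

theorem flext_phi_nsmul (hφ0 : φ 0 = 1)
    (hφ : ∀ u ∈ Sset h, ∀ u' ∈ Sset h, φ (u + u') = φ u * φ u') {u : Lat d} (hu : u ∈ Sset h)
    (n : ℕ) : φ (n • u) = φ u ^ n := by
  induction n with
  | zero => rw [zero_smul, hφ0, pow_zero]
  | succ n ih => rw [succ_nsmul, hφ _ (flext_nsmul_mem hu n) _ hu, ih, pow_succ]

theorem flext_phi_sum {α : Type} (hφ0 : φ 0 = 1)
    (hφ : ∀ u ∈ Sset h, ∀ u' ∈ Sset h, φ (u + u') = φ u * φ u') (s : Finset α) {u : α → Lat d}
    (hu : ∀ i ∈ s, u i ∈ Sset h) : φ (∑ i ∈ s, u i) = ∏ i ∈ s, φ (u i) := by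
  classical
  induction s using Finset.induction_on with
  | empty => simp [hφ0]
  | insert a s ha ih =>
    rw [sum_insert ha, prod_insert ha, hφ _ (hu a (mem_insert_self a s)) _
      (flext_sum_mem s fun i hi => hu i (mem_insert_of_mem hi)),
      ih fun i hi => hu i (mem_insert_of_mem hi)]

theorem flext_phi_comb {α : Type} (hφ0 : φ 0 = 1)
    (hφ : ∀ u ∈ Sset h, ∀ u' ∈ Sset h, φ (u + u') = φ u * φ u') (s : Finset α) {a : α → Lat d}
    (ha : ∀ i, a i ∈ Sset h) (n : α → ℕ) :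
    φ (∑ i ∈ s, n i • a i) = ∏ i ∈ s, φ (a i) ^ n i := by
  rw [flext_phi_sum hφ0 hφ s fun i _ => flext_nsmul_mem (ha i) (n i)]
  exact prod_congr rfl fun i _ => flext_phi_nsmul hφ0 hφ (ha i) (n i)

end

/-- FLEXT -/
theorem flext {d : ℕ} {ι κ : Type} [Fintype ι] [Fintype κ] (a : ι → Lat d) (h : κ → Lat d)
    (δ : Lat d) (hδ : ∀ i, dt δ (a i) = 1) (hh : ∀ v i, 0 ≤ dt (h v) (a i))
    (hfac : ∀ u ∈ Sset h, ∃ N : ℕ, 0 < N ∧ ∃ n : ι → ℕ, N • u = ∑ i, n i • a i)
    (φ : Lat d → ℂ) (hφ0 : φ 0 = 1)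
    (hφ : ∀ u ∈ Sset h, ∀ u' ∈ Sset h, φ (u + u') = φ u * φ u')
    (u0 : Lat d) (hu0 : u0 ∈ Sset h) (hne : u0 ≠ 0) (hφu : φ u0 ≠ 0) :
    ∃ (H : Lat d) (χ : Fin d → ℂˣ), (∀ i, 0 ≤ dt H (a i)) ∧ (∃ i, dt H (a i) = 0) ∧
      ∀ i, φ (a i) = if dt H (a i) = 0 then ((∏ k, χ k ^ (a i k) : ℂˣ) : ℂ) else 0 := by
  classical
  have haS : ∀ i, a i ∈ Sset h := fun i v => hh v i
  -- some `φ (a i)` is not zero
  have hI : ∃ i, φ (a i) ≠ 0 := by
    by_contra hcon
    push Not at hcon
    obtain ⟨N, hN, n, hn⟩ := hfac u0 hu0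
    have h1 : φ (N • u0) ≠ 0 := by
      rw [flext_phi_nsmul hφ0 hφ hu0]
      exact pow_ne_zero _ hφu
    rw [hn, flext_phi_comb hφ0 hφ univ haS n] at h1
    have h2 : ∀ i, n i = 0 := by
      intro i
      by_contra hi
      apply h1
      exact prod_eq_zero (mem_univ i) (by rw [hcon i, zero_pow hi])
    have h3 : N • u0 = 0 := by
      rw [hn]
      exact sum_eq_zero fun i _ => by rw [h2 i, zero_smul]
    rcases smul_eq_zero.mp h3 with h4 | h4
    · omega
    · exact hne h4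
  set Vs : Finset κ := univ.filter fun v => ∀ i, φ (a i) ≠ 0 → dt (h v) (a i) = 0 with hVs
  set H : Lat d := ∑ v ∈ Vs, h v with hH
  have hHd : ∀ u, dt H u = ∑ v ∈ Vs, dt (h v) u := by
    intro u
    rw [hH, dt_comm, dt_sum]
    exact sum_congr rfl fun v _ => dt_comm _ _
  have hH0 : ∀ i, 0 ≤ dt H (a i) := by
    intro i
    rw [hHd]
    exact sum_nonneg fun v _ => hh v i
  have hHI : ∀ i, φ (a i) ≠ 0 → dt H (a i) = 0 := by
    intro i hi
    rw [hHd]
    exact sum_eq_zero fun v hv => (mem_filter.mp hv).2 i hi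
  have hHl : ∀ l, φ (a l) = 0 → dt H (a l) ≠ 0 := by
    intro l hl h0
    rw [hHd, sum_eq_zero_iff_of_nonneg fun v _ => hh v l] at h0
    set A : Lat d := ∑ i ∈ univ.filter (fun i => φ (a i) ≠ 0), a i with hA
    set K : ℕ := ∑ v, (dt (h v) (a l)).toNat with hK
    have hAS : A ∈ Sset h := flext_sum_mem _ fun i _ => haS i
    have hdiff : K • A - a l ∈ Sset h := by
      intro v
      rw [dt_sub, dt_nsmul]
      by_cases hv : v ∈ Vs
      · rw [h0 v hv, sub_zero]
        exact mul_nonneg (Int.natCast_nonneg _) (hAS v)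
      · rw [hVs, mem_filter] at hv
        push Not at hv
        obtain ⟨i, hi, hi0⟩ := hv (mem_univ v)
        have h1 : 1 ≤ dt (h v) A := by
          have h2 : dt (h v) (a i) ≤ dt (h v) A := by
            rw [hA, dt_sum]
            exact single_le_sum (f := fun i => dt (h v) (a i)) (fun j _ => hh v j)
              (mem_filter.mpr ⟨mem_univ i, hi⟩)
          have h3 := hh v i
          omega
        have h2 : (dt (h v) (a l)).toNat ≤ K :=
          single_le_sum (f := fun v => (dt (h v) (a l)).toNat) (fun _ _ => Nat.zero_le _)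
            (mem_univ v)
        have h3 : dt (h v) (a l) ≤ K := by
          have := hh v l
          omega
        have h4 : (K : ℤ) * 1 ≤ K * dt (h v) A :=
          mul_le_mul_of_nonneg_left h1 (Int.natCast_nonneg _)
        linarith
    have h1 : φ (K • A) = φ (a l) * φ (K • A - a l) := by
      rw [← hφ _ (haS l) _ hdiff, add_sub_cancel]
    rw [hl, zero_mul, flext_phi_nsmul hφ0 hφ hAS, hA,
      flext_phi_sum hφ0 hφ _ fun i _ => haS i] at h1
    have h2 : ∏ i ∈ univ.filter (fun i => φ (a i) ≠ 0), φ (a i) ≠ 0 :=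
      prod_ne_zero_iff.mpr fun i hi => (mem_filter.mp hi).2
    exact pow_ne_zero _ h2 h1
  -- the torus point
  obtain ⟨ψ, hψ⟩ := flext_ext (fun j : {i // φ (a i) ≠ 0} => a j.1)
    (fun j => Units.mk0 (φ (a j.1)) j.2) (by
      intro n hn
      have h1 : ∑ j, (n j).toNat • a j.1 = ∑ j, (-n j).toNat • a j.1 := by
        rw [← sub_eq_zero, ← sum_sub_distrib, ← hn]
        refine sum_congr rfl fun j _ => ?_
        rw [← natCast_zsmul, ← natCast_zsmul, ← sub_smul]
        congr 1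
        omega
      have h2 := congrArg φ h1
      rw [flext_phi_comb hφ0 hφ univ (fun j : {i // φ (a i) ≠ 0} => haS j.1),
        flext_phi_comb hφ0 hφ univ (fun j : {i // φ (a i) ≠ 0} => haS j.1)] at h2
      have h3 : ∏ j : {i // φ (a i) ≠ 0}, (Units.mk0 (φ (a j.1)) j.2) ^ (n j).toNat =
          ∏ j : {i // φ (a i) ≠ 0}, (Units.mk0 (φ (a j.1)) j.2) ^ (-n j).toNat := by
        apply Units.ext
        simpa using h2
      have h4 : ∀ j : {i // φ (a i) ≠ 0}, (Units.mk0 (φ (a j.1)) j.2) ^ n j =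
          (Units.mk0 (φ (a j.1)) j.2) ^ (n j).toNat /
            (Units.mk0 (φ (a j.1)) j.2) ^ (-n j).toNat := by
        intro j
        rw [div_eq_mul_inv, ← zpow_natCast, ← zpow_natCast, ← zpow_sub]
        congr 1
        omega
      rw [prod_congr rfl fun j _ => h4 j, prod_div_distrib, h3, div_self'])
  refine ⟨H, fun k => (ψ (ev k)).toMul, hH0, ?_, ?_⟩
  · obtain ⟨i, hi⟩ := hI
    exact ⟨i, hHI i hi⟩
  · intro i
    by_cases hi : φ (a i) = 0
    · rw [if_neg (hHl i hi), hi]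
    · rw [if_pos (hHI i hi)]
      have h1 : ψ (a i) = Additive.ofMul (Units.mk0 (φ (a i)) hi) := hψ ⟨i, hi⟩
      have h2 : a i = ∑ k, a i k • ev k := by
        funext j
        simp [ev, Pi.single_apply]
      have h3 : ψ (a i) = ∑ k, a i k • ψ (ev k) := by
        conv_lhs => rw [h2]
        rw [map_sum]
        exact sum_congr rfl fun k _ => map_zsmul ψ _ _
      have h4 : (∏ k, (ψ (ev k)).toMul ^ (a i k) : ℂˣ) = Units.mk0 (φ (a i)) hi := by
        rw [h1] at h3
        have h5 := congrArg Additive.toMul h3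
        rw [toMul_ofMul, toMul_sum] at h5
        rw [h5]
        exact prod_congr rfl fun k _ => (toMul_zsmul _ _).symm
      rw [h4]
      rfl

end Pool.Agent.H56.SMC
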