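import Pool.Agent.H56.SMC.FLNULL
import Pool.Agent.H56.SMC.FLEXT
import Pool.Agent.H56.SMC.CfgDefs

/-!
# FL: the symbols generate an ideal of finite colength

Proof.  `hpos` (`u ∈ Sset h`, `u ≠ 0` implies `0 < dt δ u`): `N • u = ∑ n_i a_i`, `N dt δ u = ∑ n_i`, and if all `n_i = 0` then `u = 0`.
If the conclusion fails for `u0`, `flnull` (with `g_j = gs a c (ev j)`) and `flext` give `φ`, `H`, `χ`, and
`0 = ∑_u (g_j).coeff u φ(u) = ∑_i c_i (a i j) φ(a i) = ∑_{i : dt H (a i) = 0} c_i (a i j) χ^{a i}` for all `j`, contradicting `hnd`.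
-/

set_option autoImplicit false

namespace Pool.Agent.H56.SMC

open Finset AddMonoidAlgebra

/-- The linear extension of `φ`. -/
noncomputable def fl_L {d : ℕ} (φ : Lat d → ℂ) (z : LP ℂ d) : ℂ :=
  z.coeff.sum fun u r => r * φ u

theorem fl_L_add {d : ℕ} (φ : Lat d → ℂ) (x y : LP ℂ d) :
    fl_L φ (x + y) = fl_L φ x + fl_L φ y := by
  classical
  unfold fl_L
  have : (x + y).coeff = x.coeff + y.coeff := rfl
  rw [this]
  exact Finsupp.sum_add_index' (fun u => zero_mul _) (fun u r r' => add_mul _ _ _)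

theorem fl_L_zero {d : ℕ} (φ : Lat d → ℂ) : fl_L φ (0 : LP ℂ d) = 0 := by
  unfold fl_L
  exact Finsupp.sum_zero_index

theorem fl_L_sum {d : ℕ} (φ : Lat d → ℂ) {α : Type*} (s : Finset α) (f : α → LP ℂ d) :
    fl_L φ (∑ i ∈ s, f i) = ∑ i ∈ s, fl_L φ (f i) := by
  classical
  induction s using Finset.induction_on with
  | empty => simpa using fl_L_zero φ
  | insert b s hb ih => rw [sum_insert hb, sum_insert hb, fl_L_add, ih]

theorem fl_L_single {d : ℕ} (φ : Lat d → ℂ) (v : Lat d) (r : ℂ) :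
    fl_L φ (single v r : LP ℂ d) = r * φ v := by
  unfold fl_L
  rw [AddMonoidAlgebra.coeff_single]
  exact Finsupp.sum_single_index (zero_mul _)

/-- FL -/
theorem fl {d : ℕ} {ι κ : Type} [Fintype ι] [Fintype κ] (a : ι → Lat d) (c : ι → ℂ)
    (h : κ → Lat d) (δ : Lat d) (hδ : ∀ i, dt δ (a i) = 1) (hh : ∀ v i, 0 ≤ dt (h v) (a i))
    (hfac : ∀ u ∈ Sset h, ∃ N : ℕ, 0 < N ∧ ∃ n : ι → ℕ, N • u = ∑ i, n i • a i)
    (hnd : TorusND a c) (u : Lat d) (hu : u ∈ Sset h) (hne : u ≠ 0) :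
    ∃ (N : ℕ) (z : Fin d → LP ℂ d), (∀ j, Supp (Sset h) (z j)) ∧
      (single (N • u) 1 : LP ℂ d) = ∑ j, gs a c (ev j) * z j := by
  classical
  have hpos : ∀ u ∈ Sset h, u ≠ 0 → 0 < dt δ u := by
    intro v hv hv0
    obtain ⟨N, hN, n, hn⟩ := hfac v hv
    have h1 : (N : ℤ) * dt δ v = ∑ i, (n i : ℤ) := by
      rw [← dt_nsmul, hn, dt_sum]
      refine sum_congr rfl fun i _ => ?_
      rw [dt_nsmul, hδ i, mul_one]
    have hNZ : (0 : ℤ) < N := by exact_mod_cast hN
    by_contra hcon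
    push Not at hcon
    have h2 : ∑ i, (n i : ℤ) ≤ 0 := by
      rw [← h1]
      exact mul_nonpos_of_nonneg_of_nonpos hNZ.le hcon
    have h3 : ∀ i, n i = 0 := by
      intro i
      have h4 := (sum_eq_zero_iff_of_nonneg (s := univ) (f := fun i => (n i : ℤ))
        (fun i _ => by positivity)).1 (le_antisymm h2 (sum_nonneg fun i _ => by positivity)) i
        (mem_univ i)
      exact_mod_cast h4
    have h5 : N • v = 0 := by
      rw [hn]
      exact sum_eq_zero fun i _ => by rw [h3 i, zero_smul]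
    apply hv0
    funext j
    have h6 := congrFun h5 j
    simp only [Pi.smul_apply, Pi.zero_apply, nsmul_eq_mul, mul_eq_zero] at h6
    rcases h6 with h6 | h6
    · exact absurd h6 hNZ.ne'
    · exact h6
  have hg : ∀ j, Supp (Sset h) (gs a c (ev j)) := by
    intro j
    unfold gs
    refine Supp.sum _ fun i _ => Supp.single ?_ _
    exact fun v => hh v i
  by_contra hno
  push Not at hno
  obtain ⟨φ, hφ0, hφ, hφu, hφg⟩ := flnull h δ hpos (fun j => gs a c (ev j)) hg u hu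
    (fun N ⟨z, hz, hsum⟩ => hno N z hz hsum)
  obtain ⟨H, χ, hH, hHex, hval⟩ := flext a h δ hδ hh hfac φ hφ0 hφ u hu hne hφu
  obtain ⟨j, hj⟩ := hnd H hH hHex χ
  apply hj
  have h1 : fl_L φ (gs a c (ev j)) = 0 := hφg j
  unfold gs at h1
  rw [fl_L_sum] at h1
  rw [sum_filter]
  refine Eq.trans ?_ h1
  refine sum_congr rfl fun i _ => ?_
  rw [fl_L_single, hval i, dt_ev]
  split_ifs
  · ring
  · rw [mul_zero]

end Pool.Agent.H56.SMC
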