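import Pool.Agent.H56.SMC.CONIC
import Pool.Agent.H56.SMC.FL

/-!
# KEXG: exactness on a face

Proof.  The face `T = {i : dt H (a i) = 0}`, `cF = cF a c H`, `g_k = gs a cF (ℓ k)`.  Functionals `h' : Option κ → Lat d`, `h' none = -H`, `h' (some v) = h v`; `Sset h' = Sset h ∩ {dt H u = 0}`
(`dt H u ≥ 0` on `Sset h` by `hfac`, `hH`); the set `{m0 u + y0 ∈ Sset h, dt H u = 0}` is `{m0 u + y0 ∈ Sset h'}` (`hy0`).  `conic` with `r = s`, `g`, `s = a ∘ e`:
`hpos` from `hfac` and `hδ` (`N • u = ∑ n_i a_i`, `N dt δ u = ∑ n_i`, if all `n_i = 0` then `u = 0`).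
`hfl`: for `u ∈ Sset h'`, `u ≠ 0`, `fl` gives `x^{N u} = ∑_j gs a c (ev j) z_j` with `z_j` supported in `Sset h`; the part with `dt H = 0` is `x^{N u} = ∑_j gs a cF (ev j) z̄_j` (`z̄_j` the part of `z_j` with `dt H = 0`;
all exponents have `dt H ≥ 0`); by `hℓ` for `g = ev j`: `gs a cF (ev j) = ∑_k (n_k / N) • g_k` (both sides only involve `i ∈ T`).
-/

set_option autoImplicit false

namespace Pool.Agent.H56.SMC

open Finset AddMonoidAlgebra

private theorem kexg_nonneg {d : ℕ} {ι κ : Type} [Fintype ι] (a : ι → Lat d) (h : κ → Lat d)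
    (hfac : ∀ u ∈ Sset h, ∃ N : ℕ, 0 < N ∧ ∃ n : ι → ℕ, N • u = ∑ i, n i • a i)
    (H : Lat d) (hH : ∀ i, 0 ≤ dt H (a i)) (u : Lat d) (hu : u ∈ Sset h) : 0 ≤ dt H u := by
  obtain ⟨N, hN, n, hn⟩ := hfac u hu
  have h1 : (N : ℤ) * dt H u = ∑ i, (n i : ℤ) * dt H (a i) := by
    rw [← dt_nsmul, hn, dt_sum]
    exact sum_congr rfl fun i _ => dt_nsmul _ _ _
  have h2 : 0 ≤ (N : ℤ) * dt H u := by
    rw [h1]
    exact sum_nonneg fun i _ => mul_nonneg (Int.natCast_nonneg _) (hH i)
  have h3 : (0 : ℤ) < N := by exact_mod_cast hN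
  exact nonneg_of_mul_nonneg_right h2 h3

private theorem kexg_pos {d : ℕ} {ι κ : Type} [Fintype ι] (a : ι → Lat d) (h : κ → Lat d)
    (δ : Lat d) (hδ : ∀ i, dt δ (a i) = 1)
    (hfac : ∀ u ∈ Sset h, ∃ N : ℕ, 0 < N ∧ ∃ n : ι → ℕ, N • u = ∑ i, n i • a i)
    (u : Lat d) (hu : u ∈ Sset h) (hne : u ≠ 0) : 0 < dt δ u := by
  obtain ⟨N, hN, n, hn⟩ := hfac u hu
  have h1 : (N : ℤ) * dt δ u = ∑ i, (n i : ℤ) := by
    rw [← dt_nsmul, hn, dt_sum]
    exact sum_congr rfl fun i _ => by rw [dt_nsmul, hδ, mul_one]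
  have h3 : (0 : ℤ) < N := by exact_mod_cast hN
  have h2 : 0 < ∑ i, (n i : ℤ) := by
    by_contra hcon
    push Not at hcon
    have h4 : ∑ i, (n i : ℤ) = 0 := le_antisymm hcon (sum_nonneg fun i _ => Int.natCast_nonneg _)
    have h5 : ∀ i, n i = 0 := by
      intro i
      have := (sum_eq_zero_iff_of_nonneg (fun i _ => Int.natCast_nonneg (n i))).1 h4 i (mem_univ i)
      exact_mod_cast this
    rw [sum_eq_zero fun i _ => by rw [h5 i, zero_smul]] at hn
    apply hne
    rcases smul_eq_zero.1 hn with h6 | h6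
    · omega
    · exact h6
  rw [← h1] at h2
  exact (mul_pos_iff_of_pos_left h3).1 h2

/-- KEXG -/
theorem kexg {d : ℕ} {ι κ : Type} [Fintype ι] [Fintype κ] (a : ι → Lat d) (c : ι → ℂ)
    (h : κ → Lat d) (δ : Lat d) (hδ : ∀ i, dt δ (a i) = 1) (hh : ∀ v i, 0 ≤ dt (h v) (a i))
    (hfac : ∀ u ∈ Sset h, ∃ N : ℕ, 0 < N ∧ ∃ n : ι → ℕ, N • u = ∑ i, n i • a i)
    (hnd : TorusND a c) (H : Lat d) (hH : ∀ i, 0 ≤ dt H (a i)) {s : ℕ} (ℓ : Fin s → Lat d)
    (hℓ : ∀ g : Lat d, ∃ N : ℤ, N ≠ 0 ∧ ∃ n : Fin s → ℤ, ∀ i, dt H (a i) = 0 →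
      N * dt g (a i) = ∑ k, n k * dt (ℓ k) (a i))
    (e : Fin s → ι) (he : ∀ k, dt H (a (e k)) = 0) (hind : LinearIndependent ℤ (fun k => a (e k)))
    (m0 : ℤ) (hm0 : 0 < m0) (y0 : Lat d) (hy0 : dt H y0 = 0) (x : Fin s → LP ℂ d)
    (hx : ∀ k, Supp {u | m0 • u + y0 ∈ Sset h ∧ dt H u = 0} (x k))
    (h0 : ∑ k, gs a (cF a c H) (ℓ k) * x k = 0) :
    ∃ y : Fin s → Fin s → LP ℂ d,
      (∀ j k, Supp {u | m0 • u + y0 ∈ Sset h ∧ dt H u = 0} (y j k)) ∧
      (∀ j k, y j k = -y k j) ∧ ∀ j, x j = ∑ k, gs a (cF a c H) (ℓ k) * y j k := by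
  classical
  let h' : Option κ → Lat d := fun o => Option.elim o (-H) h
  have hneg : ∀ u : Lat d, dt (-H) u = -dt H u := by
    intro u
    rw [dt_comm, dt_neg, dt_comm]
  have hmem : ∀ u, u ∈ Sset h' ↔ u ∈ Sset h ∧ dt H u = 0 := by
    intro u
    constructor
    · intro hu
      have h1 : u ∈ Sset h := fun v => hu (some v)
      have h2 : 0 ≤ dt (-H) u := hu none
      rw [hneg] at h2
      have h3 := kexg_nonneg a h hfac H hH u h1
      exact ⟨h1, by linarith⟩
    · rintro ⟨h1, h2⟩ o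
      cases o with
      | none =>
        show 0 ≤ dt (-H) u
        rw [hneg, h2, neg_zero]
      | some v => exact h1 v
  have hset : {u | m0 • u + y0 ∈ Sset h ∧ dt H u = 0} = {u | m0 • u + y0 ∈ Sset h'} := by
    ext u
    simp only [Set.mem_ofPred_eq, hmem, dt_add, dt_zsmul, hy0, add_zero, mul_eq_zero, hm0.ne',
      false_or]
  rw [hset] at hx ⊢
  have hai : ∀ i, dt H (a i) = 0 → a i ∈ Sset h' := fun i hi => (hmem _).2 ⟨fun v => hh v i, hi⟩
  refine conic h' δ (fun u hu hne => kexg_pos a h δ hδ hfac u ((hmem u).1 hu).1 hne)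
    (fun k => gs a (cF a c H) (ℓ k)) ?_ ?_ (fun k => a (e k)) (fun k => hai _ (he k)) hind
    m0 hm0 y0 x hx h0
  · intro k u hu
    unfold gs at hu
    rw [coeff_finsum] at hu
    obtain ⟨i, -, hi⟩ := exists_ne_zero_of_sum_ne_zero hu
    rw [coeff_single'] at hi
    by_cases h1 : u = a i
    · rw [if_pos h1] at hi
      have h2 : dt H (a i) = 0 := by
        by_contra h3
        apply hi
        simp only [cF, if_neg h3, zero_mul]
      rw [h1]
      exact ⟨hai i h2, hδ i⟩
    · rw [if_neg h1] at hi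
      exact absurd rfl hi
  · intro u hu hne
    obtain ⟨hu1, hu2⟩ := (hmem u).1 hu
    obtain ⟨N, z, hz, hzN⟩ := fl a c h δ hδ hh hfac hnd u hu1 hne
    let χ : Lat d → ℂ := fun w => if dt H w = 0 then 1 else 0
    let zb : Fin d → LP ℂ d := fun j => dg χ (z j)
    have hzb : ∀ j, Supp (Sset h') (zb j) := by
      intro j w hw
      have hw' : χ w * (z j).coeff w ≠ 0 := hw
      have h1 : (z j).coeff w ≠ 0 := right_ne_zero_of_mul hw'
      have h2 : dt H w = 0 := by
        by_contra h3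
        apply left_ne_zero_of_mul hw'
        simp only [χ, if_neg h3]
      exact (hmem w).2 ⟨hz j w h1, h2⟩
    -- the part with dt H = 0
    have hpart : (single (N • u) 1 : LP ℂ d) = ∑ j, gs a (cF a c H) (ev j) * zb j := by
      apply lp_ext
      intro w
      by_cases hw : dt H w = 0
      · rw [hzN, coeff_finsum, coeff_finsum]
        refine sum_congr rfl fun j _ => ?_
        rw [gs_mul_coeff, gs_mul_coeff]
        refine sum_congr rfl fun i _ => ?_
        rw [show (zb j).coeff (w - a i) = χ (w - a i) * (z j).coeff (w - a i) from rfl]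
        by_cases hi : dt H (a i) = 0
        · have h1 : dt H (w - a i) = 0 := by rw [dt_sub, hw, hi, sub_zero]
          simp only [cF, χ, if_pos hi, if_pos h1, one_mul]
        · have h1 : (z j).coeff (w - a i) = 0 := by
            by_contra h2
            have h3 := kexg_nonneg a h hfac H hH _ (hz j _ h2)
            rw [dt_sub, hw] at h3
            have h4 := hH i
            exact hi (by linarith)
          rw [h1]
          simp
      · have h1 : (single (N • u) 1 : LP ℂ d).coeff w = 0 := by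
          rw [coeff_single', if_neg]
          rintro rfl
          apply hw
          rw [dt_nsmul, hu2, mul_zero]
        rw [h1, coeff_finsum]
        symm
        refine sum_eq_zero fun j _ => ?_
        rw [gs_mul_coeff]
        refine sum_eq_zero fun i _ => ?_
        rw [show (zb j).coeff (w - a i) = χ (w - a i) * (z j).coeff (w - a i) from rfl]
        by_cases hi : dt H (a i) = 0
        · have h2 : dt H (w - a i) ≠ 0 := by rwa [dt_sub, hi, sub_zero]
          simp only [χ, if_neg h2, zero_mul, mul_zero]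
        · simp only [cF, if_neg hi, zero_mul]
    choose M hM n hn using fun j : Fin d => hℓ (ev j)
    refine ⟨N, fun k => ∑ j, ((n j k : ℂ) / (M j : ℂ)) • zb j, ?_, ?_⟩
    · intro k
      exact Supp.sum _ fun j _ => (hzb j).smul _
    · rw [hpart]
      apply lp_ext
      intro w
      rw [coeff_finsum, coeff_finsum]
      simp only [gs_mul_coeff, coeff_finsum, coeff_smul']
      have h1 : ∀ j : Fin d, ∀ i : ι, cF a c H i * (dt (ev j) (a i) : ℂ) =
          ∑ k, cF a c H i * (dt (ℓ k) (a i) : ℂ) * ((n j k : ℂ) / (M j : ℂ)) := by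
        intro j i
        by_cases hi : dt H (a i) = 0
        · have h2 := hn j i hi
          have h3 : (M j : ℂ) * (dt (ev j) (a i) : ℂ) = ∑ k, (n j k : ℂ) * (dt (ℓ k) (a i) : ℂ) := by
            exact_mod_cast h2
          have h4 : (M j : ℂ) ≠ 0 := by exact_mod_cast hM j
          have h5 : (dt (ev j) (a i) : ℂ) = (∑ k, (n j k : ℂ) * (dt (ℓ k) (a i) : ℂ)) / (M j : ℂ) := by
            rw [eq_div_iff h4, ← h3, mul_comm]
          rw [h5, sum_div, mul_sum]
          exact sum_congr rfl fun k _ => by ring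
        · simp only [cF, if_neg hi, zero_mul, sum_const_zero]
      calc ∑ j, ∑ i, cF a c H i * (dt (ev j) (a i) : ℂ) * (zb j).coeff (w - a i)
          = ∑ j, ∑ i, ∑ k, cF a c H i * (dt (ℓ k) (a i) : ℂ) *
              (((n j k : ℂ) / (M j : ℂ)) * (zb j).coeff (w - a i)) := by
            refine sum_congr rfl fun j _ => sum_congr rfl fun i _ => ?_
            rw [h1, sum_mul]
            exact sum_congr rfl fun k _ => by ring
        _ = ∑ k, ∑ i, ∑ j, cF a c H i * (dt (ℓ k) (a i) : ℂ) *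
              (((n j k : ℂ) / (M j : ℂ)) * (zb j).coeff (w - a i)) := by
            rw [sum_congr rfl fun j _ => sum_comm, sum_comm]
            exact sum_congr rfl fun k _ => sum_comm
        _ = _ := by
            refine sum_congr rfl fun k _ => sum_congr rfl fun i _ => ?_
            rw [mul_sum]

end Pool.Agent.H56.SMC
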