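import Pool.Agent.H56.SMC.CfgDefs

/-!
# Definitions for the theorem on at most one bad index
-/

set_option autoImplicit false

namespace Pool.Agent.H56.SMC

open Finset AddMonoidAlgebra

/-- The face of `w` is a pyramid of height one over its part in the hyperplane `a_k = 0`: there is
exactly one exponent on the face with `a_k ≠ 0`, and it has `a_k = 1`. -/
def B1 {n r : ℕ} (a : Fin r → (Fin n →₀ ℕ)) (w : Fin n → ℕ) (k : Fin n) : Prop :=
  w k ≠ 0 ∧ ∃ i1, ∑ j, a i1 j * w j = H22.wmin a w ∧ a i1 k = 1 ∧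
    ∀ i, ∑ j, a i j * w j = H22.wmin a w → i ≠ i1 → a i k = 0

/-- The face of `w` contains a pyramid of height one in the direction `k`: the exponents on the face
with `a_k = 0` (together with the directions `e_j`, `w_j = 0`) span a space of dimension `n - 1`, and
there is an exponent on the face with `a_k = 1`. -/
def HasB1 {n r : ℕ} (a : Fin r → (Fin n →₀ ℕ)) (w : Fin n → ℕ) (k : Fin n) : Prop :=
  Module.finrank ℝ (Submodule.span ℝ
    ({y | ∃ i, ∑ j, a i j * w j = H22.wmin a w ∧ a i k = 0 ∧ y = H22.rowR a i} ∪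
      {y | ∃ j, w j = 0 ∧ y = Sum.elim (fun _ => 0) (Pi.single j 1)} :
        Set (Unit ⊕ Fin n → ℝ))) = n - 1 ∧
  ∃ i, ∑ j, a i j * w j = H22.wmin a w ∧ a i k = 1

/-- No variable direction is bad for the face of `w`. -/
def NoB1 {n r : ℕ} (a : Fin r → (Fin n →₀ ℕ)) (w : Fin n → ℕ) : Prop :=
  ∀ k, w k ≠ 0 → (∃ i, a i k = 0) → ¬ HasB1 a w k

/-- No variable direction except possibly `k0` is bad for the face of `w`. -/
def NoB1Except {n r : ℕ} (a : Fin r → (Fin n →₀ ℕ)) (w : Fin n → ℕ) (k0 : Fin n) : Prop :=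
  ∀ k, k ≠ k0 → (∃ i, a i k = 0) → (w k ≠ 0 → ¬ HasB1 a w k) ∧
    (w k = 0 → ∀ i, ∑ j, a i j * w j = H22.wmin a w → a i k ≠ 1)

/-- The index `k` is bad: `x_k` does not divide `f`, and some exponent has `a_k = 1`. -/
def Bad {n r : ℕ} (a : Fin r → (Fin n →₀ ℕ)) (k : Fin n) : Prop :=
  (∃ i, a i k = 0) ∧ ∃ i, a i k = 1

end Pool.Agent.H56.SMC
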