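import Pool.Agent.H56.SMC.CfgDefs

/-!
# APPN: the eigenvalues

`s = C s0 + X`, `s0 = -|w|/N(w)` real, `t = C I` (`Complex.I`).
Proof.  `pv_pp`: for `h = vec l l2 v`: `pv (pp s t) h + m = -l s - l2 t + ∑ v_j + m`.  Its constant coefficient is `-l s0 - l2 I + ∑ v_j + m`, with imaginary part `-l2` (`s0` is real), its `X`-coefficient is `-l`.
A power series is a unit iff its constant coefficient is nonzero.  If `l2 ≠ 0` the imaginary part is nonzero: unit.  `h = vec 1 0 0`: `X`-coefficient `-1 ≠ 0`.  `h = vec (-wmin a v) 0 v`: if `wmin a v ≠ 0` the `X`-coefficient is nonzero; if `wmin a v = 0` it is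
the constant `|v| + m`, and `m < L ≤ -|v|`.  Unit in the last case: the constant coefficient `|v| + N(v) s0 + m` is zero iff `|v| N(w) - N(v) |w| = -m N(w)`, i.e. (`l := -m`) `wsum v * N(w) = l N(w) + N(v) |w|`; `m < L ≤ 0` gives `l > 0` and `hL` gives `L ≤ -l = m`, a contradiction.
-/

set_option autoImplicit false

namespace Pool.Agent.H56.SMC

open Finset AddMonoidAlgebra

/-- The constant coefficient. -/
theorem appn_c0 {n : ℕ} (s0 : ℂ) (h : Lat (n + 2)) (mm : ℤ) :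
    PowerSeries.constantCoeff (pv (pp (PowerSeries.C s0 + PowerSeries.X)
      (PowerSeries.C Complex.I)) h + (mm : PA)) =
      -((h 0 : ℂ) * s0) - (h (Fin.succ 0) : ℂ) * Complex.I +
        ((∑ j : Fin n, h j.succ.succ : ℤ) : ℂ) + (mm : ℂ) := by
  conv_lhs => rw [vec_surj h, pv_pp]
  simp [map_add, map_sub, map_neg, map_mul]

/-- The coefficient of `X`. -/
theorem appn_c1 {n : ℕ} (s0 : ℂ) (h : Lat (n + 2)) (mm : ℤ) :
    PowerSeries.coeff 1 (pv (pp (PowerSeries.C s0 + PowerSeries.X)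
      (PowerSeries.C Complex.I)) h + (mm : PA)) = -(h 0 : ℂ) := by
  have hint : ∀ z : ℤ, (z : PA) = PowerSeries.C (z : ℂ) := fun z => (map_intCast _ z).symm
  have hz : ∀ z : ℤ, PowerSeries.coeff 1 (z : PA) = 0 := by
    intro z
    rw [hint, PowerSeries.coeff_C, if_neg one_ne_zero]
  conv_lhs => rw [vec_surj h, pv_pp]
  rw [hint, hint, hint, hint, mul_add, ← map_mul, ← map_mul]
  simp only [map_add, map_sub, map_neg]
  rw [PowerSeries.coeff_C_mul, PowerSeries.coeff_one_X]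
  simp [hz]

/-- APPN, nonresonance over `KA` -/
theorem appn {n r : ℕ} (a : Fin r → (Fin n →₀ ℕ)) (w : Fin n → ℕ) (hN : 0 < H22.wmin a w)
    (h : Lat (n + 2)) (L : ℤ)
    (hcase : h (Fin.succ 0) ≠ 0 ∨ h = vec 1 0 0 ∨ ∃ v : Fin n → ℕ,
      h = vec (-(H22.wmin a v : ℤ)) 0 (fun j => (v j : ℤ)) ∧
        (H22.wmin a v = 0 → L ≤ -(H22.wsum v : ℤ)))
    (mm : ℤ) (hmm : mm < L) :
    pv (pp (PowerSeries.C (-(H22.wsum w : ℂ) / (H22.wmin a w : ℂ)) + PowerSeries.X)
      (PowerSeries.C Complex.I)) h + (mm : PA) ≠ 0 := by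
  set s0 : ℂ := -(H22.wsum w : ℂ) / (H22.wmin a w : ℂ) with hs0
  have hs0im : s0.im = 0 := by
    have : s0 = ((-(H22.wsum w : ℝ) / (H22.wmin a w : ℝ) : ℝ) : ℂ) := by
      rw [hs0]; push_cast; rfl
    rw [this, Complex.ofReal_im]
  intro h0
  have e0 := appn_c0 s0 h mm
  have e1 := appn_c1 s0 h mm
  rw [h0, map_zero] at e0 e1
  rcases hcase with hc | hc | ⟨v, hv, hvL⟩
  · have e2 := congrArg Complex.im e0
    simp [hs0im] at e2
    exact hc e2
  · rw [hc] at e1
    simp [vec] at e1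
  · rw [hv] at e0 e1
    by_cases hw : H22.wmin a v = 0
    · have h1 := hvL hw
      simp only [vec, Fin.cons_zero, Fin.cons_succ, hw] at e0
      have e3 : ((∑ j, (v j : ℤ) + mm : ℤ) : ℂ) = 0 := by
        push_cast
        push_cast at e0
        rw [e0]
        ring
      have e4 : (∑ j, (v j : ℤ)) + mm = 0 := by exact_mod_cast e3
      have e5 : (H22.wsum v : ℤ) = ∑ j, (v j : ℤ) := by
        rw [H22.wsum]; push_cast; rfl
      omega
    · simp only [vec, Fin.cons_zero] at e1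
      apply hw
      have e3 : ((H22.wmin a v : ℤ) : ℂ) = 0 := by
        rw [e1]; push_cast; ring
      exact_mod_cast e3

/-- APPN, units -/
theorem appu {n r : ℕ} (a : Fin r → (Fin n →₀ ℕ)) (w : Fin n → ℕ) (hN : 0 < H22.wmin a w)
    (h : Lat (n + 2)) (L : ℤ) (hL0 : L ≤ 0)
    (hcase : h (Fin.succ 0) ≠ 0 ∨ ∃ v : Fin n → ℕ,
      h = vec (-(H22.wmin a v : ℤ)) 0 (fun j => (v j : ℤ)) ∧
        ∀ l : ℕ, 0 < l →
          H22.wsum v * H22.wmin a w = l * H22.wmin a w + H22.wmin a v * H22.wsum w →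
          L ≤ -(l : ℤ))
    (mm : ℤ) (hmm : mm < L) :
    IsUnit (pv (pp (PowerSeries.C (-(H22.wsum w : ℂ) / (H22.wmin a w : ℂ)) + PowerSeries.X)
      (PowerSeries.C Complex.I)) h + (mm : PA)) := by
  set s0 : ℂ := -(H22.wsum w : ℂ) / (H22.wmin a w : ℂ) with hs0
  have hs0im : s0.im = 0 := by
    have : s0 = ((-(H22.wsum w : ℝ) / (H22.wmin a w : ℝ) : ℝ) : ℂ) := by
      rw [hs0]; push_cast; rfl
    rw [this, Complex.ofReal_im]
  rw [PowerSeries.isUnit_iff_constantCoeff, isUnit_iff_ne_zero, appn_c0]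
  intro e0
  rcases hcase with hc | ⟨v, hv, hvL⟩
  · have e2 := congrArg Complex.im e0
    simp [hs0im] at e2
    exact hc e2
  · rw [hv] at e0
    simp only [vec, Fin.cons_zero, Fin.cons_succ] at e0
    have hN' : (H22.wmin a w : ℂ) ≠ 0 := by
      have : H22.wmin a w ≠ 0 := hN.ne'
      exact_mod_cast this
    have e5 : ((∑ j, (v j : ℤ) : ℤ) : ℂ) = (H22.wsum v : ℂ) := by
      rw [H22.wsum]; push_cast; rfl
    rw [e5, hs0] at e0
    have e6 : (H22.wsum v : ℂ) * (H22.wmin a w : ℂ) =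
        (-mm : ℂ) * (H22.wmin a w : ℂ) + (H22.wmin a v : ℂ) * (H22.wsum w : ℂ) := by
      push_cast at e0
      field_simp at e0
      linear_combination e0
    have e7 : (H22.wsum v : ℤ) * (H22.wmin a w : ℤ) =
        (-mm) * (H22.wmin a w : ℤ) + (H22.wmin a v : ℤ) * (H22.wsum w : ℤ) := by
      have e8 : (((H22.wsum v : ℤ) * (H22.wmin a w : ℤ) : ℤ) : ℂ) =
        (((-mm) * (H22.wmin a w : ℤ) + (H22.wmin a v : ℤ) * (H22.wsum w : ℤ) : ℤ) : ℂ) := by
        push_cast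
        exact e6
      exact_mod_cast e8
    have hm : 0 < -mm := by omega
    obtain ⟨l, hl⟩ := Int.eq_ofNat_of_zero_le hm.le
    have hl0 : 0 < l := by omega
    rw [hl] at e7
    have := hvL l hl0 (by exact_mod_cast e7)
    omega

end Pool.Agent.H56.SMC
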