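import Pool.Agent.H56.SMC.Basic

/-!
# FAC: the facets of a full dimensional pointed rational cone (Minkowski-Weyl)

Proof.  Let `C* = {h ∈ ℝ^{d+1} : h·a_i ≥ 0 for all i}`.  `C*` is pointed, because the `a_i` span.  For each `e : Fin d → ι` with `a ∘ e` linearly independent the space of functionals
vanishing on the `a (e k)` is spanned by one primitive vector `h_e ∈ ℤ^{d+1}`; if `h_e` or `-h_e` is `≥ 0` on all `a_i` put it into the (finite) family `h`.
Then the first three properties hold.  Last property: let `u ∈ Sset h`; claim: `u` is a nonnegative rational combination of the `a_i` (then clear denominators).  Otherwise by Farkas' lemma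
(rational version; e.g. `Pool.Agent.H22.farkas`, or Gordan type lemmas of `Pool.Agent.H60`, or the Mathlib Farkas lemma) there is `h' ∈ C*` with `h'·u < 0`.  Choose such `h'` (possibly real) with the
maximal rank `ρ` of the active set `{a_i : h'·a_i = 0}`.  `ρ ≤ d` since `h' ≠ 0`.  If `ρ = d` then `h'` is a positive multiple of a member of the family `h`, a contradiction.  If `ρ < d` there is `h''`
not proportional to `h'` vanishing on the active set; the two dimensional plane `P` spanned by `h'`, `h''` intersects `C*` in a pointed closed two dimensional cone containing `h'` in its interior relative to `P`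
(for small `t` `h' ± t h'' ∈ C*`), so `P ∩ C*` is generated by two boundary rays `r1`, `r2`, at each of which a new constraint becomes active (rank `> ρ`); `h' = α r1 + β r2` with `α, β ≥ 0`, so
`r1·u < 0` or `r2·u < 0`, a contradiction to the maximality.
(Alternative: `C* ∩ ℤ^{d+1}` is finitely generated; a minimal generating family consists of extreme vectors; extreme implies that the active set has rank `d`; then Farkas duality.)
-/

set_option autoImplicit false

namespace Pool.Agent.H56.SMC

open Finset AddMonoidAlgebra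

section FACsec

variable {V ι : Type*} [AddCommGroup V] [Module ℚ V]

/-- Farkas' lemma for linear functionals over `ℚ`. -/
theorem fac_farkas [DecidableEq ι] (F : Finset ι) :
    ∀ (b : ι → V →ₗ[ℚ] ℚ) (v : V →ₗ[ℚ] ℚ), (∀ w, (∀ k ∈ F, 0 ≤ b k w) → 0 ≤ v w) →
      ∃ c : ι → ℚ, (∀ k, 0 ≤ c k) ∧ v = ∑ k ∈ F, c k • b k := by
  induction F using Finset.induction_on with
  | empty =>
    intro b v h
    refine ⟨fun _ => 0, by simp, ?_⟩
    ext w
    have h1 := h w (by simp)
    have h2 := h (-w) (by simp)
    rw [map_neg] at h2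
    simp only [Finset.sum_empty, LinearMap.zero_apply]
    linarith
  | insert p F hp ih =>
    intro b v h
    by_cases h0 : ∀ w, (∀ k ∈ F, 0 ≤ b k w) → 0 ≤ v w
    · obtain ⟨c, hc, hv⟩ := ih b v h0
      refine ⟨fun k => if k = p then 0 else c k, fun k => ?_, ?_⟩
      · simp only
        split_ifs with hkp
        · exact le_rfl
        · exact hc k
      · rw [Finset.sum_insert hp]
        simp only [if_true, zero_smul, zero_add]
        rw [hv]
        refine Finset.sum_congr rfl fun k hk => ?_
        rw [if_neg (by rintro rfl; exact hp hk)]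
    · push Not at h0
      obtain ⟨w1, hw1, hv1⟩ := h0
      have hbp : b p w1 < 0 := by
        by_contra hcon
        push Not at hcon
        have := h w1 (fun k hk => by
          rcases Finset.mem_insert.mp hk with rfl | hk
          · exact hcon
          · exact hw1 k hk)
        linarith
      set w0 : V := (-(b p w1))⁻¹ • w1 with hw0
      have hpos : 0 < (-(b p w1))⁻¹ := inv_pos.mpr (by linarith)
      have hb0 : b p w0 = -1 := by
        rw [hw0, map_smul, smul_eq_mul]
        have : b p w1 ≠ 0 := by linarith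
        field_simp
      have hbk0 : ∀ k ∈ F, 0 ≤ b k w0 := by
        intro k hk
        rw [hw0, map_smul, smul_eq_mul]
        exact mul_nonneg hpos.le (hw1 k hk)
      have hv0 : v w0 < 0 := by
        rw [hw0, map_smul, smul_eq_mul]
        exact mul_neg_of_pos_of_neg hpos hv1
      obtain ⟨c, hc, hv⟩ := ih (fun k => b k + (b k w0) • b p) (v + (v w0) • b p) (by
        intro w hw
        have h1 := h (w + (b p w) • w0) (fun k hk => by
          rcases Finset.mem_insert.mp hk with rfl | hk
          · rw [map_add, map_smul, smul_eq_mul, hb0]; linarith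
          · have := hw k hk
            simp only [LinearMap.add_apply, LinearMap.smul_apply, smul_eq_mul] at this
            rw [map_add, map_smul, smul_eq_mul]
            linarith)
        rw [map_add, map_smul, smul_eq_mul] at h1
        simp only [LinearMap.add_apply, LinearMap.smul_apply, smul_eq_mul]
        linarith)
      refine ⟨fun k => if k = p then ∑ k ∈ F, c k * b k w0 - v w0 else c k, fun k => ?_, ?_⟩
      · simp only
        split_ifs with hkp
        · have : 0 ≤ ∑ k ∈ F, c k * b k w0 :=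
            Finset.sum_nonneg fun k hk => mul_nonneg (hc k) (hbk0 k hk)
          linarith
        · exact hc k
      · rw [Finset.sum_insert hp]
        simp only [if_true]
        have h2 : ∑ k ∈ F, (if k = p then ∑ k ∈ F, c k * b k w0 - v w0 else c k) • b k =
            ∑ k ∈ F, c k • b k := by
          refine Finset.sum_congr rfl fun k hk => ?_
          rw [if_neg (by rintro rfl; exact hp hk)]
        rw [h2]
        ext w
        have h3 := congrArg (fun f : V →ₗ[ℚ] ℚ => f w) hv
        simp only [LinearMap.add_apply, LinearMap.smul_apply, smul_eq_mul,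
          LinearMap.coe_sum, Finset.sum_apply] at h3 ⊢
        have h4 : ∑ k ∈ F, c k * (b k w + b k w0 * b p w) =
            ∑ k ∈ F, c k * b k w + (∑ k ∈ F, c k * b k w0) * b p w := by
          rw [Finset.sum_mul, ← Finset.sum_add_distrib]
          exact Finset.sum_congr rfl fun k _ => by ring
        rw [h4] at h3
        linarith

/-- Farkas' lemma for vectors over `ℚ`. -/
theorem fac_farkas_vec [FiniteDimensional ℚ V] [Fintype ι] (b : ι → V) (v : V)
    (h : ¬ ∃ c : ι → ℚ, (∀ k, 0 ≤ c k) ∧ v = ∑ k, c k • b k) :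
    ∃ φ : V →ₗ[ℚ] ℚ, (∀ i, 0 ≤ φ (b i)) ∧ φ v < 0 := by
  classical
  by_contra hcon
  push Not at hcon
  apply h
  obtain ⟨c, hc, hv⟩ := fac_farkas (V := Module.Dual ℚ V) (univ : Finset ι)
    (fun i => Module.Dual.eval ℚ V (b i)) (Module.Dual.eval ℚ V v) (by
      intro φ hφ
      exact hcon φ (fun i => hφ i (mem_univ i)))
  refine ⟨c, hc, ?_⟩
  have hinj := Module.eval_apply_injective ℚ (V := V)
  apply hinj
  rw [map_sum]
  simp only [map_smul]
  exact hv

/-- A functional with a maximal active set has active rank at least `d`. -/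
theorem fac_max [FiniteDimensional ℚ V] [Fintype ι] {d : ℕ}
    (hd : Module.finrank ℚ V = d + 1) (b : ι → V) (hb : Submodule.span ℚ (Set.range b) = ⊤) (v : V)
    (h : ∃ φ : V →ₗ[ℚ] ℚ, (∀ i, 0 ≤ φ (b i)) ∧ φ v < 0) :
    ∃ φ : V →ₗ[ℚ] ℚ, (∀ i, 0 ≤ φ (b i)) ∧ φ v < 0 ∧
      ∃ e : Fin d → ι, (∀ k, φ (b (e k)) = 0) ∧ LinearIndependent ℚ (fun k => b (e k)) := by
  classical
  let S : Set (Finset ι) := {A | ∃ φ : V →ₗ[ℚ] ℚ, (∀ i, 0 ≤ φ (b i)) ∧ φ v < 0 ∧
    A = univ.filter (fun i => φ (b i) = 0)}
  have hne : S.Nonempty := by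
    obtain ⟨φ, h1, h2⟩ := h
    exact ⟨_, φ, h1, h2, rfl⟩
  obtain ⟨A, ⟨φ, h1, h2, hA⟩, hmax⟩ := (Set.toFinite S).exists_maximal hne
  refine ⟨φ, h1, h2, ?_⟩
  -- the rank of the active set
  have hrank : d ≤ Module.finrank ℚ (Submodule.span ℚ (b '' (A : Set ι))) := by
    by_contra hlt
    push Not at hlt
    -- a functional vanishing on the active set and on `v`
    have hlt2 : Submodule.span ℚ (insert v (b '' (A : Set ι))) < ⊤ := by
      rw [lt_top_iff_ne_top]
      intro htop
      have h3 : Module.finrank ℚ (Submodule.span ℚ (insert v (b '' (A : Set ι)))) = d + 1 := by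
        rw [htop, finrank_top, hd]
      rw [Submodule.span_insert] at h3
      have h4 := Submodule.finrank_add_le_finrank_add_finrank (Submodule.span ℚ {v})
        (Submodule.span ℚ (b '' (A : Set ι)))
      have h5 : Module.finrank ℚ (Submodule.span ℚ ({v} : Set V)) ≤ 1 := by
        have h51 := finrank_span_le_card (R := ℚ) ({v} : Set V)
        simpa using h51
      omega
    obtain ⟨ψ, hψ0, hψ⟩ := Submodule.exists_le_ker_of_lt_top _ hlt2
    have hψv : ψ v = 0 := hψ (Submodule.subset_span (Set.mem_insert _ _))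
    have hψA : ∀ i ∈ A, ψ (b i) = 0 := fun i hi =>
      hψ (Submodule.subset_span (Set.mem_insert_of_mem _ ⟨i, hi, rfl⟩))
    -- choose the sign
    obtain ⟨θ, hθv, hθA, i0, hi0⟩ : ∃ θ : V →ₗ[ℚ] ℚ, θ v = 0 ∧ (∀ i ∈ A, θ (b i) = 0) ∧
        ∃ i, θ (b i) < 0 := by
      have : ∃ i, ψ (b i) ≠ 0 := by
        by_contra hall
        push Not at hall
        apply hψ0
        apply LinearMap.ext_on_range hb
        intro i
        rw [hall i]; rfl
      obtain ⟨i, hi⟩ := this
      rcases lt_or_gt_of_ne hi with hi | hi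
      · exact ⟨ψ, hψv, hψA, i, hi⟩
      · exact ⟨-ψ, by simp [hψv], fun j hj => by simp [hψA j hj], i, by simpa using hi⟩
    -- the step
    let N : Finset ι := univ.filter (fun i => θ (b i) < 0)
    have hN : N.Nonempty := ⟨i0, by simp [N, hi0]⟩
    obtain ⟨j, hjN, hj⟩ := N.exists_min_image (fun i => φ (b i) / (-θ (b i))) hN
    have hθj : θ (b j) < 0 := by simpa [N] using hjN
    set t : ℚ := φ (b j) / (-θ (b j)) with ht
    have ht0 : 0 ≤ t := div_nonneg (h1 j) (by linarith)
    have hjA : j ∉ A := fun hj' => by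
      have := hθA j hj'
      linarith
    have hnew : (univ.filter (fun i => (φ + t • θ) (b i) = 0)) ∈ S := by
      refine ⟨φ + t • θ, fun i => ?_, ?_, rfl⟩
      · simp only [LinearMap.add_apply, LinearMap.smul_apply, smul_eq_mul]
        by_cases hi : θ (b i) < 0
        · have h6 := hj i (by simp [N, hi])
          rw [le_div_iff₀ (by linarith)] at h6
          linarith
        · push Not at hi
          have := h1 i
          have := mul_nonneg ht0 hi
          linarith
      · simp only [LinearMap.add_apply, LinearMap.smul_apply, smul_eq_mul, hθv]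
        linarith
    have hsub : A ≤ univ.filter (fun i => (φ + t • θ) (b i) = 0) := by
      intro i hi
      have h7 : φ (b i) = 0 := by
        rw [hA] at hi
        simpa using hi
      simp only [mem_filter, mem_univ, true_and, LinearMap.add_apply, LinearMap.smul_apply,
        smul_eq_mul, h7, hθA i hi]
      ring
    have h8 := hmax hnew hsub
    apply hjA
    apply h8
    simp only [mem_filter, mem_univ, true_and, LinearMap.add_apply, LinearMap.smul_apply,
      smul_eq_mul]
    rw [ht, div_neg, neg_mul, div_mul_cancel₀ _ hθj.ne, add_neg_cancel]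
  have hAφ : ∀ i ∈ A, φ (b i) = 0 := by
    intro i hi
    rw [hA] at hi
    simpa using hi
  obtain ⟨f, hf, -, hli⟩ := Submodule.exists_fun_fin_finrank_span_eq ℚ (b '' (A : Set ι))
  choose g hgA hg using hf
  refine ⟨fun k => g (Fin.castLE hrank k), fun k => ?_, ?_⟩
  · exact hAφ _ (hgA (Fin.castLE hrank k))
  · have h9 : (fun k => b (g (Fin.castLE hrank k))) = f ∘ (Fin.castLE hrank) := by
      funext k
      exact hg _
    rw [h9]
    exact hli.comp _ (Fin.castLE_injective hrank)

end FACsec

/-- Common denominators. -/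
theorem fac_den {κ : Type*} [Fintype κ] (q : κ → ℚ) :
    ∃ N : ℕ, 0 < N ∧ ∃ n : κ → ℤ, ∀ k, (N : ℚ) * q k = n k := by
  classical
  refine ⟨∏ k, (q k).den, Finset.prod_pos fun k _ => (q k).den_pos, ?_⟩
  have h : ∀ k, ∃ n : ℤ, ((∏ k, (q k).den : ℕ) : ℚ) * q k = n := by
    intro k
    obtain ⟨m, hm⟩ := Finset.dvd_prod_of_mem (fun k => (q k).den) (mem_univ k)
    refine ⟨m * (q k).num, ?_⟩
    rw [hm]
    push_cast
    have := Rat.mul_den_eq_num (q k)
    rw [← this]
    ring
  choose n hn using h
  exact ⟨n, hn⟩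

/-- The primitive vector on a ray. -/
theorem fac_prim {n : ℕ} (m : Fin n → ℤ) (hm : m ≠ 0) :
    ∃ (h : Lat n) (g : ℤ), 0 < g ∧ (∀ j, m j = g * h j) ∧ ∃ u, dt h u = 1 := by
  have key : ∃ (g : ℤ) (c : Fin n → ℤ), (∀ j, g ∣ m j) ∧ ∑ j, c j * m j = g := by
    obtain ⟨g, hg⟩ := (IsPrincipalIdealRing.principal (Ideal.span (Set.range m)))
    rw [← Ideal.span] at hg
    have h1 : g ∈ Ideal.span (Set.range m) := by
      rw [hg]; exact Ideal.mem_span_singleton_self g
    obtain ⟨c, hc⟩ := (Ideal.mem_span_range_iff_exists_fun).1 h1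
    refine ⟨g, c, fun j => ?_, hc⟩
    have h2 : m j ∈ Ideal.span (Set.range m) := Ideal.subset_span ⟨j, rfl⟩
    rw [hg, Ideal.mem_span_singleton] at h2
    exact h2
  obtain ⟨g, c, hg, hc⟩ := key
  have hg0 : g ≠ 0 := by
    rintro rfl
    apply hm
    funext j
    exact zero_dvd_iff.1 (hg j)
  obtain ⟨g, c, hg, hc, hpos⟩ : ∃ (g : ℤ) (c : Fin n → ℤ), (∀ j, g ∣ m j) ∧ ∑ j, c j * m j = g ∧
      0 < g := by
    rcases lt_or_gt_of_ne hg0 with h | h
    · refine ⟨-g, fun j => -c j, fun j => (neg_dvd).2 (hg j), ?_, by linarith⟩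
      rw [← hc]
      simp
    · exact ⟨g, c, hg, hc, h⟩
  choose h hh using hg
  refine ⟨h, g, hpos, hh, c, ?_⟩
  have h3 : g * dt h c = g * 1 := by
    rw [mul_one]
    conv_rhs => rw [← hc]
    rw [dt, mul_sum]
    refine sum_congr rfl fun j _ => ?_
    rw [hh j]; ring
  exact mul_left_cancel₀ hpos.ne' h3

/-- The rational functional of an integral one. -/
noncomputable def facL {n : ℕ} (h : Lat n) : (Fin n → ℚ) →ₗ[ℚ] ℚ :=
  ∑ j, (h j : ℚ) • LinearMap.proj j

theorem facL_apply {n : ℕ} (h : Lat n) (x : Fin n → ℚ) : facL h x = ∑ j, (h j : ℚ) * x j := by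
  simp [facL]

/-- The rational vector of an integral one. -/
def facV {n : ℕ} (x : Lat n) : Fin n → ℚ := fun j => (x j : ℚ)

theorem facL_facV {n : ℕ} (h x : Lat n) : facL h (facV x) = (dt h x : ℚ) := by
  rw [facL_apply, dt]
  push_cast
  rfl

/-- Every nonzero rational functional is a positive multiple of a primitive integral one. -/
theorem fac_scale {n : ℕ} (φ : (Fin n → ℚ) →ₗ[ℚ] ℚ) (hφ : φ ≠ 0) :
    ∃ (h : Lat n) (γ : ℚ), 0 < γ ∧ φ = γ • facL h ∧ ∃ u, dt h u = 1 := by
  obtain ⟨N, hN, m, hm⟩ := fac_den (fun j => φ (Pi.single j 1))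
  have hm0 : m ≠ 0 := by
    rintro rfl
    apply hφ
    apply LinearMap.pi_ext'
    intro j
    apply LinearMap.ext_ring
    have h1 := hm j
    simp only [Pi.zero_apply, Int.cast_zero, mul_eq_zero, Nat.cast_eq_zero] at h1
    rcases h1 with h1 | h1
    · omega
    · simpa using h1
  obtain ⟨h, g, hg, hmg, hu⟩ := fac_prim m hm0
  have hNq : (0 : ℚ) < N := by exact_mod_cast hN
  have hgq : (0 : ℚ) < g := by exact_mod_cast hg
  refine ⟨h, g / N, div_pos hgq hNq, ?_, hu⟩
  apply LinearMap.pi_ext'
  intro j
  apply LinearMap.ext_ring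
  have h1 := hm j
  simp only [LinearMap.comp_apply, LinearMap.smul_apply, smul_eq_mul, facL_apply,
    LinearMap.single_apply]
  rw [Finset.sum_eq_single j (fun k _ hk => by simp [hk]) (by simp)]
  simp only [Pi.single_eq_same, mul_one]
  have h2 : (m j : ℚ) = g * h j := by exact_mod_cast hmg j
  rw [h2] at h1
  field_simp
  linarith

/-- Linear independence over `ℤ` and over `ℚ`. -/
theorem fac_li {n : ℕ} {κ : Type*} (v : κ → Lat n) :
    LinearIndependent ℤ v ↔ LinearIndependent ℚ (fun k => facV (v k)) := by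
  rw [← LinearIndependent.iff_fractionRing ℤ ℚ]
  let L : Lat n →ₗ[ℤ] (Fin n → ℚ) :=
    { toFun := facV
      map_add' := fun x y => by funext j; simp [facV]
      map_smul' := fun r x => by funext j; simp [facV] }
  have hL : LinearMap.ker L = ⊥ := by
    rw [LinearMap.ker_eq_bot]
    intro x y hxy
    funext j
    have h1 : facV x = facV y := hxy
    have h2 : (x j : ℚ) = (y j : ℚ) := congrFun h1 j
    exact_mod_cast h2
  exact (LinearMap.linearIndependent_iff L hL).symm

/-- FAC -/
theorem fac {d : ℕ} {ι : Type} [Fintype ι] (a : ι → Lat (d + 1)) (δ : Lat (d + 1))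
    (hδ : ∀ i, dt δ (a i) = 1)
    (hspan : ∃ e : Fin (d + 1) → ι, LinearIndependent ℤ (fun k => a (e k))) :
    ∃ (m : ℕ) (h : Fin m → Lat (d + 1)), (∀ v i, 0 ≤ dt (h v) (a i)) ∧
      (∀ v, ∃ u, dt (h v) u = 1) ∧
      (∀ v, ∃ e : Fin d → ι, (∀ k, dt (h v) (a (e k)) = 0) ∧
        LinearIndependent ℤ (fun k => a (e k))) ∧
      ∀ u ∈ Sset h, ∃ N : ℕ, 0 < N ∧ ∃ n : ι → ℕ, N • u = ∑ i, n i • a i := by
  classical
  obtain ⟨es, hes⟩ := hspan
  have hesQ := (fac_li _).1 hes
  set b : ι → (Fin (d + 1) → ℚ) := fun i => facV (a i) with hbdef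
  have hbtop : Submodule.span ℚ (Set.range b) = ⊤ := by
    have h1 : Submodule.span ℚ (Set.range fun k => b (es k)) = ⊤ :=
      hesQ.span_eq_top_of_card_eq_finrank (by simp)
    rw [eq_top_iff, ← h1]
    apply Submodule.span_mono
    rintro _ ⟨k, rfl⟩
    exact ⟨es k, rfl⟩
  -- the facet functionals
  let T : (Fin d → ι) → Lat (d + 1) → Prop := fun e h =>
    (∀ i, 0 ≤ dt h (a i)) ∧ (∃ u, dt h u = 1) ∧ ∀ k, dt h (a (e k)) = 0
  let J : Type := {e : Fin d → ι // LinearIndependent ℤ (fun k => a (e k)) ∧ ∃ h, T e h}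
  have : Finite J := inferInstanceAs (Finite {e : Fin d → ι // _})
  have : Fintype J := Fintype.ofFinite J
  let E : J ≃ Fin (Fintype.card J) := Fintype.equivFin J
  have hch : ∀ j : J, ∃ h, T j.1 h := fun j => j.2.2
  choose H hH using hch
  refine ⟨Fintype.card J, fun v => H (E.symm v), fun v i => (hH _).1 i, fun v => (hH _).2.1,
    fun v => ⟨(E.symm v).1, (hH _).2.2, (E.symm v).2.1⟩, ?_⟩
  intro u hu
  by_cases hcone : ∃ c : ι → ℚ, (∀ k, 0 ≤ c k) ∧ facV u = ∑ k, c k • b k
  · obtain ⟨c, hc, hcu⟩ := hcone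
    obtain ⟨N, hN, n, hn⟩ := fac_den c
    have hn0 : ∀ i, 0 ≤ n i := by
      intro i
      have h1 : (0 : ℚ) ≤ n i := by
        rw [← hn i]
        exact mul_nonneg (by positivity) (hc i)
      exact_mod_cast h1
    refine ⟨N, hN, fun i => (n i).toNat, ?_⟩
    funext j
    have h2 := congrFun hcu j
    simp only [Finset.sum_apply, Pi.smul_apply, smul_eq_mul] at h2 ⊢
    have h3 : ((N • u j : ℤ) : ℚ) = ((∑ i, (n i).toNat • a i j : ℤ) : ℚ) := by
      simp only [nsmul_eq_mul]
      push_cast
      have h4 : (u j : ℚ) = ∑ i, c i * (a i j : ℚ) := h2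
      rw [h4, mul_sum]
      refine sum_congr rfl fun i _ => ?_
      rw [← mul_assoc, hn i]
      congr 1
      have h5 : (((n i).toNat : ℤ) : ℚ) = (n i : ℚ) := by rw [Int.toNat_of_nonneg (hn0 i)]
      rw [← h5]
      push_cast
      rfl
    exact_mod_cast h3
  · exfalso
    obtain ⟨φ, h1, h2, e, he, hli⟩ := fac_max (d := d) (by simp) b hbtop (facV u)
      (fac_farkas_vec b (facV u) hcone)
    have hφ0 : φ ≠ 0 := by
      rintro rfl
      simp at h2
    obtain ⟨h, γ, hγ, hφ, hprim⟩ := fac_scale φ hφ0
    have hval : ∀ x : Lat (d + 1), φ (facV x) = γ * (dt h x : ℚ) := by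
      intro x
      rw [hφ, LinearMap.smul_apply, facL_facV, smul_eq_mul]
    have hTe : T e h := by
      refine ⟨fun i => ?_, hprim, fun k => ?_⟩
      · have h3 := h1 i
        rw [hbdef] at h3
        simp only at h3
        rw [hval] at h3
        have h4 : (0 : ℚ) ≤ (dt h (a i) : ℚ) := nonneg_of_mul_nonneg_right h3 hγ
        exact_mod_cast h4
      · have h3 := he k
        rw [hbdef] at h3
        simp only at h3
        rw [hval] at h3
        have h4 : (dt h (a (e k)) : ℚ) = 0 := (mul_eq_zero.1 h3).resolve_left hγ.ne'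
        exact_mod_cast h4
    have hliZ : LinearIndependent ℤ (fun k => a (e k)) := (fac_li _).2 hli
    let j : J := ⟨e, hliZ, h, hTe⟩
    obtain ⟨hj1, ⟨u1, hu1⟩, hj3⟩ := hH j
    -- an index with positive value
    obtain ⟨i0, hi0⟩ : ∃ i, φ (b i) ≠ 0 := by
      by_contra hall
      push Not at hall
      apply hφ0
      apply LinearMap.ext_on_range hbtop
      intro i
      rw [hall i]; rfl
    have hi0' : 0 < φ (b i0) := lt_of_le_of_ne (h1 i0) (Ne.symm hi0)
    have hli2 : LinearIndependent ℚ (Fin.cons (b i0) (fun k => b (e k)) :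
        Fin (d + 1) → (Fin (d + 1) → ℚ)) := by
      rw [linearIndependent_finCons]
      refine ⟨hli, fun hmem => hi0 ?_⟩
      have : Submodule.span ℚ (Set.range fun k => b (e k)) ≤ LinearMap.ker φ := by
        rw [Submodule.span_le]
        rintro _ ⟨k, rfl⟩
        exact he k
      exact this hmem
    have htop2 := hli2.span_eq_top_of_card_eq_finrank (by simp)
    set ρ : ℚ := facL (H j) (b i0) / φ (b i0) with hρ
    have hprop : facL (H j) = ρ • φ := by
      apply LinearMap.ext_on_range htop2
      intro k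
      refine Fin.cases ?_ (fun k => ?_) k
      · simp only [Fin.cons_zero, LinearMap.smul_apply, smul_eq_mul]
        rw [hρ]
        field_simp
      · simp only [Fin.cons_succ, LinearMap.smul_apply, smul_eq_mul, he k, mul_zero]
        rw [hbdef]
        simp only
        rw [facL_facV, hj3 k, Int.cast_zero]
    have hρ0 : 0 ≤ ρ := by
      rw [hρ]
      apply div_nonneg _ hi0'.le
      rw [hbdef]
      simp only
      rw [facL_facV]
      exact_mod_cast hj1 i0
    have hρ1 : ρ ≠ 0 := by
      intro h0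
      rw [h0, zero_smul] at hprop
      have h5 := facL_facV (H j) u1
      rw [hprop, hu1] at h5
      simp at h5
    have hρpos : 0 < ρ := lt_of_le_of_ne hρ0 (Ne.symm hρ1)
    have h6 : facL (H j) (facV u) < 0 := by
      rw [hprop, LinearMap.smul_apply, smul_eq_mul]
      exact mul_neg_of_pos_of_neg hρpos h2
    rw [facL_facV] at h6
    have h7 : dt (H j) u < 0 := by exact_mod_cast h6
    have h8 := hu (E j)
    simp only [Equiv.symm_apply_apply] at h8
    linarith

end Pool.Agent.H56.SMC
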