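import Pool.Agent.H56.SMC.H11Aux

/-!
# FNR: facets of the Cayley cone with second coordinate `0` are rays

Proof.  `h = vec l 0 v` (`vec_surj`, `h1`).  `hh` on `(0,1;M e_j)`: `v_j ≥ 0`; on `(0,1;M β_k)`: `β_k·v ≥ 0`; on `(1,0;a_i)`: `l + v·a_i ≥ 0`.
Case `v = 0`: `h = vec l 0 0`; primitive (`hprim`), so `l = ±1`; `r > 0` (otherwise all vectors of the configuration lie in `{u_0 = 0}` and are killed by `h`, fine: then need an `inl` index; but `e` gives only `n+1` vectors, so `hr : 0 < r` is assumed) and `l ≥ 0`: `l = 1`.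
Case `v ≠ 0`: some vector of the family `e` is `inl i`: otherwise the `n+1` independent vectors `(0,1;..)` lie in the kernel of `h` inside `{u_0 = 0}`, which has rank `n` (`v ≠ 0`), a contradiction.  So `l + v·a_i = 0` for some `i`, and `l = -min_i v·a_i = -wmin a v`
(view `v` as a vector of natural numbers).  The vectors in the kernel of `h`: `(1,0;a_i)` with `v·a_i = wmin a v`, `(0,1;0)`, `(0,1;M e_j)` with `v_j = 0`, `(0,1;M β_k)` with `β_k·v = 0`; they have rank `n+1` (contains the `n+1` independent `cA (e k)`; at most `n+1` since killed by `h ≠ 0`).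
Forgetting the second coordinate, `(l,l2;q) ↦ (l;q) ∈ ℝ^{1+n}`, has kernel spanned by `(0,1;0)`, which is in the span: the image has rank `n` and is the span in the definition of `RayNormal`.  `gcd v = 1`: `gcd v` divides `wmin a v = v·a_i` and all `v_j`, so it divides `dt h u` for all `u`; `hprim`.
-/

set_option autoImplicit false

namespace Pool.Agent.H56.SMC

open Finset AddMonoidAlgebra

open H11 in
/-- FNR -/
theorem fnr {n r m : ℕ} (hr : 0 < r) (a : Fin r → (Fin n →₀ ℕ)) (β : Fin m → Fin n → ℤ) (M : ℤ)
    (hM : 0 < M) (h : Lat (n + 2)) (hh : ∀ i, 0 ≤ dt h (cA a (bbM β M) i))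
    (hprim : ∃ u, dt h u = 1)
    (hfacet : ∃ e : Fin (n + 1) → Fin r ⊕ (Option (Fin n) ⊕ Fin m),
      (∀ k, dt h (cA a (bbM β M) (e k)) = 0) ∧
      LinearIndependent ℤ (fun k => cA a (bbM β M) (e k)))
    (h1 : h (Fin.succ 0) = 0) :
    h = vec 1 0 0 ∨ ∃ v : Fin n → ℕ, RayNormal a β v ∧ univ.gcd v = 1 ∧
      h = vec (-(H22.wmin a v : ℤ)) 0 (fun j => (v j : ℤ)) := by
  classical
  obtain ⟨e, he0, he⟩ := hfacet
  obtain ⟨l, q, hvec⟩ : ∃ (l : ℤ) (q : Fin n → ℤ), h = vec l 0 q :=
    ⟨h 0, fun j => h j.succ.succ, by rw [← h1]; exact vec_surj h⟩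
  have hA : ∀ i, dt h (cA a (bbM β M) (Sum.inl i)) = l + ∑ j, q j * (a i j : ℤ) := by
    intro i
    rw [hvec]
    simp only [cA, dt_vec]
    ring
  have hB : ∀ k, dt h (cA a (bbM β M) (Sum.inr k)) = ∑ j, q j * bbM β M k j := by
    intro k
    rw [hvec]
    simp only [cA, dt_vec]
    ring
  have hB1 : ∀ j, dt h (cA a (bbM β M) (Sum.inr (Sum.inl (some j)))) = M * q j := by
    intro j
    rw [hB]
    simp [bbM, ev, Pi.single_apply, mul_comm]
  have hB2 : ∀ k, dt h (cA a (bbM β M) (Sum.inr (Sum.inr k))) = M * ∑ j, β k j * q j := by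
    intro k
    rw [hB, mul_sum]
    exact sum_congr rfl fun j _ => by simp only [bbM, Pi.smul_apply, smul_eq_mul]; ring
  obtain ⟨v, hv⟩ : ∃ v : Fin n → ℕ, ∀ j, q j = v j := by
    refine ⟨fun j => (q j).toNat, fun j => (Int.toNat_of_nonneg ?_).symm⟩
    have h2 := hh (Sum.inr (Sum.inl (some j)))
    rw [hB1] at h2
    exact nonneg_of_mul_nonneg_right h2 hM
  have hqv : q = fun j => (v j : ℤ) := funext hv
  have hβ : ∀ k, 0 ≤ ∑ j, β k j * (v j : ℤ) := by
    intro k
    have h2 := hh (Sum.inr (Sum.inr k))
    rw [hB2] at h2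
    have h3 := nonneg_of_mul_nonneg_right h2 hM
    rwa [hqv] at h3
  by_cases hv0 : v = 0
  · left
    have hq0 : q = 0 := by rw [hqv, hv0]; rfl
    have hl : 0 ≤ l := by
      have h2 := hh (Sum.inl ⟨0, hr⟩)
      rw [hA, hq0] at h2
      simpa using h2
    obtain ⟨u, hu⟩ := hprim
    rw [hvec, hq0, vec_surj u, dt_vec] at hu
    simp only [zero_mul, Pi.zero_apply, sum_const_zero, add_zero] at hu
    have h3 : l = 1 := by
      rcases Int.eq_one_or_neg_one_of_mul_eq_one hu with h4 | h4
      · exact h4
      · omega
    rw [hvec, hq0, h3]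
  · right
    -- some vector of the family is an `inl`
    have hinl : ∃ k i, e k = Sum.inl i := by
      by_contra hcon
      have hinr : ∀ k, ∃ j, e k = Sum.inr j := by
        intro k
        rcases hk : e k with i | j
        · exact absurd ⟨k, i, hk⟩ hcon
        · exact ⟨j, rfl⟩
      set x : Fin (n + 1) → Lat (n + 2) := fun k => cA a (bbM β M) (e k) with hx
      have hx0 : ∀ k, dt (ev 0) (x k) = 0 := by
        intro k
        obtain ⟨j, hj⟩ := hinr k
        rw [dt_ev]
        simp [hx, hj, cA, vec]
      set h' : Lat (n + 2) := vec 0 0 q with hh'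
      have hx' : ∀ k, dt h' (x k) = 0 := by
        intro k
        obtain ⟨j, hj⟩ := hinr k
        have h2 := he0 k
        rw [hj, hB] at h2
        simp only [hx, hj, hh', cA, dt_vec]
        rw [h2]; ring
      have hspan : ∀ (g : Lat (n + 2)) (s : ℕ) (y : Fin s → Lat (n + 2)),
          (∀ k, dt g (y k) = 0) → ∀ z ∈ Submodule.span ℤ (Set.range y), dt g z = 0 := by
        intro g s y hy z hz
        rw [Submodule.mem_span_range_iff_exists_fun] at hz
        obtain ⟨c, rfl⟩ := hz
        rw [dt_sum]
        exact sum_eq_zero fun k _ => by rw [dt_zsmul, hy, mul_zero]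
      have li1 : LinearIndependent ℤ (Fin.cons (ev 0) x : Fin (n + 2) → Lat (n + 2)) := by
        refine LinearIndependent.finCons' _ _ he ?_
        intro c y hy hcy
        have h2 := congrArg (dt (ev 0)) hcy
        rw [dt_add, dt_zsmul, dt_zero, hspan _ _ _ hx0 y hy, dt_ev] at h2
        simpa [ev] using h2
      have li2 : LinearIndependent ℤ
          (Fin.cons h' (Fin.cons (ev 0) x) : Fin (n + 3) → Lat (n + 2)) := by
        refine LinearIndependent.finCons' _ _ li1 ?_
        intro c y hy hcy
        have h2 := congrArg (dt h') hcy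
        have h3 : dt h' y = 0 := by
          refine hspan _ _ _ (Fin.cases ?_ (fun k => ?_)) y hy
          · rw [Fin.cons_zero, dt_comm, dt_ev]
            simp [hh', vec]
          · rw [Fin.cons_succ]; exact hx' k
        rw [dt_add, dt_zsmul, dt_zero, h3, add_zero] at h2
        rcases mul_eq_zero.1 h2 with h4 | h4
        · exact h4
        · exfalso
          have h5 := dt_self _ h4
          apply hv0
          funext j
          have h6 := congrFun h5 j.succ.succ
          simp only [hh', vec, Fin.cons_succ, Pi.zero_apply] at h6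
          rw [hv j] at h6
          exact_mod_cast h6
      have h7 := li2.fintype_card_le_finrank
      simp at h7
    obtain ⟨k1, i1, hk1⟩ := hinl
    have hi1 : l + ∑ j, q j * (a i1 j : ℤ) = 0 := by
      rw [← hA, ← hk1]; exact he0 k1
    have hcast : ∀ i, ((∑ j, a i j * v j : ℕ) : ℤ) = ∑ j, q j * (a i j : ℤ) := by
      intro i
      rw [hqv]
      push_cast
      exact sum_congr rfl fun j _ => mul_comm _ _
    have hmin : ∑ j, a i1 j * v j = H22.wmin a v := by
      refine le_antisymm ?_ (wmin_le a v i1)
      obtain ⟨i2, hi2⟩ := exists_wmin hr a v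
      rw [← hi2]
      have h2 := hh (Sum.inl i2)
      rw [hA, ← hcast] at h2
      rw [← hcast] at hi1
      omega
    have hl : l = -(H22.wmin a v : ℤ) := by
      rw [← hmin, hcast]; omega
    refine ⟨v, ⟨hv0, hβ, ?_⟩, ?_, ?_⟩
    · apply le_antisymm
      · refine rank_upper _ (Sum.elim (fun _ => (l : ℝ)) (fun j => (v j : ℝ))) ?_ ?_
        · intro h2
          apply hv0
          funext j
          have h3 := congrFun h2 (Sum.inr j)
          simpa using h3
        · rintro y ((⟨i, hi, rfl⟩ | ⟨j, hj, rfl⟩) | ⟨k, hk, rfl⟩)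
          · simp only [Fintype.sum_sum_type, H22.rowR, Sum.elim_inl, Sum.elim_inr,
              univ_unique, sum_singleton, mul_one]
            rw [hl, ← hi]
            push_cast
            rw [neg_add_eq_zero]
            exact sum_congr rfl fun j _ => mul_comm _ _
          · simp [Pi.single_apply, hj]
          · simp only [Fintype.sum_sum_type, Sum.elim_inl, Sum.elim_inr, univ_unique,
              sum_singleton, mul_zero, zero_add]
            have h2 : ((∑ j, β k j * (v j : ℤ) : ℤ) : ℝ) = 0 := by rw [hk]; simp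
            push_cast at h2
            rw [← h2]
            exact sum_congr rfl fun j _ => mul_comm _ _
      · refine rank_lower (fun k => cA a (bbM β M) (e k)) he _ ?_
        intro k
        have h2 := he0 k
        rcases hk : e k with i | (_ | j) | k'
        · rw [hk, hA, ← hcast] at h2
          apply Submodule.subset_span
          left; left
          refine ⟨i, by omega, ?_⟩
          funext y
          rcases y with _ | j <;> simp [fgt, cA, vec, H22.rowR]
        · convert Submodule.zero_mem _
          rename_i y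
          rcases y with _ | j <;> simp [fgt, cA, vec, bbM]
        · rw [hk, hB1] at h2
          have h3 : q j = 0 := (mul_eq_zero.1 h2).resolve_left hM.ne'
          have h4 : v j = 0 := by
            rw [hv j] at h3
            exact_mod_cast h3
          have h5 : (fun y => ((cA a (bbM β M) (Sum.inr (Sum.inl (some j))) (fgt n y) : ℤ) : ℝ)) =
              (M : ℝ) • (Sum.elim (fun _ => 0) (Pi.single j 1) : Unit ⊕ Fin n → ℝ) := by
            funext y
            rcases y with _ | j'
            · simp [fgt, cA, vec]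
            · simp [fgt, cA, vec, bbM, ev, Pi.single_apply]
          rw [h5]
          apply Submodule.smul_mem
          apply Submodule.subset_span
          left; right
          exact ⟨j, h4, rfl⟩
        · rw [hk, hB2] at h2
          have h3 : ∑ j, β k' j * q j = 0 := (mul_eq_zero.1 h2).resolve_left hM.ne'
          have h5 : (fun y => ((cA a (bbM β M) (Sum.inr (Sum.inr k')) (fgt n y) : ℤ) : ℝ)) =
              (M : ℝ) • (Sum.elim (fun _ => 0) (fun j => (β k' j : ℝ)) : Unit ⊕ Fin n → ℝ) := by
            funext y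
            rcases y with _ | j'
            · simp [fgt, cA, vec]
            · simp [fgt, cA, vec, bbM]
          rw [h5]
          apply Submodule.smul_mem
          apply Submodule.subset_span
          right
          exact ⟨k', by rw [← h3, hqv], rfl⟩
    · obtain ⟨u, hu⟩ := hprim
      have h2 : ∀ j, ((univ.gcd v : ℕ) : ℤ) ∣ q j := by
        intro j
        rw [hv j]
        exact_mod_cast Finset.gcd_dvd (mem_univ j)
      have h3 : ((univ.gcd v : ℕ) : ℤ) ∣ l := by
        rw [hl, ← hmin, hcast, dvd_neg]
        exact dvd_sum fun j _ => Dvd.dvd.mul_right (h2 j) _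
      have h4 : ((univ.gcd v : ℕ) : ℤ) ∣ 1 := by
        rw [← hu, hvec, vec_surj u, dt_vec]
        refine dvd_add (dvd_add (Dvd.dvd.mul_right h3 _) (by simp))
          (dvd_sum fun j _ => Dvd.dvd.mul_right (h2 j) _)
      have h5 : univ.gcd v ∣ 1 := by exact_mod_cast h4
      exact Nat.dvd_one.1 h5
    · rw [hvec, hl, hqv]

end Pool.Agent.H56.SMC
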