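import Pool.Agent.H56.SMC.CfgDefs

/-!
# FNS: the facet of the Cayley cone given by `w`, and full dimensionality

Proof.  (a) The vectors `(1,a_i)` (`i` on the face of `w`), `(0,e_j)` (`w_j = 0`) span a space of dimension `n` of `ℝ^{1+n}`; choose `n` of them that form a basis; lift them to `(1,0;a_i)`, `(0,1;M e_j)` and add `(0,1;0)`: the `n+1`
vectors are linearly independent (forget the second coordinate: `(0,1;0) ↦ 0`, the others go to independent vectors up to the factor `M`); all are killed by `vec (-wmin a w) 0 w`.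
(b) `(0,1;0)`, `(0,1;M e_j)` (`j = 1..n`), `(1,0;a_0)` are `n+2` independent vectors.
-/

set_option autoImplicit false

namespace Pool.Agent.H56.SMC

open Finset AddMonoidAlgebra

/-- Forget the second coordinate. -/
noncomputable def fnsForget {n : ℕ} (u : Lat (n + 2)) : Unit ⊕ Fin n → ℝ :=
  Sum.elim (fun _ => (u 0 : ℝ)) (fun j => (u j.succ.succ : ℝ))

theorem fns_forget_sum {n N : ℕ} (g : Fin N → ℤ) (v : Fin N → Lat (n + 2)) :
    fnsForget (∑ k, g k • v k) = ∑ k, (g k : ℝ) • fnsForget (v k) := by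
  funext x
  rcases x with x | j
  · simp [fnsForget, Finset.sum_apply]
  · simp [fnsForget, Finset.sum_apply]

theorem fns_lift {n r m : ℕ} (a : Fin r → (Fin n →₀ ℕ)) (β : Fin m → Fin n → ℤ) (M : ℤ)
    (hM : 0 < M) (w : Fin n → ℕ) (y : Unit ⊕ Fin n → ℝ)
    (hy : y ∈ ({y | ∃ i, ∑ j, a i j * w j = H22.wmin a w ∧ y = H22.rowR a i} ∪
      {y | ∃ j, w j = 0 ∧ y = Sum.elim (fun _ => 0) (Pi.single j 1)} :
        Set (Unit ⊕ Fin n → ℝ))) :
    ∃ (e : Fin r ⊕ (Option (Fin n) ⊕ Fin m)) (c : ℝ), c ≠ 0 ∧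
      dt (vec (-(H22.wmin a w : ℤ)) 0 (fun j => (w j : ℤ))) (cA a (bbM β M) e) = 0 ∧
      fnsForget (cA a (bbM β M) e) = c • y := by
  rcases hy with ⟨i, hi, rfl⟩ | ⟨j, hj, rfl⟩
  · refine ⟨Sum.inl i, 1, one_ne_zero, ?_, ?_⟩
    · simp only [cA]
      rw [dt_vec, ← hi]
      push_cast
      simp only [mul_one, zero_mul, add_zero, mul_zero]
      rw [neg_add_eq_zero]
      exact Finset.sum_congr rfl fun j _ => mul_comm _ _
    · funext x
      rcases x with x | j
      · simp [fnsForget, cA, vec, H22.rowR]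
      · simp [fnsForget, cA, vec, H22.rowR]
  · refine ⟨Sum.inr (Sum.inl (some j)), (M : ℝ), by exact_mod_cast hM.ne', ?_, ?_⟩
    · simp only [cA, bbM]
      rw [dt_vec]
      simp only [mul_zero, mul_one, zero_add, Pi.smul_apply, smul_eq_mul]
      refine Finset.sum_eq_zero fun k _ => ?_
      by_cases hk : k = j
      · subst hk
        simp [hj]
      · simp [ev, Pi.single_apply, hk]
    · funext x
      rcases x with x | k
      · simp [fnsForget, cA, vec]
      · by_cases hk : k = j
        · subst hk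
          simp [fnsForget, cA, vec, bbM, ev]
        · simp [fnsForget, cA, vec, bbM, ev, Pi.single_apply, hk]

/-- FNS, the facet -/
theorem fns {n r m : ℕ} (a : Fin r → (Fin n →₀ ℕ)) (β : Fin m → Fin n → ℤ) (M : ℤ)
    (hM : 0 < M) (w : Fin n → ℕ) (hw : FacetNormal a w) :
    ∃ e : Fin (n + 1) → Fin r ⊕ (Option (Fin n) ⊕ Fin m),
      (∀ k, dt (vec (-(H22.wmin a w : ℤ)) 0 (fun j => (w j : ℤ))) (cA a (bbM β M) (e k)) = 0) ∧
      LinearIndependent ℤ (fun k => cA a (bbM β M) (e k)) := by
  obtain ⟨-, hfr⟩ := hw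
  have key : ∀ (S : Set (Unit ⊕ Fin n → ℝ)) (N : ℕ),
      Module.finrank ℝ (Submodule.span ℝ S) = N →
      ∃ f : Fin N → (Unit ⊕ Fin n → ℝ), (∀ i, f i ∈ S) ∧ LinearIndependent ℝ f := by
    intro S N hN
    subst hN
    obtain ⟨f, hf, -, hl⟩ := Submodule.exists_fun_fin_finrank_span_eq ℝ S
    exact ⟨f, hf, hl⟩
  obtain ⟨f, hfS, hfl⟩ := key _ _ hfr
  choose e' c hc h0 hfe using fun k => fns_lift a β M hM w (f k) (hfS k)
  refine ⟨Fin.cons (Sum.inr (Sum.inl none)) e', ?_, ?_⟩
  · intro k
    refine Fin.cases ?_ (fun k => ?_) k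
    · simp only [Fin.cons_zero, cA, bbM]
      rw [dt_vec]
      simp
    · simpa using h0 k
  · rw [Fintype.linearIndependent_iff]
    intro g hg
    have h1 := congrArg fnsForget hg
    rw [fns_forget_sum, Fin.sum_univ_succ] at h1
    have hz : fnsForget (cA a (bbM β M) (Sum.inr (Sum.inl none))) = 0 := by
      funext x
      rcases x with x | j
      · simp [fnsForget, cA, vec]
      · simp [fnsForget, cA, vec, bbM]
    have hz0 : fnsForget (0 : Lat (n + 2)) = 0 := by
      funext x
      rcases x with x | j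
      · simp [fnsForget]
      · simp [fnsForget]
    simp only [Fin.cons_zero, Fin.cons_succ, hz, smul_zero, zero_add, hz0, hfe, smul_smul] at h1
    have h2 := Fintype.linearIndependent_iff.1 hfl (fun k => (g k.succ : ℝ) * c k) h1
    have h3 : ∀ k : Fin n, g k.succ = 0 := by
      intro k
      have h4 : (g k.succ : ℝ) * c k = 0 := h2 k
      rcases mul_eq_zero.1 h4 with h | h
      · exact_mod_cast h
      · exact absurd h (hc k)
    intro k
    refine Fin.cases ?_ h3 k
    rw [Fin.sum_univ_succ] at hg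
    simp only [h3, zero_smul, Finset.sum_const_zero, add_zero, Fin.cons_zero] at hg
    have h5 := congrFun hg (Fin.succ 0)
    simpa [cA, vec] using h5

/-- FNS, the whole configuration -/
theorem fspan {n r m : ℕ} (hr : 0 < r) (a : Fin r → (Fin n →₀ ℕ)) (β : Fin m → Fin n → ℤ) (M : ℤ)
    (hM : 0 < M) :
    ∃ e : Fin (n + 2) → Fin r ⊕ (Option (Fin n) ⊕ Fin m),
      LinearIndependent ℤ (fun k => cA a (bbM β M) (e k)) := by
  refine ⟨Fin.cons (Sum.inl ⟨0, hr⟩) (Fin.cons (Sum.inr (Sum.inl none))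
    (fun j => Sum.inr (Sum.inl (some j)))), ?_⟩
  rw [Fintype.linearIndependent_iff]
  intro g hg
  rw [Fin.sum_univ_succ, Fin.sum_univ_succ] at hg
  simp only [Fin.cons_zero, Fin.cons_succ] at hg
  have h0 : g 0 = 0 := by
    have h := congrFun hg 0
    simpa [cA, vec, Finset.sum_apply] using h
  rw [h0, zero_smul, zero_add] at hg
  have h2 : ∀ j : Fin n, g j.succ.succ = 0 := by
    intro j
    have h := congrFun hg j.succ.succ
    simp only [Pi.add_apply, Finset.sum_apply, Pi.smul_apply, smul_eq_mul, cA, vec, Fin.cons_succ,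
      bbM, Pi.zero_apply, mul_zero, zero_add] at h
    rw [Finset.sum_eq_single j] at h
    · simp only [ev, Pi.single_eq_same, mul_one] at h
      rcases mul_eq_zero.1 h with h | h
      · exact h
      · exact absurd h hM.ne'
    · intro k _ hk
      simp [ev, Pi.single_apply, hk.symm]
    · intro h
      exact absurd (Finset.mem_univ j) h
  simp only [h2, zero_smul, Finset.sum_const_zero, add_zero] at hg
  have h1 : g (Fin.succ 0) = 0 := by
    have h := congrFun hg (Fin.succ 0)
    simpa [cA, vec] using h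
  intro k
  refine Fin.cases h0 (fun k => ?_) k
  refine Fin.cases h1 (fun k => ?_) k
  exact h2 k

end Pool.Agent.H56.SMC
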