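import Pool.Agent.H56.SMC.KEXG

/-!
# KEXA: exactness on the full cone

Proof.  `kexg` with `H = 0`, `s = d`, `ℓ = ev` (`cF a c 0 = c`); `mem_Sc_lev` identifies the supports.
-/

set_option autoImplicit false

namespace Pool.Agent.H56.SMC

open Finset AddMonoidAlgebra

/-- KEXA -/
theorem kexa {d : ℕ} {ι κ : Type} [Fintype ι] [Fintype κ] (a : ι → Lat d) (c : ι → ℂ)
    (h : κ → Lat d) (δ : Lat d) (hδ : ∀ i, dt δ (a i) = 1) (hh : ∀ v i, 0 ≤ dt (h v) (a i))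
    (hfac : ∀ u ∈ Sset h, ∃ N : ℕ, 0 < N ∧ ∃ n : ι → ℕ, N • u = ∑ i, n i • a i)
    (hnd : TorusND a c) (hspan : ∃ e : Fin d → ι, LinearIndependent ℤ (fun k => a (e k)))
    (m0 : ℤ) (hm0 : 0 < m0) (y0 : Lat d) : KExact a c (Sc h (lev h m0 y0)) := by
  obtain ⟨e, hind⟩ := hspan
  intro r hr hrel
  have h0 : ∀ u : Lat d, dt (0 : Lat d) u = 0 := by
    intro u
    rw [dt_comm, dt_zero]
  have hset : Sc h (lev h m0 y0) = {u | m0 • u + y0 ∈ Sset h ∧ dt (0 : Lat d) u = 0} := by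
    ext u
    simp only [mem_Sc_lev h hm0, Set.mem_ofPred_eq, h0, and_true]
  have hc : cF a c (0 : Lat d) = c := by
    funext i
    simp only [cF, h0, if_true]
  rw [hset] at hr ⊢
  have key := kexg a c h δ hδ hh hfac hnd (0 : Lat d) (fun i => (h0 _).ge) (ev : Fin d → Lat d)
    (fun g => ⟨1, one_ne_zero, g, fun i _ => by rw [one_mul, dt_left]⟩) e (fun k => h0 _) hind
    m0 hm0 y0 (h0 _) r hr (by rw [hc]; exact hrel)
  rw [hc] at key
  exact key

end Pool.Agent.H56.SMC
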