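import Pool.Agent.H56.SMC.KEXG

/-!
# KEXF: exactness on a facet

Proof.  `kexg` with `H = h0`, `s = d`, `ℓ k = ev (j0.succAbove k)` where `h0 j0 ≠ 0`: for `g = ev j0`, on the face `0 = dt h0 (a i) = ∑_j h0_j (a i j)`, so `h0_{j0} dt (ev j0) (a i) = -∑_{j≠j0} h0_j dt (ev j) (a i)`.
Relation `∑_j g_j r_j = 0` (`g_j = gs a cF (ev j)`, `j : Fin (d+1)`), `∑_j h0_j g_j = gs a cF h0 = 0` (`cF i * dt h0 (a i) = 0`): `∑_{j≠j0} g_j (r_j - (h0_j/h0_{j0}) r_{j0}) = 0`; `kexg` gives `r_j - (h0_j/h0_{j0}) r_{j0} = ∑_{k≠j0} g_k y_jk` for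
`j ≠ j0`; put `y_jk = 0` if `j` or `k` is `j0` and `r' = r_{j0} / h0_{j0}`.  Supports: `mem_Sc_lev`.
-/

set_option autoImplicit false

namespace Pool.Agent.H56.SMC

open Finset AddMonoidAlgebra

/-- KEXF -/
theorem kexf {d : ℕ} {ι κ : Type} [Fintype ι] [Fintype κ] (a : ι → Lat (d + 1)) (c : ι → ℂ)
    (h : κ → Lat (d + 1)) (δ : Lat (d + 1)) (hδ : ∀ i, dt δ (a i) = 1)
    (hh : ∀ v i, 0 ≤ dt (h v) (a i))
    (hfac : ∀ u ∈ Sset h, ∃ N : ℕ, 0 < N ∧ ∃ n : ι → ℕ, N • u = ∑ i, n i • a i)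
    (hnd : TorusND a c) (h0 : Lat (d + 1)) (hne : h0 ≠ 0) (hh0 : ∀ i, 0 ≤ dt h0 (a i))
    (hspan0 : ∃ e : Fin d → ι, (∀ k, dt h0 (a (e k)) = 0) ∧
      LinearIndependent ℤ (fun k => a (e k)))
    (m0 : ℤ) (hm0 : 0 < m0) (y0 : Lat (d + 1)) (hy0 : dt h0 y0 = 0) :
    KExactF a c (Sc h (lev h m0 y0)) h0 := by
  classical
  obtain ⟨e, he, hind⟩ := hspan0
  intro r hr hrel
  obtain ⟨j0, hj0⟩ : ∃ j0, h0 j0 ≠ 0 := by
    by_contra hcon
    push Not at hcon
    exact hne (funext hcon)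
  have hj0C : (h0 j0 : ℂ) ≠ 0 := by exact_mod_cast hj0
  have hset : Sc h (lev h m0 y0) ∩ {u | dt h0 u = 0} =
      {u | m0 • u + y0 ∈ Sset h ∧ dt h0 u = 0} := by
    ext u
    simp only [Set.mem_inter_iff, mem_Sc_lev h hm0, Set.mem_ofPred_eq]
  rw [hset] at hr ⊢
  have hdt : ∀ g u : Lat (d + 1), dt g u = g j0 * u j0 +
      ∑ k : Fin d, g (j0.succAbove k) * u (j0.succAbove k) := by
    intro g u
    unfold dt
    rw [Fin.sum_univ_succAbove _ j0]
  have hℓ : ∀ g : Lat (d + 1), ∃ N : ℤ, N ≠ 0 ∧ ∃ n : Fin d → ℤ, ∀ i, dt h0 (a i) = 0 →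
      N * dt g (a i) = ∑ k, n k * dt (ev (j0.succAbove k)) (a i) := by
    intro g
    refine ⟨h0 j0, hj0, fun k => h0 j0 * g (j0.succAbove k) - g j0 * h0 (j0.succAbove k), ?_⟩
    intro i hi
    rw [hdt] at hi
    rw [hdt]
    simp only [dt_ev, sub_mul, sum_sub_distrib]
    have e1 : ∑ k : Fin d, h0 j0 * g (j0.succAbove k) * a i (j0.succAbove k) =
        h0 j0 * ∑ k : Fin d, g (j0.succAbove k) * a i (j0.succAbove k) := by
      rw [mul_sum]
      exact sum_congr rfl fun k _ => by ring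
    have e2 : ∑ k : Fin d, g j0 * h0 (j0.succAbove k) * a i (j0.succAbove k) =
        g j0 * ∑ k : Fin d, h0 (j0.succAbove k) * a i (j0.succAbove k) := by
      rw [mul_sum]
      exact sum_congr rfl fun k _ => by ring
    rw [e1, e2]
    linear_combination (g j0) * hi
  let x : Fin d → LP ℂ (d + 1) := fun k =>
    r (j0.succAbove k) - ((h0 (j0.succAbove k) : ℂ) / (h0 j0 : ℂ)) • r j0
  have hx : ∀ k, Supp {u | m0 • u + y0 ∈ Sset h ∧ dt h0 u = 0} (x k) := fun k =>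
    (hr _).sub ((hr _).smul _)
  have hx0 : ∑ k, gs a (cF a c h0) (ev (j0.succAbove k)) * x k = 0 := by
    apply lp_ext
    intro w
    have hw : (∑ j, gs a (cF a c h0) (ev j) * r j).coeff w = 0 := by
      rw [hrel]
      rfl
    rw [coeff_finsum] at hw ⊢
    simp only [gs_mul_coeff, x, coeff_sub', coeff_smul', dt_ev] at hw ⊢
    rw [sum_comm] at hw ⊢
    rw [coeff_zero', ← hw]
    refine sum_congr rfl fun i _ => ?_
    rw [Fin.sum_univ_succAbove _ j0]
    by_cases hi : dt h0 (a i) = 0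
    · have h1 : (h0 j0 : ℂ) * (a i j0 : ℂ) +
          ∑ k : Fin d, (h0 (j0.succAbove k) : ℂ) * (a i (j0.succAbove k) : ℂ) = 0 := by
        have h2 := hdt h0 (a i)
        rw [hi] at h2
        exact_mod_cast h2.symm
      have h2 : ∑ k : Fin d, cF a c h0 i * (a i (j0.succAbove k) : ℂ) *
          ((r (j0.succAbove k)).coeff (w - a i) -
            (h0 (j0.succAbove k) : ℂ) / (h0 j0 : ℂ) * (r j0).coeff (w - a i)) =
          ∑ k : Fin d, cF a c h0 i * (a i (j0.succAbove k) : ℂ) *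
            (r (j0.succAbove k)).coeff (w - a i) -
          cF a c h0 i / (h0 j0 : ℂ) * (r j0).coeff (w - a i) *
            ∑ k : Fin d, (h0 (j0.succAbove k) : ℂ) * (a i (j0.succAbove k) : ℂ) := by
        rw [mul_sum, ← sum_sub_distrib]
        exact sum_congr rfl fun k _ => by ring
      have h3 : ∑ k : Fin d, (h0 (j0.succAbove k) : ℂ) * (a i (j0.succAbove k) : ℂ) =
          - ((h0 j0 : ℂ) * (a i j0 : ℂ)) := by linear_combination h1
      rw [h2, h3]
      field_simp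
      ring
    · simp only [cF, if_neg hi, zero_mul, sum_const_zero, add_zero]
  obtain ⟨y', hy1, hy2, hy3⟩ := kexg a c h δ hδ hh hfac hnd h0 hh0
    (fun k => ev (j0.succAbove k)) hℓ e he hind m0 hm0 y0 hy0 x hx hx0
  let y : Fin (d + 1) → Fin (d + 1) → LP ℂ (d + 1) :=
    Fin.insertNth (α := fun _ => Fin (d + 1) → LP ℂ (d + 1)) j0 (fun _ => 0)
      (fun k => Fin.insertNth (α := fun _ => LP ℂ (d + 1)) j0 0 (y' k))
  have y00 : ∀ k, y j0 k = 0 := by
    intro k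
    simp only [y, Fin.insertNth_apply_same]
  have yk0 : ∀ k, y (j0.succAbove k) j0 = 0 := by
    intro k
    simp only [y, Fin.insertNth_apply_succAbove, Fin.insertNth_apply_same]
  have ykl : ∀ k l, y (j0.succAbove k) (j0.succAbove l) = y' k l := by
    intro k l
    simp only [y, Fin.insertNth_apply_succAbove]
  refine ⟨y, (h0 j0 : ℂ)⁻¹ • r j0, ?_, (hr j0).smul _, ?_, ?_⟩
  · intro j k
    rcases Fin.eq_self_or_eq_succAbove j0 j with rfl | ⟨l, rfl⟩
    · rw [y00]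
      exact Supp.zero _
    · rcases Fin.eq_self_or_eq_succAbove j0 k with rfl | ⟨m, rfl⟩
      · rw [yk0]
        exact Supp.zero _
      · rw [ykl]
        exact hy1 l m
  · intro j k
    rcases Fin.eq_self_or_eq_succAbove j0 j with rfl | ⟨l, rfl⟩
    · rcases Fin.eq_self_or_eq_succAbove j k with rfl | ⟨m, rfl⟩
      · rw [y00, neg_zero]
      · rw [y00, yk0, neg_zero]
    · rcases Fin.eq_self_or_eq_succAbove j0 k with rfl | ⟨m, rfl⟩
      · rw [yk0, y00, neg_zero]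
      · rw [ykl, ykl]
        exact hy2 l m
  · intro j
    rcases Fin.eq_self_or_eq_succAbove j0 j with rfl | ⟨l, rfl⟩
    · rw [sum_eq_zero fun k _ => by rw [y00, mul_zero], zero_add, smul_smul,
        mul_inv_cancel₀ hj0C, one_smul]
    · rw [Fin.sum_univ_succAbove _ j0, yk0, mul_zero, zero_add]
      have h1 : ∑ k : Fin d, gs a (cF a c h0) (ev (j0.succAbove k)) *
          y (j0.succAbove l) (j0.succAbove k) = x l := by
        rw [hy3 l]
        exact sum_congr rfl fun k _ => by rw [ykl]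
      rw [h1, smul_smul]
      simp only [x]
      rw [div_eq_mul_inv, sub_add_cancel]

end Pool.Agent.H56.SMC
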