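import Pool.Agent.H56.SMC.CfgDefs

/-!
# BFB: integration by parts

`I i m g` is a formal version of `∫ F^{s+i} H^{t+m} g`.
Proof.  `q' = Q L`, where `Q [] = q`, and for `j :: L`: by `h1`, `h3`
`I(1-|L|-1) m (q GG(j::L)) = I(-|L|) m (q F ∂_j GG_L) + (s+1-|L|) I(-|L|) m (q GG_L ∂_j F) = I(1-|L|) m (q ∂_j GG_L) + (s+1-|L|) I(-|L|) m (∂_j F q GG_L)`, and `h3` for `g = q GG_L`, `i = 1-|L|` gives
`= I(1-|L|) m (q ∂_j GG_L) - I(1-|L|) m (∂_j (q GG_L)) - (t+m) I(1-|L|) (m-1) (∂_j H q GG_L) = I(1-|L|) (m-1) ((-H ∂_j q - (t+m) ∂_j H q) GG_L)`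
(Leibniz for `dL`, `h2`).  So by induction on `L`, for all `m` and `q`: `I(1-|L|) m (q GG_L) = I 1 (m-|L|) q'`.
Exponents: fix `v ≥ 0`, `M`, `N` with `N v_j ≤ M`, `|L| ≤ N`.  Invariant for `q` after `t ≤ N` steps: every exponent `ρ` satisfies `(∀ j, 0 ≤ ρ_j) ∨ M - t max_j v_j ≤ dt v ρ` (if `n = 0` there is nothing to prove).  `∂_j` subtracts `e_j` only if
`ρ_j ≠ 0`; exponents of `H`: `≥ 0` or level `≥ M`; exponents of `∂_j H`: `b - e_j`, `b_j ≠ 0`.  At the end `dt v ρ ≥ 0`.  To have `max_j v_j` formally: use a bound `V` with `v_j ≤ V`, `N V ≤ M` (`V` = the maximum), or do the induction with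
the statement: for every `t`, `t + |L| ≤ N`, if every exponent of `q` satisfies the invariant with `t`, then every exponent of `q'` satisfies it with `t + |L|`.
-/

set_option autoImplicit false

namespace Pool.Agent.H56.SMC

open Finset AddMonoidAlgebra

theorem bfb_mul_coeff {A : Type} [CommRing A] {n : ℕ} (x y : LP A n) (u : Lat n)
    (h : (x * y).coeff u ≠ 0) : ∃ a b, x.coeff a ≠ 0 ∧ y.coeff b ≠ 0 ∧ u = a + b := by
  classical
  have h1 : u ∈ (x * y).coeff.support := Finsupp.mem_support_iff.2 h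
  have h2 := AddMonoidAlgebra.support_coeff_mul_subset x y h1
  obtain ⟨a, ha, b, hb, rfl⟩ := Finset.mem_add.1 h2
  exact ⟨a, b, Finsupp.mem_support_iff.1 ha, Finsupp.mem_support_iff.1 hb, rfl⟩

theorem bfb_dL_coeff {A : Type} [CommRing A] {n : ℕ} (j : Fin n) (g : LP A n) (u : Lat n) :
    (dL j g).coeff u = ((u j : A) + 1) * g.coeff (u + ev j) := by
  unfold dL
  rw [single_mul_coeff, dg_coeff, one_mul, sub_neg_eq_add]
  congr 1
  simp [ev]

theorem bfb_dL_ne {A : Type} [CommRing A] {n : ℕ} (j : Fin n) (g : LP A n) (u : Lat n)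
    (h : (dL j g).coeff u ≠ 0) : g.coeff (u + ev j) ≠ 0 ∧ (u + ev j) j ≠ 0 := by
  rw [bfb_dL_coeff] at h
  refine ⟨right_ne_zero_of_mul h, fun h0 => left_ne_zero_of_mul h ?_⟩
  have h1 : u j + 1 = 0 := by simpa [ev] using h0
  have h2 : ((u j + 1 : ℤ) : A) = 0 := by rw [h1, Int.cast_zero]
  push_cast at h2
  exact h2

theorem bfb_leibniz {A : Type} [CommRing A] {n : ℕ} (j : Fin n) (x y : LP A n) :
    dL j (x * y) = dL j x * y + x * dL j y := by
  have hadd : ∀ φ : Lat n → A, ∀ x y : LP A n, dg φ (x + y) = dg φ x + dg φ y := by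
    intro φ x y
    apply lp_ext; intro u
    simp only [dg_coeff, coeff_add', mul_add]
  have hs : ∀ (v : Lat n) (r : A) (y : LP A n), dg (fun u => (u j : A)) (single v r * y) =
      dg (fun u => (u j : A)) (single v r) * y + single v r * dg (fun u => (u j : A)) y := by
    intro v r y
    have e : dg (fun u => (u j : A)) (single v r : LP A n) = single v ((v j : A) * r) := by
      apply lp_ext; intro u
      rw [dg_coeff, coeff_single', coeff_single']
      by_cases h : u = v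
      · rw [if_pos h, if_pos h, h]
      · rw [if_neg h, if_neg h, mul_zero]
    rw [e]
    apply lp_ext; intro u
    rw [coeff_add', dg_coeff, single_mul_coeff, single_mul_coeff, single_mul_coeff, dg_coeff]
    rw [Pi.sub_apply]
    push_cast
    ring
  have hd : dg (fun u => (u j : A)) (x * y) =
      dg (fun u => (u j : A)) x * y + x * dg (fun u => (u j : A)) y := by
    induction x using AddMonoidAlgebra.induction_linear with
    | zero =>
      have h0 : dg (fun u : Lat n => (u j : A)) (0 : LP A n) = 0 := by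
        apply lp_ext; intro u
        rw [dg_coeff, coeff_zero', mul_zero]
      rw [zero_mul, h0, zero_mul, zero_mul, add_zero]
    | add f g hf hg =>
      rw [add_mul, hadd, hadd, hf, hg]
      ring
    | single v r => exact hs v r y
  unfold dL
  rw [hd]
  ring

/-- the invariant -/
def bfbInv {n : ℕ} (v : Lat n) (M V : ℤ) (t : ℕ) (ρ : Lat n) : Prop :=
  (∀ j, 0 ≤ ρ j) ∨ M - t * V ≤ dt v ρ

theorem bfb_dt_nonneg {n : ℕ} {v ρ : Lat n} (hv : ∀ j, 0 ≤ v j) (h : ∀ j, 0 ≤ ρ j) :
    0 ≤ dt v ρ := by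
  unfold dt
  exact sum_nonneg fun j _ => mul_nonneg (hv j) (h j)

theorem bfb_step {n : ℕ} {v b ρ : Lat n} {M V : ℤ} {t : ℕ} (hv : ∀ j, 0 ≤ v j ∧ v j ≤ V)
    (hM : 0 ≤ M) (hV : 0 ≤ V) (hb : (∀ j, 0 ≤ b j) ∨ M ≤ dt v b) (hρ : bfbInv v M V t ρ)
    (hM2 : (t : ℤ) * V ≤ M) (j : Fin n) (hj : b j ≠ 0 ∨ ρ j ≠ 0) :
    bfbInv v M V (t + 1) (b + ρ - ev j) := by
  have hv0 : ∀ j, 0 ≤ v j := fun j => (hv j).1
  have hd : dt v (b + ρ - ev j) = dt v b + dt v ρ - v j := by
    rw [dt_sub, dt_add, dt_comm v (ev j), dt_ev]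
  have hVj := (hv j).2
  have hc : ((t + 1 : ℕ) : ℤ) * V = t * V + V := by push_cast; ring
  rcases hb with hb | hb
  · rcases hρ with hρ | hρ
    · left
      intro k
      by_cases hk : k = j
      · subst hk
        have h1 := hb k
        have h2 := hρ k
        have h3 : (b + ρ - ev k) k = b k + ρ k - 1 := by simp [ev]
        rw [h3]
        rcases hj with hj | hj <;> omega
      · have h1 := hb k
        have h2 := hρ k
        have h3 : (b + ρ - ev j) k = b k + ρ k := by simp [ev, hk]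
        rw [h3]
        omega
    · right
      have h1 := bfb_dt_nonneg hv0 hb
      rw [hd, hc]
      linarith
  · right
    rw [hd, hc]
    rcases hρ with hρ | hρ
    · have h1 := bfb_dt_nonneg hv0 hρ
      have h2 : 0 ≤ (t : ℤ) * V := mul_nonneg (by positivity) hV
      linarith
    · linarith

theorem bfb_aux {n : ℕ} {A W : Type} [CommRing A] [AddCommGroup W] [Module A W] (s t : A)
    (F H : LP A n) (I : ℤ → ℤ → LP A n →ₗ[A] W)
    (h1 : ∀ i m g, I i m g = I (i - 1) m (F * g)) (h2 : ∀ i m g, I i m g = I i (m - 1) (H * g))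
    (h3 : ∀ i m j g, I i m (dL j g) + (s + (i : A)) • I (i - 1) m (dL j F * g) +
      (t + (m : A)) • I i (m - 1) (dL j H * g) = 0)
    (L : List (Fin n)) : ∀ (m : ℤ) (q : LP A n),
    ∃ q' : LP A n, I (1 - L.length) m (q * GG F s L) = I 1 (m - L.length) q' ∧
      ∀ (v : Lat n) (M V : ℤ) (τ : ℕ), (∀ j, 0 ≤ v j ∧ v j ≤ V) → 0 ≤ V → 
        ((τ + L.length : ℕ) : ℤ) * V ≤ M →
        (∀ u, H.coeff u ≠ 0 → (∀ j, 0 ≤ u j) ∨ M ≤ dt v u) →
        (∀ u, q.coeff u ≠ 0 → bfbInv v M V τ u) → ∀ u, q'.coeff u ≠ 0 →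
          bfbInv v M V (τ + L.length) u := by
  induction L with
  | nil =>
    intro m q
    refine ⟨q, ?_, fun v M V τ hv hV hM hH hq u hu => hq u hu⟩
    simp [GG]
  | cons j L ih =>
    intro m q
    obtain ⟨q', hq', hex⟩ := ih (m - 1) (-(H * dL j q) - (t + (m : A)) • (dL j H * q))
    refine ⟨q', ?_, ?_⟩
    · have e1 : (m - ((j :: L).length : ℤ)) = m - 1 - (L.length : ℤ) := by
        rw [List.length_cons]; push_cast; ring
      have e2 : (1 - ((j :: L).length : ℤ)) = 1 - (L.length : ℤ) - 1 := by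
        rw [List.length_cons]; push_cast; ring
      rw [e1, ← hq', e2]
      have e3 : q * GG F s (j :: L) = F * (q * dL j (GG F s L)) +
          (s + ((1 - (L.length : ℤ) : ℤ) : A)) • (dL j F * (q * GG F s L)) := by
        have e4 : GG F s (j :: L) = F * dL j (GG F s L) +
          (s + 1 - (L.length : A)) • (GG F s L * dL j F) := rfl
        have e5 : (s + ((1 - (L.length : ℤ) : ℤ) : A)) = s + 1 - (L.length : A) := by
          push_cast; ring
        rw [e4, e5, mul_add, mul_smul_comm]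
        congr 1
        · ring
        · congr 1; ring
      rw [e3, map_add, map_smul, ← h1]
      have e6 := h3 (1 - (L.length : ℤ)) m j (q * GG F s L)
      rw [bfb_leibniz, map_add] at e6
      have e7 : (-(H * dL j q) - (t + (m : A)) • (dL j H * q)) * GG F s L =
          -(H * (dL j q * GG F s L)) - (t + (m : A)) • (dL j H * (q * GG F s L)) := by
        rw [sub_mul, smul_mul_assoc, neg_mul, mul_assoc, mul_assoc]
      rw [e7, map_sub, map_neg, map_smul, ← h2]
      have e8 : ∀ a b c d e : W, a + b + c + d = 0 → e = -a - d → b + c = e := by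
        intro a b c d e h he
        rw [he]
        have : b + c = (a + b + c + d) - a - d := by abel
        rw [this, h]; abel
      exact e8 _ _ _ _ _ e6 rfl
    · intro v M V τ hv hV hM hH hq u hu
      have hl : (τ + (j :: L).length) = (τ + 1) + L.length := by
        rw [List.length_cons]; ring
      rw [hl] at hM ⊢
      have hM0 : 0 ≤ M := le_trans (mul_nonneg (by positivity) hV) hM
      have hM2 : (τ : ℤ) * V ≤ M := by
        refine le_trans (mul_le_mul_of_nonneg_right ?_ hV) hM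
        push_cast; linarith
      refine hex v M V (τ + 1) hv hV hM hH ?_ u hu
      intro w hw
      have hor : (H * dL j q).coeff w ≠ 0 ∨ (dL j H * q).coeff w ≠ 0 := by
        by_contra hcon
        push Not at hcon
        apply hw
        rw [coeff_sub', coeff_neg', coeff_smul', hcon.1, hcon.2]
        ring
      rcases hor with hor | hor
      · obtain ⟨b, ρ, hb, hρ, rfl⟩ := bfb_mul_coeff _ _ _ hor
        obtain ⟨h4, h5⟩ := bfb_dL_ne j q ρ hρ
        have h6 := bfb_step hv hM0 hV (hH b hb) (hq _ h4) hM2 j (Or.inr h5)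
        have e : b + (ρ + ev j) - ev j = b + ρ := by abel
        rwa [e] at h6
      · obtain ⟨b, ρ, hb, hρ, rfl⟩ := bfb_mul_coeff _ _ _ hor
        obtain ⟨h4, h5⟩ := bfb_dL_ne j H b hb
        have h6 := bfb_step hv hM0 hV (hH _ h4) (hq _ hρ) hM2 j (Or.inl h5)
        have e : b + ev j + ρ - ev j = b + ρ := by abel
        rwa [e] at h6

/-- BFB -/
theorem bfb {n : ℕ} {A W : Type} [CommRing A] [AddCommGroup W] [Module A W] (s t : A)
    (F H : LP A n) (I : ℤ → ℤ → LP A n →ₗ[A] W)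
    (h1 : ∀ i m g, I i m g = I (i - 1) m (F * g)) (h2 : ∀ i m g, I i m g = I i (m - 1) (H * g))
    (h3 : ∀ i m j g, I i m (dL j g) + (s + (i : A)) • I (i - 1) m (dL j F * g) +
      (t + (m : A)) • I i (m - 1) (dL j H * g) = 0)
    (L : List (Fin n)) (m : ℤ) (q : LP A n) :
    ∃ q' : LP A n, I (1 - L.length) m (q * GG F s L) = I 1 (m - L.length) q' ∧
      ∀ (v : Lat n) (M : ℤ) (N : ℕ), L.length ≤ N → (∀ j, 0 ≤ v j ∧ N * v j ≤ M) →
        (∀ u, H.coeff u ≠ 0 → (∀ j, 0 ≤ u j) ∨ M ≤ dt v u) →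
        (∀ u, q.coeff u ≠ 0 → ∀ j, 0 ≤ u j) → ∀ u, q'.coeff u ≠ 0 → 0 ≤ dt v u := by
  obtain ⟨q', hq', hex⟩ := bfb_aux s t F H I h1 h2 h3 L m q
  refine ⟨q', hq', ?_⟩
  intro v M N hN hv hH hq u hu
  rcases Nat.eq_zero_or_pos n with hn | hn
  · subst hn
    simp [dt]
  · haveI : Nonempty (Fin n) := ⟨⟨0, hn⟩⟩
    obtain ⟨j0, hj0⟩ := Finite.exists_max v
    have hV : 0 ≤ v j0 := (hv j0).1
    have hM : ((0 + L.length : ℕ) : ℤ) * v j0 ≤ M := by
      refine le_trans (mul_le_mul_of_nonneg_right ?_ hV) (hv j0).2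
      push_cast
      have : (L.length : ℤ) ≤ N := by exact_mod_cast hN
      linarith
    have h4 := hex v M (v j0) 0 (fun j => ⟨(hv j).1, hj0 j⟩) hV hM hH
      (fun u hu => Or.inl (hq u hu)) u hu
    rcases h4 with h4 | h4
    · exact bfb_dt_nonneg (fun j => (hv j).1) h4
    · linarith

end Pool.Agent.H56.SMC
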