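import Pool.Agent.H56.SMC.CfgDefs

/-!
# JF: the formal integrals

`W = LP KA (n+2) ⧸ exS`, `s = C s0 + X`, `t = C t0`.
Proof.  `e_{(l,l2;q)}` = the class of `single (vec l l2 q) 1`.  In `W`: `(-s+l) e_{(l,l2;q)} = ∑_i κ_i e_{(l+1,l2;q+a_i)}` (`D_0`), `(-t+l2) e_{(l,l2;q)} = ∑_k λ_k e_{(l,l2+1;q+β_k)}` (`D_1`),
`(1+q_j) e_{(l,l2;q)} = ∑_i κ_i a_ij e_{(l+1,l2;q+a_i)} + ∑_k λ_k β_kj e_{(l,l2+1;q+β_k)}` (`D_{j+2}`).  Choose `ρ_i ∈ KA` (`i ∈ ℤ`) with `ρ_0 = 1`, `ρ_i = ρ_{i-1} (-s-i)` (possible in both directions, since `-s-i ≠ 0`), and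
`σ_m ∈ ℂ` with `σ_0 = 1`, `σ_m = σ_{m-1} (-t0-m)` (`ht0`).  `I i m (r x^q) = r ρ_i σ_m e_{(-i,-m;q)}`, extended additively.  `h1`, `h2` from `D_0`, `D_1`; `h3` for `g = x^q`: the relation `D_{j+2} e_{(-i,-m;q-e_j)} = 0` times `ρ_i σ_m`
(`dL j x^q = q_j x^{q-e_j}`, `ρ_i = ρ_{i-1}(-s-i)`, `σ_m = σ_{m-1}(-t-m)`).
-/

set_option autoImplicit false

namespace Pool.Agent.H56.SMC

open Finset AddMonoidAlgebra

theorem JF_rec {K : Type} [Field K] (D : ℤ → K) (hD : ∀ i, D i ≠ 0) :
    ∃ ρ : ℤ → K, ρ 0 = 1 ∧ ∀ i, ρ i = ρ (i - 1) * D i := by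
  classical
  refine ⟨fun i => (∏ k ∈ Finset.Ioc 0 i, D k) * (∏ k ∈ Finset.Ioc i 0, D k)⁻¹, by simp, ?_⟩
  intro i
  rcases lt_or_ge 0 i with hi | hi
  · have h1 : Finset.Ioc i 0 = ∅ := Finset.Ioc_eq_empty_of_le hi.le
    have h2 : Finset.Ioc (i - 1) 0 = ∅ := Finset.Ioc_eq_empty_of_le (by omega)
    have h3 : Finset.Ioc 0 i = insert i (Finset.Ioc 0 (i - 1)) := by
      ext k; simp only [Finset.mem_Ioc, Finset.mem_insert]; omega
    simp only [h1, h2, h3]
    rw [Finset.prod_insert (by simp)]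
    simp only [Finset.prod_empty, inv_one, mul_one]
    ring
  · have h1 : Finset.Ioc 0 i = ∅ := Finset.Ioc_eq_empty_of_le hi
    have h2 : Finset.Ioc 0 (i - 1) = ∅ := Finset.Ioc_eq_empty_of_le (by omega)
    have h3 : Finset.Ioc (i - 1) 0 = insert i (Finset.Ioc i 0) := by
      ext k; simp only [Finset.mem_Ioc, Finset.mem_insert]; omega
    simp only [h1, h2, h3]
    rw [Finset.prod_insert (by simp)]
    have := hD i
    simp only [Finset.prod_empty, one_mul, mul_inv]
    field_simp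

/-- `e_q ↦ e_{(l,l2;q)}` -/
noncomputable def JF_emb {R' : Type} [CommRing R'] {n : ℕ} (l l2 : ℤ) (g : LP R' n) :
    LP R' (n + 2) := ofCoeff (Finsupp.mapDomain (vec l l2) g.coeff)

theorem JF_emb_add {R' : Type} [CommRing R'] {n : ℕ} (l l2 : ℤ) (x y : LP R' n) :
    JF_emb l l2 (x + y) = JF_emb l l2 x + JF_emb l l2 y := by
  show ofCoeff (Finsupp.mapDomain (vec l l2) (x.coeff + y.coeff)) = _
  rw [Finsupp.mapDomain_add]
  rfl

theorem JF_emb_zero {R' : Type} [CommRing R'] {n : ℕ} (l l2 : ℤ) :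
    JF_emb l l2 (0 : LP R' n) = 0 := by
  show ofCoeff (Finsupp.mapDomain (vec l l2) 0) = _
  rw [Finsupp.mapDomain_zero]
  rfl

theorem JF_emb_smul {R' : Type} [CommRing R'] {n : ℕ} (l l2 : ℤ) (r : R') (x : LP R' n) :
    JF_emb l l2 (r • x) = r • JF_emb l l2 x := by
  show ofCoeff (Finsupp.mapDomain (vec l l2) (r • x.coeff)) = _
  rw [Finsupp.mapDomain_smul]
  rfl

theorem JF_emb_single {R' : Type} [CommRing R'] {n : ℕ} (l l2 : ℤ) (q : Lat n) (r : R') :
    JF_emb l l2 (single q r : LP R' n) = single (vec l l2 q) r := by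
  show ofCoeff (Finsupp.mapDomain (vec l l2) (Finsupp.single q r)) = _
  rw [Finsupp.mapDomain_single]
  rfl

theorem JF_lmap_single {R R' : Type} [CommRing R] [CommRing R'] {d : ℕ} (f : R →+* R')
    (q : Lat d) (r : R) : lmap f (single q r : LP R d) = single q (f r) := by
  apply lp_ext; intro u
  rw [lmap_coeff, coeff_single', coeff_single']
  split_ifs <;> simp

theorem JF_smul_single {R : Type} [CommRing R] {d : ℕ} (q : Lat d) (t r : R) :
    t • (single q r : LP R d) = single q (t * r) := by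
  apply lp_ext; intro u
  rw [coeff_smul', coeff_single', coeff_single']
  split_ifs <;> simp

/-- the linear map before passing to the quotient -/
noncomputable def JF_L {n : ℕ} (ρ : ℤ → KA) (σ : ℤ → ℂ) (i m : ℤ) :
    LP PA n →ₗ[PA] LP KA (n + 2) where
  toFun g := (ρ i * jK (PowerSeries.C (σ m))) • JF_emb (-i) (-m) (lmap jK g)
  map_add' x y := by rw [lmap_add, JF_emb_add, smul_add]
  map_smul' r x := by
    rw [lmap_smul, JF_emb_smul, smul_comm]
    apply lp_ext; intro u
    rw [coeff_smul']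
    exact (Algebra.smul_def r _).symm

theorem JF_L_single {n : ℕ} (ρ : ℤ → KA) (σ : ℤ → ℂ) (i m : ℤ) (q : Lat n) (r : PA) :
    JF_L ρ σ i m (single q r : LP PA n) =
      single (vec (-i) (-m) q) (ρ i * jK (PowerSeries.C (σ m)) * jK r) := by
  show (ρ i * jK (PowerSeries.C (σ m))) • JF_emb (-i) (-m) (lmap jK (single q r)) = _
  rw [JF_lmap_single, JF_emb_single, JF_smul_single]

/-- the linear map -/
noncomputable def JF_I {n : ℕ} (S : Submodule KA (LP KA (n + 2))) (ρ : ℤ → KA) (σ : ℤ → ℂ)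
    (i m : ℤ) : LP PA n →ₗ[PA] (LP KA (n + 2) ⧸ S) :=
  (S.mkQ.restrictScalars PA).comp (JF_L ρ σ i m)

theorem JF_I_single {n : ℕ} (S : Submodule KA (LP KA (n + 2))) (ρ : ℤ → KA) (σ : ℤ → ℂ)
    (i m : ℤ) (q : Lat n) (r : PA) :
    JF_I S ρ σ i m (single q r : LP PA n) =
      S.mkQ (single (vec (-i) (-m) q) (ρ i * jK (PowerSeries.C (σ m)) * jK r)) := by
  rw [← JF_L_single]
  rfl

theorem JF_pv_ev {R : Type} [CommRing R] {d : ℕ} (p : Fin d → R) (j : Fin d) :
    pv p (ev j) = p j := by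
  simp [pv, ev, Pi.single_apply]

/-- the relation `D_j e_u = 0` -/
theorem JF_rel {R : Type} [CommRing R] {d : ℕ} {ι : Type} [Fintype ι] (p : Fin d → R)
    (a : ι → Lat d) (c : ι → R) (j : Fin d) (u : Lat d) (r : R) :
    (exS p a c).mkQ (single u ((p j + (u j : R)) * r)) =
      ∑ i, (exS p a c).mkQ (single (u + a i) (c i * (a i j : R) * r)) := by
  rw [← map_sum, ← sub_eq_zero, ← map_sub, Submodule.mkQ_apply, Submodule.Quotient.mk_eq_zero,
    mem_exS]
  have h := Ex.of_Dop (p := p) (a := a) (c := c) (S := Set.univ) (ev j)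
    (Supp.single (Set.mem_univ u) r)
  convert h using 1
  apply lp_ext; intro u'
  rw [Dop_coeff, coeff_sub', coeff_finsum, JF_pv_ev, coeff_single', coeff_single']
  congr 1
  · rw [dt_ev]
    split_ifs with h1
    · rw [h1]
    · rw [mul_zero]
  · refine sum_congr rfl fun i _ => ?_
    rw [coeff_single', coeff_single', dt_ev]
    have e : (u' = u + a i) = (u' - a i = u) := by
      rw [sub_eq_iff_eq_add]
    simp only [e]
    split_ifs
    · rfl
    · rw [mul_zero]

theorem JF_prod_single {n : ℕ} {α : Type} (s : Finset α) (f : α → Lat n) :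
    ∏ j ∈ s, (single (f j) 1 : LP ℂ n) = single (∑ j ∈ s, f j) 1 := by
  classical
  induction s using Finset.induction_on with
  | empty => rfl
  | insert b s hb ih => rw [prod_insert hb, sum_insert hb, ih, single_mul_single, one_mul]

theorem JF_toL_monomial {n : ℕ} (a : Fin n →₀ ℕ) (κ : ℂ) :
    toL ℂ (MvPolynomial.monomial a κ) = single (fun j => (a j : ℤ)) κ := by
  show MvPolynomial.aeval (fun j => (single (ev j) 1 : LP ℂ n)) (MvPolynomial.monomial a κ) = _
  rw [MvPolynomial.aeval_monomial]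
  have h1 : a.prod (fun i k => (single (ev i) 1 : LP ℂ n) ^ k) =
      single (fun j => (a j : ℤ)) 1 := by
    rw [Finsupp.prod_fintype _ _ (fun i => pow_zero _)]
    have h2 : ∀ i : Fin n, (single (ev i) 1 : LP ℂ n) ^ (a i) = single ((a i) • ev i) 1 := by
      intro i
      rw [single_pow, one_pow]
    simp only [h2]
    rw [JF_prod_single]
    congr 1
    funext j
    rw [Finset.sum_apply]
    simp only [Pi.smul_apply, ev, Pi.single_apply]
    simp
  rw [h1]
  have h3 : (algebraMap ℂ (LP ℂ n)) κ = single 0 κ := rfl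
  rw [h3, single_mul_single, zero_add, mul_one]

theorem JF_f {n r : ℕ} (a : Fin r → (Fin n →₀ ℕ)) (κ : Fin r → ℂ) :
    toL ℂ (fpoly a κ) = ∑ i, single (fun j => (a i j : ℤ)) (κ i) := by
  rw [fpoly, map_sum]
  exact sum_congr rfl fun i _ => JF_toL_monomial _ _

theorem JF_mapf {n r : ℕ} (a : Fin r → (Fin n →₀ ℕ)) (κ : Fin r → ℂ) :
    lmap (algebraMap ℂ PA) (toL ℂ (fpoly a κ)) =
      ∑ i, (single (fun j => (a i j : ℤ)) (PowerSeries.C (κ i)) : LP PA n) := by
  rw [JF_f, lmap_sum]
  exact sum_congr rfl fun i _ => JF_lmap_single _ _ _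

theorem JF_mapH {n : ℕ} {ϑ : Type} [Fintype ϑ] (bb : ϑ → Lat n) (lam : ϑ → ℂ) :
    lmap (algebraMap ℂ PA) (Hl bb lam) =
      ∑ k, (single (bb k) (PowerSeries.C (lam k)) : LP PA n) := by
  rw [Hl, lmap_sum]
  exact sum_congr rfl fun i _ => JF_lmap_single _ _ _

theorem JF_dL_single {R : Type} [CommRing R] {n : ℕ} (j : Fin n) (q : Lat n) (r : R) :
    dL j (single q r : LP R n) = single (-ev j + q) ((q j : R) * r) := by
  unfold dL
  have h : dg (fun u => (u j : R)) (single q r : LP R n) = single q ((q j : R) * r) := by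
    apply lp_ext; intro u
    rw [dg_coeff, coeff_single', coeff_single']
    split_ifs with h
    · rw [h]
    · rw [mul_zero]
  rw [h, single_mul_single, one_mul]

theorem JF_dL_add {R : Type} [CommRing R] {n : ℕ} (j : Fin n) (x y : LP R n) :
    dL j (x + y) = dL j x + dL j y := by
  unfold dL
  rw [← mul_add]
  congr 1
  apply lp_ext; intro u
  rw [coeff_add', dg_coeff, dg_coeff, dg_coeff, coeff_add', mul_add]

theorem JF_dL_zero {R : Type} [CommRing R] {n : ℕ} (j : Fin n) :
    dL j (0 : LP R n) = 0 := by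
  have h := JF_dL_add j (0 : LP R n) 0
  rw [add_zero] at h
  exact left_eq_add.mp h

theorem JF_dL_sum {R : Type} [CommRing R] {n : ℕ} {α : Type} (j : Fin n) (s : Finset α)
    (f : α → LP R n) : dL j (∑ i ∈ s, f i) = ∑ i ∈ s, dL j (f i) := by
  classical
  induction s using Finset.induction_on with
  | empty => simpa using JF_dL_zero j
  | insert b s hb ih => rw [sum_insert hb, sum_insert hb, JF_dL_add, ih]

section main

variable {n r : ℕ} {ϑ : Type} [Fintype ϑ] (a : Fin r → (Fin n →₀ ℕ)) (κ : Fin r → ℂ)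
    (bb : ϑ → Lat n) (lam : ϑ → ℂ) (s0 t0 : ℂ)

/-- the submodule of the relations -/
noncomputable abbrev JF_S : Submodule KA (LP KA (n + 2)) :=
  exS (fun j => jK (pp (PowerSeries.C s0 + PowerSeries.X) (PowerSeries.C t0) j)) (cA a bb)
        (fun i => jK (PowerSeries.C (cC κ lam i)))

theorem JF_D0 (l l2 : ℤ) (q : Lat n) (x : KA) :
    (JF_S a κ bb lam s0 t0).mkQ (single (vec l l2 q)
      ((-jK (PowerSeries.C s0 + PowerSeries.X) + (l : KA)) * x)) =
    ∑ i, (JF_S a κ bb lam s0 t0).mkQ (single (vec (l + 1) l2 (q + fun j => (a i j : ℤ)))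
      (jK (PowerSeries.C (κ i)) * x)) := by
  have h := JF_rel (fun j : Fin (n + 2) =>
    jK (pp (PowerSeries.C s0 + PowerSeries.X) (PowerSeries.C t0) j)) (cA a bb)
    (fun i => jK (PowerSeries.C (cC κ lam i))) 0 (vec l l2 q) x
  rw [Fintype.sum_sum_type] at h
  have e1 : (vec l l2 q : Lat (n + 2)) 0 = l := rfl
  have e2 : jK (pp (n := n) (PowerSeries.C s0 + PowerSeries.X) (PowerSeries.C t0) 0) =
      -jK (PowerSeries.C s0 + PowerSeries.X) := by
    rw [← map_neg]; rfl
  simp only [e1, e2] at h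
  rw [h]
  have e3 : ∀ k : ϑ, (JF_S a κ bb lam s0 t0).mkQ (single (vec l l2 q + cA a bb (Sum.inr k))
      (jK (PowerSeries.C (cC κ lam (Sum.inr k))) * ((cA a bb (Sum.inr k) 0 : ℤ) : KA) * x)) = 0 := by
    intro k
    have : (cA a bb (Sum.inr k) 0 : ℤ) = 0 := rfl
    rw [this]
    simp
  rw [sum_congr rfl (fun k _ => e3 k), sum_const_zero, add_zero]
  refine sum_congr rfl fun i _ => ?_
  have e4 : (cA a bb (Sum.inl i) 0 : ℤ) = 1 := rfl
  have e5 : vec l l2 q + cA a bb (Sum.inl i) = vec (l + 1) l2 (q + fun j => (a i j : ℤ)) := by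
    show vec l l2 q + vec 1 0 (fun j => (a i j : ℤ)) = _
    rw [vec_add, add_zero]
  rw [e4, e5]
  simp only [Int.cast_one, mul_one]
  rfl

theorem JF_D1 (l l2 : ℤ) (q : Lat n) (x : KA) :
    (JF_S a κ bb lam s0 t0).mkQ (single (vec l l2 q)
      ((-jK (PowerSeries.C t0) + (l2 : KA)) * x)) =
    ∑ k, (JF_S a κ bb lam s0 t0).mkQ (single (vec l (l2 + 1) (q + bb k))
      (jK (PowerSeries.C (lam k)) * x)) := by
  have h := JF_rel (fun j : Fin (n + 2) =>
    jK (pp (PowerSeries.C s0 + PowerSeries.X) (PowerSeries.C t0) j)) (cA a bb)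
    (fun i => jK (PowerSeries.C (cC κ lam i))) (Fin.succ 0) (vec l l2 q) x
  rw [Fintype.sum_sum_type] at h
  have e1 : (vec l l2 q : Lat (n + 2)) (Fin.succ 0) = l2 := rfl
  have e2 : jK (pp (n := n) (PowerSeries.C s0 + PowerSeries.X) (PowerSeries.C t0)
      (Fin.succ 0)) = -jK (PowerSeries.C t0) := by
    rw [← map_neg]; rfl
  simp only [e1, e2] at h
  rw [h]
  have e3 : ∀ k : Fin r, (JF_S a κ bb lam s0 t0).mkQ (single (vec l l2 q + cA a bb (Sum.inl k))
      (jK (PowerSeries.C (cC κ lam (Sum.inl k))) *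
        ((cA a bb (Sum.inl k) (Fin.succ 0) : ℤ) : KA) * x)) = 0 := by
    intro k
    have : (cA a bb (Sum.inl k) (Fin.succ 0) : ℤ) = 0 := rfl
    rw [this]
    simp
  rw [sum_congr rfl (fun k _ => e3 k), sum_const_zero, zero_add]
  refine sum_congr rfl fun i _ => ?_
  have e4 : (cA a bb (Sum.inr i) (Fin.succ 0) : ℤ) = 1 := rfl
  have e5 : vec l l2 q + cA a bb (Sum.inr i) = vec l (l2 + 1) (q + bb i) := by
    show vec l l2 q + vec 0 1 (bb i) = _
    rw [vec_add, add_zero]
  rw [e4, e5]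
  simp only [Int.cast_one, mul_one]
  rfl

theorem JF_D2 (l l2 : ℤ) (q : Lat n) (j : Fin n) (x : KA) :
    (JF_S a κ bb lam s0 t0).mkQ (single (vec l l2 q) ((1 + (q j : KA)) * x)) =
    ∑ i, (JF_S a κ bb lam s0 t0).mkQ (single (vec (l + 1) l2 (q + fun j => (a i j : ℤ)))
      (jK (PowerSeries.C (κ i)) * (a i j : KA) * x)) +
    ∑ k, (JF_S a κ bb lam s0 t0).mkQ (single (vec l (l2 + 1) (q + bb k))
      (jK (PowerSeries.C (lam k)) * (bb k j : KA) * x)) := by
  have h := JF_rel (fun j : Fin (n + 2) =>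
    jK (pp (PowerSeries.C s0 + PowerSeries.X) (PowerSeries.C t0) j)) (cA a bb)
    (fun i => jK (PowerSeries.C (cC κ lam i))) j.succ.succ (vec l l2 q) x
  rw [Fintype.sum_sum_type] at h
  have e1 : (vec l l2 q : Lat (n + 2)) j.succ.succ = q j := rfl
  have e2 : jK (pp (n := n) (PowerSeries.C s0 + PowerSeries.X) (PowerSeries.C t0)
      j.succ.succ) = 1 := by
    rw [← map_one jK]; rfl
  simp only [e1, e2] at h
  rw [h]
  congr 1
  · refine sum_congr rfl fun i _ => ?_
    have e4 : (cA a bb (Sum.inl i) j.succ.succ : ℤ) = (a i j : ℤ) := rfl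
    have e5 : vec l l2 q + cA a bb (Sum.inl i) = vec (l + 1) l2 (q + fun j => (a i j : ℤ)) := by
      show vec l l2 q + vec 1 0 (fun j => (a i j : ℤ)) = _
      rw [vec_add, add_zero]
    rw [e4, e5]
    simp only [Int.cast_natCast]
    rfl
  · refine sum_congr rfl fun i _ => ?_
    have e4 : (cA a bb (Sum.inr i) j.succ.succ : ℤ) = bb i j := rfl
    have e5 : vec l l2 q + cA a bb (Sum.inr i) = vec l (l2 + 1) (q + bb i) := by
      show vec l l2 q + vec 0 1 (bb i) = _
      rw [vec_add, add_zero]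
    rw [e4, e5]
    rfl

end main

/-- JF -/
theorem jf {n r : ℕ} {ϑ : Type} [Fintype ϑ] (a : Fin r → (Fin n →₀ ℕ)) (κ : Fin r → ℂ)
    (bb : ϑ → Lat n) (lam : ϑ → ℂ) (s0 t0 : ℂ) (ht0 : ∀ m : ℤ, t0 ≠ (m : ℂ)) :
    ∃ I : ℤ → ℤ → LP PA n →ₗ[PA] (LP KA (n + 2) ⧸ exS
        (fun j => jK (pp (PowerSeries.C s0 + PowerSeries.X) (PowerSeries.C t0) j)) (cA a bb)
        (fun i => jK (PowerSeries.C (cC κ lam i)))),
      (∀ i m g, I i m g = I (i - 1) m (lmap (algebraMap ℂ PA) (toL ℂ (fpoly a κ)) * g)) ∧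
      (∀ i m g, I i m g = I i (m - 1) (lmap (algebraMap ℂ PA) (Hl bb lam) * g)) ∧
      (∀ i m j g, I i m (dL j g) +
        ((PowerSeries.C s0 + PowerSeries.X) + (i : PA)) •
          I (i - 1) m (dL j (lmap (algebraMap ℂ PA) (toL ℂ (fpoly a κ))) * g) +
        (PowerSeries.C t0 + (m : PA)) •
          I i (m - 1) (dL j (lmap (algebraMap ℂ PA) (Hl bb lam)) * g) = 0) ∧
      I 0 0 1 = Submodule.Quotient.mk (single 0 1) ∧
      ∀ R : ℕ, ∃ ρ : ℂ, ∀ g, I 0 (-(R : ℤ)) g =
        Submodule.Quotient.mk (lmap jK (PowerSeries.C ρ • emb (R : ℤ) g)) := by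
  have hD : ∀ i : ℤ, -jK (PowerSeries.C s0 + PowerSeries.X) - (i : KA) ≠ 0 := by
    intro i h
    have h1 : jK (-(PowerSeries.C s0 + PowerSeries.X) - (i : PA)) = 0 := by
      rw [map_sub, map_neg, map_intCast]; exact h
    have h2 : (-(PowerSeries.C s0 + PowerSeries.X) - (i : PA)) = 0 :=
      (IsFractionRing.injective PA KA) (by rw [map_zero]; exact h1)
    have h3 := congrArg (PowerSeries.coeff 1) h2
    have h4 : ((i : ℤ) : PA) = PowerSeries.C (i : ℂ) := by simp
    rw [h4, map_sub, map_neg, map_add, PowerSeries.coeff_C, PowerSeries.coeff_one_X,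
      PowerSeries.coeff_C, map_zero, if_neg one_ne_zero, if_neg one_ne_zero] at h3
    norm_num at h3
  have hE : ∀ m : ℤ, -t0 - (m : ℂ) ≠ 0 := by
    intro m h
    apply ht0 (-m)
    push_cast
    linear_combination -h
  obtain ⟨ρ, hρ0, hρ⟩ := JF_rec _ hD
  obtain ⟨σ, hσ0, hσ⟩ := JF_rec _ hE
  have hσ' : ∀ m, jK (PowerSeries.C (σ m)) = jK (PowerSeries.C (σ (m - 1))) *
      (-jK (PowerSeries.C t0) - (m : KA)) := by
    intro m
    rw [hσ m]
    simp only [map_mul, map_sub, map_neg, map_intCast]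
  refine ⟨fun i m => JF_I _ ρ σ i m, ?_, ?_, ?_, ?_, ?_⟩
  · intro i m g
    induction g using AddMonoidAlgebra.induction_linear with
    | zero => simp only [mul_zero, map_zero]
    | add x y hx hy => rw [mul_add, map_add, map_add, hx, hy]
    | single q x =>
      rw [JF_I_single, JF_mapf, sum_mul, map_sum]
      have h := JF_D0 a κ bb lam s0 t0 (-i) (-m) q (ρ (i - 1) * jK (PowerSeries.C (σ m)) * jK x)
      have e1 : (-jK (PowerSeries.C s0 + PowerSeries.X) + ((-i : ℤ) : KA)) *
          (ρ (i - 1) * jK (PowerSeries.C (σ m)) * jK x) =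
          ρ i * jK (PowerSeries.C (σ m)) * jK x := by
        rw [hρ i]; push_cast; ring
      rw [e1] at h
      rw [h]
      refine sum_congr rfl fun k _ => ?_
      rw [single_mul_single, JF_I_single]
      congr 2
      · congr 1
        · ring
        · rw [add_comm]
      · rw [map_mul]; ring
  · intro i m g
    induction g using AddMonoidAlgebra.induction_linear with
    | zero => simp only [mul_zero, map_zero]
    | add x y hx hy => rw [mul_add, map_add, map_add, hx, hy]
    | single q x =>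
      rw [JF_I_single, JF_mapH, sum_mul, map_sum]
      have h := JF_D1 a κ bb lam s0 t0 (-i) (-m) q (ρ i * jK (PowerSeries.C (σ (m - 1))) * jK x)
      have e1 : (-jK (PowerSeries.C t0) + ((-m : ℤ) : KA)) *
          (ρ i * jK (PowerSeries.C (σ (m - 1))) * jK x) =
          ρ i * jK (PowerSeries.C (σ m)) * jK x := by
        rw [hσ' m]; push_cast; ring
      rw [e1] at h
      rw [h]
      refine sum_congr rfl fun k _ => ?_
      rw [single_mul_single, JF_I_single]
      congr 2
      · congr 1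
        · ring
        · rw [add_comm]
      · rw [map_mul]; ring
  · intro i m j g
    induction g using AddMonoidAlgebra.induction_linear with
    | zero => simp only [JF_dL_zero, mul_zero, map_zero, smul_zero, add_zero]
    | add x y hx hy =>
      rw [JF_dL_add, mul_add, mul_add, map_add, map_add, map_add, smul_add, smul_add]
      calc _ = _ + _ := by abel
        _ = 0 + 0 := congrArg₂ (· + ·) hx hy
        _ = 0 := add_zero 0
    | single q x =>
      rw [JF_mapf, JF_mapH, JF_dL_sum, JF_dL_sum, sum_mul, sum_mul, map_sum, map_sum, smul_sum,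
        smul_sum]
      have h := JF_D2 a κ bb lam s0 t0 (-i) (-m) (-ev j + q) j
        (ρ i * jK (PowerSeries.C (σ m)) * jK x)
      have e0 : ((-ev j + q : Lat n) j : ℤ) = -1 + q j := by
        simp [ev]
      have e1 : (1 + (((-ev j + q : Lat n) j : ℤ) : KA)) *
          (ρ i * jK (PowerSeries.C (σ m)) * jK x) =
          ρ i * jK (PowerSeries.C (σ m)) * jK ((q j : PA) * x) := by
        rw [e0, map_mul, map_intCast]; push_cast; ring
      rw [e1] at h
      rw [JF_dL_single, JF_I_single, h]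
      have f1 : ∀ k : Fin r, ((PowerSeries.C s0 + PowerSeries.X) + (i : PA)) •
          JF_I (JF_S a κ bb lam s0 t0) ρ σ (i - 1) m
            (dL j (single (fun j => (a k j : ℤ)) (PowerSeries.C (κ k))) * single q x) =
          -(JF_S a κ bb lam s0 t0).mkQ (single (vec (-i + 1) (-m)
            ((-ev j + q) + fun j => (a k j : ℤ)))
            (jK (PowerSeries.C (κ k)) * (a k j : KA) *
              (ρ i * jK (PowerSeries.C (σ m)) * jK x))) := by
        intro k
        rw [JF_dL_single, single_mul_single, ← map_smul, JF_smul_single, JF_I_single, ← map_neg]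
        congr 1
        rw [← AddMonoidAlgebra.single_neg]
        congr 1
        · congr 1
          · ring
          · abel
        · rw [hρ i]
          simp only [map_mul, map_add, map_intCast]
          push_cast
          ring
      have f2 : ∀ k : ϑ, (PowerSeries.C t0 + (m : PA)) •
          JF_I (JF_S a κ bb lam s0 t0) ρ σ i (m - 1)
            (dL j (single (bb k) (PowerSeries.C (lam k))) * single q x) =
          -(JF_S a κ bb lam s0 t0).mkQ (single (vec (-i) (-m + 1) ((-ev j + q) + bb k))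
            (jK (PowerSeries.C (lam k)) * (bb k j : KA) *
              (ρ i * jK (PowerSeries.C (σ m)) * jK x))) := by
        intro k
        rw [JF_dL_single, single_mul_single, ← map_smul, JF_smul_single, JF_I_single, ← map_neg]
        congr 1
        rw [← AddMonoidAlgebra.single_neg]
        congr 1
        · congr 1
          · ring
          · abel
        · rw [hσ' m]
          simp only [map_mul, map_add, map_intCast]
          ring
      rw [sum_congr rfl (fun k _ => f1 k), sum_congr rfl (fun k _ => f2 k), sum_neg_distrib,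
        sum_neg_distrib]
      abel
  · have h1 : (1 : LP PA n) = single 0 1 := rfl
    rw [h1, JF_I_single, hρ0, hσ0]
    simp only [map_one, mul_one, neg_zero]
    have h2 : (vec 0 0 (0 : Lat n) : Lat (n + 2)) = 0 := by
      funext k
      refine Fin.cases rfl (fun k => Fin.cases rfl (fun k => rfl) k) k
    rw [h2]
    rfl
  · intro R
    refine ⟨σ (-(R : ℤ)), ?_⟩
    intro g
    show Submodule.Quotient.mk ((ρ 0 * jK (PowerSeries.C (σ (-(R : ℤ))))) •
      JF_emb (-0) (- -(R : ℤ)) (lmap jK g)) = _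
    rw [hρ0, one_mul, neg_zero, neg_neg, lmap_smul]
    congr 2
    induction g using AddMonoidAlgebra.induction_linear with
    | zero =>
      have z1 : lmap jK (0 : LP PA n) = 0 := by
        apply lp_ext; intro u
        rw [lmap_coeff, coeff_zero', coeff_zero', map_zero]
      have z2 : emb (R : ℤ) (0 : LP PA n) = 0 := JF_emb_zero 0 (R : ℤ)
      have z3 : lmap jK (0 : LP PA (n + 2)) = 0 := by
        apply lp_ext; intro u
        rw [lmap_coeff, coeff_zero', coeff_zero', map_zero]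
      rw [z1, z2, z3, JF_emb_zero]
    | add x y hx hy =>
      rw [lmap_add, JF_emb_add, hx, hy, ← lmap_add]
      congr 1
      exact (JF_emb_add (0 : ℤ) (R : ℤ) x y).symm
    | single q x =>
      rw [JF_lmap_single, JF_emb_single]
      have h1 : emb (R : ℤ) (single q x : LP PA n) = single (vec 0 (R : ℤ) q) x :=
        JF_emb_single (0 : ℤ) (R : ℤ) q x
      rw [h1, JF_lmap_single]

end Pool.Agent.H56.SMC
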