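import Pool.Agent.H56.SMC.BFA
import Pool.Agent.H56.SMC.BFB
import Pool.Agent.H56.SMC.JF

/-!
# MREL: the relation obtained from the functional equation

Proof.  `A = PA`, `s = C s0 + X`, `t = C t0`, `F = lmap (algebraMap ℂ PA) (toL ℂ f)`, `H = lmap (algebraMap ℂ PA) (Hl bb lam)`, `W`, `I` from `jf`, `R` from `bfa`; enlarge nothing.
`b(s) I 0 0 1 = I (1-R) 0 (b(s) F^{R-1})` (`h1` iterated) `= ∑_β I (1-R) 0 (p_β GG_β F^{R-|β|}) = ∑_β I (1-|β|) 0 (p_β GG_β) = ∑_β I 1 (-|β|) q_β` (`bfb` with `q = p_β`) `= ∑_β I 1 (-R) (H^{R-|β|} q_β) = I 0 (-R) (F G)`,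
`G = ∑_β H^{R-|β|} q_β`, and `jf` gives `= mk (lmap jK (C ρ • emb R (F G)))`.  `x = C ρ • emb R (F G)`.  Exponents of `F G`: `ρ' + a_i` with `ρ'` an exponent of `G`: `0 ≤ dt v ρ'` by `bfb` with `N = D` (`lst β` has length `∑ β_j ≤ D`; the `p_β` have
exponents `≥ 0`; exponents of `H` have `dt v ≥ 0`: for `n = 0` trivial, otherwise `M ≥ 0`).
-/

set_option autoImplicit false

namespace Pool.Agent.H56.SMC

open Finset AddMonoidAlgebra

theorem mrel_iter1 {n : ℕ} {A W : Type} [CommRing A] [AddCommGroup W] [Module A W] (F : LP A n)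
    (I : ℤ → ℤ → LP A n →ₗ[A] W) (h1 : ∀ i m g, I i m g = I (i - 1) m (F * g)) (k : ℕ) :
    ∀ i m g, I i m g = I (i - k) m (F ^ k * g) := by
  induction k with
  | zero => intro i m g; simp
  | succ k ih =>
    intro i m g
    rw [ih, h1, ← mul_assoc, ← pow_succ']
    congr 2
    push_cast
    ring

theorem mrel_iter2 {n : ℕ} {A W : Type} [CommRing A] [AddCommGroup W] [Module A W] (H : LP A n)
    (I : ℤ → ℤ → LP A n →ₗ[A] W) (h2 : ∀ i m g, I i m g = I i (m - 1) (H * g)) (k : ℕ) :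
    ∀ i m g, I i m g = I i (m - k) (H ^ k * g) := by
  induction k with
  | zero => intro i m g; simp
  | succ k ih =>
    intro i m g
    rw [ih, h2, ← mul_assoc, ← pow_succ']
    congr 2
    push_cast
    ring

theorem mrel_lst_length {n : ℕ} (β : Fin n →₀ ℕ) : (lst β).length = ∑ j, β j := by
  unfold lst
  rw [List.length_flatMap]
  simp only [List.length_replicate]
  rw [← List.sum_ofFn]
  congr 1
  rw [List.ofFn_eq_map]

theorem mrel_toL_nonneg {n : ℕ} {R : Type} [CommRing R] (p : MvPolynomial (Fin n) R) :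
    ∀ u, (toL R p).coeff u ≠ 0 → ∀ j, 0 ≤ u j := by
  induction p using MvPolynomial.induction_on with
  | C a =>
    intro u hu
    rw [bfa_toL_C, coeff_single'] at hu
    have : u = 0 := by
      by_contra h
      rw [if_neg h] at hu
      exact hu rfl
    intro j
    rw [this]
    exact le_refl _
  | add p q hp hq =>
    intro u hu
    rw [map_add, coeff_add'] at hu
    by_cases h : (toL R p).coeff u = 0
    · rw [h, zero_add] at hu
      exact hq u hu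
    · exact hp u h
  | mul_X p i hp =>
    intro u hu j
    rw [map_mul, bfa_toL_X, mul_comm, single_mul_coeff, one_mul] at hu
    have h1 := hp _ hu j
    have h2 : (0 : ℤ) ≤ ev i j := by
      unfold ev
      by_cases hij : j = i
      · rw [hij, Pi.single_eq_same]; exact zero_le_one
      · rw [Pi.single_eq_of_ne hij]
    have h3 : (u - ev i) j = u j - ev i j := rfl
    rw [h3] at h1
    linarith

theorem mrel_sum_coeff {n : ℕ} {A : Type} [CommRing A] {α : Type} (s : Finset α)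
    (f : α → LP A n) (u : Lat n) (h : (∑ i ∈ s, f i).coeff u ≠ 0) :
    ∃ i ∈ s, (f i).coeff u ≠ 0 := by
  rw [coeff_finsum] at h
  exact exists_ne_zero_of_sum_ne_zero h

theorem mrel_singles {n : ℕ} {A : Type} [CommRing A] {α : Type} [Fintype α]
    (e : α → Lat n) (c : α → A) (u : Lat n) (h : (∑ i, single (e i) (c i) : LP A n).coeff u ≠ 0) :
    ∃ i, u = e i := by
  obtain ⟨i, -, hi⟩ := mrel_sum_coeff _ _ _ h
  refine ⟨i, ?_⟩
  rw [coeff_single'] at hi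
  by_contra hne
  rw [if_neg hne] at hi
  exact hi rfl

theorem mrel_pow_coeff {n : ℕ} {A : Type} [CommRing A] (H : LP A n) (v : Lat n)
    (hH : ∀ u, H.coeff u ≠ 0 → 0 ≤ dt v u) (k : ℕ) :
    ∀ u, (H ^ k).coeff u ≠ 0 → 0 ≤ dt v u := by
  induction k with
  | zero =>
    intro u hu
    rw [pow_zero, AddMonoidAlgebra.one_def, coeff_single'] at hu
    have : u = 0 := by
      by_contra h
      rw [if_neg h] at hu
      exact hu rfl
    rw [this, dt_zero]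
  | succ k ih =>
    intro u hu
    rw [pow_succ] at hu
    obtain ⟨a, b, ha, hb, rfl⟩ := bfb_mul_coeff _ _ _ hu
    rw [dt_add]
    exact add_nonneg (ih a ha) (hH b hb)

/-- the relation, for abstract `I` -/
theorem mrel_key {n : ℕ} {A W : Type} [CommRing A] [AddCommGroup W] [Module A W] (s c : A)
    (F H : LP A n) (I : ℤ → ℤ → LP A n →ₗ[A] W)
    (h1 : ∀ i m g, I i m g = I (i - 1) m (F * g)) (h2 : ∀ i m g, I i m g = I i (m - 1) (H * g))
    (R : ℕ) (hR0 : 0 < R) (S : Finset (Fin n →₀ ℕ)) (hRl : ∀ β ∈ S, (lst β).length ≤ R)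
    (pb q : (Fin n →₀ ℕ) → LP A n)
    (hb : ∑ β ∈ S, pb β * GG F s (lst β) * F ^ (R - (lst β).length) = c • F ^ (R - 1))
    (hq1 : ∀ β, I (1 - ((lst β).length : ℤ)) 0 (pb β * GG F s (lst β)) =
      I 1 (0 - ((lst β).length : ℤ)) (q β)) :
    c • I 0 0 1 = I 0 (-(R : ℤ)) (F * ∑ β ∈ S, H ^ (R - (lst β).length) * q β) := by
  have e2 : c • I 0 0 1 = I (1 - (R : ℤ)) 0 (c • F ^ (R - 1)) := by
    rw [mrel_iter1 F I h1 (R - 1) 0 0 1, mul_one, ← map_smul]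
    congr 2
    rw [Nat.cast_sub hR0]
    push_cast
    ring
  rw [e2, ← hb, map_sum]
  have e3 : I 0 (-(R : ℤ)) (F * ∑ β ∈ S, H ^ (R - (lst β).length) * q β) =
      I 1 (-(R : ℤ)) (∑ β ∈ S, H ^ (R - (lst β).length) * q β) := by
    rw [h1 1 (-(R : ℤ)) _, sub_self]
  rw [e3, map_sum]
  refine sum_congr rfl fun β hβ => ?_
  have hl := hRl β hβ
  have e4 := hq1 β
  rw [zero_sub] at e4
  have e5 := mrel_iter1 F I h1 (R - (lst β).length) (1 - ((lst β).length : ℤ)) 0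
    (pb β * GG F s (lst β))
  have e6 := mrel_iter2 H I h2 (R - (lst β).length) 1 (-((lst β).length : ℤ)) (q β)
  have e7 : (1 - ((lst β).length : ℤ)) - ((R - (lst β).length : ℕ) : ℤ) = 1 - (R : ℤ) := by
    rw [Nat.cast_sub hl]; ring
  have e8 : (-((lst β).length : ℤ)) - ((R - (lst β).length : ℕ) : ℤ) = -(R : ℤ) := by
    rw [Nat.cast_sub hl]; ring
  rw [e7] at e5
  rw [e8] at e6
  rw [← e6, ← e4, e5]
  congr 1
  rw [mul_comm]

/-- from the quotient to `Ex` -/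
theorem mrel_fin {d : ℕ} {ι : Type} [Fintype ι] (p : Fin d → KA) (a : ι → Lat d) (c : ι → KA)
    (r : PA) (x : LP PA d)
    (h : r • (Submodule.Quotient.mk (single 0 1) : LP KA d ⧸ exS p a c) =
      Submodule.Quotient.mk (lmap jK x)) :
    Ex p a c Set.univ (lmap jK (single 0 r - x)) := by
  rw [← mem_exS, lmap_sub, ← Submodule.Quotient.mk_eq_zero, Submodule.Quotient.mk_sub, ← h,
    sub_eq_zero, JF_lmap_single]
  have e9 : r • (Submodule.Quotient.mk (single 0 1) : LP KA d ⧸ exS p a c) =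
      Submodule.Quotient.mk (r • single 0 1) := rfl
  rw [e9]
  congr 1
  apply lp_ext
  intro u
  rw [coeff_single']
  have e10 : (r • (single 0 1 : LP KA d)).coeff u = r • ((single 0 1 : LP KA d).coeff u) := rfl
  rw [e10, coeff_single', Algebra.smul_def]
  split_ifs
  · rw [mul_one]; rfl
  · rw [mul_zero]

/-- the exponents -/
theorem mrel_exp {n r : ℕ} {ϑ : Type} [Fintype ϑ] (a : Fin r → (Fin n →₀ ℕ)) (κ : Fin r → ℂ)
    (bb : ϑ → Lat n) (lam : ϑ → ℂ) (D R : ℕ) (S : Finset (Fin n →₀ ℕ)) (q : (Fin n →₀ ℕ) → LP PA n)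
    (pb : (Fin n →₀ ℕ) → LP PA n)
    (hq2 : ∀ β, ∀ (v : Lat n) (M : ℤ) (N : ℕ), (lst β).length ≤ N → (∀ j, 0 ≤ v j ∧ N * v j ≤ M) →
        (∀ u, (lmap (algebraMap ℂ PA) (Hl bb lam)).coeff u ≠ 0 → (∀ j, 0 ≤ u j) ∨ M ≤ dt v u) →
        (∀ u, (pb β).coeff u ≠ 0 → ∀ j, 0 ≤ u j) → ∀ u, (q β).coeff u ≠ 0 → 0 ≤ dt v u)
    (hpb : ∀ β, ∀ u, (pb β).coeff u ≠ 0 → ∀ j, 0 ≤ u j)
    (hD : ∀ β ∈ S, ∑ j, β j ≤ D) (ρ0 : PA) (u : Lat (n + 2))
    (hu : (ρ0 • emb (R : ℤ) (lmap (algebraMap ℂ PA) (toL ℂ (fpoly a κ)) *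
      ∑ β ∈ S, (lmap (algebraMap ℂ PA) (Hl bb lam)) ^ (R - (lst β).length) * q β)).coeff u ≠ 0) :
    ∃ (ρ : Lat n) (i : Fin r), u = vec 0 R (ρ + fun j => (a i j : ℤ)) ∧
        ∀ (v : Lat n) (M : ℤ), (∀ j, 0 ≤ v j ∧ D * v j ≤ M) →
          (∀ k, (∀ j, 0 ≤ bb k j) ∨ M ≤ dt v (bb k)) → 0 ≤ dt v ρ := by
  classical
  rw [coeff_smul'] at hu
  have hu1 := right_ne_zero_of_mul hu
  obtain ⟨w, hw, rfl⟩ : ∃ w, (lmap (algebraMap ℂ PA) (toL ℂ (fpoly a κ)) *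
      ∑ β ∈ S, (lmap (algebraMap ℂ PA) (Hl bb lam)) ^ (R - (lst β).length) * q β).coeff w ≠ 0 ∧
        u = vec 0 (R : ℤ) w := by
    have h6 : u ∈ (Finsupp.mapDomain (vec 0 (R : ℤ)) (lmap (algebraMap ℂ PA) (toL ℂ (fpoly a κ)) *
      ∑ β ∈ S, (lmap (algebraMap ℂ PA) (Hl bb lam)) ^ (R - (lst β).length) * q β).coeff).support :=
      Finsupp.mem_support_iff.2 hu1
    have h7 := Finsupp.mapDomain_support h6
    obtain ⟨w, hw, rfl⟩ := Finset.mem_image.1 h7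
    exact ⟨w, Finsupp.mem_support_iff.1 hw, rfl⟩
  obtain ⟨a', ρ, ha', hρ, rfl⟩ := bfb_mul_coeff _ _ _ hw
  rw [JF_mapf] at ha'
  obtain ⟨i, rfl⟩ := mrel_singles _ _ _ ha'
  refine ⟨ρ, i, congrArg (vec 0 (R : ℤ)) (add_comm _ _), ?_⟩
  intro v M hv hbb
  obtain ⟨β, hβ, hβ2⟩ := mrel_sum_coeff _ _ _ hρ
  obtain ⟨c, d, hc, hd, rfl⟩ := bfb_mul_coeff _ _ _ hβ2
  have hHe : ∀ u, (lmap (algebraMap ℂ PA) (Hl bb lam)).coeff u ≠ 0 →
      (∀ j, 0 ≤ u j) ∨ M ≤ dt v u := by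
    intro u hu
    rw [JF_mapH] at hu
    obtain ⟨k, rfl⟩ := mrel_singles _ _ _ hu
    exact hbb k
  have hHn : ∀ u, (lmap (algebraMap ℂ PA) (Hl bb lam)).coeff u ≠ 0 → 0 ≤ dt v u := by
    intro u hu
    rcases hHe u hu with h | h
    · exact bfb_dt_nonneg (fun j => (hv j).1) h
    · rcases Nat.eq_zero_or_pos n with hn | hn
      · subst hn
        simp [dt]
      · have h8 := hv ⟨0, hn⟩
        have h9 : (0 : ℤ) ≤ D * v ⟨0, hn⟩ := mul_nonneg (by positivity) h8.1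
        linarith [h8.2]
  rw [dt_add]
  refine add_nonneg (mrel_pow_coeff _ v hHn _ c hc) ?_
  refine hq2 β v M D ?_ hv hHe (hpb β) d hd
  rw [mrel_lst_length]
  exact hD β hβ

/-- MREL -/
theorem mrel {n r : ℕ} {ϑ : Type} [Fintype ϑ] (a : Fin r → (Fin n →₀ ℕ)) (κ : Fin r → ℂ)
    (bb : ϑ → Lat n) (lam : ϑ → ℂ) (b : Polynomial ℂ) (P : H22.WeylS n)
    (hfe : H22.FunctionalEquation (fpoly a κ) b P) (D : ℕ)
    (hD : ∀ β ∈ P.support, ∑ j, β j ≤ D) (s0 t0 : ℂ) (ht0 : ∀ m : ℤ, t0 ≠ (m : ℂ)) :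
    ∃ (R : ℕ) (x : LP PA (n + 2)),
      Ex (fun j => jK (pp (PowerSeries.C s0 + PowerSeries.X) (PowerSeries.C t0) j)) (cA a bb)
        (fun i => jK (PowerSeries.C (cC κ lam i))) Set.univ
        (lmap jK (single 0 (Polynomial.aeval (PowerSeries.C s0 + PowerSeries.X : PA) b) - x)) ∧
      ∀ u, x.coeff u ≠ 0 → ∃ (ρ : Lat n) (i : Fin r),
        u = vec 0 R (ρ + fun j => (a i j : ℤ)) ∧
        ∀ (v : Lat n) (M : ℤ), (∀ j, 0 ≤ v j ∧ D * v j ≤ M) →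
          (∀ k, (∀ j, 0 ≤ bb k j) ∨ M ≤ dt v (bb k)) → 0 ≤ dt v ρ := by
  obtain ⟨R, hR0, hRl, hbfa⟩ := bfa (fpoly a κ) b P hfe
  obtain ⟨I, h1, h2, h3, h4, h5⟩ := jf a κ bb lam s0 t0 ht0
  have hb := hbfa PA (PowerSeries.C s0 + PowerSeries.X)
  have hq := fun β : Fin n →₀ ℕ => bfb (PowerSeries.C s0 + PowerSeries.X) (PowerSeries.C t0)
    (lmap (algebraMap ℂ PA) (toL ℂ (fpoly a κ))) (lmap (algebraMap ℂ PA) (Hl bb lam)) I h1 h2 h3
    (lst β) 0 (toL PA (MvPolynomial.map (Polynomial.aeval (PowerSeries.C s0 + PowerSeries.X : PA) :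
      Polynomial ℂ →ₐ[ℂ] PA).toRingHom (P β)))
  choose q hq1 hq2 using hq
  obtain ⟨ρ0, hρ0⟩ := h5 R
  have e1 := mrel_key _ _ _ _ I h1 h2 R hR0 P.support hRl _ q hb hq1
  rw [h4, hρ0] at e1
  exact ⟨R, _, mrel_fin _ _ _ _ _ e1, fun u hu => mrel_exp a κ bb lam D R P.support q _ hq2
    (fun β => mrel_toL_nonneg _) hD _ u hu⟩

end Pool.Agent.H56.SMC
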