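import Mathlib

/-!
# DER: derivations of `ℂ` with prescribed values on algebraically independent elements

Proof.  `k0 = Algebra.adjoin ℚ T`.  Extend the family `lam` to a transcendence basis `B` of `ℂ` over `k0` (or over its fraction field).  On the polynomial ring `k0[B]` there is the derivation `∂/∂(lam k)`;
it extends to the fraction field and then to the algebraic extension `ℂ` (characteristic `0`, so separable; `Algebra.FormallyEtale.of_isSeparable`, or the differential extension results in
`Mathlib/FieldTheory/Differential/Basic.lean`, or Zorn: extend a derivation from a subfield `F` to `F(x)`, `x` algebraic: `D x = -(D P)(x)/P'(x)` with `P` the minimal polynomial; `x` transcendental: `D x = 0`).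
-/

set_option autoImplicit false

namespace Pool.Agent.H56.SMC

open Finset AddMonoidAlgebra

/-- derivations extend along formally étale algebras -/
theorem der_ext_etale (R S T : Type) [CommRing R] [CommRing S] [CommRing T] [Algebra R S]
    [Algebra R T] [Algebra S T] [IsScalarTower R S T] [Algebra.FormallyEtale S T]
    (d : Derivation R S T) :
    ∃ D : Derivation R T T, ∀ s : S, D (algebraMap S T s) = d s := by
  let l : TensorProduct S T (Ω[S⁄R]) →ₗ[T] T := (d.liftKaehlerDifferential).liftBaseChange T
  let e := KaehlerDifferential.tensorKaehlerEquivOfFormallyEtale R S T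
  let L : Ω[T⁄R] →ₗ[T] T := l.comp e.symm.toLinearMap
  refine ⟨L.compDer (KaehlerDifferential.D R T), fun s => ?_⟩
  have h1 := KaehlerDifferential.tensorKaehlerEquivOfFormallyEtale_symm_D_algebraMap R S T s
  show l (e.symm (KaehlerDifferential.D R T (algebraMap S T s))) = d s
  rw [h1]
  show (d.liftKaehlerDifferential).liftBaseChange T
    (TensorProduct.tmul S 1 (KaehlerDifferential.D R S s)) = d s
  rw [LinearMap.liftBaseChange_one_tmul, Derivation.liftKaehlerDifferential_comp_D]

theorem der_etale (S : Type) [CommRing S] [IsDomain S] [Algebra S ℂ] [FaithfulSMul S ℂ]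
    [Algebra.IsAlgebraic S ℂ] : Algebra.FormallyEtale S ℂ := by
  let : Algebra (FractionRing S) ℂ := FractionRing.liftAlgebra S ℂ
  have : IsScalarTower S (FractionRing S) ℂ := FractionRing.isScalarTower_liftAlgebra S ℂ
  have : Algebra.IsAlgebraic (FractionRing S) ℂ :=
    (IsFractionRing.comap_isAlgebraic_iff (A := S) (K := FractionRing S) (C := ℂ)).1
      inferInstance
  have : CharZero (FractionRing S) := (algebraMap (FractionRing S) ℂ).charZero
  have : Algebra.FormallyEtale (FractionRing S) ℂ := Algebra.FormallyEtale.of_isSeparable _ _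
  have : Algebra.FormallyEtale S (FractionRing S) :=
    Algebra.FormallyEtale.of_isLocalization (nonZeroDivisors S)
  exact Algebra.FormallyEtale.comp S (FractionRing S) ℂ

/-- DER -/
theorem der {ϑ : Type} [Fintype ϑ] (T : Set ℂ) (lam : ϑ → ℂ)
    (hlam : AlgebraicIndependent (Algebra.adjoin ℚ T) lam) (k : ϑ) :
    ∃ D : Derivation ℚ ℂ ℂ, (∀ x ∈ T, D x = 0) ∧ D (lam k) = 1 ∧ ∀ j, j ≠ k → D (lam j) = 0 := by
  classical
  obtain ⟨t, hst, ht⟩ := exists_isTranscendenceBasis_superset
    ((algebraicIndependent_subtype_range hlam.injective).2 hlam :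
      AlgebraicIndepOn (Algebra.adjoin ℚ T) id (Set.range lam))
  set S := Algebra.adjoin (Algebra.adjoin ℚ T) (Set.range ((↑) : t → ℂ)) with hS
  have : Algebra.IsAlgebraic S ℂ := ht.isAlgebraic
  have : Algebra.FormallyEtale S ℂ := der_etale S
  have : IsScalarTower (Algebra.adjoin ℚ T) S ℂ := IsScalarTower.of_algebraMap_eq fun _ => rfl
  let e := ht.1.aevalEquiv
  let ix : ϑ → t := fun j => ⟨lam j, hst ⟨j, rfl⟩⟩
  let L : S →ₗ[Algebra.adjoin ℚ T] ℂ :=
    (MvPolynomial.aeval ((↑) : t → ℂ)).toLinearMap.comp
      ((MvPolynomial.pderiv (R := Algebra.adjoin ℚ T) (ix k)).toLinearMap.comp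
        e.symm.toLinearMap)
  have hL : ∀ s, L s = MvPolynomial.aeval ((↑) : t → ℂ)
      (MvPolynomial.pderiv (R := Algebra.adjoin ℚ T) (ix k) (e.symm s)) := fun s => rfl
  have hev : ∀ s : S, MvPolynomial.aeval ((↑) : t → ℂ) (e.symm s) = (s : ℂ) := by
    intro s
    exact ht.1.aeval_repr s
  let d : Derivation (Algebra.adjoin ℚ T) S ℂ := Derivation.mk' L (by
    intro a b
    rw [hL, hL, hL, map_mul, Derivation.leibniz, map_add, smul_eq_mul, smul_eq_mul, map_mul,
      map_mul, hev, hev, Algebra.smul_def, Algebra.smul_def]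
    rfl)
  have hd : ∀ s, d s = L s := fun s => rfl
  obtain ⟨D, hD⟩ := der_ext_etale (Algebra.adjoin ℚ T) S ℂ d
  have hval : ∀ j, D (lam j) = if j = k then 1 else 0 := by
    intro j
    have h1 : algebraMap S ℂ (e (MvPolynomial.X (ix j))) = lam j := by
      rw [AlgebraicIndependent.algebraMap_aevalEquiv, MvPolynomial.aeval_X]
    rw [← h1, hD, hd, hL, AlgEquiv.symm_apply_apply]
    by_cases hjk : j = k
    · rw [hjk, MvPolynomial.pderiv_X_self, map_one, if_pos rfl]
    · rw [MvPolynomial.pderiv_X_of_ne, map_zero, if_neg hjk]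
      intro h
      exact hjk (hlam.injective (congrArg Subtype.val h))
  refine ⟨D.restrictScalars ℚ, fun x hx => ?_, ?_, fun j hj => ?_⟩
  · exact D.map_algebraMap (⟨x, Algebra.subset_adjoin hx⟩ : Algebra.adjoin ℚ T)
  · show D (lam k) = 1
    rw [hval, if_pos rfl]
  · show D (lam j) = 0
    rw [hval, if_neg hj]

end Pool.Agent.H56.SMC
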