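import Pool.Agent.H56.SMC.CfgDefs
import Pool.Agent.H56.SMC.DER

/-!
# NDG: the Cayley configuration is nondegenerate

Proof.  Let `h = vec l l2 v` be nonnegative on the configuration, zero somewhere, `χ` a point of the torus with all sums zero; `χ_0 = χ 0`, `χ_1 = χ 1`, `y_j = χ (j+2)`.
`A' = {i : dt h (cA (inl i)) = 0}`, `B' = {k : dt h (cA (inr k)) = 0}`, `f' = ∑_{A'} κ_i y^{a_i}`, `H' = ∑_{B'} λ_k y^{β_k}` (values), `θ_j f' = ∑_{A'} κ_i a_ij y^{a_i}`, `θ_j H'` similarly.
The coordinates `0`, `1`, `j+2` of the equations: `χ_0 f' = 0`, `χ_1 H' = 0`, `χ_0 θ_j f' + χ_1 θ_j H' = 0`.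
If `B'` is empty: `A'` is not empty and is the set of minimisers of `v·a_i` (`l + v·a_i ≥ 0` with equality on `A'`), `f' = 0`, `θ_j f' = 0` for all `j`: contradicts `hnd`.
If `k ∈ B'`: take the derivation `D` of `der` (`T = range κ`) for `k`.  `f' = 0` gives `0 = D f' = ∑_j (θ_j f') (D y_j / y_j)` (`D κ_i = 0`); `H' = 0` gives
`0 = D H' = y^{β_k} + ∑_j (θ_j H') (D y_j / y_j)`.  So `χ_1 y^{β_k} = -∑_j (χ_0 θ_j f' + χ_1 θ_j H') (D y_j / y_j) = 0`, a contradiction.
-/

set_option autoImplicit false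

namespace Pool.Agent.H56.SMC

open Finset AddMonoidAlgebra

/-- The monomial `y^q`. -/
noncomputable def ndgm {n : ℕ} (y : Fin n → ℂ) (q : Fin n → ℤ) : ℂ := ∏ j, y j ^ q j

theorem ndgm_ne {n : ℕ} (y : Fin n → ℂ) (hy : ∀ j, y j ≠ 0) (q : Fin n → ℤ) : ndgm y q ≠ 0 :=
  Finset.prod_ne_zero_iff.2 fun j _ => zpow_ne_zero _ (hy j)

/-- The derivative of a monomial. -/
theorem ndg_deriv {n : ℕ} (D : Derivation ℚ ℂ ℂ) (y : Fin n → ℂ) (hy : ∀ j, y j ≠ 0)
    (q : Fin n → ℤ) : D (ndgm y q) = ndgm y q * ∑ j, (q j : ℂ) * (D (y j) / y j) := by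
  classical
  have h : ∀ s : Finset (Fin n), D (∏ j ∈ s, y j ^ q j) =
      (∏ j ∈ s, y j ^ q j) * ∑ j ∈ s, (q j : ℂ) * (D (y j) / y j) := by
    intro s
    induction s using Finset.induction_on with
    | empty => simp
    | insert a s ha ih =>
      rw [prod_insert ha, sum_insert ha, Derivation.leibniz, ih, Derivation.leibniz_zpow]
      simp only [smul_eq_mul, zsmul_eq_mul]
      rw [zpow_sub_one₀ (hy a)]
      field_simp
      ring
  exact h univ

/-- NDG -/
theorem ndg {n r : ℕ} {ϑ : Type} [Fintype ϑ] (a : Fin r → (Fin n →₀ ℕ)) (κ : Fin r → ℂ)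
    (hnd : Nondeg a κ) (bb : ϑ → Lat n) (lam : ϑ → ℂ)
    (hlam : AlgebraicIndependent (Algebra.adjoin ℚ (Set.range κ)) lam) :
    TorusND (cA a bb) (cC κ lam) := by
  classical
  intro h hh hex χ
  by_contra hcon
  push Not at hcon
  set X0 : ℂ := ((χ 0 : ℂˣ) : ℂ) with hX0
  set X1 : ℂ := ((χ (Fin.succ 0) : ℂˣ) : ℂ) with hX1
  set y : Fin n → ℂ := fun j => ((χ j.succ.succ : ℂˣ) : ℂ) with hy
  have hX0' : X0 ≠ 0 := Units.ne_zero _
  have hX1' : X1 ≠ 0 := Units.ne_zero _
  have hy' : ∀ j, y j ≠ 0 := fun j => Units.ne_zero _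
  have hval : ∀ l l2 q, ((∏ k, χ k ^ (vec l l2 q k) : ℂˣ) : ℂ) = X0 ^ l * X1 ^ l2 * ndgm y q := by
    intro l l2 q
    rw [Fin.prod_univ_succ, Fin.prod_univ_succ]
    simp only [vec, Fin.cons_zero, Fin.cons_succ, ndgm, Units.val_mul, Units.val_zpow_eq_zpow_val,
      Units.coe_prod, hX0, hX1, hy]
    ring
  -- the equations
  have hE : ∀ j, (∑ i, if dt h (cA a bb (Sum.inl i)) = 0 then
        κ i * (cA a bb (Sum.inl i) j : ℂ) * (X0 * ndgm y (fun j => (a i j : ℤ))) else 0) +
      ∑ k, (if dt h (cA a bb (Sum.inr k)) = 0 then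
        lam k * (cA a bb (Sum.inr k) j : ℂ) * (X1 * ndgm y (bb k)) else 0) = 0 := by
    intro j
    have h0 := hcon j
    rw [sum_filter, Fintype.sum_sum_type] at h0
    refine Eq.trans ?_ h0
    congr 1
    · refine sum_congr rfl fun i _ => ?_
      split_ifs with hi
      · rw [show ((∏ k, χ k ^ (cA a bb (Sum.inl i) k) : ℂˣ) : ℂ) = X0 ^ (1 : ℤ) * X1 ^ (0 : ℤ) *
          ndgm y (fun j => (a i j : ℤ)) from hval _ _ _]
        simp [cC]
      · rfl
    · refine sum_congr rfl fun k _ => ?_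
      split_ifs with hk
      · rw [show ((∏ k', χ k' ^ (cA a bb (Sum.inr k) k') : ℂˣ) : ℂ) = X0 ^ (0 : ℤ) * X1 ^ (1 : ℤ) *
          ndgm y (bb k) from hval _ _ _]
        simp [cC]
      · rfl
  set mA : Fin r → ℂ := fun i => if dt h (cA a bb (Sum.inl i)) = 0 then
    ndgm y (fun j => (a i j : ℤ)) else 0 with hmA
  set mB : ϑ → ℂ := fun k => if dt h (cA a bb (Sum.inr k)) = 0 then ndgm y (bb k) else 0 with hmB
  have hE0 : ∑ i, κ i * mA i = 0 := by
    have h1 := hE 0
    have h2 : ∀ i, (if dt h (cA a bb (Sum.inl i)) = 0 then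
        κ i * (cA a bb (Sum.inl i) 0 : ℂ) * (X0 * ndgm y (fun j => (a i j : ℤ))) else 0) =
        X0 * (κ i * mA i) := by
      intro i
      simp only [hmA]
      split_ifs
      · simp [cA, vec]; ring
      · ring
    have h3 : ∀ k, (if dt h (cA a bb (Sum.inr k)) = 0 then
        lam k * (cA a bb (Sum.inr k) 0 : ℂ) * (X1 * ndgm y (bb k)) else 0) = 0 := by
      intro k
      split_ifs
      · simp [cA, vec]
      · rfl
    simp only [h2, h3, sum_const_zero, add_zero] at h1
    rw [← mul_sum] at h1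
    exact (mul_eq_zero.1 h1).resolve_left hX0'
  have hE1 : ∑ k, lam k * mB k = 0 := by
    have h1 := hE (Fin.succ 0)
    have h2 : ∀ i, (if dt h (cA a bb (Sum.inl i)) = 0 then
        κ i * (cA a bb (Sum.inl i) (Fin.succ 0) : ℂ) *
          (X0 * ndgm y (fun j => (a i j : ℤ))) else 0) = 0 := by
      intro i
      split_ifs
      · simp [cA, vec]
      · rfl
    have h3 : ∀ k, (if dt h (cA a bb (Sum.inr k)) = 0 then
        lam k * (cA a bb (Sum.inr k) (Fin.succ 0) : ℂ) * (X1 * ndgm y (bb k)) else 0) =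
        X1 * (lam k * mB k) := by
      intro k
      simp only [hmB]
      split_ifs
      · simp [cA, vec]; ring
      · ring
    simp only [h2, h3, sum_const_zero, zero_add] at h1
    rw [← mul_sum] at h1
    exact (mul_eq_zero.1 h1).resolve_left hX1'
  have hEj : ∀ j : Fin n, X0 * ∑ i, κ i * (a i j : ℂ) * mA i +
      X1 * ∑ k, lam k * (bb k j : ℂ) * mB k = 0 := by
    intro j
    have h1 := hE j.succ.succ
    have h2 : ∀ i, (if dt h (cA a bb (Sum.inl i)) = 0 then
        κ i * (cA a bb (Sum.inl i) j.succ.succ : ℂ) *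
          (X0 * ndgm y (fun j => (a i j : ℤ))) else 0) =
        X0 * (κ i * (a i j : ℂ) * mA i) := by
      intro i
      simp only [hmA]
      split_ifs
      · simp [cA, vec]; ring
      · ring
    have h3 : ∀ k, (if dt h (cA a bb (Sum.inr k)) = 0 then
        lam k * (cA a bb (Sum.inr k) j.succ.succ : ℂ) * (X1 * ndgm y (bb k)) else 0) =
        X1 * (lam k * (bb k j : ℂ) * mB k) := by
      intro k
      simp only [hmB]
      split_ifs
      · simp [cA, vec]; ring
      · ring
    simp only [h2, h3] at h1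
    rw [← mul_sum, ← mul_sum] at h1
    exact h1
  by_cases hB : ∃ k, dt h (cA a bb (Sum.inr k)) = 0
  · obtain ⟨k, hk⟩ := hB
    obtain ⟨D, hD1, hD2, hD3⟩ := der (Set.range κ) lam hlam k
    have hDA : ∀ i, D (κ i * mA i) = ∑ j, (κ i * (a i j : ℂ) * mA i) * (D (y j) / y j) := by
      intro i
      simp only [hmA]
      split_ifs
      · rw [Derivation.leibniz, hD1 (κ i) ⟨i, rfl⟩, ndg_deriv D y hy']
        simp only [smul_eq_mul, mul_zero, add_zero, mul_sum]
        refine sum_congr rfl fun j _ => ?_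
        push_cast
        ring
      · simp
    have hDB : ∀ k', D (lam k' * mB k') = (if k' = k then mB k else 0) +
        ∑ j, (lam k' * (bb k' j : ℂ) * mB k') * (D (y j) / y j) := by
      intro k'
      have h5 : D (mB k') = ∑ j, ((bb k' j : ℂ) * mB k') * (D (y j) / y j) := by
        simp only [hmB]
        split_ifs
        · rw [ndg_deriv D y hy', mul_sum]
          refine sum_congr rfl fun j _ => ?_
          ring
        · simp
      rw [Derivation.leibniz, h5]
      simp only [smul_eq_mul, mul_sum]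
      rw [add_comm]
      congr 1
      · split_ifs with hkk
        · rw [hkk, hD2, mul_one]
        · rw [hD3 k' hkk, mul_zero]
      · refine sum_congr rfl fun j _ => ?_
        ring
    have hA0 : ∑ j, (∑ i, κ i * (a i j : ℂ) * mA i) * (D (y j) / y j) = 0 := by
      have h6 := congrArg D hE0
      rw [map_zero, map_sum] at h6
      simp only [hDA] at h6
      rw [sum_comm] at h6
      rw [← h6]
      exact sum_congr rfl fun j _ => by rw [sum_mul]
    have hB0 : mB k + ∑ j, (∑ k', lam k' * (bb k' j : ℂ) * mB k') * (D (y j) / y j) = 0 := by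
      have h6 := congrArg D hE1
      rw [map_zero, map_sum] at h6
      simp only [hDB] at h6
      rw [sum_add_distrib, sum_ite_eq' univ k, if_pos (mem_univ k), sum_comm] at h6
      rw [← h6]
      congr 1
      exact sum_congr rfl fun j _ => by rw [sum_mul]
    have h7 : X1 * mB k = 0 := by
      have h8 : X1 * mB k = -∑ j, (X1 * ∑ k', lam k' * (bb k' j : ℂ) * mB k') * (D (y j) / y j) := by
        rw [eq_neg_of_add_eq_zero_left hB0, mul_neg, mul_sum]
        congr 1
        exact sum_congr rfl fun j _ => by ring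
      rw [h8]
      have h9 : ∀ j, (X1 * ∑ k', lam k' * (bb k' j : ℂ) * mB k') * (D (y j) / y j) =
          -(X0 * ((∑ i, κ i * (a i j : ℂ) * mA i) * (D (y j) / y j))) := by
        intro j
        rw [eq_neg_of_add_eq_zero_right (hEj j)]
        ring
      simp only [h9, sum_neg_distrib, neg_neg]
      rw [← mul_sum, hA0, mul_zero]
    have h10 : mB k = ndgm y (bb k) := by simp only [hmB]; rw [if_pos hk]
    rw [h10] at h7
    exact (mul_ne_zero hX1' (ndgm_ne y hy' _)) h7
  · push Not at hB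
    have hB0 : ∀ k, mB k = 0 := by
      intro k
      simp only [hmB]
      rw [if_neg (hB k)]
    obtain ⟨i0, hi0⟩ : ∃ i, dt h (cA a bb (Sum.inl i)) = 0 := by
      obtain ⟨i | k, hi⟩ := hex
      · exact ⟨i, hi⟩
      · exact absurd hi (hB k)
    have hEj' : ∀ j : Fin n, ∑ i, κ i * (a i j : ℂ) * mA i = 0 := by
      intro j
      have h1 := hEj j
      simp only [hB0, mul_zero, sum_const_zero, add_zero] at h1
      exact (mul_eq_zero.1 h1).resolve_left hX0'
    -- the weight vector
    set v : Fin n → ℤ := fun j => h j.succ.succ with hv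
    have hdt : ∀ i, dt h (cA a bb (Sum.inl i)) = h 0 + ∑ j, v j * (a i j : ℤ) := by
      intro i
      conv_lhs => rw [vec_surj h]
      change dt _ (vec 1 0 _) = _
      rw [dt_vec]
      simp [hv]
    have hiff : ∀ i, dt h (cA a bb (Sum.inl i)) = 0 ↔
        ∀ i', ∑ j, v j * (a i j : ℤ) ≤ ∑ j, v j * (a i' j : ℤ) := by
      intro i
      constructor
      · intro hi i'
        have h1 := hh (Sum.inl i')
        rw [hdt] at h1 hi
        linarith
      · intro hi
        have h1 := hi i0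
        have h2 := hh (Sum.inl i)
        rw [hdt] at hi0 h2 ⊢
        linarith
    have hmA' : ∀ i, mA i = if ∀ i', ∑ j, v j * (a i j : ℤ) ≤ ∑ j, v j * (a i' j : ℤ) then
        ∏ j, y j ^ (a i j) else 0 := by
      intro i
      simp only [hmA]
      by_cases hi : dt h (cA a bb (Sum.inl i)) = 0
      · rw [if_pos hi, if_pos ((hiff i).1 hi)]
        simp [ndgm]
      · rw [if_neg hi, if_neg (fun h' => hi ((hiff i).2 h'))]
    apply hnd v y hy'
    constructor
    · rw [← hE0, sum_filter]
      refine sum_congr rfl fun i _ => ?_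
      rw [hmA' i]
      split_ifs
      · rfl
      · rw [mul_zero]
    · intro k
      rw [← hEj' k, sum_filter]
      refine sum_congr rfl fun i _ => ?_
      rw [hmA' i]
      split_ifs
      · rfl
      · rw [mul_zero]

end Pool.Agent.H56.SMC
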