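import Pool.Agent.H56.SMC.CORE
import Pool.Agent.H56.SMC.KEXA
import Pool.Agent.H56.SMC.KEXF
import Pool.Agent.H56.SMC.FAC
import Pool.Agent.H56.SMC.NDG
import Pool.Agent.H56.SMC.MREL
import Pool.Agent.H56.SMC.FNR
import Pool.Agent.H56.SMC.FNS
import Pool.Agent.H56.SMC.APPN

/-!
# APPG: the general criterion, abstract form

Write `A = cA a (bbM β M)`, `c = cC κ lam`, `h0 = vec (-N) 0 w`, `N = wmin a w`, `δ = vec 1 1 0`, `s0 = -|w|/N`.
Proof.  (0) `0 < r` (`hN`: for `r = 0` `wmin` is an infimum over the empty set, `0`), `n > 0` (`w ≠ 0`).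
(1) `fspan`, `fac` (with `d + 1 = n + 2`): the functionals `h_v`, `hfac`.  `Sset h = {u : InC A u}` (by `hfac` and `hh`).  `l = lev h m0 y0`; `l v ≤ 0` since `dt (h v) y0 ≥ 0` (`hy0c`).
(2) `u ∈ Sc h l` iff `m0 u + y0 ∈ Sset h` (`mem_Sc_lev`); so `InC A (m0 u + y0)`: `0 ≤ m0 dt δ u + dt δ y0` gives a lower bound `C` for `dt δ u`; `0 ≤ dt h0 (m0 u + y0) = m0 dt h0 u`.
(3) For every index `v`: either `h_v` has second coordinate `≠ 0`, or `fnr` applies: `h_v = vec 1 0 0` or `h_v = vec (-wmin a v') 0 v'` with `v'` a primitive ray; in the last case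
`hA`, `hB` give the hypotheses of `appn`, `appu` for `L = l v` (`m0 q ≤ dt (h_v) y0` gives `l v = -⌊dt (h_v) y0 / m0⌋ ≤ -q`).
(4) `good v` iff `h_v = vec 1 0 0` or `h_v = vec (-wmin a v') 0 v'` with `v'` a primitive ray and `β_k·v' ≠ 0` for all `k`.  Bad `v`: `appu`.  All `v`: `appn`.
`x`, `R` from `mrel` (`t0 = I`, not an integer): an exponent of `x` is `u = vec 0 R (ρ + a_i)`; for `vec 1 0 0`: `dt = 0 ≥ l v`; for a good ray:
`dt (h v) u = v'·ρ + v'·a_i ≥ 0 ≥ l v` by the last part of `mrel` (`β_k·v' ≥ 1`, so `M ≤ M β_k·v'`; `D v'_j ≤ M` by `hMv`); `dt h0 u = w·ρ + w·a_i ≥ 0 + N > 0` (the same with `v' = w`, `hβw`, `hMw`).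
(5) `core` with `kexa`, `kexf` (`hh0`; `fns`), `ndg`: `single 0 (b.eval s0) = ∑_j gs A (cF A c h0) (ev j) * t_j` (`constantCoeff (aeval (C s0 + X) b) = b.eval s0`).  If `b.eval s0 ≠ 0` divide by it: contradicts `hno`.
-/

set_option autoImplicit false

namespace Pool.Agent.H56.SMC

open Finset AddMonoidAlgebra

/-- The value of `wmin` is a lower bound. -/
theorem appg_wmin_le {n r : ℕ} (a : Fin r → (Fin n →₀ ℕ)) (w : Fin n → ℕ) (i : Fin r) :
    (H22.wmin a w : ℤ) ≤ ∑ j, (w j : ℤ) * (a i j : ℤ) := by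
  have h : H22.wmin a w ≤ ∑ j, a i j * w j := by
    unfold H22.wmin
    exact ciInf_le ⟨0, by rintro _ ⟨i, rfl⟩; exact Nat.zero_le _⟩ i
  calc (H22.wmin a w : ℤ) ≤ ((∑ j, a i j * w j : ℕ) : ℤ) := by exact_mod_cast h
    _ = ∑ j, (w j : ℤ) * (a i j : ℤ) := by
      push_cast
      exact sum_congr rfl fun j _ => mul_comm _ _

theorem appg_pos {n r : ℕ} (a : Fin r → (Fin n →₀ ℕ)) (w : Fin n → ℕ)
    (hN : 0 < H22.wmin a w) : 0 < r := by
  rcases Nat.eq_zero_or_pos r with h | h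
  · subst h
    exfalso
    have : H22.wmin a w = 0 := by
      unfold H22.wmin
      exact Nat.iInf_of_empty _
    omega
  · exact h

theorem appg_delta {n r m : ℕ} (a : Fin r → (Fin n →₀ ℕ)) (β : Fin m → Fin n → ℤ) (M : ℤ)
    (i : Fin r ⊕ (Option (Fin n) ⊕ Fin m)) : dt (vec 1 1 0) (cA a (bbM β M) i) = 1 := by
  rcases i with i | k
  · simp [cA, dt_vec]
  · simp [cA, dt_vec]

theorem appg_beta {n m : ℕ} (β : Fin m → Fin n → ℤ) (M : ℤ) (v : Fin n → ℕ) (k : Fin m) :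
    dt (fun j => (v j : ℤ)) (bbM β M (Sum.inr k)) = M * ∑ j, β k j * v j := by
  simp only [bbM, dt]
  rw [mul_sum]
  refine sum_congr rfl fun j' _ => ?_
  simp only [Pi.smul_apply, smul_eq_mul]
  ring

theorem appg_bbM_nonneg {n m : ℕ} (β : Fin m → Fin n → ℤ) (M : ℤ) (hM : 0 < M)
    (o : Option (Fin n)) (j : Fin n) : 0 ≤ bbM β M (Sum.inl o) j := by
  rcases o with _ | j'
  · simp [bbM]
  · simp only [bbM, ev, Pi.smul_apply, smul_eq_mul, Pi.single_apply]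
    split_ifs
    · linarith
    · simp

theorem appg_h0 {n r m : ℕ} (a : Fin r → (Fin n →₀ ℕ)) (β : Fin m → Fin n → ℤ) (M : ℤ)
    (hM : 0 < M) (w : Fin n → ℕ) (hβw : ∀ k, 0 ≤ ∑ j, β k j * w j)
    (i : Fin r ⊕ (Option (Fin n) ⊕ Fin m)) :
    0 ≤ dt (vec (-(H22.wmin a w : ℤ)) 0 (fun j => (w j : ℤ))) (cA a (bbM β M) i) := by
  rcases i with i | (o | k)
  · simp only [cA, dt_vec]
    have h' := appg_wmin_le a w i
    linarith
  · simp only [cA, dt_vec]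
    have : 0 ≤ ∑ j', (w j' : ℤ) * bbM β M (Sum.inl o) j' :=
      sum_nonneg fun j' _ => mul_nonneg (by positivity) (appg_bbM_nonneg β M hM o j')
    linarith
  · simp only [cA, dt_vec]
    have h1 := appg_beta β M w k
    simp only [dt] at h1
    rw [h1]
    have := mul_nonneg hM.le (hβw k)
    linarith

/-- Nonnegativity at the exponents of the right side. -/
theorem appg_exp {n r m : ℕ} (a : Fin r → (Fin n →₀ ℕ)) (β : Fin m → Fin n → ℤ) (M : ℤ)
    (hM : 0 < M) (D : ℕ) (w : Fin n → ℕ) (hβw : ∀ k, 0 < ∑ j, β k j * w j)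
    (hMw : ∀ j, (D : ℤ) * w j ≤ M) (ρ : Lat n) (i : Fin r) (R : ℤ)
    (H : ∀ (v : Lat n) (M' : ℤ), (∀ j, 0 ≤ v j ∧ D * v j ≤ M') →
          (∀ k, (∀ j, 0 ≤ bbM β M k j) ∨ M' ≤ dt v (bbM β M k)) → 0 ≤ dt v ρ) :
    (H22.wmin a w : ℤ) ≤ dt (vec (-(H22.wmin a w : ℤ)) 0 (fun j => (w j : ℤ)))
      (vec 0 R (ρ + fun j => (a i j : ℤ))) := by
  rw [dt_vec]
  have h1 : 0 ≤ dt (fun j => (w j : ℤ)) ρ := by
    refine H _ M (fun j => ⟨by positivity, hMw j⟩) ?_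
    rintro (o | k)
    · exact Or.inl (appg_bbM_nonneg β M hM o)
    · right
      rw [appg_beta]
      have := hβw k
      nlinarith
  have h2 := appg_wmin_le a w i
  have h3 : ∑ j, (w j : ℤ) * (ρ + fun j => (a i j : ℤ)) j =
      dt (fun j => (w j : ℤ)) ρ + ∑ j, (w j : ℤ) * (a i j : ℤ) := by
    simp only [Pi.add_apply, mul_add, sum_add_distrib, dt]
  rw [h3]
  linarith

theorem appg_lev {d : ℕ} {κ : Type} (h : κ → Lat d) (m0 : ℤ) (hm0 : 0 < m0) (y0 : Lat d)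
    (v : κ) (q : ℤ) (hq : m0 * q ≤ dt (h v) y0) : lev h m0 y0 v ≤ -q := by
  unfold lev
  have : q ≤ dt (h v) y0 / m0 := by
    rw [Int.le_ediv_iff_mul_le hm0]
    linarith
  linarith

theorem appg_sset {d : ℕ} {ι κ : Type} [Fintype ι] (a : ι → Lat d) (h : κ → Lat d)
    (hh : ∀ v i, 0 ≤ dt (h v) (a i))
    (hfac : ∀ u ∈ Sset h, ∃ N : ℕ, 0 < N ∧ ∃ n : ι → ℕ, N • u = ∑ i, n i • a i) (u : Lat d) :
    u ∈ Sset h ↔ InC a u := by
  constructor
  · intro hu h' hh'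
    obtain ⟨N, hN, n, hn⟩ := hfac u hu
    have h1 : dt h' (N • u) = ∑ i, (n i : ℤ) * dt h' (a i) := by
      rw [hn, dt_sum]
      exact sum_congr rfl fun i _ => dt_nsmul _ _ _
    rw [dt_nsmul] at h1
    have h2 : 0 ≤ (N : ℤ) * dt h' u := by
      rw [h1]
      exact sum_nonneg fun i _ => mul_nonneg (by positivity) (hh' i)
    have h3 : (0 : ℤ) < N := by exact_mod_cast hN
    exact nonneg_of_mul_nonneg_right h2 h3
  · intro hu v
    exact hu (h v) (hh v)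

theorem appg_aeval (s : ℂ) (b : Polynomial ℂ) :
    PowerSeries.constantCoeff (Polynomial.aeval (PowerSeries.C s + PowerSeries.X : PA) b) =
      b.eval s := by
  rw [Polynomial.aeval_def, Polynomial.hom_eval₂]
  have h1 : (PowerSeries.constantCoeff (R := ℂ)) (PowerSeries.C s + PowerSeries.X) = s := by
    simp
  rw [h1, Polynomial.eval]
  congr 1

/-- APPG -/
theorem appg {n r m : ℕ} (a : Fin r → (Fin n →₀ ℕ)) (κ : Fin r → ℂ)
    (hnd : Nondeg a κ) (b : Polynomial ℂ) (P : H22.WeylS n)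
    (hfe : H22.FunctionalEquation (fpoly a κ) b P) (w : Fin n → ℕ) (hw : FacetNormal a w)
    (hN : 0 < H22.wmin a w) (β : Fin m → Fin n → ℤ) (hβw : ∀ k, 0 < ∑ j, β k j * w j)
    (D : ℕ) (hD : ∀ α ∈ P.support, ∑ j, α j ≤ D) (M : ℤ) (hM : 0 < M)
    (hMw : ∀ j, (D : ℤ) * w j ≤ M)
    (hMv : ∀ v : Fin n → ℕ, RayNormal a β v → univ.gcd v = 1 → ∀ j, (D : ℤ) * v j ≤ M)
    (m0 : ℤ) (hm0 : 0 < m0) (y0 : Lat (n + 2)) (hy0c : InC (cA a (bbM β M)) y0)
    (hy0 : dt (vec (-(H22.wmin a w : ℤ)) 0 (fun j => (w j : ℤ))) y0 = 0)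
    (hA : ∀ v : Fin n → ℕ, RayNormal a β v → univ.gcd v = 1 → H22.wmin a v = 0 →
      m0 * H22.wsum v ≤ dt (vec (-(H22.wmin a v : ℤ)) 0 (fun j => (v j : ℤ))) y0)
    (hB : ∀ v : Fin n → ℕ, RayNormal a β v → univ.gcd v = 1 → (∃ k, ∑ j, β k j * v j = 0) →
      ∀ l : ℕ, 0 < l →
        H22.wsum v * H22.wmin a w = l * H22.wmin a w + H22.wmin a v * H22.wsum w →
        m0 * l ≤ dt (vec (-(H22.wmin a v : ℤ)) 0 (fun j => (v j : ℤ))) y0)
    (lam : Option (Fin n) ⊕ Fin m → ℂ)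
    (hlam : AlgebraicIndependent (Algebra.adjoin ℚ (Set.range κ)) lam)
    (hno : ¬ ∃ t : Fin (n + 2) → LP ℂ (n + 2),
      (∀ j, Supp {u | InC (cA a (bbM β M)) (m0 • u + y0) ∧
        dt (vec (-(H22.wmin a w : ℤ)) 0 (fun j => (w j : ℤ))) u = 0 ∧
        dt (vec 1 1 0) u = -1} (t j)) ∧
      (single 0 1 : LP ℂ (n + 2)) = ∑ j, gs (cA a (bbM β M))
        (cF (cA a (bbM β M)) (cC κ lam) (vec (-(H22.wmin a w : ℤ)) 0 (fun j => (w j : ℤ))))
        (ev j) * t j) :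
    b.IsRoot (-(H22.wsum w : ℂ) / (H22.wmin a w : ℂ)) := by
  classical
  have hr := appg_pos a w hN
  have hδ := appg_delta a β M
  obtain ⟨e, he⟩ := fspan hr a β M hM
  obtain ⟨mf, h, hh, hprim, hfacet, hfac⟩ := fac (cA a (bbM β M)) (vec 1 1 0) hδ ⟨e, he⟩
  have hS := appg_sset (cA a (bbM β M)) h hh hfac
  have hndA : TorusND (cA a (bbM β M)) (cC κ lam) := ndg a κ hnd (bbM β M) lam hlam
  have hSc : ∀ u, u ∈ Sc h (lev h m0 y0) ↔ InC (cA a (bbM β M)) (m0 • u + y0) := by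
    intro u
    rw [mem_Sc_lev h hm0, hS]
  have hl0 : ∀ v, lev h m0 y0 v ≤ 0 := by
    intro v
    have := appg_lev h m0 hm0 y0 v 0 (by rw [mul_zero]; exact hy0c (h v) (hh v))
    linarith
  have hSδ : ∀ u ∈ Sc h (lev h m0 y0), -|dt (vec 1 1 0) y0| ≤ dt (vec 1 1 0) u := by
    intro u hu
    rw [hSc] at hu
    have h1 := hu (vec 1 1 0) (fun i => by rw [hδ i]; norm_num)
    rw [dt_add, dt_zsmul] at h1
    have h2 := le_abs_self (dt (vec 1 1 0) y0)
    have h3 := abs_nonneg (dt (vec 1 1 0) y0)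
    by_contra hcon
    push Not at hcon
    nlinarith
  have hh0 := appg_h0 a β M hM w (fun k => (hβw k).le)
  have hS0 : ∀ u ∈ Sc h (lev h m0 y0),
      0 ≤ dt (vec (-(H22.wmin a w : ℤ)) 0 (fun j => (w j : ℤ))) u := by
    intro u hu
    rw [hSc] at hu
    have h1 := hu _ hh0
    rw [dt_add, dt_zsmul, hy0, add_zero] at h1
    exact nonneg_of_mul_nonneg_right h1 hm0
  have hcases : ∀ v, h v (Fin.succ 0) ≠ 0 ∨ h v = vec 1 0 0 ∨
      ∃ v' : Fin n → ℕ, RayNormal a β v' ∧ univ.gcd v' = 1 ∧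
        h v = vec (-(H22.wmin a v' : ℤ)) 0 (fun j => (v' j : ℤ)) := by
    intro v
    by_cases h1 : h v (Fin.succ 0) = 0
    · exact Or.inr (fnr hr a β M hM (h v) (hh v) (hprim v) (hfacet v) h1)
    · exact Or.inl h1
  have hnr : ∀ v, ∀ mm : ℤ, mm < lev h m0 y0 v →
      pv (pp (PowerSeries.C (-(H22.wsum w : ℂ) / (H22.wmin a w : ℂ)) + PowerSeries.X)
        (PowerSeries.C Complex.I)) (h v) + (mm : PA) ≠ 0 := by
    intro v mm hmm
    refine appn a w hN (h v) (lev h m0 y0 v) ?_ mm hmm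
    rcases hcases v with h1 | h1 | ⟨v', hray, hg, hv'⟩
    · exact Or.inl h1
    · exact Or.inr (Or.inl h1)
    · refine Or.inr (Or.inr ⟨v', hv', fun h0 => ?_⟩)
      have := hA v' hray hg h0
      rw [← hv'] at this
      exact appg_lev h m0 hm0 y0 v _ this
  have hbad : ∀ v, ¬ (h v = vec 1 0 0 ∨ ∃ v' : Fin n → ℕ, RayNormal a β v' ∧ univ.gcd v' = 1 ∧
        h v = vec (-(H22.wmin a v' : ℤ)) 0 (fun j => (v' j : ℤ)) ∧
        ∀ k, ∑ j, β k j * v' j ≠ 0) → ∀ mm : ℤ, mm < lev h m0 y0 v →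
      IsUnit (pv (pp (PowerSeries.C (-(H22.wsum w : ℂ) / (H22.wmin a w : ℂ)) + PowerSeries.X)
        (PowerSeries.C Complex.I)) (h v) + (mm : PA)) := by
    intro v hng mm hmm
    refine appu a w hN (h v) (lev h m0 y0 v) (hl0 v) ?_ mm hmm
    rcases hcases v with h1 | h1 | ⟨v', hray, hg, hv'⟩
    · exact Or.inl h1
    · exact absurd (Or.inl h1) hng
    · refine Or.inr ⟨v', hv', fun l hl heq => ?_⟩
      have hex : ∃ k, ∑ j, β k j * v' j = 0 := by
        by_contra hcon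
        push Not at hcon
        exact hng (Or.inr ⟨v', hray, hg, hv', hcon⟩)
      have := hB v' hray hg hex l hl heq
      rw [← hv'] at this
      exact appg_lev h m0 hm0 y0 v _ this
  have hp0 : PowerSeries.constantCoeff
      (pv (pp (PowerSeries.C (-(H22.wsum w : ℂ) / (H22.wmin a w : ℂ)) + PowerSeries.X)
        (PowerSeries.C Complex.I)) (vec (-(H22.wmin a w : ℤ)) 0 (fun j => (w j : ℤ))) : PA) = 0 := by
    have hNC : (H22.wmin a w : ℂ) ≠ 0 := by exact_mod_cast hN.ne'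
    rw [pv_pp]
    simp only [map_add, map_sub, map_neg, map_mul, PowerSeries.constantCoeff_X, map_intCast,
      PowerSeries.constantCoeff_C]
    simp only [H22.wsum]
    push_cast
    field_simp
    ring
  have hK := kexa (cA a (bbM β M)) (cC κ lam) h (vec 1 1 0) hδ hh hfac hndA ⟨e, he⟩ m0 hm0 y0
  have hne : (vec (-(H22.wmin a w : ℤ)) 0 (fun j => (w j : ℤ)) : Lat (n + 2)) ≠ 0 := by
    intro hcon
    have h1 := congrFun hcon 0
    simp only [vec, Fin.cons_zero, Pi.zero_apply] at h1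
    have : (H22.wmin a w : ℤ) = 0 := by linarith
    have h2 : H22.wmin a w = 0 := by exact_mod_cast this
    omega
  have hKF := kexf (cA a (bbM β M)) (cC κ lam) h (vec 1 1 0) hδ hh hfac hndA
    (vec (-(H22.wmin a w : ℤ)) 0 (fun j => (w j : ℤ))) hne hh0 (fns a β M hM w hw) m0 hm0 y0 hy0
  obtain ⟨R, x, hex, hx⟩ := mrel a κ (bbM β M) lam b P hfe D hD
    (-(H22.wsum w : ℂ) / (H22.wmin a w : ℂ)) Complex.I (by
      intro m hm
      have := congrArg Complex.im hm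
      simp at this)
  have hxS : Supp {u | (∀ v, (h v = vec 1 0 0 ∨ ∃ v' : Fin n → ℕ, RayNormal a β v' ∧
        univ.gcd v' = 1 ∧ h v = vec (-(H22.wmin a v' : ℤ)) 0 (fun j => (v' j : ℤ)) ∧
        ∀ k, ∑ j, β k j * v' j ≠ 0) → lev h m0 y0 v ≤ dt (h v) u) ∧
        0 < dt (vec (-(H22.wmin a w : ℤ)) 0 (fun j => (w j : ℤ))) u} x := by
    intro u hu
    obtain ⟨ρ, i, rfl, H⟩ := hx u hu
    refine ⟨fun v hgood => ?_, ?_⟩
    · refine (hl0 v).trans ?_
      rcases hgood with h1 | ⟨v', hray, hg, hv', hne'⟩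
      · rw [h1, dt_vec]
        simp
      · rw [hv']
        have := appg_exp a β M hM D v' (fun k => lt_of_le_of_ne (hray.2.1 k) (hne' k).symm)
          (hMv v' hray hg) ρ i R H
        exact le_trans (by positivity) this
    · have := appg_exp a β M hM D w hβw hMw ρ i R H
      have hN' : (0 : ℤ) < H22.wmin a w := by exact_mod_cast hN
      exact lt_of_lt_of_le hN' this
  obtain ⟨t, ht, hsum⟩ := core (cA a (bbM β M)) (cC κ lam) _ h (lev h m0 y0) hl0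
    (fun v => h v = vec 1 0 0 ∨ ∃ v' : Fin n → ℕ, RayNormal a β v' ∧
        univ.gcd v' = 1 ∧ h v = vec (-(H22.wmin a v' : ℤ)) 0 (fun j => (v' j : ℤ)) ∧
        ∀ k, ∑ j, β k j * v' j ≠ 0) (vec 1 1 0)
    (vec (-(H22.wmin a w : ℤ)) 0 (fun j => (w j : ℤ))) hδ _ hSδ hh hh0 hS0 hnr hbad hp0 hK hKF
    _ x hxS hex
  rw [appg_aeval] at hsum
  by_contra hroot
  have hb : b.eval (-(H22.wsum w : ℂ) / (H22.wmin a w : ℂ)) ≠ 0 := hroot
  apply hno
  refine ⟨fun j => (b.eval (-(H22.wsum w : ℂ) / (H22.wmin a w : ℂ)))⁻¹ • t j,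
    fun j => Supp.smul _ ?_, ?_⟩
  · intro u hu
    obtain ⟨h1, h2, h3⟩ := ht j u hu
    exact ⟨(hSc u).1 h1, h2, h3⟩
  · have h1 : (single 0 1 : LP ℂ (n + 2)) =
        (b.eval (-(H22.wsum w : ℂ) / (H22.wmin a w : ℂ)))⁻¹ •
          (single 0 (b.eval (-(H22.wsum w : ℂ) / (H22.wmin a w : ℂ))) : LP ℂ (n + 2)) := by
      apply lp_ext
      intro u
      rw [coeff_smul', coeff_single', coeff_single']
      split_ifs
      · rw [inv_mul_cancel₀ hb]
      · rw [mul_zero]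
    rw [h1, hsum, smul_sum]
    exact sum_congr rfl fun j _ => (mul_smul_comm _ _ _).symm

end Pool.Agent.H56.SMC
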