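import Mathlib

/-!
# LAM: algebraically independent elements over a countable subring

Proof.  `k0 = Algebra.adjoin ℚ T` is countable (finitely generated), so a transcendence basis of `ℂ` over `k0` is uncountable (`Algebra.IsAlgebraic.cardinalMk_le_max` or
`IsAlgClosed.cardinal_le_max_transcendence_basis`), in particular infinite; take an injection `ϑ → basis`.
-/

set_option autoImplicit false

namespace Pool.Agent.H56.SMC

open Finset AddMonoidAlgebra

open Cardinal in
theorem LAM_countable (T : Finset ℂ) : Countable (Algebra.adjoin ℚ (T : Set ℂ)) := by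
  have h1 : Countable (MvPolynomial (T : Set ℂ) ℚ) := by
    rw [← Cardinal.mk_le_aleph0_iff]
    refine MvPolynomial.cardinalMk_le_max.trans ?_
    have h2 : #ℚ ≤ ℵ₀ := Cardinal.mk_le_aleph0
    have h3 : #(T : Set ℂ) ≤ ℵ₀ := Cardinal.mk_le_aleph0
    simp only [max_le_iff]
    exact ⟨⟨h2, h3⟩, le_rfl⟩
  have h4 : Countable (MvPolynomial.aeval (Subtype.val : ↥(T : Set ℂ) → ℂ) :
      MvPolynomial (T : Set ℂ) ℚ →ₐ[ℚ] ℂ).range :=
    Set.countable_coe_iff.2 (Set.countable_range _)
  rw [Algebra.adjoin_eq_range]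
  exact h4

open Cardinal in
/-- LAM -/
theorem lam_exists (T : Finset ℂ) (ϑ : Type) [Fintype ϑ] :
    ∃ lam : ϑ → ℂ, AlgebraicIndependent (Algebra.adjoin ℚ (T : Set ℂ)) lam := by
  have hc := LAM_countable T
  obtain ⟨ι, x, hx⟩ := exists_isTranscendenceBasis' (Algebra.adjoin ℚ (T : Set ℂ)) ℂ
  have h1 := IsAlgClosed.cardinal_le_max_transcendence_basis' x hx
  have h2 : ℵ₀ < #ι := by
    by_contra hcon
    rw [not_lt] at hcon
    have h3 : #ℂ ≤ ℵ₀ := h1.trans (max_le (max_le Cardinal.mk_le_aleph0 hcon) le_rfl)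
    exact absurd h3 (not_le.2 (by rw [Cardinal.mk_complex]; exact Cardinal.aleph0_lt_continuum))
  have h3 : Infinite ι := Cardinal.infinite_iff.2 h2.le
  obtain ⟨e⟩ : Nonempty (ϑ ↪ ι) := by
    refine ⟨(Fintype.equivFin ϑ).toEmbedding.trans ((Fin.valEmbedding).trans (Infinite.natEmbedding ι))⟩
  exact ⟨x ∘ e, hx.1.comp e e.injective⟩

end Pool.Agent.H56.SMC
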