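import Pool.Agent.H56.SMC.Basic

/-!
# RA: raising of the levels with unit eigenvalues

Proof.  One bad functional `v` after the other; for one `v` induction on the lowest level `m < l v`: let `t` be the part of `x` with
`dt (h v) u = m` exactly (lowest level), `ρ` the inverse of the unit `pv p (h v) + m`; replace `x` by
`x - ρ • Dop (h v) t`.  `Dop (h v) t` is exact (`Ex.of_Dop`), its part of level `m` is `(pv p (h v) + m) • t` (terms of
`gs a c (h v)` with `dt (h v) (a i) = 0` have coefficient `0`), the rest has higher level; the other conditions on the support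
(`l v' ≤ dt (h v') u` for the `v'` already treated and the good ones, `0 < dt h0 u`) are preserved since all `a i` have nonnegative levels.
-/

set_option autoImplicit false

namespace Pool.Agent.H56.SMC

open Finset AddMonoidAlgebra

/-- RA -/
theorem ra {R : Type} [CommRing R] {d : ℕ} {ι κ : Type} [Fintype ι] [Fintype κ] (a : ι → Lat d)
    (c : ι → R) (p : Fin d → R) (h : κ → Lat d) (good : κ → Prop)
    (hh : ∀ v i, 0 ≤ dt (h v) (a i)) (l : κ → ℤ)
    (hu : ∀ v, ¬ good v → ∀ m : ℤ, m < l v → IsUnit (pv p (h v) + (m : R)))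
    (h0 : Lat d) (hh0 : ∀ i, 0 ≤ dt h0 (a i)) (x : LP R d)
    (hx : Supp {u | (∀ v, good v → l v ≤ dt (h v) u) ∧ 0 < dt h0 u} x) :
    ∃ x' : LP R d, Supp {u | u ∈ Sc h l ∧ 0 < dt h0 u} x' ∧ Ex p a c Set.univ (x - x') := by
  classical
  let B : Finset κ → Set (Lat d) := fun V =>
    {u | (∀ v, good v → l v ≤ dt (h v) u) ∧ (∀ v ∈ V, l v ≤ dt (h v) u) ∧ 0 < dt h0 u}
  have step : ∀ (V : Finset κ) (w : κ), ¬ good w → ∀ (n : ℕ) (x : LP R d),
      Supp {u | u ∈ B V ∧ l w - n ≤ dt (h w) u} x →
      ∃ x' : LP R d, Supp {u | u ∈ B V ∧ l w ≤ dt (h w) u} x' ∧ Ex p a c Set.univ (x - x') := by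
    intro V w hw n
    induction n with
    | zero =>
      intro x hx
      refine ⟨x, hx.mono ?_, ?_⟩
      · rintro u ⟨h1, h2⟩
        exact ⟨h1, by simpa using h2⟩
      · rw [sub_self]
        exact Ex.zero
    | succ n ih =>
      intro x hx
      set m : ℤ := l w - (n + 1 : ℕ) with hm
      have hml : m < l w := by rw [hm]; push_cast; omega
      obtain ⟨ρ, hρ⟩ := (hu w hw m hml).exists_left_inv
      set S : Set (Lat d) := {u | u ∈ B V ∧ m ≤ dt (h w) u} with hS
      have hcl : ∀ u ∈ S, ∀ i, c i ≠ 0 → u + a i ∈ S := by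
        rintro u ⟨⟨h1, h2, h3⟩, h4⟩ i -
        refine ⟨⟨fun v hv => ?_, fun v hv => ?_, ?_⟩, ?_⟩
        · rw [dt_add]; have := h1 v hv; have := hh v i; omega
        · rw [dt_add]; have := h2 v hv; have := hh v i; omega
        · rw [dt_add]; have := hh0 i; omega
        · rw [dt_add]; have := hh w i; omega
      -- the part of level exactly `m`
      let t : LP R d := dg (fun u => if dt (h w) u = m then (1 : R) else 0) x
      have ht : ∀ u, t.coeff u = (if dt (h w) u = m then (1 : R) else 0) * x.coeff u :=
        fun u => dg_coeff _ _ _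
      have htS : Supp S t := hx.dg _
      have hsup : Supp S (x - ρ • Dop p a c (h w) t) :=
        hx.sub ((htS.Dop p a c (h w) hcl).smul _)
      obtain ⟨x', hx', hex'⟩ := ih (x - ρ • Dop p a c (h w) t) (by
        intro u hu
        obtain ⟨h1, h2⟩ := hsup u hu
        refine ⟨h1, ?_⟩
        by_contra h3
        have h4 : dt (h w) u = m := by
          rw [hm] at h2 ⊢
          push_cast at h2 ⊢
          omega
        apply hu
        have h5 : ∑ i, c i * (dt (h w) (a i) : R) * t.coeff (u - a i) = 0 := by
          refine Finset.sum_eq_zero fun i _ => ?_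
          by_cases h6 : dt (h w) (a i) = 0
          · rw [h6, Int.cast_zero, mul_zero, zero_mul]
          · have h7 : dt (h w) (u - a i) ≠ m := by
              rw [dt_sub]
              omega
            rw [ht, if_neg h7, zero_mul, mul_zero]
        rw [coeff_sub', coeff_smul', Dop_coeff, h5, ht, if_pos h4, h4, one_mul, sub_zero,
          ← mul_assoc, hρ, one_mul, sub_self])
      refine ⟨x', hx', ?_⟩
      have e1 : x - x' = (x - ρ • Dop p a c (h w) t - x') + ρ • Dop p a c (h w) t := by abel
      rw [e1]
      exact hex'.add ((Ex.of_Dop (h w) (S := Set.univ) fun _ _ => Set.mem_univ _).smul ρ)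
  have main : ∀ V : Finset κ, ∃ x' : LP R d, Supp (B V) x' ∧ Ex p a c Set.univ (x - x') := by
    intro V
    induction V using Finset.induction_on with
    | empty =>
      refine ⟨x, fun u hu' => ?_, ?_⟩
      · obtain ⟨h1, h2⟩ := hx u hu'
        exact ⟨h1, fun v hv => absurd hv (Finset.notMem_empty v), h2⟩
      · rw [sub_self]
        exact Ex.zero
    | insert w V hw ih =>
      obtain ⟨x1, hx1, hex1⟩ := ih
      by_cases hgw : good w
      · refine ⟨x1, fun u hu' => ?_, hex1⟩
        obtain ⟨h1, h2, h3⟩ := hx1 u hu'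
        refine ⟨h1, fun v hv => ?_, h3⟩
        rcases Finset.mem_insert.1 hv with rfl | hv
        · exact h1 v hgw
        · exact h2 v hv
      · obtain ⟨x2, hx2, hex2⟩ := step V w hgw
          (∑ u ∈ x1.coeff.support, (l w - dt (h w) u).toNat) x1 (by
          intro u hu'
          refine ⟨hx1 u hu', ?_⟩
          have h1 : (l w - dt (h w) u).toNat ≤
              ∑ u ∈ x1.coeff.support, (l w - dt (h w) u).toNat :=
            Finset.single_le_sum (f := fun u => (l w - dt (h w) u).toNat)
              (fun _ _ => Nat.zero_le _) (Finsupp.mem_support_iff.2 hu')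
          omega)
        refine ⟨x2, fun u hu' => ?_, ?_⟩
        · obtain ⟨⟨h1, h2, h3⟩, h4⟩ := hx2 u hu'
          refine ⟨h1, fun v hv => ?_, h3⟩
          rcases Finset.mem_insert.1 hv with rfl | hv
          · exact h4
          · exact h2 v hv
        · have e1 : x - x2 = (x - x1) + (x1 - x2) := by abel
          rw [e1]
          exact hex1.add hex2
  obtain ⟨x', hx', hex'⟩ := main Finset.univ
  exact ⟨x', fun u hu' => ⟨fun v => (hx' u hu').2.1 v (Finset.mem_univ v), (hx' u hu').2.2⟩, hex'⟩

end Pool.Agent.H56.SMC
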