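import Pool.Agent.H56.SMC.Basic

/-!
# RK: raising of the levels over a field without resonance

Proof.  `x = ∑ D_j z_j`.  One functional after the other (induction on a finset `V` of functionals: all `z_j` supported in
`{l v ≤ dt (h v) u for v ∈ V}`), and for the new `v` downward induction on the lowest level: let `dt (h v) u ≥ m` on all supports with
`m < l v`, let `t_j` be the part of `z_j` at level `m` exactly, `ρ = (pv p (h v) + m)⁻¹` (`hnr`), and
  `z'_j = z_j - ρ • (Dop (h v) t_j - ∑_k (h v j) • D_k t_k)`.
(i) `∑_j D_j z'_j = ∑_j D_j z_j`: by `Dop_comm` and `Dop_left` both `∑_j D_j Dop (h v) t_j` and `∑_j (h v j) • D_j (∑_k D_k t_k)` equal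
`Dop (h v) (∑_k D_k t_k)`.
(ii) levels of `z'_j` with respect to `v` are `≥ m+1`: the operators do not lower levels (`hh`), `Dop (h v)` acts on level `m` as the scalar
`pv p (h v) + m` plus terms of higher level (in `gs a c (h v)` a term with `dt (h v) (a i) = 0` has coefficient `0`), and the part of
`∑_k D_k t_k` of level `m` is the part of `x = ∑_k D_k z_k` of level `m`, which vanishes (`x` is supported in levels `≥ l v`).
(iii) the levels of the other functionals of `V` stay `≥ l`.
-/

set_option autoImplicit false

namespace Pool.Agent.H56.SMC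

open Finset AddMonoidAlgebra

/-- RK -/
theorem rk {K : Type} [Field K] {d : ℕ} {ι κ : Type} [Fintype ι] [Fintype κ] (a : ι → Lat d)
    (c : ι → K) (p : Fin d → K) (h : κ → Lat d) (hh : ∀ v i, 0 ≤ dt (h v) (a i)) (l : κ → ℤ)
    (hnr : ∀ v, ∀ m : ℤ, m < l v → pv p (h v) + (m : K) ≠ 0)
    (x : LP K d) (hx : Supp (Sc h l) x) (hex : Ex p a c Set.univ x) : Ex p a c (Sc h l) x := by
  classical
  have step : ∀ (V : Finset κ) (w : κ) (n : ℕ) (z : Fin d → LP K d),
      (∀ j, Supp {u | (∀ v ∈ V, l v ≤ dt (h v) u) ∧ l w - n ≤ dt (h w) u} (z j)) →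
      x = ∑ j, Dop p a c (ev j) (z j) →
      ∃ z' : Fin d → LP K d,
        (∀ j, Supp {u | (∀ v ∈ V, l v ≤ dt (h v) u) ∧ l w ≤ dt (h w) u} (z' j)) ∧
        x = ∑ j, Dop p a c (ev j) (z' j) := by
    intro V w n
    induction n with
    | zero =>
      intro z hz hxz
      refine ⟨z, fun j => (hz j).mono ?_, hxz⟩
      rintro u ⟨h1, h2⟩
      exact ⟨h1, by simpa using h2⟩
    | succ n ih =>
      intro z hz hxz
      set m : ℤ := l w - (n + 1 : ℕ) with hm
      have hml : m < l w := by rw [hm]; push_cast; omega
      have hρ := hnr w m hml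
      set S : Set (Lat d) := {u | (∀ v ∈ V, l v ≤ dt (h v) u) ∧ m ≤ dt (h w) u} with hS
      set S' : Set (Lat d) := {u | (∀ v ∈ V, l v ≤ dt (h v) u) ∧ m + 1 ≤ dt (h w) u} with hS'
      have hcl : ∀ u ∈ S, ∀ i, c i ≠ 0 → u + a i ∈ S := by
        rintro u ⟨h1, h2⟩ i -
        refine ⟨fun v hv => ?_, ?_⟩
        · rw [dt_add]; have := h1 v hv; have := hh v i; omega
        · rw [dt_add]; have := hh w i; omega
      have hcl' : ∀ u ∈ S', ∀ i, c i ≠ 0 → u + a i ∈ S' := by
        rintro u ⟨h1, h2⟩ i -
        refine ⟨fun v hv => ?_, ?_⟩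
        · rw [dt_add]; have := h1 v hv; have := hh v i; omega
        · rw [dt_add]; have := hh w i; omega
      -- the part of level exactly `m`
      let t : Fin d → LP K d := fun j => dg (fun u => if dt (h w) u = m then (1 : K) else 0) (z j)
      have ht : ∀ j u, (t j).coeff u = (if dt (h w) u = m then (1 : K) else 0) * (z j).coeff u :=
        fun j u => dg_coeff _ _ _
      have htS : ∀ j, Supp S (t j) := fun j => (hz j).dg _
      have hzt : ∀ j, Supp S' (z j - t j) := by
        intro j u hu
        rw [coeff_sub', ht] at hu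
        have h1 : (z j).coeff u ≠ 0 := by
          intro h0; apply hu; rw [h0, mul_zero, sub_zero]
        obtain ⟨h2, h3⟩ := hz j u h1
        refine ⟨h2, ?_⟩
        by_contra h4
        have h5 : dt (h w) u = m := by omega
        apply hu
        rw [if_pos h5, one_mul, sub_self]
      let Y : LP K d := ∑ k, Dop p a c (ev k) (t k)
      have hY0 : ∀ u, dt (h w) u = m → Y.coeff u = 0 := by
        intro u hu
        have h1 : Supp S' (x - Y) := by
          have : x - Y = ∑ k, Dop p a c (ev k) (z k - t k) := by
            rw [hxz]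
            simp only [Dop_sub, sum_sub_distrib, Y]
          rw [this]
          exact Supp.sum _ fun k _ => (hzt k).Dop p a c (ev k) hcl'
        have h2 : (x - Y).coeff u = 0 := by
          by_contra h3
          have := (h1 u h3).2
          omega
        have h3 : x.coeff u = 0 := by
          by_contra h4
          have := hx u h4 w
          omega
        rw [coeff_sub', h3, zero_sub, neg_eq_zero] at h2
        exact h2
      have hYS : Supp S Y := Supp.sum _ fun k _ => (htS k).Dop p a c (ev k) hcl
      refine ih (fun j => z j - (pv p (h w) + (m : K))⁻¹ •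
        (Dop p a c (h w) (t j) - ((h w j : ℤ) : K) • Y)) ?_ ?_
      · intro j
        have hsup : Supp S (z j - (pv p (h w) + (m : K))⁻¹ •
            (Dop p a c (h w) (t j) - ((h w j : ℤ) : K) • Y)) :=
          (hz j).sub ((((htS j).Dop p a c (h w) hcl).sub (hYS.smul _)).smul _)
        intro u hu
        obtain ⟨h1, h2⟩ := hsup u hu
        refine ⟨h1, ?_⟩
        by_contra h3
        have h4 : dt (h w) u = m := by
          rw [hm] at h2 ⊢
          push_cast at h2 ⊢
          push_cast at h3
          omega
        apply hu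
        have h5 : ∑ i, c i * (dt (h w) (a i) : K) * (t j).coeff (u - a i) = 0 := by
          refine Finset.sum_eq_zero fun i _ => ?_
          by_cases h6 : dt (h w) (a i) = 0
          · rw [h6, Int.cast_zero, mul_zero, zero_mul]
          · have h7 : dt (h w) (u - a i) ≠ m := by
              rw [dt_sub]
              omega
            rw [ht, if_neg h7, zero_mul, mul_zero]
        rw [coeff_sub', coeff_smul', coeff_sub', coeff_smul', Dop_coeff, h5, hY0 u h4, ht,
          if_pos h4, h4, one_mul, mul_zero, sub_zero, sub_zero, ← mul_assoc, inv_mul_cancel₀ hρ,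
          one_mul, sub_self]
      · have e1 : ∑ j, Dop p a c (ev j) (Dop p a c (h w) (t j)) = Dop p a c (h w) Y := by
          simp only [Y, Dop_sum]
          exact Finset.sum_congr rfl fun j _ => Dop_comm p a c _ _ _
        have e2 : ∑ j, ((h w j : ℤ) : K) • Dop p a c (ev j) Y = Dop p a c (h w) Y :=
          (Dop_left p a c (h w) Y).symm
        simp only [Dop_sub, Dop_smul, sum_sub_distrib, ← smul_sum]
        rw [e1, e2, sub_self, smul_zero, sub_zero, ← hxz]
  have main : ∀ V : Finset κ, ∃ z : Fin d → LP K d,
      (∀ j, Supp {u | ∀ v ∈ V, l v ≤ dt (h v) u} (z j)) ∧ x = ∑ j, Dop p a c (ev j) (z j) := by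
    intro V
    induction V using Finset.induction_on with
    | empty =>
      obtain ⟨z, -, hz⟩ := hex
      exact ⟨z, fun j u _ v hv => absurd hv (Finset.notMem_empty v), hz⟩
    | insert w V hw ih =>
      obtain ⟨z, hz, hxz⟩ := ih
      have hz2 : ∀ j, Supp {u | (∀ v ∈ V, l v ≤ dt (h v) u) ∧
          l w - ((∑ j, ∑ u ∈ (z j).coeff.support, (l w - dt (h w) u).toNat : ℕ) : ℤ) ≤ dt (h w) u}
          (z j) := by
        intro j u hu
        refine ⟨fun v hv => hz j u hu v hv, ?_⟩
        have h1 : (l w - dt (h w) u).toNat ≤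
            ∑ j, ∑ u ∈ (z j).coeff.support, (l w - dt (h w) u).toNat := by
          refine le_trans ?_ (Finset.single_le_sum (f := fun j => ∑ u ∈ (z j).coeff.support,
            (l w - dt (h w) u).toNat) (fun _ _ => Nat.zero_le _) (Finset.mem_univ j))
          exact Finset.single_le_sum (f := fun u => (l w - dt (h w) u).toNat)
            (fun _ _ => Nat.zero_le _) (Finsupp.mem_support_iff.2 hu)
        omega
      obtain ⟨z', hz', hxz'⟩ := step V w _ z hz2 hxz
      refine ⟨z', fun j u hu v hv => ?_, hxz'⟩
      obtain ⟨h1, h2⟩ := hz' j u hu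
      rcases Finset.mem_insert.1 hv with rfl | hv
      · exact h2
      · exact h1 v hv
  obtain ⟨z, hz, hxz⟩ := main Finset.univ
  exact ⟨z, fun j u hu v => hz j u hu v (Finset.mem_univ v), hxz⟩

end Pool.Agent.H56.SMC
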