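import Pool.Agent.H56.SMC.Basic

/-!
# SL: the slice `{h0 = 0}`

Proof.  `single 0 b + x = ∑ D_j z_j`.  Let `z̄_j` be the part of `z_j` with `dt h0 u = 0`, `D^F_j = Dop p a (cF a c h0) (ev j)`, `g_j = gs a (cF a c h0) (ev j)`.  Since the `z_j`
are supported in `dt h0 u ≥ 0` and `dt h0 (a i) ≥ 0`, the part of the equation with `dt h0 u = 0` is `single 0 b = ∑ D^F_j z̄_j`.
Claim: there is such a representation with all `z̄_j` supported in degrees `dt δ u ≤ -1` (and in `S ∩ {dt h0 u = 0}`).  Downward induction on the maximal degree `N ≥ 0` of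
the `z̄_j`: let `t_j` = part of degree `N` of `z̄_j`; the part of degree `N+1 ≥ 1` of the equation: `∑ g_j * t_j = 0`.  By `hK`: `t_j = ∑_k g_k y_jk + h0_j r'`; replace `y_jk` by its part of degree `N-1` and
`r'` by its part of degree `N`.  `z'_j = z̄_j + ∑_k D^F_k y_jk - (h0 j) • r'` is supported in degrees `≤ N-1`, and `∑ D^F_j z'_j = ∑ D^F_j z̄_j`:
`Dop_antisymm`, and `∑_j h0_j D^F_j r' = Dop p a (cF a c h0) h0 r' = (pv p h0 + dt h0 u) r' - gs a (cF a c h0) h0 * r' = 0` because of `hp`,
`dt h0 u = 0` and `cF a c h0 i * dt h0 (a i) = 0`.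
With the `z̄_j` in degrees `≤ -1` the part of degree `0` of the equation is `single 0 b = -∑_j g_j t_j`, `t_j` the part of degree `-1` of `z̄_j`.
-/

set_option autoImplicit false

namespace Pool.Agent.H56.SMC

open Finset AddMonoidAlgebra

/-- SL -/
theorem sl {d : ℕ} {ι : Type} [Fintype ι] (a : ι → Lat d) (c : ι → ℂ) (p : Fin d → ℂ)
    (S : Set (Lat d)) (δ h0 : Lat d) (hδ : ∀ i, dt δ (a i) = 1)
    (hS : ∀ u ∈ S, ∀ i, u + a i ∈ S) (hh0 : ∀ i, 0 ≤ dt h0 (a i)) (hS0 : ∀ u ∈ S, 0 ≤ dt h0 u)
    (hp : pv p h0 = 0) (hK : KExactF a c S h0) (b : ℂ) (x : LP ℂ d)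
    (hx : Supp {u | 0 < dt h0 u} x) (hex : Ex p a c S (single 0 b + x)) :
    ∃ t : Fin d → LP ℂ d, (∀ j, Supp {u | u ∈ S ∧ dt h0 u = 0 ∧ dt δ u = -1} (t j)) ∧
      (single 0 b : LP ℂ d) = ∑ j, gs a (cF a c h0) (ev j) * t j := by
  classical
  set c' : ι → ℂ := cF a c h0 with hc'
  have hc1 : ∀ i, dt h0 (a i) = 0 → c' i = c i := fun i hi => by
    rw [hc']; unfold cF; rw [if_pos hi]
  have hc2 : ∀ i, dt h0 (a i) ≠ 0 → c' i = 0 := fun i hi => by
    rw [hc']; unfold cF; rw [if_neg hi]
  have hc3 : ∀ i, c' i * (dt h0 (a i) : ℂ) = 0 := fun i => by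
    by_cases hi : dt h0 (a i) = 0
    · rw [hi, Int.cast_zero, mul_zero]
    · rw [hc2 i hi, zero_mul]
  set T : Set (Lat d) := S ∩ {u | dt h0 u = 0} with hT
  have hclT : ∀ u ∈ T, ∀ i, c' i ≠ 0 → u + a i ∈ T := by
    rintro u ⟨h1, h2⟩ i hi
    refine ⟨hS u h1 i, ?_⟩
    have h3 : dt h0 (a i) = 0 := by
      by_contra h4
      exact hi (hc2 i h4)
    show dt h0 (u + a i) = 0
    rw [dt_add, h3, add_zero]
    exact h2
  -- restriction to the slice
  obtain ⟨z, hz, hxz⟩ := hex
  let z0 : Fin d → LP ℂ d := fun j => dg (fun u => if dt h0 u = 0 then (1 : ℂ) else 0) (z j)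
  have hz0 : ∀ j u, (z0 j).coeff u = (if dt h0 u = 0 then (1 : ℂ) else 0) * (z j).coeff u :=
    fun j u => dg_coeff _ _ _
  have hz0T : ∀ j, Supp T (z0 j) := by
    intro j u hu
    rw [hz0] at hu
    refine ⟨hz j u (fun h => hu (by rw [h, mul_zero])), ?_⟩
    show dt h0 u = 0
    by_contra h
    exact hu (by rw [if_neg h, zero_mul])
  have heq0 : (single 0 b : LP ℂ d) = ∑ j, Dop p a c' (ev j) (z0 j) := by
    apply lp_ext
    intro u
    rw [coeff_finsum]
    by_cases hu : dt h0 u = 0
    · have h1 : (single 0 b + x : LP ℂ d).coeff u = (single 0 b : LP ℂ d).coeff u := by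
        rw [coeff_add']
        have : x.coeff u = 0 := by
          by_contra h
          have h2 : 0 < dt h0 u := hx u h
          omega
        rw [this, add_zero]
      rw [← h1, hxz, coeff_finsum]
      refine Finset.sum_congr rfl fun j _ => ?_
      rw [Dop_coeff, Dop_coeff, hz0, if_pos hu, one_mul]
      congr 1
      refine Finset.sum_congr rfl fun i _ => ?_
      by_cases hi : dt h0 (a i) = 0
      · have h3 : dt h0 (u - a i) = 0 := by rw [dt_sub, hu, hi, sub_zero]
        rw [hc1 i hi, hz0, if_pos h3, one_mul]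
      · have h3 : (z j).coeff (u - a i) = 0 := by
          by_contra h
          have h4 := hS0 _ (hz j _ h)
          have h5 := hh0 i
          rw [dt_sub] at h4
          omega
        rw [h3, hc2 i hi, mul_zero, zero_mul, zero_mul]
    · have h1 : (single 0 b : LP ℂ d).coeff u = 0 := by
        rw [coeff_single', if_neg]
        rintro rfl
        exact hu (dt_zero h0)
      rw [h1]
      symm
      refine Finset.sum_eq_zero fun j _ => ?_
      rw [Dop_coeff, hz0, if_neg hu, zero_mul, mul_zero, zero_sub, neg_eq_zero]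
      refine Finset.sum_eq_zero fun i _ => ?_
      by_cases hi : dt h0 (a i) = 0
      · have h3 : dt h0 (u - a i) ≠ 0 := by rw [dt_sub, hi, sub_zero]; exact hu
        rw [hz0, if_neg h3, zero_mul, mul_zero]
      · rw [hc2 i hi, zero_mul, zero_mul]
  -- lowering of the degrees
  have key : ∀ (n : ℕ) (z : Fin d → LP ℂ d), (∀ j, Supp {u | u ∈ T ∧ dt δ u < n} (z j)) →
      (single 0 b : LP ℂ d) = ∑ j, Dop p a c' (ev j) (z j) →
      ∃ z' : Fin d → LP ℂ d, (∀ j, Supp {u | u ∈ T ∧ dt δ u < 0} (z' j)) ∧
        (single 0 b : LP ℂ d) = ∑ j, Dop p a c' (ev j) (z' j) := by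
    intro n
    induction n with
    | zero =>
      intro z hz hzz
      exact ⟨z, fun j u hu => ⟨(hz j u hu).1, by simpa using (hz j u hu).2⟩, hzz⟩
    | succ n ih =>
      intro z hz hzz
      set N : ℤ := (n : ℤ) with hN
      have hN0 : 0 ≤ N := Int.natCast_nonneg n
      let t : Fin d → LP ℂ d := fun j => dg (fun u => if dt δ u = N then (1 : ℂ) else 0) (z j)
      have ht : ∀ j u, (t j).coeff u = (if dt δ u = N then (1 : ℂ) else 0) * (z j).coeff u :=
        fun j u => dg_coeff _ _ _
      have htS : ∀ j, Supp T (t j) := fun j => ((hz j).mono fun u hu => hu.1).dg _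
      have htop : ∀ j u, dt δ u = N + 1 → (z j).coeff u = 0 := by
        intro j u hu
        by_contra h1
        have := (hz j u h1).2
        push_cast at this
        omega
      have hgt : ∑ j, gs a c' (ev j) * t j = 0 := by
        apply lp_ext
        intro u
        rw [coeff_finsum, coeff_zero']
        by_cases hu : dt δ u = N + 1
        · have h1 : (∑ j, Dop p a c' (ev j) (z j)).coeff u = 0 := by
            rw [← hzz, coeff_single', if_neg]
            rintro rfl
            rw [dt_zero] at hu
            omega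
          rw [coeff_finsum] at h1
          have h2 : ∀ j, (Dop p a c' (ev j) (z j)).coeff u = -(gs a c' (ev j) * t j).coeff u := by
            intro j
            rw [Dop_coeff, htop j u hu, mul_zero, zero_sub, gs_mul_coeff]
            congr 1
            refine Finset.sum_congr rfl fun i _ => ?_
            have h3 : dt δ (u - a i) = N := by rw [dt_sub, hδ, hu]; ring
            rw [ht, if_pos h3, one_mul]
          simp only [h2, Finset.sum_neg_distrib, neg_eq_zero] at h1
          exact h1
        · refine Finset.sum_eq_zero fun j _ => ?_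
          rw [gs_mul_coeff]
          refine Finset.sum_eq_zero fun i _ => ?_
          have h3 : dt δ (u - a i) ≠ N := by rw [dt_sub, hδ]; omega
          rw [ht, if_neg h3, zero_mul, mul_zero]
      obtain ⟨y0, r0, hy0S, hr0S, hy0a, hy0⟩ := hK t htS hgt
      let y : Fin d → Fin d → LP ℂ d :=
        fun j k => dg (fun u => if dt δ u = N - 1 then (1 : ℂ) else 0) (y0 j k)
      have hy : ∀ j k u, (y j k).coeff u =
          (if dt δ u = N - 1 then (1 : ℂ) else 0) * (y0 j k).coeff u := fun j k u => dg_coeff _ _ _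
      let r : LP ℂ d := dg (fun u => if dt δ u = N then (1 : ℂ) else 0) r0
      have hr : ∀ u, r.coeff u = (if dt δ u = N then (1 : ℂ) else 0) * r0.coeff u :=
        fun u => dg_coeff _ _ _
      have hyS : ∀ j k, Supp T (y j k) := fun j k => (hy0S j k).dg _
      have hrS : Supp T r := hr0S.dg _
      have hya : ∀ j k, y j k = -y k j := by
        intro j k
        apply lp_ext
        intro u
        rw [coeff_neg', hy, hy, hy0a j k, coeff_neg', mul_neg]
      have hyt : ∀ j, t j = ∑ k, gs a c' (ev k) * y j k + (h0 j : ℂ) • r := by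
        intro j
        apply lp_ext
        intro u
        rw [coeff_add', coeff_finsum, coeff_smul']
        by_cases hu : dt δ u = N
        · have h1 : (t j).coeff u =
              (∑ k, gs a c' (ev k) * y0 j k + (h0 j : ℂ) • r0).coeff u := by rw [← hy0 j]
          rw [h1, coeff_add', coeff_finsum, coeff_smul', hr, if_pos hu, one_mul]
          congr 1
          refine Finset.sum_congr rfl fun k _ => ?_
          rw [gs_mul_coeff, gs_mul_coeff]
          refine Finset.sum_congr rfl fun i _ => ?_
          have h3 : dt δ (u - a i) = N - 1 := by rw [dt_sub, hδ, hu]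
          rw [hy, if_pos h3, one_mul]
        · rw [ht, if_neg hu, zero_mul, hr, if_neg hu, zero_mul, mul_zero, add_zero]
          symm
          refine Finset.sum_eq_zero fun k _ => ?_
          rw [gs_mul_coeff]
          refine Finset.sum_eq_zero fun i _ => ?_
          have h3 : dt δ (u - a i) ≠ N - 1 := by rw [dt_sub, hδ]; omega
          rw [hy, if_neg h3, zero_mul, mul_zero]
      have hDr : Dop p a c' h0 r = 0 := by
        apply lp_ext
        intro u
        rw [Dop_coeff, coeff_zero', hp, zero_add]
        have h1 : ∑ i, c' i * (dt h0 (a i) : ℂ) * r.coeff (u - a i) = 0 :=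
          Finset.sum_eq_zero fun i _ => by rw [hc3, zero_mul]
        rw [h1, sub_zero]
        by_cases h2 : r.coeff u = 0
        · rw [h2, mul_zero]
        · have h3 : dt h0 u = 0 := (hrS u h2).2
          rw [h3, Int.cast_zero, zero_mul]
      refine ih (fun j => z j + ∑ k, Dop p a c' (ev k) (y j k) - (h0 j : ℂ) • r) ?_ ?_
      · intro j
        have e1 : z j + ∑ k, Dop p a c' (ev k) (y j k) - (h0 j : ℂ) • r = (z j - t j) +
            ∑ k, dg (fun u => pv p (ev k) + (dt (ev k) u : ℂ)) (y j k) := by
          have e2 : ∀ k, Dop p a c' (ev k) (y j k) =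
              dg (fun u => pv p (ev k) + (dt (ev k) u : ℂ)) (y j k) - gs a c' (ev k) * y j k :=
            fun k => rfl
          simp only [e2, Finset.sum_sub_distrib]
          rw [hyt j]
          abel
        rw [e1]
        refine Supp.add ?_ (Supp.sum _ fun k _ => Supp.dg _ ?_)
        · intro u hu
          rw [coeff_sub', ht] at hu
          have h1 : (z j).coeff u ≠ 0 := by
            intro h; apply hu; rw [h, mul_zero, sub_zero]
          obtain ⟨h2, h3⟩ := hz j u h1
          refine ⟨h2, ?_⟩
          by_contra h4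
          have h5 : dt δ u = N := by
            push_cast at h3
            omega
          apply hu
          rw [if_pos h5, one_mul, sub_self]
        · intro u hu
          refine ⟨hyS j k u hu, ?_⟩
          rw [hy] at hu
          have h1 : dt δ u = N - 1 := by
            by_contra h
            apply hu
            rw [if_neg h, zero_mul]
          omega
      · have e3 : ∑ j, Dop p a c' (ev j) (∑ k, Dop p a c' (ev k) (y j k)) = 0 :=
          Dop_antisymm p a c' lp_eq_neg_self y hya
        have e4 : ∑ j, (h0 j : ℂ) • Dop p a c' (ev j) r = 0 := by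
          rw [← Dop_left, hDr]
        simp only [Dop_sub, Dop_add, Finset.sum_sub_distrib, Finset.sum_add_distrib, Dop_smul]
        simp only [Dop_sum] at e3
        simp only [Dop_sum]
        rw [e3, e4, ← hzz, add_zero, sub_zero]
  obtain ⟨z', hz', hzz'⟩ := key (∑ j, ∑ u ∈ (z0 j).coeff.support, (dt δ u + 1).toNat) z0
    (fun j u hu => by
      refine ⟨hz0T j u hu, ?_⟩
      have h1 : (dt δ u + 1).toNat ≤
          ∑ j, ∑ u ∈ (z0 j).coeff.support, (dt δ u + 1).toNat := by
        refine le_trans ?_ (Finset.single_le_sum (f := fun j => ∑ u ∈ (z0 j).coeff.support,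
          (dt δ u + 1).toNat) (fun _ _ => Nat.zero_le _) (Finset.mem_univ j))
        exact Finset.single_le_sum (f := fun u => (dt δ u + 1).toNat)
          (fun _ _ => Nat.zero_le _) (Finsupp.mem_support_iff.2 hu)
      omega) heq0
  -- the part of degree `-1`
  let t : Fin d → LP ℂ d := fun j => dg (fun u => if dt δ u = -1 then (-1 : ℂ) else 0) (z' j)
  have ht : ∀ j u, (t j).coeff u = (if dt δ u = -1 then (-1 : ℂ) else 0) * (z' j).coeff u :=
    fun j u => dg_coeff _ _ _
  refine ⟨t, fun j u hu => ?_, ?_⟩
  · rw [ht] at hu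
    have h1 := hz' j u (fun h => hu (by rw [h, mul_zero]))
    refine ⟨h1.1.1, h1.1.2, ?_⟩
    by_contra h
    exact hu (by rw [if_neg h, zero_mul])
  · apply lp_ext
    intro u
    rw [coeff_finsum]
    by_cases hu : dt δ u = 0
    · rw [hzz', coeff_finsum]
      refine Finset.sum_congr rfl fun j _ => ?_
      have h1 : (z' j).coeff u = 0 := by
        by_contra h
        have h2 : dt δ u < 0 := (hz' j u h).2
        omega
      rw [Dop_coeff, h1, mul_zero, zero_sub, gs_mul_coeff, ← Finset.sum_neg_distrib]
      refine Finset.sum_congr rfl fun i _ => ?_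
      have h3 : dt δ (u - a i) = -1 := by rw [dt_sub, hδ, hu]; ring
      rw [ht, if_pos h3]
      ring
    · have h1 : (single 0 b : LP ℂ d).coeff u = 0 := by
        rw [coeff_single', if_neg]
        rintro rfl
        exact hu (dt_zero δ)
      rw [h1]
      symm
      refine Finset.sum_eq_zero fun j _ => ?_
      rw [gs_mul_coeff]
      refine Finset.sum_eq_zero fun i _ => ?_
      have h3 : dt δ (u - a i) ≠ -1 := by rw [dt_sub, hδ]; omega
      rw [ht, if_neg h3, zero_mul, mul_zero]

end Pool.Agent.H56.SMC
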