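import Pool.Agent.H56.SMC.TF
import Pool.Agent.H56.SMC.RK
import Pool.Agent.H56.SMC.RA
import Pool.Agent.H56.SMC.SL

/-!
# CORE: the main algebraic argument

Proof.  `ra` over `PA`: `x'` supported in `Sc h l ∩ {0 < dt h0 u}` with `Ex univ (x - x')`; hence over `KA`:
`Ex univ (lmap jK (single 0 b - x'))` (`Ex.lmap`, `Ex.add`), and this element is supported in `Sc h l` (`0 ∈ Sc h l` by `hl0`).  `rk` over `KA`
(with `jK`; `pv` is compatible with `jK`, `jK` is injective): exact with supports in `Sc h l`.  Clear denominators: every element of `KA` is `jK u / jK (X^N)`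
(a nonzero power series is `X^N` times a unit), finitely many coefficients, so `Ex (Sc h l) (X^N • (single 0 b - x'))` over `PA` for some `N`
(injectivity of `jK` on coefficients).  `tf` `N` times: `Ex (Sc h l) (single 0 b - x')` over `PA`.  Reduce modulo `X`
(`Ex.lmap PowerSeries.constantCoeff`) and apply `sl` (with `-x̄'`).
-/

set_option autoImplicit false

namespace Pool.Agent.H56.SMC

open Finset AddMonoidAlgebra

theorem core_pv {R R' : Type} [CommRing R] [CommRing R'] {d : ℕ} (f : R →+* R') (p : Fin d → R)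
    (h : Lat d) (m : ℤ) : pv (fun j => f (p j)) h + (m : R') = f (pv p h + (m : R)) := by
  simp only [pv, map_add, map_sum, map_mul, map_intCast]

theorem core_jK_inj : Function.Injective jK := IsFractionRing.injective PA KA

theorem core_lmap_inj {d : ℕ} {x y : LP PA d} (h : lmap jK x = lmap jK y) : x = y := by
  apply lp_ext; intro u
  apply core_jK_inj
  rw [← lmap_coeff, ← lmap_coeff, h]

/-- Clearing denominators. -/
theorem core_clear {d : ℕ} {ι : Type} [Fintype ι] (a : ι → Lat d) (c : ι → PA) (p : Fin d → PA)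
    (S : Set (Lat d)) (y : LP PA d)
    (h : Ex (fun j => jK (p j)) a (fun i => jK (c i)) S (lmap jK y)) :
    ∃ N : ℕ, Ex p a c S ((PowerSeries.X : PA) ^ N • y) := by
  classical
  obtain ⟨z, hz, hzy⟩ := h
  obtain ⟨b, hb⟩ := IsLocalization.exist_integer_multiples (nonZeroDivisors PA)
    (univ.sigma (fun j : Fin d => (z j).coeff.support)) (fun q => (z q.1).coeff q.2)
  have hb' : ∀ j u, ∃ t : PA, jK t = jK (b : PA) * (z j).coeff u := by
    intro j u
    by_cases hu : (z j).coeff u = 0
    · exact ⟨0, by rw [hu, mul_zero, map_zero]⟩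
    · obtain ⟨t, ht⟩ := hb ⟨j, u⟩ (by simp [hu])
      refine ⟨t, ?_⟩
      change algebraMap PA KA t = _
      rw [ht, Algebra.smul_def]
      rfl
  choose t ht using hb'
  have ht0 : ∀ j u, (z j).coeff u = 0 → t j u = 0 := by
    intro j u hu
    apply core_jK_inj
    rw [ht, hu, mul_zero, map_zero]
  let z' : Fin d → LP PA d := fun j => ofCoeff (Finsupp.onFinset (z j).coeff.support (t j)
    (fun u hu => by
      rw [Finsupp.mem_support_iff]
      intro h0
      exact hu (ht0 j u h0)))
  have hz' : ∀ j, lmap jK (z' j) = jK (b : PA) • z j := by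
    intro j
    apply lp_ext; intro u
    rw [lmap_coeff, coeff_smul']
    exact ht j u
  have hEx : Ex p a c S ((b : PA) • y) := by
    refine ⟨z', fun j u hu => hz j u (fun h0 => hu (ht0 j u h0)), ?_⟩
    apply core_lmap_inj
    rw [lmap_smul, hzy, lmap_sum, smul_sum]
    refine sum_congr rfl fun j _ => ?_
    rw [lmap_Dop, hz', Dop_smul]
  have hb0 : (b : PA) ≠ 0 := nonZeroDivisors.coe_ne_zero b
  refine ⟨(b : PA).order.toNat, ?_⟩
  obtain ⟨v, hv⟩ : ∃ v : PA, v * (b : PA) = (PowerSeries.X : PA) ^ (b : PA).order.toNat := by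
    refine ⟨PowerSeries.Inv_divided_by_X_pow_order hb0, ?_⟩
    have h1 := PowerSeries.X_pow_order_mul_divXPowOrder (f := (b : PA))
    have h2 := PowerSeries.Inv_divided_by_X_pow_order_leftInv hb0
    calc PowerSeries.Inv_divided_by_X_pow_order hb0 * (b : PA)
        = PowerSeries.Inv_divided_by_X_pow_order hb0 * ((PowerSeries.X : PA) ^
          (b : PA).order.toNat * PowerSeries.divXPowOrder (b : PA)) := by rw [h1]
      _ = (PowerSeries.X : PA) ^ (b : PA).order.toNat *
          (PowerSeries.Inv_divided_by_X_pow_order hb0 * PowerSeries.divXPowOrder (b : PA)) := by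
            ring
      _ = (PowerSeries.X : PA) ^ (b : PA).order.toNat := by rw [h2, mul_one]
  have := hEx.smul v
  rwa [smul_smul, hv] at this

theorem core_tf {d : ℕ} {ι : Type} [Fintype ι] (a : ι → Lat d) (c : ι → ℂ) (p : Fin d → PA)
    (S : Set (Lat d)) (δ : Lat d) (hδ : ∀ i, dt δ (a i) = 1) (C : ℤ) (hSδ : ∀ u ∈ S, C ≤ dt δ u)
    (hS : ∀ u ∈ S, ∀ i, u + a i ∈ S) (hK : KExact a c S) (x : LP PA d) (N : ℕ)
    (h : Ex p a (fun i => PowerSeries.C (c i)) S ((PowerSeries.X : PA) ^ N • x)) :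
    Ex p a (fun i => PowerSeries.C (c i)) S x := by
  induction N with
  | zero => rwa [pow_zero, one_smul] at h
  | succ N ih =>
    apply ih
    apply tf a c p S δ hδ C hSδ hS hK
    rwa [smul_smul, ← pow_succ']

/-- CORE -/
theorem core {d : ℕ} {ι κ : Type} [Fintype ι] [Fintype κ] (a : ι → Lat d) (c : ι → ℂ)
    (p : Fin d → PA) (h : κ → Lat d) (l : κ → ℤ) (hl0 : ∀ v, l v ≤ 0) (good : κ → Prop)
    (δ h0 : Lat d)
    (hδ : ∀ i, dt δ (a i) = 1) (C : ℤ) (hSδ : ∀ u ∈ Sc h l, C ≤ dt δ u)
    (hh : ∀ v i, 0 ≤ dt (h v) (a i)) (hh0 : ∀ i, 0 ≤ dt h0 (a i))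
    (hS0 : ∀ u ∈ Sc h l, 0 ≤ dt h0 u)
    (hnr : ∀ v, ∀ m : ℤ, m < l v → pv p (h v) + (m : PA) ≠ 0)
    (hbad : ∀ v, ¬ good v → ∀ m : ℤ, m < l v → IsUnit (pv p (h v) + (m : PA)))
    (hp0 : PowerSeries.constantCoeff (pv p h0) = 0)
    (hK : KExact a c (Sc h l)) (hKF : KExactF a c (Sc h l) h0) (b : PA) (x : LP PA d)
    (hx : Supp {u | (∀ v, good v → l v ≤ dt (h v) u) ∧ 0 < dt h0 u} x)
    (hex : Ex (fun j => jK (p j)) a (fun i => jK (PowerSeries.C (c i))) Set.univ
      (lmap jK (single 0 b - x))) :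
    ∃ t : Fin d → LP ℂ d, (∀ j, Supp {u | u ∈ Sc h l ∧ dt h0 u = 0 ∧ dt δ u = -1} (t j)) ∧
      (single 0 (PowerSeries.constantCoeff b) : LP ℂ d) =
        ∑ j, gs a (cF a c h0) (ev j) * t j := by
  have hS : ∀ u ∈ Sc h l, ∀ i, u + a i ∈ Sc h l := by
    intro u hu i v
    have h1 := hu v
    have h2 := hh v i
    rw [dt_add]
    linarith
  obtain ⟨x', hx', hex'⟩ := ra a (fun i => PowerSeries.C (c i)) p h good hh l hbad h0 hh0 x hx
  have hsum : Ex (fun j => jK (p j)) a (fun i => jK (PowerSeries.C (c i))) Set.univ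
      (lmap jK (single 0 b - x')) := by
    have e : (single 0 b - x' : LP PA d) = (single 0 b - x) + (x - x') := by abel
    rw [e, lmap_add]
    exact hex.add (hex'.lmap jK)
  have hsupp : Supp (Sc h l) (lmap jK (single 0 b - x')) := by
    apply Supp.lmap
    apply Supp.sub
    · apply Supp.single
      intro v
      rw [dt_zero]
      exact hl0 v
    · exact hx'.mono fun u hu => hu.1
  have hK1 := rk a (fun i => jK (PowerSeries.C (c i))) (fun j => jK (p j)) h hh l
    (fun v m hm => by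
      rw [core_pv jK p (h v) m]
      intro h0
      exact hnr v m hm (core_jK_inj (by rw [h0, map_zero])))
    _ hsupp hsum
  obtain ⟨N, hN⟩ := core_clear a (fun i => PowerSeries.C (c i)) p (Sc h l) _ hK1
  have hP := core_tf a c p (Sc h l) δ hδ C hSδ hS hK _ N hN
  have hC := hP.lmap (PowerSeries.constantCoeff (R := ℂ))
  have e1 : (fun i => (PowerSeries.constantCoeff (R := ℂ)) (PowerSeries.C (c i))) = c := by
    funext i; simp
  rw [e1] at hC
  have e2 : lmap (PowerSeries.constantCoeff (R := ℂ)) (single 0 b - x') =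
      single 0 (PowerSeries.constantCoeff b) + -lmap (PowerSeries.constantCoeff (R := ℂ)) x' := by
    rw [lmap_sub, sub_eq_add_neg]
    congr 1
    apply lp_ext; intro u
    rw [lmap_coeff, coeff_single', coeff_single']
    split_ifs
    · rfl
    · exact map_zero _
  rw [e2] at hC
  refine sl a c (fun j => PowerSeries.constantCoeff (p j)) (Sc h l) δ h0 hδ hS hh0 hS0 ?_ hKF
    (PowerSeries.constantCoeff b) _ ?_ hC
  · have := core_pv (PowerSeries.constantCoeff (R := ℂ)) p h0 0
    simp only [Int.cast_zero, add_zero] at this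
    rw [this, hp0]
  · exact Supp.neg (Supp.lmap _ (hx'.mono fun u hu => hu.2))

end Pool.Agent.H56.SMC
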