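import Pool.Agent.H56.SMC.CfgDefs

/-! # Auxiliary lemmas on ranks (helper11) -/

set_option autoImplicit false

namespace Pool.Agent.H56.SMC.H11

open Finset

theorem dt_self {d : ℕ} (x : Lat d) (h : dt x x = 0) : x = 0 := by
  funext j
  have h1 := (sum_eq_zero_iff_of_nonneg (fun j _ => mul_self_nonneg (x j))).1 h j (mem_univ j)
  simpa using h1

theorem gram_det {d : ℕ} {s : Type} [Fintype s] [DecidableEq s] (x : s → Lat d)
    (hx : LinearIndependent ℤ x) :
    (Matrix.of (fun j k => dt (x j) (x k)) : Matrix s s ℤ).det ≠ 0 := by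
  intro h0
  obtain ⟨v, hv, hv0⟩ := Matrix.exists_mulVec_eq_zero_iff.2 h0
  set y : Lat d := ∑ k, v k • x k with hy
  have h1 : ∀ j, dt (x j) y = 0 := by
    intro j
    have := congrFun hv0 j
    simp only [Matrix.mulVec, dotProduct, Pi.zero_apply, Matrix.of_apply] at this
    rw [hy, dt_sum, ← this]
    exact sum_congr rfl fun k _ => by rw [dt_zsmul, mul_comm]
  have h2 : dt y y = 0 := by
    nth_rw 2 [hy]
    rw [dt_sum]
    refine sum_eq_zero fun k _ => ?_
    rw [dt_zsmul, dt_comm, h1, mul_zero]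
  have h3 : y = 0 := dt_self y h2
  exact hv (funext fun k => Fintype.linearIndependent_iff.1 hx v h3 k)

/-- Independence over `ℤ` gives independence over `ℝ`. -/
theorem li_cast {d : ℕ} {s : Type} [Fintype s] (x : s → Lat d) (hx : LinearIndependent ℤ x) :
    LinearIndependent ℝ (fun k j => ((x k j : ℤ) : ℝ) : s → Fin d → ℝ) := by
  classical
  rw [Fintype.linearIndependent_iff]
  intro g hg
  have h1 := gram_det x hx
  set G : Matrix s s ℤ := Matrix.of (fun j k => dt (x j) (x k)) with hG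
  have h2 : (G.map (Int.cast : ℤ → ℝ)).det ≠ 0 := by
    have : (G.map (Int.cast : ℤ → ℝ)).det = ((G.det : ℤ) : ℝ) := by
      have := (Int.castRingHom ℝ).map_det G
      simpa using this.symm
    rw [this]
    exact_mod_cast h1
  have h3 : (G.map (Int.cast : ℤ → ℝ)).mulVec g = 0 := by
    funext j
    simp only [Matrix.mulVec, dotProduct, Matrix.map_apply, Pi.zero_apply, hG, Matrix.of_apply,
      dt]
    have h4 : ∀ i, ∑ k, g k * ((x k i : ℤ) : ℝ) = 0 := by
      intro i
      have := congrFun hg i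
      simpa [Finset.sum_apply] using this
    calc ∑ k, ((∑ i, x j i * x k i : ℤ) : ℝ) * g k
        = ∑ i, ((x j i : ℤ) : ℝ) * ∑ k, g k * ((x k i : ℤ) : ℝ) := by
          push_cast
          simp only [sum_mul, mul_sum]
          rw [sum_comm]
          exact sum_congr rfl fun i _ => sum_congr rfl fun k _ => by ring
      _ = 0 := by simp [h4]
  have h5 := Matrix.eq_zero_of_mulVec_eq_zero h2 h3
  intro k
  exact congrFun h5 k

/-- Forgetting the second coordinate. -/
def fgt (n : ℕ) : Unit ⊕ Fin n → Fin (n + 2) := Sum.elim (fun _ => 0) (fun j => j.succ.succ)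

theorem rank_lower {n : ℕ} (x : Fin (n + 1) → Lat (n + 2)) (hx : LinearIndependent ℤ x)
    (S : Set (Unit ⊕ Fin n → ℝ))
    (hS : ∀ k, (fun y => ((x k (fgt n y) : ℤ) : ℝ)) ∈ Submodule.span ℝ S) :
    n ≤ Module.finrank ℝ (Submodule.span ℝ S) := by
  set xr : Fin (n + 1) → Fin (n + 2) → ℝ := fun k j => ((x k j : ℤ) : ℝ) with hxr
  have h1 : LinearIndependent ℝ xr := li_cast x hx
  set W := Submodule.span ℝ (Set.range xr) with hW
  have h2 : Module.finrank ℝ W = n + 1 := by
    rw [finrank_span_eq_card h1, Fintype.card_fin]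
  set Φ : (Fin (n + 2) → ℝ) →ₗ[ℝ] (Unit ⊕ Fin n → ℝ) := LinearMap.funLeft ℝ ℝ (fgt n) with hΦ
  have h3 := LinearMap.finrank_range_add_finrank_ker (Φ.domRestrict W)
  have h4 : LinearMap.range (Φ.domRestrict W) ≤ Submodule.span ℝ S := by
    rintro _ ⟨⟨w, hw⟩, rfl⟩
    have : W ≤ (Submodule.span ℝ S).comap Φ := by
      rw [hW, Submodule.span_le]
      rintro _ ⟨k, rfl⟩
      exact hS k
    exact this hw
  have h5 : Module.finrank ℝ (LinearMap.ker (Φ.domRestrict W)) ≤ 1 := by
    have hinj : Function.Injective (((LinearMap.proj (R := ℝ) (φ := fun _ : Fin (n + 2) => ℝ)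
        (Fin.succ 0)).comp W.subtype).comp (LinearMap.ker (Φ.domRestrict W)).subtype) := by
      refine (injective_iff_map_eq_zero _).2 ?_
      rintro ⟨⟨w, hw⟩, hw'⟩ hw1
      have h6 : ∀ y, w (fgt n y) = 0 := fun y => congrFun hw' y
      have h7 : w (Fin.succ 0) = 0 := hw1
      have h8 : w = 0 := by
        funext i
        refine Fin.cases ?_ (fun i => Fin.cases ?_ (fun i => ?_) i) i
        · exact h6 (Sum.inl ())
        · exact h7
        · exact h6 (Sum.inr i)
      subst h8
      rfl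
    have := LinearMap.finrank_le_finrank_of_injective hinj
    simpa using this
  have h6 := Submodule.finrank_mono h4
  omega

theorem rank_upper {n : ℕ} (S : Set (Unit ⊕ Fin n → ℝ)) (f : Unit ⊕ Fin n → ℝ) (hf : f ≠ 0)
    (hS : ∀ y ∈ S, ∑ j, f j * y j = 0) : Module.finrank ℝ (Submodule.span ℝ S) ≤ n := by
  have h1 : Submodule.span ℝ S < ⊤ := by
    rw [lt_top_iff_ne_top]
    intro h
    have h2 : f ∈ Submodule.span ℝ S := by rw [h]; trivial
    have h3 : ∀ y ∈ Submodule.span ℝ S, ∑ j, f j * y j = 0 := by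
      intro y hy
      refine Submodule.span_induction (p := fun y _ => ∑ j, f j * y j = 0) (fun y hy => hS y hy)
        (by simp) (fun y z _ _ h1 h2 => ?_) (fun c y _ h1 => ?_) hy
      · simp only [Pi.add_apply, mul_add, sum_add_distrib, h1, h2, add_zero]
      · simp only [Pi.smul_apply, smul_eq_mul]
        rw [show ∑ j, f j * (c * y j) = c * ∑ j, f j * y j by
          rw [mul_sum]; exact sum_congr rfl fun j _ => by ring, h1, mul_zero]
    apply hf
    funext j
    have h4 := (sum_eq_zero_iff_of_nonneg (fun j _ => mul_self_nonneg (f j))).1 (h3 f h2) j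
      (mem_univ j)
    simpa using h4
  have h2 := Submodule.finrank_lt h1.ne
  have h3 : Module.finrank ℝ (Unit ⊕ Fin n → ℝ) = n + 1 := by simp [add_comm]
  omega

theorem wmin_le {n r : ℕ} (a : Fin r → (Fin n →₀ ℕ)) (v : Fin n → ℕ) (i : Fin r) :
    H22.wmin a v ≤ ∑ j, a i j * v j :=
  ciInf_le (OrderBot.bddBelow _) i

theorem exists_wmin {n r : ℕ} (hr : 0 < r) (a : Fin r → (Fin n →₀ ℕ)) (v : Fin n → ℕ) :
    ∃ i, ∑ j, a i j * v j = H22.wmin a v := by
  have : Nonempty (Fin r) := ⟨⟨0, hr⟩⟩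
  exact Nat.sInf_mem (Set.range_nonempty _)

end Pool.Agent.H56.SMC.H11
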