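import Mathlib

/-!
# TRRANK: exactness lifts from a residue field to characteristic `0`

Proof.  Let `M_k`, `M'_k`, `M_ℂ`, `M'_ℂ` be the matrices over `k` and `ℂ`.  Exactness over `k` (with `M'_k M_k = 0`): `rank M_k + rank M'_k = card β`
(rank-nullity: the kernel of `M'_k` is the range of `M_k`; `⊆` from `hex`).  For every matrix over `B`: `rank over k ≤ rank over ℂ`: a nonzero minor over `k` of size the rank is the image of
a minor over `B`, which is then nonzero in `ℂ` (`B ⊆ ℂ`); alternatively: if the rows `i ∈ I` and columns `j ∈ J` form an invertible submatrix over `k` then its determinant over `B` is nonzero.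
So `rank M_ℂ + rank M'_ℂ ≥ card β`, while `range M_ℂ ⊆ ker M'_ℂ`; so they are equal by dimension.
-/

set_option autoImplicit false

namespace Pool.Agent.H56.SMC

open Finset AddMonoidAlgebra Matrix

/-- A nonzero minor of size the rank. -/
theorem trrank_minor {K : Type} [Field K] {β γ : Type} [Fintype β] [Fintype γ]
    (N : Matrix β γ K) (d : ℕ) (hd : N.rank = d) :
    ∃ (I : Fin d → β) (J : Fin d → γ), (N.submatrix I J).det ≠ 0 := by
  subst hd
  have key : ∀ {V : Type} [AddCommGroup V] [Module K V] [Module.Finite K V] (S : Set V) (N : ℕ),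
      Module.finrank K (Submodule.span K S) = N →
      ∃ f : Fin N → V, (∀ i, f i ∈ S) ∧ LinearIndependent K f := by
    intro V _ _ _ S N hN
    subst hN
    obtain ⟨f, hf, -, hl⟩ := Submodule.exists_fun_fin_finrank_span_eq K S
    exact ⟨f, hf, hl⟩
  obtain ⟨f, hf, hl⟩ := key (Set.range N.col) N.rank (N.rank_eq_finrank_span_cols).symm
  choose J hJ using hf
  have h1 : LinearIndependent K ((N.submatrix id J)ᵀ).row := by
    have : ((N.submatrix id J)ᵀ).row = f := by
      funext i
      rw [← hJ i]
      rfl
    rw [this]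
    exact hl
  have h2 : (N.submatrix id J).rank = N.rank := by
    have h3 := LinearIndependent.rank_matrix h1
    rw [Matrix.rank_transpose, Fintype.card_fin] at h3
    exact h3
  obtain ⟨g, hg, hgl⟩ := key (Set.range (N.submatrix id J).row) N.rank (by
    rw [← Matrix.rank_eq_finrank_span_row, h2])
  choose I hI using hg
  refine ⟨I, J, ?_⟩
  have h4 : LinearIndependent K (N.submatrix I J).row := by
    have : (N.submatrix I J).row = g := by
      funext i
      rw [← hI i]
      rfl
    rw [this]
    exact hgl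
  have h5 := Matrix.linearIndependent_rows_iff_isUnit.1 h4
  exact ((Matrix.isUnit_iff_isUnit_det _).1 h5).ne_zero

/-- The rank over the residue field is at most the rank over `ℂ`. -/
theorem trrank_le (B : Subalgebra ℤ ℂ) {k : Type} [Field k] (φ : B →+* k) {β γ : Type}
    [Fintype β] [Fintype γ] (M : Matrix β γ B) :
    (M.map φ).rank ≤ (M.map (fun x : B => (x : ℂ))).rank := by
  obtain ⟨I, J, h⟩ := trrank_minor (M.map φ) _ rfl
  have h1 : (M.submatrix I J).det ≠ 0 := by
    intro h0
    apply h
    have h2 : (M.map φ).submatrix I J = φ.mapMatrix (M.submatrix I J) := rfl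
    rw [h2, ← RingHom.map_det, h0, map_zero]
  have h3 : ((M.map (fun x : B => (x : ℂ))).submatrix I J).det ≠ 0 := by
    have h4 : (M.map (fun x : B => (x : ℂ))).submatrix I J =
        (B.val : B →+* ℂ).mapMatrix (M.submatrix I J) := rfl
    rw [h4, ← RingHom.map_det]
    intro h5
    apply h1
    have h6 : ((M.submatrix I J).det : ℂ) = 0 := h5
    exact_mod_cast h6
  calc (M.map φ).rank = ((M.map (fun x : B => (x : ℂ))).submatrix I J).rank := by
        rw [Matrix.rank_of_det_ne_zero h3, Fintype.card_fin]
    _ ≤ _ := Matrix.rank_submatrix_le _ _ _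

/-- TRRANK -/
theorem trrank (B : Subalgebra ℤ ℂ) {k : Type} [Field k] (φ : B →+* k) {α β γ : Type} [Fintype α]
    [Fintype β] [Fintype γ] [DecidableEq α] [DecidableEq β] [DecidableEq γ]
    (M : Matrix β γ B) (M' : Matrix α β B) (hMM : M' * M = 0)
    (hex : ∀ v : β → k, (M'.map φ).mulVec v = 0 → ∃ w : γ → k, v = (M.map φ).mulVec w)
    (v : β → ℂ) (hv : (M'.map (fun x : B => (x : ℂ))).mulVec v = 0) :
    ∃ w : γ → ℂ, v = (M.map (fun x : B => (x : ℂ))).mulVec w := by
  have hC : (M'.map (fun x : B => (x : ℂ))) * (M.map (fun x : B => (x : ℂ))) = 0 := by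
    have h4 : (M'.map (fun x : B => (x : ℂ))) * (M.map (fun x : B => (x : ℂ))) =
        (M' * M).map (B.val : B →+* ℂ) := by
      rw [Matrix.map_mul]
      rfl
    rw [h4, hMM]
    ext i j
    simp
  have h1 : Fintype.card β ≤ (M.map φ).rank + (M'.map φ).rank := by
    have h2 : LinearMap.ker (M'.map φ).mulVecLin ≤ LinearMap.range (M.map φ).mulVecLin := by
      intro x hx
      obtain ⟨w, hw⟩ := hex x (by simpa using hx)
      exact ⟨w, by simpa using hw.symm⟩
    have h3 := LinearMap.finrank_range_add_finrank_ker (M'.map φ).mulVecLin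
    have h4 := Submodule.finrank_mono h2
    rw [Module.finrank_fintype_fun_eq_card] at h3
    simp only [Matrix.rank]
    omega
  have h2 := trrank_le B φ M
  have h3 := trrank_le B φ M'
  have h4 : LinearMap.range (M.map (fun x : B => (x : ℂ))).mulVecLin ≤
      LinearMap.ker (M'.map (fun x : B => (x : ℂ))).mulVecLin := by
    rintro _ ⟨w, rfl⟩
    simp only [LinearMap.mem_ker, Matrix.mulVecLin_apply]
    rw [Matrix.mulVec_mulVec, hC, Matrix.zero_mulVec]
  have h5 := LinearMap.finrank_range_add_finrank_ker (M'.map (fun x : B => (x : ℂ))).mulVecLin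
  rw [Module.finrank_fintype_fun_eq_card] at h5
  simp only [Matrix.rank] at h1 h2 h3
  have h6 : LinearMap.range (M.map (fun x : B => (x : ℂ))).mulVecLin =
      LinearMap.ker (M'.map (fun x : B => (x : ℂ))).mulVecLin := by
    apply Submodule.eq_of_le_of_finrank_le h4
    omega
  have h7 : v ∈ LinearMap.ker (M'.map (fun x : B => (x : ℂ))).mulVecLin := by
    simpa using hv
  rw [← h6] at h7
  obtain ⟨w, hw⟩ := h7
  exact ⟨w, by simpa using hw.symm⟩

end Pool.Agent.H56.SMC
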