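import Pool.Agent.H56.SMC.Basic

/-!
# SFG: finite generation of the monoid `Sset h` and finiteness of its graded pieces

Proof.  `Φ : Lat d → κ → ℤ`, `Φ u = (dt (h v) u)_v`, is injective on `Sset h`: if `Φ u = Φ u'` then `u - u'` and `u' - u` lie in `Sset h` and
`dt δ` is positive on nonzero elements of `Sset h`, so `u = u'`.  On `Sset h` the values are in `κ → ℕ`.  Dickson's lemma
(`Set.PartiallyWellOrderedOn`, `Pi.isPWO`, `WellQuasiOrdered`): the set of minimal elements (for the order of `κ → ℕ` transported by `Φ`) of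
`Sset h` without `0` is finite; let `G` be this set.  Every `u ∈ Sset h`, `u ≠ 0`, is `≥` some `s ∈ G`, `u - s ∈ Sset h` and `0 ≤ dt δ (u - s) < dt δ u`:
induction on `dt δ u`.  (b) elements with `dt δ u ≤ N` are sums of at most `N` elements of `G`.
-/

set_option autoImplicit false

namespace Pool.Agent.H56.SMC

open Finset AddMonoidAlgebra

/-- SFG -/
theorem sfg {d : ℕ} {κ : Type} [Fintype κ] (h : κ → Lat d) (δ : Lat d)
    (hpos : ∀ u ∈ Sset h, u ≠ 0 → 0 < dt δ u) :
    ∃ G : Finset (Lat d), (∀ s ∈ G, s ∈ Sset h ∧ s ≠ 0) ∧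
      ∀ u ∈ Sset h, ∃ n : Lat d → ℕ, u = ∑ s ∈ G, n s • s := by
  classical
  set ψ : Lat d → κ → ℕ := fun u v => (dt (h v) u).toNat with hψ
  set T : Set (κ → ℕ) := {x | ∃ u ∈ Sset h, u ≠ 0 ∧ ψ u = x} with hT
  set M : Set (κ → ℕ) := {x | Minimal (· ∈ T) x} with hM
  have hMfin : M.Finite := by
    have hpwo : M.IsPWO := Set.isPWO_of_wellQuasiOrderedLE M
    refine IsAntichain.finite_of_partiallyWellOrderedOn ?_ hpwo
    intro x hx y hy hxy hle
    exact hxy (le_antisymm hle (hy.2 hx.1 hle))
  have hch : ∀ x : κ → ℕ, ∃ u : Lat d, x ∈ M → u ∈ Sset h ∧ u ≠ 0 ∧ ψ u = x := by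
    intro x
    by_cases hx : x ∈ M
    · obtain ⟨u, h1, h2, h3⟩ := hx.1
      exact ⟨u, fun _ => ⟨h1, h2, h3⟩⟩
    · exact ⟨0, fun h0 => absurd h0 hx⟩
  choose w hw using hch
  refine ⟨hMfin.toFinset.image w, ?_, ?_⟩
  · intro s hs
    obtain ⟨x, hx, rfl⟩ := Finset.mem_image.1 hs
    have := hw x (hMfin.mem_toFinset.1 hx)
    exact ⟨this.1, this.2.1⟩
  · have key : ∀ (k : ℕ) (u : Lat d), u ∈ Sset h → (dt δ u).toNat = k →
        ∃ n : Lat d → ℕ, u = ∑ s ∈ hMfin.toFinset.image w, n s • s := by
      intro k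
      induction k using Nat.strong_induction_on with
      | _ k ih =>
        intro u hu hk
        by_cases h0 : u = 0
        · exact ⟨0, by simp [h0]⟩
        · -- a minimal element below ψ u
          have huT : ψ u ∈ T := ⟨u, hu, h0, rfl⟩
          have hwf : WellFounded ((· < ·) : (κ → ℕ) → (κ → ℕ) → Prop) :=
            wellFounded_lt
          obtain ⟨x, hxle, hxmin⟩ : ∃ x, x ≤ ψ u ∧ Minimal (· ∈ T) x := by
            obtain ⟨m, hm, hmin⟩ := hwf.has_min {x | x ∈ T ∧ x ≤ ψ u} ⟨ψ u, huT, le_rfl⟩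
            refine ⟨m, hm.2, hm.1, ?_⟩
            intro y hy hym
            by_contra hnot
            exact hmin y ⟨hy, hym.trans hm.2⟩ (lt_of_le_not_ge hym hnot)
          obtain ⟨hs1, hs2, hs3⟩ := hw x hxmin
          have hsub : u - w x ∈ Sset h := by
            intro v
            have h1 : ψ (w x) v ≤ ψ u v := by rw [hs3]; exact hxle v
            have h2 := hs1 v
            have h3 := hu v
            rw [dt_sub]
            simp only [hψ] at h1
            omega
          have hpw := hpos _ hs1 hs2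
          have hnn : 0 ≤ dt δ (u - w x) := by
            by_cases hz : u - w x = 0
            · rw [hz, dt_zero]
            · exact (hpos _ hsub hz).le
          have hpu := hpos _ hu h0
          have hdt := dt_sub δ u (w x)
          obtain ⟨n, hn⟩ := ih (dt δ (u - w x)).toNat (by omega) (u - w x) hsub rfl
          refine ⟨fun s => n s + if s = w x then 1 else 0, ?_⟩
          have hmem : w x ∈ hMfin.toFinset.image w :=
            Finset.mem_image.2 ⟨x, hMfin.mem_toFinset.2 hxmin, rfl⟩
          calc u = (u - w x) + w x := by abel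
            _ = ∑ s ∈ hMfin.toFinset.image w, n s • s + w x := by rw [← hn]
            _ = ∑ s ∈ hMfin.toFinset.image w, n s • s +
                  ∑ s ∈ hMfin.toFinset.image w, (if s = w x then 1 else 0) • s := by
                congr 1
                rw [Finset.sum_eq_single (w x)]
                · simp
                · intro b _ hb
                  simp [hb]
                · intro h'; exact absurd hmem h'
            _ = ∑ s ∈ hMfin.toFinset.image w, (n s + if s = w x then 1 else 0) • s := by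
                rw [← Finset.sum_add_distrib]
                exact Finset.sum_congr rfl fun s _ => by rw [add_smul]
    intro u hu
    exact key _ u hu rfl

/-- SFG, finiteness -/
theorem sfin {d : ℕ} {κ : Type} [Fintype κ] (h : κ → Lat d) (δ : Lat d)
    (hpos : ∀ u ∈ Sset h, u ≠ 0 → 0 < dt δ u) (N : ℤ) :
    {u | u ∈ Sset h ∧ dt δ u ≤ N}.Finite := by
  classical
  obtain ⟨G, hG, hgen⟩ := sfg h δ hpos
  refine Set.Finite.subset (Set.finite_range
    (fun f : G → Fin (N.toNat + 1) => ∑ s : G, (f s : ℕ) • (s : Lat d))) ?_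
  rintro u ⟨hu, huN⟩
  obtain ⟨n, hn⟩ := hgen u hu
  have hdt : dt δ u = ∑ s ∈ G, (n s : ℤ) * dt δ s := by
    have : ∀ (A : Finset (Lat d)), dt δ (∑ s ∈ A, n s • s) = ∑ s ∈ A, (n s : ℤ) * dt δ s := by
      intro A
      induction A using Finset.induction_on with
      | empty => simp [dt_zero]
      | insert a A ha ih => rw [Finset.sum_insert ha, Finset.sum_insert ha, dt_add, ih, dt_nsmul]
    conv_lhs => rw [hn]
    exact this G
  have hle : ∀ s ∈ G, n s ≤ N.toNat := by
    intro s hs
    have h1 : (n s : ℤ) * dt δ s ≤ ∑ s ∈ G, (n s : ℤ) * dt δ s := by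
      refine Finset.single_le_sum (f := fun s => (n s : ℤ) * dt δ s) ?_ hs
      intro t ht
      have := hpos t (hG t ht).1 (hG t ht).2
      positivity
    have h2 := hpos s (hG s hs).1 (hG s hs).2
    have h3 : (n s : ℤ) ≤ (n s : ℤ) * dt δ s := by nlinarith [Int.natCast_nonneg (n s)]
    omega
  refine ⟨fun s => ⟨n s, Nat.lt_succ_of_le (hle s s.2)⟩, ?_⟩
  simp only
  rw [Finset.sum_coe_sort G (fun s => n s • s)]
  exact hn.symm

end Pool.Agent.H56.SMC
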