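import Mathlib

/-!
# TRHOM: a finitely generated subring of `ℂ` maps to a finite field

Proof.  `B = Algebra.adjoin ℤ T` is a finitely generated nontrivial `ℤ`-algebra; take a maximal ideal `m` and `k = B ⧸ m`.  `k` is a field which is a
finitely generated `ℤ`-algebra; `ℤ` is a Jacobson ring, so the kernel of `ℤ → k` is a maximal ideal `(q0)` and `k` is finite over `ℤ/q0`
(`Ideal.comap_isMaximal..`/`RingHom.finite_of_algHom_finiteType_of_isJacobsonRing`/`finite_of_finite_type_of_isJacobsonRing`), hence a finite field of characteristic `q0`.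
(If the Jacobson API for `ℤ` is awkward: if `q0 = 0` then `k` is a finitely generated `ℚ`-algebra, a finite extension of `ℚ`, and some `1/N` has all
generators integral over `ℤ[1/N]`, so `ℤ[1/N]` would be a field.)
-/

set_option autoImplicit false

namespace Pool.Agent.H56.SMC

open Finset AddMonoidAlgebra

theorem trhom_jacobson : IsJacobsonRing ℤ := by
  rw [isJacobsonRing_iff_prime_eq]
  intro P hP
  by_cases h : P = ⊥
  · subst h
    rw [eq_bot_iff]
    intro x hx
    rw [Ideal.mem_jacobson_bot] at hx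
    rw [Ideal.mem_bot]
    rcases Int.isUnit_iff.1 (hx x) with h1 | h1
    · have : x * x = 0 := by linarith
      simpa using this
    · exfalso
      have := mul_self_nonneg x
      linarith
  · have : P.IsMaximal := hP.isMaximal h
    exact Ideal.jacobson_eq_self_of_isMaximal

/-- TRHOM -/
theorem trhom (T : Finset ℂ) :
    ∃ (q0 : ℕ) (_ : Fact q0.Prime) (k : Type) (_ : Field k) (_ : Finite k) (_ : CharP k q0),
      Nonempty ((Algebra.adjoin ℤ (T : Set ℂ)) →+* k) := by
  have hJ := trhom_jacobson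
  have hft : Algebra.FiniteType ℤ (Algebra.adjoin ℤ (T : Set ℂ)) :=
    .adjoin_of_finite T.finite_toSet
  obtain ⟨m, hm⟩ := Ideal.exists_maximal (Algebra.adjoin ℤ (T : Set ℂ))
  let hF : Field (Algebra.adjoin ℤ (T : Set ℂ) ⧸ m) := Ideal.Quotient.field m
  have hft2 : Algebra.FiniteType ℤ (Algebra.adjoin ℤ (T : Set ℂ) ⧸ m) := inferInstance
  have hfin : Module.Finite ℤ (Algebra.adjoin ℤ (T : Set ℂ) ⧸ m) :=
    finite_of_finite_type_of_isJacobsonRing ℤ _
  obtain ⟨q, hq⟩ := CharP.exists (Algebra.adjoin ℤ (T : Set ℂ) ⧸ m)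
  have hq0 : q ≠ 0 := by
    rintro rfl
    have hcz : CharZero (Algebra.adjoin ℤ (T : Set ℂ) ⧸ m) := CharP.charP_to_charZero _
    have hinj : Function.Injective (algebraMap ℤ (Algebra.adjoin ℤ (T : Set ℂ) ⧸ m)) :=
      Int.cast_injective
    have hint : Algebra.IsIntegral ℤ (Algebra.adjoin ℤ (T : Set ℂ) ⧸ m) := inferInstance
    exact Int.not_isField (isField_of_isIntegral_of_isField hinj (Field.toIsField _))
  have hprime : q.Prime := 
    (CharP.char_is_prime_or_zero (Algebra.adjoin ℤ (T : Set ℂ) ⧸ m) q).resolve_right hq0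
  have hfact : Fact q.Prime := ⟨hprime⟩
  let hA : Algebra (ZMod q) (Algebra.adjoin ℤ (T : Set ℂ) ⧸ m) := ZMod.algebra _ q
  have hfin2 : Module.Finite (ZMod q) (Algebra.adjoin ℤ (T : Set ℂ) ⧸ m) :=
    Module.Finite.of_restrictScalars_finite ℤ (ZMod q) _
  have hfin3 : Finite (Algebra.adjoin ℤ (T : Set ℂ) ⧸ m) := Module.finite_of_finite (ZMod q)
  exact ⟨q, hfact, _, hF, hfin3, hq, ⟨Ideal.Quotient.mk m⟩⟩

end Pool.Agent.H56.SMC
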