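import Pool.Agent.H56.SMC.CMP
import Pool.Agent.H56.SMC.TRHOM
import Pool.Agent.H56.SMC.TRRANK

/-!
# CM: the Koszul complex is exact at `H_1` in characteristic `0`

Proof.  WLOG all `x_j` homogeneous of one degree `D` (`dt δ u = D` on the supports): take the parts of each degree (finitely many; the `g_j` are homogeneous of
degree `e`) and add the results.  Let `G` be the generators of `Sset h` (`sfg`), `N_s`, `z^{(s)}` from `hfl` for `s ∈ G`, `T` = all coefficients of the `g_j` and of the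
`z^{(s)}_j`, `B = Algebra.adjoin ℤ T`, `φ : B → k` from `trhom` (`k` finite, hence perfect).  Let `ḡ_j` be the images of the `g_j` over `k` (same supports or smaller).  Over `k` `hfl` holds for
`s ∈ G` (apply `φ` to the coefficients), and for general `u ∈ Sset h`, `u ≠ 0`: `u = ∑ n_s s` with some `n_s > 0`, `x^{N_s u} = x^{N_s s} x^{N_s (u - s)}`.  So `cmp` applies over `k`.
Finite index sets (`sfin`): `β = {(j,u) : u ∈ S, dt δ u = D}`, `α = {u ∈ S : dt δ u = D + e}`, `γ = {(j,k,u) : u ∈ S, dt δ u = D - e}`, `M'` = the matrix of `x ↦ ∑ g_j x_j`,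
`M` = the matrix of `w ↦ (∑_k g_k (w_jk - w_kj))_j`; `M' M = 0`.  `hex` of `trrank`: by `cmp` (take the parts of degree `D - e` of the `y_jk`), with `y_jk = w_jk - w_kj`, `w_jk = y_jk` for `j < k` and `0` otherwise
(here `y_jj = 0` is used).  `trrank` gives `w` over `ℂ`, `y_jk = w_jk - w_kj`.
-/

set_option autoImplicit false

namespace Pool.Agent.H56.SMC

open Finset AddMonoidAlgebra

/-- the lattice points of degree `m` -/
abbrev CmLv {d : ℕ} {κ : Type} (h : κ → Lat d) (δ : Lat d) (m : ℤ) : Type :=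
  {u : Lat d // u ∈ Sset h ∧ dt δ u = m}

section
variable {R : Type} [CommRing R] {d : ℕ} {κ : Type} (h : κ → Lat d) (δ : Lat d)

theorem cm_add_mem {u v : Lat d} (hu : u ∈ Sset h) (hv : v ∈ Sset h) : u + v ∈ Sset h := by
  intro k
  have h1 := hu k
  have h2 := hv k
  rw [dt_add]
  linarith

theorem cm_zero_mem : (0 : Lat d) ∈ Sset h := by
  intro k
  rw [dt_zero]

theorem cm_nsmul_mem {u : Lat d} (hu : u ∈ Sset h) (n : ℕ) : n • u ∈ Sset h := by
  intro k
  have h1 := hu k
  rw [dt_nsmul]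
  positivity

theorem cm_sum_mem (G : Finset (Lat d)) (hG : ∀ s ∈ G, s ∈ Sset h) (n : Lat d → ℕ) :
    ∑ s ∈ G, n s • s ∈ Sset h := by
  classical
  induction G using Finset.induction_on with
  | empty => simpa using cm_zero_mem h
  | insert a s ha ih =>
    rw [sum_insert ha]
    exact cm_add_mem h (cm_nsmul_mem h (hG a (mem_insert_self a s)) _)
      (ih fun i hi => hG i (mem_insert_of_mem hi))

theorem cm_mul_coeff (g x : LP R d) (a : Lat d) :
    (g * x).coeff a = ∑ v ∈ g.coeff.support, g.coeff v * x.coeff (a - v) := by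
  have hg : g = ∑ v ∈ g.coeff.support, single v (g.coeff v) := by
    apply lp_ext
    intro u
    rw [coeff_finsum]
    simp only [coeff_single']
    by_cases hu : u ∈ g.coeff.support
    · rw [sum_eq_single u]
      · rw [if_pos rfl]
      · intro v _ hv
        rw [if_neg (Ne.symm hv)]
      · intro h1
        exact absurd hu h1
    · rw [sum_eq_zero]
      · exact Finsupp.notMem_support_iff.1 hu
      · intro v hv
        rw [if_neg]
        rintro rfl
        exact hu hv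
  conv_lhs => rw [hg]
  rw [sum_mul, coeff_finsum]
  exact sum_congr rfl fun v _ => single_mul_coeff _ _ _ _

variable [∀ m, Fintype (CmLv h δ m)]

/-- the Laurent polynomial with given coefficients in degree `m` -/
noncomputable def cm_lp {m : ℤ} (v : CmLv h δ m → R) : LP R d := ∑ u, single u.1 (v u)

theorem cm_lp_coeff {m : ℤ} (v : CmLv h δ m → R) (u : CmLv h δ m) :
    (cm_lp h δ v).coeff u.1 = v u := by
  unfold cm_lp
  rw [coeff_finsum]
  simp only [coeff_single']
  rw [sum_eq_single u]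
  · rw [if_pos rfl]
  · intro t _ ht
    rw [if_neg]
    intro h1
    exact ht (Subtype.ext h1).symm
  · intro h1
    exact absurd (mem_univ _) h1

theorem cm_lp_coeff_zero {m : ℤ} (v : CmLv h δ m → R) (u : Lat d)
    (hu : ¬ (u ∈ Sset h ∧ dt δ u = m)) : (cm_lp h δ v).coeff u = 0 := by
  unfold cm_lp
  rw [coeff_finsum]
  simp only [coeff_single']
  refine sum_eq_zero fun t _ => ?_
  rw [if_neg]
  rintro rfl
  exact hu t.2

theorem cm_lp_supp {m : ℤ} (v : CmLv h δ m → R) :
    Supp {u | u ∈ Sset h ∧ dt δ u = m} (cm_lp h δ v) := by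
  intro u hu
  by_contra h1
  exact hu (cm_lp_coeff_zero h δ v u h1)

/-- the part of degree `m` -/
noncomputable def cm_part (m : ℤ) (x : LP R d) : LP R d :=
  cm_lp h δ (fun u : CmLv h δ m => x.coeff u.1)

theorem cm_part_coeff (m : ℤ) (x : LP R d) (u : Lat d) (hu : u ∈ Sset h ∧ dt δ u = m) :
    (cm_part h δ m x).coeff u = x.coeff u :=
  cm_lp_coeff h δ (fun u : CmLv h δ m => x.coeff u.1) ⟨u, hu⟩

theorem cm_part_coeff_zero (m : ℤ) (x : LP R d) (u : Lat d)
    (hu : ¬ (u ∈ Sset h ∧ dt δ u = m)) : (cm_part h δ m x).coeff u = 0 :=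
  cm_lp_coeff_zero h δ _ u hu

theorem cm_part_supp (m : ℤ) (x : LP R d) :
    Supp {u | u ∈ Sset h ∧ dt δ u = m} (cm_part h δ m x) := cm_lp_supp h δ _

theorem cm_part_eq (m : ℤ) (x : LP R d) (hx : Supp {u | u ∈ Sset h ∧ dt δ u = m} x) :
    cm_part h δ m x = x := by
  apply lp_ext
  intro u
  by_cases hu : u ∈ Sset h ∧ dt δ u = m
  · exact cm_part_coeff h δ m x u hu
  · rw [cm_part_coeff_zero h δ m x u hu]
    by_contra h1
    exact hu (hx u (Ne.symm h1))

theorem cm_part_lp {m : ℤ} (v : CmLv h δ m → R) (x : LP R d) (hv : ∀ u, v u = x.coeff u.1) :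
    cm_lp h δ v = cm_part h δ m x := by
  unfold cm_part
  congr 1
  funext u
  exact hv u

theorem cm_part_sum {α : Type} (s : Finset α) (m : ℤ) (f : α → LP R d) :
    cm_part h δ m (∑ i ∈ s, f i) = ∑ i ∈ s, cm_part h δ m (f i) := by
  apply lp_ext
  intro u
  rw [coeff_finsum]
  by_cases hu : u ∈ Sset h ∧ dt δ u = m
  · rw [cm_part_coeff h δ m _ u hu, coeff_finsum]
    exact sum_congr rfl fun i _ => (cm_part_coeff h δ m _ u hu).symm
  · rw [cm_part_coeff_zero h δ m _ u hu]
    exact (sum_eq_zero fun i _ => cm_part_coeff_zero h δ m _ u hu).symm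

theorem cm_part_mul (D e D' : ℤ) (hD : D' = D + e) (g x : LP R d)
    (hg : Supp {u | u ∈ Sset h ∧ dt δ u = e} g) (hx : Supp (Sset h) x) :
    g * cm_part h δ D x = cm_part h δ D' (g * x) := by
  subst hD
  apply lp_ext
  intro a
  rw [cm_mul_coeff]
  by_cases ha : a ∈ Sset h ∧ dt δ a = D + e
  · rw [cm_part_coeff h δ _ _ a ha, cm_mul_coeff]
    refine sum_congr rfl fun v hv => ?_
    congr 1
    have hv' := hg v (Finsupp.mem_support_iff.1 hv)
    by_cases hav : a - v ∈ Sset h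
    · rw [cm_part_coeff]
      refine ⟨hav, ?_⟩
      rw [dt_sub, ha.2, hv'.2]
      ring
    · rw [cm_part_coeff_zero h δ _ _ _ (fun h1 => hav h1.1)]
      by_contra h1
      exact hav (hx _ (Ne.symm h1))
  · rw [cm_part_coeff_zero h δ _ _ a ha]
    refine sum_eq_zero fun v hv => ?_
    have hv' := hg v (Finsupp.mem_support_iff.1 hv)
    rw [cm_part_coeff_zero, mul_zero]
    intro h1
    apply ha
    have h2 : a = (a - v) + v := by abel
    constructor
    · rw [h2]
      exact cm_add_mem h h1.1 hv'.1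
    · rw [h2, dt_add, h1.2, hv'.2]

theorem cm_mul_supp (D e D' : ℤ) (hD : D' = D + e) (g x : LP R d)
    (hg : Supp {u | u ∈ Sset h ∧ dt δ u = e} g) (hx : Supp {u | u ∈ Sset h ∧ dt δ u = D} x) :
    Supp {u | u ∈ Sset h ∧ dt δ u = D'} (g * x) := by
  have h1 := cm_part_mul h δ D e D' hD g x hg (hx.mono fun u hu => hu.1)
  rw [cm_part_eq h δ D x hx] at h1
  rw [h1]
  exact cm_part_supp h δ _ _

theorem cm_mul_lp {m : ℤ} (g : LP R d) (v : CmLv h δ m → R) (a : Lat d) :
    (g * cm_lp h δ v).coeff a = ∑ u, g.coeff (a - u.1) * v u := by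
  unfold cm_lp
  rw [mul_sum, coeff_finsum]
  refine sum_congr rfl fun u _ => ?_
  rw [mul_comm, single_mul_coeff, mul_comm]

variable {r : ℕ}

/-- matrix of `x ↦ ∑ g_j x_j` from degree `D` to degree `D + e` -/
def cm_Mp (g : Fin r → LP R d) (D e : ℤ) :
    Matrix (CmLv h δ (D + e)) (Fin r × CmLv h δ D) R :=
  Matrix.of fun a p => (g p.1).coeff (a.1 - p.2.1)

/-- matrix of `w ↦ (∑_k g_k (w_jk - w_kj))_j` from degree `D - e` to degree `D` -/
def cm_Mm (g : Fin r → LP R d) (D e : ℤ) :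
    Matrix (Fin r × CmLv h δ D) (Fin r × Fin r × CmLv h δ (D - e)) R :=
  Matrix.of fun p q => (if p.1 = q.1 then (g q.2.1).coeff (p.2.1 - q.2.2.1) else 0) -
    (if p.1 = q.2.1 then (g q.1).coeff (p.2.1 - q.2.2.1) else 0)

theorem cm_Mp_mulVec (g : Fin r → LP R d) (D e : ℤ) (v : Fin r × CmLv h δ D → R)
    (a : CmLv h δ (D + e)) :
    (cm_Mp h δ g D e).mulVec v a =
      (∑ j, g j * cm_lp h δ (fun u => v (j, u))).coeff a.1 := by
  rw [coeff_finsum]
  simp only [cm_mul_lp]
  unfold Matrix.mulVec dotProduct cm_Mp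
  rw [Fintype.sum_prod_type]
  rfl

theorem cm_Mm_mulVec (g : Fin r → LP R d) (D e : ℤ)
    (w : Fin r × Fin r × CmLv h δ (D - e) → R) (j : Fin r) (u : CmLv h δ D) :
    (cm_Mm h δ g D e).mulVec w (j, u) =
      (∑ k, g k * (cm_lp h δ (fun t => w (j, k, t)) - cm_lp h δ (fun t => w (k, j, t)))).coeff
        u.1 := by
  have h1 : (∑ k, g k * (cm_lp h δ (fun t => w (j, k, t)) -
      cm_lp h δ (fun t => w (k, j, t)))).coeff u.1 =
      ∑ k, ∑ t : CmLv h δ (D - e), (g k).coeff (u.1 - t.1) * w (j, k, t) -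
      ∑ k, ∑ t : CmLv h δ (D - e), (g k).coeff (u.1 - t.1) * w (k, j, t) := by
    rw [coeff_finsum, ← sum_sub_distrib]
    refine sum_congr rfl fun k _ => ?_
    rw [mul_sub, coeff_sub', cm_mul_lp, cm_mul_lp]
  rw [h1]
  unfold Matrix.mulVec dotProduct cm_Mm
  simp only [Matrix.of_apply, sub_mul, sum_sub_distrib, Fintype.sum_prod_type]
  congr 1
  · rw [sum_eq_single j]
    · simp only [if_pos]
    · intro b _ hb
      refine sum_eq_zero fun k _ => sum_eq_zero fun t _ => ?_
      rw [if_neg (Ne.symm hb), zero_mul]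
    · intro h2
      exact absurd (mem_univ _) h2
  · refine sum_congr rfl fun k _ => ?_
    rw [sum_eq_single j]
    · simp only [if_pos]
    · intro b _ hb
      refine sum_eq_zero fun t _ => ?_
      rw [if_neg (Ne.symm hb), zero_mul]
    · intro h2
      exact absurd (mem_univ _) h2

theorem cm_antisym_sum (g : Fin r → LP R d) (W : Fin r → Fin r → LP R d) :
    ∑ j, g j * ∑ k, g k * (W j k - W k j) = 0 := by
  have h1 : ∀ j, g j * ∑ k, g k * (W j k - W k j) =
      ∑ k, g j * g k * W j k - ∑ k, g j * g k * W k j := by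
    intro j
    rw [mul_sum, ← sum_sub_distrib]
    exact sum_congr rfl fun k _ => by ring
  simp only [h1, sum_sub_distrib]
  rw [sub_eq_zero, sum_comm]
  exact sum_congr rfl fun j _ => sum_congr rfl fun k _ => by ring

theorem cm_MM [DecidableEq (CmLv h δ 0)] (g : Fin r → LP R d) (D e : ℤ)
    (hg : ∀ j, Supp {u | u ∈ Sset h ∧ dt δ u = e} (g j)) :
    cm_Mp h δ g D e * cm_Mm h δ g D e = 0 := by
  classical
  ext a q
  have h1 : ((cm_Mp h δ g D e * cm_Mm h δ g D e).mulVec (Pi.single q 1)) a = 0 := by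
    rw [← Matrix.mulVec_mulVec, cm_Mp_mulVec]
    have h2 : ∀ j, cm_lp h δ (fun u => (cm_Mm h δ g D e).mulVec (Pi.single q 1) (j, u)) =
        ∑ k, g k * (cm_lp h δ (fun t => (Pi.single q (1 : R) :
          Fin r × Fin r × CmLv h δ (D - e) → R) (j, k, t)) -
          cm_lp h δ (fun t => (Pi.single q (1 : R) :
          Fin r × Fin r × CmLv h δ (D - e) → R) (k, j, t))) := by
      intro j
      rw [cm_part_lp h δ _ _ (fun u => cm_Mm_mulVec h δ g D e _ j u)]
      apply cm_part_eq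
      refine Supp.sum _ fun k _ => ?_
      exact cm_mul_supp h δ (D - e) e D (by ring) _ _ (hg k)
        ((cm_lp_supp h δ _).sub (cm_lp_supp h δ _))
    simp only [h2]
    rw [cm_antisym_sum g (fun j k => cm_lp h δ (fun t => (Pi.single q (1 : R) :
          Fin r × Fin r × CmLv h δ (D - e) → R) (j, k, t)))]
    rfl
  rw [Matrix.mulVec_single_one] at h1
  exact h1

omit [∀ m, Fintype (CmLv h δ m)] in
theorem cm_Mp_map {R' : Type} [CommRing R'] (f : R →+* R') (g : Fin r → LP R d) (D e : ℤ) :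
    (cm_Mp h δ g D e).map f = cm_Mp h δ (fun j => mapRingHom (Lat d) f (g j)) D e := by
  ext a p
  simp [cm_Mp]

omit [∀ m, Fintype (CmLv h δ m)] in
theorem cm_Mm_map {R' : Type} [CommRing R'] (f : R →+* R') (g : Fin r → LP R d) (D e : ℤ) :
    (cm_Mm h δ g D e).map f = cm_Mm h δ (fun j => mapRingHom (Lat d) f (g j)) D e := by
  ext a p
  simp only [cm_Mm, Matrix.map_apply, Matrix.of_apply, map_sub, coeff_mapRingHom, apply_ite f,
    map_zero]

/-- exactness of the Koszul complex gives exactness of the matrices -/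
theorem cm_hex (g : Fin r → LP R d) (D e : ℤ)
    (hg : ∀ j, Supp {u | u ∈ Sset h ∧ dt δ u = e} (g j))
    (hK : ∀ x : Fin r → LP R d, (∀ j, Supp (Sset h) (x j)) → ∑ j, g j * x j = 0 →
      ∃ y : Fin r → Fin r → LP R d, (∀ j k, Supp (Sset h) (y j k)) ∧
        (∀ j k, y j k = -y k j) ∧ (∀ j, y j j = 0) ∧ ∀ j, x j = ∑ k, g k * y j k)
    (v : Fin r × CmLv h δ D → R) (hv : (cm_Mp h δ g D e).mulVec v = 0) :
    ∃ w : Fin r × Fin r × CmLv h δ (D - e) → R, v = (cm_Mm h δ g D e).mulVec w := by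
  classical
  obtain ⟨y, hy1, hy2, hy3, hy4⟩ := hK (fun j => cm_lp h δ (fun u => v (j, u)))
    (fun j => (cm_lp_supp h δ _).mono fun u hu => hu.1) (by
      have h1 : Supp {u | u ∈ Sset h ∧ dt δ u = D + e}
          (∑ j, g j * cm_lp h δ (fun u => v (j, u))) :=
        Supp.sum _ fun j _ => cm_mul_supp h δ D e _ rfl _ _ (hg j) (cm_lp_supp h δ _)
      rw [← cm_part_eq h δ _ _ h1]
      apply lp_ext
      intro a
      by_cases ha : a ∈ Sset h ∧ dt δ a = D + e
      · rw [cm_part_coeff h δ _ _ a ha, ← cm_Mp_mulVec h δ g D e v ⟨a, ha⟩, hv]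
        rfl
      · rw [cm_part_coeff_zero h δ _ _ a ha]
        rfl)
  refine ⟨fun q => if q.1 < q.2.1 then (y q.1 q.2.1).coeff q.2.2.1 else 0, ?_⟩
  have hW : ∀ j k, cm_lp h δ (fun t : CmLv h δ (D - e) =>
      if j < k then (y j k).coeff t.1 else 0) - cm_lp h δ (fun t : CmLv h δ (D - e) =>
      if k < j then (y k j).coeff t.1 else 0) = cm_part h δ (D - e) (y j k) := by
    intro j k
    apply lp_ext
    intro u
    rw [coeff_sub']
    by_cases hu : u ∈ Sset h ∧ dt δ u = D - e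
    · rw [cm_part_coeff h δ _ _ u hu]
      have h1 := cm_lp_coeff h δ (fun t : CmLv h δ (D - e) =>
        if j < k then (y j k).coeff t.1 else 0) ⟨u, hu⟩
      have h2 := cm_lp_coeff h δ (fun t : CmLv h δ (D - e) =>
        if k < j then (y k j).coeff t.1 else 0) ⟨u, hu⟩
      simp only at h1 h2
      rw [h1, h2]
      rcases lt_trichotomy j k with hjk | hjk | hjk
      · rw [if_pos hjk, if_neg (not_lt.2 hjk.le), sub_zero]
      · subst hjk
        rw [if_neg (lt_irrefl _), sub_zero, hy3]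
        rfl
      · rw [if_neg (not_lt.2 hjk.le), if_pos hjk, zero_sub, hy2 j k, coeff_neg']
    · rw [cm_lp_coeff_zero h δ _ u hu, cm_lp_coeff_zero h δ _ u hu,
        cm_part_coeff_zero h δ _ _ u hu, sub_zero]
  funext p
  obtain ⟨j, u⟩ := p
  rw [cm_Mm_mulVec]
  simp only [hW]
  have h3 : ∑ k, g k * cm_part h δ (D - e) (y j k) = cm_lp h δ (fun u => v (j, u)) := by
    have h4 : ∀ k, g k * cm_part h δ (D - e) (y j k) = cm_part h δ D (g k * y j k) :=
      fun k => cm_part_mul h δ (D - e) e D (by ring) _ _ (hg k) (hy1 j k)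
    simp only [h4]
    rw [← cm_part_sum, ← hy4 j]
    exact cm_part_eq h δ _ _ (cm_lp_supp h δ _)
  rw [h3]
  exact (cm_lp_coeff h δ (fun u => v (j, u)) u).symm

end

/-- lifting a Laurent polynomial to a subring -/
theorem cm_lift {d : ℕ} (B : Subalgebra ℤ ℂ) (x : LP ℂ d) (hx : ∀ u, x.coeff u ∈ B) :
    ∃ y : LP B d, mapRingHom (Lat d) (algebraMap B ℂ) y = x := by
  refine ⟨ofCoeff (Finsupp.onFinset x.coeff.support (fun u => (⟨x.coeff u, hx u⟩ : B)) ?_), ?_⟩
  · intro u hu
    rw [Finsupp.mem_support_iff]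
    intro h0
    exact hu (Subtype.ext h0)
  · apply lp_ext
    intro u
    rw [coeff_mapRingHom]
    rfl

theorem cm_inj {d : ℕ} (B : Subalgebra ℤ ℂ) (x y : LP B d)
    (hxy : mapRingHom (Lat d) (algebraMap B ℂ) x = mapRingHom (Lat d) (algebraMap B ℂ) y) :
    x = y := by
  apply lp_ext
  intro u
  have h1 := congrArg (fun t : LP ℂ d => t.coeff u) hxy
  simp only [coeff_mapRingHom] at h1
  exact Subtype.ext h1

theorem cm_supp_map {d : ℕ} {R R' : Type} [CommRing R] [CommRing R'] (f : R →+* R')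
    (S : Set (Lat d)) (x : LP R d) (hx : Supp S x) : Supp S (mapRingHom (Lat d) f x) := by
  intro u hu
  rw [coeff_mapRingHom] at hu
  exact hx u (fun h0 => hu (by rw [h0, map_zero]))

theorem cm_supp_lift {d : ℕ} (B : Subalgebra ℤ ℂ) (S : Set (Lat d)) (x : LP B d)
    (hx : Supp S (mapRingHom (Lat d) (algebraMap B ℂ) x)) : Supp S x := by
  intro u hu
  apply hx u
  rw [coeff_mapRingHom]
  intro h0
  exact hu (Subtype.ext h0)

theorem cm_map_single {d : ℕ} {R R' : Type} [CommRing R] [CommRing R'] (f : R →+* R')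
    (v : Lat d) : mapRingHom (Lat d) f (single v 1) = single v 1 := by
  apply lp_ext
  intro u
  rw [coeff_mapRingHom, coeff_single', coeff_single', apply_ite f, map_one, map_zero]

/-- from generators to all points -/
theorem cm_gen {d : ℕ} {κ : Type} (h : κ → Lat d) {R : Type} [CommRing R] {r : ℕ}
    (g : Fin r → LP R d) (G : Finset (Lat d)) (hG : ∀ s ∈ G, s ∈ Sset h)
    (hgen : ∀ u ∈ Sset h, ∃ n : Lat d → ℕ, u = ∑ s ∈ G, n s • s)
    (hfl : ∀ s ∈ G, ∃ (N : ℕ) (z : Fin r → LP R d), (∀ j, Supp (Sset h) (z j)) ∧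
      (single (N • s) 1 : LP R d) = ∑ j, g j * z j)
    (u : Lat d) (hu : u ∈ Sset h) (hu0 : u ≠ 0) :
    ∃ (N : ℕ) (z : Fin r → LP R d), (∀ j, Supp (Sset h) (z j)) ∧
      (single (N • u) 1 : LP R d) = ∑ j, g j * z j := by
  classical
  obtain ⟨n, hn⟩ := hgen u hu
  obtain ⟨s, hs, hns⟩ : ∃ s ∈ G, n s ≠ 0 := by
    by_contra hcon
    push Not at hcon
    apply hu0
    rw [hn]
    exact sum_eq_zero fun s hs => by rw [hcon s hs, zero_smul]
  have hus : u - s ∈ Sset h := by
    have h1 : u - s = ∑ t ∈ G, (if t = s then n t - 1 else n t) • t := by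
      rw [sub_eq_iff_eq_add, hn, ← add_sum_erase _ _ hs, ← add_sum_erase _ _ hs, if_pos rfl]
      have h2 : ∑ t ∈ G.erase s, (if t = s then n t - 1 else n t) • t =
          ∑ t ∈ G.erase s, n t • t :=
        sum_congr rfl fun t ht => by rw [if_neg (ne_of_mem_erase ht)]
      rw [h2]
      have h3 : n s • s = (n s - 1) • s + s := by
        conv_lhs => rw [show n s = (n s - 1) + 1 by omega]
        rw [add_smul, one_smul]
      rw [h3]
      abel
    rw [h1]
    exact cm_sum_mem h G hG _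
  obtain ⟨N, z, hz1, hz2⟩ := hfl s hs
  refine ⟨N, fun j => z j * single (N • (u - s)) 1, fun j => ?_, ?_⟩
  · intro a ha
    have ha' : (z j).coeff (a - N • (u - s)) ≠ 0 := by
      have h6 : (z j * single (N • (u - s)) 1).coeff a ≠ 0 := ha
      rwa [mul_comm, single_mul_coeff, one_mul] at h6
    have h4 := cm_add_mem h (hz1 j _ ha') (cm_nsmul_mem h hus N)
    rwa [sub_add_cancel] at h4
  · have h5 : (single (N • u) 1 : LP R d) = single (N • s) 1 * single (N • (u - s)) 1 := by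
      rw [AddMonoidAlgebra.single_mul_single, one_mul, ← smul_add]
      congr 2
      abel
    rw [h5, hz2, sum_mul]
    exact sum_congr rfl fun j _ => by rw [mul_assoc]

/-- CM -/
theorem cm {d : ℕ} {κ : Type} [Fintype κ] (h : κ → Lat d) (δ : Lat d)
    (hpos : ∀ u ∈ Sset h, u ≠ 0 → 0 < dt δ u) {r : ℕ} (e : ℤ) (he : 0 < e) (g : Fin r → LP ℂ d)
    (hg : ∀ i, Supp {u | u ∈ Sset h ∧ dt δ u = e} (g i))
    (hfl : ∀ u ∈ Sset h, u ≠ 0 → ∃ (N : ℕ) (z : Fin r → LP ℂ d), (∀ j, Supp (Sset h) (z j)) ∧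
      (single (N • u) 1 : LP ℂ d) = ∑ j, g j * z j)
    (s : Fin r → Lat d) (hs : ∀ i, s i ∈ Sset h) (hind : LinearIndependent ℤ s)
    (x : Fin r → LP ℂ d) (hx : ∀ j, Supp (Sset h) (x j)) (h0 : ∑ j, g j * x j = 0) :
    ∃ y : Fin r → Fin r → LP ℂ d, (∀ j k, Supp (Sset h) (y j k)) ∧ (∀ j k, y j k = -y k j) ∧
      ∀ j, x j = ∑ k, g k * y j k := by
  classical
  -- finiteness of the graded pieces
  have hfin : ∀ m, Finite (CmLv h δ m) := by
    intro m
    refine Set.Finite.to_subtype (s := {u | u ∈ Sset h ∧ dt δ u = m}) ?_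
    exact (sfin h δ hpos m).subset fun u hu => ⟨hu.1, hu.2.le⟩
  let _ : ∀ m, Fintype (CmLv h δ m) := fun m => Fintype.ofFinite _
  -- the generators and the coefficients
  obtain ⟨G, hG1, hG2⟩ := sfg h δ hpos
  have hflG : ∀ t : G, ∃ (N : ℕ) (z : Fin r → LP ℂ d), (∀ j, Supp (Sset h) (z j)) ∧
      (single (N • t.1) 1 : LP ℂ d) = ∑ j, g j * z j :=
    fun t => hfl t.1 (hG1 t.1 t.2).1 (hG1 t.1 t.2).2
  choose N z hz1 hz2 using hflG
  let T : Finset ℂ := (univ.biUnion fun j => (g j).coeff.support.image fun u => (g j).coeff u) ∪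
    (univ.biUnion fun t => univ.biUnion fun j =>
      (z t j).coeff.support.image fun u => (z t j).coeff u)
  obtain ⟨q0, hq0, k, hk, hkf, hkc, ⟨φ⟩⟩ := trhom T
  have hgB : ∀ j u, (g j).coeff u ∈ Algebra.adjoin ℤ (T : Set ℂ) := by
    intro j u
    by_cases hu : (g j).coeff u = 0
    · rw [hu]
      exact zero_mem _
    · apply Algebra.subset_adjoin
      rw [mem_coe, mem_union]
      left
      rw [mem_biUnion]
      exact ⟨j, mem_univ _, mem_image.2 ⟨u, Finsupp.mem_support_iff.2 hu, rfl⟩⟩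
  have hzB : ∀ t j u, (z t j).coeff u ∈ Algebra.adjoin ℤ (T : Set ℂ) := by
    intro t j u
    by_cases hu : (z t j).coeff u = 0
    · rw [hu]
      exact zero_mem _
    · apply Algebra.subset_adjoin
      rw [mem_coe, mem_union]
      right
      rw [mem_biUnion]
      refine ⟨t, mem_univ _, ?_⟩
      rw [mem_biUnion]
      exact ⟨j, mem_univ _, mem_image.2 ⟨u, Finsupp.mem_support_iff.2 hu, rfl⟩⟩
  choose gB hgB' using fun j => cm_lift (Algebra.adjoin ℤ (T : Set ℂ)) (g j) (hgB j)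
  choose zB hzB' using fun t j => cm_lift (Algebra.adjoin ℤ (T : Set ℂ)) (z t j) (hzB t j)
  have hgBs : ∀ j, Supp {u | u ∈ Sset h ∧ dt δ u = e} (gB j) := by
    intro j
    apply cm_supp_lift
    rw [hgB']
    exact hg j
  have hzBs : ∀ t j, Supp (Sset h) (zB t j) := by
    intro t j
    apply cm_supp_lift
    rw [hzB']
    exact hz1 t j
  have hB2 : ∀ t : G, (single (N t • t.1) 1 : LP (Algebra.adjoin ℤ (T : Set ℂ)) d) =
      ∑ j, gB j * zB t j := by
    intro t
    apply cm_inj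
    rw [cm_map_single, map_sum, hz2 t]
    exact sum_congr rfl fun j _ => by rw [map_mul, hgB', hzB']
  -- the Koszul complex over `k`
  have hflk : ∀ t ∈ G, ∃ (N : ℕ) (z : Fin r → LP k d), (∀ j, Supp (Sset h) (z j)) ∧
      (single (N • t) 1 : LP k d) = ∑ j, mapRingHom (Lat d) φ (gB j) * z j := by
    intro t ht
    refine ⟨N ⟨t, ht⟩, fun j => mapRingHom (Lat d) φ (zB ⟨t, ht⟩ j),
      fun j => cm_supp_map φ _ _ (hzBs _ j), ?_⟩
    have h1 := congrArg (mapRingHom (Lat d) φ) (hB2 ⟨t, ht⟩)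
    rw [cm_map_single, map_sum] at h1
    rw [h1]
    exact sum_congr rfl fun j _ => by rw [map_mul]
  have hgk : ∀ j, Supp {u | u ∈ Sset h ∧ dt δ u = e} (mapRingHom (Lat d) φ (gB j)) :=
    fun j => cm_supp_map φ _ _ (hgBs j)
  have hK : ∀ x : Fin r → LP k d, (∀ j, Supp (Sset h) (x j)) →
      ∑ j, mapRingHom (Lat d) φ (gB j) * x j = 0 →
      ∃ y : Fin r → Fin r → LP k d, (∀ j k, Supp (Sset h) (y j k)) ∧
        (∀ j k, y j k = -y k j) ∧ (∀ j, y j j = 0) ∧
        ∀ j, x j = ∑ i, mapRingHom (Lat d) φ (gB i) * y j i := by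
    have : ExpChar k q0 := ExpChar.prime hq0.out
    have : PerfectRing k q0 := inferInstance
    intro x hx h0
    exact cmp q0 h δ hpos e he _ hgk
      (fun u hu hu0 => cm_gen h _ G (fun s hs => (hG1 s hs).1) hG2 hflk u hu hu0)
      s hs hind x hx h0
  -- exactness over `ℂ` in each degree
  have hC : ∀ (D : ℤ) (v : Fin r × CmLv h δ D → ℂ), (cm_Mp h δ g D e).mulVec v = 0 →
      ∃ w : Fin r × Fin r × CmLv h δ (D - e) → ℂ, v = (cm_Mm h δ g D e).mulVec w := by
    intro D v hv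
    have hg' : (fun j => mapRingHom (Lat d) (algebraMap (Algebra.adjoin ℤ (T : Set ℂ)) ℂ) (gB j)) =
        g := funext hgB'
    have h1 := cm_Mp_map h δ (algebraMap (Algebra.adjoin ℤ (T : Set ℂ)) ℂ) gB D e
    have h2 := cm_Mm_map h δ (algebraMap (Algebra.adjoin ℤ (T : Set ℂ)) ℂ) gB D e
    rw [hg'] at h1 h2
    obtain ⟨w, hw⟩ := trrank (Algebra.adjoin ℤ (T : Set ℂ)) φ (cm_Mm h δ gB D e)
      (cm_Mp h δ gB D e) (cm_MM h δ gB D e hgBs) (by
        intro v hv
        rw [cm_Mp_map] at hv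
        rw [cm_Mm_map]
        exact cm_hex h δ _ D e hgk hK v hv) v (by
        rw [← h1] at hv
        exact hv)
    refine ⟨w, ?_⟩
    rw [← h2]
    exact hw
  -- homogeneous parts
  have hD : ∀ D : ℤ, ∃ Y : Fin r → Fin r → LP ℂ d, (∀ j k, Supp (Sset h) (Y j k)) ∧
      (∀ j k, Y j k = -Y k j) ∧ ∀ j, cm_part h δ D (x j) = ∑ k, g k * Y j k := by
    intro D
    obtain ⟨w, hw⟩ := hC D (fun p => (x p.1).coeff p.2.1) (by
      funext a
      rw [cm_Mp_mulVec]
      have h1 : ∀ j, g j * cm_lp h δ (fun u : CmLv h δ D => (x j).coeff u.1) =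
          cm_part h δ (D + e) (g j * x j) :=
        fun j => cm_part_mul h δ D e _ rfl _ _ (hg j) (hx j)
      simp only [h1]
      rw [← cm_part_sum, h0]
      have h2 := cm_part_coeff h δ (D + e) (0 : LP ℂ d) a.1 a.2
      rw [h2]
      rfl)
    refine ⟨fun j k => cm_lp h δ (fun t => w (j, k, t)) - cm_lp h δ (fun t => w (k, j, t)),
      fun j k => ((cm_lp_supp h δ _).sub (cm_lp_supp h δ _)).mono fun u hu => hu.1,
      fun j k => (neg_sub _ _).symm, fun j => ?_⟩
    have h3 : Supp {u | u ∈ Sset h ∧ dt δ u = D} (∑ k, g k *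
        (cm_lp h δ (fun t => w (j, k, t)) - cm_lp h δ (fun t => w (k, j, t)))) :=
      Supp.sum _ fun k _ => cm_mul_supp h δ (D - e) e D (by ring) _ _ (hg k)
        ((cm_lp_supp h δ _).sub (cm_lp_supp h δ _))
    rw [← cm_part_eq h δ _ _ h3]
    unfold cm_part
    congr 1
    funext u
    have h4 := congrFun hw (j, u)
    rw [cm_Mm_mulVec] at h4
    exact h4
  choose Y hY1 hY2 hY3 using hD
  let Ds : Finset ℤ := univ.biUnion fun j => (x j).coeff.support.image fun u => dt δ u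
  refine ⟨fun j k => ∑ D ∈ Ds, Y D j k, fun j k => Supp.sum _ fun D _ => hY1 D j k,
    fun j k => ?_, fun j => ?_⟩
  · rw [← sum_neg_distrib]
    exact sum_congr rfl fun D _ => hY2 D j k
  · have h1 : ∑ k, g k * ∑ D ∈ Ds, Y D j k = ∑ D ∈ Ds, cm_part h δ D (x j) := by
      simp only [mul_sum, hY3]
      rw [sum_comm]
    rw [h1]
    apply lp_ext
    intro u
    rw [coeff_finsum]
    by_cases hu : (x j).coeff u = 0
    · rw [hu]
      refine (sum_eq_zero fun D _ => ?_).symm
      by_cases hu' : u ∈ Sset h ∧ dt δ u = D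
      · rw [cm_part_coeff h δ _ _ u hu', hu]
      · rw [cm_part_coeff_zero h δ _ _ u hu']
    · rw [sum_eq_single (dt δ u)]
      · rw [cm_part_coeff h δ _ _ u ⟨hx j u hu, rfl⟩]
      · intro D _ hD
        rw [cm_part_coeff_zero h δ _ _ u (fun h2 => hD h2.2.symm)]
      · intro h2
        exfalso
        apply h2
        rw [mem_biUnion]
        exact ⟨j, mem_univ _, mem_image.2 ⟨u, Finsupp.mem_support_iff.2 hu, rfl⟩⟩

end Pool.Agent.H56.SMC
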