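import Pool.Agent.H56.SMC.ZNDefs
import Pool.Agent.H37.SM.ZMU
import Pool.Agent.H22.VolAdd

/-!
# ZNL: multiplicities, volumes and ranks of pyramids of height one

Proof.  `mulS_insert`: `latIndex_insert` (`Pool.Agent.H37.SM.ZMU`) for the family indexed by `Option B`, as in `faceVol_insert` of `Pool.Agent.H37.SM.ZTR` (there for `n = 3`).
`faceVol_pyr`: the same proof as `faceVol_insert` of `ZTR`.  `faceRank_pyr`: the coordinate `k` vanishes on the span of the rows of `τ`, and not on the row of `p`.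
`faceRank_single`: the span of one nonzero vector.  `rank_one`: two rows `(1, a_i)`, `(1, a_l)` in a line are equal.  `nvol_single`: the simplices of `𝒯` are subsets of `{q}` with one element, there is exactly one by `cover`; `faceVol a {q} = 1` (`faceVol_pyr`-like argument for the empty set, see `faceVol_pair` in `ZTR`; it is `latIndex` of one primitive vector `(1, a_q)`:
`latIndex_insert` with the functional `y ↦ y_0`).
-/

set_option autoImplicit false

namespace Pool.Agent.H56.SMC

open Finset H60.RegTri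

/-- multiplicity of a cone with one generator at height one over the others -/
theorem mulS_insert {n : ℕ} {R : Finset (Fin n → ℕ)} (B : Finset R) (e : R) (he : e ∉ B)
    (φ : Fin n → ℤ) (hB : ∀ w ∈ B, ∑ j, φ j * ((w.1 j : ℕ) : ℤ) = 0)
    (h1 : ∑ j, φ j * ((e.1 j : ℕ) : ℤ) = 1 ∨ ∑ j, φ j * ((e.1 j : ℕ) : ℤ) = -1) :
    mulS (insert e B) = mulS B := by
  classical
  have _ := he
  set v : Option B → (Fin n → ℤ) := fun o =>
    o.elim (fun j => ((e.1 j : ℕ) : ℤ)) (fun w j => ((w.1.1 j : ℕ) : ℤ)) with hv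
  have h2 : mulS (insert e B) = H22.latIndex v := by
    unfold mulS H22.latIndex
    have h3 : Set.range (fun (w : (insert e B : Finset R)) (j : Fin n) => ((w.1.1 j : ℕ) : ℤ)) =
        Set.range v := by
      ext z
      simp only [Set.mem_range]
      constructor
      · rintro ⟨⟨l, hl⟩, rfl⟩
        rcases Finset.mem_insert.1 hl with rfl | hl'
        · exact ⟨none, rfl⟩
        · exact ⟨some ⟨l, hl'⟩, rfl⟩
      · rintro ⟨o, rfl⟩
        cases o with
        | none => exact ⟨⟨e, Finset.mem_insert_self _ _⟩, rfl⟩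
        | some l => exact ⟨⟨l.1, Finset.mem_insert_of_mem l.2⟩, rfl⟩
    rw [h3]
  rw [h2]
  let Φ : (Fin n → ℤ) →ₗ[ℤ] ℤ := ∑ j, φ j • LinearMap.proj j
  have hΦ : ∀ z, Φ z = ∑ j, φ j * z j := by
    intro z
    simp [Φ, LinearMap.sum_apply]
  exact H37.SM.latIndex_insert v Φ (fun l => by rw [hΦ]; exact hB l.1 l.2) (by rw [hΦ]; exact h1)

theorem faceVol_pyr {n r : ℕ} (a : Fin r → (Fin n →₀ ℕ)) (σ : Finset (Fin r)) (p : Fin r)
    (hp : p ∉ σ) (k : Fin n) (h0 : ∀ i ∈ σ, a i k = 0) (h1 : a p k = 1) :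
    H22.faceVol a (insert p σ) = H22.faceVol a σ := by
  classical
  have _ := hp
  set v : Option σ → (Unit ⊕ Fin n → ℤ) := fun o =>
    o.elim (H22.homRow a p) (fun l => H22.homRow a l) with hv
  have h2 : H22.faceVol a (insert p σ) = H22.latIndex v := by
    unfold H22.faceVol H22.latIndex
    have h3 : Set.range (fun l : (insert p σ : Finset (Fin r)) => H22.homRow a l) =
        Set.range v := by
      ext z
      simp only [Set.mem_range]
      constructor
      · rintro ⟨⟨l, hl⟩, rfl⟩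
        rcases Finset.mem_insert.1 hl with rfl | hl'
        · exact ⟨none, rfl⟩
        · exact ⟨some ⟨l, hl'⟩, rfl⟩
      · rintro ⟨o, rfl⟩
        cases o with
        | none => exact ⟨⟨p, Finset.mem_insert_self _ _⟩, rfl⟩
        | some l => exact ⟨⟨l, Finset.mem_insert_of_mem l.2⟩, rfl⟩
    rw [h3]
  rw [h2]
  let Φ : (Unit ⊕ Fin n → ℤ) →ₗ[ℤ] ℤ := LinearMap.proj (Sum.inr k)
  refine H37.SM.latIndex_insert v Φ ?_ ?_
  · intro l
    simp [Φ, v, H22.homRow, h0 l l.2]
  · left
    simp [Φ, v, H22.homRow, h1]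

theorem faceRank_pyr {n r : ℕ} (a : Fin r → (Fin n →₀ ℕ)) (τ : Finset (Fin r)) (p : Fin r)
    (k : Fin n) (h0 : ∀ i ∈ τ, a i k = 0) (h1 : a p k ≠ 0) :
    H22.faceRank a (insert p τ) = H22.faceRank a τ + 1 := by
  classical
  unfold H22.faceRank
  set S := Submodule.span ℝ (H22.rowR a '' (τ : Set (Fin r))) with hS
  set T := Submodule.span ℝ {H22.rowR a p} with hT
  have e1 : Submodule.span ℝ (H22.rowR a '' ((insert p τ : Finset (Fin r)) : Set (Fin r))) =
      S ⊔ T := by
    rw [Finset.coe_insert, Set.image_insert_eq, Submodule.span_insert, sup_comm]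
  let f : (Unit ⊕ Fin n → ℝ) →ₗ[ℝ] ℝ := LinearMap.proj (Sum.inr k)
  have hfS : ∀ z ∈ S, f z = 0 := by
    intro z hz
    have : S ≤ LinearMap.ker f := by
      apply Submodule.span_le.2
      rintro _ ⟨i, hi, rfl⟩
      have := h0 i hi
      simp [f, H22.rowR, this]
    exact this hz
  have hfp : f (H22.rowR a p) ≠ 0 := by
    simpa [f, H22.rowR] using h1
  have hp0 : H22.rowR a p ≠ 0 := by
    intro h
    rw [h, map_zero] at hfp
    exact hfp rfl
  have hinf : S ⊓ T = ⊥ := by
    rw [eq_bot_iff]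
    rintro z ⟨hz1, hz2⟩
    obtain ⟨c, rfl⟩ := Submodule.mem_span_singleton.1 hz2
    have := hfS _ hz1
    rw [map_smul, smul_eq_mul] at this
    rw [(mul_eq_zero.1 this).resolve_right hfp, zero_smul]
    exact Submodule.zero_mem _
  have h3 := Submodule.finrank_sup_add_finrank_inf_eq S T
  rw [hinf, finrank_bot, add_zero, hT, finrank_span_singleton hp0] at h3
  rw [e1]
  exact h3

theorem ZNL_row_ne {n r : ℕ} (a : Fin r → (Fin n →₀ ℕ)) (p : Fin r) : H22.rowR a p ≠ 0 := by
  intro h
  have := congrFun h (Sum.inl ())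
  simp [H22.rowR] at this

theorem faceRank_single {n r : ℕ} (a : Fin r → (Fin n →₀ ℕ)) (p : Fin r) :
    H22.faceRank a {p} = 1 := by
  unfold H22.faceRank
  rw [Finset.coe_singleton, Set.image_singleton, finrank_span_singleton (ZNL_row_ne a p)]

theorem rank_one {n r : ℕ} (a : Fin r → (Fin n →₀ ℕ)) (ha : Function.Injective a)
    (τ : Finset (Fin r)) (hτ : τ.Nonempty) (h1 : H22.faceRank a τ = 1) : ∃ p, τ = {p} := by
  obtain ⟨p, hp⟩ := hτ
  refine ⟨p, Finset.eq_singleton_iff_unique_mem.2 ⟨hp, fun l hl => ?_⟩⟩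
  unfold H22.faceRank at h1
  have hle : Submodule.span ℝ {H22.rowR a p} ≤
      Submodule.span ℝ (H22.rowR a '' (τ : Set (Fin r))) := by
    apply Submodule.span_mono
    rintro _ rfl
    exact ⟨p, hp, rfl⟩
  have heq := Submodule.eq_of_le_of_finrank_eq hle (by
    rw [finrank_span_singleton (ZNL_row_ne a p), h1])
  have hl2 : H22.rowR a l ∈ Submodule.span ℝ {H22.rowR a p} := by
    rw [heq]
    exact Submodule.subset_span ⟨l, hl, rfl⟩
  obtain ⟨c, hc⟩ := Submodule.mem_span_singleton.1 hl2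
  have hc1 : c = 1 := by
    have := congrFun hc (Sum.inl ())
    simpa [H22.rowR] using this
  rw [hc1, one_smul] at hc
  apply ha
  ext j
  have := congrFun hc (Sum.inr j)
  simp only [H22.rowR, Sum.elim_inr, Nat.cast_inj] at this
  exact this.symm

theorem ZNL_faceVol_single {n r : ℕ} (a : Fin r → (Fin n →₀ ℕ)) (p : Fin r) :
    H22.faceVol a {p} = 1 := by
  classical
  unfold H22.faceVol H22.latIndex
  rw [Nat.card_eq_one_iff_unique]
  refine ⟨⟨?_⟩, ⟨0⟩⟩
  have hr : Set.range (fun i : ({p} : Finset (Fin r)) => H22.homRow a i) = {H22.homRow a p} := by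
    ext z
    simp only [Set.mem_range, Set.mem_singleton_iff]
    constructor
    · rintro ⟨⟨l, hl⟩, rfl⟩
      have h5 := Finset.mem_singleton.1 hl
      subst h5
      rfl
    · rintro rfl
      exact ⟨⟨p, Finset.mem_singleton_self _⟩, rfl⟩
  have key : ∀ q : Submodule.torsion ℤ ((Unit ⊕ Fin n → ℤ) ⧸
      Submodule.span ℤ (Set.range (fun l : ({p} : Finset (Fin r)) => H22.homRow a l))),
      q = 0 := by
    rintro ⟨q, hq⟩
    obtain ⟨z, rfl⟩ := Submodule.mkQ_surjective _ q
    rw [Submodule.mem_torsion_iff] at hq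
    obtain ⟨⟨m, hm⟩, h⟩ := hq
    have hm0 : m ≠ 0 := nonZeroDivisors.ne_zero hm
    have h2 : Submodule.mkQ (Submodule.span ℤ (Set.range
        (fun l : ({p} : Finset (Fin r)) => H22.homRow a l))) (m • z) = 0 := by
      rw [map_smul]; exact h
    rw [Submodule.mkQ_apply, Submodule.Quotient.mk_eq_zero, hr,
      Submodule.mem_span_singleton] at h2
    obtain ⟨c, hc⟩ := h2
    apply Subtype.ext
    change Submodule.mkQ _ z = 0
    rw [Submodule.mkQ_apply, Submodule.Quotient.mk_eq_zero, hr, Submodule.mem_span_singleton]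
    have hc0 : c = m * z (Sum.inl ()) := by
      have := congrFun hc (Sum.inl ())
      simpa [H22.homRow] using this
    refine ⟨z (Sum.inl ()), ?_⟩
    have h3 : m • (z (Sum.inl ()) • H22.homRow a p) = m • z := by
      rw [← hc, hc0, smul_smul]
    exact smul_right_injective _ hm0 h3
  intro q q'
  rw [key q, key q']

theorem nvol_single {n r : ℕ} (a : Fin r → (Fin n →₀ ℕ)) (p : Fin r)
    (𝒯 : H22.FaceTriang a {p}) : H22.nvol 𝒯 = 1 := by
  classical
  have hall : ∀ σ ∈ 𝒯.S, σ = {p} := by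
    intro σ hσ
    apply Finset.eq_of_subset_of_card_le (𝒯.sub σ hσ)
    rw [𝒯.card σ hσ, faceRank_single, Finset.card_singleton]
  obtain ⟨σ, hσ, -⟩ := 𝒯.cover (H22.pointR a p) (subset_convexHull ℝ _ ⟨p, by simp, rfl⟩)
  have hS : 𝒯.S = {{p}} := by
    apply Finset.eq_singleton_iff_unique_mem.2
    exact ⟨hall σ hσ ▸ hσ, hall⟩
  unfold H22.nvol
  rw [hS, Finset.sum_singleton, ZNL_faceVol_single]

end Pool.Agent.H56.SMC
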