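import Pool.Agent.H56.SMC.ZNDefs
import Pool.Agent.H56.SMC.ZTA

/-!
# ZNR: a finite set of facet normals which generates all cones `D_τ`

Proof.  `unit_facet`: the exponents with `a_i k` minimal and the `e_j`, `j ≠ k`: all these vectors lie in the hyperplane `y_k = (wmin) y_0`, and one `(1, a_i)` together with the `n - 1` vectors `(0, e_j)`, `j ≠ k`, is independent: dimension `n`.
`exists_raySet`: for every nonempty `τ` take the family `w` of `zta_gen a τ`; its members are facet normals by `zta_ray` and `zta_facet`.  `R` is the union of the images of these families over all nonempty `τ`, and of the `eN k`.  `gen`: a vector of `D_τ` is a nonnegative combination of the members of the family of `τ`, which are elements of `raysIn a R τ`.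
-/

set_option autoImplicit false

namespace Pool.Agent.H56.SMC

open Finset H60.RegTri

theorem znr_wmin_le {n r : ℕ} (a : Fin r → (Fin n →₀ ℕ)) (v : Fin n → ℕ) (i : Fin r) :
    H22.wmin a v ≤ ∑ j, a i j * v j := ciInf_le (OrderBot.bddBelow _) i

theorem znr_sum_eN {n : ℕ} (b : Fin n →₀ ℕ) (k : Fin n) : ∑ j, b j * eN k j = b k := by
  rw [Finset.sum_eq_single k]
  · simp [eN]
  · intro j _ hj; simp [eN, hj]
  · simp

/-- unit vectors are facet normals -/
theorem unit_facet {n r : ℕ} (a : Fin r → (Fin n →₀ ℕ)) (hr : 0 < r) (k : Fin n) :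
    FacetNormal a (eN k) := by
  classical
  refine ⟨fun h => ?_, ?_⟩
  · have := congrFun h k
    simp [eN] at this
  haveI : Nonempty (Fin r) := ⟨⟨0, hr⟩⟩
  obtain ⟨i0, hi0⟩ : ∃ i, ∑ j, a i j * eN k j = H22.wmin a (eN k) := by
    obtain ⟨i, hi⟩ := ciInf_mem (fun i : Fin r => ∑ j, a i j * eN k j)
    exact ⟨i, hi⟩
  set m : ℕ := H22.wmin a (eN k) with hm
  set G : Set (Unit ⊕ Fin n → ℝ) := {y | ∃ i, ∑ j, a i j * eN k j = m ∧ y = H22.rowR a i} ∪
      {y | ∃ j, eN k j = 0 ∧ y = Sum.elim (fun _ => 0) (Pi.single j 1)} with hG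
  set R := Submodule.span ℝ G with hR
  have h1 := Subspace.finrank_add_finrank_dualAnnihilator_eq R
  have h2 : Module.finrank ℝ (Unit ⊕ Fin n → ℝ) = n + 1 := by
    rw [Module.finrank_fintype_fun_eq_card]
    simp [add_comm]
  let φ : Module.Dual ℝ (Unit ⊕ Fin n → ℝ) :=
    LinearMap.proj (Sum.inr k) - (m : ℝ) • LinearMap.proj (Sum.inl ())
  have hφ : ∀ y, φ y = y (Sum.inr k) - m * y (Sum.inl ()) := fun y => rfl
  have hφ0 : φ ≠ 0 := by
    intro h
    have h3 := hφ (Pi.single (Sum.inr k) 1)
    rw [h] at h3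
    simp at h3
  have hann : R.dualAnnihilator = Submodule.span ℝ {φ} := by
    apply le_antisymm
    · intro f hf
      rw [Submodule.mem_dualAnnihilator] at hf
      rw [Submodule.mem_span_singleton]
      refine ⟨f (Pi.single (Sum.inr k) 1), ?_⟩
      -- value on unit vectors
      have e1 : ∀ j, j ≠ k → f (Pi.single (Sum.inr j) 1) = 0 := by
        intro j hj
        refine hf _ (Submodule.subset_span (Or.inr ⟨j, by simp [eN, hj], ?_⟩))
        funext y
        rcases y with y | y
        · simp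
        · by_cases hy : y = j
          · subst hy; simp
          · simp [hy]
      have e2 : f (H22.rowR a i0) = 0 := hf _ (Submodule.subset_span (Or.inl ⟨i0, hi0, rfl⟩))
      have e3 : ∀ y : Unit ⊕ Fin n → ℝ, y = y (Sum.inl ()) • Pi.single (Sum.inl ()) 1 +
          ∑ j, y (Sum.inr j) • Pi.single (Sum.inr j) (1 : ℝ) := by
        intro y
        funext z
        rcases z with z | z
        · simp [Finset.sum_apply]
        · simp only [Pi.add_apply, Pi.smul_apply, Finset.sum_apply, smul_eq_mul]
          rw [Finset.sum_eq_single z]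
          · simp
          · intro b _ hb
            simp [Ne.symm hb]
          · simp
      have e4 : ∀ y, f y = y (Sum.inl ()) * f (Pi.single (Sum.inl ()) 1) +
          y (Sum.inr k) * f (Pi.single (Sum.inr k) 1) := by
        intro y
        conv_lhs => rw [e3 y]
        rw [map_add, map_smul, map_sum]
        congr 1
        rw [Finset.sum_eq_single k]
        · simp
        · intro b _ hb
          rw [map_smul, e1 b hb, smul_zero]
        · simp
      have e5 := e4 (H22.rowR a i0)
      rw [e2] at e5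
      have e6 : a i0 k = m := by rw [← hi0, znr_sum_eN]
      simp only [H22.rowR, Sum.elim_inl, Sum.elim_inr, one_mul, e6] at e5
      apply LinearMap.ext
      intro y
      rw [LinearMap.smul_apply, hφ, e4 y, smul_eq_mul]
      linear_combination (y (Sum.inl ())) * e5
    · rw [Submodule.span_singleton_le_iff_mem, Submodule.mem_dualAnnihilator]
      intro y hy
      have hle : R ≤ LinearMap.ker φ := by
        rw [hR, Submodule.span_le]
        rintro y (⟨i, hi, rfl⟩ | ⟨j, hj, rfl⟩)
        · rw [SetLike.mem_coe, LinearMap.mem_ker, hφ]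
          rw [znr_sum_eN] at hi
          simp [H22.rowR, hi]
        · rw [SetLike.mem_coe, LinearMap.mem_ker, hφ]
          have : j ≠ k := by
            rintro rfl
            simp [eN] at hj
          simp [Ne.symm this]
      exact LinearMap.mem_ker.1 (hle hy)
  rw [hann, finrank_span_singleton hφ0, h2] at h1
  show Module.finrank ℝ R = n
  omega

/-- the generators of one cone -/
theorem znr_gen {n r : ℕ} (a : Fin r → (Fin n →₀ ℕ)) (τ : Finset (Fin r)) (hτ : τ.Nonempty) :
    ∃ S : Finset (Fin n → ℕ), (∀ w ∈ S, FacetNormal a w) ∧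
      (∀ w ∈ S, H22.toReal w ∈ H22.minCone a τ) ∧
      ∀ k ∈ H22.minCone a τ, ∃ c : (Fin n → ℕ) → ℝ, (∀ w ∈ S, 0 ≤ c w) ∧
        k = ∑ w ∈ S, c w • H22.toReal w := by
  classical
  obtain ⟨J, hJ1, hJ2, w, hwmem, hw0, hwgen, hmin⟩ := zta_gen a τ
  refine ⟨univ.image w, ?_, ?_, ?_⟩
  · intro v hv
    obtain ⟨j, -, rfl⟩ := mem_image.1 hv
    exact zta_facet a τ hτ (w j) (hwmem j) (hw0 j)
      (fun k' h1 h2 => zta_ray a τ w hwmem hwgen hmin j k' h1 h2)
  · intro v hv
    obtain ⟨j, -, rfl⟩ := mem_image.1 hv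
    exact hwmem j
  · intro k hk
    obtain ⟨c, hc, hkc⟩ := hwgen k hk
    refine ⟨fun v => ∑ j with w j = v, c j, fun v _ => sum_nonneg fun j _ => hc j, ?_⟩
    rw [hkc, ← Finset.sum_fiberwise_of_maps_to (s := univ) (t := univ.image w) (g := w)
      (fun j _ => mem_image_of_mem w (mem_univ j))]
    refine sum_congr rfl fun v _ => ?_
    rw [sum_smul]
    refine sum_congr rfl fun j hj => ?_
    rw [(mem_filter.1 hj).2]

/-- ZNR -/
theorem exists_raySet {n r : ℕ} (a : Fin r → (Fin n →₀ ℕ)) (hr : 0 < r) : ∃ R, RaySet a R := by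
  classical
  have hex : ∀ τ : Finset (Fin r), ∃ S : Finset (Fin n → ℕ), (∀ w ∈ S, FacetNormal a w) ∧
      (∀ w ∈ S, H22.toReal w ∈ H22.minCone a τ) ∧ (τ.Nonempty →
      ∀ k ∈ H22.minCone a τ, ∃ c : (Fin n → ℕ) → ℝ, (∀ w ∈ S, 0 ≤ c w) ∧
        k = ∑ w ∈ S, c w • H22.toReal w) := by
    intro τ
    by_cases hτ : τ.Nonempty
    · obtain ⟨S, h1, h2, h3⟩ := znr_gen a τ hτ
      exact ⟨S, h1, h2, fun _ => h3⟩
    · exact ⟨∅, by simp, by simp, fun h => absurd h hτ⟩
  choose S h1 h2 h3 using hex
  refine ⟨univ.biUnion S ∪ univ.image eN, ?_, ?_, ?_⟩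
  · intro k
    exact mem_union_right _ (mem_image_of_mem eN (mem_univ k))
  · intro w hw
    rcases mem_union.1 hw with hw | hw
    · obtain ⟨τ, -, hτ⟩ := mem_biUnion.1 hw
      exact h1 τ w hτ
    · obtain ⟨k, -, rfl⟩ := mem_image.1 hw
      exact unit_facet a hr k
  · intro τ hτ k hk
    obtain ⟨c, hc, hkc⟩ := h3 τ hτ k hk
    set R : Finset (Fin n → ℕ) := univ.biUnion S ∪ univ.image eN with hR
    have hSR : S τ ⊆ R := fun w hw => mem_union_left _ (mem_biUnion.2 ⟨τ, mem_univ _, hw⟩)
    refine ⟨fun w => if w.1 ∈ S τ then c w.1 else 0, fun w _ => ?_, ?_⟩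
    · dsimp only
      split_ifs with h
      · exact hc _ h
      · exact le_rfl
    · have e1 : ∑ w ∈ raysIn a R τ, (if w.1 ∈ S τ then c w.1 else 0) • rv R w =
          ∑ w : R, (if w.1 ∈ S τ then c w.1 else 0) • rv R w := by
        apply sum_subset (subset_univ _)
        intro w _ hw
        rw [mem_raysIn] at hw
        rw [if_neg, zero_smul]
        intro h
        exact hw (h2 τ _ h)
      rw [e1, hkc]
      have e2 : ∑ w : R, (if w.1 ∈ S τ then c w.1 else 0) • rv R w =
          ∑ w ∈ R, (if w ∈ S τ then c w else 0) • H22.toReal w :=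
        Finset.sum_coe_sort R (fun w => (if w ∈ S τ then c w else 0) • H22.toReal w)
      rw [e2]
      symm
      rw [← sum_subset hSR]
      · exact sum_congr rfl fun w hw => by rw [if_pos hw]
      · intro w _ hw
        rw [if_neg hw, zero_smul]

end Pool.Agent.H56.SMC
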