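import Pool.Agent.H56.SMC.CfgDefs
import Pool.Agent.H22.G9

/-!
# ZTB: `J_τ` does not depend on the cone decomposition

Proof.  `JfunG_good` : `JfunG a τ 𝒟` has at real `s > 0` the value `JvalG a τ 𝒟 s` (`GoodR`).  `JvalG_eq`: choose `σ ⊆ τ` with `rowR` independent on `σ` and `|σ| = faceRank a τ` and `D : LatDat a σ` (`exists_latDat`), `flatF a σ = τ` (`flatF_eq_of_card`, `isFace_flat`): the value is
`faceVol a σ * D.Jint s`, the same for `𝒟` and `𝒟'`.  Two rational functions over `ℂ` which agree at infinitely many points (all real `s > 0`, where both are defined) are equal.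
-/

set_option autoImplicit false

namespace Pool.Agent.H56.SMC

open Finset AddMonoidAlgebra

/-- rational functions with the same values on the positive half line are equal -/
private theorem ztb_goodR_unique {Z Z' : RatFunc ℂ} {G : ℝ → ℂ} (h : H22.GoodR Z G)
    (h' : H22.GoodR Z' G) : Z = Z' := by
  obtain ⟨p, q, hq, hZ, hF⟩ := h
  obtain ⟨p', q', hq', hZ', hF'⟩ := h'
  have key : p * q' = p' * q := by
    apply Polynomial.eq_of_infinite_eval_eq
    refine Set.Infinite.mono (s := (fun s : ℝ => (s : ℂ)) '' Set.Ioi (0 : ℝ)) ?_ ?_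
    · rintro _ ⟨s, hs, rfl⟩
      have hs' : 0 < s := hs
      show Polynomial.eval (s : ℂ) (p * q') = Polynomial.eval (s : ℂ) (p' * q)
      have h1 := hF s hs'
      rw [hF' s hs', div_eq_div_iff (hq'.eval_ne hs') (hq.eval_ne hs')] at h1
      rw [Polynomial.eval_mul, Polynomial.eval_mul]
      exact h1.symm
    · refine Set.Infinite.image ?_ (Set.Ioi_infinite 0)
      intro x _ y _ hxy
      have : (x : ℂ) = (y : ℂ) := hxy
      exact_mod_cast this
  rw [hZ, hZ', div_eq_div_iff (H22.algMap_ne hq.1) (H22.algMap_ne hq'.1), ← map_mul, ← map_mul,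
    key]

/-- a basis of the rows of `τ` -/
private theorem ztb_exists_rowBasis {n r : ℕ} (a : Fin r → (Fin n →₀ ℕ)) (τ : Finset (Fin r)) :
    ∃ σ : Finset (Fin r), σ ⊆ τ ∧ LinearIndependent ℝ (fun i : σ => H22.rowR a i) ∧
      σ.card = H22.faceRank a τ := by
  classical
  obtain ⟨b, hb1, -, hb2, hb3⟩ := exists_linearIndepOn_extension (K := ℝ) (v := H22.rowR a)
    (s := (∅ : Set (Fin r))) (t := (τ : Set (Fin r))) (linearIndepOn_empty ℝ _)
    (Set.empty_subset _)
  have hcoe : ((b.toFinset : Finset (Fin r)) : Set (Fin r)) = b := Set.coe_toFinset b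
  have hind : LinearIndependent ℝ (fun i : b.toFinset => H22.rowR a i) := by
    have h1 : LinearIndepOn ℝ (H22.rowR a) ((b.toFinset : Finset (Fin r)) : Set (Fin r)) := by
      rw [hcoe]; exact hb3
    exact h1
  refine ⟨b.toFinset, ?_, hind, ?_⟩
  · intro i hi
    have : i ∈ (τ : Set (Fin r)) := hb1 (Set.mem_toFinset.mp hi)
    exact_mod_cast this
  · rw [← H22.finrank_span_indep hind]
    unfold H22.faceRank
    rw [hcoe]
    have hspan : Submodule.span ℝ (H22.rowR a '' b) =
        Submodule.span ℝ (H22.rowR a '' (τ : Set (Fin r))) := by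
      apply le_antisymm
      · exact Submodule.span_mono (Set.image_mono hb1)
      · rw [Submodule.span_le]; exact hb2
    rw [hspan]

/-- ZTB -/
theorem ztb {n r : ℕ} (a : Fin r → (Fin n →₀ ℕ)) (τ : Finset (Fin r)) (hτ : τ.Nonempty)
    (hF : H22.IsFace a τ) (𝒟 𝒟' : H22.FaceCones a τ) : H22.JfunG a τ 𝒟 = H22.JfunG a τ 𝒟' := by
  obtain ⟨σ, hσ1, hσ2, hσ3⟩ := ztb_exists_rowBasis a τ
  have hflat := H22.flatF_eq_of_card hσ2 hσ1 hσ3 (H22.isFace_flat hτ hF)
  have hσne : σ.Nonempty := by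
    rw [← Finset.card_pos, hσ3]
    exact H22.faceRank_pos hτ
  obtain ⟨D⟩ := H22.exists_latDat (a := a) σ ((H22.rows_indep_iff a σ).mp hσ2)
  refine ztb_goodR_unique (H22.JfunG_good a τ 𝒟) ?_
  refine H22.GoodR.congr (H22.JfunG_good a τ 𝒟') ?_
  intro s hs
  rw [H22.JvalG_eq D hσne hσ2 hflat 𝒟 hs, H22.JvalG_eq D hσne hσ2 hflat 𝒟' hs]

end Pool.Agent.H56.SMC
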