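import Pool.Agent.H56.SMC.ZTA
import Pool.Agent.H56.SMC.ZTB

/-!
# ZTC: the candidate poles

Proof.  `τ` with `IsFace a τ` and `faceRank ≥ 1` is nonempty.  By `ztb` replace `𝒟 τ` by the decomposition of `zta`.  Then `topZetaG = p / ((X+1) ∏ (|w| + N(w) X))`, the product over finitely many facet normals `w`: a root `s0` of the denominator is a root of
`(X+1) ∏ (|w| + N(w) X)`: `s0 = -1`, or `|w| + N(w) s0 = 0` for a facet normal `w`; since `|w| > 0` (`w ≠ 0`) we get `N(w) ≠ 0`.  (`RatFunc`: the set of all rational functions whose denominator divides a product of such factors is closed under sums and products; `RatFunc.denom_dvd`.)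
-/

set_option autoImplicit false

namespace Pool.Agent.H56.SMC

open Finset AddMonoidAlgebra

/-- no pole at `s0` -/
private def ztcReg (s0 : ℂ) (R : RatFunc ℂ) : Prop := ∃ p q : Polynomial ℂ, q.eval s0 ≠ 0 ∧
    R = algebraMap (Polynomial ℂ) (RatFunc ℂ) p / algebraMap (Polynomial ℂ) (RatFunc ℂ) q

section
variable {s0 : ℂ}

private theorem ztc_denom {R : RatFunc ℂ} (h : ztcReg s0 R) : R.denom.eval s0 ≠ 0 := by
  obtain ⟨p, q, hq, rfl⟩ := h
  intro h0
  obtain ⟨c, hc⟩ := RatFunc.denom_div_dvd p q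
  apply hq
  rw [hc, Polynomial.eval_mul, h0, zero_mul]

private theorem ztc_ne {q : Polynomial ℂ} (hq : q.eval s0 ≠ 0) :
    algebraMap (Polynomial ℂ) (RatFunc ℂ) q ≠ 0 := by
  intro h
  have h1 : q = 0 := RatFunc.algebraMap_injective ℂ (by rw [h, map_zero])
  rw [h1, Polynomial.eval_zero] at hq
  exact hq rfl

private theorem ztc_natCast (n : ℕ) : ztcReg s0 (n : RatFunc ℂ) := by
  refine ⟨(n : Polynomial ℂ), 1, by simp, ?_⟩
  rw [map_natCast, map_one, div_one]

private theorem ztc_add {R S : RatFunc ℂ} (hR : ztcReg s0 R) (hS : ztcReg s0 S) :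
    ztcReg s0 (R + S) := by
  obtain ⟨p, q, hq, rfl⟩ := hR
  obtain ⟨p', q', hq', rfl⟩ := hS
  refine ⟨p * q' + q * p', q * q', ?_, ?_⟩
  · rw [Polynomial.eval_mul]
    exact mul_ne_zero hq hq'
  · rw [div_add_div _ _ (ztc_ne hq) (ztc_ne hq')]
    simp only [map_add, map_mul]

private theorem ztc_neg {R : RatFunc ℂ} (hR : ztcReg s0 R) : ztcReg s0 (-R) := by
  obtain ⟨p, q, hq, rfl⟩ := hR
  refine ⟨-p, q, hq, ?_⟩
  rw [map_neg]
  ring

private theorem ztc_mul {R S : RatFunc ℂ} (hR : ztcReg s0 R) (hS : ztcReg s0 S) :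
    ztcReg s0 (R * S) := by
  obtain ⟨p, q, hq, rfl⟩ := hR
  obtain ⟨p', q', hq', rfl⟩ := hS
  refine ⟨p * p', q * q', ?_, ?_⟩
  · rw [Polynomial.eval_mul]
    exact mul_ne_zero hq hq'
  · rw [div_mul_div_comm]
    simp only [map_mul]

private theorem ztc_sum {ι : Type*} (T : Finset ι) (f : ι → RatFunc ℂ)
    (h : ∀ i ∈ T, ztcReg s0 (f i)) : ztcReg s0 (∑ i ∈ T, f i) := by
  classical
  induction T using Finset.induction_on with
  | empty =>
    rw [Finset.sum_empty]
    have h := ztc_natCast (s0 := s0) 0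
    rwa [Nat.cast_zero] at h
  | insert i T hi ih =>
    rw [Finset.sum_insert hi]
    exact ztc_add (h i (Finset.mem_insert_self i T))
      (ih fun j hj => h j (Finset.mem_insert_of_mem hj))

private theorem ztc_prod {ι : Type*} (T : Finset ι) (f : ι → RatFunc ℂ)
    (h : ∀ i ∈ T, ztcReg s0 (f i)) : ztcReg s0 (∏ i ∈ T, f i) := by
  classical
  induction T using Finset.induction_on with
  | empty =>
    rw [Finset.prod_empty]
    have h := ztc_natCast (s0 := s0) 1
    rwa [Nat.cast_one] at h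
  | insert i T hi ih =>
    rw [Finset.prod_insert hi]
    exact ztc_mul (h i (Finset.mem_insert_self i T))
      (ih fun j hj => h j (Finset.mem_insert_of_mem hj))

private theorem ztc_sign (k : ℕ) : ztcReg s0 ((-1) ^ k : RatFunc ℂ) := by
  induction k with
  | zero =>
    rw [pow_zero]
    have h := ztc_natCast (s0 := s0) 1
    rwa [Nat.cast_one] at h
  | succ k ih =>
    rw [pow_succ, mul_neg_one]
    exact ztc_neg ih

/-- the inverse of a linear form that does not vanish at `s0` -/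
private theorem ztc_inv_linear (A B : ℕ) (h : (A : ℂ) + (B : ℂ) * s0 ≠ 0) :
    ztcReg s0 ((A : RatFunc ℂ) + (B : RatFunc ℂ) * RatFunc.X)⁻¹ := by
  refine ⟨1, (A : Polynomial ℂ) + (B : Polynomial ℂ) * Polynomial.X, ?_, ?_⟩
  · simpa using h
  · rw [map_one, map_add, map_mul, map_natCast, map_natCast, RatFunc.algebraMap_X, one_div]

private theorem ztc_X_div (h : s0 ≠ -1) : ztcReg s0 (RatFunc.X / (RatFunc.X + 1)) := by
  refine ⟨Polynomial.X, Polynomial.X + 1, ?_, ?_⟩
  · intro h0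
    apply h
    rw [Polynomial.eval_add, Polynomial.eval_X, Polynomial.eval_one] at h0
    linear_combination h0
  · rw [map_add, RatFunc.algebraMap_X, map_one]

end

/-- ZTC -/
theorem ztc {n r : ℕ} (a : Fin r → (Fin n →₀ ℕ)) (𝒟 : ∀ τ, H22.FaceCones a τ)
    (𝒯 : ∀ τ, H22.FaceTriang a τ) (s0 : ℂ) (hs : (H22.topZetaG a 𝒟 𝒯).denom.IsRoot s0) :
    s0 = -1 ∨ ∃ w, FacetNormal a w ∧ 0 < H22.wmin a w ∧
      s0 = -(H22.wsum w : ℂ) / (H22.wmin a w : ℂ) := by
  classical
  by_contra hcon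
  push Not at hcon
  obtain ⟨hs1, hcon⟩ := hcon
  -- linear forms of facet normals
  have hlin : ∀ w, FacetNormal a w → (H22.wsum w : ℂ) + (H22.wmin a w : ℂ) * s0 ≠ 0 := by
    intro w hw h0
    have hws : 0 < H22.wsum w := by
      rw [Nat.pos_iff_ne_zero]
      intro h1
      apply hw.1
      unfold H22.wsum at h1
      rw [Finset.sum_eq_zero_iff] at h1
      funext j
      exact h1 j (Finset.mem_univ j)
    have hwsC : (H22.wsum w : ℂ) ≠ 0 := by exact_mod_cast hws.ne'
    have hwm : (H22.wmin a w : ℂ) ≠ 0 := by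
      intro h1
      rw [h1, zero_mul, add_zero] at h0
      exact hwsC h0
    have hwm' : 0 < H22.wmin a w := by
      rw [Nat.pos_iff_ne_zero]
      intro h1
      apply hwm
      rw [h1, Nat.cast_zero]
    apply hcon w hw hwm'
    rw [eq_div_iff hwm]
    linear_combination h0
  -- the functions J
  have hJ : ∀ τ : Finset (Fin r), H22.IsFace a τ → 1 ≤ H22.faceRank a τ →
      ztcReg s0 (H22.JfunG a τ (𝒟 τ)) := by
    intro τ hτ hr
    have hne : τ.Nonempty := by
      rw [Finset.nonempty_iff_ne_empty]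
      rintro rfl
      unfold H22.faceRank at hr
      rw [Finset.coe_empty, Set.image_empty, Submodule.span_empty, finrank_bot] at hr
      omega
    obtain ⟨𝒟', h𝒟'⟩ := zta a τ hne
    rw [ztb a τ hne hτ (𝒟 τ) 𝒟']
    unfold H22.JfunG
    exact ztc_sum _ _ fun C _ => ztc_mul (ztc_natCast _)
      (ztc_prod _ _ fun c _ => ztc_inv_linear _ _ (hlin _ (h𝒟' C c)))
  have hreg : ztcReg s0 (H22.topZetaG a 𝒟 𝒯) := by
    unfold H22.topZetaG
    refine ztc_add (ztc_sum _ _ fun τ hτ => ?_) (ztc_mul (ztc_X_div hs1)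
      (ztc_sum _ _ fun τ hτ => ztc_mul (ztc_mul (ztc_sign _) (ztc_natCast _)) ?_))
    · rw [Finset.mem_filter] at hτ
      exact hJ τ hτ.2.1 hτ.2.2.ge
    · rw [Finset.mem_filter] at hτ
      exact hJ τ hτ.2.1 (by omega)
  exact ztc_denom hreg hs

end Pool.Agent.H56.SMC
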