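import Pool.Agent.H56.SMC.RAYZ
import Pool.Agent.H56.SMC.H11Aux

/-!
# SIMX: simplicial facets without other exponents

Proof.  Let `n' = supCard w`, `i_0, …, i_{n'-1}` the exponents on the face of `w` (`hcard`).  The span in `FacetNormal` has dimension `n` and is spanned by the `n'` vectors `(1,a_i)` and the `n - n'` vectors `(0,e_j)`, `w_j = 0`: so these `n` vectors are linearly independent.
Flag: `F_t = {i_0, …, i_{n'-1-t}}`, `v_t = L w + u_t` with `u_0 = 0`, `v_0 = w`.  For `t ≥ 1` choose `u_t ∈ ℤ^n` with `u_t j = 0` if `w_j = 0`, and an integer `q_t` with `q_t + u_t·a_i = 0` for `i ∈ F_t`, `> 0` for the other `i` on the face (exists because of the linear independence: prescribe the values on the `n'` vectors `(1,a_i)` modulo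
the `e_j`, clear denominators).  For `L` large: `v_t j > 0` where `w_j > 0`, and the minimum of `v_t·a_i` is attained exactly on `F_t` (exponents off the face of `w` have `w·a_i > N(w)`).  Ranks: `(1,a_i)`, `i ∈ F_t`, and the `(0,e_j)` are independent, `n' - t + (n - n') = n - t`.
`IsFlagChoice`: `q t = i_{n'-1-t}` for all `t < n'` (`F_t` minus `F_{t+1}` has one element), so `∑_t a_{q t}` is the sum over all exponents of the face.  For a primitive `RayNormal` `v'` (`m = 0`) with `wmin a v' = 0`, `v'_j = 0` where `w_j = 0`: `rayz`: `v' = e_k`, `∃ i, a_ik = 0`, `w_k ≠ 0`: `wsum v' = 1 < ∑_{i on the face} a_ik` by `hk`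
(the sum is not `0`: otherwise the `n` independent vectors all have `k`-th coordinate `0`; by `hk` it is not `1`).
-/

set_option autoImplicit false

namespace Pool.Agent.H56.SMC

open Finset AddMonoidAlgebra

namespace SIMXaux

open H11

/-- Dual functionals of an independent family. -/
theorem dual_exists {d : ℕ} {s : Type} [Fintype s] (X : s → Lat d)
    (hX : LinearIndependent ℤ X) :
    ∃ D : ℤ, 0 < D ∧ ∀ b : s → ℤ, ∃ g : Lat d, ∀ k, dt g (X k) = D * b k := by
  classical
  have h1 := gram_det X hX
  set G : Matrix s s ℤ := Matrix.of (fun j k => dt (X j) (X k)) with hG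
  refine ⟨G.det * G.det, mul_self_pos.2 h1, fun b => ?_⟩
  refine ⟨∑ k, (G.det * G.adjugate.mulVec b k) • X k, fun k => ?_⟩
  have h2 : G.mulVec (G.adjugate.mulVec b) = fun j => G.det * b j := by
    rw [Matrix.mulVec_mulVec, Matrix.mul_adjugate]
    funext j
    simp
  have h3 := congrFun h2 k
  simp only [Matrix.mulVec, dotProduct] at h3
  rw [dt_comm, dt_sum]
  calc ∑ j, dt (X k) ((G.det * G.adjugate.mulVec b j) • X j)
      = G.det * ∑ j, G k j * ∑ x, G.adjugate j x * b x := by
        rw [mul_sum]
        refine sum_congr rfl fun j _ => ?_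
        rw [dt_zsmul]
        simp only [hG, Matrix.of_apply, Matrix.mulVec, dotProduct]
        ring
    _ = G.det * G.det * b k := by rw [h3]; ring

/-- Orthogonal vectors bound the number of independent vectors. -/
theorem ortho_card {d : ℕ} {s : Type} [Fintype s] (X : s → Lat d) (hX : LinearIndependent ℤ X)
    (g1 g2 : Lat d) (h1 : g1 ≠ 0) (h2 : g2 ≠ 0) (h12 : dt g1 g2 = 0)
    (hX1 : ∀ k, dt g1 (X k) = 0) (hX2 : ∀ k, dt g2 (X k) = 0) : Fintype.card s + 2 ≤ d := by
  classical
  set N := Fintype.card s with hN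
  set x : Fin N → Lat d := fun k => X ((Fintype.equivFin s).symm k) with hx
  have hxi : LinearIndependent ℤ x := hX.comp _ (Fintype.equivFin s).symm.injective
  have hspan : ∀ (g : Lat d) (s : ℕ) (y : Fin s → Lat d),
      (∀ k, dt g (y k) = 0) → ∀ z ∈ Submodule.span ℤ (Set.range y), dt g z = 0 := by
    intro g s y hy z hz
    rw [Submodule.mem_span_range_iff_exists_fun] at hz
    obtain ⟨c, rfl⟩ := hz
    rw [dt_sum]
    exact sum_eq_zero fun k _ => by rw [dt_zsmul, hy, mul_zero]
  have li1 : LinearIndependent ℤ (Fin.cons g1 x : Fin (N + 1) → Lat d) := by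
    refine LinearIndependent.finCons' _ _ hxi ?_
    intro c y hy hcy
    have h3 := congrArg (dt g1) hcy
    rw [dt_add, dt_zsmul, dt_zero, hspan _ _ _ (fun k => hX1 _) y hy, add_zero] at h3
    exact (mul_eq_zero.1 h3).resolve_right (fun h => h1 (dt_self _ h))
  have li2 : LinearIndependent ℤ (Fin.cons g2 (Fin.cons g1 x) : Fin (N + 2) → Lat d) := by
    refine LinearIndependent.finCons' _ _ li1 ?_
    intro c y hy hcy
    have h3 := congrArg (dt g2) hcy
    have h4 : dt g2 y = 0 := by
      refine hspan _ _ _ (Fin.cases ?_ (fun k => ?_)) y hy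
      · rw [Fin.cons_zero, dt_comm, h12]
      · rw [Fin.cons_succ]; exact hX2 _
    rw [dt_add, dt_zsmul, dt_zero, h4, add_zero] at h3
    exact (mul_eq_zero.1 h3).resolve_right (fun h => h2 (dt_self _ h))
  have h7 := li2.fintype_card_le_finrank
  rw [Fintype.card_fin, Module.finrank_pi, Fintype.card_fin] at h7
  exact h7

/-- The real vectors. -/
def Yv {n r : ℕ} (a : Fin r → (Fin n →₀ ℕ)) (w : Fin n → ℕ) (A : Finset (Fin r)) :
    {i // i ∈ A} ⊕ {j // w j = 0} → (Unit ⊕ Fin n → ℝ) :=
  Sum.elim (fun i => H22.rowR a i) (fun j => Sum.elim (fun _ => 0) (Pi.single (j : Fin n) 1))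

theorem range_Yv {n r : ℕ} (a : Fin r → (Fin n →₀ ℕ)) (w : Fin n → ℕ) (A : Finset (Fin r))
    (P : Fin r → Prop) (hP : ∀ i, P i ↔ i ∈ A) :
    Set.range (Yv a w A) = ({y | ∃ i, P i ∧ y = H22.rowR a i} ∪
      {y | ∃ j, w j = 0 ∧ y = Sum.elim (fun _ => 0) (Pi.single j 1)} :
        Set (Unit ⊕ Fin n → ℝ)) := by
  ext y
  constructor
  · rintro ⟨⟨i, hi⟩ | ⟨j, hj⟩, rfl⟩
    · left; exact ⟨i, (hP i).2 hi, rfl⟩
    · right; exact ⟨j, hj, rfl⟩
  · rintro (⟨i, hi, rfl⟩ | ⟨j, hj, rfl⟩)
    · exact ⟨Sum.inl ⟨i, (hP i).1 hi⟩, rfl⟩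
    · exact ⟨Sum.inr ⟨j, hj⟩, rfl⟩

theorem card_zero {n : ℕ} (w : Fin n → ℕ) :
    Fintype.card {j // w j = 0} = n - supCard w ∧ supCard w ≤ n := by
  classical
  have h1 := Finset.card_filter_add_card_filter_not (s := (univ : Finset (Fin n)))
    (fun j => w j ≠ 0)
  rw [card_univ, Fintype.card_fin] at h1
  have h2 : Fintype.card {j // w j = 0} = (univ.filter (fun j => ¬ w j ≠ 0)).card := by
    rw [Fintype.card_subtype]
    congr 1
    ext j; simp
  unfold supCard
  omega

end SIMXaux

open SIMXaux H11 in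
/-- SIMX -/
theorem simx {n r : ℕ} (a : Fin r → (Fin n →₀ ℕ)) (w : Fin n → ℕ) (hw : FacetNormal a w)
    (hN : 0 < H22.wmin a w) (hs : Simp a w) :
    ∃ v : ℕ → Fin n → ℕ, CritF a w (Fin.elim0 : Fin 0 → Fin n → ℤ) v := by
  classical
  obtain ⟨hw0, hrk⟩ := hw
  obtain ⟨hcard, hk⟩ := hs
  set F0 : Finset (Fin r) := univ.filter (fun i => ∑ j, a i j * w j = H22.wmin a w) with hF0
  have hF0m : ∀ i, ∑ j, a i j * w j = H22.wmin a w ↔ i ∈ F0 := fun i => by simp [hF0]
  obtain ⟨hz1, hz2⟩ := card_zero w
  set n' := supCard w with hn'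
  -- independence
  have hY : LinearIndependent ℝ (Yv a w F0) := by
    rw [linearIndependent_iff_card_eq_finrank_span, Set.finrank, range_Yv a w F0 _ hF0m, hrk,
      Fintype.card_sum, Fintype.card_coe, hcard, hz1]
    omega
  set X : {i // i ∈ F0} ⊕ {j // w j = 0} → Lat (n + 1) :=
    Sum.elim (fun i => Fin.cons 1 (fun j => (a i j : ℤ))) (fun j => Fin.cons 0 (ev (j : Fin n)))
    with hX
  have hXY0 : ∀ k, Yv a w F0 k (Sum.inl ()) = ((X k 0 : ℤ) : ℝ) := by
    rintro (i | j) <;> simp [Yv, hX, H22.rowR]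
  have hXYs : ∀ k j, Yv a w F0 k (Sum.inr j) = ((X k j.succ : ℤ) : ℝ) := by
    rintro (i | j) j'
    · simp [Yv, hX, H22.rowR]
    · simp [Yv, hX, ev, Pi.single_apply]
  have hXi : LinearIndependent ℤ X := by
    rw [Fintype.linearIndependent_iff]
    intro m hm
    have h1 : ∑ k, ((m k : ℤ) : ℝ) • Yv a w F0 k = 0 := by
      funext y
      rw [Finset.sum_apply]
      rcases y with ⟨⟩ | j
      · simp only [Pi.smul_apply, hXY0, smul_eq_mul, Pi.zero_apply]
        have h2 := congrFun hm 0
        simp only [Finset.sum_apply, Pi.smul_apply, smul_eq_mul, Pi.zero_apply] at h2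
        exact_mod_cast h2
      · simp only [Pi.smul_apply, hXYs, smul_eq_mul, Pi.zero_apply]
        have h2 := congrFun hm j.succ
        simp only [Finset.sum_apply, Pi.smul_apply, smul_eq_mul, Pi.zero_apply] at h2
        exact_mod_cast h2
    intro k
    exact_mod_cast Fintype.linearIndependent_iff.1 hY _ h1 k
  have hdtX1 : ∀ (g : Lat (n + 1)) (i : {i // i ∈ F0}), dt g (X (Sum.inl i)) =
      g 0 + ∑ j : Fin n, g j.succ * (a i j : ℤ) := by
    intro g i
    simp only [dt, hX, Sum.elim_inl]
    rw [Fin.sum_univ_succ]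
    simp
  have hdtX2 : ∀ (g : Lat (n + 1)) (j : {j // w j = 0}), dt g (X (Sum.inr j)) =
      g (j : Fin n).succ := by
    intro g j
    simp only [dt, hX, Sum.elim_inr]
    rw [Fin.sum_univ_succ]
    simp [ev, Pi.single_apply]
  obtain ⟨D, hD, hdual⟩ := dual_exists X hXi
  -- the weight vectors
  have hstep : ∀ A : Finset (Fin r), A ⊆ F0 → A.Nonempty →
      ∃ v : Fin n → ℕ, (∀ j, v j = 0 ↔ w j = 0) ∧
        ∀ i, (∑ j, a i j * v j = H22.wmin a v ↔ i ∈ A) := by
    intro A hA hne
    obtain ⟨g, hg⟩ := hdual (Sum.elim (fun i => if (i : Fin r) ∈ A then 0 else 1) (fun _ => 0))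
    set q := g 0 with hq
    set u : Fin n → ℤ := fun j => g j.succ with hu
    have hu0 : ∀ j, w j = 0 → u j = 0 := by
      intro j hj
      have := hg (Sum.inr ⟨j, hj⟩)
      rw [hdtX2] at this
      simpa using this
    have hgF : ∀ i, i ∈ F0 → ∑ j, u j * (a i j : ℤ) = D * (if i ∈ A then 0 else 1) - q := by
      intro i hi
      have := hg (Sum.inl ⟨i, hi⟩)
      rw [hdtX1] at this
      simp only [Sum.elim_inl] at this
      rw [← this]
      ring
    set L : ℤ := 1 + |q| + ∑ j, |u j| + ∑ i, |∑ j, u j * (a i j : ℤ)| with hL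
    have hLu : ∀ j, 1 - u j ≤ L ∧ 1 + |u j| ≤ L := by
      intro j
      have e1 : |u j| ≤ ∑ j, |u j| :=
        single_le_sum (f := fun j => |u j|) (fun v _ => abs_nonneg _) (mem_univ j)
      have e2 : 0 ≤ ∑ i, |∑ j, u j * (a i j : ℤ)| := sum_nonneg fun i _ => abs_nonneg _
      have e3 := abs_nonneg q
      have e4 := neg_abs_le (u j)
      constructor <;> omega
    have hLi : ∀ i, -q - ∑ j, u j * (a i j : ℤ) < L := by
      intro i
      have e1 : |∑ j, u j * (a i j : ℤ)| ≤ ∑ i, |∑ j, u j * (a i j : ℤ)| :=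
        single_le_sum (f := fun i => |∑ j, u j * (a i j : ℤ)|) (fun v _ => abs_nonneg _)
          (mem_univ i)
      have e2 : 0 ≤ ∑ j, |u j| := sum_nonneg fun i _ => abs_nonneg _
      have e3 := neg_abs_le q
      have e4 := neg_abs_le (∑ j, u j * (a i j : ℤ))
      omega
    have hv0 : ∀ j, 0 ≤ L * w j + u j ∧ (L * w j + u j = 0 ↔ w j = 0) := by
      intro j
      by_cases hj : w j = 0
      · rw [hj, hu0 j hj]; simp
      · have e1 : (1 : ℤ) ≤ w j := by exact_mod_cast Nat.one_le_iff_ne_zero.2 hj
        have e2 := (hLu j).1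
        have e3 := (hLu j).2
        have e4 := abs_nonneg (u j)
        have e5 : L ≤ L * w j := by nlinarith
        refine ⟨by omega, ⟨fun h => ?_, fun h => absurd h hj⟩⟩
        omega
    refine ⟨fun j => (L * w j + u j).toNat, fun j => ?_, ?_⟩
    · have e1 := hv0 j
      rw [Int.toNat_eq_zero]
      constructor
      · intro h; exact e1.2.1 (le_antisymm h e1.1)
      · intro h; exact (e1.2.2 h).le
    · set v : Fin n → ℕ := fun j => (L * w j + u j).toNat with hv
      have hvc : ∀ j, (v j : ℤ) = L * w j + u j := fun j => Int.toNat_of_nonneg (hv0 j).1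
      have hval : ∀ i, ((∑ j, a i j * v j : ℕ) : ℤ) =
          L * ((∑ j, a i j * w j : ℕ) : ℤ) + ∑ j, u j * (a i j : ℤ) := by
        intro i
        push_cast
        simp only [hvc]
        rw [mul_sum, ← sum_add_distrib]
        exact sum_congr rfl fun j _ => by ring
      have hval1 : ∀ i, i ∈ A → ((∑ j, a i j * v j : ℕ) : ℤ) = L * H22.wmin a w - q := by
        intro i hi
        rw [hval, (hF0m i).2 (hA hi), hgF i (hA hi), if_pos hi]
        ring
      have hval2 : ∀ i, i ∉ A → L * H22.wmin a w - q < ((∑ j, a i j * v j : ℕ) : ℤ) := by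
        intro i hi
        rw [hval]
        by_cases hiF : i ∈ F0
        · rw [(hF0m i).2 hiF, hgF i hiF, if_neg hi]
          linarith
        · have e1 : ∑ j, a i j * w j ≠ H22.wmin a w := fun h => hiF ((hF0m i).1 h)
          have e2 := wmin_le a w i
          have e3 : (H22.wmin a w : ℤ) + 1 ≤ ((∑ j, a i j * w j : ℕ) : ℤ) := by
            exact_mod_cast Nat.lt_of_le_of_ne e2 (Ne.symm e1)
          have e4 := hLi i
          have e5 : 0 ≤ L := by
            have e2 : 0 ≤ ∑ j, |u j| := sum_nonneg fun i _ => abs_nonneg _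
            have e2 : 0 ≤ ∑ i, |∑ j, u j * (a i j : ℤ)| := sum_nonneg fun i _ => abs_nonneg _
            have e3 := abs_nonneg q
            omega
          nlinarith
      have hmin : (H22.wmin a v : ℤ) = L * H22.wmin a w - q := by
        obtain ⟨i0, hi0⟩ := hne
        apply le_antisymm
        · rw [← hval1 i0 hi0]
          exact_mod_cast wmin_le a v i0
        · obtain ⟨i2, hi2⟩ := exists_wmin (Fin.pos i0) a v
          rw [← hi2]
          by_cases h : i2 ∈ A
          · exact (hval1 i2 h).symm.le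
          · exact (hval2 i2 h).le
      intro i
      constructor
      · intro h
        by_contra hi
        have e1 := hval2 i hi
        rw [← hmin, h] at e1
        exact lt_irrefl _ e1
      · intro hi
        have e1 := hval1 i hi
        rw [← hmin] at e1
        exact_mod_cast e1
  -- the flag
  have hn'0 : 0 < n' := by
    rw [hn', supCard, card_pos]
    obtain ⟨j, hj⟩ := Function.ne_iff.1 hw0
    exact ⟨j, mem_filter.2 ⟨mem_univ _, hj⟩⟩
  have ecard : Fintype.card (Fin n') = Fintype.card {i // i ∈ F0} := by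
    rw [Fintype.card_fin, Fintype.card_coe, hcard]
  set f : Fin n' ≃ {i // i ∈ F0} := Fintype.equivOfCardEq ecard with hf
  have hfinj : Function.Injective (fun k => ((f k : {i // i ∈ F0}) : Fin r)) :=
    Subtype.val_injective.comp f.injective
  set A : ℕ → Finset (Fin r) := fun t =>
    (univ.filter (fun k : Fin n' => k.val < n' - t)).image (fun k => ((f k : {i // i ∈ F0}) : Fin r))
    with hA
  have hAm : ∀ t i, i ∈ A t ↔ ∃ k : Fin n', k.val < n' - t ∧ ((f k : {i // i ∈ F0}) : Fin r) = i := by
    intro t i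
    simp [hA]
  have hAF : ∀ t, A t ⊆ F0 := by
    intro t i hi
    obtain ⟨k, -, rfl⟩ := (hAm t i).1 hi
    exact (f k).2
  have hA0 : A 0 = F0 := by
    apply subset_antisymm (hAF 0)
    intro i hi
    refine (hAm 0 i).2 ⟨f.symm ⟨i, hi⟩, by simp, by simp⟩
  have hAcard : ∀ t, t < n' → (A t).card = n' - t := by
    intro t ht
    rw [hA]
    simp only
    rw [card_image_of_injective _ hfinj]
    have : (univ.filter (fun k : Fin n' => k.val < n' - t)) =
        (univ : Finset (Fin (n' - t))).map (Fin.castLEEmb (Nat.sub_le n' t)) := by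
      ext k
      simp only [mem_filter, mem_univ, true_and, mem_map, Fin.castLEEmb_apply]
      constructor
      · intro h; exact ⟨⟨k, h⟩, rfl⟩
      · rintro ⟨k', rfl⟩; exact k'.2
    rw [this, card_map, card_univ, Fintype.card_fin]
  have hch : ∀ t, ∃ v : Fin n → ℕ, t < n' → ((t = 0 → v = w) ∧ (∀ j, v j = 0 ↔ w j = 0) ∧
      ∀ i, (∑ j, a i j * v j = H22.wmin a v ↔ i ∈ A t)) := by
    intro t
    by_cases ht : t = 0
    · refine ⟨w, fun _ => ⟨fun _ => rfl, fun _ => Iff.rfl, ?_⟩⟩
      rw [ht, hA0]
      exact hF0m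
    · by_cases htn : t < n'
      · obtain ⟨v, hv⟩ := hstep (A t) (hAF t) (card_pos.1 (by rw [hAcard t htn]; omega))
        exact ⟨v, fun _ => ⟨fun h => absurd h ht, hv⟩⟩
      · exact ⟨w, fun h => absurd h htn⟩
  choose v hv using hch
  refine ⟨v, ⟨(hv 0 hn'0).1 rfl, fun t ht => ⟨(hv t ht).2.1, fun k => k.elim0, ?_⟩,
    fun t ht i hi => ?_⟩, ?_⟩
  · -- ranks
    have h1 : ({y | ∃ i, ∑ j, a i j * v t j = H22.wmin a (v t) ∧ y = H22.rowR a i} ∪
        {y | ∃ j, w j = 0 ∧ y = Sum.elim (fun _ => 0) (Pi.single j 1)} :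
          Set (Unit ⊕ Fin n → ℝ)) = Set.range (Yv a w (A t)) :=
      (range_Yv a w (A t) _ (hv t ht).2.2).symm
    rw [h1]
    have h2 : LinearIndependent ℝ (Yv a w (A t)) := by
      have h3 : Yv a w (A t) = (Yv a w F0) ∘
          (Sum.map (fun i : {i // i ∈ A t} => (⟨i, hAF t i.2⟩ : {i // i ∈ F0})) id) := by
        funext k
        rcases k with i | j <;> rfl
      rw [h3]
      apply hY.comp
      apply Function.Injective.sumMap
      · intro i i' h
        exact Subtype.ext (congrArg (fun z : {i // i ∈ F0} => (z : Fin r)) h)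
      · exact Function.injective_id
    rw [finrank_span_eq_card h2, Fintype.card_sum, Fintype.card_coe, hAcard t ht, hz1]
    omega
  · have h1 := ((hv (t + 1) ht).2.2 i).1 hi
    refine ((hv t (by omega)).2.2 i).2 ?_
    obtain ⟨k, hk1, hk2⟩ := (hAm _ _).1 h1
    exact (hAm _ _).2 ⟨k, by omega, hk2⟩
  · -- the inequality
    intro q hq v' hv' hgcd hv'0
    refine ⟨fun hmin0 => ?_, ?_⟩
    · obtain ⟨k, hvk, hki⟩ := rayz a v' hv' hgcd hmin0
      have hwk : w k ≠ 0 := by
        intro h
        have := hv'0 k h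
        rw [hvk] at this
        simp at this
      -- the choice
      have hqf : ∀ t : Fin n', q t = ((f (Fin.rev t) : {i // i ∈ F0}) : Fin r) := by
        intro t
        obtain ⟨h1, h2⟩ := hq t t.2
        obtain ⟨k', hk1, hk2⟩ := (hAm _ _).1 (((hv t t.2).2.2 _).1 h1)
        have h3 : k' = Fin.rev t := by
          apply Fin.ext
          rw [Fin.val_rev]
          by_cases ht : (t : ℕ) + 1 < n'
          · have h4 := h2 ht
            by_contra hne
            apply h4
            refine ((hv (t + 1) ht).2.2 _).2 ((hAm _ _).2 ⟨k', ?_, hk2⟩)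
            omega
          · have := t.2
            omega
        rw [← hk2, h3]
      have hsum : ∑ t ∈ range (supCard w), ∑ j, a (q t) j * v' j = ∑ i ∈ F0, a i k := by
        have h1 : ∀ i, ∑ j, a i j * v' j = a i k := by
          intro i
          rw [hvk]
          simp [Pi.single_apply]
        simp only [h1]
        rw [← hn', Finset.sum_range]
        simp only [hqf]
        rw [← Finset.sum_coe_sort F0 (fun i => a i k),
          ← Equiv.sum_comp f (fun i : {i // i ∈ F0} => a (i : Fin r) k)]
        exact Equiv.sum_comp Fin.revPerm (fun t : Fin n' => a ((f t : {i // i ∈ F0}) : Fin r) k)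
      rw [hsum]
      have hws : H22.wsum v' = 1 := by
        rw [hvk]
        simp [H22.wsum, Pi.single_apply]
      rw [hws]
      have hne1 := hk k hwk hki
      have hne0 : ∑ i ∈ F0, a i k ≠ 0 := by
        intro h0
        have h1 : ∀ i ∈ F0, a i k = 0 := fun i hi => (sum_eq_zero_iff.1 h0) i hi
        have h2 := ortho_card X hXi (Fin.cons 0 (ev k))
          (Fin.cons (-(H22.wmin a w : ℤ)) (fun j => if j = k then 0 else (w j : ℤ))) ?_ ?_ ?_ ?_ ?_
        · rw [Fintype.card_sum, Fintype.card_coe, hcard, hz1] at h2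
          omega
        · intro h
          have := congrFun h k.succ
          simp [ev] at this
        · intro h
          have := congrFun h 0
          simp only [Fin.cons_zero, Pi.zero_apply, neg_eq_zero] at this
          omega
        · simp only [dt]
          rw [Fin.sum_univ_succ]
          simp only [Fin.cons_zero, Fin.cons_succ, ev, Pi.single_apply, zero_mul, zero_add]
          refine sum_eq_zero fun x _ => ?_
          split_ifs <;> simp
        · rintro (i | j)
          · rw [hdtX1]
            simp [ev, Pi.single_apply, h1 i i.2]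
          · rw [hdtX2]
            simp only [Fin.cons_succ, ev, Pi.single_apply]
            rw [if_neg]
            intro h
            exact hwk (h ▸ j.2)
        · rintro (i | j)
          · rw [hdtX1]
            simp only [Fin.cons_zero, Fin.cons_succ]
            rw [← (hF0m i).2 i.2]
            push_cast
            rw [neg_add_eq_zero]
            refine sum_congr rfl fun j _ => ?_
            split_ifs with hj
            · rw [hj, h1 i i.2]; simp
            · ring
          · rw [hdtX2]
            simp only [Fin.cons_succ]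
            split_ifs
            · rfl
            · exact_mod_cast j.2
      omega
    · rintro ⟨k, -⟩
      exact k.elim0

end Pool.Agent.H56.SMC
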