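import Pool.Agent.H56.SMC.Defs

/-! # Basic lemmas on `Supp`, `dg`, `gs`, `Dop` -/

set_option autoImplicit false

namespace Pool.Agent.H56.SMC

open Finset AddMonoidAlgebra

section
variable {R : Type} [CommRing R] {d : ℕ} {ι : Type} [Fintype ι]

theorem coeff_add' (x y : LP R d) (u : Lat d) : (x + y).coeff u = x.coeff u + y.coeff u := rfl

theorem coeff_sub' (x y : LP R d) (u : Lat d) : (x - y).coeff u = x.coeff u - y.coeff u := by
  rw [AddMonoidAlgebra.coeff_sub]; rfl

theorem coeff_neg' (x : LP R d) (u : Lat d) : (-x).coeff u = -x.coeff u := by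
  rw [AddMonoidAlgebra.coeff_neg]; rfl

theorem coeff_smul' (r : R) (x : LP R d) (u : Lat d) : (r • x).coeff u = r * x.coeff u := rfl

theorem coeff_zero' (u : Lat d) : (0 : LP R d).coeff u = 0 := rfl

theorem coeff_single' (v : Lat d) (r : R) (u : Lat d) :
    (single v r : LP R d).coeff u = if u = v then r else 0 := by
  classical
  rw [AddMonoidAlgebra.coeff_single, Finsupp.single_apply]
  simp [eq_comm]

/-! ### Supp -/

theorem Supp.zero (S : Set (Lat d)) : Supp S (0 : LP R d) := fun _ hu => absurd rfl hu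

theorem Supp.add {S : Set (Lat d)} {x y : LP R d} (hx : Supp S x) (hy : Supp S y) :
    Supp S (x + y) := by
  intro u hu
  by_contra h
  apply hu
  rw [coeff_add', not_not.1 (fun h' => h (hx u h')), not_not.1 (fun h' => h (hy u h')), add_zero]

theorem Supp.neg {S : Set (Lat d)} {x : LP R d} (hx : Supp S x) : Supp S (-x) := by
  intro u hu
  rw [coeff_neg'] at hu
  exact hx u (fun h => hu (by rw [h, neg_zero]))

theorem Supp.sub {S : Set (Lat d)} {x y : LP R d} (hx : Supp S x) (hy : Supp S y) :
    Supp S (x - y) := by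
  rw [sub_eq_add_neg]; exact hx.add hy.neg

theorem Supp.smul {S : Set (Lat d)} {x : LP R d} (r : R) (hx : Supp S x) : Supp S (r • x) := by
  intro u hu
  rw [coeff_smul'] at hu
  exact hx u (fun h => hu (by rw [h, mul_zero]))

theorem Supp.sum {α : Type*} {S : Set (Lat d)} (s : Finset α) {f : α → LP R d}
    (h : ∀ i ∈ s, Supp S (f i)) : Supp S (∑ i ∈ s, f i) := by
  classical
  induction s using Finset.induction_on with
  | empty => simpa using Supp.zero S
  | insert a s ha ih =>
    rw [sum_insert ha]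
    exact (h a (mem_insert_self a s)).add (ih fun i hi => h i (mem_insert_of_mem hi))

theorem Supp.mono {S T : Set (Lat d)} (hST : S ⊆ T) {x : LP R d} (hx : Supp S x) : Supp T x :=
  fun u hu => hST (hx u hu)

theorem Supp.single {S : Set (Lat d)} {v : Lat d} (hv : v ∈ S) (r : R) :
    Supp S (single v r : LP R d) := by
  intro u hu
  rw [coeff_single'] at hu
  by_cases h : u = v
  · rw [h]; exact hv
  · rw [if_neg h] at hu; exact absurd rfl hu

theorem Supp.dg {S : Set (Lat d)} (φ : Lat d → R) {x : LP R d} (hx : Supp S x) :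
    Supp S (dg φ x) := by
  intro u hu
  rw [dg_coeff] at hu
  exact hx u (fun h => hu (by rw [h, mul_zero]))

theorem Supp.gs_mul {S : Set (Lat d)} (a : ι → Lat d) (c : ι → R) (h : Lat d)
    (hS : ∀ u ∈ S, ∀ i, c i ≠ 0 → u + a i ∈ S) {x : LP R d} (hx : Supp S x) :
    Supp S (gs a c h * x) := by
  intro u hu
  rw [gs_mul_coeff] at hu
  obtain ⟨i, -, hi⟩ := exists_ne_zero_of_sum_ne_zero hu
  have h1 : x.coeff (u - a i) ≠ 0 := fun h0 => hi (by rw [h0, mul_zero])
  have h2 : c i ≠ 0 := fun h0 => hi (by rw [h0, zero_mul, zero_mul])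
  have h3 := hS _ (hx _ h1) i h2
  rwa [sub_add_cancel] at h3

theorem Supp.Dop {S : Set (Lat d)} (p : Fin d → R) (a : ι → Lat d) (c : ι → R) (h : Lat d)
    (hS : ∀ u ∈ S, ∀ i, c i ≠ 0 → u + a i ∈ S) {x : LP R d} (hx : Supp S x) :
    Supp S (Dop p a c h x) :=
  (hx.dg _).sub (hx.gs_mul a c h hS)

/-! ### Linearity -/

variable (p : Fin d → R) (a : ι → Lat d) (c : ι → R)

theorem Dop_add (h : Lat d) (x y : LP R d) :
    Dop p a c h (x + y) = Dop p a c h x + Dop p a c h y := by
  apply lp_ext; intro u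
  simp only [Dop_coeff, coeff_add']
  rw [show ∑ i, c i * (dt h (a i) : R) * (x.coeff (u - a i) + y.coeff (u - a i)) =
    ∑ i, c i * (dt h (a i) : R) * x.coeff (u - a i) + ∑ i, c i * (dt h (a i) : R) * y.coeff (u - a i) by
      rw [← sum_add_distrib]; exact sum_congr rfl fun i _ => by ring]
  ring

theorem Dop_smul (h : Lat d) (r : R) (x : LP R d) :
    Dop p a c h (r • x) = r • Dop p a c h x := by
  apply lp_ext; intro u
  simp only [Dop_coeff, coeff_smul']
  rw [mul_sub, mul_sum]
  congr 1
  · ring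
  · exact sum_congr rfl fun i _ => by ring

theorem Dop_zero (h : Lat d) : Dop p a c h (0 : LP R d) = 0 := by
  apply lp_ext; intro u
  simp [Dop_coeff]

theorem Dop_neg (h : Lat d) (x : LP R d) : Dop p a c h (-x) = -Dop p a c h x := by
  have := Dop_smul p a c h (-1) x
  rwa [neg_one_smul, neg_one_smul] at this

theorem Dop_sub (h : Lat d) (x y : LP R d) :
    Dop p a c h (x - y) = Dop p a c h x - Dop p a c h y := by
  rw [sub_eq_add_neg, Dop_add, Dop_neg, sub_eq_add_neg]

theorem Dop_sum {α : Type*} (h : Lat d) (s : Finset α) (f : α → LP R d) :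
    Dop p a c h (∑ i ∈ s, f i) = ∑ i ∈ s, Dop p a c h (f i) := by
  classical
  induction s using Finset.induction_on with
  | empty => simpa using Dop_zero p a c h
  | insert b s hb ih => rw [sum_insert hb, sum_insert hb, Dop_add, ih]

theorem pv_left (h : Lat d) : pv p h = ∑ j, (h j : R) * pv p (ev j) := by
  unfold pv
  refine sum_congr rfl fun j _ => ?_
  congr 1
  simp [ev, Pi.single_apply]

/-- `D_h = ∑ h_j D_j`. -/
theorem Dop_left (h : Lat d) (x : LP R d) :
    Dop p a c h x = ∑ j, (h j : R) • Dop p a c (ev j) x := by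
  apply lp_ext; intro u
  rw [coeff_finsum]
  simp only [Dop_coeff, coeff_smul', mul_sub, mul_sum, sum_sub_distrib]
  congr 1
  · rw [← sum_congr rfl (fun j _ => mul_assoc _ _ _), ← sum_mul]
    congr 1
    simp only [mul_add, sum_add_distrib, ← pv_left]
    congr 1
    rw [dt_left]
    push_cast
    rfl
  · rw [sum_comm]
    refine sum_congr rfl fun i _ => ?_
    rw [dt_left]
    push_cast
    rw [mul_sum, sum_mul]
    exact sum_congr rfl fun j _ => by ring

theorem dg_mul_single (h : Lat d) (v : Lat d) (r : R) (x : LP R d) :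
    dg (fun u => pv p h + (dt h u : R)) (single v r * x) =
      single v r * dg (fun u => pv p h + (dt h u : R)) x + single v (r * (dt h v : R)) * x := by
  apply lp_ext; intro u
  rw [coeff_add', dg_coeff, single_mul_coeff, single_mul_coeff, single_mul_coeff, dg_coeff]
  have : (dt h u : R) = (dt h (u - v) : R) + (dt h v : R) := by
    rw [← Int.cast_add, ← dt_add, sub_add_cancel]
  rw [this]; ring

/-- The operators commute. -/
theorem Dop_comm (h h' : Lat d) (x : LP R d) :
    Dop p a c h (Dop p a c h' x) = Dop p a c h' (Dop p a c h x) := by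
  have key : ∀ h h' : Lat d, dg (fun u => pv p h + (dt h u : R)) (gs a c h' * x) =
      gs a c h' * dg (fun u => pv p h + (dt h u : R)) x +
        ∑ i, single (a i) (c i * (dt h (a i) : R) * (dt h' (a i) : R)) * x := by
    intro h h'
    apply lp_ext; intro u
    rw [coeff_add', dg_coeff, gs_mul_coeff, gs_mul_coeff, coeff_finsum, mul_sum, ← sum_add_distrib]
    refine sum_congr rfl fun i _ => ?_
    rw [single_mul_coeff, dg_coeff]
    have : (dt h u : R) = (dt h (u - a i) : R) + (dt h (a i) : R) := by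
      rw [← Int.cast_add, ← dt_add, sub_add_cancel]
    rw [this]; ring
  have hdd : ∀ (φ ψ : Lat d → R) (y : LP R d), dg φ (dg ψ y) = dg ψ (dg φ y) := by
    intro φ ψ y
    apply lp_ext; intro u
    simp only [dg_coeff]; ring
  have hds : ∀ (φ : Lat d → R) (y z : LP R d), dg φ (y - z) = dg φ y - dg φ z := by
    intro φ y z
    apply lp_ext; intro u
    simp only [dg_coeff, coeff_sub']; ring
  unfold Dop
  rw [hds, hds, key h h', key h' h, hdd, mul_sub, mul_sub]
  have e : ∑ i, single (a i) (c i * (dt h (a i) : R) * (dt h' (a i) : R)) * x =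
      ∑ i, single (a i) (c i * (dt h' (a i) : R) * (dt h (a i) : R)) * x := by
    refine sum_congr rfl fun i _ => ?_
    congr 2; ring
  rw [e]
  have e2 : gs a c h * (gs a c h' * x) = gs a c h' * (gs a c h * x) := by ring
  rw [e2]
  abel

/-- Koszul boundaries are cycles. -/
theorem Dop_antisymm (h2 : ∀ x : LP R d, x = -x → x = 0) (y : Fin d → Fin d → LP R d)
    (hy : ∀ j k, y j k = -y k j) :
    ∑ j, Dop p a c (ev j) (∑ k, Dop p a c (ev k) (y j k)) = 0 := by
  apply h2
  simp only [Dop_sum]
  rw [← sum_neg_distrib]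
  conv_lhs => rw [sum_comm]
  refine sum_congr rfl fun j _ => ?_
  rw [← sum_neg_distrib]
  refine sum_congr rfl fun k _ => ?_
  rw [hy k j, Dop_neg, Dop_neg, Dop_comm]

theorem lp_eq_neg_self [Algebra ℚ R] (x : LP R d) (h : x = -x) : x = 0 := by
  apply lp_ext; intro u
  have h1 : x.coeff u = -x.coeff u := by
    conv_lhs => rw [h]
    exact coeff_neg' x u
  have h2 : (2 : R) * x.coeff u = 0 := by rw [two_mul]; nth_rw 1 [h1]; ring
  have h3 : algebraMap ℚ R (1/2) * (2 : R) = 1 := by
    rw [show (2 : R) = algebraMap ℚ R 2 by rw [map_ofNat], ← map_mul, show (1/2 : ℚ) * 2 = 1 by norm_num, map_one]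
  calc x.coeff u = (algebraMap ℚ R (1/2) * 2) * x.coeff u := by rw [h3, one_mul]
    _ = 0 := by rw [mul_assoc, h2, mul_zero]
    _ = (0 : LP R d).coeff u := rfl

variable {p a c}

theorem Ex.add {S : Set (Lat d)} {x y : LP R d} (hx : Ex p a c S x) (hy : Ex p a c S y) :
    Ex p a c S (x + y) := by
  obtain ⟨z, hz, rfl⟩ := hx
  obtain ⟨w, hw, rfl⟩ := hy
  exact ⟨fun j => z j + w j, fun j => (hz j).add (hw j), by
    simp only [Dop_add, sum_add_distrib]⟩

theorem Ex.smul {S : Set (Lat d)} {x : LP R d} (r : R) (hx : Ex p a c S x) :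
    Ex p a c S (r • x) := by
  obtain ⟨z, hz, rfl⟩ := hx
  exact ⟨fun j => r • z j, fun j => (hz j).smul r, by
    simp only [Dop_smul, smul_sum]⟩

theorem Ex.neg {S : Set (Lat d)} {x : LP R d} (hx : Ex p a c S x) : Ex p a c S (-x) := by
  have := hx.smul (-1)
  rwa [neg_one_smul] at this

theorem Ex.sub {S : Set (Lat d)} {x y : LP R d} (hx : Ex p a c S x) (hy : Ex p a c S y) :
    Ex p a c S (x - y) := by
  rw [sub_eq_add_neg]; exact hx.add hy.neg

theorem Ex.zero {S : Set (Lat d)} : Ex p a c S 0 :=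
  ⟨fun _ => 0, fun _ => Supp.zero S, by simp [Dop_zero]⟩

theorem Ex.sum {α : Type*} {S : Set (Lat d)} (s : Finset α) {f : α → LP R d}
    (h : ∀ i ∈ s, Ex p a c S (f i)) : Ex p a c S (∑ i ∈ s, f i) := by
  classical
  induction s using Finset.induction_on with
  | empty => simpa using Ex.zero (p := p) (a := a) (c := c) (S := S)
  | insert b s hb ih =>
    rw [sum_insert hb]
    exact (h b (mem_insert_self b s)).add (ih fun i hi => h i (mem_insert_of_mem hi))

theorem Ex.mono {S T : Set (Lat d)} (hST : S ⊆ T) {x : LP R d} (hx : Ex p a c S x) :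
    Ex p a c T x := by
  obtain ⟨z, hz, rfl⟩ := hx
  exact ⟨z, fun j => (hz j).mono hST, rfl⟩

/-- `D_h z` is exact for every functional `h`. -/
theorem Ex.of_Dop {S : Set (Lat d)} (h : Lat d) {z : LP R d} (hz : Supp S z) :
    Ex p a c S (Dop p a c h z) := by
  refine ⟨fun j => (h j : R) • z, fun j => hz.smul _, ?_⟩
  rw [Dop_left]
  simp only [Dop_smul]

end

/-! ### The submodule of exact elements -/

section
variable {R : Type} [CommRing R] {d : ℕ} {ι : Type} [Fintype ι]

/-- All exact elements (no restriction on the supports). -/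
def exS (p : Fin d → R) (a : ι → Lat d) (c : ι → R) : Submodule R (LP R d) where
  carrier := {x | Ex p a c Set.univ x}
  add_mem' := fun hx hy => Ex.add hx hy
  zero_mem' := Ex.zero
  smul_mem' := fun r _ hx => Ex.smul r hx

theorem mem_exS (p : Fin d → R) (a : ι → Lat d) (c : ι → R) (x : LP R d) :
    x ∈ exS p a c ↔ Ex p a c Set.univ x := Iff.rfl

end

/-! ### Base change -/

section
variable {R R' : Type} [CommRing R] [CommRing R'] {d : ℕ} {ι : Type} [Fintype ι]

/-- Coefficientwise image under a ring homomorphism. -/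
noncomputable def lmap (f : R →+* R') (x : LP R d) : LP R' d :=
  ofCoeff (x.coeff.mapRange f (map_zero f))

theorem lmap_coeff (f : R →+* R') (x : LP R d) (u : Lat d) :
    (lmap f x).coeff u = f (x.coeff u) := rfl

theorem lmap_add (f : R →+* R') (x y : LP R d) : lmap f (x + y) = lmap f x + lmap f y := by
  apply lp_ext; intro u
  simp only [lmap_coeff, coeff_add', map_add]

theorem lmap_sub (f : R →+* R') (x y : LP R d) : lmap f (x - y) = lmap f x - lmap f y := by
  apply lp_ext; intro u
  simp only [lmap_coeff, coeff_sub', map_sub]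

theorem lmap_smul (f : R →+* R') (r : R) (x : LP R d) : lmap f (r • x) = f r • lmap f x := by
  apply lp_ext; intro u
  simp only [lmap_coeff, coeff_smul', map_mul]

theorem lmap_sum {α : Type*} (f : R →+* R') (s : Finset α) (g : α → LP R d) :
    lmap f (∑ i ∈ s, g i) = ∑ i ∈ s, lmap f (g i) := by
  apply lp_ext; intro u
  simp only [lmap_coeff, coeff_finsum, map_sum]

theorem Supp.lmap {S : Set (Lat d)} (f : R →+* R') {x : LP R d} (hx : Supp S x) :
    Supp S (lmap f x) := fun u hu => hx u (fun h => hu (by rw [lmap_coeff, h, map_zero]))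

theorem lmap_Dop (f : R →+* R') (p : Fin d → R) (a : ι → Lat d) (c : ι → R) (h : Lat d)
    (x : LP R d) : lmap f (Dop p a c h x) =
      Dop (fun j => f (p j)) a (fun i => f (c i)) h (lmap f x) := by
  apply lp_ext; intro u
  simp only [lmap_coeff, Dop_coeff, map_sub, map_mul, map_add, map_sum, map_intCast, pv]

theorem Ex.lmap {S : Set (Lat d)} (f : R →+* R') {p : Fin d → R} {a : ι → Lat d} {c : ι → R}
    {x : LP R d} (hx : Ex p a c S x) :
    Ex (fun j => f (p j)) a (fun i => f (c i)) S (lmap f x) := by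
  obtain ⟨z, hz, rfl⟩ := hx
  refine ⟨fun j => SMC.lmap f (z j), fun j => (hz j).lmap f, ?_⟩
  rw [lmap_sum]
  exact sum_congr rfl fun j _ => lmap_Dop f p a c _ _

end

end Pool.Agent.H56.SMC
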