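import Pool.Agent.H56.SMC.UDefs
import Pool.Agent.H56.SMC.ZTB
import Pool.Agent.H60.RegTri
import Pool.Agent.H37.SM.ZRG

/-!
# Definitions for the zeta side

`R` is a finite set of vectors of `ℕ^n` (facet normals) which generate all cones `D_τ`. For generic
heights `h : R → ℝ` the upper simplices of the rays in `D_τ` triangulate `D_τ`
(`Pool.Agent.H60.RegTri`).
-/

set_option autoImplicit false

namespace Pool.Agent.H56.SMC

open Finset H60.RegTri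

/-- The unit vector. -/
def eN {n : ℕ} (k : Fin n) : Fin n → ℕ := Pi.single k 1

/-- An element of `R` as a real vector. -/
def rv {n : ℕ} (R : Finset (Fin n → ℕ)) : R → Fin n → ℝ := fun w => H22.toReal w.1

open Classical in
/-- The elements of `R` in the cone `D_τ`. -/
noncomputable def raysIn {n r : ℕ} (a : Fin r → (Fin n →₀ ℕ)) (R : Finset (Fin n → ℕ))
    (τ : Finset (Fin r)) : Finset R := univ.filter (fun w => rv R w ∈ H22.minCone a τ)

theorem mem_raysIn {n r : ℕ} {a : Fin r → (Fin n →₀ ℕ)} {R : Finset (Fin n → ℕ)}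
    {τ : Finset (Fin r)} {w : R} : w ∈ raysIn a R τ ↔ rv R w ∈ H22.minCone a τ := by
  simp [raysIn]

open Classical in
/-- The upper simplices with `d` elements. -/
noncomputable def upT {n : ℕ} (R : Finset (Fin n → ℕ)) (h : R → ℝ) (G : Finset R) (d : ℕ) :
    Finset (Finset R) := univ.filter (fun σ => UpperOn (rv R) h G σ ∧ σ.card = d)

theorem mem_upT {n : ℕ} {R : Finset (Fin n → ℕ)} {h : R → ℝ} {G : Finset R} {d : ℕ}
    {σ : Finset R} : σ ∈ upT R h G d ↔ UpperOn (rv R) h G σ ∧ σ.card = d := by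
  simp [upT]

/-- The multiplicity of the cone of `σ`. -/
noncomputable def mulS {n : ℕ} {R : Finset (Fin n → ℕ)} (σ : Finset R) : ℕ :=
  H22.latIndex (fun (w : σ) (j : Fin n) => ((w.1.1 j : ℕ) : ℤ))

/-- `|w| + N(w) s`. -/
noncomputable def WW {n r : ℕ} (a : Fin r → (Fin n →₀ ℕ)) (w : Fin n → ℕ) : RatFunc ℂ :=
  (H22.wsum w : RatFunc ℂ) + (H22.wmin a w : RatFunc ℂ) * RatFunc.X

/-- `|w| + (c·w) s`. -/
noncomputable def VV {n : ℕ} (c : Fin n → ℕ) (w : Fin n → ℕ) : RatFunc ℂ :=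
  (H22.wsum w : RatFunc ℂ) + ((∑ j, c j * w j : ℕ) : RatFunc ℂ) * RatFunc.X

/-- The contribution of a simplicial cone to `J_τ`. -/
noncomputable def tm {n r : ℕ} (a : Fin r → (Fin n →₀ ℕ)) {R : Finset (Fin n → ℕ)}
    (σ : Finset R) : RatFunc ℂ := (mulS σ : RatFunc ℂ) * ∏ w ∈ σ, (WW a w.1)⁻¹

/-- The contribution of a simplicial cone to the integral of a linear form. -/
noncomputable def tmV {n : ℕ} (c : Fin n → ℕ) {R : Finset (Fin n → ℕ)}
    (σ : Finset R) : RatFunc ℂ := (mulS σ : RatFunc ℂ) * ∏ w ∈ σ, (VV c w.1)⁻¹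

/-- `w` is a critical facet normal. -/
def CritW {n r : ℕ} (a : Fin r → (Fin n →₀ ℕ)) (s0 : ℂ) (w : Fin n → ℕ) : Prop :=
  FacetNormal a w ∧ 0 < H22.wmin a w ∧ s0 = -(H22.wsum w : ℂ) / (H22.wmin a w : ℂ)

/-- `R` consists of facet normals, contains the unit vectors, and generates all cones `D_τ`. -/
structure RaySet {n r : ℕ} (a : Fin r → (Fin n →₀ ℕ)) (R : Finset (Fin n → ℕ)) : Prop where
  unit : ∀ k, eN k ∈ R
  facet : ∀ w ∈ R, FacetNormal a w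
  gen : ∀ τ : Finset (Fin r), τ.Nonempty → ∀ k ∈ H22.minCone a τ,
    k ∈ cCone (rv R) (raysIn a R τ)

/-- Generic heights `hp` with `e` on top, and `hm` with `e` at the bottom, which agree away
from `e`. -/
structure TopBot {ι κ : Type*} (v : ι → κ → ℝ) (e : ι) (hp hm : ι → ℝ) : Prop where
  same : ∀ i, i ≠ e → hp i = hm i
  genp : ∀ τ, GenericOn v hp τ
  genm : ∀ τ, GenericOn v hm τ
  top : ∀ σ : Finset ι, e ∉ σ → LinearIndepOn ℝ v (σ : Set ι) → ∀ β : ι → ℝ,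
    v e = ∑ i ∈ σ, β i • v i → ∑ i ∈ σ, β i * hp i < hp e
  bot : ∀ σ : Finset ι, e ∉ σ → LinearIndepOn ℝ v (σ : Set ι) → ∀ β : ι → ℝ,
    v e = ∑ i ∈ σ, β i • v i → hm e < ∑ i ∈ σ, β i * hm i
  topl : ∀ σ : Finset ι, e ∈ σ → LinearIndepOn ℝ v (σ : Set ι) → ∀ l, l ∉ σ → ∀ β : ι → ℝ,
    v l = ∑ i ∈ σ, β i • v i → 0 < β e → hp l < ∑ i ∈ σ, β i * hp i
  botl : ∀ σ : Finset ι, e ∈ σ → LinearIndepOn ℝ v (σ : Set ι) → ∀ l, l ∉ σ → ∀ β : ι → ℝ,
    v l = ∑ i ∈ σ, β i • v i → β e < 0 → hm l < ∑ i ∈ σ, β i * hm i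

open Classical in
/-- The faces not contained in the hyperplane `x_k = 0` whose cone contains a critical ray. -/
noncomputable def PP {n r : ℕ} (a : Fin r → (Fin n →₀ ℕ)) (R : Finset (Fin n → ℕ)) (s0 : ℂ)
    (k : Fin n) : Finset (Finset (Fin r)) :=
  univ.filter (fun τ => H22.IsFace a τ ∧ (∃ w ∈ R, CritW a s0 w ∧
    H22.toReal w ∈ H22.minCone a τ) ∧ ∃ i ∈ τ, a i k ≠ 0)

theorem mem_PP {n r : ℕ} {a : Fin r → (Fin n →₀ ℕ)} {R : Finset (Fin n → ℕ)} {s0 : ℂ}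
    {k : Fin n} {τ : Finset (Fin r)} : τ ∈ PP a R s0 k ↔ H22.IsFace a τ ∧
      (∃ w ∈ R, CritW a s0 w ∧ H22.toReal w ∈ H22.minCone a τ) ∧ ∃ i ∈ τ, a i k ≠ 0 := by
  simp [PP]

end Pool.Agent.H56.SMC
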