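import Pool.Agent.H56.SMC.ZNJ

/-!
# ZNJT: `J_τ` through the upper simplices

`jf_tri`: as in `H60.ConeExist.exists_cones_aux` the simplices of `upT` (enumerated by `Fin`, with `Finset.equivFinOfCardEq`) form a `FaceCones a τ` (disjointness `disjoint_oCone`; `cover` by `upT_cover`-like argument: if `D_τ` contains `d` independent vectors then `cover_upper` gives simplices with `d` elements); `ztb` gives `JfunG a τ 𝒟 = JfunG a τ` of this decomposition, and the sum is reindexed:
`coneMult` of the enumerated cone is `mulS σ` (same range of generators), the product over `Fin d` is the product over `σ`.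
-/

set_option autoImplicit false

namespace Pool.Agent.H56.SMC

open Finset H60.RegTri

/-- the positive linear form -/
theorem znjt_form_pos {n r : ℕ} (a : Fin r → (Fin n →₀ ℕ)) (R : Finset (Fin n → ℕ))
    (hR : RaySet a R) (w : R) :
    0 < (∑ i, (LinearMap.proj i : (Fin n → ℝ) →ₗ[ℝ] ℝ)) (rv R w) := by
  have h1 : (∑ i, (LinearMap.proj i : (Fin n → ℝ) →ₗ[ℝ] ℝ)) (rv R w) = ∑ i, (w.1 i : ℝ) := by
    rw [LinearMap.sum_apply]; rfl
  rw [h1]
  have hw0 : w.1 ≠ 0 := (hR.facet w.1 w.2).1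
  obtain ⟨i, hi⟩ : ∃ i, w.1 i ≠ 0 := by
    by_contra hno
    push Not at hno
    exact hw0 (funext hno)
  exact Finset.sum_pos' (fun _ _ => Nat.cast_nonneg _)
    ⟨i, Finset.mem_univ i, by exact_mod_cast Nat.pos_of_ne_zero hi⟩

/-- cover by simplices with `d` elements if `D_τ` contains `d` independent vectors -/
theorem znjt_cover {n r : ℕ} (a : Fin r → (Fin n →₀ ℕ)) (R : Finset (Fin n → ℕ))
    (hR : RaySet a R) (h : R → ℝ) (hh : ∀ τ, GenericOn (rv R) h τ) (τ : Finset (Fin r))
    (hτ : τ.Nonempty)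
    (hv : ∃ v : Fin (n + 1 - H22.faceRank a τ) → Fin n → ℝ, LinearIndependent ℝ v ∧
      ∀ c, v c ∈ H22.minCone a τ)
    (k : Fin n → ℝ) (hk : k ∈ H22.minCone a τ) :
    ∃ σ ∈ upT R h (raysIn a R τ) (n + 1 - H22.faceRank a τ), k ∈ cCone (rv R) σ := by
  classical
  obtain ⟨σ, hup, hfull, hkσ⟩ := cover_upper (rv R) h (raysIn a R τ)
    (∑ i, (LinearMap.proj i : (Fin n → ℝ) →ₗ[ℝ] ℝ)) (fun w _ => znjt_form_pos a R hR w)
    (hh _) k (hR.gen τ hτ k hk)
  refine ⟨σ, mem_upT.2 ⟨hup, ?_⟩, hkσ⟩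
  obtain ⟨v, hvind, hvmem⟩ := hv
  have hspan : Submodule.span ℝ (rv R '' (σ : Set R)) = Submodule.span ℝ (H22.minCone a τ) := by
    apply le_antisymm
    · apply Submodule.span_mono
      rintro _ ⟨w, hw, rfl⟩
      exact mem_raysIn.1 (hup.1 hw)
    · rw [Submodule.span_le]
      intro y hy
      obtain ⟨x, -, hx⟩ := hR.gen τ hτ y hy
      rw [hx]
      exact Submodule.sum_mem _ fun w hw => Submodule.smul_mem _ _ (hfull w hw)
  rw [H60.ConeExist.card_eq_finrank (rv R) σ hup.2.1, hspan]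
  apply le_antisymm (H60.ConeExist.finrank_span_minCone_le a τ hτ)
  have h1 := finrank_span_eq_card hvind
  rw [Fintype.card_fin] at h1
  refine h1.symm.le.trans ?_
  apply Submodule.finrank_mono
  apply Submodule.span_mono
  rintro _ ⟨c, rfl⟩
  exact hvmem c

/-- the multiplicity depends only on the set of generators -/
theorem znjt_latIndex {κ ι ι' : Type*} (v : ι → κ → ℤ) (v' : ι' → κ → ℤ)
    (h : Set.range v = Set.range v') : H22.latIndex v = H22.latIndex v' := by
  unfold H22.latIndex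
  rw [h]

/-- ZNJ -/
theorem jf_tri {n r : ℕ} (a : Fin r → (Fin n →₀ ℕ)) (R : Finset (Fin n → ℕ))
    (hR : RaySet a R) (h : R → ℝ) (hh : ∀ τ, GenericOn (rv R) h τ) (τ : Finset (Fin r))
    (hτ : τ.Nonempty) (hF : H22.IsFace a τ) (𝒟 : H22.FaceCones a τ) :
    H22.JfunG a τ 𝒟 = ∑ σ ∈ upT R h (raysIn a R τ) (n + 1 - H22.faceRank a τ), tm a σ := by
  classical
  set S : Finset (Finset R) := upT R h (raysIn a R τ) (n + 1 - H22.faceRank a τ) with hS
  have hup : ∀ σ ∈ S, UpperOn (rv R) h (raysIn a R τ) σ := fun σ hσ => (mem_upT.1 hσ).1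
  have hcard : ∀ σ ∈ S, σ.card = n + 1 - H22.faceRank a τ := fun σ hσ => (mem_upT.1 hσ).2
  let e : (C : Fin S.card) → ((S.equivFin.symm C).1 : Finset R) ≃
      Fin (n + 1 - H22.faceRank a τ) := fun C =>
    Finset.equivFinOfCardEq (hcard _ (S.equivFin.symm C).2)
  let W : (C : Fin S.card) → Fin (n + 1 - H22.faceRank a τ) → R := fun C c => ((e C).symm c).1
  have hWmem : ∀ C c, W C c ∈ (S.equivFin.symm C).1 := fun C c => ((e C).symm c).2
  have hsumW : ∀ (C : Fin S.card) (x : R → ℝ),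
      ∑ c, x (W C c) • rv R (W C c) = ∑ i ∈ (S.equivFin.symm C).1, x i • rv R i := by
    intro C x
    exact (Fintype.sum_equiv (e C).symm (fun c => x (W C c) • rv R (W C c))
      (fun i : ((S.equivFin.symm C).1 : Finset R) => x i • rv R i) (fun c => rfl)).trans
      (Finset.sum_coe_sort _ (fun i => x i • rv R i))
  have hfull : ∀ σ ∈ S, ∀ l ∈ raysIn a R τ,
      rv R l ∈ Submodule.span ℝ (rv R '' (σ : Set R)) := by
    intro σ hσ l hl
    exact upT_span a R τ hτ σ (hup σ hσ).1 (hup σ hσ).2.1 (hcard σ hσ) _ (mem_raysIn.1 hl)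
  let 𝒟' : H22.FaceCones a τ :=
    { m := S.card
      w := fun C c => (W C c).1
      mem := fun C c => mem_raysIn.1 ((hup _ (S.equivFin.symm C).2).1 (hWmem C c))
      indep := by
        intro C
        have h1 : LinearIndependent ℝ
            (fun i : ((S.equivFin.symm C).1 : Finset R) => rv R i) :=
          (hup _ (S.equivFin.symm C).2).2.1
        exact h1.comp _ (e C).symm.injective
      disj := by
        intro C C' hne
        have h1 := disjoint_oCone (rv R) h (raysIn a R τ) _ _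
          (hup _ (S.equivFin.symm C).2) (hfull _ (S.equivFin.symm C).2)
          (hup _ (S.equivFin.symm C').2) (hfull _ (S.equivFin.symm C').2) (by
            intro h
            exact hne (S.equivFin.symm.injective (Subtype.ext h)))
        have h2 : ∀ C, H22.openCone (fun c => H22.toReal (W C c).1) ⊆
            oCone (rv R) (S.equivFin.symm C).1 := by
          rintro C _ ⟨x, hx, rfl⟩
          refine ⟨fun i => if h : i ∈ (S.equivFin.symm C).1 then x (e C ⟨i, h⟩) else 0,
            fun i hi => ?_, ?_⟩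
          · simp only [hi, dif_pos]; exact hx _
          · rw [← hsumW C]
            refine Finset.sum_congr rfl fun c _ => ?_
            have h3 : W C c ∈ (S.equivFin.symm C).1 := hWmem C c
            have h4 : e C ⟨W C c, h3⟩ = c := by
              have : (⟨W C c, h3⟩ : ((S.equivFin.symm C).1 : Finset R)) = (e C).symm c := rfl
              rw [this, Equiv.apply_symm_apply]
            rw [dif_pos h3, h4]
            rfl
        exact Disjoint.mono (h2 C) (h2 C') h1
      cover := by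
        intro hv k hk
        obtain ⟨σ, hσ, x, hx, hxe⟩ := znjt_cover a R hR h hh τ hτ hv k hk
        refine ⟨S.equivFin ⟨σ, hσ⟩, fun c => x (W (S.equivFin ⟨σ, hσ⟩) c), fun c => ?_, ?_⟩
        · apply hx
          have h3 : W (S.equivFin ⟨σ, hσ⟩) c ∈ (S.equivFin.symm (S.equivFin ⟨σ, hσ⟩)).1 :=
            hWmem _ c
          rwa [Equiv.symm_apply_apply] at h3
        · rw [hxe]
          have h4 := hsumW (S.equivFin ⟨σ, hσ⟩) x
          rw [Equiv.symm_apply_apply] at h4
          exact h4.symm }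
  rw [ztb a τ hτ hF 𝒟 𝒟']
  have hR1 : ∑ σ ∈ S, tm a σ = ∑ C : Fin S.card, tm a (S.equivFin.symm C).1 := by
    rw [← Finset.sum_coe_sort S (fun σ => tm a σ)]
    exact (Equiv.sum_comp S.equivFin.symm (fun σ : S => tm a σ.1)).symm
  rw [hR1]
  unfold H22.JfunG
  refine Finset.sum_congr rfl fun C _ => ?_
  have hmul : H22.coneMult (𝒟'.w C) = mulS (S.equivFin.symm C).1 := by
    unfold H22.coneMult mulS
    apply znjt_latIndex
    ext y
    constructor
    · rintro ⟨c, rfl⟩
      exact ⟨(e C).symm c, rfl⟩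
    · rintro ⟨i, rfl⟩
      refine ⟨e C i, ?_⟩
      show (fun j => (((((e C).symm (e C i)).1).1 j : ℕ) : ℤ)) = _
      rw [Equiv.symm_apply_apply]
  have hprod : ∏ c, ((H22.wsum (𝒟'.w C c) : RatFunc ℂ) +
      (H22.wmin a (𝒟'.w C c) : RatFunc ℂ) * RatFunc.X)⁻¹ =
      ∏ w ∈ (S.equivFin.symm C).1, (WW a w.1)⁻¹ := by
    rw [← Finset.prod_coe_sort (S.equivFin.symm C).1 (fun w => (WW a w.1)⁻¹)]
    exact Fintype.prod_equiv (e C).symm
      (fun c => ((H22.wsum (𝒟'.w C c) : RatFunc ℂ) +
        (H22.wmin a (𝒟'.w C c) : RatFunc ℂ) * RatFunc.X)⁻¹)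
      (fun i : ((S.equivFin.symm C).1 : Finset R) => (WW a i.1.1)⁻¹) (fun c => rfl)
  unfold tm
  rw [hmul, hprod]

end Pool.Agent.H56.SMC
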