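import Pool.Agent.H56.SMC.ZNDefs

/-!
# ZNQ: faces in the hyperplane `x_k0 = 0` and pyramids over them

Notation: `e = eN k0`.  `B1 a w k0`: all exponents on the face of `w` have `a_k0 = 0`, except one, `p_w`, which has `a_k0 = 1`; `w k0 ≠ 0`.  If `toReal w ∈ minCone a τ` then every `i ∈ τ` is on the face of `w` (`H22.wmin_eq`).
`tm_reg`: a facet normal `w` has `wsum w > 0`, and `(wsum w) + (wmin a w) s0 = 0` would make it critical; `Reg.mul`, `Reg` of products by induction on the finset, `reg_inv_linear`, `reg_natCast`.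
`pp_apex`: `τ` is contained in the face of a critical `w`; so exactly one element of `τ` has `a_k0 ≠ 0`, and it has `a_k0 = 1`.
`pp_base`: if `k` is a weight vector with minimal set exactly `τ`, then `k + e` has the minimal set `τ.filter (a_k0 = 0)`: the values are `m` on it, `m + 1` at the apex, and `> m` for `i ∉ τ`.
`pp_vertex`: `τ = {p, q}` with `a_p k0 = 1`, `a_q k0 = 0`, `w` critical with `p, q` on its face: `a_p·w = a_q·w` and `w k0 > 0`, so there is `j` with `a_q j > a_p j`; if `k` has minimal set `{p, q}` then `k + ε e_j` has the minimal set `{p}` for small `ε > 0`.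
-/

set_option autoImplicit false

namespace Pool.Agent.H56.SMC

open Finset H60.RegTri

theorem tm_reg {n r : ℕ} (a : Fin r → (Fin n →₀ ℕ)) (R : Finset (Fin n → ℕ)) (hR : RaySet a R)
    (s0 : ℂ) (σ : Finset R) (h : ∀ w ∈ σ, ¬ CritW a s0 w.1) : H37.SM.Reg s0 (tm a σ) := by
  classical
  have hprod : ∀ T : Finset R, (∀ w ∈ T, ¬ CritW a s0 w.1) →
      H37.SM.Reg s0 (∏ w ∈ T, (WW a w.1)⁻¹) := by
    intro T
    induction T using Finset.induction_on with
    | empty =>
      intro _
      rw [Finset.prod_empty]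
      have := H37.SM.reg_natCast (s0 := s0) 1
      rwa [Nat.cast_one] at this
    | insert w T hw ih =>
      intro hT
      rw [Finset.prod_insert hw]
      refine H37.SM.Reg.mul ?_ (ih fun u hu => hT u (Finset.mem_insert_of_mem hu))
      refine H37.SM.reg_inv_linear _ _ ?_
      intro h0
      have hf : FacetNormal a w.1 := hR.facet w.1 w.2
      have hpos : 0 < H22.wsum w.1 := by
        obtain ⟨j, hj⟩ := Function.ne_iff.1 hf.1
        have hj' : 0 < w.1 j := Nat.pos_of_ne_zero hj
        exact lt_of_lt_of_le hj' (Finset.single_le_sum (f := w.1) (fun _ _ => Nat.zero_le _)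
          (Finset.mem_univ j))
      have hmin : 0 < H22.wmin a w.1 := by
        rcases Nat.eq_zero_or_pos (H22.wmin a w.1) with h1 | h1
        · exfalso
          rw [h1] at h0
          simp at h0
          omega
        · exact h1
      refine hT w (Finset.mem_insert_self w T) ⟨hf, hmin, ?_⟩
      have hne : (H22.wmin a w.1 : ℂ) ≠ 0 := by exact_mod_cast hmin.ne'
      rw [eq_div_iff hne]
      linear_combination h0
  exact H37.SM.Reg.mul (H37.SM.reg_natCast _) (hprod σ h)

theorem pp_apex {n r : ℕ} (a : Fin r → (Fin n →₀ ℕ)) (R : Finset (Fin n → ℕ)) (s0 : ℂ)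
    (k0 : Fin n) (τ : Finset (Fin r)) (hτ : τ ∈ PP a R s0 k0)
    (hcrit : ∀ w ∈ R, CritW a s0 w → H22.toReal w ∈ H22.minCone a τ → B1 a w k0) :
    ∃ p ∈ τ, a p k0 = 1 ∧ ∀ i ∈ τ, i ≠ p → a i k0 = 0 := by
  obtain ⟨-, ⟨w, hw, hc, hm⟩, i0, hi0, hne⟩ := mem_PP.1 hτ
  obtain ⟨-, i1, -, h2, h3⟩ := hcrit w hw hc hm
  have hon : ∀ i ∈ τ, ∑ j, a i j * w j = H22.wmin a w := fun i hi => (H22.wmin_eq hm hi).symm
  have e : i0 = i1 := by
    by_contra hc'
    exact hne (h3 i0 (hon i0 hi0) hc')
  subst e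
  exact ⟨i0, hi0, h2, fun i hi hn => h3 i (hon i hi) hn⟩

theorem pp_base {n r : ℕ} (a : Fin r → (Fin n →₀ ℕ)) (R : Finset (Fin n → ℕ)) (s0 : ℂ)
    (k0 : Fin n) (τ : Finset (Fin r)) (hτ : τ ∈ PP a R s0 k0)
    (hne : (τ.filter (fun i => a i k0 = 0)).Nonempty) :
    H22.IsFace a (τ.filter (fun i => a i k0 = 0)) := by
  classical
  obtain ⟨⟨k, hk0, hk⟩, -, -⟩ := mem_PP.1 hτ
  obtain ⟨i0, hi0⟩ := hne
  rw [Finset.mem_filter] at hi0
  have hsum : ∀ l, ∑ j, (a l j : ℝ) * (k j + (Pi.single k0 1 : Fin n → ℝ) j) =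
      ∑ j, (a l j : ℝ) * k j + (a l k0 : ℝ) := by
    intro l
    simp only [mul_add, Finset.sum_add_distrib]
    congr 1
    rw [Finset.sum_eq_single k0]
    · simp
    · intro b _ hb
      rw [Pi.single_eq_of_ne hb, mul_zero]
    · intro h
      exact absurd (Finset.mem_univ _) h
  refine ⟨fun j => k j + (Pi.single k0 1 : Fin n → ℝ) j, fun j => ?_, fun l => ?_⟩
  · have h1 : (0 : ℝ) ≤ (Pi.single k0 1 : Fin n → ℝ) j := by
      by_cases h : j = k0
      · subst h
        simp
      · rw [Pi.single_eq_of_ne h]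
    have := hk0 j
    positivity
  · simp only [hsum]
    rw [Finset.mem_filter]
    constructor
    · rintro ⟨h1, h2⟩ l'
      have h3 := (hk l).1 h1 l'
      have h4 : (0 : ℝ) ≤ a l' k0 := Nat.cast_nonneg _
      rw [h2]
      push_cast
      linarith
    · intro h
      have h3 := h i0
      have h5 := (hk i0).1 hi0.1 l
      rw [hi0.2] at h3
      push_cast at h3
      have h6 : (0 : ℝ) ≤ a l k0 := Nat.cast_nonneg _
      have h7 : (a l k0 : ℝ) = 0 := by linarith
      have h8 : a l k0 = 0 := by exact_mod_cast h7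
      refine ⟨(hk l).2 fun l' => ?_, h8⟩
      have := (hk i0).1 hi0.1 l'
      linarith

theorem pp_vertex {n r : ℕ} (a : Fin r → (Fin n →₀ ℕ)) (s0 : ℂ)
    (k0 : Fin n) (p q : Fin r) (hF : H22.IsFace a {p, q}) (w : Fin n → ℕ)
    (hw : H22.toReal w ∈ H22.minCone a {p, q}) (hk : w k0 ≠ 0) (hp : a p k0 = 1)
    (hq : a q k0 = 0) : H22.IsFace a {p} := by
  classical
  obtain ⟨k, hk0, hkk⟩ := hF
  have hpq : p ≠ q := by
    rintro rfl
    omega
  have e1 : ∑ j, a p j * w j = ∑ j, a q j * w j := by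
    have h1 := H22.wmin_eq hw (i := p) (by simp)
    have h2 := H22.wmin_eq hw (i := q) (by simp)
    rw [← h1, ← h2]
  obtain ⟨j, hj⟩ : ∃ j, a p j < a q j := by
    by_contra hcon
    push Not at hcon
    have h3 : ∑ j, a q j * w j < ∑ j, a p j * w j := by
      refine Finset.sum_lt_sum (fun j _ => Nat.mul_le_mul_right _ (hcon j)) ⟨k0, Finset.mem_univ _, ?_⟩
      rw [hp, hq]
      have := Nat.pos_of_ne_zero hk
      omega
    omega
  have hpm : ∀ l', ∑ i, (a p i : ℝ) * k i ≤ ∑ i, (a l' i : ℝ) * k i := (hkk p).1 (by simp)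
  have hqm : ∀ l', ∑ i, (a q i : ℝ) * k i ≤ ∑ i, (a l' i : ℝ) * k i := (hkk q).1 (by simp)
  have hlt : ∀ l, l ≠ p → l ≠ q → ∑ i, (a p i : ℝ) * k i < ∑ i, (a l i : ℝ) * k i := by
    intro l h1 h2
    refine lt_of_le_of_ne (hpm l) fun h3 => ?_
    have h4 : l ∈ ({p, q} : Finset (Fin r)) := (hkk l).2 fun l' => by
      rw [← h3]
      exact hpm l'
    simp at h4
    tauto
  obtain ⟨ε, hε0, hε⟩ : ∃ ε : ℝ, 0 < ε ∧ ∀ l, l ≠ p → l ≠ q →
      ∑ i, (a p i : ℝ) * k i + ε * a p j < ∑ i, (a l i : ℝ) * k i := by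
    have hev : ∀ l, ∀ᶠ ε : ℝ in nhdsWithin 0 (Set.Ioi 0), l ≠ p → l ≠ q →
        ∑ i, (a p i : ℝ) * k i + ε * a p j < ∑ i, (a l i : ℝ) * k i := by
      intro l
      by_cases h1 : l = p
      · exact Filter.Eventually.of_forall fun _ h => absurd h1 h
      by_cases h2 : l = q
      · exact Filter.Eventually.of_forall fun _ _ h => absurd h2 h
      have h3 : Filter.Tendsto (fun ε : ℝ => ∑ i, (a p i : ℝ) * k i + ε * a p j)
          (nhdsWithin 0 (Set.Ioi 0)) (nhds (∑ i, (a p i : ℝ) * k i + 0 * a p j)) :=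
        ((continuous_const.add (continuous_id.mul continuous_const)).tendsto 0).mono_left
          nhdsWithin_le_nhds
      rw [zero_mul, add_zero] at h3
      filter_upwards [h3.eventually (gt_mem_nhds (hlt l h1 h2))] with ε h4 _ _
      exact h4
    have hall := Filter.eventually_all.2 hev
    obtain ⟨ε, h1, h2⟩ := (hall.and self_mem_nhdsWithin).exists
    exact ⟨ε, h2, h1⟩
  have hsum : ∀ l, ∑ i, (a l i : ℝ) * (k i + (Pi.single j ε : Fin n → ℝ) i) =
      ∑ i, (a l i : ℝ) * k i + ε * (a l j : ℝ) := by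
    intro l
    simp only [mul_add, Finset.sum_add_distrib]
    congr 1
    rw [Finset.sum_eq_single j]
    · simp [mul_comm]
    · intro b _ hb
      rw [Pi.single_eq_of_ne hb, mul_zero]
    · intro h
      exact absurd (Finset.mem_univ _) h
  have hjR : (a p j : ℝ) < a q j := by exact_mod_cast hj
  refine ⟨fun i => k i + (Pi.single j ε : Fin n → ℝ) i, fun i => ?_, fun l => ?_⟩
  · have h1 : (0 : ℝ) ≤ (Pi.single j ε : Fin n → ℝ) i := by
      by_cases h : i = j
      · subst h
        simp [hε0.le]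
      · rw [Pi.single_eq_of_ne h]
    have := hk0 i
    positivity
  · simp only [hsum]
    rw [Finset.mem_singleton]
    constructor
    · rintro rfl l'
      by_cases h1 : l' = l
      · subst h1
        exact le_rfl
      by_cases h2 : l' = q
      · subst h2
        have h3 := hpm l'
        have h4 : ε * (a l j : ℝ) ≤ ε * (a l' j : ℝ) := mul_le_mul_of_nonneg_left hjR.le hε0.le
        linarith
      · have h3 := hε l' h1 h2
        have h4 : (0 : ℝ) ≤ ε * (a l' j : ℝ) := by positivity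
        linarith
    · intro h
      by_contra hlp
      have h3 := h p
      by_cases h2 : l = q
      · subst h2
        have h4 := hqm p
        have h5 := hpm l
        have h6 : ε * (a p j : ℝ) < ε * (a l j : ℝ) := mul_lt_mul_of_pos_left hjR hε0
        linarith
      · have h4 := hε l hlp h2
        have h5 : (0 : ℝ) ≤ ε * (a l j : ℝ) := by positivity
        linarith

end Pool.Agent.H56.SMC
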