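import Pool.Agent.H56.SMC.CfgDefs
import Pool.Agent.H22.Weyl

/-!
# BFA: the functional equation as an identity in the Laurent polynomial ring

Proof.  Let `F = toL f`.  Claim 1: for `k : ℕ`, `k + 1 ≥ |L|`, over `ℂ`: `∂_L F^{k+1} = F^{k+1-|L|} * GG F k L`, where `∂_L` is the composition of the `dL j`, `j ∈ L` (head of the list applied last): induction on `L`, Leibniz rule
(`dL j` is a derivation).  `toL` intertwines `pderiv j` and `dL j`, so `toL (diffPow β g) = ∂_{lst β} (toL g)`.
Claim 2 (over `A = ℂ[S]`, `s = S`): both sides have coefficients in `ℂ[S]`; evaluate at `S = k` for all `k ≥ R` (`GG` is compatible with ring homomorphisms of the coefficients): multiply by `F^{k+1-R}`: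
`∑_β p_β(k) GG F k (lst β) F^{k+1-|β|} = ∑_β p_β(k) ∂^β F^{k+1} = b(k) F^k` by `hfe`; cancel `F^{k+1-R}` (if `F = 0` both sides are `0` for `R ≥ 2`: `GG 0 s L = 0` for `L` not empty).  A polynomial in `S` with infinitely
many zeros vanishes.  Claim 3: general `A`, `s`: apply the homomorphism `ℂ[S] → A`, `S ↦ s`, to the coefficients.
-/

set_option autoImplicit false

namespace Pool.Agent.H56.SMC

open Finset AddMonoidAlgebra

section

variable {R R' : Type} [CommRing R] [CommRing R'] {n : ℕ}

theorem bfa_lmap_zero (φ : R →+* R') : lmap φ (0 : LP R n) = 0 := by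
  apply lp_ext; intro u; rw [lmap_coeff, coeff_zero', map_zero, coeff_zero']

theorem bfa_lmap_single (φ : R →+* R') (v : Lat n) (r : R) :
    lmap φ (single v r : LP R n) = single v (φ r) := by
  apply lp_ext; intro u
  rw [lmap_coeff, coeff_single', coeff_single']
  split_ifs
  · rfl
  · exact map_zero φ

theorem bfa_lmap_mul (φ : R →+* R') (x y : LP R n) :
    lmap φ (x * y) = lmap φ x * lmap φ y := by
  induction x using AddMonoidAlgebra.induction_linear with
  | zero => rw [zero_mul, bfa_lmap_zero, zero_mul]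
  | add x x' hx hx' => rw [add_mul, lmap_add, hx, hx', lmap_add, add_mul]
  | single v r =>
    apply lp_ext; intro u
    rw [bfa_lmap_single, lmap_coeff, single_mul_coeff, single_mul_coeff, map_mul, lmap_coeff]

theorem bfa_lmap_one (φ : R →+* R') : lmap φ (1 : LP R n) = 1 := by
  rw [AddMonoidAlgebra.one_def, bfa_lmap_single, map_one, AddMonoidAlgebra.one_def]

/-- `lmap` as a ring homomorphism. -/
noncomputable def bfaMap (φ : R →+* R') : LP R n →+* LP R' n where
  toFun := lmap φ
  map_one' := bfa_lmap_one φ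
  map_mul' := bfa_lmap_mul φ
  map_zero' := bfa_lmap_zero φ
  map_add' := lmap_add φ

theorem bfaMap_apply (φ : R →+* R') (x : LP R n) : bfaMap φ x = lmap φ x := rfl

theorem bfa_lmap_pow (φ : R →+* R') (x : LP R n) (k : ℕ) :
    lmap φ (x ^ k) = lmap φ x ^ k := map_pow (bfaMap φ) x k

theorem bfa_dg_add (φ : Lat n → R) (x y : LP R n) : dg φ (x + y) = dg φ x + dg φ y := by
  apply lp_ext; intro u; simp only [dg_coeff, coeff_add', mul_add]

theorem bfa_dg_mul (j : Fin n) (x y : LP R n) :
    dg (fun u => (u j : R)) (x * y) =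
      dg (fun u => (u j : R)) x * y + x * dg (fun u => (u j : R)) y := by
  induction x using AddMonoidAlgebra.induction_linear with
  | zero =>
    have : dg (fun u : Lat n => (u j : R)) 0 = 0 := by
      apply lp_ext; intro u; simp only [dg_coeff, coeff_zero', mul_zero]
    rw [zero_mul, this, zero_mul, zero_mul, add_zero]
  | add x x' hx hx' => rw [add_mul, bfa_dg_add, hx, hx', bfa_dg_add]; ring
  | single v r =>
    have h1 : dg (fun u : Lat n => (u j : R)) (single v r) = single v ((v j : R) * r) := by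
      apply lp_ext; intro u
      rw [dg_coeff, coeff_single', coeff_single']
      split_ifs with h
      · rw [h]
      · rw [mul_zero]
    rw [h1]
    apply lp_ext; intro u
    rw [dg_coeff, single_mul_coeff, coeff_add', single_mul_coeff, single_mul_coeff, dg_coeff]
    simp only [Pi.sub_apply, Int.cast_sub]
    ring

theorem bfa_dL_mul (j : Fin n) (x y : LP R n) : dL j (x * y) = dL j x * y + x * dL j y := by
  unfold dL
  rw [bfa_dg_mul]
  ring

theorem bfa_dL_add (j : Fin n) (x y : LP R n) : dL j (x + y) = dL j x + dL j y := by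
  unfold dL
  rw [bfa_dg_add, mul_add]

theorem bfa_dL_single (j : Fin n) (v : Lat n) (r : R) :
    dL j (single v r : LP R n) = single (v - ev j) ((v j : R) * r) := by
  unfold dL
  apply lp_ext; intro u
  rw [single_mul_coeff, dg_coeff, coeff_single', coeff_single', one_mul, sub_neg_eq_add]
  by_cases h : u + ev j = v
  · rw [if_pos h, if_pos (eq_sub_of_add_eq h), h]
  · rw [if_neg h, if_neg (fun h' => h (by rw [h', sub_add_cancel])), mul_zero]

theorem bfa_dL_one (j : Fin n) : dL j (1 : LP R n) = 0 := by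
  rw [AddMonoidAlgebra.one_def, bfa_dL_single]
  simp

theorem bfa_natCast_smul (m : ℕ) (x : LP R n) : (m : R) • x = (m : LP R n) * x := by
  rw [Nat.cast_smul_eq_nsmul, nsmul_eq_mul]

theorem bfa_dL_pow (j : Fin n) (x : LP R n) (k : ℕ) :
    dL j (x ^ (k + 1)) = ((k + 1 : ℕ) : LP R n) * (x ^ k * dL j x) := by
  induction k with
  | zero => simp
  | succ k ih =>
    rw [pow_succ x (k + 1), bfa_dL_mul, ih]
    push_cast
    ring

theorem bfa_dL_lmap (φ : R →+* R') (j : Fin n) (x : LP R n) :
    lmap φ (dL j x) = dL j (lmap φ x) := by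
  apply lp_ext; intro u
  unfold dL
  rw [lmap_coeff, single_mul_coeff, single_mul_coeff, dg_coeff, dg_coeff, lmap_coeff]
  simp only [map_mul, map_one, map_intCast]

theorem bfa_GG_lmap (φ : R →+* R') (F : LP R n) (s : R) (L : List (Fin n)) :
    lmap φ (GG F s L) = GG (lmap φ F) (φ s) L := by
  induction L with
  | nil => exact bfa_lmap_one φ
  | cons j L ih =>
    simp only [GG]
    rw [lmap_add, bfa_lmap_mul, lmap_smul, bfa_lmap_mul, bfa_dL_lmap, bfa_dL_lmap, ih]
    simp only [map_sub, map_add, map_one, map_natCast]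

/-- Claim 1 -/
theorem bfa_claim1 (F : LP R n) (k : ℕ) (L : List (Fin n)) (hL : L.length ≤ k + 1) :
    L.foldr dL (F ^ (k + 1)) = F ^ (k + 1 - L.length) * GG F (k : R) L := by
  induction L with
  | nil => simp [GG]
  | cons j L ih =>
    rw [List.length_cons] at hL
    obtain ⟨m, hm⟩ : ∃ m, k = L.length + m := ⟨k - L.length, by omega⟩
    rw [List.foldr_cons, ih (by omega), List.length_cons]
    rw [show k + 1 - L.length = m + 1 by omega, show k + 1 - (L.length + 1) = m by omega,
      bfa_dL_mul, bfa_dL_pow]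
    simp only [GG]
    have h1 : ((k : R) + 1 - (L.length : R)) = ((m + 1 : ℕ) : R) := by
      rw [hm]; push_cast; ring
    rw [h1, bfa_natCast_smul]
    ring

theorem bfa_toL_C (c : R) : toL (n := n) R (MvPolynomial.C c) = single 0 c := by
  unfold toL
  rw [AlgHom.toRingHom_eq_coe, RingHom.coe_coe, MvPolynomial.aeval_C]
  rfl

theorem bfa_toL_X (j : Fin n) : toL R (MvPolynomial.X j) = (single (ev j) 1 : LP R n) := by
  unfold toL
  rw [AlgHom.toRingHom_eq_coe, RingHom.coe_coe, MvPolynomial.aeval_X]

theorem bfa_toL_pderiv (j : Fin n) (p : MvPolynomial (Fin n) R) :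
    toL R (MvPolynomial.pderiv j p) = dL j (toL R p) := by
  induction p using MvPolynomial.induction_on with
  | C a =>
    rw [MvPolynomial.pderiv_C, map_zero, bfa_toL_C, bfa_dL_single]
    simp
  | add p q hp hq => rw [map_add, map_add, hp, hq, map_add, bfa_dL_add]
  | mul_X p i hp =>
    rw [Derivation.leibniz, map_add, smul_eq_mul, smul_eq_mul, map_mul, map_mul, map_mul,
      bfa_dL_mul, hp]
    have h : toL R (MvPolynomial.pderiv j (MvPolynomial.X i)) =
        dL j (toL R (MvPolynomial.X i) : LP R n) := by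
      rw [bfa_toL_X, bfa_dL_single, MvPolynomial.pderiv_X]
      by_cases hij : i = j
      · subst hij
        rw [Pi.single_eq_same, map_one, sub_self, ev, Pi.single_eq_same, Int.cast_one, mul_one]
        rfl
      · rw [Pi.single_eq_of_ne hij, map_zero, ev, Pi.single_eq_of_ne (Ne.symm hij), Int.cast_zero,
          zero_mul, AddMonoidAlgebra.single_zero]
    rw [h]
    ring

theorem bfa_toL_map (φ : R →+* R') (p : MvPolynomial (Fin n) R) :
    lmap φ (toL R p) = toL R' (MvPolynomial.map φ p) := by
  induction p using MvPolynomial.induction_on with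
  | C a => rw [bfa_toL_C, bfa_lmap_single, MvPolynomial.map_C, bfa_toL_C]
  | add p q hp hq => rw [map_add, lmap_add, hp, hq, map_add, map_add]
  | mul_X p i hp =>
    rw [map_mul, bfa_lmap_mul, hp, map_mul, map_mul, MvPolynomial.map_X, bfa_toL_X, bfa_toL_X,
      bfa_lmap_single, map_one]

end

theorem bfa_toL_diffPow {n : ℕ} (β : Fin n →₀ ℕ) (g : MvPolynomial (Fin n) ℂ) :
    toL ℂ (H22.diffPow β g) = (lst β).foldr dL (toL ℂ g) := by
  have key : ∀ l : List (Fin n), toL ℂ ((l.map fun j =>
      ((MvPolynomial.pderiv j : Derivation ℂ (MvPolynomial (Fin n) ℂ)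
        (MvPolynomial (Fin n) ℂ)).toLinearMap) ^ (β j)).prod g) =
      (l.flatMap (fun j => List.replicate (β j) j)).foldr dL (toL ℂ g) := by
    intro l
    induction l with
    | nil => rfl
    | cons j l ih =>
      rw [List.map_cons, List.prod_cons, Module.End.mul_apply, List.flatMap_cons,
        List.foldr_append, ← ih]
      generalize ((l.map fun j => ((MvPolynomial.pderiv j : Derivation ℂ (MvPolynomial (Fin n) ℂ)
        (MvPolynomial (Fin n) ℂ)).toLinearMap) ^ (β j)).prod g) = h
      generalize β j = m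
      induction m with
      | zero => rfl
      | succ m ih2 =>
        rw [pow_succ', Module.End.mul_apply, List.replicate_succ, List.foldr_cons, ← ih2]
        exact bfa_toL_pderiv j _
  exact key _

/-- BFA -/
theorem bfa {n : ℕ} (f : MvPolynomial (Fin n) ℂ) (b : Polynomial ℂ) (P : H22.WeylS n)
    (hfe : H22.FunctionalEquation f b P) :
    ∃ R : ℕ, 0 < R ∧ (∀ β ∈ P.support, (lst β).length ≤ R) ∧
      ∀ (A : Type) [CommRing A] [Algebra ℂ A] (s : A),
        ∑ β ∈ P.support, toL A (MvPolynomial.map (Polynomial.aeval s : Polynomial ℂ →ₐ[ℂ] A).toRingHom (P β)) *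
          GG (lmap (algebraMap ℂ A) (toL ℂ f)) s (lst β) *
            (lmap (algebraMap ℂ A) (toL ℂ f)) ^ (R - (lst β).length) =
        (Polynomial.aeval s b : A) • (lmap (algebraMap ℂ A) (toL ℂ f)) ^ (R - 1) := by
  classical
  set F : LP ℂ n := toL ℂ f with hF
  set R : ℕ := (P.support.sup (fun β => (lst β).length)) + 2 with hR
  have hle : ∀ β ∈ P.support, (lst β).length + 2 ≤ R := by
    intro β hβ
    have := Finset.le_sup (f := fun β => (lst β).length) hβ
    omega
  refine ⟨R, by omega, fun β hβ => by have := hle β hβ; omega, ?_⟩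
  -- the difference over `ℂ[S]`
  set F1 : LP (Polynomial ℂ) n := lmap Polynomial.C F with hF1
  set Φ : LP (Polynomial ℂ) n := ∑ β ∈ P.support, toL (Polynomial ℂ) (P β) *
      GG F1 Polynomial.X (lst β) * F1 ^ (R - (lst β).length) - b • F1 ^ (R - 1) with hΦ
  have hmap : ∀ (A : Type) [CommRing A] (φ : Polynomial ℂ →+* A),
      lmap φ Φ = ∑ β ∈ P.support, toL A (MvPolynomial.map φ (P β)) *
        GG (lmap (φ.comp Polynomial.C) F) (φ Polynomial.X) (lst β) *
          (lmap (φ.comp Polynomial.C) F) ^ (R - (lst β).length) -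
        φ b • (lmap (φ.comp Polynomial.C) F) ^ (R - 1) := by
    intro A _ φ
    have h1 : lmap φ F1 = lmap (φ.comp Polynomial.C) F := by
      apply lp_ext; intro u
      rw [hF1, lmap_coeff, lmap_coeff, lmap_coeff]
      rfl
    rw [hΦ, lmap_sub, lmap_sum, lmap_smul, bfa_lmap_pow, h1]
    congr 1
    refine sum_congr rfl fun β _ => ?_
    rw [bfa_lmap_mul, bfa_lmap_mul, bfa_lmap_pow, bfa_GG_lmap, bfa_toL_map, h1]
  have hzero : ∀ k : ℕ, R ≤ k → lmap (Polynomial.evalRingHom (k : ℂ)) Φ = 0 := by
    intro k hk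
    have e1 : (Polynomial.evalRingHom (k : ℂ)).comp Polynomial.C = RingHom.id ℂ := by
      ext x <;> simp
    have e2 : lmap (RingHom.id ℂ) F = F := by
      apply lp_ext; intro u; rfl
    rw [hmap, e1, e2]
    have e3 : Polynomial.evalRingHom (k : ℂ) Polynomial.X = (k : ℂ) := by simp
    have e4 : Polynomial.evalRingHom (k : ℂ) b = b.eval (k : ℂ) := rfl
    rw [e3, e4]
    by_cases hF0 : F = 0
    · rw [hF0, zero_pow (by omega), smul_zero, sub_zero]
      refine sum_eq_zero fun β hβ => ?_
      have := hle β hβ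
      rw [zero_pow (by omega), mul_zero]
    · have hne : F ^ (k + 1 - R) ≠ 0 := pow_ne_zero _ hF0
      apply (mul_eq_zero.1 (?_ : F ^ (k + 1 - R) * _ = 0)).resolve_left hne
      rw [mul_sub, sub_eq_zero, mul_sum]
      have h2 := congrArg (toL ℂ) (hfe k)
      unfold H22.WeylS.act at h2
      rw [Finsupp.sum, map_sum] at h2
      have h3 : toL ℂ (MvPolynomial.C (b.eval (k : ℂ)) * f ^ k) =
          F ^ (k + 1 - R) * (b.eval (k : ℂ) • F ^ (R - 1)) := by
        rw [map_mul, map_pow, bfa_toL_C, ← hF, mul_smul_comm, ← pow_add,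
          show k + 1 - R + (R - 1) = k by omega]
        apply lp_ext; intro u
        rw [single_mul_coeff, coeff_smul', sub_zero]
      rw [← h3, ← h2]
      refine sum_congr rfl fun β hβ => ?_
      have hb := hle β hβ
      rw [map_mul, bfa_toL_diffPow, map_pow, ← hF, bfa_claim1 F k (lst β) (by omega)]
      have h5 : F ^ (k + 1 - (lst β).length) =
          F ^ (k + 1 - R) * F ^ (R - (lst β).length) := by
        rw [← pow_add]; congr 1; omega
      rw [h5]
      ring
  have hΦ0 : Φ = 0 := by
    apply lp_ext; intro u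
    rw [coeff_zero']
    apply Polynomial.eq_zero_of_infinite_isRoot
    have hinj : Function.Injective (fun k : ℕ => ((R + k : ℕ) : ℂ)) := by
      intro x y hxy
      have : (R + x : ℕ) = R + y := Nat.cast_injective (R := ℂ) hxy
      omega
    refine Set.infinite_of_injective_forall_mem hinj fun k => ?_
    have h6 := congrArg (fun z : LP ℂ n => z.coeff u) (hzero (R + k) (by omega))
    simp only [lmap_coeff, coeff_zero'] at h6
    exact h6
  intro A _ _ s
  have h7 := hmap A (Polynomial.aeval s : Polynomial ℂ →ₐ[ℂ] A).toRingHom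
  rw [hΦ0, bfa_lmap_zero] at h7
  have e5 : ((Polynomial.aeval s : Polynomial ℂ →ₐ[ℂ] A).toRingHom).comp Polynomial.C =
      algebraMap ℂ A := by
    ext x
    simp
  have e6 : (Polynomial.aeval s : Polynomial ℂ →ₐ[ℂ] A).toRingHom Polynomial.X = s := by simp
  rw [e5, e6] at h7
  exact sub_eq_zero.1 h7.symm

end Pool.Agent.H56.SMC
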