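import Pool.Agent.H56.SMC.KEXG

/-!
# FSTEP: a class on a facet of a face gives a class on the face

`NotIn a c H z`: `z` is not in the submodule generated by the symbols of the face `{H = 0}` in the module of its interior lattice points.
Proof.  Faces `T' = {dt H' (a i) = 0} ⊆ T = {dt H (a i) = 0}` (`hsub`).  Choose a maximal independent family `e' : Fin s → ι` in `T'` and functionals `ℓ' : Fin s → Lat d` (e.g. suitable `ev j`) which are a basis (over `ℚ`) of the functionals
restricted to `T'` (`hℓ` of `kexg` for `T'`).  By `hrank` the functionals `ℓ'_1, …, ℓ'_s, H'` have the property `hℓ` for `T` (given `g`, subtract a combination of the `ℓ'` so that it vanishes on `T'`), and `e'` together with `i1` (`hstrict`) is independent.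
Suppose `gs a (cF a c H) H' * z = ∑_j gs a (cF a c H) (ev j) * z_j` with `z_j` supported in `Om a H`; rewrite the right side as `∑_{k<s} g_k w_k + g' w'` with `g_k = gs a (cF a c H) (ℓ'_k)`, `g' = gs a (cF a c H) H'`, `w_k`, `w'` supported in `Om a H`.
So `∑ g_k (-w_k) + g' (z - w') = 0`, a relation in the module `M = {u : m0 u + y0 ∈ Sset h, dt H u = 0}`, `y0 = -∑_{i∈T'} a i`, `m0` large: for a functional `h v` not vanishing on `T'` `dt (h v) u ≥ 1` on `Om a H` and on `Om a H'`, so `m0 dt (h v) u ≥ dt (h v) (∑_{T'} a i)`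
if `m0` is larger than all `dt (h v) (∑_{T'} a i)`; for `h v` vanishing on `T'` `dt (h v) y0 = 0`.  `kexg` gives `z - w' = ∑_{k<s} g_k y_k` (`+ g' * y` with `y` the diagonal entry, `0` by antisymmetry) with `y_k` supported in `M`.  Take the part with `dt H' u = 0`: `w'` has `dt H' u ≥ 1` (`H'` does not vanish on `T`), so
`z = ∑_k gs a (cF a c H') (ℓ'_k) * ȳ_k`, `ȳ_k` supported in `M ∩ {dt H' u = 0} ⊆ Om a H'`: let `u` be in it and `h''` any functional nonnegative on the `a i`; `hfac` (for `m0 u + y0`, and `m0 u = (m0 u + y0) - y0`) gives `N m0 u = ∑ n_i a_i` with `n_i > 0` for `i ∈ T'`, and `n_i = 0` for `i ∉ T'` because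
`dt H' u = 0`; so `dt h'' u ≥ 0`, `= 0` iff `h''` vanishes on `T'`.  Finally `gs a (cF a c H') (ℓ'_k)` is an integral combination of the `gs a (cF a c H') (ev j)`.
-/

set_option autoImplicit false

namespace Pool.Agent.H56.SMC

open Finset AddMonoidAlgebra

/-- `z` is not a combination of the symbols of the face `{H = 0}` with coefficients in its
interior module. -/
def NotIn {d : ℕ} {ι : Type} [Fintype ι] (a : ι → Lat d) (c : ι → ℂ) (H : Lat d) (z : LP ℂ d) :
    Prop :=
  ¬ ∃ y : Fin d → LP ℂ d, (∀ j, Supp {u | Om a H u} (y j)) ∧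
    z = ∑ j, gs a (cF a c H) (ev j) * y j

namespace FSTEPaux

theorem exists_max_family {d : ℕ} {ι : Type} (a : ι → Lat d) (P : ι → Prop) :
    ∃ (s : ℕ) (e : Fin s → ι), (∀ k, P (e k)) ∧ LinearIndependent ℤ (fun k => a (e k)) ∧
      ∀ i, P i → ∃ M : ℤ, M ≠ 0 ∧ ∃ m : Fin s → ℤ, M • a i = ∑ k, m k • a (e k) := by
  classical
  let Q : ℕ → Prop := fun s => ∃ e : Fin s → ι, (∀ k, P (e k)) ∧
    LinearIndependent ℤ (fun k => a (e k))
  have hQ0 : Q 0 := ⟨Fin.elim0, fun k => k.elim0, linearIndependent_empty_type⟩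
  have hbd : ∀ s, Q s → s ≤ d := by
    rintro s ⟨e, -, he⟩
    have := he.fintype_card_le_finrank
    simpa using this
  obtain ⟨s, hs, hmax⟩ : ∃ s, Q s ∧ ∀ t, Q t → t ≤ s :=
    ⟨Nat.findGreatest Q d, Nat.findGreatest_spec (Nat.zero_le d) hQ0,
      fun t ht => Nat.le_findGreatest (hbd t ht) ht⟩
  obtain ⟨e, heP, he⟩ := hs
  refine ⟨s, e, heP, he, fun i hi => ?_⟩
  by_contra hcon
  have hQ : Q (s + 1) := by
    refine ⟨Fin.cons i e, Fin.cases hi heP, ?_⟩
    have h1 : (fun k => a ((Fin.cons i e : Fin (s + 1) → ι) k)) =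
        Fin.cons (a i) (fun k => a (e k)) := by
      funext k
      refine Fin.cases ?_ (fun k => ?_) k <;> simp
    rw [h1]
    refine LinearIndependent.finCons' _ _ he ?_
    intro c y hy' hy
    by_contra hc
    apply hcon
    rw [Submodule.mem_span_range_iff_exists_fun] at hy'
    obtain ⟨m, hm⟩ := hy'
    refine ⟨c, hc, fun k => -m k, ?_⟩
    rw [← hm] at hy
    simp only [neg_smul, sum_neg_distrib]
    exact eq_neg_of_add_eq_zero_left hy
  have := hmax _ hQ
  omega

theorem dt_self {d : ℕ} (x : Lat d) (h : dt x x = 0) : x = 0 := by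
  funext j
  have h1 := (sum_eq_zero_iff_of_nonneg (fun j _ => mul_self_nonneg (x j))).1 h j (mem_univ j)
  simpa using h1

theorem gram {d s : ℕ} {ι : Type} (a : ι → Lat d) (P : ι → Prop) (e : Fin s → ι)
    (he : LinearIndependent ℤ (fun k => a (e k)))
    (hmax : ∀ i, P i → ∃ M : ℤ, M ≠ 0 ∧ ∃ m : Fin s → ℤ, M • a i = ∑ k, m k • a (e k))
    (g : Lat d) :
    ∃ N : ℤ, N ≠ 0 ∧ ∃ n : Fin s → ℤ, ∀ i, P i →
      N * dt g (a i) = ∑ k, n k * dt (a (e k)) (a i) := by
  classical
  let G : Matrix (Fin s) (Fin s) ℤ := Matrix.of (fun j k => dt (a (e j)) (a (e k)))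
  have hG : G.det ≠ 0 := by
    intro h0
    obtain ⟨v, hv, hv0⟩ := Matrix.exists_mulVec_eq_zero_iff.2 h0
    set x : Lat d := ∑ k, v k • a (e k) with hx
    have h1 : ∀ j, dt (a (e j)) x = 0 := by
      intro j
      have := congrFun hv0 j
      simp only [Matrix.mulVec, dotProduct, Pi.zero_apply, G, Matrix.of_apply] at this
      rw [hx, dt_sum, ← this]
      exact sum_congr rfl fun k _ => by rw [dt_zsmul, mul_comm]
    have h2 : dt x x = 0 := by
      nth_rw 1 [dt_comm]
      nth_rw 2 [hx]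
      rw [dt_sum]
      refine sum_eq_zero fun k _ => ?_
      rw [dt_zsmul, dt_comm, h1, mul_zero]
    have h3 : x = 0 := dt_self x h2
    exact hv (funext fun k => Fintype.linearIndependent_iff.1 he v h3 k)
  refine ⟨G.det, hG, G.adjugate.mulVec (fun j => dt g (a (e j))), fun i hi => ?_⟩
  obtain ⟨M, hM, m, hm⟩ := hmax i hi
  set n := G.adjugate.mulVec (fun j => dt g (a (e j))) with hn
  have h1 : ∀ j, ∑ k, n k * dt (a (e k)) (a (e j)) = G.det * dt g (a (e j)) := by
    intro j
    have h2 : G.mulVec n = fun j => G.det * dt g (a (e j)) := by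
      rw [hn, Matrix.mulVec_mulVec, Matrix.mul_adjugate]
      funext j
      simp
    have h3 := congrFun h2 j
    simp only [Matrix.mulVec, dotProduct, G, Matrix.of_apply] at h3
    rw [← h3]
    exact sum_congr rfl fun k _ => by rw [dt_comm (a (e k)), mul_comm]
  apply mul_left_cancel₀ hM
  have h4 : ∀ x : Lat d, M * dt x (a i) = ∑ j, m j * dt x (a (e j)) := by
    intro x
    rw [← dt_zsmul, hm, dt_sum]
    exact sum_congr rfl fun k _ => dt_zsmul _ _ _
  calc M * (G.det * dt g (a i)) = G.det * (M * dt g (a i)) := by ring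
    _ = ∑ j, m j * (G.det * dt g (a (e j))) := by
        rw [h4, mul_sum]; exact sum_congr rfl fun j _ => by ring
    _ = ∑ j, m j * ∑ k, n k * dt (a (e k)) (a (e j)) :=
        sum_congr rfl fun j _ => by rw [h1]
    _ = ∑ k, n k * (M * dt (a (e k)) (a i)) := by
        simp only [h4, mul_sum]
        rw [sum_comm]
        exact sum_congr rfl fun k _ => sum_congr rfl fun j _ => by ring
    _ = M * ∑ k, n k * dt (a (e k)) (a i) := by
        rw [mul_sum]; exact sum_congr rfl fun k _ => by ring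

/-- Linearity of the symbols in the functional. -/
theorem gs_lin {d s : ℕ} {ι : Type} [Fintype ι] (a : ι → Lat d) (c : ι → ℂ) (g : Lat d)
    (ℓ : Fin s → Lat d) (N : ℤ) (hN : N ≠ 0) (n : Fin s → ℤ)
    (h : ∀ i, c i ≠ 0 → N * dt g (a i) = ∑ k, n k * dt (ℓ k) (a i)) :
    gs a c g = ∑ k, ((n k : ℂ) / (N : ℂ)) • gs a c (ℓ k) := by
  have hN' : (N : ℂ) ≠ 0 := by exact_mod_cast hN
  unfold gs
  simp only [smul_sum]
  rw [sum_comm]
  refine sum_congr rfl fun i _ => ?_
  apply lp_ext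
  intro u
  rw [coeff_finsum]
  simp only [coeff_smul', coeff_single']
  by_cases hu : u = a i
  · simp only [hu, if_true]
    by_cases hc : c i = 0
    · simp [hc]
    · have h1 := h i hc
      have h2 : (N : ℂ) * (dt g (a i) : ℂ) = ∑ k, (n k : ℂ) * (dt (ℓ k) (a i) : ℂ) := by
        exact_mod_cast h1
      have h3 : (dt g (a i) : ℂ) = ∑ k, (n k : ℂ) / (N : ℂ) * (dt (ℓ k) (a i) : ℂ) := by
        have : ∑ k, (n k : ℂ) / (N : ℂ) * (dt (ℓ k) (a i) : ℂ) =
            (∑ k, (n k : ℂ) * (dt (ℓ k) (a i) : ℂ)) / N := by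
          rw [sum_div]; exact sum_congr rfl fun k _ => by ring
        rw [this, ← h2]
        field_simp
      rw [h3, mul_sum]
      exact sum_congr rfl fun k _ => by ring
  · simp [hu]

end FSTEPaux

open FSTEPaux in
/-- FSTEP -/
theorem fstep {d : ℕ} {ι κ : Type} [Fintype ι] [Fintype κ] (a : ι → Lat d) (c : ι → ℂ)
    (h : κ → Lat d) (δ : Lat d) (hδ : ∀ i, dt δ (a i) = 1) (hh : ∀ v i, 0 ≤ dt (h v) (a i))
    (hfac : ∀ u ∈ Sset h, ∃ N : ℕ, 0 < N ∧ ∃ n : ι → ℕ, N • u = ∑ i, n i • a i)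
    (hnd : TorusND a c) (H H' : Lat d) (hH : ∀ i, 0 ≤ dt H (a i)) (hH' : ∀ i, 0 ≤ dt H' (a i))
    (hsub : ∀ i, dt H' (a i) = 0 → dt H (a i) = 0)
    (hstrict : ∃ i1, dt H (a i1) = 0 ∧ dt H' (a i1) ≠ 0)
    (hrank : ∀ g : Lat d, (∀ i, dt H' (a i) = 0 → dt g (a i) = 0) →
      ∃ N n : ℤ, N ≠ 0 ∧ ∀ i, dt H (a i) = 0 → N * dt g (a i) = n * dt H' (a i))
    (z : LP ℂ d) (hz : Supp {u | Om a H' u} z) (hno : NotIn a c H' z) :
    NotIn a c H (gs a (cF a c H) H' * z) := by
  classical
  rintro ⟨zz, hzz, hrel⟩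
  apply hno
  obtain ⟨s, e, heP, he, hmax⟩ := exists_max_family a (fun i => dt H' (a i) = 0)
  obtain ⟨i1, hi1, hi1'⟩ := hstrict
  -- the functionals on `T'`
  have hg1 := gram a (fun i => dt H' (a i) = 0) e he hmax
  set ℓ' : Fin s → Lat d := fun k => a (e k) with hℓ'
  -- the functionals on `T`
  have hg2 : ∀ g : Lat d, ∃ N : ℤ, N ≠ 0 ∧ ∃ n : Fin (s + 1) → ℤ, ∀ i, dt H (a i) = 0 →
      N * dt g (a i) = ∑ k, n k * dt ((Fin.cons H' ℓ' : Fin (s + 1) → Lat d) k) (a i) := by
    intro g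
    obtain ⟨N, hN, n, hn⟩ := hg1 g
    have hdt : ∀ u, dt (N • g - ∑ k, n k • ℓ' k) u = N * dt g u - ∑ k, n k * dt (ℓ' k) u := by
      intro u
      rw [dt_comm, dt_sub, dt_zsmul, dt_sum, dt_comm u g]
      congr 1
      exact sum_congr rfl fun k _ => by rw [dt_zsmul, dt_comm]
    obtain ⟨N2, n2, hN2, h2⟩ := hrank (N • g - ∑ k, n k • ℓ' k) (fun i hi => by
      rw [hdt, hn i hi, sub_self])
    refine ⟨N2 * N, mul_ne_zero hN2 hN, Fin.cons n2 (fun k => N2 * n k), fun i hi => ?_⟩
    have h3 := h2 i hi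
    rw [hdt] at h3
    rw [Fin.sum_univ_succ]
    simp only [Fin.cons_zero, Fin.cons_succ]
    rw [← h3]
    have : ∑ k, N2 * n k * dt (ℓ' k) (a i) = N2 * ∑ k, n k * dt (ℓ' k) (a i) := by
      rw [mul_sum]; exact sum_congr rfl fun k _ => by ring
    rw [this]
    ring
  -- independence
  have hind : LinearIndependent ℤ (fun k => a ((Fin.cons i1 e : Fin (s + 1) → ι) k)) := by
    have h1 : (fun k => a ((Fin.cons i1 e : Fin (s + 1) → ι) k)) =
        Fin.cons (a i1) (fun k => a (e k)) := by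
      funext k
      refine Fin.cases ?_ (fun k => ?_) k <;> simp
    rw [h1]
    refine LinearIndependent.finCons' _ _ he ?_
    intro c' y hy' hy
    rw [Submodule.mem_span_range_iff_exists_fun] at hy'
    obtain ⟨m, hm⟩ := hy'
    have h2 := congrArg (dt H') hy
    rw [dt_add, dt_zsmul, dt_zero, ← hm, dt_sum, sum_eq_zero, add_zero] at h2
    · exact (mul_eq_zero.1 h2).resolve_right hi1'
    · intro k _
      rw [dt_zsmul, heP k, mul_zero]
  -- the level
  set Y : Lat d := ∑ i with dt H' (a i) = 0, a i with hY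
  obtain ⟨m0, hm0, hm0'⟩ : ∃ m0 : ℤ, 0 < m0 ∧ ∀ v, dt (h v) Y ≤ m0 := by
    refine ⟨1 + ∑ v, |dt (h v) Y|, ?_, fun v => ?_⟩
    · have : 0 ≤ ∑ v, |dt (h v) Y| := sum_nonneg fun v _ => abs_nonneg _
      omega
    · have h1 : |dt (h v) Y| ≤ ∑ v, |dt (h v) Y| :=
        single_le_sum (f := fun v => |dt (h v) Y|) (fun v _ => abs_nonneg _) (mem_univ v)
      have h2 := le_abs_self (dt (h v) Y)
      omega
  have hHY : dt H Y = 0 := by
    rw [hY, dt_sum]
    exact sum_eq_zero fun i hi => hsub i (mem_filter.1 hi).2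
  have hH'Y : dt H' Y = 0 := by
    rw [hY, dt_sum]
    exact sum_eq_zero fun i hi => (mem_filter.1 hi).2
  have hgsl : ∀ j, ∃ (n : Fin s → ℂ) (n0 : ℂ),
      gs a (cF a c H) (ev j) = n0 • gs a (cF a c H) H' +
        ∑ k, n k • gs a (cF a c H) (ℓ' k) := by
    intro j
    obtain ⟨N, hN, n, hn⟩ := hg2 (ev j)
    refine ⟨fun k => (n k.succ : ℂ) / N, (n 0 : ℂ) / N, ?_⟩
    rw [gs_lin a (cF a c H) (ev j) (Fin.cons H' ℓ') N hN n, Fin.sum_univ_succ]
    · simp only [Fin.cons_zero, Fin.cons_succ]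
    · intro i hi
      apply hn
      by_contra hne
      exact hi (by simp [cF, hne])
  choose nn n0 hgj using hgsl
  -- members of `Om a H` and `Om a H'`
  have hOmM : ∀ (K : Lat d), (∀ i, dt H' (a i) = 0 → dt K (a i) = 0) →
      (∀ i, dt K (a i) = 0 → dt H (a i) = 0) →
      ∀ u, Om a K u → m0 • u + -Y ∈ Sset h ∧ dt H u = 0 := by
    intro K hK1 hK2 u hu
    refine ⟨fun v => ?_, ?_⟩
    · rw [dt_add, dt_zsmul, dt_neg]
      obtain ⟨h1, h2⟩ := hu (h v) (hh v)
      by_cases h3 : dt (h v) u = 0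
      · have h4 : dt (h v) Y = 0 := by
          rw [hY, dt_sum]
          exact sum_eq_zero fun i hi => h2.1 h3 i (hK1 i (mem_filter.1 hi).2)
        rw [h3, h4]; simp
      · have h4 : 1 ≤ dt (h v) u := by omega
        have h5 := hm0' v
        nlinarith
    · exact (hu H hH).2.2 hK2
  set x0 : LP ℂ d := z - ∑ j, n0 j • zz j with hx0
  set xs : Fin s → LP ℂ d := fun k => -∑ j, nn j k • zz j with hxs
  obtain ⟨y, hy, hanti, hyx⟩ := kexg a c h δ hδ hh hfac hnd H hH
    (Fin.cons H' ℓ' : Fin (s + 1) → Lat d) hg2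
    (Fin.cons i1 e : Fin (s + 1) → ι) (Fin.cases hi1 (fun k => hsub _ (heP k))) hind m0 hm0 (-Y)
    (by rw [dt_neg, hHY, neg_zero]) (Fin.cons x0 xs : Fin (s + 1) → LP ℂ d)
    (by
      refine Fin.cases ?_ (fun k => ?_)
      · rw [Fin.cons_zero]
        refine Supp.sub (hz.mono fun u hu => hOmM H' (fun _ h => h) hsub u hu)
          (Supp.sum _ fun j _ => Supp.smul _ ((hzz j).mono fun u hu => hOmM H hsub (fun _ h => h) u hu))
      · rw [Fin.cons_succ]
        exact Supp.neg
          (Supp.sum _ fun j _ => Supp.smul _ ((hzz j).mono fun u hu => hOmM H hsub (fun _ h => h) u hu)))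
    (by
      rw [Fin.sum_univ_succ]
      simp only [Fin.cons_zero, Fin.cons_succ, hx0, hxs]
      rw [mul_sub, hrel]
      have h1 : ∀ j, gs a (cF a c H) (ev j) * zz j = gs a (cF a c H) H' * (n0 j • zz j) +
          ∑ k, gs a (cF a c H) (ℓ' k) * (nn j k • zz j) := by
        intro j
        rw [hgj j, add_mul, sum_mul]
        congr 1
        · rw [Algebra.smul_mul_assoc, Algebra.mul_smul_comm]
        · exact sum_congr rfl fun k _ => by rw [Algebra.smul_mul_assoc, Algebra.mul_smul_comm]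
      rw [sum_congr rfl (fun j _ => h1 j), sum_add_distrib, mul_sum, sum_comm]
      have h2 : ∑ k, gs a (cF a c H) (ℓ' k) * -∑ j, nn j k • zz j =
          -∑ k, ∑ j, gs a (cF a c H) (ℓ' k) * (nn j k • zz j) := by
        rw [← sum_neg_distrib]
        exact sum_congr rfl fun k _ => by rw [mul_neg, mul_sum]
      rw [h2]
      abel)
  have hy00 : y 0 0 = 0 := by
    have h1 := hanti 0 0
    exact lp_eq_neg_self _ h1
  have hx0' : x0 = ∑ k : Fin s, gs a (cF a c H) (ℓ' k) * y 0 k.succ := by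
    have h1 := hyx 0
    rw [Fin.sum_univ_succ] at h1
    simp only [Fin.cons_zero, Fin.cons_succ, hy00, mul_zero, zero_add] at h1
    exact h1
  -- the projection
  set π : LP ℂ d → LP ℂ d := fun x => dg (fun u => if dt H' u = 0 then 1 else 0) x with hπ
  have hπc : ∀ x u, (π x).coeff u = if dt H' u = 0 then x.coeff u else 0 := by
    intro x u
    simp only [hπ, dg_coeff]
    split_ifs <;> simp
  -- members of `M`
  have hM0 : ∀ u, m0 • u + -Y ∈ Sset h → 0 ≤ dt H' u := by
    intro u hu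
    obtain ⟨N, hN, n, hn⟩ := hfac _ hu
    have h1 := congrArg (dt H') hn
    rw [dt_nsmul, dt_add, dt_zsmul, dt_neg, hH'Y, neg_zero, add_zero, dt_sum] at h1
    have h2 : 0 ≤ ∑ i, dt H' (n i • a i) := sum_nonneg fun i _ => by
      rw [dt_nsmul]; exact mul_nonneg (by positivity) (hH' i)
    rw [← h1] at h2
    have hN' : (0 : ℤ) < N := by exact_mod_cast hN
    have h3 : 0 ≤ m0 * dt H' u := nonneg_of_mul_nonneg_right h2 hN'
    exact nonneg_of_mul_nonneg_right h3 hm0
  have hMOm : ∀ u, m0 • u + -Y ∈ Sset h → dt H' u = 0 → Om a H' u := by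
    intro u hu hu0 h'' hh''
    obtain ⟨N, hN, n, hn⟩ := hfac _ hu
    have hN' : (0 : ℤ) < N := by exact_mod_cast hN
    have h1 := congrArg (dt H') hn
    rw [dt_nsmul, dt_add, dt_zsmul, dt_neg, hH'Y, hu0, dt_sum] at h1
    have h1' : ∑ i, dt H' (n i • a i) = 0 := by rw [← h1]; ring
    have h2 : ∀ i, dt H' (a i) ≠ 0 → n i = 0 := by
      intro i hi
      have h3 := (sum_eq_zero_iff_of_nonneg (fun i _ => by
        rw [dt_nsmul]; exact mul_nonneg (by positivity) (hH' i))).1 h1' i (mem_univ i)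
      rw [dt_nsmul] at h3
      exact_mod_cast (mul_eq_zero.1 h3).resolve_right hi
    have h4 := congrArg (dt h'') hn
    rw [dt_nsmul, dt_add, dt_zsmul, dt_neg, dt_sum univ] at h4
    have h5 : (N : ℤ) * m0 * dt h'' u = ∑ i with dt H' (a i) = 0, ((n i : ℤ) + N) * dt h'' (a i) := by
      have h6 : ∑ i, dt h'' (n i • a i) = ∑ i with dt H' (a i) = 0, (n i : ℤ) * dt h'' (a i) := by
        rw [sum_filter]
        refine sum_congr rfl fun i _ => ?_
        rw [dt_nsmul]
        split_ifs with h7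
        · rfl
        · rw [h2 i h7]; simp
      have h7 : dt h'' Y = ∑ i with dt H' (a i) = 0, dt h'' (a i) := by rw [hY, dt_sum]
      rw [h6, h7] at h4
      simp only [add_mul, sum_add_distrib]
      rw [← h4, ← mul_sum]
      ring
    have h6 : 0 < (N : ℤ) * m0 := mul_pos hN' hm0
    have h7 : ∀ i ∈ univ.filter (fun i => dt H' (a i) = 0), 0 ≤ ((n i : ℤ) + N) * dt h'' (a i) :=
      fun i _ => mul_nonneg (by positivity) (hh'' i)
    refine ⟨?_, ?_, ?_⟩
    · have h8 : 0 ≤ (N : ℤ) * m0 * dt h'' u := by rw [h5]; exact sum_nonneg h7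
      exact nonneg_of_mul_nonneg_right h8 h6
    · intro h8 i hi
      rw [h8, mul_zero] at h5
      have h9 := (sum_eq_zero_iff_of_nonneg h7).1 h5.symm i (mem_filter.2 ⟨mem_univ _, hi⟩)
      exact (mul_eq_zero.1 h9).resolve_left (by positivity)
    · intro h8
      have h9 : (N : ℤ) * m0 * dt h'' u = 0 := by
        rw [h5]
        exact sum_eq_zero fun i hi => by rw [h8 i (mem_filter.1 hi).2, mul_zero]
      exact (mul_eq_zero.1 h9).resolve_left h6.ne'
  have hπgs : ∀ k : Fin s, π (gs a (cF a c H) (ℓ' k) * y 0 k.succ) =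
      gs a (cF a c H') (ℓ' k) * π (y 0 k.succ) := by
    intro k
    apply lp_ext
    intro u
    rw [hπc, gs_mul_coeff, gs_mul_coeff]
    by_cases hu : dt H' u = 0
    · rw [if_pos hu]
      refine sum_congr rfl fun i _ => ?_
      by_cases hi : dt H' (a i) = 0
      · rw [hπc, dt_sub, hu, hi]
        simp [cF, hi, hsub i hi]
      · have h1 : (y 0 k.succ).coeff (u - a i) = 0 := by
          by_contra hne
          have h2 := hM0 _ (hy 0 k.succ _ hne).1
          rw [dt_sub, hu] at h2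
          have h3 := hH' i
          omega
        rw [h1]
        simp [cF, hi]
    · rw [if_neg hu]
      symm
      refine sum_eq_zero fun i _ => ?_
      by_cases hi : dt H' (a i) = 0
      · rw [hπc, dt_sub, hi, sub_zero, if_neg hu, mul_zero]
      · simp [cF, hi]
  have hπadd : ∀ (f : Fin s → LP ℂ d), π (∑ k, f k) = ∑ k, π (f k) := by
    intro f
    apply lp_ext
    intro u
    rw [hπc, coeff_finsum, coeff_finsum]
    simp only [hπc]
    split_ifs <;> simp
  have hzπ : π x0 = z := by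
    apply lp_ext
    intro u
    rw [hπc, hx0, coeff_sub', coeff_finsum]
    simp only [coeff_smul']
    split_ifs with hu
    · have h1 : ∀ j, (zz j).coeff u = 0 := by
        intro j
        by_contra hne
        have h2 := (hzz j u hne) H' hH'
        exact hi1' (h2.2.1 hu i1 hi1)
      simp [h1]
    · symm
      by_contra hne
      exact hu (((hz u hne) H' hH').2.2 (fun _ h => h))
  have hfin : z = ∑ k, gs a (cF a c H') (ℓ' k) * π (y 0 k.succ) := by
    rw [← hzπ, hx0', hπadd]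
    exact sum_congr rfl fun k _ => hπgs k
  refine ⟨fun j => ∑ k, ((ℓ' k j : ℤ) : ℂ) • π (y 0 k.succ), fun j => ?_, ?_⟩
  · refine Supp.sum _ fun k _ => Supp.smul _ ?_
    intro u hu
    rw [hπc] at hu
    by_cases hu0 : dt H' u = 0
    · rw [if_pos hu0] at hu
      exact hMOm u (hy 0 k.succ u hu).1 hu0
    · rw [if_neg hu0] at hu
      exact absurd rfl hu
  · have h1 : ∀ k, gs a (cF a c H') (ℓ' k) =
        ∑ j, ((ℓ' k j : ℤ) : ℂ) • gs a (cF a c H') (ev j) := by
      intro k
      have := gs_lin a (cF a c H') (ℓ' k) (fun j : Fin d => ev j) 1 one_ne_zero (ℓ' k)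
        (fun i _ => by rw [one_mul]; exact dt_left _ _)
      simpa using this
    rw [hfin]
    simp only [h1, sum_mul, mul_sum, Algebra.smul_mul_assoc, Algebra.mul_smul_comm]
    rw [sum_comm]

end Pool.Agent.H56.SMC
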