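import Pool.Agent.H56.SMC.CfgDefs

/-!
# RFIN: finitely many primitive rays

Proof.  Map `v` to the finite set of all indices active at `v`: `({i : a_i·v = wmin a v}, {j : v_j = 0}, {k : β_k·v = 0})`.  This map is injective on the set: the vectors of these indices span a space `E` of dimension `n` in `ℝ^{1+n}`, and
`(-wmin a v, v)` is orthogonal to `E`; so if `v`, `v'` have the same active set, `(-wmin a v, v)` and `(-wmin a v', v')` are proportional (the orthogonal space is one dimensional), both are nonnegative in the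
`v`-part and nonzero, so `v' = c v` with `c > 0` rational, and `gcd v = gcd v' = 1` gives `c = 1`.
-/

set_option autoImplicit false

namespace Pool.Agent.H56.SMC

open Finset AddMonoidAlgebra

/-- The functional `(y0, y) ↦ -N y0 + v·y`. -/
private noncomputable def rfin_phi {n : ℕ} (N : ℕ) (v : Fin n → ℕ) :
    Module.Dual ℝ (Unit ⊕ Fin n → ℝ) where
  toFun y := -(N : ℝ) * y (Sum.inl ()) + ∑ j, (v j : ℝ) * y (Sum.inr j)
  map_add' y z := by
    simp only [Pi.add_apply, mul_add, sum_add_distrib]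
    ring
  map_smul' c y := by
    simp only [Pi.smul_apply, smul_eq_mul, RingHom.id_apply, mul_add, mul_sum]
    congr 1
    · ring
    · exact sum_congr rfl fun j _ => by ring

private theorem rfin_phi_single {n : ℕ} (N : ℕ) (v : Fin n → ℕ) (j : Fin n) :
    rfin_phi N v (Sum.elim (fun _ => 0) (Pi.single j 1)) = v j := by
  simp [rfin_phi, Pi.single_apply]

/-- The generators. -/
private def rfin_gen {n r m : ℕ} (a : Fin r → (Fin n →₀ ℕ)) (β : Fin m → Fin n → ℤ)
    (v : Fin n → ℕ) : Set (Unit ⊕ Fin n → ℝ) :=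
  ({y | ∃ i, ∑ j, a i j * v j = H22.wmin a v ∧ y = H22.rowR a i} ∪
      {y | ∃ j, v j = 0 ∧ y = Sum.elim (fun _ => 0) (Pi.single j 1)} ∪
      {y | ∃ k, ∑ j, β k j * v j = 0 ∧ y = Sum.elim (fun _ => 0) (fun j => (β k j : ℝ))} :
        Set (Unit ⊕ Fin n → ℝ))

private theorem rfin_vanish {n r m : ℕ} (a : Fin r → (Fin n →₀ ℕ)) (β : Fin m → Fin n → ℤ)
    (v : Fin n → ℕ) : rfin_phi (H22.wmin a v) v ∈
      (Submodule.span ℝ (rfin_gen a β v)).dualAnnihilator := by
  rw [Submodule.mem_dualAnnihilator]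
  intro y hy
  induction hy using Submodule.span_induction with
  | mem y hy =>
    rcases hy with (⟨i, hi, rfl⟩ | ⟨j, hj, rfl⟩) | ⟨k, hk, rfl⟩
    · have h1 : (∑ j, ((a i j : ℕ) : ℝ) * (v j : ℝ)) = (H22.wmin a v : ℝ) := by
        rw [← hi]; push_cast; rfl
      simp only [rfin_phi, H22.rowR, LinearMap.coe_mk, AddHom.coe_mk, Sum.elim_inl, Sum.elim_inr]
      rw [← h1, mul_one, neg_add_eq_sub, sub_eq_zero]
      exact sum_congr rfl fun j _ => mul_comm _ _
    · rw [rfin_phi_single, hj, Nat.cast_zero]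
    · have h1 : (∑ j, ((β k j : ℤ) : ℝ) * (v j : ℝ)) = 0 := by
        have := congrArg (Int.cast (R := ℝ)) hk
        push_cast at this
        exact this
      simp only [rfin_phi, LinearMap.coe_mk, AddHom.coe_mk, Sum.elim_inl, Sum.elim_inr]
      rw [mul_zero, zero_add, ← h1]
      exact sum_congr rfl fun j _ => mul_comm _ _
  | zero => exact map_zero _
  | add y z _ _ hy hz => rw [map_add, hy, hz, add_zero]
  | smul c y _ hy => rw [map_smul, hy, smul_zero]

private theorem rfin_one {n : ℕ} (E : Submodule ℝ (Unit ⊕ Fin n → ℝ))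
    (h : Module.finrank ℝ E.dualAnnihilator ≤ 1) :
    ∃ v : E.dualAnnihilator, ∀ w : E.dualAnnihilator, ∃ c : ℝ, c • v = w := by
  let V := Module.Dual ℝ (Unit ⊕ Fin n → ℝ)
  let : AddCommGroup V := inferInstanceAs (AddCommGroup ((Unit ⊕ Fin n → ℝ) →ₗ[ℝ] ℝ))
  exact finrank_le_one_iff.mp h

/-- RFIN -/
theorem rfin {n r m : ℕ} (a : Fin r → (Fin n →₀ ℕ)) (β : Fin m → Fin n → ℤ) :
    {v : Fin n → ℕ | RayNormal a β v ∧ univ.gcd v = 1}.Finite := by
  classical
  let F : (Fin n → ℕ) → Set (Fin r) × Set (Fin n) × Set (Fin m) := fun v =>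
    ({i | ∑ j, a i j * v j = H22.wmin a v}, {j | v j = 0}, {k | ∑ j, β k j * v j = 0})
  refine Set.Finite.of_finite_image (f := F) (Set.toFinite _) ?_
  rintro v ⟨⟨hv0, -, hvr⟩, hvg⟩ w ⟨⟨hw0, -, hwr⟩, hwg⟩ hF
  have hF1 : {i | ∑ j, a i j * v j = H22.wmin a v} = {i | ∑ j, a i j * w j = H22.wmin a w} :=
    congrArg Prod.fst hF
  have hF2 : {j | v j = 0} = {j | w j = 0} := congrArg (fun x => x.2.1) hF
  have hF3 : {k | ∑ j, β k j * v j = 0} = {k | ∑ j, β k j * w j = 0} :=
    congrArg (fun x => x.2.2) hF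
  have hgen : rfin_gen a β v = rfin_gen a β w := by
    unfold rfin_gen
    have e1 : ∀ i, (∑ j, a i j * v j = H22.wmin a v) ↔ (∑ j, a i j * w j = H22.wmin a w) :=
      fun i => Set.ext_iff.mp hF1 i
    have e2 : ∀ j, v j = 0 ↔ w j = 0 := fun j => Set.ext_iff.mp hF2 j
    have e3 : ∀ k, (∑ j, β k j * v j = 0) ↔ (∑ j, β k j * w j = 0) :=
      fun k => Set.ext_iff.mp hF3 k
    simp only [e1, e2, e3]
  have h1 := rfin_vanish a β v
  have h2 := rfin_vanish a β w
  rw [← hgen] at h2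
  have hr : Module.finrank ℝ (Submodule.span ℝ (rfin_gen a β v)) = n := hvr
  have hdim := Subspace.finrank_add_finrank_dualAnnihilator_eq
    (Submodule.span ℝ (rfin_gen a β v))
  rw [hr, Module.finrank_pi, Fintype.card_sum, Fintype.card_unit, Fintype.card_fin] at hdim
  have hone : Module.finrank ℝ (Submodule.span ℝ (rfin_gen a β v)).dualAnnihilator ≤ 1 := by
    omega
  obtain ⟨ψ, hψ⟩ := rfin_one _ hone
  obtain ⟨c1, hc1⟩ := hψ ⟨_, h1⟩
  obtain ⟨c2, hc2⟩ := hψ ⟨_, h2⟩
  have e1 : ∀ j, (v j : ℝ) = c1 * ψ.1 (Sum.elim (fun _ => 0) (Pi.single j 1)) := by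
    intro j
    rw [← rfin_phi_single (H22.wmin a v) v j]
    have := congrArg (fun x => x.1 (Sum.elim (fun _ => 0) (Pi.single j 1) : Unit ⊕ Fin n → ℝ)) hc1
    exact this.symm
  have e2 : ∀ j, (w j : ℝ) = c2 * ψ.1 (Sum.elim (fun _ => 0) (Pi.single j 1)) := by
    intro j
    rw [← rfin_phi_single (H22.wmin a w) w j]
    have := congrArg (fun x => x.1 (Sum.elim (fun _ => 0) (Pi.single j 1) : Unit ⊕ Fin n → ℝ)) hc2
    exact this.symm
  have hcross : ∀ j k, w j * v k = v j * w k := by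
    intro j k
    have : ((w j * v k : ℕ) : ℝ) = ((v j * w k : ℕ) : ℝ) := by
      push_cast
      rw [e1, e1, e2, e2]; ring
    exact_mod_cast this
  funext j
  have hj : univ.gcd (fun k => w j * v k) = univ.gcd (fun k => v j * w k) := by
    congr 1
    funext k
    exact hcross j k
  rw [Finset.gcd_mul_left, Finset.gcd_mul_left, hvg, hwg, normalize_eq, normalize_eq, mul_one,
    mul_one] at hj
  exact hj.symm

end Pool.Agent.H56.SMC
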