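import Pool.Agent.H56.SMC.APPG
import Pool.Agent.H56.SMC.LAM
import Pool.Agent.H56.SMC.RFIN
import Pool.Agent.H56.SMC.FSTEP

/-!
# APPC: the criterion from a nonzero class (adapt the proof in APPF.lean)

Proof.  Write `A = cA a (bbM β M)`, `h0 = vec (-N) 0 w`.  (1) `D` = a bound for `∑ α_j`, `α ∈ P.support`; choose `M ≥ 2` with `M ≥ D w_j` and `M ≥ D v_j` for all `v` in the finite set `rfin a β`.  `lam` from `lam_exists`.  `hmu` gives `μ`.  Choose `m0 ≥ 2` with `m0 > |v|` for all `v` in the finite set.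
(2) `y0 = (m0 - 1) • μ`; `InC A y0` (`Om` gives `0 ≤ dt h μ`); `dt h0 y0 = 0` (`Om` with `h = h0`, which is nonnegative on `A`).  `hA`: `dt (vec ..) y0 = (m0 - 1) dt (vec ..) μ ≥ (m0 - 1)(|v| + 1) ≥ m0 |v|`.  `hB`: the same with `l ≤ |v|` (from `|v| N(w) = l N(w) + N(v) |w| ≥ l N(w)`).
(3) `hno` of `appg`: if `single 0 1 = ∑_j g_j t_j` then `single μ 1 = ∑_j g_j (single μ 1 * t_j)`; the exponents of `single μ 1 * t_j` are `u + μ` with `InC A (m0 u + y0)`, `dt h0 u = 0`; claim `Om A h0 (u + μ)`, contradicting `NotIn`.  Let `h''` be nonnegative on `A`.  `m0 dt h'' (u + μ) = dt h'' (m0 u + y0) + dt h'' μ ≥ dt h'' μ ≥ 0`.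
If `dt h'' (u + μ) = 0` then `dt h'' μ = 0`, so `h''` vanishes on the face (`Om A h0 μ`).  Conversely let `h''` vanish on the face `{dt h0 (A i) = 0}`: `dt h'' μ = 0` (`Om`).  For `L` large the functional `L h0 - h''` is nonnegative on `A` (zero on the face, `dt h0 (A i) ≥ 1` off it), so `InC` for `m0 u + y0` gives
`0 ≤ dt (L h0 - h'') (m0 u + y0) = -dt h'' (m0 u + y0)`, and `0 ≤ dt h'' (m0 u + y0)`: it is `0`, and `dt h'' y0 = 0`, so `dt h'' u = 0`.
-/

set_option autoImplicit false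

namespace Pool.Agent.H56.SMC

open Finset AddMonoidAlgebra

/-- arithmetic at the end of `hA`, `hB` -/
theorem appc_arith {m0 V X : ℤ} (h1 : V + 1 ≤ X) (h2 : V < m0) (hm : 1 ≤ m0) :
    m0 * V ≤ (m0 - 1) * X := by
  have h3 : (m0 - 1) * (V + 1) ≤ (m0 - 1) * X := mul_le_mul_of_nonneg_left h1 (by linarith)
  nlinarith

theorem appc_dt_left {d : ℕ} (L : ℤ) (h g u : Lat d) :
    dt (L • h - g) u = L * dt h u - dt g u := by
  rw [dt_comm, dt_sub, dt_zsmul, dt_comm u h, dt_comm u g]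

/-- Multiplication by `μ` maps the conic module of the face into its interior. -/
theorem appc_om {d : ℕ} {ι : Type} [Fintype ι] (A : ι → Lat d)
    (h0 : Lat d) (hh0 : ∀ i, 0 ≤ dt h0 (A i)) (μ : Lat d) (hμ : Om A h0 μ) (m0 : ℤ) (hm0 : 0 < m0)
    (u : Lat d) (hu : InC A (m0 • u + (m0 - 1) • μ)) (hu0 : dt h0 u = 0) :
    Om A h0 (u + μ) := by
  intro g hg
  obtain ⟨hμ1, hμ2⟩ := hμ g hg
  have hid : m0 * dt g (u + μ) = dt g (m0 • u + (m0 - 1) • μ) + dt g μ := by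
    rw [dt_add, dt_add, dt_zsmul, dt_zsmul]; ring
  have h1 := hu g hg
  have h2 : 0 ≤ dt g (u + μ) := by
    by_contra hcon
    push Not at hcon
    have : m0 * dt g (u + μ) < 0 := mul_neg_of_pos_of_neg hm0 hcon
    linarith
  refine ⟨h2, ?_, ?_⟩
  · intro h3
    rw [h3, mul_zero] at hid
    exact hμ2.1 (by linarith)
  · intro h3
    have hμ0 : dt g μ = 0 := hμ2.2 h3
    have hμ00 : dt h0 μ = 0 := (hμ h0 hh0).2.2 (fun i hi => hi)
    set L : ℤ := ∑ i, dt g (A i) with hL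
    have hL' : ∀ i, dt g (A i) ≤ L := fun i =>
      Finset.single_le_sum (f := fun i => dt g (A i)) (fun i _ => hg i) (Finset.mem_univ i)
    have hnn : ∀ i, 0 ≤ dt (L • h0 - g) (A i) := by
      intro i
      rw [appc_dt_left]
      rcases (hh0 i).eq_or_lt with h4 | h4
      · rw [h3 i h4.symm, ← h4]
        simp
      · have h5 : 0 ≤ L := (hg i).trans (hL' i)
        have h6 : L * 1 ≤ L * dt h0 (A i) := mul_le_mul_of_nonneg_left (by omega) h5
        have h7 := hL' i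
        linarith
    have h4 := hu _ hnn
    rw [appc_dt_left] at h4
    have h5 : dt h0 (m0 • u + (m0 - 1) • μ) = 0 := by
      rw [dt_add, dt_zsmul, dt_zsmul, hu0, hμ00]; ring
    rw [h5] at h4
    have e3 : dt g (m0 • u + (m0 - 1) • μ) = 0 := by
      apply le_antisymm _ h1
      linarith
    rw [e3, hμ0, add_zero] at hid
    rcases mul_eq_zero.1 hid with h4 | h4
    · exact absurd h4 hm0.ne'
    · exact h4

/-- APPC -/
theorem appc {n r m : ℕ} (a : Fin r → (Fin n →₀ ℕ)) (κ : Fin r → ℂ)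
    (hnd : Nondeg a κ) (b : Polynomial ℂ) (P : H22.WeylS n)
    (hfe : H22.FunctionalEquation (fpoly a κ) b P) (w : Fin n → ℕ) (hw : FacetNormal a w)
    (hN : 0 < H22.wmin a w) (β : Fin m → Fin n → ℤ) (hβw : ∀ k, 0 < ∑ j, β k j * w j)
    (hmu : ∀ (M : ℤ), 2 ≤ M → ∀ lam : Option (Fin n) ⊕ Fin m → ℂ,
      AlgebraicIndependent (Algebra.adjoin ℚ (Set.range κ)) lam → ∃ μ : Lat (n + 2),
        Om (cA a (bbM β M)) (vec (-(H22.wmin a w : ℤ)) 0 (fun j => (w j : ℤ))) μ ∧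
        NotIn (cA a (bbM β M)) (cC κ lam) (vec (-(H22.wmin a w : ℤ)) 0 (fun j => (w j : ℤ)))
          (single μ 1) ∧
        ∀ v : Fin n → ℕ, RayNormal a β v → univ.gcd v = 1 →
          (H22.wmin a v = 0 →
            (H22.wsum v : ℤ) < dt (vec (-(H22.wmin a v : ℤ)) 0 (fun j => (v j : ℤ))) μ) ∧
          ((∃ k, ∑ j, β k j * v j = 0) → ∀ l : ℕ, 0 < l →
            H22.wsum v * H22.wmin a w = l * H22.wmin a w + H22.wmin a v * H22.wsum w →
            (l : ℤ) < dt (vec (-(H22.wmin a v : ℤ)) 0 (fun j => (v j : ℤ))) μ)) :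
    b.IsRoot (-(H22.wsum w : ℂ) / (H22.wmin a w : ℂ)) := by
  classical
  -- the constants
  set D : ℕ := P.support.sup (fun α => ∑ j, α j) with hDdef
  have hD : ∀ α ∈ P.support, ∑ j, α j ≤ D := fun α hα =>
    Finset.le_sup (f := fun α : Fin n →₀ ℕ => ∑ j, α j) hα
  set F : Finset (Fin n → ℕ) := (rfin a β).toFinset with hF
  have hmemF : ∀ v', RayNormal a β v' → univ.gcd v' = 1 → v' ∈ F := by
    intro v' h1 h2
    rw [hF, Set.Finite.mem_toFinset]
    exact ⟨h1, h2⟩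
  set M0 : ℕ := 2 + D * ∑ j, w j + ∑ v' ∈ F, D * ∑ j, v' j with hM0
  have hFle : ∀ v' ∈ F, D * ∑ j, v' j ≤ ∑ v' ∈ F, D * ∑ j, v' j := fun v' hv' =>
    Finset.single_le_sum (f := fun v' : Fin n → ℕ => D * ∑ j, v' j)
      (fun _ _ => Nat.zero_le _) hv'
  have hM2 : (2 : ℤ) ≤ (M0 : ℤ) := by
    have : 2 ≤ M0 := by omega
    exact_mod_cast this
  have hMpos : (0 : ℤ) < (M0 : ℤ) := by linarith
  have hMw : ∀ j, (D : ℤ) * w j ≤ (M0 : ℤ) := by
    intro j
    have h1 : w j ≤ ∑ j, w j := Finset.single_le_sum (fun _ _ => Nat.zero_le _) (Finset.mem_univ j)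
    have h2 : D * w j ≤ D * ∑ j, w j := Nat.mul_le_mul_left D h1
    have h3 : D * w j ≤ M0 := by omega
    exact_mod_cast h3
  have hMv : ∀ v' : Fin n → ℕ, RayNormal a β v' → univ.gcd v' = 1 →
      ∀ j, (D : ℤ) * v' j ≤ (M0 : ℤ) := by
    intro v' hv1 hv2 j
    have h0 := hFle v' (hmemF v' hv1 hv2)
    have h1 : v' j ≤ ∑ j, v' j :=
      Finset.single_le_sum (fun _ _ => Nat.zero_le _) (Finset.mem_univ j)
    have h2 : D * v' j ≤ D * ∑ j, v' j := Nat.mul_le_mul_left D h1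
    have h3 : D * v' j ≤ M0 := by omega
    exact_mod_cast h3
  set m1 : ℕ := 1 + ∑ v' ∈ F, (∑ j, v' j) with hm1
  have hm1pos : (0 : ℤ) < (m1 : ℤ) := by
    have : 0 < m1 := by omega
    exact_mod_cast this
  have hm1v : ∀ v' : Fin n → ℕ, RayNormal a β v' → univ.gcd v' = 1 →
      (H22.wsum v' : ℤ) < (m1 : ℤ) := by
    intro v' hv1 hv2
    have h0 : (∑ j, v' j) ≤ ∑ v' ∈ F, (∑ j, v' j) :=
      Finset.single_le_sum (f := fun v' : Fin n → ℕ => ∑ j, v' j)
        (fun _ _ => Nat.zero_le _) (hmemF v' hv1 hv2)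
    have h3 : H22.wsum v' < m1 := by
      unfold H22.wsum
      omega
    exact_mod_cast h3
  have hm1one : (1 : ℤ) ≤ (m1 : ℤ) := by linarith
  -- the coefficients of `H`
  obtain ⟨lam, hlam'⟩ := lam_exists (Finset.univ.image κ) (Option (Fin n) ⊕ Fin m)
  have hlam : AlgebraicIndependent (Algebra.adjoin ℚ (Set.range κ)) lam := by
    have e : ((Finset.univ.image κ : Finset ℂ) : Set ℂ) = Set.range κ := by
      rw [Finset.coe_image, Finset.coe_univ, Set.image_univ]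
    rw [e] at hlam'
    exact hlam'
  obtain ⟨μ, hOm, hNot, hval⟩ := hmu (M0 : ℤ) hM2 lam hlam
  have hh0 : ∀ i, 0 ≤ dt (vec (-(H22.wmin a w : ℤ)) 0 (fun j => (w j : ℤ)))
      (cA a (bbM β (M0 : ℤ)) i) :=
    appg_h0 a β (M0 : ℤ) hMpos w (fun k => (hβw k).le)
  have hμ0 : dt (vec (-(H22.wmin a w : ℤ)) 0 (fun j => (w j : ℤ))) μ = 0 :=
    (hOm _ hh0).2.2 (fun i hi => hi)
  refine appg a κ hnd b P hfe w hw hN β hβw D hD (M0 : ℤ) hMpos hMw hMv (m1 : ℤ) hm1pos
    (((m1 : ℤ) - 1) • μ) ?_ ?_ ?_ ?_ lam hlam ?_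
  · intro g hg
    rw [dt_zsmul]
    exact mul_nonneg (by linarith) (hOm g hg).1
  · rw [dt_zsmul, hμ0, mul_zero]
  · intro v' hv1 hv2 hv3
    rw [dt_zsmul]
    refine appc_arith ?_ (hm1v v' hv1 hv2) hm1one
    have := (hval v' hv1 hv2).1 hv3
    linarith
  · intro v' hv1 hv2 hv3 l hl hle
    rw [dt_zsmul]
    have hlv : l ≤ H22.wsum v' := by
      have h1 : l * H22.wmin a w ≤ H22.wsum v' * H22.wmin a w := by
        rw [hle]; exact Nat.le_add_right _ _
      exact Nat.le_of_mul_le_mul_right h1 hN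
    have hlv' : (l : ℤ) ≤ (H22.wsum v' : ℤ) := by exact_mod_cast hlv
    refine appc_arith ?_ (lt_of_le_of_lt hlv' (hm1v v' hv1 hv2)) hm1one
    have := (hval v' hv1 hv2).2 hv3 l hl hle
    linarith
  · rintro ⟨t, ht, hs⟩
    apply hNot
    refine ⟨fun j => single μ 1 * t j, ?_, ?_⟩
    · intro j u hu
      rw [single_mul_coeff] at hu
      have h1 : (t j).coeff (u - μ) ≠ 0 := fun h0 => hu (by rw [h0, mul_zero])
      have h2 := ht j _ h1
      have h3 := appc_om (cA a (bbM β (M0 : ℤ))) _ hh0 μ hOm (m1 : ℤ) hm1pos (u - μ)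
        h2.1 h2.2.1
      rw [sub_add_cancel] at h3
      exact h3
    · have h1 : (single μ 1 : LP ℂ (n + 2)) = single μ 1 * single 0 1 := by
        rw [AddMonoidAlgebra.single_mul_single, add_zero, mul_one]
      refine h1.trans ?_
      rw [hs, Finset.mul_sum]
      refine Finset.sum_congr rfl fun j _ => ?_
      beta_reduce
      ring

end Pool.Agent.H56.SMC
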