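import Pool.Agent.H56.SMC.FSTEP

/-!
# FLAG: flags of faces give nonzero classes

Proof.  Induction on `s`.  `s = 1`: `i 0 = i0`, `α = a i0`; all `a i` in the face `T_0` equal `α`.  `Om a (H 0) α`: clear.  `NotIn`: if `single α 1 = ∑_j gs a (cF a c (H 0)) (ev j) * y_j`, then some `y_j` has an exponent `u` with `Om a (H 0) u` and `u = α - α = 0`
(the exponents of the symbols are `α`), but `dt δ u ≥ 1` for `Om a (H 0) u` (apply the definition with `h = δ`: nonnegative and zero iff `δ` vanishes on `T_0`, impossible since `dt δ α = 1`), a contradiction.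
Step: `μ = ∑_{j<s} a (i j)`, `z = single μ 1`; `fstep` with `H' = H (s-1)`, `H = H s`: `NotIn a c (H s) (gs a (cF a c (H s)) (H (s-1)) * single μ 1)`.  The element is `∑_{i' : dt (H s) (a i') = 0} c_{i'} dt (H (s-1)) (a i') single (a i' + μ) 1`, so one `i'` with
`dt (H s) (a i') = 0`, `dt (H (s-1)) (a i') ≠ 0` has `NotIn a c (H s) (single (a i' + μ) 1)` (otherwise, by linearity, the sum would be a combination).  `Om a (H s) (μ + a i')`: for `h''` nonnegative: `dt h'' ≥ 0`; if it is `0` then `dt h'' μ = 0`, so `h''` vanishes on `T_{s-1}`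
and by the rank condition `N h'' = n H (s-1)` on `T_s`; at `i'`: `n = 0`, so `h''` vanishes on `T_s`; conversely clear.
-/

set_option autoImplicit false

namespace Pool.Agent.H56.SMC

open Finset AddMonoidAlgebra

/-- the submodule property: combinations of the symbols -/
theorem flag_smul_sum {d : ℕ} {ι : Type} [Fintype ι] (a : ι → Lat d) (c : ι → ℂ) (H : Lat d)
    {α : Type} (t : Finset α) (r : α → ℂ) (z : α → LP ℂ d)
    (hz : ∀ i ∈ t, r i ≠ 0 → ¬ NotIn a c H (z i)) : ¬ NotIn a c H (∑ i ∈ t, r i • z i) := by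
  classical
  simp only [NotIn, not_not] at hz ⊢
  have hz' : ∀ i, ∃ y : Fin d → LP ℂ d, (∀ j, Supp {u | Om a H u} (y j)) ∧
      (i ∈ t → r i • z i = ∑ j, gs a (cF a c H) (ev j) * y j) := by
    intro i
    by_cases hi : i ∈ t
    · by_cases hr : r i = 0
      · exact ⟨fun _ => 0, fun _ => Supp.zero _, fun _ => by simp [hr]⟩
      · obtain ⟨y, hy, he⟩ := hz i hi hr
        refine ⟨fun j => r i • y j, fun j => (hy j).smul _, fun _ => ?_⟩
        rw [he, smul_sum]
        exact sum_congr rfl fun j _ => by rw [mul_smul_comm]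
    · exact ⟨fun _ => 0, fun _ => Supp.zero _, fun h => absurd h hi⟩
  choose y hy he using hz'
  refine ⟨fun j => ∑ i ∈ t, y i j, fun j => Supp.sum _ fun i _ => hy i j, ?_⟩
  rw [sum_congr rfl fun i hi => he i hi, sum_comm]
  exact sum_congr rfl fun j _ => by rw [mul_sum]

/-- the base of the induction -/
theorem flag_base {d : ℕ} {ι : Type} [Fintype ι] (a : ι → Lat d) (c : ι → ℂ)
    (δ : Lat d) (hδ : ∀ i, dt δ (a i) = 1) (H : Lat d) (i0 : ι)
    (h0 : dt H (a i0) = 0) (h1 : ∀ i, dt H (a i) = 0 → a i = a i0) :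
    Om a H (a i0) ∧ NotIn a c H (single (a i0) 1) := by
  classical
  refine ⟨fun g hg => ⟨hg i0, fun hz i hi => by rw [h1 i hi, hz], fun hz => hz i0 h0⟩, ?_⟩
  rintro ⟨y, hy, he⟩
  have hy0 : ∀ j, (y j).coeff 0 = 0 := by
    intro j
    by_contra hne
    have hOm : Om a H 0 := hy j 0 hne
    have h2 := (hOm δ (fun i => by rw [hδ i]; norm_num)).2.1 (dt_zero δ) i0 h0
    rw [hδ i0] at h2
    exact one_ne_zero h2
  have h3 := congrArg (fun z : LP ℂ d => z.coeff (a i0)) he
  simp only [coeff_single', if_true] at h3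
  rw [coeff_finsum] at h3
  rw [Finset.sum_eq_zero] at h3
  · exact one_ne_zero h3
  · intro j _
    rw [gs_mul_coeff]
    refine Finset.sum_eq_zero fun i _ => ?_
    by_cases hi : dt H (a i) = 0
    · rw [h1 i hi, sub_self, hy0 j, mul_zero]
    · simp [cF, hi]

/-- the interior of the larger face -/
theorem flag_om {d : ℕ} {ι : Type} [Fintype ι] (a : ι → Lat d) (H H' : Lat d)
    (hsub : ∀ i, dt H' (a i) = 0 → dt H (a i) = 0)
    (hrank : ∀ g : Lat d, (∀ i, dt H' (a i) = 0 → dt g (a i) = 0) →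
      ∃ N n : ℤ, N ≠ 0 ∧ ∀ i, dt H (a i) = 0 → N * dt g (a i) = n * dt H' (a i))
    (μ : Lat d) (hμ : Om a H' μ) (i1 : ι) (h1 : dt H (a i1) = 0) (h2 : dt H' (a i1) ≠ 0) :
    Om a H (μ + a i1) := by
  intro g hg
  obtain ⟨h3, h4⟩ := hμ g hg
  rw [dt_add]
  refine ⟨add_nonneg h3 (hg i1), fun hz i hi => ?_, fun hz => ?_⟩
  · have h5 : dt g μ = 0 := le_antisymm (by have := hg i1; linarith) h3
    have h6 : dt g (a i1) = 0 := by rw [h5, zero_add] at hz; exact hz
    obtain ⟨N, n, hN, hNn⟩ := hrank g (h4.1 h5)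
    have h7 := hNn i1 h1
    rw [h6, mul_zero] at h7
    have h8 : n = 0 := (mul_eq_zero.1 h7.symm).resolve_right h2
    have h9 := hNn i hi
    rw [h8, zero_mul] at h9
    exact (mul_eq_zero.1 h9).resolve_left hN
  · rw [h4.2 fun i hi => hz i (hsub i hi), hz i1 h1, add_zero]

/-- FLAG -/
theorem flag {d : ℕ} {ι κ : Type} [Fintype ι] [Fintype κ] (a : ι → Lat d) (c : ι → ℂ)
    (h : κ → Lat d) (δ : Lat d) (hδ : ∀ i, dt δ (a i) = 1) (hh : ∀ v i, 0 ≤ dt (h v) (a i))
    (hfac : ∀ u ∈ Sset h, ∃ N : ℕ, 0 < N ∧ ∃ n : ι → ℕ, N • u = ∑ i, n i • a i)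
    (hnd : TorusND a c) (s : ℕ) (H : ℕ → Lat d) (hH : ∀ j, j ≤ s → ∀ i, 0 ≤ dt (H j) (a i))
    (h0 : ∃ i0, dt (H 0) (a i0) = 0 ∧ ∀ i, dt (H 0) (a i) = 0 → a i = a i0)
    (hsub : ∀ j, j < s → ∀ i, dt (H j) (a i) = 0 → dt (H (j + 1)) (a i) = 0)
    (hstrict : ∀ j, j < s → ∃ i1, dt (H (j + 1)) (a i1) = 0 ∧ dt (H j) (a i1) ≠ 0)
    (hrank : ∀ j, j < s → ∀ g : Lat d, (∀ i, dt (H j) (a i) = 0 → dt g (a i) = 0) →
      ∃ N n : ℤ, N ≠ 0 ∧ ∀ i, dt (H (j + 1)) (a i) = 0 → N * dt g (a i) = n * dt (H j) (a i)) :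
    ∃ i : ℕ → ι, dt (H 0) (a (i 0)) = 0 ∧
      (∀ j, j < s → dt (H (j + 1)) (a (i (j + 1))) = 0 ∧ dt (H j) (a (i (j + 1))) ≠ 0) ∧
      Om a (H s) (∑ j ∈ range (s + 1), a (i j)) ∧
      NotIn a c (H s) (single (∑ j ∈ range (s + 1), a (i j)) 1) := by
  classical
  induction s with
  | zero =>
    obtain ⟨i0, h1, h2⟩ := h0
    obtain ⟨h3, h4⟩ := flag_base a c δ hδ (H 0) i0 h1 h2
    refine ⟨fun _ => i0, h1, fun j hj => absurd hj (Nat.not_lt_zero j), ?_, ?_⟩
    · simpa using h3
    · simpa using h4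
  | succ s ih =>
    obtain ⟨i, hi0, hi1, hOm, hNot⟩ := ih (fun j hj => hH j (by omega))
      (fun j hj => hsub j (by omega)) (fun j hj => hstrict j (by omega))
      (fun j hj => hrank j (by omega))
    set μ : Lat d := ∑ j ∈ range (s + 1), a (i j) with hμ
    have hst := fstep a c h δ hδ hh hfac hnd (H (s + 1)) (H s) (hH (s + 1) le_rfl)
      (hH s (by omega)) (hsub s (by omega)) (hstrict s (by omega)) (hrank s (by omega))
      (single μ 1) (Supp.single (S := {u | Om a (H s) u}) hOm 1) hNot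
    have hex : ∃ i1, dt (H (s + 1)) (a i1) = 0 ∧ dt (H s) (a i1) ≠ 0 ∧
        NotIn a c (H (s + 1)) (single (μ + a i1) 1) := by
      by_contra hcon
      push Not at hcon
      refine flag_smul_sum a c (H (s + 1)) Finset.univ
        (fun i' => cF a c (H (s + 1)) i' * (dt (H s) (a i') : ℂ))
        (fun i' => single (μ + a i') (1 : ℂ)) ?_ ?_
      · intro i' _ hne
        have h1 : dt (H (s + 1)) (a i') = 0 := by
          by_contra h2
          exact hne (by simp [cF, h2])
        have h2 : dt (H s) (a i') ≠ 0 := by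
          intro h3
          exact hne (by simp [h3])
        exact hcon i' h1 h2
      · have he : gs a (cF a c (H (s + 1))) (H s) * single μ (1 : ℂ) =
            ∑ i', (cF a c (H (s + 1)) i' * (dt (H s) (a i') : ℂ)) •
              single (μ + a i') (1 : ℂ) := by
          rw [gs, sum_mul]
          refine sum_congr rfl fun i' _ => ?_
          rw [AddMonoidAlgebra.single_mul_single, add_comm, mul_one,
            AddMonoidAlgebra.smul_single, smul_eq_mul, mul_one]
        rw [← he]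
        exact hst
    obtain ⟨i1, h1, h2, h3⟩ := hex
    have hlt : ∀ j, j < s + 1 → Function.update i (s + 1) i1 j = i j := fun j hj =>
      Function.update_of_ne (by omega) _ _
    have hsum : ∑ j ∈ range (s + 1 + 1), a (Function.update i (s + 1) i1 j) = μ + a i1 := by
      rw [sum_range_succ, Function.update_self, hμ]
      congr 1
      exact sum_congr rfl fun j hj => by rw [hlt j (Finset.mem_range.1 hj)]
    refine ⟨Function.update i (s + 1) i1, ?_, ?_, ?_, ?_⟩
    · rw [hlt 0 (by omega)]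
      exact hi0
    · intro j hj
      rcases Nat.lt_succ_iff_lt_or_eq.1 hj with hj' | rfl
      · rw [hlt (j + 1) (by omega)]
        exact hi1 j hj'
      · rw [Function.update_self]
        exact ⟨h1, h2⟩
    · rw [hsum]
      exact flag_om a (H (s + 1)) (H s) (hsub s (by omega)) (hrank s (by omega)) μ hOm i1 h1 h2
    · rw [hsum]
      exact h3

end Pool.Agent.H56.SMC
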