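import Pool.Agent.H56.SMC.APPG
import Pool.Agent.H56.SMC.LAM
import Pool.Agent.H56.SMC.RFIN
import Pool.Agent.H56.SMC.FLAG
import Pool.Agent.H56.SMC.FCH

/-!
# APPF: the criterion with a flag

Proof.  `A = cA a (bbM β M)`, `n' = supCard w`.  (1) `D` = a bound for `∑ α_j`, `α ∈ P.support`; choose `M > 0` with `M ≥ D w_j` and `M ≥ D v_j`, `M ≥ |v| + 1` for all `v` in the finite set `rfin a β`; `m0 > |v|` for all these `v`, `m0 ≥ 1`.
(2) `fspan`, `fac`: functionals `h`, `hfac`; `ndg`; `fch` and `flag` (`s = n`) give `i`, `μ = ∑_{j≤n} A (i j)` with `Om A h0 μ`, `NotIn A c h0 (single μ 1)`, and `q` with `μ = vec n' _ (∑_t a_{q t} + M 1_Z)`.  `y0 = (m0 - 1) • μ`; `InC A y0`; `dt h0 y0 = 0` (`Om` with `h = h0`).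
For a primitive ray `v`: `dt (vec (-N(v)) 0 v) μ = ∑_{t<n'} (v·a_{q t} - N(v)) + M ∑_{j∈Z} v_j`; if `v_j ≠ 0` for some `j ∈ Z` it is `≥ M ≥ |v| + 1`; otherwise `CritF` gives `≥ |v| + 1` (if `N(v) = 0`), `≥ l + 1` (in the situation of `hB`).  In `hB` `l ≤ |v|`.  With `V ∈ {|v|, l}`, `V ≤ |v| < m0`:
`(m0 - 1)(V + 1) ≥ m0 V`.  So `hA`, `hB`.
(3) `hno`: if `single 0 1 = ∑_j g_j t_j` then `single μ 1 = ∑_j g_j (single μ 1 * t_j)`; the exponents of `single μ 1 * t_j` are `u + μ` with `InC A (m0 u + y0)`, `dt h0 u = 0`; claim `Om A h0 (u + μ)`, contradicting `NotIn`.  Let `h''` be nonnegative on `A`.  `m0 dt h'' (u + μ) = dt h'' (m0 u + y0) + dt h'' μ ≥ dt h'' μ ≥ 0`.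
If `dt h'' (u + μ) = 0` then `dt h'' μ = 0`, so `h''` vanishes on the face (`Om A h0 μ`).  Conversely let `h''` vanish on the face `{dt h0 (A i) = 0}`: `dt h'' μ = 0` (`Om`), and `m0 u + y0 ∈ Sset h`, `N (m0 u + y0) = ∑ n_i A_i` (`hfac`) with `n_i = 0` off the face (`dt h0 = 0`), so `dt h'' (m0 u + y0) = 0`, `dt h'' u = 0`.
-/

set_option autoImplicit false

namespace Pool.Agent.H56.SMC

open Finset AddMonoidAlgebra

/-- arithmetic at the end of `hA`, `hB` -/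
theorem appf_arith {m0 V X : ℤ} (h1 : V + 1 ≤ X) (h2 : V < m0) (hm : 1 ≤ m0) :
    m0 * V ≤ (m0 - 1) * X := by
  have h3 : (m0 - 1) * (V + 1) ≤ (m0 - 1) * X := mul_le_mul_of_nonneg_left h1 (by linarith)
  nlinarith

theorem appf_wmin_le {n r : ℕ} (a : Fin r → (Fin n →₀ ℕ)) (v : Fin n → ℕ) (i : Fin r) :
    H22.wmin a v ≤ ∑ j, a i j * v j := by
  unfold H22.wmin
  exact ciInf_le (OrderBot.bddBelow _) i

theorem appf_rpos {n r : ℕ} (a : Fin r → (Fin n →₀ ℕ)) (w : Fin n → ℕ)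
    (hN : 0 < H22.wmin a w) : 0 < r := by
  rcases Nat.eq_zero_or_pos r with h | h
  · subst h
    unfold H22.wmin at hN
    simp at hN
  · exact h

theorem appf_delta {n r m : ℕ} (a : Fin r → (Fin n →₀ ℕ)) (β : Fin m → Fin n → ℤ) (M : ℤ)
    (i : Fin r ⊕ (Option (Fin n) ⊕ Fin m)) :
    dt (vec 1 1 0) (cA a (bbM β M) i) = 1 := by
  rcases i with i | k
  · simp [cA, dt_vec]
  · simp [cA, dt_vec]

/-- The interior of the face from the conic module. -/
theorem appf_om {d : ℕ} {ι κ : Type} [Fintype ι] [Fintype κ] (A : ι → Lat d) (h : κ → Lat d)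
    (hh : ∀ v i, 0 ≤ dt (h v) (A i))
    (hfac : ∀ u ∈ Sset h, ∃ N : ℕ, 0 < N ∧ ∃ n : ι → ℕ, N • u = ∑ i, n i • A i)
    (h0 : Lat d) (hh0 : ∀ i, 0 ≤ dt h0 (A i)) (μ : Lat d) (hμ : Om A h0 μ) (m0 : ℤ) (hm0 : 0 < m0)
    (u : Lat d) (hu : InC A (m0 • u + (m0 - 1) • μ)) (hu0 : dt h0 u = 0) :
    Om A h0 (u + μ) := by
  intro g hg
  obtain ⟨hμ1, hμ2⟩ := hμ g hg
  have hid : m0 * dt g (u + μ) = dt g (m0 • u + (m0 - 1) • μ) + dt g μ := by
    rw [dt_add, dt_add, dt_zsmul, dt_zsmul]; ring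
  have h1 := hu g hg
  have h2 : 0 ≤ dt g (u + μ) := by
    by_contra hcon
    push Not at hcon
    have : m0 * dt g (u + μ) < 0 := mul_neg_of_pos_of_neg hm0 hcon
    linarith
  refine ⟨h2, ?_, ?_⟩
  · intro h3
    rw [h3, mul_zero] at hid
    exact hμ2.1 (by linarith)
  · intro h3
    have hμ0 : dt g μ = 0 := hμ2.2 h3
    have hμ00 : dt h0 μ = 0 := (hμ h0 hh0).2.2 (fun i hi => hi)
    obtain ⟨N, hN, nn, hn⟩ := hfac (m0 • u + (m0 - 1) • μ) (fun v => hu (h v) (hh v))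
    have e0 : ∑ i, (nn i : ℤ) * dt h0 (A i) = 0 := by
      have e := congrArg (dt h0) hn
      rw [dt_nsmul, dt_sum, dt_add, dt_zsmul, dt_zsmul, hu0, hμ00] at e
      simp only [dt_nsmul, mul_zero, add_zero] at e
      exact e.symm
    have e1 : ∀ i, (nn i : ℤ) * dt h0 (A i) = 0 := by
      intro i
      exact (Finset.sum_eq_zero_iff_of_nonneg
        (fun i _ => mul_nonneg (Int.natCast_nonneg _) (hh0 i))).1 e0 i (Finset.mem_univ i)
    have e2 : (N : ℤ) * dt g (m0 • u + (m0 - 1) • μ) = 0 := by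
      have e := congrArg (dt g) hn
      rw [dt_nsmul, dt_sum] at e
      rw [e]
      refine Finset.sum_eq_zero fun i _ => ?_
      rw [dt_nsmul]
      rcases mul_eq_zero.1 (e1 i) with h4 | h4
      · rw [h4, zero_mul]
      · rw [h3 i h4, mul_zero]
    have e3 : dt g (m0 • u + (m0 - 1) • μ) = 0 := by
      rcases mul_eq_zero.1 e2 with h4 | h4
      · exact absurd h4 (by exact_mod_cast hN.ne')
      · exact h4
    rw [e3, hμ0, add_zero] at hid
    rcases mul_eq_zero.1 hid with h4 | h4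
    · exact absurd h4 hm0.ne'
    · exact h4

/-- APPF -/
theorem appf {n r m : ℕ} (a : Fin r → (Fin n →₀ ℕ)) (κ : Fin r → ℂ)
    (hnd : Nondeg a κ) (b : Polynomial ℂ) (P : H22.WeylS n)
    (hfe : H22.FunctionalEquation (fpoly a κ) b P) (w : Fin n → ℕ) (hw : FacetNormal a w)
    (hN : 0 < H22.wmin a w) (β : Fin m → Fin n → ℤ) (v : ℕ → Fin n → ℕ)
    (hc : CritF a w β v) :
    b.IsRoot (-(H22.wsum w : ℂ) / (H22.wmin a w : ℂ)) := by
  classical
  obtain ⟨hflag, hcrit⟩ := hc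
  have hw0 : w ≠ 0 := hw.1
  have hr : 0 < r := appf_rpos a w hN
  -- the cardinality of the support of `w` is positive
  have hsup : 0 < supCard w := by
    unfold supCard
    rw [Finset.card_pos]
    by_contra hcon
    rw [Finset.not_nonempty_iff_eq_empty] at hcon
    apply hw0
    funext j
    by_contra hj
    have : j ∈ univ.filter (fun j => w j ≠ 0) := by
      rw [Finset.mem_filter]; exact ⟨Finset.mem_univ j, hj⟩
    rw [hcon] at this
    exact absurd this (Finset.notMem_empty j)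
  have hβw : ∀ k, 0 < ∑ j, β k j * w j := by
    have h1 := (hflag.2.1 0 hsup).2.1
    rw [hflag.1] at h1
    exact h1
  -- the constants
  set D : ℕ := P.support.sup (fun α => ∑ j, α j) with hDdef
  have hD : ∀ α ∈ P.support, ∑ j, α j ≤ D := fun α hα =>
    Finset.le_sup (f := fun α : Fin n →₀ ℕ => ∑ j, α j) hα
  set F : Finset (Fin n → ℕ) := (rfin a β).toFinset with hF
  have hmemF : ∀ v', RayNormal a β v' → univ.gcd v' = 1 → v' ∈ F := by
    intro v' h1 h2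
    rw [hF, Set.Finite.mem_toFinset]
    exact ⟨h1, h2⟩
  set M0 : ℕ := 1 + D * ∑ j, w j + ∑ v' ∈ F, (D * ∑ j, v' j + (∑ j, v' j + 1)) with hM0
  have hFle : ∀ v' ∈ F, D * ∑ j, v' j + (∑ j, v' j + 1) ≤
      ∑ v' ∈ F, (D * ∑ j, v' j + (∑ j, v' j + 1)) := fun v' hv' =>
    Finset.single_le_sum (f := fun v' : Fin n → ℕ => D * ∑ j, v' j + (∑ j, v' j + 1))
      (fun _ _ => Nat.zero_le _) hv'
  have hMpos : (0 : ℤ) < (M0 : ℤ) := by
    have : 0 < M0 := by omega
    exact_mod_cast this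
  have hMw : ∀ j, (D : ℤ) * w j ≤ (M0 : ℤ) := by
    intro j
    have h1 : w j ≤ ∑ j, w j := Finset.single_le_sum (fun _ _ => Nat.zero_le _) (Finset.mem_univ j)
    have h2 : D * w j ≤ D * ∑ j, w j := Nat.mul_le_mul_left D h1
    have h3 : D * w j ≤ M0 := by omega
    exact_mod_cast h3
  have hMv : ∀ v' : Fin n → ℕ, RayNormal a β v' → univ.gcd v' = 1 →
      ∀ j, (D : ℤ) * v' j ≤ (M0 : ℤ) := by
    intro v' hv1 hv2 j
    have h0 := hFle v' (hmemF v' hv1 hv2)
    have h1 : v' j ≤ ∑ j, v' j :=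
      Finset.single_le_sum (fun _ _ => Nat.zero_le _) (Finset.mem_univ j)
    have h2 : D * v' j ≤ D * ∑ j, v' j := Nat.mul_le_mul_left D h1
    have h3 : D * v' j ≤ M0 := by omega
    exact_mod_cast h3
  have hMs : ∀ v' : Fin n → ℕ, RayNormal a β v' → univ.gcd v' = 1 →
      (H22.wsum v' : ℤ) + 1 ≤ (M0 : ℤ) := by
    intro v' hv1 hv2
    have h0 := hFle v' (hmemF v' hv1 hv2)
    have h3 : H22.wsum v' + 1 ≤ M0 := by
      unfold H22.wsum
      omega
    exact_mod_cast h3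
  set m1 : ℕ := 1 + ∑ v' ∈ F, (∑ j, v' j) with hm1
  have hm1pos : (0 : ℤ) < (m1 : ℤ) := by
    have : 0 < m1 := by omega
    exact_mod_cast this
  have hm1v : ∀ v' : Fin n → ℕ, RayNormal a β v' → univ.gcd v' = 1 →
      (H22.wsum v' : ℤ) < (m1 : ℤ) := by
    intro v' hv1 hv2
    have h0 : (∑ j, v' j) ≤ ∑ v' ∈ F, (∑ j, v' j) :=
      Finset.single_le_sum (f := fun v' : Fin n → ℕ => ∑ j, v' j)
        (fun _ _ => Nat.zero_le _) (hmemF v' hv1 hv2)
    have h3 : H22.wsum v' < m1 := by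
      unfold H22.wsum
      omega
    exact_mod_cast h3
  -- the coefficients of `H`
  obtain ⟨lam, hlam'⟩ := lam_exists (Finset.univ.image κ) (Option (Fin n) ⊕ Fin m)
  have hlam : AlgebraicIndependent (Algebra.adjoin ℚ (Set.range κ)) lam := by
    have e : ((Finset.univ.image κ : Finset ℂ) : Set ℂ) = Set.range κ := by
      rw [Finset.coe_image, Finset.coe_univ, Set.image_univ]
    rw [e] at hlam'
    exact hlam'
  -- the facets
  obtain ⟨mm, h, hh, -, -, hfac⟩ := fac (d := n + 1) (cA a (bbM β (M0 : ℤ))) (vec 1 1 0)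
    (appf_delta a β (M0 : ℤ)) (fspan hr a β (M0 : ℤ) hMpos)
  have hndg : TorusND (cA a (bbM β (M0 : ℤ))) (cC κ lam) := ndg a κ hnd (bbM β (M0 : ℤ)) lam hlam
  -- the flag
  obtain ⟨H, hHn, hHnn, hH0, hHsub, hHstr, hHrk, hHq⟩ := fch a w hw0 hN β v hflag (M0 : ℤ) hMpos
  obtain ⟨i, hi0, hi, hOm, hNot⟩ := flag (cA a (bbM β (M0 : ℤ))) (cC κ lam) h (vec 1 1 0)
    (appf_delta a β (M0 : ℤ)) hh hfac hndg n H hHnn hH0 hHsub hHstr hHrk
  obtain ⟨q, hq, hμ⟩ := hHq i hi0 hi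
  set μ : Lat (n + 2) := ∑ j ∈ range (n + 1), cA a (bbM β (M0 : ℤ)) (i j) with hμdef
  rw [hHn] at hOm hNot
  have hh0 : ∀ i, 0 ≤ dt (vec (-(H22.wmin a w : ℤ)) 0 (fun j => (w j : ℤ)))
      (cA a (bbM β (M0 : ℤ)) i) := by
    have := hHnn n le_rfl
    rw [hHn] at this
    exact this
  have hμ0 : dt (vec (-(H22.wmin a w : ℤ)) 0 (fun j => (w j : ℤ))) μ = 0 :=
    (hOm _ hh0).2.2 (fun i hi => hi)
  -- the value of a ray at `μ`
  have hval : ∀ v' : Fin n → ℕ, dt (vec (-(H22.wmin a v' : ℤ)) 0 (fun j => (v' j : ℤ))) μ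
      = (∑ t ∈ range (supCard w), ∑ j, ((a (q t) j : ℤ) * v' j)) - supCard w * H22.wmin a v'
        + (M0 : ℤ) * ∑ j, (if w j = 0 then (v' j : ℤ) else 0) := by
    intro v'
    rw [hμ, dt_vec]
    have e1 : ∑ j, (v' j : ℤ) * ((∑ t ∈ range (supCard w), (a (q t) j : ℤ))
        + if w j = 0 then (M0 : ℤ) else 0)
        = (∑ t ∈ range (supCard w), ∑ j, ((a (q t) j : ℤ) * v' j))
          + (M0 : ℤ) * ∑ j, (if w j = 0 then (v' j : ℤ) else 0) := by
      rw [Finset.sum_comm, Finset.mul_sum, ← Finset.sum_add_distrib]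
      refine Finset.sum_congr rfl fun j _ => ?_
      rw [mul_add, Finset.mul_sum]
      congr 1
      · exact Finset.sum_congr rfl fun t _ => mul_comm _ _
      · split_ifs <;> ring
    rw [e1]
    ring
  have hge : ∀ v' : Fin n → ℕ, ((supCard w * H22.wmin a v' : ℕ) : ℤ)
      ≤ ∑ t ∈ range (supCard w), ∑ j, ((a (q t) j : ℤ) * v' j) := by
    intro v'
    have h1 : supCard w * H22.wmin a v' ≤ ∑ t ∈ range (supCard w), ∑ j, (a (q t) j * v' j) := by
      calc supCard w * H22.wmin a v' = ∑ t ∈ range (supCard w), H22.wmin a v' := by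
            rw [Finset.sum_const, Finset.card_range, smul_eq_mul]
        _ ≤ _ := Finset.sum_le_sum fun t _ => appf_wmin_le a v' (q t)
    have h2 : ((supCard w * H22.wmin a v' : ℕ) : ℤ)
        ≤ ((∑ t ∈ range (supCard w), ∑ j, (a (q t) j * v' j) : ℕ) : ℤ) := by exact_mod_cast h1
    refine h2.trans (le_of_eq ?_)
    push_cast
    rfl
  have hzpos : ∀ v' : Fin n → ℕ, 0 ≤ ∑ j, (if w j = 0 then (v' j : ℤ) else 0) := by
    intro v'
    refine Finset.sum_nonneg fun j _ => ?_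
    split_ifs
    · exact Int.natCast_nonneg _
    · exact le_rfl
  have hcase1 : ∀ v' : Fin n → ℕ, RayNormal a β v' → univ.gcd v' = 1 →
      (¬ ∀ j, w j = 0 → v' j = 0) →
      (H22.wsum v' : ℤ) + 1 ≤ dt (vec (-(H22.wmin a v' : ℤ)) 0 (fun j => (v' j : ℤ))) μ := by
    intro v' hv1 hv2 hne
    push Not at hne
    obtain ⟨j0, hj0, hj1⟩ := hne
    have h1 : (1 : ℤ) ≤ ∑ j, (if w j = 0 then (v' j : ℤ) else 0) := by
      have h2 : (if w j0 = 0 then (v' j0 : ℤ) else 0)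
          ≤ ∑ j, (if w j = 0 then (v' j : ℤ) else 0) := by
        refine Finset.single_le_sum (f := fun j => (if w j = 0 then (v' j : ℤ) else 0))
          (fun j _ => ?_) (Finset.mem_univ j0)
        beta_reduce
        split_ifs
        · exact Int.natCast_nonneg _
        · exact le_rfl
      rw [if_pos hj0] at h2
      have h3 : (1 : ℤ) ≤ (v' j0 : ℤ) := by
        have : 1 ≤ v' j0 := Nat.one_le_iff_ne_zero.2 hj1
        exact_mod_cast this
      linarith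
    have h4 : (M0 : ℤ) * 1 ≤ (M0 : ℤ) * ∑ j, (if w j = 0 then (v' j : ℤ) else 0) :=
      mul_le_mul_of_nonneg_left h1 hMpos.le
    have h5 := hge v'
    have h6 := hMs v' hv1 hv2
    rw [hval v']
    push_cast at h5
    linarith
  have hcast : ∀ v' : Fin n → ℕ,
      ((∑ t ∈ range (supCard w), ∑ j, a (q t) j * v' j : ℕ) : ℤ)
        = ∑ t ∈ range (supCard w), ∑ j, ((a (q t) j : ℤ) * v' j) := by
    intro v'
    push_cast
    rfl
  have hm1one : (1 : ℤ) ≤ (m1 : ℤ) := by linarith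
  refine appg a κ hnd b P hfe w hw hN β hβw D hD (M0 : ℤ) hMpos hMw hMv (m1 : ℤ) hm1pos
    (((m1 : ℤ) - 1) • μ) ?_ ?_ ?_ ?_ lam hlam ?_
  · intro g hg
    rw [dt_zsmul]
    exact mul_nonneg (by linarith) (hOm g hg).1
  · rw [dt_zsmul, hμ0, mul_zero]
  · intro v' hv1 hv2 hv3
    rw [dt_zsmul]
    refine appf_arith ?_ (hm1v v' hv1 hv2) hm1one
    by_cases hz : ∀ j, w j = 0 → v' j = 0
    · have h1 := (hcrit q hq v' hv1 hv2 hz).1 hv3
      have h2 : (H22.wsum v' : ℤ) + 1 ≤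
          ((∑ t ∈ range (supCard w), ∑ j, a (q t) j * v' j : ℕ) : ℤ) := by exact_mod_cast h1
      rw [hcast v'] at h2
      have h3 : 0 ≤ (M0 : ℤ) * ∑ j, (if w j = 0 then (v' j : ℤ) else 0) :=
        mul_nonneg hMpos.le (hzpos v')
      rw [hval v', hv3]
      push_cast
      linarith
    · exact hcase1 v' hv1 hv2 hz
  · intro v' hv1 hv2 hv3 l hl hle
    rw [dt_zsmul]
    have hlv : l ≤ H22.wsum v' := by
      have h1 : l * H22.wmin a w ≤ H22.wsum v' * H22.wmin a w := by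
        rw [hle]; exact Nat.le_add_right _ _
      exact Nat.le_of_mul_le_mul_right h1 hN
    have hlv' : (l : ℤ) ≤ (H22.wsum v' : ℤ) := by exact_mod_cast hlv
    refine appf_arith ?_ (lt_of_le_of_lt hlv' (hm1v v' hv1 hv2)) hm1one
    by_cases hz : ∀ j, w j = 0 → v' j = 0
    · have h1 := (hcrit q hq v' hv1 hv2 hz).2 hv3 l hl hle
      have h2 : (l : ℤ) + supCard w * H22.wmin a v' + 1 ≤
          ((∑ t ∈ range (supCard w), ∑ j, a (q t) j * v' j : ℕ) : ℤ) := by exact_mod_cast h1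
      rw [hcast v'] at h2
      have h3 : 0 ≤ (M0 : ℤ) * ∑ j, (if w j = 0 then (v' j : ℤ) else 0) :=
        mul_nonneg hMpos.le (hzpos v')
      rw [hval v']
      linarith
    · have := hcase1 v' hv1 hv2 hz
      linarith
  · rintro ⟨t, ht, hs⟩
    apply hNot
    refine ⟨fun j => single μ 1 * t j, ?_, ?_⟩
    · intro j u hu
      rw [single_mul_coeff] at hu
      have h1 : (t j).coeff (u - μ) ≠ 0 := fun h0 => hu (by rw [h0, mul_zero])
      have h2 := ht j _ h1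
      have h3 := appf_om (cA a (bbM β (M0 : ℤ))) h hh hfac _ hh0 μ hOm (m1 : ℤ) hm1pos (u - μ)
        h2.1 h2.2.1
      rw [sub_add_cancel] at h3
      exact h3
    · have h1 : (single μ 1 : LP ℂ (n + 2)) = single μ 1 * single 0 1 := by
        rw [AddMonoidAlgebra.single_mul_single, add_zero, mul_one]
      refine h1.trans ?_
      rw [hs, Finset.mul_sum]
      refine Finset.sum_congr rfl fun j _ => ?_
      beta_reduce
      ring

end Pool.Agent.H56.SMC
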