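import Pool.Agent.H56.SMC.APPG
import Pool.Agent.H56.SMC.LAM
import Pool.Agent.H56.SMC.RFIN

/-!
# APPT: the criterion with `θ`

Proof.  `Z = {j : w_j = 0}`, `z = |Z|`.  (1) Choose `m0 > 0` with `m0 θ_i ∈ ℕ` for all `i` and `m0 (1 - ∑ θ_i) > z` (a large multiple of the common denominator).
(2) `D` = a bound for `∑ α_j`, `α ∈ P.support`.  Choose `M > 0` with `M ≥ D w_j`, and `M ≥ D v_j`, `M ≥ m0 |v|` for all `v` in the finite set `rfin a β`.
(3) `lam` from `lam_exists` (`T` = the image of `κ`).  `y0 = ∑_i (m0 θ_i) (1,0;a_i) + ∑_{j∈Z} (0,1;M e_j)` (natural coefficients, so `InC`); `dt h0 y0 = 0` (`θ_i ≠ 0` only on the face; `w_j = 0` on `Z`), `dt δ y0 = m0 ∑ θ_i + z < m0`.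
For a primitive ray `v`: `dt (vec (-N(v)) 0 v) y0 = ∑_i m0 θ_i (v·a_i - N(v)) + M ∑_{j∈Z} v_j`.  If `v_j ≠ 0` for some `j ∈ Z` it is `≥ M ≥ m0 |v|`, and `l ≤ |v|` in `hB` (from `|v| N(w) = l N(w) + N(v) |w| ≥ l N(w)`).  If `v_j = 0` on `Z`: `Crit`.
(4) `hno`: an exponent `u` of `t_j` would satisfy (`InC` with the functional `δ`) `0 ≤ m0 dt δ u + dt δ y0 = -m0 + dt δ y0 < 0`; so all `t_j = 0` and `single 0 1 = 0`, a contradiction.
-/

set_option autoImplicit false

namespace Pool.Agent.H56.SMC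

open Finset AddMonoidAlgebra

/-- the vector `y0` -/
def APPT_y {n r : ℕ} (a : Fin r → (Fin n →₀ ℕ)) (t : Fin r → ℕ) (Z : Finset (Fin n)) (M : ℤ) :
    Lat (n + 2) :=
  ∑ i, (t i : ℤ) • vec 1 0 (fun j => (a i j : ℤ)) + ∑ j ∈ Z, vec 0 1 (M • ev j)

theorem APPT_dt {n r : ℕ} (a : Fin r → (Fin n →₀ ℕ)) (t : Fin r → ℕ) (Z : Finset (Fin n)) (M : ℤ)
    (c e : ℤ) (q : Fin n → ℤ) :
    dt (vec c e q) (APPT_y a t Z M) =
      ∑ i, (t i : ℤ) * (c + ∑ j, q j * (a i j : ℤ)) + ∑ j ∈ Z, (e + M * q j) := by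
  unfold APPT_y
  rw [dt_add, dt_sum, dt_sum]
  congr 1
  · refine sum_congr rfl fun i _ => ?_
    rw [dt_zsmul, dt_vec]
    ring
  · refine sum_congr rfl fun j _ => ?_
    rw [dt_vec]
    have : ∑ k, q k * (M • ev j : Lat n) k = M * q j := by
      rw [Finset.sum_eq_single j]
      · simp only [Pi.smul_apply, ev, Pi.single_eq_same, smul_eq_mul, mul_one]
        ring
      · intro k _ hk
        simp only [Pi.smul_apply, ev, smul_eq_mul]
        rw [Pi.single_eq_of_ne hk, mul_zero, mul_zero]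
      · intro h
        exact absurd (mem_univ j) h
    rw [this]
    ring

theorem APPT_inC {n r m : ℕ} (a : Fin r → (Fin n →₀ ℕ)) (β : Fin m → Fin n → ℤ) (t : Fin r → ℕ)
    (Z : Finset (Fin n)) (M : ℤ) : InC (cA a (bbM β M)) (APPT_y a t Z M) := by
  intro h hh
  unfold APPT_y
  rw [dt_add, dt_sum, dt_sum]
  apply add_nonneg
  · refine sum_nonneg fun i _ => ?_
    rw [dt_zsmul]
    exact mul_nonneg (Int.natCast_nonneg _) (hh (Sum.inl i))
  · refine sum_nonneg fun j _ => ?_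
    exact hh (Sum.inr (Sum.inl (some j)))

theorem APPT_wmin_le {n r : ℕ} (a : Fin r → (Fin n →₀ ℕ)) (v : Fin n → ℕ) (i : Fin r) :
    H22.wmin a v ≤ ∑ j, a i j * v j := by
  unfold H22.wmin
  exact ciInf_le (OrderBot.bddBelow _) i

/-- common denominator -/
theorem APPT_den {r : ℕ} (θ : Fin r → ℚ) (h0 : ∀ i, 0 ≤ θ i) (h1 : ∑ i, θ i < 1) (z : ℕ) :
    ∃ (m0 : ℕ) (t : Fin r → ℕ), 0 < m0 ∧ (∀ i, (t i : ℚ) = m0 * θ i) ∧ ∑ i, t i + z < m0 := by
  classical
  set dn : ℕ := ∏ i, (θ i).den with hdn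
  have hdn0 : 0 < dn := Finset.prod_pos fun i _ => (θ i).den_pos
  have hc : ∀ i, ∃ c : ℕ, (c : ℚ) = dn * θ i := by
    intro i
    obtain ⟨k, hk⟩ : (θ i).den ∣ dn := Finset.dvd_prod_of_mem _ (mem_univ i)
    refine ⟨k * (θ i).num.toNat, ?_⟩
    have hnum : ((θ i).num.toNat : ℤ) = (θ i).num :=
      Int.toNat_of_nonneg (Rat.num_nonneg.2 (h0 i))
    have hnum' : (((θ i).num.toNat : ℕ) : ℚ) = ((θ i).num : ℚ) := by
      exact_mod_cast hnum
    push_cast
    rw [hnum', hk]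
    push_cast
    have h3 : ((θ i).den : ℚ) * θ i = (θ i).num := by
      rw [mul_comm]
      exact Rat.mul_den_eq_num (θ i)
    linear_combination (-(k : ℚ)) * h3
  choose c hc using hc
  refine ⟨(z + 1) * dn, fun i => (z + 1) * c i, by positivity, fun i => ?_, ?_⟩
  · push_cast
    rw [hc i]
    ring
  · have hs : ((∑ i, c i : ℕ) : ℚ) < (dn : ℚ) := by
      push_cast
      rw [sum_congr rfl fun i _ => hc i, ← mul_sum]
      have : (0 : ℚ) < dn := by exact_mod_cast hdn0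
      nlinarith
    have hs' : ∑ i, c i + 1 ≤ dn := by exact_mod_cast hs
    rw [← mul_sum]
    nlinarith

/-- APPT -/
theorem appt {n r m : ℕ} (a : Fin r → (Fin n →₀ ℕ)) (κ : Fin r → ℂ)
    (hnd : Nondeg a κ) (b : Polynomial ℂ) (P : H22.WeylS n)
    (hfe : H22.FunctionalEquation (fpoly a κ) b P) (w : Fin n → ℕ) (hw : FacetNormal a w)
    (hN : 0 < H22.wmin a w) (β : Fin m → Fin n → ℤ) (θ : Fin r → ℚ) (hc : Crit a w β θ) :
    b.IsRoot (-(H22.wsum w : ℂ) / (H22.wmin a w : ℂ)) := by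
  classical
  obtain ⟨hβw, hθ0, hθw, hθ1, hray⟩ := hc
  set Z : Finset (Fin n) := univ.filter fun j => w j = 0 with hZ
  obtain ⟨m0, t, hm0, ht, htz⟩ := APPT_den θ hθ0 hθ1 Z.card
  set D : ℕ := P.support.sup fun α => ∑ j, α j with hD
  set F : Finset (Fin n → ℕ) := (rfin a β).toFinset with hF
  set M : ℕ := 1 + D * ∑ j, w j + ∑ v ∈ F, (D + m0) * H22.wsum v with hM
  have hMpos : 0 < M := by omega
  have hle_sum : ∀ (v : Fin n → ℕ) (j : Fin n), v j ≤ H22.wsum v := fun v j =>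
    Finset.single_le_sum (fun _ _ => Nat.zero_le _) (mem_univ j)
  have hMw : ∀ j, (D : ℤ) * w j ≤ (M : ℤ) := by
    intro j
    have h1 : D * w j ≤ D * ∑ j, w j := Nat.mul_le_mul_left _ (hle_sum w j)
    have h2 : D * w j ≤ M := by omega
    exact_mod_cast h2
  have hMF : ∀ v : Fin n → ℕ, RayNormal a β v → univ.gcd v = 1 → (D + m0) * H22.wsum v ≤ M := by
    intro v hv hg
    have h1 : v ∈ F := by
      rw [hF, Set.Finite.mem_toFinset]
      exact ⟨hv, hg⟩
    have h2 := Finset.single_le_sum (f := fun v => (D + m0) * H22.wsum v)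
      (fun _ _ => Nat.zero_le _) h1
    have h3 : (D + m0) * H22.wsum v ≤ ∑ v ∈ F, (D + m0) * H22.wsum v := h2
    omega
  have hMv : ∀ v : Fin n → ℕ, RayNormal a β v → univ.gcd v = 1 → ∀ j, (D : ℤ) * v j ≤ (M : ℤ) := by
    intro v hv hg j
    have h1 := hMF v hv hg
    have h2 := hle_sum v j
    have h3 : D * v j ≤ M := by nlinarith
    exact_mod_cast h3
  have hMm : ∀ v : Fin n → ℕ, RayNormal a β v → univ.gcd v = 1 → m0 * H22.wsum v ≤ M := by
    intro v hv hg
    have h1 := hMF v hv hg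
    nlinarith [Nat.zero_le (D * H22.wsum v)]
  obtain ⟨lam, hlam⟩ := lam_exists (univ.image κ) (Option (Fin n) ⊕ Fin m)
  have hcoe : ((univ.image κ : Finset ℂ) : Set ℂ) = Set.range κ := by
    rw [coe_image, coe_univ, Set.image_univ]
  rw [hcoe] at hlam
  set y0 : Lat (n + 2) := APPT_y a t Z (M : ℤ) with hy0
  -- the value on the rays
  have hval : ∀ v : Fin n → ℕ, dt (vec (-(H22.wmin a v : ℤ)) 0 (fun j => (v j : ℤ))) y0 =
      ∑ i, (t i : ℤ) * ((∑ j, a i j * v j : ℕ) - (H22.wmin a v : ℤ)) +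
        (M : ℤ) * ∑ j ∈ Z, (v j : ℤ) := by
    intro v
    rw [hy0, APPT_dt]
    congr 1
    · refine sum_congr rfl fun i _ => ?_
      push_cast
      rw [neg_add_eq_sub]
      congr 2
      exact sum_congr rfl fun j _ => mul_comm _ _
    · rw [mul_sum]
      exact sum_congr rfl fun j _ => by ring
  have hnn : ∀ v : Fin n → ℕ, ∀ i,
      0 ≤ (t i : ℤ) * ((∑ j, a i j * v j : ℕ) - (H22.wmin a v : ℤ)) := by
    intro v i
    apply mul_nonneg (Int.natCast_nonneg _)
    have := APPT_wmin_le a v i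
    rw [sub_nonneg]
    exact_mod_cast this
  -- rays with a nonzero coordinate in `Z`
  have hbig : ∀ v : Fin n → ℕ, (∃ j, w j = 0 ∧ v j ≠ 0) →
      (M : ℤ) ≤ dt (vec (-(H22.wmin a v : ℤ)) 0 (fun j => (v j : ℤ))) y0 := by
    rintro v ⟨j, hj, hvj⟩
    rw [hval]
    have h1 : 0 ≤ ∑ i, (t i : ℤ) * ((∑ j, a i j * v j : ℕ) - (H22.wmin a v : ℤ)) :=
      sum_nonneg fun i _ => hnn v i
    have h2 : (1 : ℤ) ≤ ∑ j ∈ Z, (v j : ℤ) := by
      have h3 : (v j : ℤ) ≤ ∑ j ∈ Z, (v j : ℤ) :=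
        Finset.single_le_sum (f := fun j => (v j : ℤ)) (fun _ _ => Int.natCast_nonneg _)
          (mem_filter.2 ⟨mem_univ j, hj⟩)
      have h4 : 1 ≤ v j := Nat.one_le_iff_ne_zero.2 hvj
      have h5 : (1 : ℤ) ≤ v j := by exact_mod_cast h4
      linarith
    have h6 : (M : ℤ) * 1 ≤ (M : ℤ) * ∑ j ∈ Z, (v j : ℤ) :=
      mul_le_mul_of_nonneg_left h2 (Int.natCast_nonneg _)
    linarith
  -- the other rays
  have hsmall : ∀ v : Fin n → ℕ, (∀ j, w j = 0 → v j = 0) →
      ((dt (vec (-(H22.wmin a v : ℤ)) 0 (fun j => (v j : ℤ))) y0 : ℤ) : ℚ) =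
        m0 * ∑ i, θ i * ((∑ j, a i j * v j : ℕ) - (H22.wmin a v : ℚ)) := by
    intro v hv
    rw [hval]
    have h1 : ∑ j ∈ Z, (v j : ℤ) = 0 := by
      refine sum_eq_zero fun j hj => ?_
      rw [hv j (mem_filter.1 hj).2]
      rfl
    rw [h1, mul_zero, add_zero, mul_sum]
    push_cast
    refine sum_congr rfl fun i _ => ?_
    rw [ht i]
    ring
  refine appg a κ hnd b P hfe w hw hN β hβw D ?_ (M : ℤ) (by exact_mod_cast hMpos) hMw hMv
    (m0 : ℤ) (by exact_mod_cast hm0) y0 (APPT_inC a β t Z _) ?_ ?_ ?_ lam hlam ?_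
  · intro α hα
    exact Finset.le_sup (f := fun α : Fin n →₀ ℕ => ∑ j, α j) hα
  · rw [hval]
    have h1 : ∑ j ∈ Z, (w j : ℤ) = 0 := by
      refine sum_eq_zero fun j hj => ?_
      rw [(mem_filter.1 hj).2]
      rfl
    rw [h1, mul_zero, add_zero]
    refine sum_eq_zero fun i _ => ?_
    by_cases hi : θ i = 0
    · have h2 := ht i
      rw [hi, mul_zero] at h2
      have h3 : t i = 0 := by exact_mod_cast h2
      rw [h3]
      simp
    · rw [hθw i hi, sub_self, mul_zero]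
  · intro v hv hg hv0
    by_cases hcase : ∃ j, w j = 0 ∧ v j ≠ 0
    · have h1 := hbig v hcase
      have h2 : ((m0 * H22.wsum v : ℕ) : ℤ) ≤ (M : ℤ) := by exact_mod_cast hMm v hv hg
      push_cast at h2
      linarith
    · push Not at hcase
      have h1 := (hray v hv hg hcase).1 hv0
      have h2 := hsmall v hcase
      have h3 : ((m0 : ℤ) * H22.wsum v : ℤ) ≤
          dt (vec (-(H22.wmin a v : ℤ)) 0 (fun j => (v j : ℤ))) y0 := by
        have h4 : (((m0 : ℤ) * H22.wsum v : ℤ) : ℚ) ≤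
            ((dt (vec (-(H22.wmin a v : ℤ)) 0 (fun j => (v j : ℤ))) y0 : ℤ) : ℚ) := by
          rw [h2]
          push_cast
          apply mul_le_mul_of_nonneg_left _ (Nat.cast_nonneg _)
          refine h1.trans (le_of_eq ?_)
          refine sum_congr rfl fun i _ => ?_
          rw [hv0]
          push_cast
          ring
        exact_mod_cast h4
      exact h3
  · intro v hv hg hk l hl heq
    by_cases hcase : ∃ j, w j = 0 ∧ v j ≠ 0
    · have h1 := hbig v hcase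
      have h2 := hMm v hv hg
      have h3 : l ≤ H22.wsum v := by
        have h4 : l * H22.wmin a w ≤ H22.wsum v * H22.wmin a w := by
          rw [heq]
          exact Nat.le_add_right _ _
        exact Nat.le_of_mul_le_mul_right h4 hN
      have h5 : m0 * l ≤ M := (Nat.mul_le_mul_left m0 h3).trans h2
      have h6 : ((m0 * l : ℕ) : ℤ) ≤ (M : ℤ) := by exact_mod_cast h5
      push_cast at h6
      linarith
    · push Not at hcase
      have h1 := (hray v hv hg hcase).2 hk l hl heq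
      have h2 := hsmall v hcase
      have h4 : (((m0 : ℤ) * l : ℤ) : ℚ) ≤
          ((dt (vec (-(H22.wmin a v : ℤ)) 0 (fun j => (v j : ℤ))) y0 : ℤ) : ℚ) := by
        rw [h2]
        push_cast
        apply mul_le_mul_of_nonneg_left _ (Nat.cast_nonneg _)
        push_cast at h1
        exact h1
      exact_mod_cast h4
  · rintro ⟨T, hT, hTe⟩
    have hδ : dt (vec 1 1 0) y0 < (m0 : ℤ) := by
      rw [hy0, APPT_dt]
      simp only [Pi.zero_apply, zero_mul, sum_const_zero, add_zero, mul_one, mul_zero,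
        sum_const, nsmul_eq_mul]
      exact_mod_cast htz
    have hT0 : ∀ j, T j = 0 := by
      intro j
      apply lp_ext
      intro u
      by_contra hne
      obtain ⟨h1, _, h3⟩ := hT j u hne
      have h4 := h1 (vec 1 1 0) (by
        rintro (i | k)
        · show 0 ≤ dt (vec 1 1 0) (vec 1 0 (fun j => (a i j : ℤ)))
          rw [dt_vec]
          simp
        · show 0 ≤ dt (vec 1 1 0) (vec 0 1 (bbM β (M : ℤ) k))
          rw [dt_vec]
          simp)
      rw [dt_add, dt_zsmul, h3] at h4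
      linarith
    have h5 : (single 0 1 : LP ℂ (n + 2)) = 0 := by
      rw [hTe]
      refine sum_eq_zero fun j _ => ?_
      rw [hT0 j, mul_zero]
    have h6 := congrArg (fun x : LP ℂ (n + 2) => x.coeff 0) h5
    simp only [coeff_single', if_true, coeff_zero'] at h6
    exact one_ne_zero h6

end Pool.Agent.H56.SMC
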