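import Pool.Agent.H56.SMC.RAYZ

/-!
# BIGX: big facets satisfy the criterion (without `β`)

Proof.  `P = ∑ θ_i a_i` with real `θ_i ≥ 0`, `∑ θ_i = 1`, supported on the face (a finite set of points: `Finset.mem_convexHull`/`mem_convexHull_of..`; the map `i ↦ pointR a i` need not be injective, but the image set is finite), `P_k > 1` for `k ∈ K' = {k : w_k ≠ 0, ∃ i, a_ik = 0}`.  Replace the `θ_i` by
rational numbers: choose `0 < t < 1` with `t P_k > 1` for `k ∈ K'`, and rationals `θ'_i = ⌊N t θ_i⌋/N` with `N` large: `θ'_i ≥ 0`, zero off the face, `∑ θ'_i ≤ t < 1`, `∑ θ'_i a_ik ≥ t P_k - (∑ a_ik)/N ≥ 1` for `k ∈ K'`.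
`Crit` with `m = 0`: the last condition is empty.  For a primitive `RayNormal` `v` with `wmin a v = 0` and `v_j = 0` where `w_j = 0`: `v = e_k`, `a_ik = 0` for some `i` by `rayz`, `w_k ≠ 0`, so `wsum v = 1 ≤ ∑ θ'_i a_ik`.
-/

set_option autoImplicit false

namespace Pool.Agent.H56.SMC

open Finset AddMonoidAlgebra

theorem bigx_hull {n r : ℕ} (a : Fin r → (Fin n →₀ ℕ)) (T : Set (Fin r)) (P : Fin n → ℝ)
    (hP : P ∈ convexHull ℝ (H22.pointR a '' T)) :
    ∃ θ : Fin r → ℝ, (∀ i, 0 ≤ θ i) ∧ (∀ i, θ i ≠ 0 → i ∈ T) ∧ ∑ i, θ i = 1 ∧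
      ∀ k, P k = ∑ i, θ i * (a i k : ℝ) := by
  classical
  let C : Set (Fin n → ℝ) := {P | ∃ θ : Fin r → ℝ, (∀ i, 0 ≤ θ i) ∧ (∀ i, θ i ≠ 0 → i ∈ T) ∧
    ∑ i, θ i = 1 ∧ ∀ k, P k = ∑ i, θ i * (a i k : ℝ)}
  have hC : Convex ℝ C := by
    rintro x ⟨θ, h1, h2, h3, h4⟩ y ⟨θ', h1', h2', h3', h4'⟩ s t hs ht hst
    refine ⟨fun i => s * θ i + t * θ' i, ?_, ?_, ?_, ?_⟩
    · intro i
      have := mul_nonneg hs (h1 i)
      have := mul_nonneg ht (h1' i)
      simp only
      linarith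
    · intro i hi
      by_contra hT
      apply hi
      have e1 : θ i = 0 := by
        by_contra h
        exact hT (h2 i h)
      have e2 : θ' i = 0 := by
        by_contra h
        exact hT (h2' i h)
      simp [e1, e2]
    · rw [sum_add_distrib, ← mul_sum, ← mul_sum, h3, h3']
      linarith
    · intro k
      simp only [Pi.add_apply, Pi.smul_apply, smul_eq_mul, h4 k, h4' k, mul_sum]
      rw [← sum_add_distrib]
      exact sum_congr rfl fun i _ => by ring
  have hsub : H22.pointR a '' T ⊆ C := by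
    rintro x ⟨i, hi, rfl⟩
    refine ⟨Pi.single i 1, ?_, ?_, ?_, ?_⟩
    · intro j
      by_cases h : j = i
      · subst h; simp
      · simp [h]
    · intro j hj
      by_cases h : j = i
      · subst h; exact hi
      · simp [h] at hj
    · simp
    · intro k
      simp [H22.pointR, Pi.single_apply]
  exact convexHull_min hsub hC hP

/-- BIGX -/
theorem bigx {n r : ℕ} (a : Fin r → (Fin n →₀ ℕ)) (w : Fin n → ℕ) (hb : Big a w) :
    ∃ θ : Fin r → ℚ, Crit a w (Fin.elim0 : Fin 0 → Fin n → ℤ) θ := by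
  classical
  obtain ⟨P, hP, hbig⟩ := hb
  obtain ⟨θ, h1, h2, h3, h4⟩ := bigx_hull a _ P hP
  -- the number t
  have ht : ∀ᶠ t : ℝ in nhdsWithin 1 (Set.Iio 1), (∀ k, w k ≠ 0 → (∃ i, a i k = 0) → 1 < t * P k) ∧ 0 < t ∧ t < 1 := by
    have e1 : ∀ k : Fin n, ∀ᶠ t : ℝ in nhdsWithin 1 (Set.Iio 1), w k ≠ 0 → (∃ i, a i k = 0) → 1 < t * P k := by
      intro k
      by_cases hk : w k ≠ 0 ∧ (∃ i, a i k = 0)
      · have hc : Filter.Tendsto (fun t : ℝ => t * P k) (nhdsWithin 1 (Set.Iio 1)) (nhds (1 * P k)) := by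
          apply Filter.Tendsto.mono_left _ nhdsWithin_le_nhds
          exact (continuous_id.mul continuous_const).tendsto 1
        have := hc.eventually (lt_mem_nhds (by rw [one_mul]; exact hbig k hk.1 hk.2))
        exact this.mono fun t ht _ _ => ht
      · exact Filter.Eventually.of_forall fun t h h' => absurd ⟨h, h'⟩ hk
    have e2 : ∀ᶠ t : ℝ in nhdsWithin 1 (Set.Iio 1), 0 < t :=
      nhdsWithin_le_nhds (lt_mem_nhds one_pos)
    have e3 : ∀ᶠ t : ℝ in nhdsWithin 1 (Set.Iio 1), t < 1 := self_mem_nhdsWithin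
    filter_upwards [Filter.eventually_all.2 e1, e2, e3] with t a1 a2 a3
    exact ⟨a1, a2, a3⟩
  obtain ⟨t, ht1, ht0, htlt⟩ := ht.exists
  -- the number N
  have hN : ∀ᶠ N : ℕ in Filter.atTop, (∀ k, w k ≠ 0 → (∃ i, a i k = 0) → (∑ i, (a i k : ℝ)) / N ≤ t * P k - 1) ∧ 0 < N := by
    have e1 : ∀ k : Fin n, ∀ᶠ N : ℕ in Filter.atTop, w k ≠ 0 → (∃ i, a i k = 0) → (∑ i, (a i k : ℝ)) / N ≤ t * P k - 1 := by
      intro k
      by_cases hk : w k ≠ 0 ∧ (∃ i, a i k = 0)
      · have hc : Filter.Tendsto (fun N : ℕ => (∑ i, (a i k : ℝ)) / N) Filter.atTop (nhds 0) :=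
          tendsto_const_div_atTop_nhds_zero_nat _
        have hpos : 0 < t * P k - 1 := by linarith [ht1 k hk.1 hk.2]
        exact (hc.eventually (gt_mem_nhds hpos)).mono fun N hN _ _ => hN.le
      · exact Filter.Eventually.of_forall fun t h h' => absurd ⟨h, h'⟩ hk
    filter_upwards [Filter.eventually_all.2 e1, Filter.eventually_gt_atTop 0] with N a1 a2
    exact ⟨a1, a2⟩
  obtain ⟨N, hN1, hN0⟩ := hN.exists
  have hNr : (0 : ℝ) < N := by exact_mod_cast hN0
  let θ' : Fin r → ℚ := fun i => (⌊(N : ℝ) * (t * θ i)⌋₊ : ℚ) / N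
  have hle : ∀ i, ((θ' i : ℚ) : ℝ) ≤ t * θ i := by
    intro i
    simp only [θ']
    push_cast
    rw [div_le_iff₀ hNr]
    have := Nat.floor_le (a := (N : ℝ) * (t * θ i)) (by have := h1 i; positivity)
    linarith
  have hge : ∀ i, t * θ i - 1 / N ≤ ((θ' i : ℚ) : ℝ) := by
    intro i
    simp only [θ']
    push_cast
    rw [le_div_iff₀ hNr, sub_mul, one_div, inv_mul_cancel₀ hNr.ne']
    have := Nat.lt_floor_add_one ((N : ℝ) * (t * θ i))
    linarith
  refine ⟨θ', fun k => k.elim0, ?_, ?_, ?_, ?_⟩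
  · intro i
    simp only [θ']
    positivity
  · intro i hi
    have : θ i ≠ 0 := by
      intro h
      apply hi
      simp [θ', h]
    exact h2 i this
  · have : ((∑ i, θ' i : ℚ) : ℝ) < 1 := by
      push_cast
      calc ∑ i, ((θ' i : ℚ) : ℝ) ≤ ∑ i, t * θ i := sum_le_sum fun i _ => hle i
        _ = t := by rw [← mul_sum, h3, mul_one]
        _ < 1 := htlt
    exact_mod_cast this
  · intro v hv hg hvw
    refine ⟨?_, fun ⟨k, _⟩ => k.elim0⟩
    intro h0
    obtain ⟨k, rfl, hk⟩ := rayz a v hv hg h0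
    have hwk : w k ≠ 0 := by
      intro h
      have := hvw k h
      simp at this
    have hs : H22.wsum (Pi.single k 1 : Fin n → ℕ) = 1 := by
      simp [H22.wsum]
    rw [hs]
    have hsum : ∀ i, ∑ j, a i j * (Pi.single k 1 : Fin n → ℕ) j = a i k := by
      intro i
      simp [Pi.single_apply]
    have hreal : (1 : ℝ) ≤ ∑ i, ((θ' i : ℚ) : ℝ) * (a i k : ℝ) := by
      have e1 : ∑ i, (t * θ i - 1 / N) * (a i k : ℝ) ≤ ∑ i, ((θ' i : ℚ) : ℝ) * (a i k : ℝ) :=
        sum_le_sum fun i _ => mul_le_mul_of_nonneg_right (hge i) (Nat.cast_nonneg _)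
      have e2 : ∑ i, (t * θ i - 1 / N) * (a i k : ℝ) = t * P k - (∑ i, (a i k : ℝ)) / N := by
        rw [h4 k, mul_sum, sum_div, ← sum_sub_distrib]
        exact sum_congr rfl fun i _ => by ring
      have e3 := hN1 k hwk hk
      linarith
    have hrat : (1 : ℚ) ≤ ∑ i, θ' i * (a i k : ℚ) := by exact_mod_cast hreal
    push_cast
    convert hrat using 1
    refine sum_congr rfl fun i _ => ?_
    congr 1
    exact_mod_cast hsum i

end Pool.Agent.H56.SMC
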