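import Pool.Agent.H56.SMC.CfgDefs
import Pool.Agent.H22.Weyl
import Pool.Agent.H56.SMC.BFA

/-!
# BM1: `b(-1) = 0`

Proof.  `f = fpoly a κ` is not constant (`ha`, `hκ`, `hne`).  The identity `bfa` at `A = ℂ`, `s = -1`:
`GG F (-1) L = 0` for every nonempty list `L`, so only `β = 0` contributes:
`p_0(-1) F^R = b(-1) F^{R-1}`, hence `p_0(-1) f = b(-1)`, and `b(-1) = 0` since `f` is not constant.
-/

set_option autoImplicit false

namespace Pool.Agent.H56.SMC

open Finset AddMonoidAlgebra

theorem bm1_GG {n : ℕ} (F : LP ℂ n) (j : Fin n) (L : List (Fin n)) : GG F (-1) (j :: L) = 0 := by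
  induction L generalizing j with
  | nil =>
    simp only [GG]
    rw [bfa_dL_one]
    simp
  | cons i L ih =>
    rw [GG, ih i]
    have h0 : dL j (0 : LP ℂ n) = 0 := by
      have := bfa_dL_add j (0 : LP ℂ n) 0
      rw [add_zero] at this
      simpa using this
    rw [h0, mul_zero, zero_mul, smul_zero, add_zero]

theorem bm1_monomial {n : ℕ} (v : Fin n →₀ ℕ) (c : ℂ) :
    toL ℂ (MvPolynomial.monomial v c) = (single (fun j => (v j : ℤ)) c : LP ℂ n) := by
  rw [MvPolynomial.monomial_eq, Finsupp.prod_fintype _ _ (fun i => pow_zero _), map_mul, map_prod,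
    bfa_toL_C]
  have h1 : ∀ j : Fin n, toL ℂ ((MvPolynomial.X j : MvPolynomial (Fin n) ℂ) ^ v j) =
      single (v j • ev j) 1 := by
    intro j
    rw [map_pow, bfa_toL_X, AddMonoidAlgebra.single_pow, one_pow]
  simp only [h1]
  rw [AddMonoidAlgebra.prod_single, prod_const_one, AddMonoidAlgebra.single_mul_single, zero_add,
    mul_one]
  congr 1
  funext k
  rw [Finset.sum_apply]
  simp only [Pi.smul_apply, ev, Pi.single_apply, nsmul_eq_mul]
  simp

theorem bm1_coeff {n : ℕ} (p : MvPolynomial (Fin n) ℂ) (w : Fin n →₀ ℕ) :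
    (toL ℂ p).coeff (fun j => (w j : ℤ)) = p.coeff w := by
  classical
  conv_lhs => rw [p.as_sum, map_sum]
  simp only [bm1_monomial]
  rw [coeff_finsum]
  simp only [coeff_single']
  have h1 : ∀ v : Fin n →₀ ℕ, ((fun j => (w j : ℤ)) = fun j => (v j : ℤ)) ↔ w = v := by
    intro v
    constructor
    · intro h
      ext j
      have := congrFun h j
      exact_mod_cast this
    · rintro rfl; rfl
  simp only [h1]
  rw [Finset.sum_ite_eq]
  split_ifs with h
  · rfl
  · exact (MvPolynomial.notMem_support_iff.1 h).symm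

theorem bm1_inj {n : ℕ} {p q : MvPolynomial (Fin n) ℂ} (h : toL ℂ p = toL ℂ q) : p = q := by
  ext w
  rw [← bm1_coeff, h, bm1_coeff]

/-- BM1 -/
theorem bm1 {n r : ℕ} (a : Fin r → (Fin n →₀ ℕ)) (ha : Function.Injective a)
    (hne : ∃ i, a i ≠ 0) (κ : Fin r → ℂ) (hκ : ∀ i, κ i ≠ 0) (b : Polynomial ℂ) (P : H22.WeylS n)
    (hfe : H22.FunctionalEquation (fpoly a κ) b P) : b.IsRoot (-1) := by
  classical
  obtain ⟨i0, hi0⟩ := hne
  set f := fpoly a κ with hf
  have hcoef : f.coeff (a i0) = κ i0 := by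
    rw [hf, fpoly, MvPolynomial.coeff_sum]
    rw [sum_eq_single i0]
    · simp
    · intro j _ hj
      rw [MvPolynomial.coeff_monomial, if_neg (fun h => hj (ha h))]
    · intro h; exact absurd (mem_univ _) h
  have hf0 : f ≠ 0 := by
    intro h
    rw [h, MvPolynomial.coeff_zero] at hcoef
    exact hκ i0 hcoef.symm
  have hdeg : 0 < f.totalDegree := by
    have h1 : a i0 ∈ f.support := by
      rw [MvPolynomial.mem_support_iff, hcoef]; exact hκ i0
    have h2 := MvPolynomial.le_totalDegree h1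
    refine lt_of_lt_of_le ?_ h2
    rw [Nat.pos_iff_ne_zero]
    intro h3
    apply hi0
    rw [Finsupp.sum, sum_eq_zero_iff] at h3
    ext j
    by_contra hj
    exact hj (h3 j (Finsupp.mem_support_iff.2 hj))
  obtain ⟨R, hR, hlen, hid⟩ := bfa f b P hfe
  have h1 := hid ℂ (-1)
  set F : LP ℂ n := toL ℂ f with hF
  have hmap : lmap (algebraMap ℂ ℂ) F = F := by
    apply lp_ext; intro u; rfl
  rw [hmap] at h1
  set p : (Fin n →₀ ℕ) → MvPolynomial (Fin n) ℂ := fun β =>
    MvPolynomial.map (Polynomial.aeval (-1 : ℂ) : Polynomial ℂ →ₐ[ℂ] ℂ).toRingHom (P β) with hp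
  have h2 : ∑ β ∈ P.support, toL ℂ (p β) * GG F (-1) (lst β) * F ^ (R - (lst β).length) =
      toL ℂ (p 0) * F ^ R := by
    have hlst : ∀ β : Fin n →₀ ℕ, β ≠ 0 → GG F (-1) (lst β) = 0 := by
      intro β hβ
      have h3 : lst β ≠ [] := by
        intro h4
        apply hβ
        ext j
        by_contra hj
        have h5 : j ∈ lst β := by
          unfold lst
          rw [List.mem_flatMap]
          exact ⟨j, List.mem_finRange j, List.mem_replicate.2 ⟨hj, rfl⟩⟩
        rw [h4] at h5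
        simp at h5
      obtain ⟨j, L, hjL⟩ := List.exists_cons_of_ne_nil h3
      rw [hjL, bm1_GG]
    have hl0 : lst (0 : Fin n →₀ ℕ) = [] := by
      unfold lst
      simp
    by_cases h0 : (0 : Fin n →₀ ℕ) ∈ P.support
    · rw [sum_eq_single_of_mem 0 h0 (fun β _ hβ => by rw [hlst β hβ, mul_zero, zero_mul])]
      rw [hl0]
      simp [GG]
    · have h3 : p 0 = 0 := by
        simp only [hp]
        rw [Finsupp.notMem_support_iff.1 h0, map_zero]
      rw [h3, map_zero, zero_mul]
      refine sum_eq_zero fun β hβ => ?_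
      have : β ≠ 0 := fun h => h0 (h ▸ hβ)
      rw [hlst β this, mul_zero, zero_mul]
  rw [h2] at h1
  have hF0 : F ≠ 0 := by
    intro h
    apply hf0
    apply bm1_inj
    rw [← hF, h, map_zero]
  have h3 : toL ℂ (p 0 * f) = toL ℂ (MvPolynomial.C (b.eval (-1))) := by
    have h4 : F ^ (R - 1) ≠ 0 := pow_ne_zero _ hF0
    apply mul_right_cancel₀ h4
    rw [map_mul, ← hF, mul_assoc, ← pow_succ', show R - 1 + 1 = R by omega, h1, bfa_toL_C]
    apply lp_ext; intro u
    rw [coeff_smul', single_mul_coeff, sub_zero]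
    congr 1
  have h4 := bm1_inj h3
  by_contra hb
  have hb' : b.eval (-1) ≠ 0 := hb
  have hp0 : p 0 ≠ 0 := by
    intro h
    rw [h, zero_mul] at h4
    exact hb' ((MvPolynomial.C_eq_zero).1 h4.symm)
  have h5 := MvPolynomial.totalDegree_mul_of_isDomain hp0 hf0
  rw [h4, MvPolynomial.totalDegree_C] at h5
  omega

end Pool.Agent.H56.SMC
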