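import Pool.Agent.H56.SMC.Basic

/-!
# CPKOS: a regular sequence has exact Koszul complex at `H_1`

Proof.  Induction on `m ≤ r`: if `∑_{j<m} g_j x_j = 0` with `Supp S (x_j)` then there are antisymmetric `y_jk` with `y_jj = 0` (zero unless `j,k < m`) with
`x_j = ∑_k g_k y_jk` for `j < m`.  Step `m → m+1`: `g_m x_m = -∑_{i<m} g_i x_i`, so by `hreg` `x_m = ∑_{i<m} g_i w_i`.  Put `x'_i = x_i + g_m w_i` for `i < m`:
`∑_{i<m} g_i x'_i = ∑_{i<m} g_i x_i + g_m x_m = 0`, so `x'_i = ∑_{k<m} g_k y_ik`; then `x_i = ∑_{k<m} g_k y_ik - g_m w_i`: put `y_im = -w_i`,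
`y_mi = w_i`, `y_mm = 0`.
-/

set_option autoImplicit false

namespace Pool.Agent.H56.SMC

open Finset AddMonoidAlgebra

theorem CPKOS_supp_mul {R : Type} [CommRing R] {d : ℕ} {S : Set (Lat d)}
    (hS : ∀ u ∈ S, ∀ v ∈ S, u + v ∈ S) {x y : LP R d} (hx : Supp S x) (hy : Supp S y) :
    Supp S (x * y) := by
  classical
  intro u hu
  have h1 := AddMonoidAlgebra.support_coeff_mul_subset x y (Finsupp.mem_support_iff.2 hu)
  obtain ⟨v, hv, w, hw, rfl⟩ := Finset.mem_add.1 h1
  exact hS v (hx v (Finsupp.mem_support_iff.1 hv)) w (hy w (Finsupp.mem_support_iff.1 hw))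

theorem CPKOS_step {R : Type} [CommRing R] {d : ℕ} (S : Set (Lat d))
    (hS : ∀ u ∈ S, ∀ v ∈ S, u + v ∈ S) {r : ℕ} (g : Fin r → LP R d) (hg : ∀ i, Supp S (g i))
    (hreg : ∀ (m : Fin r) (z : LP R d) (x : Fin r → LP R d), Supp S z → (∀ i, Supp S (x i)) →
      g m * z = ∑ i with i < m, g i * x i →
      ∃ y : Fin r → LP R d, (∀ i, Supp S (y i)) ∧ z = ∑ i with i < m, g i * y i) (m : ℕ) :
    ∀ x : Fin r → LP R d, (∀ j, Supp S (x j)) → ∑ j with j.val < m, g j * x j = 0 →
      ∃ y : Fin r → Fin r → LP R d, (∀ j k, Supp S (y j k)) ∧ (∀ j k, y j k = -y k j) ∧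
        (∀ j, y j j = 0) ∧ (∀ j k, m ≤ j.val → y j k = 0) ∧
        ∀ j, j.val < m → x j = ∑ k, g k * y j k := by
  classical
  induction m with
  | zero =>
    intro x hx h0
    refine ⟨fun _ _ => 0, fun _ _ => Supp.zero S, fun _ _ => by simp, fun _ => rfl,
      fun _ _ _ => rfl, fun j hj => absurd hj (Nat.not_lt_zero _)⟩
  | succ m ih =>
    intro x hx h0
    by_cases hm : m < r
    · set M : Fin r := ⟨m, hm⟩ with hM
      have hfil : (univ.filter fun j : Fin r => j.val < m + 1) =
          insert M (univ.filter fun j : Fin r => j.val < m) := by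
        ext j
        simp only [mem_filter, mem_univ, true_and, mem_insert, Fin.ext_iff, hM]
        omega
      have hnot : M ∉ univ.filter fun j : Fin r => j.val < m := by
        simp [hM]
      have hlt : (univ.filter fun j : Fin r => j < M) = univ.filter fun j : Fin r => j.val < m := by
        ext j
        simp only [mem_filter, mem_univ, true_and, Fin.lt_def, hM]
      rw [hfil, sum_insert hnot] at h0
      obtain ⟨w, hw, hxw⟩ := hreg M (x M) (fun i => -x i) (hx M) (fun i => (hx i).neg) (by
        rw [hlt]
        simp only [mul_neg, sum_neg_distrib]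
        rw [eq_neg_iff_add_eq_zero]
        exact h0)
      rw [hlt] at hxw
      obtain ⟨y, hy1, hy2, hy3, hy4, hy5⟩ := ih (fun i => x i + g M * w i)
        (fun i => (hx i).add (CPKOS_supp_mul hS (hg M) (hw i))) (by
          simp only [mul_add, sum_add_distrib]
          rw [← h0, add_comm]
          congr 1
          rw [hxw, mul_sum]
          exact sum_congr rfl fun i _ => by ring)
      refine ⟨fun j k => if j = M then (if k.val < m then w k else 0) else
        if k = M then (if j.val < m then -w j else 0) else y j k, ?_, ?_, ?_, ?_, ?_⟩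
      · intro j k
        dsimp only
        split_ifs
        · exact hw k
        · exact Supp.zero S
        · exact (hw j).neg
        · exact Supp.zero S
        · exact hy1 j k
      · intro j k
        dsimp only
        by_cases hj : j = M
        · by_cases hk : k = M
          · subst hj; subst hk
            simp [hM]
          · rw [if_pos hj, if_neg hk, if_pos hj]
            by_cases hk' : k.val < m
            · rw [if_pos hk', if_pos hk', neg_neg]
            · rw [if_neg hk', if_neg hk', neg_zero]
        · by_cases hk : k = M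
          · rw [if_neg hj, if_pos hk, if_pos hk]
            by_cases hj' : j.val < m
            · rw [if_pos hj', if_pos hj']
            · rw [if_neg hj', if_neg hj', neg_zero]
          · rw [if_neg hj, if_neg hk, if_neg hk, if_neg hj]
            exact hy2 j k
      · intro j
        dsimp only
        by_cases hj : j = M
        · subst hj
          simp [hM]
        · rw [if_neg hj, if_neg hj]; exact hy3 j
      · intro j k hj
        dsimp only
        have hjM : j ≠ M := by
          intro h; rw [h] at hj; simp only [hM] at hj; omega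
        rw [if_neg hjM]
        by_cases hk : k = M
        · rw [if_pos hk, if_neg (by omega)]
        · rw [if_neg hk]
          exact hy4 j k (by omega)
      · intro j hj
        dsimp only
        by_cases hjM : j = M
        · simp only [if_pos hjM]
          rw [hjM, hxw, sum_filter]
          exact sum_congr rfl fun k _ => by
            by_cases hk : k.val < m
            · rw [if_pos hk, if_pos hk]
            · rw [if_neg hk, if_neg hk, mul_zero]
        · have hj' : j.val < m := by
            have : j.val ≠ m := fun h => hjM (Fin.ext h)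
            omega
          simp only [if_neg hjM, if_pos hj']
          have h1 := hy5 j hj'
          have h2 : y j M = 0 := by
            rw [hy2 j M, hy4 M j (by simp [hM]), neg_zero]
          have h3 : ∑ k, g k * (if k = M then -w j else y j k) =
              ∑ k, g k * y j k + g M * (-w j) := by
            have h4 : ∀ k, g k * (if k = M then -w j else y j k) =
                g k * y j k + if k = M then g k * (-w j) else 0 := by
              intro k
              by_cases hk : k = M
              · rw [if_pos hk, if_pos hk, hk, h2, mul_zero, zero_add]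
              · rw [if_neg hk, if_neg hk, add_zero]
            rw [sum_congr rfl fun k _ => h4 k, sum_add_distrib, Finset.sum_ite_eq' univ M]
            simp
          rw [h3, ← h1]
          ring
    · have hfil : (univ.filter fun j : Fin r => j.val < m + 1) =
          (univ.filter fun j : Fin r => j.val < m) := by
        ext j
        simp only [mem_filter, mem_univ, true_and]
        have := j.isLt
        omega
      rw [hfil] at h0
      obtain ⟨y, hy1, hy2, hy3, hy4, hy5⟩ := ih x hx h0
      refine ⟨y, hy1, hy2, hy3, fun j k hj => hy4 j k (by omega), fun j _ => hy5 j ?_⟩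
      have := j.isLt
      omega

/-- CPKOS -/
theorem cp_kos {R : Type} [CommRing R] {d : ℕ} (S : Set (Lat d))
    (hS : ∀ u ∈ S, ∀ v ∈ S, u + v ∈ S) {r : ℕ} (g : Fin r → LP R d) (hg : ∀ i, Supp S (g i))
    (hreg : ∀ (m : Fin r) (z : LP R d) (x : Fin r → LP R d), Supp S z → (∀ i, Supp S (x i)) →
      g m * z = ∑ i with i < m, g i * x i →
      ∃ y : Fin r → LP R d, (∀ i, Supp S (y i)) ∧ z = ∑ i with i < m, g i * y i)
    (x : Fin r → LP R d) (hx : ∀ j, Supp S (x j)) (h0 : ∑ j, g j * x j = 0) :
    ∃ y : Fin r → Fin r → LP R d, (∀ j k, Supp S (y j k)) ∧ (∀ j k, y j k = -y k j) ∧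
      (∀ j, y j j = 0) ∧ ∀ j, x j = ∑ k, g k * y j k := by
  obtain ⟨y, hy1, hy2, hy3, -, hy5⟩ := CPKOS_step S hS g hg hreg r x hx (by
    rw [← h0]
    apply sum_congr _ fun _ _ => rfl
    ext j
    simp)
  exact ⟨y, hy1, hy2, hy3, fun j => hy5 j j.isLt⟩

end Pool.Agent.H56.SMC
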