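import Pool.Agent.H56.SMC.Basic

/-!
# CPTIGHT: normal semigroup rings have no tight closure (splitting of Frobenius adapted to `c`)

Proof.  `c ≠ 0`: choose `α` with `c.coeff α ≠ 0`, `α ∈ Sset h`.  Choose `e` with `q = q0^e` larger than all `dt (h v) α` and larger than
all `|β_j - α_j|`, `β` in the support of `c`.  For `w : LP k d` let `φ(w)` be the element with coefficient at `u` equal to the `q`-th root
of `w.coeff (α + q • u)` (`k` is perfect, `iterateFrobeniusEquiv` or finiteness).  `φ` is additive, `φ(v^q w) = v φ(w)` (check on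
monomials: `v^q = ∑ v_u^q x^{q u}`), `φ` maps elements supported in `Sset h` to elements supported in `Sset h`: if
`α + q u ∈ Sset h` then `q dt (h v) u ≥ -dt (h v) α > -q`, so `dt (h v) u ≥ 0`.  `φ(c)` is the nonzero constant `(c.coeff α)^{1/q}`: if
`α + q u` is in the support of `c` then `|q u_j| < q`, `u = 0`.  Apply `φ` to `c z^q = ∑ g_i^q y_i`: `z φ(c) = ∑ g_i φ(y_i)`.
-/

set_option autoImplicit false

namespace Pool.Agent.H56.SMC

open Finset AddMonoidAlgebra

namespace CPTIGHTaux

section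
variable {k : Type} [Field k] {d : ℕ}

/-- Every Laurent polynomial is a sum of monomials: induction principle. -/
theorem lp_induction {P : LP k d → Prop} (v : LP k d) (h0 : P 0)
    (hadd : ∀ x y, P x → P y → P (x + y)) (hs : ∀ (a : Lat d) (r : k), P (single a r)) : P v := by
  have key : ∀ (n : ℕ) (v : LP k d), v.coeff.support.card = n → P v := by
    intro n
    induction n with
    | zero =>
      intro v hv
      have : v = 0 := by
        apply lp_ext
        intro u
        rw [Finset.card_eq_zero] at hv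
        have : u ∉ v.coeff.support := by rw [hv]; simp
        rw [Finsupp.notMem_support_iff] at this
        rw [this]; rfl
      rw [this]; exact h0
    | succ n ih =>
      intro v hv
      obtain ⟨a, ha⟩ := Finset.card_pos.1 (by rw [hv]; exact Nat.succ_pos n)
      have h1 : v = single a (v.coeff a) + (v - single a (v.coeff a)) := by ring
      rw [h1]
      apply hadd _ _ (hs _ _)
      apply ih
      have h2 : (v - single a (v.coeff a)).coeff.support = v.coeff.support.erase a := by
        ext u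
        rw [Finsupp.mem_support_iff, Finset.mem_erase, Finsupp.mem_support_iff, coeff_sub', coeff_single']
        by_cases hu : u = a
        · subst hu; simp
        · simp [hu]
      rw [h2, Finset.card_erase_of_mem ha, hv]; rfl
  exact key _ v rfl

variable (q0 : ℕ) [Fact q0.Prime] [CharP k q0] [PerfectRing k q0]

/-- The `q`-th root. -/
noncomputable def rt (e : ℕ) : k ≃+* k := (iterateFrobeniusEquiv k q0 e).symm

theorem rt_pow_mul (e : ℕ) (r s : k) : rt q0 e (r ^ (q0 ^ e) * s) = r * rt q0 e s := by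
  unfold rt
  rw [map_mul]
  congr 1
  rw [← iterateFrobeniusEquiv_def, RingEquiv.symm_apply_apply]

theorem inj (e : ℕ) (α : Lat d) : Function.Injective (fun u : Lat d => α + (q0 ^ e) • u) := by
  intro u v huv
  have h1 : (q0 ^ e) • u = (q0 ^ e) • v := add_left_cancel huv
  have h2 : q0 ^ e ≠ 0 := pow_ne_zero _ (Nat.Prime.ne_zero Fact.out)
  ext j
  have h3 := congrFun h1 j
  simp only [Pi.smul_apply, nsmul_eq_mul] at h3
  have h4 : ((q0 ^ e : ℕ) : ℤ) ≠ 0 := by exact_mod_cast h2
  exact mul_left_cancel₀ h4 h3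

/-- The splitting. -/
noncomputable def phi (e : ℕ) (α : Lat d) (w : LP k d) : LP k d :=
  ofCoeff ((w.coeff.comapDomain (fun u : Lat d => α + (q0 ^ e) • u)
    ((inj q0 e α).injOn)).mapRange (rt q0 e) (map_zero _))

theorem phi_coeff (e : ℕ) (α : Lat d) (w : LP k d) (u : Lat d) :
    (phi q0 e α w).coeff u = rt q0 e (w.coeff (α + (q0 ^ e) • u)) := rfl

theorem phi_add (e : ℕ) (α : Lat d) (w w' : LP k d) :
    phi q0 e α (w + w') = phi q0 e α w + phi q0 e α w' := by
  apply lp_ext; intro u
  rw [coeff_add', phi_coeff, phi_coeff, phi_coeff, coeff_add', map_add]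

theorem phi_zero (e : ℕ) (α : Lat d) : phi q0 e α (0 : LP k d) = 0 := by
  apply lp_ext; intro u
  rw [phi_coeff, coeff_zero', coeff_zero', map_zero]

theorem phi_sum {ι : Type*} (e : ℕ) (α : Lat d) (s : Finset ι) (f : ι → LP k d) :
    phi q0 e α (∑ i ∈ s, f i) = ∑ i ∈ s, phi q0 e α (f i) := by
  apply lp_ext; intro u
  rw [coeff_finsum, phi_coeff, coeff_finsum, map_sum]
  rfl

omit [Fact (Nat.Prime q0)] [PerfectRing k q0] in
theorem charP_lp : CharP (LP k d) q0 := by
  have hinj : Function.Injective (algebraMap k (LP k d)) := (algebraMap k (LP k d)).injective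
  exact charP_of_injective_algebraMap hinj q0

theorem phi_pow_mul (e : ℕ) (α : Lat d) (v w : LP k d) :
    phi q0 e α (v ^ (q0 ^ e) * w) = v * phi q0 e α w := by
  have : CharP (LP k d) q0 := charP_lp q0
  induction v using lp_induction with
  | h0 =>
    rw [zero_pow (pow_ne_zero _ (Nat.Prime.ne_zero Fact.out)), zero_mul, zero_mul, phi_zero]
  | hadd x y hx hy =>
    rw [add_pow_char_pow, add_mul, phi_add, hx, hy, add_mul]
  | hs a r =>
    apply lp_ext; intro u
    rw [phi_coeff, AddMonoidAlgebra.single_pow, single_mul_coeff, single_mul_coeff, phi_coeff, rt_pow_mul]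
    congr 3
    rw [smul_sub]
    abel

end

end CPTIGHTaux

open CPTIGHTaux in
/-- CPTIGHT -/
theorem cp_tight (q0 : ℕ) [Fact q0.Prime] {k : Type} [Field k] [CharP k q0] [PerfectRing k q0]
    {d : ℕ} {κ : Type} [Fintype κ] (h : κ → Lat d) {r : ℕ} (g : Fin r → LP k d)
    (c : LP k d) (hc : c ≠ 0) (hcS : Supp (Sset h) c) (z : LP k d) (I : Finset (Fin r))
    (H : ∀ e : ℕ, ∃ y : Fin r → LP k d, (∀ i, Supp (Sset h) (y i)) ∧
      c * z ^ (q0 ^ e) = ∑ i ∈ I, g i ^ (q0 ^ e) * y i) :
    ∃ y : Fin r → LP k d, (∀ i, Supp (Sset h) (y i)) ∧ z = ∑ i ∈ I, g i * y i := by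
  classical
  obtain ⟨α, hα⟩ : ∃ α, c.coeff α ≠ 0 := by
    by_contra hcon
    push Not at hcon
    exact hc (lp_ext fun u => by rw [hcon u]; rfl)
  -- the bound
  obtain ⟨M, hM1, hM2⟩ : ∃ M : ℕ, (∀ v, dt (h v) α < M) ∧
      (∀ β ∈ c.coeff.support, ∀ j, |β j - α j| < M) := by
    refine ⟨(∑ v, |dt (h v) α| + ∑ β ∈ c.coeff.support, ∑ j, |β j - α j| + 1).toNat, ?_, ?_⟩
    · intro v
      have h1 : |dt (h v) α| ≤ ∑ v, |dt (h v) α| :=
        Finset.single_le_sum (f := fun v => |dt (h v) α|) (fun _ _ => abs_nonneg _) (mem_univ v)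
      have h2 : (0 : ℤ) ≤ ∑ β ∈ c.coeff.support, ∑ j, |β j - α j| :=
        Finset.sum_nonneg fun _ _ => Finset.sum_nonneg fun _ _ => abs_nonneg _
      have h3 := le_abs_self (dt (h v) α)
      have h4 := Int.self_le_toNat (∑ v, |dt (h v) α| + ∑ β ∈ c.coeff.support, ∑ j, |β j - α j| + 1)
      linarith
    · intro β hβ j
      have h1 : |β j - α j| ≤ ∑ j, |β j - α j| :=
        Finset.single_le_sum (f := fun j => |β j - α j|) (fun _ _ => abs_nonneg _) (mem_univ j)
      have h2 : ∑ j, |β j - α j| ≤ ∑ β ∈ c.coeff.support, ∑ j, |β j - α j| :=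
        Finset.single_le_sum (f := fun β : Lat d => ∑ j, |β j - α j|)
          (fun _ _ => Finset.sum_nonneg fun _ _ => abs_nonneg _) hβ
      have h3 : (0 : ℤ) ≤ ∑ v, |dt (h v) α| := Finset.sum_nonneg fun _ _ => abs_nonneg _
      have h4 := Int.self_le_toNat (∑ v, |dt (h v) α| + ∑ β ∈ c.coeff.support, ∑ j, |β j - α j| + 1)
      linarith
  -- the exponent
  have hq0 : 1 < q0 := Nat.Prime.one_lt Fact.out
  obtain ⟨e, he⟩ : ∃ e : ℕ, M < q0 ^ e := ⟨M, Nat.lt_pow_self hq0⟩
  have hqM : (M : ℤ) < ((q0 ^ e : ℕ) : ℤ) := by exact_mod_cast he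
  have hqpos : (0 : ℤ) < ((q0 ^ e : ℕ) : ℤ) := lt_of_le_of_lt (Int.natCast_nonneg M) hqM
  -- `φ` preserves the support
  have hS : ∀ w : LP k d, Supp (Sset h) w → Supp (Sset h) (phi q0 e α w) := by
    intro w hw u hu
    rw [phi_coeff] at hu
    have h1 : w.coeff (α + (q0 ^ e) • u) ≠ 0 := fun h0 => hu (by rw [h0, map_zero])
    intro v
    have h2 := hw _ h1 v
    rw [dt_add, dt_nsmul] at h2
    have h3 := hM1 v
    by_contra hneg
    have h4 : dt (h v) u ≤ -1 := by omega
    nlinarith
  -- `φ c` is a constant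
  set lam : k := rt q0 e (c.coeff α) with hlam
  have hlam0 : lam ≠ 0 := by
    intro h0
    apply hα
    exact (map_eq_zero_iff (rt (k := k) q0 e) (RingEquiv.injective _)).1 h0
  have hφc : phi q0 e α c = single 0 lam := by
    apply lp_ext; intro u
    rw [phi_coeff, coeff_single']
    by_cases hu : u = 0
    · subst hu
      rw [if_pos rfl, smul_zero, add_zero]
    · rw [if_neg hu]
      have : c.coeff (α + (q0 ^ e) • u) = 0 := by
        by_contra hne
        apply hu
        ext j
        have h1 := hM2 _ (Finsupp.mem_support_iff.2 hne) j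
        have h1' : |((q0 ^ e : ℕ) : ℤ) * u j| < M := by
          have h5 : (α + (q0 ^ e) • u) j - α j = ((q0 ^ e : ℕ) : ℤ) * u j := by
            rw [Pi.add_apply, Pi.smul_apply, nsmul_eq_mul, add_sub_cancel_left]
          rwa [h5] at h1
        rw [abs_mul, Nat.abs_cast] at h1'
        by_contra hj
        have h2 : 1 ≤ |u j| := Int.one_le_abs hj
        nlinarith
      rw [this, map_zero]
  obtain ⟨y, hy, hyz⟩ := H e
  refine ⟨fun i => lam⁻¹ • phi q0 e α (y i), fun i => (hS _ (hy i)).smul _, ?_⟩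
  have h1 : phi q0 e α (c * z ^ (q0 ^ e)) = z * single 0 lam := by
    rw [mul_comm, phi_pow_mul, hφc]
  rw [hyz, phi_sum] at h1
  have h2 : ∑ i ∈ I, phi q0 e α (g i ^ q0 ^ e * y i) = ∑ i ∈ I, g i * phi q0 e α (y i) :=
    Finset.sum_congr rfl fun i _ => phi_pow_mul q0 e α _ _
  rw [h2] at h1
  have h3 : z * single 0 lam = lam • z := by
    rw [mul_comm]
    apply lp_ext; intro u
    rw [single_mul_coeff, coeff_smul', sub_zero]
  rw [h3] at h1
  have h4 : z = lam⁻¹ • (lam • z) := by
    rw [smul_smul, inv_mul_cancel₀ hlam0, one_smul]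
  rw [h4, ← h1, Finset.smul_sum]
  exact Finset.sum_congr rfl fun i _ => (mul_smul_comm _ _ _).symm

end Pool.Agent.H56.SMC
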