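import Pool.Agent.H56.SMC.CPCOL
import Pool.Agent.H56.SMC.CPTIGHT
import Pool.Agent.H56.SMC.CPKOS

/-!
# CMP: assembly in characteristic `p`

Proof.  `cp_col` + `cp_tight` (with `I = {i < m}`) give the hypothesis `hreg` of `cp_kos` with `S = Sset h`.
-/

set_option autoImplicit false

namespace Pool.Agent.H56.SMC

open Finset AddMonoidAlgebra

/-- CMP -/
theorem cmp (q0 : ℕ) [Fact q0.Prime] {k : Type} [Field k] [CharP k q0] [PerfectRing k q0] {d : ℕ} {κ : Type} [Fintype κ] (h : κ → Lat d) (δ : Lat d)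
    (hpos : ∀ u ∈ Sset h, u ≠ 0 → 0 < dt δ u) {r : ℕ} (e : ℤ) (he : 0 < e) (g : Fin r → LP k d)
    (hg : ∀ i, Supp {u | u ∈ Sset h ∧ dt δ u = e} (g i))
    (hfl : ∀ u ∈ Sset h, u ≠ 0 → ∃ (N : ℕ) (z : Fin r → LP k d), (∀ j, Supp (Sset h) (z j)) ∧
      (single (N • u) 1 : LP k d) = ∑ j, g j * z j)
    (s : Fin r → Lat d) (hs : ∀ i, s i ∈ Sset h) (hind : LinearIndependent ℤ s)
    (x : Fin r → LP k d) (hx : ∀ j, Supp (Sset h) (x j)) (h0 : ∑ j, g j * x j = 0) :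
    ∃ y : Fin r → Fin r → LP k d, (∀ j k, Supp (Sset h) (y j k)) ∧ (∀ j k, y j k = -y k j) ∧
      (∀ j, y j j = 0) ∧ ∀ j, x j = ∑ k, g k * y j k := by
  obtain ⟨c, hc, hcS, hcol⟩ := cp_col q0 h δ hpos e he g hg hfl s hs hind
  refine cp_kos (Sset h) ?_ g (fun i => (hg i).mono fun u hu => hu.1) ?_ x hx h0
  · intro u hu v hv w
    rw [dt_add]
    exact add_nonneg (hu w) (hv w)
  · intro m z x hz hx hrel
    exact cp_tight q0 h g c hc hcS z _ (hcol m z x hz hx hrel)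

end Pool.Agent.H56.SMC
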