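import Pool.Agent.H56.SMC.CM

/-!
# CONIC: the same for the conic modules `{u : m0 u + y0 ∈ S}`

Proof.  `scale : LP ℂ d → LP ℂ d`, `x^u ↦ x^{m0 u}`: an injective ring homomorphism.  `g'_j = scale g_j` is supported in `{u ∈ S : dt δ u = m0}`, and
`hfl` holds for `g'` (apply `scale`; `N` becomes `m0 N`).  For `x` supported in `M = {u : m0 u + y0 ∈ S}` put `T x = single y0 1 * scale x`, supported in `S`
(exponents `m0 u + y0`).  `∑ g_j x_j = 0` gives `∑ g'_j T x_j = 0`.  `cm` (with `e = m0`) gives antisymmetric `Y_jk` supported in `S`, `T x_j = ∑_k g'_k Y_jk`.  Replace `Y_jk` by its part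
with exponents in `y0 + m0 ℤ^d` (the exponents of the `g'_k` lie in `m0 ℤ^d`, those of `T x_j` in `y0 + m0 ℤ^d`): `Y_jk = T y_jk` with `y_jk` supported in `M`, antisymmetric; `T` is
injective and `T (g_k y) = g'_k T y`, so `x_j = ∑_k g_k y_jk`.
-/

set_option autoImplicit false

namespace Pool.Agent.H56.SMC

open Finset AddMonoidAlgebra

/-- multiplication by `m0` as an additive map -/
def conic_f {d : ℕ} (m0 : ℤ) : Lat d →+ Lat d where
  toFun u := m0 • u
  map_zero' := smul_zero _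
  map_add' u v := smul_add _ _ _

theorem conic_f_apply {d : ℕ} (m0 : ℤ) (u : Lat d) : conic_f m0 u = m0 • u := rfl

theorem conic_inj {d : ℕ} {m0 : ℤ} (hm0 : 0 < m0) : Function.Injective (fun u : Lat d => m0 • u) := by
  intro u v huv
  funext i
  have h1 : m0 * u i = m0 * v i := by
    have := congrFun huv i
    simpa [Pi.smul_apply, smul_eq_mul] using this
  exact mul_left_cancel₀ hm0.ne' h1

/-- `x^u ↦ x^{m0 u}` -/
noncomputable def conic_scale {d : ℕ} (m0 : ℤ) : LP ℂ d →+* LP ℂ d :=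
  AddMonoidAlgebra.mapDomainRingHom ℂ (conic_f m0)

theorem conic_scale_single {d : ℕ} (m0 : ℤ) (u : Lat d) (r : ℂ) :
    conic_scale m0 (single u r) = (single (m0 • u) r : LP ℂ d) := by
  simp [conic_scale, conic_f_apply]

theorem conic_scale_supp {d : ℕ} (m0 : ℤ) (x : LP ℂ d) (w : Lat d)
    (hw : (conic_scale m0 x).coeff w ≠ 0) : ∃ u, x.coeff u ≠ 0 ∧ m0 • u = w := by
  classical
  have h1 : (conic_scale m0 x).coeff = Finsupp.mapDomain (conic_f m0) x.coeff := rfl
  rw [h1] at hw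
  have h2 : w ∈ (Finsupp.mapDomain (conic_f m0) x.coeff).support := Finsupp.mem_support_iff.2 hw
  have h3 := Finsupp.mapDomain_support h2
  obtain ⟨u, hu, huw⟩ := Finset.mem_image.1 h3
  exact ⟨u, Finsupp.mem_support_iff.1 hu, huw⟩

/-- `Y ↦ (u ↦ Y_{m0 u + y0})` -/
noncomputable def conic_R {d : ℕ} {m0 : ℤ} (hm0 : 0 < m0) (y0 : Lat d) (Y : LP ℂ d) : LP ℂ d :=
  ofCoeff (Y.coeff.comapDomain (fun u : Lat d => m0 • u + y0)
    (fun u _ v _ huv => conic_inj hm0 (add_right_cancel huv)))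

theorem conic_R_coeff {d : ℕ} {m0 : ℤ} (hm0 : 0 < m0) (y0 : Lat d) (Y : LP ℂ d) (u : Lat d) :
    (conic_R hm0 y0 Y).coeff u = Y.coeff (m0 • u + y0) := rfl

theorem conic_R_add {d : ℕ} {m0 : ℤ} (hm0 : 0 < m0) (y0 : Lat d) (Y Z : LP ℂ d) :
    conic_R hm0 y0 (Y + Z) = conic_R hm0 y0 Y + conic_R hm0 y0 Z := by
  apply lp_ext; intro u
  simp only [conic_R_coeff, coeff_add']

theorem conic_R_zero {d : ℕ} {m0 : ℤ} (hm0 : 0 < m0) (y0 : Lat d) :
    conic_R hm0 y0 (0 : LP ℂ d) = 0 := by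
  apply lp_ext; intro u
  simp only [conic_R_coeff, coeff_zero']

theorem conic_R_neg {d : ℕ} {m0 : ℤ} (hm0 : 0 < m0) (y0 : Lat d) (Y : LP ℂ d) :
    conic_R hm0 y0 (-Y) = -conic_R hm0 y0 Y := by
  apply lp_ext; intro u
  simp only [conic_R_coeff, coeff_neg']

theorem conic_R_sum {d : ℕ} {m0 : ℤ} (hm0 : 0 < m0) (y0 : Lat d) {α : Type*} (s : Finset α)
    (f : α → LP ℂ d) : conic_R hm0 y0 (∑ i ∈ s, f i) = ∑ i ∈ s, conic_R hm0 y0 (f i) := by
  apply lp_ext; intro u
  simp only [conic_R_coeff, coeff_finsum]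

theorem conic_R_mul {d : ℕ} {m0 : ℤ} (hm0 : 0 < m0) (y0 : Lat d) (g Y : LP ℂ d) :
    conic_R hm0 y0 (conic_scale m0 g * Y) = g * conic_R hm0 y0 Y := by
  induction g using AddMonoidAlgebra.induction_linear with
  | zero => rw [map_zero, zero_mul, zero_mul, conic_R_zero]
  | add a b ha hb => rw [map_add, add_mul, add_mul, conic_R_add, ha, hb]
  | single v r =>
    rw [conic_scale_single]
    apply lp_ext; intro u
    rw [conic_R_coeff, single_mul_coeff, single_mul_coeff, conic_R_coeff, smul_sub]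
    congr 2
    abel

/-- CONIC -/
theorem conic {d : ℕ} {κ : Type} [Fintype κ] (h : κ → Lat d) (δ : Lat d)
    (hpos : ∀ u ∈ Sset h, u ≠ 0 → 0 < dt δ u) {r : ℕ} (g : Fin r → LP ℂ d)
    (hg : ∀ i, Supp {u | u ∈ Sset h ∧ dt δ u = 1} (g i))
    (hfl : ∀ u ∈ Sset h, u ≠ 0 → ∃ (N : ℕ) (z : Fin r → LP ℂ d), (∀ j, Supp (Sset h) (z j)) ∧
      (single (N • u) 1 : LP ℂ d) = ∑ j, g j * z j)
    (s : Fin r → Lat d) (hs : ∀ i, s i ∈ Sset h) (hind : LinearIndependent ℤ s)
    (m0 : ℤ) (hm0 : 0 < m0) (y0 : Lat d)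
    (x : Fin r → LP ℂ d) (hx : ∀ j, Supp {u | m0 • u + y0 ∈ Sset h} (x j))
    (h0 : ∑ j, g j * x j = 0) :
    ∃ y : Fin r → Fin r → LP ℂ d, (∀ j k, Supp {u | m0 • u + y0 ∈ Sset h} (y j k)) ∧
      (∀ j k, y j k = -y k j) ∧ ∀ j, x j = ∑ k, g k * y j k := by
  have hSm : ∀ u ∈ Sset h, m0 • u ∈ Sset h := by
    intro u hu v
    rw [dt_zsmul]
    exact mul_nonneg hm0.le (hu v)
  have hscS : ∀ z : LP ℂ d, Supp (Sset h) z → Supp (Sset h) (conic_scale m0 z) := by
    intro z hz w hw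
    obtain ⟨u, hu, rfl⟩ := conic_scale_supp m0 z w hw
    exact hSm u (hz u hu)
  obtain ⟨Y, hY1, hY2, hY3⟩ := cm h δ hpos m0 hm0 (fun j => conic_scale m0 (g j))
    (by
      intro i w hw
      obtain ⟨u, hu, rfl⟩ := conic_scale_supp m0 (g i) w hw
      obtain ⟨hu1, hu2⟩ := hg i u hu
      refine ⟨hSm u hu1, ?_⟩
      rw [dt_zsmul, hu2, mul_one])
    (by
      intro u hu hu0
      obtain ⟨N, z, hz, hz2⟩ := hfl u hu hu0
      refine ⟨m0.toNat * N, fun j => conic_scale m0 (z j), fun j => hscS _ (hz j), ?_⟩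
      have h1 := congrArg (conic_scale m0) hz2
      rw [conic_scale_single, map_sum] at h1
      simp only [map_mul] at h1
      rw [← h1]
      congr 1
      funext i
      simp only [Pi.smul_apply, nsmul_eq_mul, smul_eq_mul, Nat.cast_mul]
      rw [Int.toNat_of_nonneg hm0.le, mul_assoc]
      rfl)
    s hs hind (fun j => single y0 1 * conic_scale m0 (x j))
    (by
      intro j w hw
      have hw' : (single y0 (1 : ℂ) * conic_scale m0 (x j)).coeff w ≠ 0 := hw
      rw [single_mul_coeff, one_mul] at hw'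
      obtain ⟨u, hu, hu2⟩ := conic_scale_supp m0 (x j) _ hw'
      have h1 : m0 • u + y0 ∈ Sset h := hx j u hu
      rwa [hu2, sub_add_cancel] at h1)
    (by
      have h1 := congrArg (conic_scale m0) h0
      rw [map_zero, map_sum] at h1
      simp only [map_mul] at h1
      calc ∑ j, conic_scale m0 (g j) * (single y0 1 * conic_scale m0 (x j))
          = single y0 1 * ∑ j, conic_scale m0 (g j) * conic_scale m0 (x j) := by
            rw [mul_sum]; exact sum_congr rfl fun j _ => by ring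
        _ = 0 := by rw [h1, mul_zero])
  refine ⟨fun j k => conic_R hm0 y0 (Y j k), ?_, ?_, ?_⟩
  · intro j k u hu
    exact hY1 j k _ hu
  · intro j k
    show conic_R hm0 y0 (Y j k) = -conic_R hm0 y0 (Y k j)
    rw [hY2 j k, conic_R_neg]
  · intro j
    have h1 := congrArg (conic_R hm0 y0) (hY3 j)
    simp only [conic_R_sum, conic_R_mul] at h1
    rw [← h1, mul_comm, conic_R_mul]
    have h2 : conic_R hm0 y0 (single y0 1 : LP ℂ d) = 1 := by
      apply lp_ext; intro u
      rw [conic_R_coeff, coeff_single', AddMonoidAlgebra.one_def, coeff_single']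
      by_cases hu : u = 0
      · rw [if_pos hu, if_pos (by rw [hu, smul_zero, zero_add])]
      · rw [if_neg hu, if_neg]
        intro h3
        apply hu
        have h4 : m0 • u = 0 := by simpa using h3
        exact conic_inj hm0 (by simpa using h4)
    rw [h2, mul_one]

end Pool.Agent.H56.SMC
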