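import Pool.Agent.H56.SMC.CPFIN

/-!
# CPALG: `g_1,…,g_r` are algebraically independent

Proof.  Let `R` be the subalgebra of all `z` with `Supp (Sset h) z` (a domain: `LP k d` is a domain, `ℤ^d` has unique products).
The monomials `x^{s_1},…,x^{s_r}` are algebraically independent (a monomial in them is `x^{∑ n_i s_i}`, different for different `n`), so the
transcendence degree of `R` is `≥ r`.  By `cp_fin` `R` is a finitely generated module over `k[g_1,…,g_r]`, hence integral, hence algebraic over `k[g]`; so
some subset of `{g_1,…,g_r}` is a transcendence basis of `R` (`exists_isTranscendenceBasis_subset`), it must have `≥ r` elements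
(`Algebra.trdeg`, `IsTranscendenceBasis.cardinalMk_eq`), so it is everything, `g` is injective and algebraically independent.
Alternative: counting.  If `Q(g) = 0`, `Q ≠ 0` of degree `q`, then the space of values of polynomials in `g` of degree `≤ N` has dimension `O(N^{r-1})`, so the
space of `z` of degree `≤ N` has dimension `O(N^{r-1})`, but it contains the `≥ (N/D)^r/..` monomials `x^{∑ n_i s_i}`.
-/

set_option autoImplicit false

namespace Pool.Agent.H56.SMC

open Finset AddMonoidAlgebra

theorem cpalg_supp_mul {R : Type} [CommRing R] {d : ℕ} {S : Set (Lat d)}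
    (hS : ∀ u ∈ S, ∀ v ∈ S, u + v ∈ S) {x y : LP R d} (hx : Supp S x) (hy : Supp S y) :
    Supp S (x * y) := by
  rw [← sum_coeff_single x, Finsupp.sum, sum_mul]
  refine Supp.sum _ fun u hu => ?_
  intro w hw
  rw [single_mul_coeff] at hw
  have h1 : y.coeff (w - u) ≠ 0 := fun h0 => hw (by rw [h0, mul_zero])
  have h2 := hS u (hx u (Finsupp.mem_support_iff.1 hu)) _ (hy _ h1)
  rwa [add_sub_cancel] at h2

/-- the algebra of the Laurent polynomials supported in the cone -/
def cpalgR (k : Type) [Field k] {d : ℕ} {κ : Type} (h : κ → Lat d) : Subalgebra k (LP k d) where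
  carrier := {z | Supp (Sset h) z}
  mul_mem' := by
    intro x y hx hy
    refine cpalg_supp_mul ?_ hx hy
    intro u hu v hv w
    rw [dt_add]
    exact add_nonneg (hu w) (hv w)
  add_mem' := fun hx hy => hx.add hy
  algebraMap_mem' := by
    intro r
    refine Supp.single (S := Sset h) (v := 0) ?_ r
    intro w
    rw [dt_zero]

/-- monomials with independent exponents are algebraically independent -/
theorem cpalg_mono {k : Type} [Field k] {d r : ℕ} (s : Fin r → Lat d)
    (hind : LinearIndependent ℤ s) :
    AlgebraicIndependent k (fun i => (single (s i) 1 : LP k d)) := by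
  rw [algebraicIndependent_iff]
  intro p hp
  have hmon : ∀ n : Fin r →₀ ℕ, MvPolynomial.aeval (fun i => (single (s i) 1 : LP k d))
      (MvPolynomial.monomial n (1 : k)) = single (∑ i, n i • s i) 1 := by
    intro n
    rw [MvPolynomial.aeval_monomial, map_one, one_mul, Finsupp.prod_fintype _ _ (by simp)]
    have h1 : ∀ i, (single (s i) 1 : LP k d) ^ n i = single (n i • s i) 1 := by
      intro i
      rw [single_pow, one_pow]
    simp only [h1]
    induction (Finset.univ : Finset (Fin r)) using Finset.induction_on with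
    | empty => simp [one_def]
    | insert a t ha ih => rw [prod_insert ha, sum_insert ha, ih, single_mul_single, one_mul]
  have hinj : ∀ n m : Fin r →₀ ℕ, ∑ i, n i • s i = ∑ i, m i • s i → n = m := by
    intro n m hnm
    have h1 := Fintype.linearIndependent_iff.1 hind (fun i => (n i : ℤ) - (m i : ℤ)) (by
      simp only [sub_smul, sum_sub_distrib, Nat.cast_smul_eq_nsmul]
      rw [hnm, sub_self])
    ext i
    have := h1 i
    omega
  ext n
  rw [MvPolynomial.coeff_zero]
  have h2 : (MvPolynomial.aeval (fun i => (single (s i) 1 : LP k d)) p).coeff (∑ i, n i • s i) = 0 := by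
    rw [hp]
    rfl
  rw [p.as_sum, map_sum (MvPolynomial.aeval (fun i => (single (s i) 1 : LP k d))), coeff_finsum] at h2
  rw [Finset.sum_eq_single n] at h2
  · have h3 : MvPolynomial.monomial n (p.coeff n) = (p.coeff n) • MvPolynomial.monomial n (1 : k) := by
      rw [MvPolynomial.smul_monomial, smul_eq_mul, mul_one]
    rw [h3, map_smul, coeff_smul', hmon, coeff_single', if_pos rfl, mul_one] at h2
    exact h2
  · intro m _ hm
    have h3 : MvPolynomial.monomial m (p.coeff m) = (p.coeff m) • MvPolynomial.monomial m (1 : k) := by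
      rw [MvPolynomial.smul_monomial, smul_eq_mul, mul_one]
    rw [h3, map_smul, coeff_smul', hmon, coeff_single', if_neg, mul_zero]
    intro h4
    exact hm (hinj _ _ h4).symm
  · intro hn
    rw [MvPolynomial.notMem_support_iff.1 hn]
    simp

/-- CPALG -/
theorem cp_alg {k : Type} [Field k] {d : ℕ} {κ : Type} [Fintype κ] (h : κ → Lat d) (δ : Lat d)
    (hpos : ∀ u ∈ Sset h, u ≠ 0 → 0 < dt δ u) {r : ℕ} (e : ℤ) (he : 0 < e) (g : Fin r → LP k d)
    (hg : ∀ i, Supp {u | u ∈ Sset h ∧ dt δ u = e} (g i))
    (hfl : ∀ u ∈ Sset h, u ≠ 0 → ∃ (N : ℕ) (z : Fin r → LP k d), (∀ j, Supp (Sset h) (z j)) ∧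
      (single (N • u) 1 : LP k d) = ∑ j, g j * z j)
    (s : Fin r → Lat d) (hs : ∀ i, s i ∈ Sset h) (hind : LinearIndependent ℤ s) :
    AlgebraicIndependent k g := by
  classical
  obtain ⟨B, hB, hfin⟩ := cp_fin h δ hpos e he g hg hfl
  have : IsDomain (LP k d) := inferInstance
  -- the elements in the subalgebra
  have hgR : ∀ i, g i ∈ cpalgR k h := fun i => (hg i).mono fun u hu => hu.1
  let g' : Fin r → cpalgR k h := fun i => ⟨g i, hgR i⟩
  have hgg' : g = (cpalgR k h).val ∘ g' := rfl
  let t : Fin r → cpalgR k h := fun i => ⟨single (s i) 1, Supp.single (hs i) 1⟩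
  have ht : AlgebraicIndependent k t := by
    have h1 : AlgebraicIndependent k ((cpalgR k h).val ∘ t) := cpalg_mono s hind
    exact h1.of_comp _
  -- finiteness
  have hfg : Module.Finite (Algebra.adjoin k (Set.range g')) (cpalgR k h) := by
    refine ⟨⟨B.attach.image fun u : {x // x ∈ B} => (⟨single (u : Lat d) 1,
      Supp.single (hB _ u.2) 1⟩ : cpalgR k h), ?_⟩⟩
    rw [eq_top_iff]
    rintro z -
    obtain ⟨Q, hQ⟩ := hfin z z.2
    have h2 : z = ∑ u : B, MvPolynomial.aeval g' (Q u) * ⟨single (u : Lat d) 1,
        Supp.single (hB _ u.2) 1⟩ := by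
      apply Subtype.ext
      rw [hQ, AddSubmonoidClass.coe_finsetSum, ← Finset.sum_coe_sort]
      refine Finset.sum_congr rfl fun u _ => ?_
      rw [MulMemClass.coe_mul]
      congr 1
      have h3 : ((cpalgR k h).val : cpalgR k h →ₐ[k] LP k d) (MvPolynomial.aeval g' (Q u)) =
          MvPolynomial.aeval g (Q u) := by
        exact MvPolynomial.comp_aeval_apply (φ := (cpalgR k h).val) (f := g') (Q u)
      exact h3.symm
    rw [h2]
    refine Submodule.sum_mem _ fun u _ => ?_
    have h4 : MvPolynomial.aeval g' (Q u) ∈ Algebra.adjoin k (Set.range g') := by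
      rw [Algebra.adjoin_range_eq_range_aeval]
      exact ⟨Q u, rfl⟩
    have h5 : MvPolynomial.aeval g' (Q u) * (⟨single (u : Lat d) 1,
        Supp.single (hB _ u.2) 1⟩ : cpalgR k h) =
        (⟨MvPolynomial.aeval g' (Q u), h4⟩ : Algebra.adjoin k (Set.range g')) •
          (⟨single (u : Lat d) 1, Supp.single (hB _ u.2) 1⟩ : cpalgR k h) := rfl
    rw [h5]
    refine Submodule.smul_mem _ _ (Submodule.subset_span ?_)
    rw [Finset.coe_image]
    exact ⟨u, by simp, rfl⟩
  have halg : Algebra.IsAlgebraic (Algebra.adjoin k (Set.range g')) (cpalgR k h) :=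
    Algebra.IsIntegral.isAlgebraic
  have htr : Cardinal.mk (Fin r) ≤ Algebra.trdeg k (cpalgR k h) := ht.cardinalMk_le_trdeg
  have hbas := Algebra.IsAlgebraic.isTranscendenceBasis_of_le_trdeg_of_finite k g' htr
  exact hbas.1.map' (f := (cpalgR k h).val) Subtype.val_injective

end Pool.Agent.H56.SMC
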