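import Pool.Agent.H56.SMC.CPFREE
import Pool.Agent.H56.SMC.CPALG

/-!
# CPCOL: colon capturing in characteristic `p`

Proof.  Let `c0`, `b_i` be as in `cp_free`, `c = aeval g c0` (nonzero: `halg`).  Let `g_m z = ∑_{i<m} g_i x_i`.  Raise to the power `q = p^e`
(Frobenius, commutative ring of characteristic `p`): `g_m^q z^q = ∑_{i<m} g_i^q x_i^q`; multiply by `c`: `g_m^q (c z^q) = ∑ g_i^q (c x_i^q)`.
Write `c z^q = ∑_l aeval g (Q_l) b_l`, `c x_i^q = ∑_l aeval g (Q_{i,l}) b_l`.  Independence of the `b_l`: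
`X_m^q Q_l = ∑_{i<m} X_i^q Q_{i,l}` in `MvPolynomial (Fin r) k`.  Hence `Q_l ∈ (X_i^q : i < m)`: every monomial `μ` of `Q_l` has `μ_i ≥ q` for some `i < m`
(look at the coefficient of `X_m^q X^μ`), `Q_l = ∑_{i<m} X_i^q P_{i,l}`.  So `c z^q = ∑_{i<m} g_i^q y_i` with `y_i = ∑_l aeval g (P_{i,l}) b_l`.
-/

set_option autoImplicit false

namespace Pool.Agent.H56.SMC

open Finset AddMonoidAlgebra

private theorem cpcol_add_mem {d : ℕ} {κ : Type} (h : κ → Lat d) {u v : Lat d}
    (hu : u ∈ Sset h) (hv : v ∈ Sset h) : u + v ∈ Sset h := by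
  intro w
  rw [dt_add]
  exact add_nonneg (hu w) (hv w)

private theorem cpcol_zero_mem {d : ℕ} {κ : Type} (h : κ → Lat d) : (0 : Lat d) ∈ Sset h := by
  intro w
  rw [dt_zero]

private theorem cpcol_sum_single {k : Type} [Field k] {d : ℕ} (x : LP k d) :
    x = ∑ u ∈ x.coeff.support, single u (x.coeff u) := by
  classical
  apply lp_ext
  intro v
  rw [coeff_finsum]
  simp only [coeff_single']
  rw [sum_ite_eq]
  split_ifs with hv
  · rfl
  · simpa using hv

private theorem cpcol_mul {k : Type} [Field k] {d : ℕ} {κ : Type} (h : κ → Lat d)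
    {x y : LP k d} (hx : Supp (Sset h) x) (hy : Supp (Sset h) y) : Supp (Sset h) (x * y) := by
  rw [cpcol_sum_single x, sum_mul]
  refine Supp.sum _ fun u hu => ?_
  have hu' : u ∈ Sset h := hx u (by simpa using hu)
  intro v hv
  rw [single_mul_coeff] at hv
  have h1 : y.coeff (v - u) ≠ 0 := fun h0 => hv (by rw [h0, mul_zero])
  have h2 := cpcol_add_mem h (hy _ h1) hu'
  rwa [sub_add_cancel] at h2

private theorem cpcol_one {k : Type} [Field k] {d : ℕ} {κ : Type} (h : κ → Lat d) :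
    Supp (Sset h) (1 : LP k d) := by
  rw [AddMonoidAlgebra.one_def]
  exact Supp.single (cpcol_zero_mem h) 1

private theorem cpcol_pow {k : Type} [Field k] {d : ℕ} {κ : Type} (h : κ → Lat d)
    {x : LP k d} (hx : Supp (Sset h) x) (n : ℕ) : Supp (Sset h) (x ^ n) := by
  induction n with
  | zero => rw [pow_zero]; exact cpcol_one h
  | succ n ih => rw [pow_succ]; exact cpcol_mul h ih hx

private theorem cpcol_aeval {k : Type} [Field k] {d : ℕ} {κ : Type} (h : κ → Lat d) {r : ℕ}
    (g : Fin r → LP k d) (hg : ∀ i, Supp (Sset h) (g i)) (P : MvPolynomial (Fin r) k) :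
    Supp (Sset h) (MvPolynomial.aeval g P) := by
  induction P using MvPolynomial.induction_on with
  | C a =>
    rw [MvPolynomial.aeval_C, Algebra.algebraMap_eq_smul_one]
    exact (cpcol_one h).smul a
  | add p q hp hq => rw [map_add]; exact hp.add hq
  | mul_X p i hp => rw [map_mul, MvPolynomial.aeval_X]; exact cpcol_mul h hp (hg i)

private theorem cpcol_ideal {k : Type} [Field k] {r : ℕ} (m : Fin r) (q : ℕ)
    (Q : MvPolynomial (Fin r) k) (Qi : Fin r → MvPolynomial (Fin r) k)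
    (H : MvPolynomial.X m ^ q * Q = ∑ i with i < m, MvPolynomial.X i ^ q * Qi i) :
    ∃ P : Fin r → MvPolynomial (Fin r) k, Q = ∑ i with i < m, MvPolynomial.X i ^ q * P i := by
  classical
  have hset : ((fun s => MvPolynomial.monomial s (1 : k)) ''
      ((fun i : Fin r => Finsupp.single i q) '' ((univ.filter fun i => i < m : Finset (Fin r)) : Set (Fin r)))) =
      ((fun i : Fin r => (MvPolynomial.X i : MvPolynomial (Fin r) k) ^ q) ''
        ((univ.filter fun i => i < m : Finset (Fin r)) : Set (Fin r))) := by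
    rw [Set.image_image]
    refine Set.image_congr fun i _ => ?_
    rw [MvPolynomial.X_pow_eq_monomial]
  have h1 : MvPolynomial.X m ^ q * Q ∈ Ideal.span ((fun i : Fin r =>
      (MvPolynomial.X i : MvPolynomial (Fin r) k) ^ q) ''
        ((univ.filter fun i => i < m : Finset (Fin r)) : Set (Fin r))) := by
    rw [H]
    refine Ideal.sum_mem _ fun i hi => Ideal.mul_mem_right _ _ (Ideal.subset_span ?_)
    exact ⟨i, by simpa using hi, rfl⟩
  rw [← hset, MvPolynomial.mem_ideal_span_monomial_image] at h1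
  have h2 : Q ∈ Ideal.span ((fun i : Fin r =>
      (MvPolynomial.X i : MvPolynomial (Fin r) k) ^ q) ''
        ((univ.filter fun i => i < m : Finset (Fin r)) : Set (Fin r))) := by
    rw [← hset, MvPolynomial.mem_ideal_span_monomial_image]
    intro μ hμ
    have h3 : μ + Finsupp.single m q ∈ (MvPolynomial.X m ^ q * Q).support := by
      rw [MvPolynomial.mem_support_iff, MvPolynomial.X_pow_eq_monomial, add_comm,
        MvPolynomial.coeff_monomial_mul, one_mul]
      exact MvPolynomial.mem_support_iff.mp hμ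
    obtain ⟨si, ⟨i, hi, rfl⟩, hle⟩ := h1 _ h3
    refine ⟨_, ⟨i, hi, rfl⟩, ?_⟩
    have hlt : i < m := by simpa using hi
    intro j
    have := hle j
    rw [Finsupp.add_apply] at this
    by_cases hj : j = i
    · subst hj
      rw [Finsupp.single_eq_of_ne (ne_of_lt hlt)] at this
      simpa using this
    · simp [Finsupp.single_eq_of_ne hj]
  have h4 := (Submodule.mem_span_image_finset_iff_exists_fun' (R := MvPolynomial (Fin r) k)
    (v := fun i : Fin r => (MvPolynomial.X i : MvPolynomial (Fin r) k) ^ q)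
    (s := univ.filter fun i => i < m) (x := Q)).mp h2
  obtain ⟨P, hP⟩ := h4
  refine ⟨P, ?_⟩
  rw [← hP]
  exact sum_congr rfl fun i _ => by rw [smul_eq_mul, mul_comm]

/-- CPCOL -/
theorem cp_col (q0 : ℕ) [Fact q0.Prime] {k : Type} [Field k] [CharP k q0] {d : ℕ} {κ : Type} [Fintype κ] (h : κ → Lat d) (δ : Lat d)
    (hpos : ∀ u ∈ Sset h, u ≠ 0 → 0 < dt δ u) {r : ℕ} (e : ℤ) (he : 0 < e) (g : Fin r → LP k d)
    (hg : ∀ i, Supp {u | u ∈ Sset h ∧ dt δ u = e} (g i))
    (hfl : ∀ u ∈ Sset h, u ≠ 0 → ∃ (N : ℕ) (z : Fin r → LP k d), (∀ j, Supp (Sset h) (z j)) ∧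
      (single (N • u) 1 : LP k d) = ∑ j, g j * z j)
    (s : Fin r → Lat d) (hs : ∀ i, s i ∈ Sset h) (hind : LinearIndependent ℤ s) :
    ∃ c : LP k d, c ≠ 0 ∧ Supp (Sset h) c ∧
      ∀ (m : Fin r) (z : LP k d) (x : Fin r → LP k d), Supp (Sset h) z →
        (∀ i, Supp (Sset h) (x i)) → g m * z = ∑ i with i < m, g i * x i →
        ∀ n : ℕ, ∃ y : Fin r → LP k d, (∀ i, Supp (Sset h) (y i)) ∧
          c * z ^ (q0 ^ n) = ∑ i with i < m, g i ^ (q0 ^ n) * y i := by
  classical
  have halg := cp_alg h δ hpos e he g hg hfl s hs hind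
  obtain ⟨c0, M, b, hc0, hb, hbind, hgen⟩ := cp_free h δ hpos e he g hg hfl halg
  have hgS : ∀ i, Supp (Sset h) (g i) := fun i => (hg i).mono fun u hu => hu.1
  have hchar : CharP (LP k d) q0 :=
    charP_of_injective_algebraMap (FaithfulSMul.algebraMap_injective k (LP k d)) q0
  refine ⟨MvPolynomial.aeval g c0, ?_, cpcol_aeval h g hgS c0, ?_⟩
  · intro h0
    apply hc0
    apply halg
    rw [h0, map_zero]
  intro m z x hz hx hrel n
  obtain ⟨Q, hQ⟩ := hgen (z ^ (q0 ^ n)) (cpcol_pow h hz _)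
  choose Qx hQx using fun i => hgen (x i ^ (q0 ^ n)) (cpcol_pow h (hx i) _)
  have hF : g m ^ (q0 ^ n) * z ^ (q0 ^ n) = ∑ i with i < m, g i ^ (q0 ^ n) * x i ^ (q0 ^ n) := by
    rw [← mul_pow, hrel, sum_pow_char_pow q0 n]
    exact sum_congr rfl fun i _ => mul_pow _ _ _
  have hQl : ∀ l, MvPolynomial.X m ^ (q0 ^ n) * Q l =
      ∑ i with i < m, MvPolynomial.X i ^ (q0 ^ n) * Qx i l := by
    have hz0 : ∑ l, MvPolynomial.aeval g (MvPolynomial.X m ^ (q0 ^ n) * Q l -
        ∑ i with i < m, MvPolynomial.X i ^ (q0 ^ n) * Qx i l) * b l = 0 := by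
      have e1 : ∀ l, MvPolynomial.aeval g (MvPolynomial.X m ^ (q0 ^ n) * Q l -
          ∑ i with i < m, MvPolynomial.X i ^ (q0 ^ n) * Qx i l) * b l =
          g m ^ (q0 ^ n) * (MvPolynomial.aeval g (Q l) * b l) -
            ∑ i with i < m, g i ^ (q0 ^ n) * (MvPolynomial.aeval g (Qx i l) * b l) := by
        intro l
        rw [map_sub, map_mul, map_pow, MvPolynomial.aeval_X, map_sum, sub_mul, sum_mul, mul_assoc]
        congr 1
        refine sum_congr rfl fun i _ => ?_
        rw [map_mul, map_pow, MvPolynomial.aeval_X, mul_assoc]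
      rw [sum_congr rfl fun l _ => e1 l, sum_sub_distrib, sum_comm, ← mul_sum, ← hQ]
      simp only [← mul_sum, ← hQx]
      rw [sub_eq_zero]
      calc g m ^ q0 ^ n * (MvPolynomial.aeval g c0 * z ^ q0 ^ n)
          = MvPolynomial.aeval g c0 * (g m ^ q0 ^ n * z ^ q0 ^ n) := by ring
        _ = _ := by
          rw [hF, mul_sum]
          exact sum_congr rfl fun i _ => by ring
    intro l
    exact sub_eq_zero.mp (hbind _ hz0 l)
  choose P hP using fun l => cpcol_ideal m (q0 ^ n) (Q l) (fun i => Qx i l) (hQl l)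
  refine ⟨fun i => ∑ l, MvPolynomial.aeval g (P l i) * b l, fun i => ?_, ?_⟩
  · exact Supp.sum _ fun l _ => cpcol_mul h (cpcol_aeval h g hgS _) (hb l)
  · rw [hQ]
    simp only [mul_sum]
    rw [sum_comm]
    refine sum_congr rfl fun l _ => ?_
    rw [hP l, map_sum, sum_mul]
    refine sum_congr rfl fun i _ => ?_
    rw [map_mul, map_pow, MvPolynomial.aeval_X, mul_assoc]

end Pool.Agent.H56.SMC
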