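import Pool.Agent.H56.SMC.SFG

/-!
# CPFIN: `k[S]` is finite over `k[g_1,…,g_r]`

Proof.  `G` from `sfg`, `N_s`, `z` from `hfl` for `s ∈ G`; WLOG `z_j` homogeneous of degree `N_s dt δ s - e` (take the parts of this degree; the
`g_j` are homogeneous of degree `e`).  Note `N_s > 0` because the right hand side has no component of degree `0`
(all terms have degree `≥ e`).  If `dt δ u ≥ M := ∑_{s ∈ G} N_s dt δ s` (`+1`) then in `u = ∑ n_s s` some `n_s ≥ N_s`, so
`x^u = x^{N_s s} x^{u - N_s s} = ∑_j g_j (z_j x^{u-N_s s})`, all terms of `z_j x^{u-N_s s}` lie in `S` and have degree `dt δ u - e`.  Induction on `dt δ u`: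
`x^u ∈ ∑_{u' ∈ B} k[g] x^{u'}` with `B = {u ∈ S : dt δ u ≤ M}` (finite by `sfin`); then linearity.
-/

set_option autoImplicit false

namespace Pool.Agent.H56.SMC

open Finset AddMonoidAlgebra

theorem cpfin_sum_single {R : Type} [CommRing R] {d : ℕ} (z : LP R d) :
    z = ∑ v ∈ z.coeff.support, single v (z.coeff v) := by
  conv_lhs => rw [← AddMonoidAlgebra.sum_coeff_single z]
  rfl

theorem cpfin_single_smul {R : Type} [CommRing R] {d : ℕ} (v : Lat d) (r : R) :
    (single v r : LP R d) = r • single v 1 := by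
  rw [AddMonoidAlgebra.smul_single', mul_one]

theorem cpfin_mem_of_supp {R : Type} [CommRing R] {d : ℕ} (W : Submodule R (LP R d))
    {T : Set (Lat d)} (hT : ∀ v ∈ T, (single v 1 : LP R d) ∈ W) {z : LP R d} (hz : Supp T z) :
    z ∈ W := by
  rw [cpfin_sum_single z]
  refine W.sum_mem fun v hv => ?_
  rw [cpfin_single_smul]
  exact W.smul_mem _ (hT v (hz v (Finsupp.mem_support_iff.1 hv)))

/-- the part of degree `D` -/
noncomputable def cpfin_part {R : Type} [CommRing R] {d : ℕ} (δ : Lat d) (D : ℤ)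
    (z : LP R d) : LP R d :=
  dg (fun u => if dt δ u = D then 1 else 0) z

theorem cpfin_part_supp {R : Type} [CommRing R] {d : ℕ} (δ : Lat d) (D : ℤ)
    {T : Set (Lat d)} {z : LP R d} (hz : Supp T z) :
    Supp {u | u ∈ T ∧ dt δ u = D} (cpfin_part δ D z) := by
  intro u hu
  rw [cpfin_part, dg_coeff] at hu
  by_cases h : dt δ u = D
  · refine ⟨hz u fun h0 => hu (by rw [h0, mul_zero]), h⟩
  · rw [if_neg h, zero_mul] at hu
    exact absurd rfl hu

theorem cpfin_part_add {R : Type} [CommRing R] {d : ℕ} (δ : Lat d) (D : ℤ) (x y : LP R d) :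
    cpfin_part δ D (x + y) = cpfin_part δ D x + cpfin_part δ D y := by
  apply lp_ext
  intro u
  simp only [cpfin_part, dg_coeff, coeff_add', mul_add]

theorem cpfin_part_zero {R : Type} [CommRing R] {d : ℕ} (δ : Lat d) (D : ℤ) :
    cpfin_part δ D (0 : LP R d) = 0 := by
  apply lp_ext
  intro u
  simp only [cpfin_part, dg_coeff, coeff_zero', mul_zero]

theorem cpfin_part_sum {R : Type} [CommRing R] {d : ℕ} (δ : Lat d) (D : ℤ) {α : Type*}
    (s : Finset α) (f : α → LP R d) :
    cpfin_part δ D (∑ i ∈ s, f i) = ∑ i ∈ s, cpfin_part δ D (f i) := by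
  classical
  induction s using Finset.induction_on with
  | empty => simp [cpfin_part_zero]
  | insert a s ha ih => rw [sum_insert ha, sum_insert ha, cpfin_part_add, ih]

theorem cpfin_part_single_mul {R : Type} [CommRing R] {d : ℕ} (δ : Lat d) (D e : ℤ)
    (v : Lat d) (hv : dt δ v = e) (r : R) (z : LP R d) :
    cpfin_part δ (D + e) (single v r * z) = single v r * cpfin_part δ D z := by
  apply lp_ext
  intro u
  rw [cpfin_part, dg_coeff, single_mul_coeff, single_mul_coeff, cpfin_part, dg_coeff]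
  have h1 : (dt δ u = D + e) ↔ (dt δ (u - v) = D) := by
    rw [dt_sub, hv]
    constructor <;> intro h <;> linarith
  by_cases h : dt δ (u - v) = D
  · rw [if_pos h, if_pos (h1.2 h)]
    ring
  · rw [if_neg h, if_neg (fun h' => h (h1.1 h'))]
    ring

theorem cpfin_part_mul {R : Type} [CommRing R] {d : ℕ} (δ : Lat d) (D e : ℤ)
    {y : LP R d} (hy : Supp {u | dt δ u = e} y) (z : LP R d) :
    cpfin_part δ (D + e) (y * z) = y * cpfin_part δ D z := by
  conv_lhs => rw [cpfin_sum_single y, sum_mul, cpfin_part_sum]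
  conv_rhs => rw [cpfin_sum_single y, sum_mul]
  refine sum_congr rfl fun v hv => ?_
  exact cpfin_part_single_mul δ D e v (hy v (Finsupp.mem_support_iff.1 hv)) _ _

/-- the combinations of the `x^u`, `u ∈ B`, with coefficients in `k[g]` -/
noncomputable def cpfin_W {k : Type} [Field k] {d : ℕ} {r : ℕ} (g : Fin r → LP k d)
    (B : Finset (Lat d)) : Submodule k (LP k d) where
  carrier := {z | ∃ Q : Lat d → MvPolynomial (Fin r) k,
        z = ∑ u ∈ B, MvPolynomial.aeval g (Q u) * single u 1}
  add_mem' := by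
    rintro x y ⟨P, rfl⟩ ⟨Q, rfl⟩
    refine ⟨fun u => P u + Q u, ?_⟩
    simp only [map_add, add_mul, sum_add_distrib]
  zero_mem' := ⟨fun _ => 0, by simp⟩
  smul_mem' := by
    rintro c x ⟨P, rfl⟩
    refine ⟨fun u => c • P u, ?_⟩
    simp only [map_smul, smul_mul_assoc, smul_sum]

theorem cpfin_W_mul {k : Type} [Field k] {d : ℕ} {r : ℕ} (g : Fin r → LP k d)
    (B : Finset (Lat d)) (j : Fin r) {z : LP k d} (hz : z ∈ cpfin_W g B) :
    g j * z ∈ cpfin_W g B := by
  obtain ⟨P, rfl⟩ := hz
  refine ⟨fun u => MvPolynomial.X j * P u, ?_⟩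
  simp only [map_mul, MvPolynomial.aeval_X, mul_assoc, mul_sum]

theorem cpfin_W_base {k : Type} [Field k] {d : ℕ} {r : ℕ} (g : Fin r → LP k d)
    (B : Finset (Lat d)) {u : Lat d} (hu : u ∈ B) :
    (single u 1 : LP k d) ∈ cpfin_W g B := by
  classical
  refine ⟨fun v => if v = u then 1 else 0, ?_⟩
  rw [Finset.sum_eq_single u]
  · simp
  · intro b _ hb
    simp [hb]
  · intro h
    exact absurd hu h

/-- CPFIN -/
theorem cp_fin {k : Type} [Field k] {d : ℕ} {κ : Type} [Fintype κ] (h : κ → Lat d) (δ : Lat d)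
    (hpos : ∀ u ∈ Sset h, u ≠ 0 → 0 < dt δ u) {r : ℕ} (e : ℤ) (he : 0 < e) (g : Fin r → LP k d)
    (hg : ∀ i, Supp {u | u ∈ Sset h ∧ dt δ u = e} (g i))
    (hfl : ∀ u ∈ Sset h, u ≠ 0 → ∃ (N : ℕ) (z : Fin r → LP k d), (∀ j, Supp (Sset h) (z j)) ∧
      (single (N • u) 1 : LP k d) = ∑ j, g j * z j) :
    ∃ B : Finset (Lat d), (∀ u ∈ B, u ∈ Sset h) ∧ ∀ z : LP k d, Supp (Sset h) z →
      ∃ Q : Lat d → MvPolynomial (Fin r) k,
        z = ∑ u ∈ B, MvPolynomial.aeval g (Q u) * single u 1 := by
  classical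
  obtain ⟨G, hG, hGen⟩ := sfg h δ hpos
  have hnn : ∀ u ∈ Sset h, 0 ≤ dt δ u := by
    intro u hu
    by_cases h0 : u = 0
    · rw [h0, dt_zero]
    · exact (hpos u hu h0).le
  have hchoice : ∀ s : Lat d, ∃ (N : ℕ) (z : Fin r → LP k d), s ∈ G →
      (∀ j, Supp {u | u ∈ Sset h ∧ dt δ u = N * dt δ s - e} (z j)) ∧
      (single (N • s) 1 : LP k d) = ∑ j, g j * z j := by
    intro s
    by_cases hs : s ∈ G
    · obtain ⟨N, z, hz, hzs⟩ := hfl s (hG s hs).1 (hG s hs).2
      refine ⟨N, fun j => cpfin_part δ (N * dt δ s - e) (z j), fun _ => ⟨fun j => ?_, ?_⟩⟩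
      · exact cpfin_part_supp δ _ (hz j)
      · have h1 : ∀ j, g j * cpfin_part δ (N * dt δ s - e) (z j) =
            cpfin_part δ (N * dt δ s) (g j * z j) := by
          intro j
          have h2 := cpfin_part_mul δ (N * dt δ s - e) e ((hg j).mono (fun u hu => hu.2)) (z j)
          rw [sub_add_cancel] at h2
          exact h2.symm
        rw [sum_congr rfl (fun j _ => h1 j), ← cpfin_part_sum, ← hzs]
        apply lp_ext
        intro u
        rw [cpfin_part, dg_coeff, coeff_single']
        by_cases hu : u = N • s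
        · rw [if_pos hu, hu, dt_nsmul, if_pos rfl, one_mul]
        · rw [if_neg hu, mul_zero]
    · exact ⟨0, fun _ => 0, fun h' => absurd h' hs⟩
  choose N Z hNZ using hchoice
  set M : ℤ := ∑ s ∈ G, (N s : ℤ) * dt δ s with hM
  have hfin := sfin h δ hpos M
  refine ⟨hfin.toFinset, fun u hu => (hfin.mem_toFinset.1 hu).1, ?_⟩
  have key : ∀ n : ℕ, ∀ u ∈ Sset h, (dt δ u).toNat = n →
      (single u 1 : LP k d) ∈ cpfin_W g hfin.toFinset := by
    intro n
    induction n using Nat.strong_induction_on with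
    | _ n ih =>
    intro u hu hun
    by_cases hle : dt δ u ≤ M
    · exact cpfin_W_base g _ (hfin.mem_toFinset.2 ⟨hu, hle⟩)
    · push Not at hle
      obtain ⟨m, hm⟩ := hGen u hu
      have hex : ∃ s ∈ G, N s ≤ m s := by
        by_contra hcon
        push Not at hcon
        have h1 : dt δ u ≤ M := by
          conv_lhs => rw [hm, dt_sum]
          rw [hM]
          refine sum_le_sum fun s hs => ?_
          rw [dt_nsmul]
          have h2 : (m s : ℤ) ≤ N s := by exact_mod_cast (hcon s hs).le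
          exact mul_le_mul_of_nonneg_right h2 (hnn s (hG s hs).1)
        linarith
      obtain ⟨s, hs, hNm⟩ := hex
      obtain ⟨hZ1, hZ2⟩ := hNZ s hs
      have hu' : u = N s • s + (u - N s • s) := by abel
      have hmem : u - N s • s ∈ Sset h := by
        have h1 : u - N s • s = (m s - N s) • s + ∑ t ∈ G.erase s, m t • t := by
          conv_lhs => rw [hm, ← Finset.add_sum_erase G _ hs]
          have h2 : m s • s = (m s - N s) • s + N s • s := by
            rw [← add_smul, Nat.sub_add_cancel hNm]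
          rw [h2]
          abel
        rw [h1]
        intro v
        rw [dt_add, dt_nsmul, dt_sum]
        refine add_nonneg (mul_nonneg (by positivity) ((hG s hs).1 v)) ?_
        refine sum_nonneg fun t ht => ?_
        rw [dt_nsmul]
        exact mul_nonneg (by positivity) ((hG t (Finset.mem_of_mem_erase ht)).1 v)
      have hprod : (single u 1 : LP k d) = ∑ j, g j * (single (u - N s • s) 1 * Z s j) := by
        have h1 : (single u 1 : LP k d) = single (N s • s) 1 * single (u - N s • s) 1 := by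
          rw [AddMonoidAlgebra.single_mul_single, mul_one, ← hu']
        rw [h1, hZ2, sum_mul]
        refine sum_congr rfl fun j _ => ?_
        ring
      rw [hprod]
      refine Submodule.sum_mem _ fun j _ => cpfin_W_mul g _ j ?_
      have hsupp : Supp {v | v ∈ Sset h ∧ dt δ v = dt δ u - e}
          (single (u - N s • s) 1 * Z s j) := by
        intro v hv
        rw [single_mul_coeff, one_mul] at hv
        obtain ⟨h1, h2⟩ := hZ1 j _ hv
        have h3 : v = (v - (u - N s • s)) + (u - N s • s) := by abel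
        refine ⟨?_, ?_⟩
        · rw [h3]
          intro w
          rw [dt_add]
          exact add_nonneg (h1 w) (hmem w)
        · rw [h3, dt_add, h2, dt_sub, dt_nsmul]
          ring
      refine cpfin_mem_of_supp _ ?_ hsupp
      rintro v ⟨hv1, hv2⟩
      refine ih (dt δ v).toNat ?_ v hv1 rfl
      have h1 := hnn v hv1
      have h2 := hnn u hu
      omega
  intro z hz
  exact cpfin_mem_of_supp (cpfin_W g hfin.toFinset) (fun v hv => key _ v hv rfl) hz

end Pool.Agent.H56.SMC
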