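import Pool.Agent.H56.SMC.CPFIN

/-!
# CPFREE: a free submodule of `k[S]` over `k[g]` with torsion cokernel

Proof.  `B` from `cp_fin`.  Choose a maximal subset `E ⊆ B` such that the monomials `x^u`, `u ∈ E`, are linearly independent over `A = k[g]`
(`≅ MvPolynomial (Fin r) k` by `halg`).  For every `u ∈ B` outside `E` there is `c_u ∈ A`, `c_u ≠ 0` with `c_u x^u ∈ ∑_{E} A x^{u'}` (a nontrivial relation must involve
`x^u` with nonzero coefficient).  `c = ∏ c_u`.  Then `c z ∈ ∑_E A x^{u'}` for all `z`.  `m = |E|`.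
-/

set_option autoImplicit false

namespace Pool.Agent.H56.SMC

open Finset AddMonoidAlgebra

/-- the abstract statement: a finite family in a module over a domain contains a maximal independent family -/
theorem cpfree_abs {A M : Type} [CommRing A] [IsDomain A] [AddCommGroup M] [Module A M]
    {β : Type} [Fintype β] (v : β → M) :
    ∃ (c : A) (m : ℕ) (i : Fin m → β), c ≠ 0 ∧ LinearIndependent A (fun x => v (i x)) ∧
      ∀ z ∈ Submodule.span A (Set.range v), c • z ∈ Submodule.span A (Set.range fun x => v (i x)) := by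
  classical
  obtain ⟨s, hs, hmax⟩ := exists_maximal_linearIndepOn A v
  have hc : ∀ i, ∃ a : A, a ≠ 0 ∧ a • v i ∈ Submodule.span A (v '' s) := by
    intro i
    by_cases hi : i ∈ s
    · exact ⟨1, one_ne_zero, by
        rw [one_smul]
        exact Submodule.subset_span (Set.mem_image_of_mem v hi)⟩
    · exact hmax i hi
  choose a ha0 ha using hc
  let e : Fin (Fintype.card s) ≃ s := (Fintype.equivFin s).symm
  have hrange : (Set.range fun x => v (e x : β)) = v '' s := by
    ext y
    constructor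
    · rintro ⟨x, rfl⟩
      exact ⟨e x, (e x).2, rfl⟩
    · rintro ⟨i, hi, rfl⟩
      exact ⟨e.symm ⟨i, hi⟩, by simp⟩
  refine ⟨∏ i, a i, Fintype.card s, fun x => (e x : β), Finset.prod_ne_zero_iff.2 fun i _ => ha0 i,
    ?_, ?_⟩
  · exact (LinearIndependent.comp hs e e.injective)
  · intro z hz
    rw [hrange]
    induction hz using Submodule.span_induction with
    | mem x hx =>
      obtain ⟨i, rfl⟩ := hx
      rw [← Finset.prod_erase_mul _ _ (Finset.mem_univ i), mul_smul]
      exact Submodule.smul_mem _ _ (ha i)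
    | zero =>
      rw [smul_zero]
      exact Submodule.zero_mem _
    | add x y _ _ hx hy =>
      rw [smul_add]
      exact Submodule.add_mem _ hx hy
    | smul r x _ hx =>
      rw [smul_comm]
      exact Submodule.smul_mem _ _ hx

/-- CPFREE -/
theorem cp_free {k : Type} [Field k] {d : ℕ} {κ : Type} [Fintype κ] (h : κ → Lat d) (δ : Lat d)
    (hpos : ∀ u ∈ Sset h, u ≠ 0 → 0 < dt δ u) {r : ℕ} (e : ℤ) (he : 0 < e) (g : Fin r → LP k d)
    (hg : ∀ i, Supp {u | u ∈ Sset h ∧ dt δ u = e} (g i))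
    (hfl : ∀ u ∈ Sset h, u ≠ 0 → ∃ (N : ℕ) (z : Fin r → LP k d), (∀ j, Supp (Sset h) (z j)) ∧
      (single (N • u) 1 : LP k d) = ∑ j, g j * z j)
    (halg : AlgebraicIndependent k g) :
    ∃ (c : MvPolynomial (Fin r) k) (m : ℕ) (b : Fin m → LP k d), c ≠ 0 ∧
      (∀ i, Supp (Sset h) (b i)) ∧
      (∀ Q : Fin m → MvPolynomial (Fin r) k,
        ∑ i, MvPolynomial.aeval g (Q i) * b i = 0 → ∀ i, Q i = 0) ∧
      ∀ z : LP k d, Supp (Sset h) z → ∃ Q : Fin m → MvPolynomial (Fin r) k,
        MvPolynomial.aeval g c * z = ∑ i, MvPolynomial.aeval g (Q i) * b i := by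
  classical
  obtain ⟨B, hB, hfin⟩ := cp_fin h δ hpos e he g hg hfl
  let _ : Module (MvPolynomial (Fin r) k) (LP k d) :=
    Module.compHom (LP k d) (MvPolynomial.aeval g : MvPolynomial (Fin r) k →ₐ[k] LP k d).toRingHom
  have hsmul : ∀ (Q : MvPolynomial (Fin r) k) (z : LP k d), Q • z = MvPolynomial.aeval g Q * z :=
    fun Q z => rfl
  obtain ⟨c, m, i, hc, hind, hspan⟩ := cpfree_abs (A := MvPolynomial (Fin r) k)
    (fun u : B => (single (u : Lat d) 1 : LP k d))
  refine ⟨c, m, fun x => single (i x : Lat d) 1, hc, fun x => Supp.single (hB _ (i x).2) 1, ?_, ?_⟩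
  · intro Q hQ
    exact Fintype.linearIndependent_iff.1 hind Q hQ
  · intro z hz
    obtain ⟨Q, hQ⟩ := hfin z hz
    have h1 : z ∈ Submodule.span (MvPolynomial (Fin r) k)
        (Set.range fun u : B => (single (u : Lat d) 1 : LP k d)) := by
      rw [hQ]
      refine Submodule.sum_mem _ fun u hu => ?_
      rw [← hsmul]
      exact Submodule.smul_mem _ _ (Submodule.subset_span ⟨⟨u, hu⟩, rfl⟩)
    obtain ⟨Q', hQ'⟩ := (Submodule.mem_span_range_iff_exists_fun _).1 (hspan z h1)
    exact ⟨Q', hQ'.symm⟩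

end Pool.Agent.H56.SMC
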