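import Mathlib

/-!
# MP_504089_ag: strong monodromy for nondegenerate polynomials divisible by all variables

Definitions for the algebraic core.  `Lat d = ℤ^d`, `LP R d = R[ℤ^d]` Laurent polynomials with
coefficients in `R` (also used as the free `R`-module with basis `e_u`, `u ∈ ℤ^d`).

Data: finitely many exponents `a i ∈ ℤ^d`, coefficients `c i : R`, a parameter `p : Fin d → R`.
For `h ∈ ℤ^d` (a linear functional) `gs a c h = ∑ c_i (h·a_i) x^{a_i}` and
`Dop p a c h e_u = (p(h) + h·u) e_u - gs a c h * e_u`.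
-/

set_option autoImplicit false

namespace Pool.Agent.H56.SMC

open Finset AddMonoidAlgebra

/-- The lattice. -/
abbrev Lat (d : ℕ) : Type := Fin d → ℤ

/-- Laurent polynomials. -/
abbrev LP (R : Type) [CommRing R] (d : ℕ) : Type := AddMonoidAlgebra R (Lat d)

/-- The value of the functional `h` at `u`. -/
def dt {d : ℕ} (h u : Lat d) : ℤ := ∑ j, h j * u j

/-- The unit vector. -/
def ev {d : ℕ} (j : Fin d) : Lat d := Pi.single j 1

/-- The lattice points of the cone `{h_v ≥ 0 for all v}`. -/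
def Sset {d : ℕ} {κ : Type} (h : κ → Lat d) : Set (Lat d) := {u | ∀ v, 0 ≤ dt (h v) u}

/-- The lattice points with `h_v(u) ≥ l_v` for all `v`. -/
def Sc {d : ℕ} {κ : Type} (h : κ → Lat d) (l : κ → ℤ) : Set (Lat d) := {u | ∀ v, l v ≤ dt (h v) u}

/-- The levels `⌈-h_v(y0)/m0⌉`. -/
def lev {d : ℕ} {κ : Type} (h : κ → Lat d) (m0 : ℤ) (y0 : Lat d) (v : κ) : ℤ :=
  -(dt (h v) y0 / m0)

/-- `u` lies in the cone spanned by the `a i` (dual description). -/
def InC {d : ℕ} {ι : Type} (a : ι → Lat d) (u : Lat d) : Prop :=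
  ∀ h : Lat d, (∀ i, 0 ≤ dt h (a i)) → 0 ≤ dt h u

/-- `u` lies in the relative interior of the cone spanned by the `a i` with `H·a_i = 0`, for a
functional `H` which is nonnegative on all `a i` (dual description). -/
def Om {d : ℕ} {ι : Type} (a : ι → Lat d) (H : Lat d) (u : Lat d) : Prop :=
  ∀ h : Lat d, (∀ i, 0 ≤ dt h (a i)) →
    0 ≤ dt h u ∧ (dt h u = 0 ↔ ∀ i, dt H (a i) = 0 → dt h (a i) = 0)

section
variable {R : Type} [CommRing R] {d : ℕ}

/-- All exponents of `z` lie in `S`. -/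
def Supp (S : Set (Lat d)) (z : LP R d) : Prop := ∀ u, z.coeff u ≠ 0 → u ∈ S

/-- The diagonal operator `e_u ↦ φ(u) e_u`. -/
noncomputable def dg (φ : Lat d → R) (z : LP R d) : LP R d :=
  ofCoeff (Finsupp.onFinset z.coeff.support (fun u => φ u * z.coeff u)
    (fun u hu => by
      rw [Finsupp.mem_support_iff]
      intro h0
      exact hu (by rw [h0, mul_zero])))

theorem dg_coeff (φ : Lat d → R) (z : LP R d) (u : Lat d) :
    (dg φ z).coeff u = φ u * z.coeff u := rfl

/-- `p(h) = ∑ h_j p_j`. -/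
def pv (p : Fin d → R) (h : Lat d) : R := ∑ j, (h j : R) * p j

variable {ι : Type} [Fintype ι]

/-- The symbol `∑ c_i (h·a_i) x^{a_i}`. -/
noncomputable def gs (a : ι → Lat d) (c : ι → R) (h : Lat d) : LP R d :=
  ∑ i, single (a i) (c i * (dt h (a i) : R))

/-- The operator `D_h`. -/
noncomputable def Dop (p : Fin d → R) (a : ι → Lat d) (c : ι → R) (h : Lat d) (z : LP R d) :
    LP R d :=
  dg (fun u => pv p h + (dt h u : R)) z - gs a c h * z

/-- `x = ∑_j D_j z_j` with all `z_j` supported in `S`. -/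
def Ex (p : Fin d → R) (a : ι → Lat d) (c : ι → R) (S : Set (Lat d)) (x : LP R d) : Prop :=
  ∃ z : Fin d → LP R d, (∀ j, Supp S (z j)) ∧ x = ∑ j, Dop p a c (ev j) (z j)

/-- Exactness at `H_1` of the Koszul complex of the symbols `g_j` on `R[S]`. -/
def KExact (a : ι → Lat d) (c : ι → R) (S : Set (Lat d)) : Prop :=
  ∀ r : Fin d → LP R d, (∀ j, Supp S (r j)) → ∑ j, gs a c (ev j) * r j = 0 →
    ∃ y : Fin d → Fin d → LP R d, (∀ j k, Supp S (y j k)) ∧ (∀ j k, y j k = -y k j) ∧
      ∀ j, r j = ∑ k, gs a c (ev k) * y j k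

/-- The coefficients at the exponents of the face `{h0 = 0}`, zero at the other exponents. -/
def cF (a : ι → Lat d) (c : ι → R) (h0 : Lat d) : ι → R :=
  fun i => if dt h0 (a i) = 0 then c i else 0

/-- Exactness on the facet `{h0 = 0}`: the only further relation is `∑ h0_j g_j = 0`. -/
def KExactF (a : ι → Lat d) (c : ι → R) (S : Set (Lat d)) (h0 : Lat d) : Prop :=
  ∀ r : Fin d → LP R d, (∀ j, Supp (S ∩ {u | dt h0 u = 0}) (r j)) →
    ∑ j, gs a (cF a c h0) (ev j) * r j = 0 →
    ∃ (y : Fin d → Fin d → LP R d) (r' : LP R d),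
      (∀ j k, Supp (S ∩ {u | dt h0 u = 0}) (y j k)) ∧ Supp (S ∩ {u | dt h0 u = 0}) r' ∧
      (∀ j k, y j k = -y k j) ∧
      ∀ j, r j = ∑ k, gs a (cF a c h0) (ev k) * y j k + (h0 j : R) • r'

/-! Basic lemmas -/

theorem dt_add (h u v : Lat d) : dt h (u + v) = dt h u + dt h v := by
  simp only [dt, Pi.add_apply, mul_add, sum_add_distrib]

theorem dt_sub (h u v : Lat d) : dt h (u - v) = dt h u - dt h v := by
  simp only [dt, Pi.sub_apply, mul_sub, sum_sub_distrib]

theorem dt_zero (h : Lat d) : dt h 0 = 0 := by simp [dt]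

theorem dt_neg (h u : Lat d) : dt h (-u) = -dt h u := by
  simp only [dt, Pi.neg_apply, mul_neg, sum_neg_distrib]

theorem dt_nsmul (h u : Lat d) (n : ℕ) : dt h (n • u) = n * dt h u := by
  simp only [dt, Pi.smul_apply, nsmul_eq_mul, mul_sum]
  exact sum_congr rfl fun j _ => by ring

theorem dt_sum {α : Type*} (s : Finset α) (h : Lat d) (f : α → Lat d) :
    dt h (∑ i ∈ s, f i) = ∑ i ∈ s, dt h (f i) := by
  classical
  induction s using Finset.induction_on with
  | empty => simp [dt_zero]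
  | insert a s ha ih => rw [sum_insert ha, sum_insert ha, dt_add, ih]

theorem dt_zsmul (h u : Lat d) (n : ℤ) : dt h (n • u) = n * dt h u := by
  simp only [dt, Pi.smul_apply, smul_eq_mul, mul_sum]
  exact sum_congr rfl fun j _ => by ring

theorem mem_Sc_lev {κ : Type} (h : κ → Lat d) {m0 : ℤ} (hm0 : 0 < m0) (y0 u : Lat d) :
    u ∈ Sc h (lev h m0 y0) ↔ m0 • u + y0 ∈ Sset h := by
  simp only [Sc, Sset, lev, Set.mem_ofPred_eq, dt_add, dt_zsmul]
  refine forall_congr' fun v => ?_
  rw [neg_le, Int.le_ediv_iff_mul_le hm0]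
  constructor <;> intro hx <;> linarith

theorem dt_ev (j : Fin d) (u : Lat d) : dt (ev j) u = u j := by
  simp [dt, ev, Pi.single_apply]

theorem dt_comm (h u : Lat d) : dt h u = dt u h := by
  simp only [dt]
  exact sum_congr rfl fun j _ => mul_comm _ _

theorem dt_left (h u : Lat d) : dt h u = ∑ j, h j * dt (ev j) u := by
  simp only [dt_ev]; rfl

theorem single_mul_coeff (v : Lat d) (r : R) (z : LP R d) (u : Lat d) :
    (single v r * z).coeff u = r * z.coeff (u - v) := by
  have h := AddMonoidAlgebra.coeff_single_mul_add z r v (u - v)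
  rwa [add_sub_cancel] at h

theorem lp_ext {x y : LP R d} (h : ∀ u, x.coeff u = y.coeff u) : x = y :=
  AddMonoidAlgebra.ext (Finsupp.ext h)

theorem coeff_finsum {α : Type*} (s : Finset α) (f : α → LP R d) (u : Lat d) :
    (∑ i ∈ s, f i).coeff u = ∑ i ∈ s, (f i).coeff u := by
  classical
  induction s using Finset.induction_on with
  | empty => simp
  | insert a s ha ih => rw [sum_insert ha, sum_insert ha, ← ih]; rfl

theorem gs_mul_coeff (a : ι → Lat d) (c : ι → R) (h : Lat d) (z : LP R d) (u : Lat d) :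
    (gs a c h * z).coeff u = ∑ i, c i * (dt h (a i) : R) * z.coeff (u - a i) := by
  rw [gs, sum_mul, coeff_finsum]
  exact sum_congr rfl fun i _ => single_mul_coeff _ _ _ _

/-- The coefficient formula for `D_h z`. -/
theorem Dop_coeff (p : Fin d → R) (a : ι → Lat d) (c : ι → R) (h : Lat d) (z : LP R d)
    (u : Lat d) : (Dop p a c h z).coeff u =
      (pv p h + (dt h u : R)) * z.coeff u - ∑ i, c i * (dt h (a i) : R) * z.coeff (u - a i) := by
  rw [← gs_mul_coeff]
  rfl

end

end Pool.Agent.H56.SMC
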