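import Pool.Agent.H56.SMC.FSTEP
import Pool.Agent.H56.SMC.FLAG

/-!
# FLAGB: flags of faces give nonzero classes (stronger form; adapt the proof in FLAG.lean)

Proof.  Induction on `s`.  `s = 0`: `i 0 = i0`, `α = a i0`; all `a i` in the face `T_0` equal `α`.  `Om a (H 0) α`: clear.  `NotIn`: if `single α 1 = ∑_j gs a (cF a c (H 0)) (ev j) * y_j`, then some `y_j` has an exponent `u` with `Om a (H 0) u` and `u = α - α = 0`
(the exponents of the symbols are `α`), but `dt δ u ≥ 1` for `Om a (H 0) u` (apply the definition with `h = δ`: nonnegative and zero iff `δ` vanishes on `T_0`, impossible since `dt δ α = 1`), a contradiction.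
Step: `μ = ∑_{l<s} a (i l)`, `z = single μ 1`; `fstep` with `H' = H (s-1)`, `H = H s`: `NotIn a c (H s) (gs a (cF a c (H s)) (H (s-1)) * single μ 1)`.  The element is `∑_{i' : dt (H s) (a i') = 0} c_{i'} dt (H (s-1)) (a i') single (a i' + μ) 1`, so one `i'` with
`dt (H s) (a i') = 0`, `dt (H (s-1)) (a i') ≠ 0` has `NotIn a c (H s) (single (a i' + μ) 1)` (otherwise, by linearity, the sum would be a combination).  `Om a (H s) (μ + a i')`: for `h''` nonnegative: `dt h'' ≥ 0`; if it is `0` then `dt h'' μ = 0`, so `h''` vanishes on `T_{s-1}`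
and by the rank condition `N h'' = n H (s-1)` on `T_s`; at `i'`: `n = 0`, so `h''` vanishes on `T_s`; conversely clear.
Independence: `a (i l) ∈ T_l`, `dt (H (l-1)) (a (i l)) ≠ 0`: in a relation look at the largest index with nonzero coefficient and apply `H (l-1)` (for `l = 0` `δ`).  Spanning: if `g` vanishes on the `a (i l)`, then on `T_0`, and if it vanishes on `T_j` then `N g = n H_j` on `T_{j+1}`, at `a (i (j+1))`: `n = 0`, so it vanishes on `T_{j+1}`.
-/

set_option autoImplicit false

namespace Pool.Agent.H56.SMC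

open Finset AddMonoidAlgebra

/-- FLAGB -/
theorem flagb {d : ℕ} {ι κ : Type} [Fintype ι] [Fintype κ] (a : ι → Lat d) (c : ι → ℂ)
    (h : κ → Lat d) (δ : Lat d) (hδ : ∀ i, dt δ (a i) = 1) (hh : ∀ v i, 0 ≤ dt (h v) (a i))
    (hfac : ∀ u ∈ Sset h, ∃ N : ℕ, 0 < N ∧ ∃ n : ι → ℕ, N • u = ∑ i, n i • a i)
    (hnd : TorusND a c) (s : ℕ) (H : ℕ → Lat d) (hH : ∀ j, j ≤ s → ∀ i, 0 ≤ dt (H j) (a i))
    (h0 : ∃ i0, dt (H 0) (a i0) = 0 ∧ ∀ i, dt (H 0) (a i) = 0 → a i = a i0)
    (hsub : ∀ j, j < s → ∀ i, dt (H j) (a i) = 0 → dt (H (j + 1)) (a i) = 0)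
    (hstrict : ∀ j, j < s → ∃ i1, dt (H (j + 1)) (a i1) = 0 ∧ dt (H j) (a i1) ≠ 0)
    (hrank : ∀ j, j < s → ∀ g : Lat d, (∀ i, dt (H j) (a i) = 0 → dt g (a i) = 0) →
      ∃ N n : ℤ, N ≠ 0 ∧ ∀ i, dt (H (j + 1)) (a i) = 0 → N * dt g (a i) = n * dt (H j) (a i)) :
    ∃ i : ℕ → ι, (∀ j, j ≤ s → dt (H j) (a (i j)) = 0) ∧
      (∀ j, j < s → dt (H j) (a (i (j + 1))) ≠ 0) ∧
      (∀ j, j ≤ s → Om a (H j) (∑ l ∈ range (j + 1), a (i l))) ∧
      LinearIndependent ℤ (fun l : Fin (s + 1) => a (i l)) ∧
      (∀ g : Lat d, (∀ l, l ≤ s → dt g (a (i l)) = 0) → ∀ i', dt (H s) (a i') = 0 →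
        dt g (a i') = 0) ∧
      NotIn a c (H s) (single (∑ l ∈ range (s + 1), a (i l)) 1) := by
  classical
  obtain ⟨i, hi0, hi1, -, hNot⟩ := flag a c h δ hδ hh hfac hnd s H hH h0 hsub hstrict hrank
  have hi : ∀ j, j ≤ s → dt (H j) (a (i j)) = 0 := by
    intro j hj
    cases j with
    | zero => exact hi0
    | succ j => exact (hi1 j (by omega)).1
  have hi' : ∀ j, j < s → dt (H j) (a (i (j + 1))) ≠ 0 := fun j hj => (hi1 j hj).2
  -- the faces are increasing
  have hmono : ∀ k j, j ≤ k → k ≤ s → ∀ i', dt (H j) (a i') = 0 → dt (H k) (a i') = 0 := by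
    intro k
    induction k with
    | zero =>
      intro j hj _ i' h1
      obtain rfl : j = 0 := by omega
      exact h1
    | succ k ih =>
      intro j hj hk i' h1
      rcases Nat.lt_or_ge k j with hlt | hge
      · obtain rfl : j = k + 1 := by omega
        exact h1
      · exact hsub k (by omega) i' (ih j hge (by omega) i' h1)
  refine ⟨i, hi, hi', ?_, ?_, ?_, hNot⟩
  · intro j
    induction j with
    | zero =>
      intro _
      obtain ⟨i0, h1, h2⟩ := h0
      have h3 := (flag_base a c δ hδ (H 0) i0 h1 h2).1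
      simpa [h2 (i 0) hi0] using h3
    | succ j ih =>
      intro hj
      rw [sum_range_succ]
      exact flag_om a (H (j + 1)) (H j) (hsub j (by omega)) (hrank j (by omega)) _
        (ih (by omega)) (i (j + 1)) (hi (j + 1) hj) (hi' j (by omega))
  · have key : ∀ k, k ≤ s → LinearIndependent ℤ (fun l : Fin (k + 1) => a (i l)) := by
      intro k
      induction k with
      | zero =>
        intro _
        rw [Fintype.linearIndependent_iff]
        intro g hg l
        have h1 := congrArg (dt δ) hg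
        rw [Fin.sum_univ_one, dt_zsmul, dt_zero, hδ, mul_one] at h1
        obtain rfl : l = 0 := Fin.ext (by have := l.2; simp at this ⊢)
        exact h1
      | succ k ih =>
        intro hk
        have ih' := ih (by omega)
        rw [Fintype.linearIndependent_iff] at ih' ⊢
        intro g hg
        rw [Fin.sum_univ_castSucc] at hg
        have h1 := congrArg (dt (H k)) hg
        rw [dt_add, dt_sum, dt_zero, dt_zsmul] at h1
        have h2 : ∑ l : Fin (k + 1), dt (H k) (g l.castSucc • a (i ((l.castSucc : Fin (k + 2)) : ℕ))) = 0 := by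
          refine sum_eq_zero fun l _ => ?_
          rw [dt_zsmul]
          have h3 : dt (H k) (a (i (l : ℕ))) = 0 :=
            hmono k l (by omega) (by omega) _ (hi l (by omega))
          rw [Fin.val_castSucc, h3, mul_zero]
        rw [h2, zero_add, Fin.val_last] at h1
        have h4 : g (Fin.last (k + 1)) = 0 := (mul_eq_zero.1 h1).resolve_right (hi' k (by omega))
        rw [h4, zero_smul, add_zero] at hg
        have h5 := ih' (fun l => g l.castSucc) (by simpa using hg)
        intro l
        refine Fin.lastCases h4 (fun l => h5 l) l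
    exact key s le_rfl
  · intro g hg
    have key : ∀ j, j ≤ s → ∀ i', dt (H j) (a i') = 0 → dt g (a i') = 0 := by
      intro j
      induction j with
      | zero =>
        intro _ i' h1
        obtain ⟨i0, h2, h3⟩ := h0
        rw [h3 i' h1, ← h3 (i 0) hi0]
        exact hg 0 (by omega)
      | succ j ih =>
        intro hj i' h1
        obtain ⟨N, n, hN, hNn⟩ := hrank j (by omega) g (ih (by omega))
        have h2 := hNn (i (j + 1)) (hi (j + 1) hj)
        rw [hg (j + 1) hj, mul_zero] at h2
        have h3 : n = 0 := (mul_eq_zero.1 h2.symm).resolve_right (hi' j (by omega))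
        have h4 := hNn i' h1
        rw [h3, zero_mul] at h4
        exact (mul_eq_zero.1 h4).resolve_left hN
    exact key s le_rfl

end Pool.Agent.H56.SMC
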