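import Pool.Agent.H56.SMC.Basic

/-!
# FLEX: complete chains of faces

A face is the set `T = {i : dt H (a i) = 0}` of a functional `H` which is nonnegative on all `a i`; the functional `δ` gives the empty face.
Proof.  (1) Let `T' ⊊ T` be faces (`T'` may be empty, `H' = δ`).  Among all functionals `H''`, nonnegative on all `a i`, whose face `T''` satisfies `T' ⊊ T'' ⊆ T` choose one with `T''` of minimal cardinality (`H` itself is a candidate).  Then `hrank` holds for `(H', H'')`: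
let `g` vanish on `T'`; choose `i1 ∈ T''` outside `T'` with maximal quotient `g(a i1) / H'(a i1)`, `p = dt g (a i1)`, `q = dt H' (a i1) > 0`; `h = p H' - q g` is nonnegative on `T''`, zero on `T'` and at `i1`.  If `h` is not zero on all of `T''` then `h + L H''`, `L` large, is nonnegative on all
`a i` with face `{i ∈ T'' : h(a i) = 0}`, strictly between `T'` and `T''`: contradiction.  So `q g = p H'` on `T''`.
(2) Iterate from the empty face inside `T'` until `T'` is reached (the cardinality grows), then from `T'` inside `T` until `T` is reached.  The first nonempty face `T_0`: `hrank` with `H' = δ` says `N dt g (a i) = n` for `i ∈ T_0`, so `dt g` is constant on `T_0` for every `g`: all `a i`, `i ∈ T_0`, are equal.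
(Build the chain by strong induction on the number of elements; replace the last functional by `H`: only its zero set matters, and `hrank`, `hstrict` for `j < s` involve `H j` and the zero set of `H (j+1)`.)
-/

set_option autoImplicit false

namespace Pool.Agent.H56.SMC

open Finset AddMonoidAlgebra

/-- linearity in the functional -/
theorem flex_dt_sub {d : ℕ} (p q : ℤ) (K g u : Lat d) :
    dt (p • K - q • g) u = p * dt K u - q * dt g u := by
  rw [dt_comm, dt_sub, dt_zsmul, dt_zsmul, dt_comm u K, dt_comm u g]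

theorem flex_dt_add {d : ℕ} (L : ℤ) (K H u : Lat d) :
    dt (K + L • H) u = dt K u + L * dt H u := by
  rw [dt_comm, dt_add, dt_zsmul, dt_comm u K, dt_comm u H]

/-- the rank condition for a maximal face in a face -/
theorem flex_rank {d : ℕ} {ι : Type} [Fintype ι] (a : ι → Lat d) (K H : Lat d)
    (hK : ∀ i, 0 ≤ dt K (a i)) (hH : ∀ i, 0 ≤ dt H (a i))
    (hsub : ∀ i, dt K (a i) = 0 → dt H (a i) = 0)
    (hst : ∃ i, dt H (a i) = 0 ∧ dt K (a i) ≠ 0)
    (hmax : ∀ G : Lat d, (∀ i, 0 ≤ dt G (a i)) → (∀ i, dt K (a i) = 0 → dt G (a i) = 0) →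
      (∀ i, dt G (a i) = 0 → dt H (a i) = 0) → (∃ i, dt G (a i) = 0 ∧ dt K (a i) ≠ 0) →
      ∀ i, dt H (a i) = 0 → dt G (a i) = 0)
    (g : Lat d) (hg : ∀ i, dt K (a i) = 0 → dt g (a i) = 0) :
    ∃ N n : ℤ, N ≠ 0 ∧ ∀ i, dt H (a i) = 0 → N * dt g (a i) = n * dt K (a i) := by
  classical
  set S : Finset ι := univ.filter (fun i => dt H (a i) = 0 ∧ dt K (a i) ≠ 0) with hS
  obtain ⟨i0, hi0, hi0'⟩ := hst
  obtain ⟨i1, hi1, hi1max⟩ := S.exists_max_image
    (fun i => (dt g (a i) : ℚ) / (dt K (a i) : ℚ)) ⟨i0, by simp [hS, hi0, hi0']⟩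
  have hi1' : dt H (a i1) = 0 ∧ dt K (a i1) ≠ 0 := by simpa [hS] using hi1
  set p := dt g (a i1) with hp
  set q := dt K (a i1) with hq
  have hq0 : 0 < q := lt_of_le_of_ne (hK i1) (Ne.symm hi1'.2)
  have hqS : ∀ i ∈ S, q * dt g (a i) ≤ p * dt K (a i) := by
    intro i hi
    have h1 := hi1max i hi
    have hi' : dt H (a i) = 0 ∧ dt K (a i) ≠ 0 := by simpa [hS] using hi
    have h2 : 0 < dt K (a i) := lt_of_le_of_ne (hK i) (Ne.symm hi'.2)
    have h2' : (0 : ℚ) < (dt K (a i) : ℚ) := by exact_mod_cast h2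
    have h3' : (0 : ℚ) < (q : ℚ) := by exact_mod_cast hq0
    rw [div_le_div_iff₀ h2' h3'] at h1
    have h4 : dt g (a i) * q ≤ p * dt K (a i) := by exact_mod_cast h1
    linarith
  set h : Lat d := p • K - q • g with hh
  have hhe : ∀ i, dt h (a i) = p * dt K (a i) - q * dt g (a i) := fun i => flex_dt_sub _ _ _ _ _
  have hh0 : ∀ i, dt H (a i) = 0 → 0 ≤ dt h (a i) := by
    intro i hi
    by_cases hKi : dt K (a i) = 0
    · rw [hhe, hKi, hg i hKi]; simp
    · have := hqS i (by simp [hS, hi, hKi])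
      rw [hhe]; linarith
  set L : ℤ := 1 + ∑ i, |dt h (a i)| with hL
  have hLi : ∀ i, -dt h (a i) < L := by
    intro i
    have h1 : |dt h (a i)| ≤ ∑ i, |dt h (a i)| :=
      single_le_sum (f := fun i => |dt h (a i)|) (fun i _ => abs_nonneg _) (mem_univ i)
    have h2 := neg_abs_le (dt h (a i))
    linarith
  have hL0 : 0 < L := by
    have : 0 ≤ ∑ i, |dt h (a i)| := sum_nonneg fun i _ => abs_nonneg _
    linarith
  have hGe : ∀ i, dt (h + L • H) (a i) = dt h (a i) + L * dt H (a i) :=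
    fun i => flex_dt_add _ _ _ _
  have hGpos : ∀ i, dt H (a i) ≠ 0 → 0 < dt (h + L • H) (a i) := by
    intro i hi
    have h1 : 1 ≤ dt H (a i) := by
      have := hH i
      omega
    rw [hGe]
    have h2 := hLi i
    nlinarith
  have hGz : ∀ i, dt H (a i) = 0 → dt (h + L • H) (a i) = dt h (a i) := by
    intro i hi
    rw [hGe, hi]; ring
  have hfin := hmax (h + L • H) (fun i => by
      by_cases hi : dt H (a i) = 0
      · rw [hGz i hi]; exact hh0 i hi
      · exact (hGpos i hi).le)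
    (fun i hi => by rw [hGz i (hsub i hi), hhe, hi, hg i hi]; ring)
    (fun i hi => by
      by_contra hne
      exact (hGpos i hne).ne' hi)
    ⟨i1, by rw [hGz i1 hi1'.1, hhe]; ring, hi1'.2⟩
  refine ⟨q, p, hq0.ne', fun i hi => ?_⟩
  have h1 := hfin i hi
  rw [hGz i hi, hhe] at h1
  linarith

/-- descending in the lattice of faces -/
theorem flex_desc {d : ℕ} {ι : Type} [Fintype ι] (a : ι → Lat d) (K H : Lat d)
    (hK : ∀ i, 0 ≤ dt K (a i)) (hH : ∀ i, 0 ≤ dt H (a i))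
    (hsub : ∀ i, dt K (a i) = 0 → dt H (a i) = 0)
    (hst : ∃ i, dt H (a i) = 0 ∧ dt K (a i) ≠ 0) :
    ∃ G : Lat d, (∀ i, 0 ≤ dt G (a i)) ∧ (∀ i, dt K (a i) = 0 → dt G (a i) = 0) ∧
      (∀ i, dt G (a i) = 0 → dt H (a i) = 0) ∧ (∃ i, dt H (a i) = 0 ∧ dt G (a i) ≠ 0) ∧
      (∀ g : Lat d, (∀ i, dt G (a i) = 0 → dt g (a i) = 0) →
        ∃ N n : ℤ, N ≠ 0 ∧ ∀ i, dt H (a i) = 0 → N * dt g (a i) = n * dt G (a i)) := by
  classical
  set P : ℕ → Prop := fun n => ∃ G : Lat d, (∀ i, 0 ≤ dt G (a i)) ∧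
    (∀ i, dt K (a i) = 0 → dt G (a i) = 0) ∧
    (∀ i, dt G (a i) = 0 → dt H (a i) = 0) ∧ (∃ i, dt H (a i) = 0 ∧ dt G (a i) ≠ 0) ∧
    (univ.filter (fun i => dt G (a i) = 0)).card = n with hP
  have hP0 : P (univ.filter (fun i => dt K (a i) = 0)).card :=
    ⟨K, hK, fun _ h => h, hsub, hst, rfl⟩
  have hbd : ∀ n, P n → n ≤ Fintype.card ι := by
    rintro n ⟨G, -, -, -, -, rfl⟩
    exact card_le_univ _
  have hPm := Nat.findGreatest_spec (P := P) (hbd _ hP0) hP0
  set m := Nat.findGreatest P (Fintype.card ι) with hm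
  obtain ⟨G, hG, hKG, hGH, hst', hcard⟩ := hPm
  refine ⟨G, hG, hKG, hGH, hst', ?_⟩
  refine flex_rank a G H hG hH hGH hst' ?_
  intro G' hG' hGG' hG'H hex
  by_contra hcon
  push Not at hcon
  obtain ⟨i, hi, hi'⟩ := hcon
  have hP' : P (univ.filter (fun i => dt G' (a i) = 0)).card :=
    ⟨G', hG', fun i h => hGG' i (hKG i h), hG'H, ⟨i, hi, hi'⟩, rfl⟩
  have h1 := Nat.le_findGreatest (hbd _ hP') hP'
  have h2 : (univ.filter (fun i => dt G (a i) = 0)).card <
      (univ.filter (fun i => dt G' (a i) = 0)).card := by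
    apply card_lt_card
    rw [ssubset_iff_of_subset]
    · obtain ⟨i2, h3, h4⟩ := hex
      exact ⟨i2, by simp [h3], by simp [h4]⟩
    · intro i3 h5
      simp only [mem_filter, mem_univ, true_and] at h5 ⊢
      exact hGG' i3 h5
  omega

/-- the chain condition -/
def FlexChain {d : ℕ} {ι : Type} [Fintype ι] (a : ι → Lat d) (s : ℕ) (Hs : ℕ → Lat d) : Prop :=
  (∀ j, j ≤ s → ∀ i, 0 ≤ dt (Hs j) (a i)) ∧
      (∃ i0, dt (Hs 0) (a i0) = 0 ∧ ∀ i, dt (Hs 0) (a i) = 0 → a i = a i0) ∧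
      (∀ j, j < s → ∀ i, dt (Hs j) (a i) = 0 → dt (Hs (j + 1)) (a i) = 0) ∧
      (∀ j, j < s → ∃ i1, dt (Hs (j + 1)) (a i1) = 0 ∧ dt (Hs j) (a i1) ≠ 0) ∧
      (∀ j, j < s → ∀ g : Lat d, (∀ i, dt (Hs j) (a i) = 0 → dt g (a i) = 0) →
        ∃ N n : ℤ, N ≠ 0 ∧ ∀ i, dt (Hs (j + 1)) (a i) = 0 →
          N * dt g (a i) = n * dt (Hs j) (a i))

theorem flex_extend {d : ℕ} {ι : Type} [Fintype ι] (a : ι → Lat d) (s : ℕ) (Hs : ℕ → Lat d)
    (hc : FlexChain a s Hs) (H : Lat d) (hH : ∀ i, 0 ≤ dt H (a i))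
    (hGH : ∀ i, dt (Hs s) (a i) = 0 → dt H (a i) = 0)
    (hst : ∃ i, dt H (a i) = 0 ∧ dt (Hs s) (a i) ≠ 0)
    (hr : ∀ g : Lat d, (∀ i, dt (Hs s) (a i) = 0 → dt g (a i) = 0) →
        ∃ N n : ℤ, N ≠ 0 ∧ ∀ i, dt H (a i) = 0 → N * dt g (a i) = n * dt (Hs s) (a i)) :
    FlexChain a (s + 1) (fun j => if j ≤ s then Hs j else H) := by
  obtain ⟨h1, h2, h3, h4, h5⟩ := hc
  refine ⟨?_, ?_, ?_, ?_, ?_⟩
  · intro j hj
    by_cases hjs : j ≤ s
    · simpa [hjs] using h1 j hjs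
    · simpa [hjs] using hH
  · simpa using h2
  · intro j hj
    rcases Nat.lt_succ_iff_lt_or_eq.1 hj with hj' | rfl
    · simpa [hj'.le, Nat.succ_le_of_lt hj'] using h3 j hj'
    · simpa using hGH
  · intro j hj
    rcases Nat.lt_succ_iff_lt_or_eq.1 hj with hj' | rfl
    · simpa [hj'.le, Nat.succ_le_of_lt hj'] using h4 j hj'
    · simpa using hst
  · intro j hj
    rcases Nat.lt_succ_iff_lt_or_eq.1 hj with hj' | rfl
    · simpa [hj'.le, Nat.succ_le_of_lt hj'] using h5 j hj'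
    · simpa using hr

/-- complete chains up to a nonempty face -/
theorem flex_chain {d : ℕ} {ι : Type} [Fintype ι] (a : ι → Lat d) (δ : Lat d)
    (hδ : ∀ i, dt δ (a i) = 1) (m : ℕ) : ∀ H : Lat d, (∀ i, 0 ≤ dt H (a i)) →
      (univ.filter (fun i => dt H (a i) = 0)).card ≤ m → (∃ i, dt H (a i) = 0) →
      ∃ (s : ℕ) (Hs : ℕ → Lat d), Hs s = H ∧ FlexChain a s Hs := by
  classical
  induction m with
  | zero =>
    intro H _ hc ⟨i, hi⟩
    have := card_eq_zero.1 (Nat.le_zero.1 hc)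
    have h2 : i ∈ univ.filter (fun i => dt H (a i) = 0) := by simp [hi]
    rw [this] at h2
    simp at h2
  | succ m ih =>
    intro H hH hc ⟨i0, hi0⟩
    obtain ⟨G, hG, -, hGH, hst, hr⟩ := flex_desc a δ H (fun i => by rw [hδ i]; norm_num) hH
      (fun i hi => by rw [hδ i] at hi; exact absurd hi one_ne_zero)
      ⟨i0, hi0, by rw [hδ i0]; norm_num⟩
    by_cases hne : ∃ i, dt G (a i) = 0
    · have hcard : (univ.filter (fun i => dt G (a i) = 0)).card <
          (univ.filter (fun i => dt H (a i) = 0)).card := by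
        apply card_lt_card
        rw [ssubset_iff_of_subset]
        · obtain ⟨i2, h3, h4⟩ := hst
          exact ⟨i2, by simp [h3], by simp [h4]⟩
        · intro i3 h5
          simp only [mem_filter, mem_univ, true_and] at h5 ⊢
          exact hGH i3 h5
      obtain ⟨s, Hs, hs, hch⟩ := ih G hG (by omega) hne
      subst hs
      exact ⟨s + 1, fun j => if j ≤ s then Hs j else H, by simp,
        flex_extend a s Hs hch H hH hGH hst hr⟩
    · refine ⟨0, fun _ => H, rfl, fun _ _ => hH, ⟨i0, hi0, ?_⟩, fun j hj => by omega,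
        fun j hj => by omega, fun j hj => by omega⟩
      have hG0 : ∀ g : Lat d, ∃ N n : ℤ, N ≠ 0 ∧
          ∀ i, dt H (a i) = 0 → N * dt g (a i) = n * dt G (a i) :=
        fun g => hr g (fun i hi => absurd ⟨i, hi⟩ hne)
      obtain ⟨N, n, hN, hNn⟩ := hG0 δ
      have hGc : ∀ i, dt H (a i) = 0 → dt G (a i) = dt G (a i0) := by
        intro i hi
        have h1 := hNn i hi
        have h2 := hNn i0 hi0
        rw [hδ] at h1 h2
        have hn : n ≠ 0 := by
          rintro rfl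
          apply hN; linarith
        exact mul_left_cancel₀ hn (by rw [← h1, ← h2])
      intro i hi
      funext j
      obtain ⟨N', n', hN', hNn'⟩ := hG0 (ev j)
      have h1 := hNn' i hi
      have h2 := hNn' i0 hi0
      rw [dt_ev] at h1 h2
      exact mul_left_cancel₀ hN' (by rw [h1, h2, hGc i hi])

/-- complete chains through a face -/
theorem flex_through {d : ℕ} {ι : Type} [Fintype ι] (a : ι → Lat d) (δ : Lat d)
    (hδ : ∀ i, dt δ (a i) = 1) (H' : Lat d) (hH' : ∀ i, 0 ≤ dt H' (a i))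
    (hne : ∃ i, dt H' (a i) = 0) (m : ℕ) : ∀ H : Lat d, (∀ i, 0 ≤ dt H (a i)) →
      (∀ i, dt H' (a i) = 0 → dt H (a i) = 0) →
      (univ.filter (fun i => dt H (a i) = 0)).card ≤ m →
      ∃ (s j0 : ℕ) (Hs : ℕ → Lat d), j0 ≤ s ∧ Hs s = H ∧
      (∀ i, dt (Hs j0) (a i) = 0 ↔ dt H' (a i) = 0) ∧ FlexChain a s Hs := by
  classical
  induction m with
  | zero =>
    intro H _ hs hc
    obtain ⟨i, hi⟩ := hne
    have := card_eq_zero.1 (Nat.le_zero.1 hc)
    have h2 : i ∈ univ.filter (fun i => dt H (a i) = 0) := by simp [hs i hi]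
    rw [this] at h2
    simp at h2
  | succ m ih =>
    intro H hH hs hc
    by_cases heq : ∀ i, dt H (a i) = 0 → dt H' (a i) = 0
    · obtain ⟨i, hi⟩ := hne
      obtain ⟨s, Hs, h1, h2⟩ := flex_chain a δ hδ _ H hH le_rfl ⟨i, hs i hi⟩
      refine ⟨s, s, Hs, le_rfl, h1, ?_, h2⟩
      intro i
      rw [h1]
      exact ⟨heq i, hs i⟩
    · push Not at heq
      obtain ⟨G, hG, hKG, hGH, hst, hr⟩ := flex_desc a H' H hH' hH hs heq
      have hcard : (univ.filter (fun i => dt G (a i) = 0)).card <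
          (univ.filter (fun i => dt H (a i) = 0)).card := by
        apply card_lt_card
        rw [ssubset_iff_of_subset]
        · obtain ⟨i2, h3, h4⟩ := hst
          exact ⟨i2, by simp [h3], by simp [h4]⟩
        · intro i3 h5
          simp only [mem_filter, mem_univ, true_and] at h5 ⊢
          exact hGH i3 h5
      obtain ⟨s, j0, Hs, hj0, hs', hz, hch⟩ := ih G hG hKG (by omega)
      subst hs'
      refine ⟨s + 1, j0, fun j => if j ≤ s then Hs j else H, by omega, by simp, ?_,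
        flex_extend a s Hs hch H hH hGH hst hr⟩
      intro i
      simpa [hj0] using hz i

/-- FLEX -/
theorem flex {d : ℕ} {ι : Type} [Fintype ι] (a : ι → Lat d) (δ : Lat d)
    (hδ : ∀ i, dt δ (a i) = 1) (H H' : Lat d) (hH : ∀ i, 0 ≤ dt H (a i))
    (hH' : ∀ i, 0 ≤ dt H' (a i)) (hsub : ∀ i, dt H' (a i) = 0 → dt H (a i) = 0)
    (hne : ∃ i, dt H' (a i) = 0) :
    ∃ (s j0 : ℕ) (Hs : ℕ → Lat d), j0 ≤ s ∧ Hs s = H ∧
      (∀ i, dt (Hs j0) (a i) = 0 ↔ dt H' (a i) = 0) ∧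
      (∀ j, j ≤ s → ∀ i, 0 ≤ dt (Hs j) (a i)) ∧
      (∃ i0, dt (Hs 0) (a i0) = 0 ∧ ∀ i, dt (Hs 0) (a i) = 0 → a i = a i0) ∧
      (∀ j, j < s → ∀ i, dt (Hs j) (a i) = 0 → dt (Hs (j + 1)) (a i) = 0) ∧
      (∀ j, j < s → ∃ i1, dt (Hs (j + 1)) (a i1) = 0 ∧ dt (Hs j) (a i1) ≠ 0) ∧
      (∀ j, j < s → ∀ g : Lat d, (∀ i, dt (Hs j) (a i) = 0 → dt g (a i) = 0) →
        ∃ N n : ℤ, N ≠ 0 ∧ ∀ i, dt (Hs (j + 1)) (a i) = 0 →
          N * dt g (a i) = n * dt (Hs j) (a i)) := by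
  exact flex_through a δ hδ H' hH' hne _ H hH hsub le_rfl

end Pool.Agent.H56.SMC
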