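import Pool.Agent.H56.SMC.SFG

/-!
# FLNULL: Nullstellensatz for `ℂ[S]`

Proof.  Let `R` be the subalgebra of `LP ℂ d` of all `z` supported in `Sset h`; it is a finitely generated `ℂ`-algebra (`sfg`: generated by the `x^s`, `s ∈ G`).  Let `I` be the ideal of `R` generated by the
`g_i`.  `x^{u0}` is not in the radical of `I` (`hno`).  So there is a maximal ideal `m ⊇ I` with `x^{u0} ∉ m` (`R` is a Jacobson ring, `Ideal.radical_eq_jacobson`), `R/m` is a field finite over `ℂ`
(`finite_of_finite_type_of_isJacobsonRing`), so `R/m = ℂ` (`IsAlgClosed.algebraMap_bijective_of_isIntegral`): an algebra homomorphism `ψ : R → ℂ` with `ψ(g_i) = 0`, `ψ(x^{u0}) ≠ 0`.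
`φ u = ψ(x^u)` for `u ∈ Sset h`, `0` otherwise.
-/

set_option autoImplicit false

namespace Pool.Agent.H56.SMC

open Finset AddMonoidAlgebra

theorem flnull_zero_mem {d : ℕ} {κ : Type} (h : κ → Lat d) : (0 : Lat d) ∈ Sset h := fun v => by
  rw [dt_zero]

theorem flnull_add_mem {d : ℕ} {κ : Type} (h : κ → Lat d) {u v : Lat d} (hu : u ∈ Sset h)
    (hv : v ∈ Sset h) : u + v ∈ Sset h := fun w => by
  rw [dt_add]; exact add_nonneg (hu w) (hv w)

theorem flnull_supp_mul {R : Type} [CommRing R] {d : ℕ} {κ : Type} (h : κ → Lat d) {x y : LP R d}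
    (hx : Supp (Sset h) x) (hy : Supp (Sset h) y) : Supp (Sset h) (x * y) := by
  intro w hw
  rw [AddMonoidAlgebra.coeff_mul_apply_left, Finsupp.sum] at hw
  obtain ⟨u, -, hu⟩ := exists_ne_zero_of_sum_ne_zero hw
  have h1 := hx u (left_ne_zero_of_mul hu)
  have h2 := hy _ (right_ne_zero_of_mul hu)
  have := flnull_add_mem h h1 h2
  rwa [add_neg_cancel_left] at this

/-- The algebra of all Laurent polynomials supported in `Sset h`. -/
noncomputable def flnullAlg {d : ℕ} {κ : Type} (h : κ → Lat d) : Subalgebra ℂ (LP ℂ d) where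
  carrier := {z | Supp (Sset h) z}
  mul_mem' := fun hx hy => flnull_supp_mul h hx hy
  add_mem' := fun hx hy => Supp.add hx hy
  algebraMap_mem' := fun r => by
    have h1 : algebraMap ℂ (LP ℂ d) r = single 0 r := rfl
    show Supp (Sset h) (algebraMap ℂ (LP ℂ d) r)
    rw [h1]
    exact Supp.single (flnull_zero_mem h) r

theorem mem_flnullAlg {d : ℕ} {κ : Type} (h : κ → Lat d) (z : LP ℂ d) :
    z ∈ flnullAlg h ↔ Supp (Sset h) z := Iff.rfl

theorem flnull_sum_single {R : Type} [CommRing R] {d : ℕ} (z : LP R d) :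
    z = ∑ u ∈ z.coeff.support, single u (z.coeff u) := by
  have := AddMonoidAlgebra.sum_coeff_single z
  rw [Finsupp.sum] at this
  exact this.symm

theorem flnull_ft {d : ℕ} {κ : Type} [Fintype κ] (h : κ → Lat d) (δ : Lat d)
    (hpos : ∀ u ∈ Sset h, u ≠ 0 → 0 < dt δ u) : Algebra.FiniteType ℂ (flnullAlg h) := by
  classical
  obtain ⟨G, hG, hgen⟩ := sfg h δ hpos
  have hmem : ∀ s : G, single s.1 (1 : ℂ) ∈ flnullAlg h := fun s =>
    Supp.single (hG s.1 s.2).1 1
  let π : MvPolynomial G ℂ →ₐ[ℂ] flnullAlg h :=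
    MvPolynomial.aeval fun s : G => (⟨single s.1 1, hmem s⟩ : flnullAlg h)
  refine Algebra.FiniteType.of_surjective π ?_
  intro ⟨z, hz⟩
  have key : ∀ u ∈ Sset h, ∀ r : ℂ, ∃ p, ((π p : flnullAlg h) : LP ℂ d) = single u r := by
    intro u hu r
    obtain ⟨n, hn⟩ := hgen u hu
    refine ⟨MvPolynomial.C r * ∏ s : G, MvPolynomial.X s ^ n s.1, ?_⟩
    rw [map_mul, map_prod]
    simp only [map_pow]
    have e1 : ∀ s : G, π (MvPolynomial.X s) = ⟨single s.1 1, hmem s⟩ := fun s =>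
      MvPolynomial.aeval_X _ s
    have e2 : π (MvPolynomial.C r) = algebraMap ℂ _ r := MvPolynomial.aeval_C _ r
    simp only [e1, e2]
    rw [Subalgebra.coe_mul, Subalgebra.coe_algebraMap]
    have e3 : ((∏ s : G, (⟨single s.1 1, hmem s⟩ : flnullAlg h) ^ n s.1 : flnullAlg h) : LP ℂ d) =
        single u 1 := by
      rw [← Subalgebra.coe_val, map_prod]
      simp only [map_pow, Subalgebra.coe_val]
      have e4 : ∀ s : G, (single s.1 (1 : ℂ) : LP ℂ d) ^ n s.1 = single (n s.1 • s.1) 1 := by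
        intro s; rw [AddMonoidAlgebra.single_pow, one_pow]
      simp only [e4]
      rw [AddMonoidAlgebra.prod_single]
      rw [prod_const_one]
      congr 1
      rw [hn]
      exact Finset.sum_coe_sort G (fun s => n s • s)
    rw [e3]
    have e5 : algebraMap ℂ (LP ℂ d) r = single 0 r := rfl
    rw [e5, AddMonoidAlgebra.single_mul_single, zero_add, mul_one]
  have hz' : Supp (Sset h) z := hz
  choose! p hp using fun u (hu : u ∈ Sset h) => key u hu (z.coeff u)
  refine ⟨∑ u ∈ z.coeff.support, p u, ?_⟩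
  apply Subtype.ext
  rw [map_sum, ← Subalgebra.coe_val, map_sum]
  simp only [Subalgebra.coe_val]
  conv_rhs => rw [flnull_sum_single z]
  refine sum_congr rfl fun u hu => hp u (hz' u (Finsupp.mem_support_iff.1 hu))

/-- FLNULL -/
theorem flnull {d : ℕ} {κ : Type} [Fintype κ] (h : κ → Lat d) (δ : Lat d)
    (hpos : ∀ u ∈ Sset h, u ≠ 0 → 0 < dt δ u) {r : ℕ} (g : Fin r → LP ℂ d)
    (hg : ∀ i, Supp (Sset h) (g i)) (u0 : Lat d) (hu0 : u0 ∈ Sset h)
    (hno : ∀ N : ℕ, ¬ ∃ z : Fin r → LP ℂ d, (∀ j, Supp (Sset h) (z j)) ∧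
      (single (N • u0) 1 : LP ℂ d) = ∑ j, g j * z j) :
    ∃ φ : Lat d → ℂ, φ 0 = 1 ∧ (∀ u ∈ Sset h, ∀ u' ∈ Sset h, φ (u + u') = φ u * φ u') ∧
      φ u0 ≠ 0 ∧ ∀ i, ∑ u ∈ (g i).coeff.support, (g i).coeff u * φ u = 0 := by
  classical
  have : Algebra.FiniteType ℂ (flnullAlg h) := flnull_ft h δ hpos
  have : IsJacobsonRing (flnullAlg h) := isJacobsonRing_of_finiteType (A := ℂ)
  let g' : Fin r → flnullAlg h := fun i => ⟨g i, hg i⟩
  let I : Ideal (flnullAlg h) := Ideal.span (Set.range g')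
  let e : Lat d → flnullAlg h := fun u =>
    if hu : u ∈ Sset h then ⟨single u 1, Supp.single hu 1⟩ else 0
  have he : ∀ u ∈ Sset h, ((e u : flnullAlg h) : LP ℂ d) = single u 1 := by
    intro u hu
    simp only [e, dif_pos hu]
  have hrad : e u0 ∉ I.radical := by
    rintro ⟨N, hN⟩
    rw [Ideal.mem_span_range_iff_exists_fun] at hN
    obtain ⟨c, hc⟩ := hN
    refine hno N ⟨fun j => (c j : LP ℂ d), fun j => (c j).2, ?_⟩
    have h1 := congrArg (flnullAlg h).val hc
    rw [map_sum, map_pow] at h1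
    simp only [map_mul, Subalgebra.coe_val] at h1
    rw [he u0 hu0, AddMonoidAlgebra.single_pow, one_pow] at h1
    rw [← h1]
    exact sum_congr rfl fun j _ => mul_comm _ _
  rw [Ideal.radical_eq_jacobson, Ideal.jacobson, Ideal.mem_sInf] at hrad
  push Not at hrad
  obtain ⟨m, ⟨hIm, hmax⟩, hm⟩ := hrad
  have := hmax
  let := Ideal.Quotient.field m
  have : Algebra.FiniteType ℂ (flnullAlg h ⧸ m) :=
    Algebra.FiniteType.of_surjective (Ideal.Quotient.mkₐ ℂ m) (Ideal.Quotient.mkₐ_surjective ℂ m)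
  have : Module.Finite ℂ (flnullAlg h ⧸ m) := finite_of_finite_type_of_isJacobsonRing ℂ _
  have hbij : Function.Bijective (algebraMap ℂ (flnullAlg h ⧸ m)) :=
    IsAlgClosed.algebraMap_bijective_of_isIntegral
  let eq : ℂ ≃ₐ[ℂ] (flnullAlg h ⧸ m) := AlgEquiv.ofBijective (Algebra.ofId ℂ _) hbij
  let ψ : flnullAlg h →ₐ[ℂ] ℂ := (eq.symm : (flnullAlg h ⧸ m) →ₐ[ℂ] ℂ).comp
    (Ideal.Quotient.mkₐ ℂ m)
  have hψ : ∀ x, ψ x = 0 ↔ x ∈ m := by
    intro x
    show eq.symm (Ideal.Quotient.mk m x) = 0 ↔ _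
    rw [map_eq_zero_iff _ eq.symm.injective, Ideal.Quotient.eq_zero_iff_mem]
  refine ⟨fun u => ψ (e u), ?_, ?_, ?_, ?_⟩
  · have : e 0 = 1 := by
      apply Subtype.ext
      rw [he 0 (flnull_zero_mem h)]
      rfl
    simp only [this, map_one]
  · intro u hu u' hu'
    have : e (u + u') = e u * e u' := by
      apply Subtype.ext
      rw [he _ (flnull_add_mem h hu hu'), Subalgebra.coe_mul, he u hu, he u' hu',
        AddMonoidAlgebra.single_mul_single, mul_one]
    simp only [this, map_mul]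
  · rw [Ne, hψ]
    exact hm
  · intro i
    have h1 : g' i = ∑ u ∈ (g i).coeff.support, (g i).coeff u • e u := by
      apply Subtype.ext
      rw [← Subalgebra.coe_val, map_sum]
      simp only [map_smul, Subalgebra.coe_val]
      show g i = _
      conv_lhs => rw [flnull_sum_single (g i)]
      refine sum_congr rfl fun u hu => ?_
      rw [he u (hg i u (Finsupp.mem_support_iff.1 hu)), AddMonoidAlgebra.smul_single, smul_eq_mul,
        mul_one]
    have h2 : ψ (g' i) = 0 := (hψ _).2 (hIm (Ideal.subset_span ⟨i, rfl⟩))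
    rw [h1, map_sum] at h2
    simpa only [map_smul, smul_eq_mul] using h2

end Pool.Agent.H56.SMC
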