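import Pool.Agent.H56.SMC.Basic

/-!
# KD: Koszul exactness of the operators from Koszul exactness of the symbols

Proof.  Induction on `N ≥ C - 1`: the claim for `z` with `dt δ u ≤ N` on the supports (`dt δ u ≥ C` on `S`; every `z` has
finite support; for `N < C` `z = 0`).  Let `t_j` be the part of `z_j` with `dt δ u = N`.  `D_j = dg(..) - g_j`, `dg` preserves the
degree `dt δ`, `g_j` raises it by `1` (`hδ`).  The part of `∑ D_j z_j = 0` of degree `N+1` is `-∑ g_j t_j = 0`.  `hK` gives
`t_j = ∑_k g_k y_jk`; replace `y_jk` by its part of degree `N-1` (still antisymmetric, supported in `S`, same equation).  Then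
`z'_j = z_j + ∑_k D_k y_jk` is supported in `S` in degrees `≤ N-1` and `∑_j D_j z'_j = 0` (`Dop_antisymm`, `lp_eq_neg_self`), so
`z'_j = ∑_k D_k y'_jk` and `z_j = ∑_k D_k (y'_jk - y_jk)`.
-/

set_option autoImplicit false

namespace Pool.Agent.H56.SMC

open Finset AddMonoidAlgebra

/-- KD -/
theorem kd {d : ℕ} {ι : Type} [Fintype ι] (a : ι → Lat d) (c : ι → ℂ) (p : Fin d → ℂ)
    (S : Set (Lat d)) (δ : Lat d) (hδ : ∀ i, dt δ (a i) = 1) (C : ℤ) (hSδ : ∀ u ∈ S, C ≤ dt δ u)
    (hS : ∀ u ∈ S, ∀ i, u + a i ∈ S) (hK : KExact a c S)
    (z : Fin d → LP ℂ d) (hz : ∀ j, Supp S (z j)) (h0 : ∑ j, Dop p a c (ev j) (z j) = 0) :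
    ∃ y : Fin d → Fin d → LP ℂ d, (∀ j k, Supp S (y j k)) ∧ (∀ j k, y j k = -y k j) ∧
      ∀ j, z j = ∑ k, Dop p a c (ev k) (y j k) := by
  classical
  have key : ∀ (n : ℕ) (z : Fin d → LP ℂ d), (∀ j, Supp {u | u ∈ S ∧ dt δ u < C + n} (z j)) →
      ∑ j, Dop p a c (ev j) (z j) = 0 →
      ∃ y : Fin d → Fin d → LP ℂ d, (∀ j k, Supp S (y j k)) ∧ (∀ j k, y j k = -y k j) ∧
        ∀ j, z j = ∑ k, Dop p a c (ev k) (y j k) := by
    intro n
    induction n with
    | zero =>
      intro z hz _
      have hz0 : ∀ j, z j = 0 := by
        intro j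
        apply lp_ext
        intro u
        by_contra hu
        obtain ⟨h1, h2⟩ := hz j u hu
        have := hSδ u h1
        push_cast at h2
        omega
      refine ⟨fun _ _ => 0, fun _ _ => Supp.zero S, fun _ _ => neg_zero.symm, fun j => ?_⟩
      rw [hz0 j]
      simp [Dop_zero]
    | succ n ih =>
      intro z hz h0
      set N : ℤ := C + n with hN
      let t : Fin d → LP ℂ d := fun j => dg (fun u => if dt δ u = N then (1 : ℂ) else 0) (z j)
      have ht : ∀ j u, (t j).coeff u = (if dt δ u = N then (1 : ℂ) else 0) * (z j).coeff u :=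
        fun j u => dg_coeff _ _ _
      have htS : ∀ j, Supp S (t j) := fun j => ((hz j).mono fun u hu => hu.1).dg _
      have htop : ∀ j u, dt δ u = N + 1 → (z j).coeff u = 0 := by
        intro j u hu
        by_contra h1
        have := (hz j u h1).2
        rw [hN] at hu
        push_cast at this
        omega
      have hgt : ∑ j, gs a c (ev j) * t j = 0 := by
        apply lp_ext
        intro u
        rw [coeff_finsum, coeff_zero']
        by_cases hu : dt δ u = N + 1
        · have h1 : (∑ j, Dop p a c (ev j) (z j)).coeff u = 0 := by rw [h0]; rfl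
          rw [coeff_finsum] at h1
          have h2 : ∀ j, (Dop p a c (ev j) (z j)).coeff u = -(gs a c (ev j) * t j).coeff u := by
            intro j
            rw [Dop_coeff, htop j u hu, mul_zero, zero_sub, gs_mul_coeff]
            congr 1
            refine Finset.sum_congr rfl fun i _ => ?_
            have h3 : dt δ (u - a i) = N := by rw [dt_sub, hδ, hu]; ring
            rw [ht, if_pos h3, one_mul]
          simp only [h2, Finset.sum_neg_distrib, neg_eq_zero] at h1
          exact h1
        · refine Finset.sum_eq_zero fun j _ => ?_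
          rw [gs_mul_coeff]
          refine Finset.sum_eq_zero fun i _ => ?_
          have h3 : dt δ (u - a i) ≠ N := by rw [dt_sub, hδ]; omega
          rw [ht, if_neg h3, zero_mul, mul_zero]
      obtain ⟨y0, hy0S, hy0a, hy0⟩ := hK t htS hgt
      let y : Fin d → Fin d → LP ℂ d :=
        fun j k => dg (fun u => if dt δ u = N - 1 then (1 : ℂ) else 0) (y0 j k)
      have hy : ∀ j k u, (y j k).coeff u =
          (if dt δ u = N - 1 then (1 : ℂ) else 0) * (y0 j k).coeff u := fun j k u => dg_coeff _ _ _
      have hyS : ∀ j k, Supp S (y j k) := fun j k => (hy0S j k).dg _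
      have hya : ∀ j k, y j k = -y k j := by
        intro j k
        apply lp_ext
        intro u
        rw [coeff_neg', hy, hy, hy0a j k, coeff_neg', mul_neg]
      have hyt : ∀ j, t j = ∑ k, gs a c (ev k) * y j k := by
        intro j
        apply lp_ext
        intro u
        rw [coeff_finsum]
        by_cases hu : dt δ u = N
        · have h1 : (t j).coeff u = (∑ k, gs a c (ev k) * y0 j k).coeff u := by rw [← hy0 j]
          rw [h1, coeff_finsum]
          refine Finset.sum_congr rfl fun k _ => ?_
          rw [gs_mul_coeff, gs_mul_coeff]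
          refine Finset.sum_congr rfl fun i _ => ?_
          have h3 : dt δ (u - a i) = N - 1 := by rw [dt_sub, hδ, hu]
          rw [hy, if_pos h3, one_mul]
        · rw [ht, if_neg hu, zero_mul]
          symm
          refine Finset.sum_eq_zero fun k _ => ?_
          rw [gs_mul_coeff]
          refine Finset.sum_eq_zero fun i _ => ?_
          have h3 : dt δ (u - a i) ≠ N - 1 := by rw [dt_sub, hδ]; omega
          rw [hy, if_neg h3, zero_mul, mul_zero]
      obtain ⟨y', hy'S, hy'a, hy'⟩ := ih (fun j => z j + ∑ k, Dop p a c (ev k) (y j k)) (by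
        intro j
        have e1 : z j + ∑ k, Dop p a c (ev k) (y j k) = (z j - t j) +
            ∑ k, dg (fun u => pv p (ev k) + (dt (ev k) u : ℂ)) (y j k) := by
          have e2 : ∀ k, Dop p a c (ev k) (y j k) =
              dg (fun u => pv p (ev k) + (dt (ev k) u : ℂ)) (y j k) - gs a c (ev k) * y j k :=
            fun k => rfl
          simp only [e2, Finset.sum_sub_distrib]
          rw [← hyt j]
          abel
        rw [e1]
        refine Supp.add ?_ (Supp.sum _ fun k _ => Supp.dg _ ?_)
        · intro u hu
          rw [coeff_sub', ht] at hu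
          have h1 : (z j).coeff u ≠ 0 := by
            intro h; apply hu; rw [h, mul_zero, sub_zero]
          obtain ⟨h2, h3⟩ := hz j u h1
          refine ⟨h2, ?_⟩
          by_contra h4
          have h5 : dt δ u = N := by
            rw [hN] at h4 ⊢
            push_cast at h3
            omega
          apply hu
          rw [if_pos h5, one_mul, sub_self]
        · intro u hu
          refine ⟨hyS j k u hu, ?_⟩
          rw [hy] at hu
          have h1 : dt δ u = N - 1 := by
            by_contra h
            apply hu
            rw [if_neg h, zero_mul]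
          omega) (by
        simp only [Dop_add, Finset.sum_add_distrib]
        rw [h0, zero_add]
        exact Dop_antisymm p a c lp_eq_neg_self y hya)
      refine ⟨fun j k => y' j k - y j k, fun j k => (hy'S j k).sub (hyS j k), fun j k => ?_,
        fun j => ?_⟩
      · change y' j k - y j k = -(y' k j - y k j)
        rw [hy'a j k, hya j k]
        abel
      · simp only [Dop_sub, Finset.sum_sub_distrib]
        rw [← hy' j]
        abel
  refine key (∑ j, ∑ u ∈ (z j).coeff.support, (dt δ u - C + 1).toNat) z (fun j u hu => ?_) h0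
  refine ⟨hz j u hu, ?_⟩
  have h1 : (dt δ u - C + 1).toNat ≤
      ∑ j, ∑ u ∈ (z j).coeff.support, (dt δ u - C + 1).toNat := by
    refine le_trans ?_ (Finset.single_le_sum (f := fun j => ∑ u ∈ (z j).coeff.support,
      (dt δ u - C + 1).toNat) (fun _ _ => Nat.zero_le _) (Finset.mem_univ j))
    exact Finset.single_le_sum (f := fun u => (dt δ u - C + 1).toNat)
      (fun _ _ => Nat.zero_le _) (Finsupp.mem_support_iff.2 hu)
  omega

end Pool.Agent.H56.SMC
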