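import Pool.Agent.H56.SMC.APPT
import Pool.Agent.H56.SMC.APPF
import Pool.Agent.H56.SMC.BIGX
import Pool.Agent.H56.SMC.SIMX
import Pool.Agent.H56.SMC.ZTC
import Pool.Agent.H56.SMC.BM1

/-!
# MAIN: assembly
-/

set_option autoImplicit false

namespace Pool.Agent.H56.SMC

open Finset AddMonoidAlgebra

/-- The main theorem. -/
theorem main {n r : ℕ} (a : Fin r → (Fin n →₀ ℕ)) (ha : Function.Injective a)
    (hne : ∃ i, a i ≠ 0) (κ : Fin r → ℂ) (hκ : ∀ i, κ i ≠ 0) (hnd : Nondeg a κ)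
    (b : Polynomial ℂ) (P : H22.WeylS n) (hfe : H22.FunctionalEquation (fpoly a κ) b P) :
    (∀ w, FacetNormal a w → 0 < H22.wmin a w → Fine a w →
      b.IsRoot (-(H22.wsum w : ℂ) / (H22.wmin a w : ℂ))) ∧
    (∀ (𝒟 : ∀ τ, H22.FaceCones a τ) (𝒯 : ∀ τ, H22.FaceTriang a τ) (s0 : ℂ),
      (H22.topZetaG a 𝒟 𝒯).denom.IsRoot s0 →
      (∀ w, FacetNormal a w → 0 < H22.wmin a w →
        s0 = -(H22.wsum w : ℂ) / (H22.wmin a w : ℂ) → s0 ≠ -1 → Fine a w) → b.IsRoot s0) := by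
  have h2 : ∀ w, FacetNormal a w → 0 < H22.wmin a w → Fine a w →
      b.IsRoot (-(H22.wsum w : ℂ) / (H22.wmin a w : ℂ)) := by
    rintro w hw hN (hb | hs | ⟨m, β, θ, hc⟩ | ⟨m, β, v, hc⟩)
    · obtain ⟨θ, hθ⟩ := bigx a w hb
      exact appt a κ hnd b P hfe w hw hN _ θ hθ
    · obtain ⟨v, hv⟩ := simx a w hw hN hs
      exact appf a κ hnd b P hfe w hw hN _ v hv
    · exact appt a κ hnd b P hfe w hw hN β θ hc
    · exact appf a κ hnd b P hfe w hw hN β v hc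
  refine ⟨h2, fun 𝒟 𝒯 s0 hs hall => ?_⟩
  by_cases h1 : s0 = -1
  · rw [h1]
    exact bm1 a ha hne κ hκ b P hfe
  · rcases ztc a 𝒟 𝒯 s0 hs with h | ⟨w, hw, hN, hs0⟩
    · exact absurd h h1
    · rw [hs0]
      exact h2 w hw hN (hall w hw hN hs0 h1)

end Pool.Agent.H56.SMC
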