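import Pool.Agent.H56.SMC.FLEX
import Pool.Agent.H56.SMC.FLAGB
import Pool.Agent.H56.SMC.FAC
import Pool.Agent.H56.SMC.NDG
import Pool.Agent.H56.SMC.FNS
import Pool.Agent.H56.SMC.UDefs
import Pool.Agent.H56.SMC.H11Aux

/-!
# MUX: classes with large coordinates in the good directions

Write `A = cA a (bbM β M)` with `m = 0`, `β = Fin.elim0`, `M ≥ 2`, `h0 = vec (-N) 0 w`, `T = {i : dt h0 (A i) = 0}` = `{(1,0;a_i) : i on the face of w}`, `(0,1;0)`, `(0,1;M e_j)` with `w_j = 0`.
Proof.  `0 < r` (`hN`), `fspan`, `fac` (`d + 1 = n + 2`): `h`, `hh`, `hfac`; `ndg`.  `flex` with `H = h0`, `H'`: the chain `Hs`, `s`, `j0`; `flagb`: the family `i_0, …, i_s`, `μ = ∑ A (i l)`.  `Om`, `NotIn`: the conclusion of `flagb`.  The elements `i_0, …, i_{j0}` lie in the face of `H'` (`dt (Hs j) (A (i j)) = 0`, the faces increase).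
(P1) `s = n`: the family is independent and spans the same space as `T`, which has rank `n + 1` (`fns` gives `n+1` independent vectors in `T`; more are impossible because all vectors of `T` are killed by `h0 ≠ 0` in `ℤ^{n+2}`).
(P2) For every `k` the functional `vec 0 0 (e_k)` is nonnegative on `A` and does not vanish on `T`: for `w_k = 0` it has the value `M` at `(0,1;M e_k)`; for `w_k ≠ 0`, if all `a_ik = 0` for `i` on the face, then all vectors of `FacetNormal` would be killed by the two independent functionals `(-N; w)` and `(0; e_k)` of `ℝ^{1+n}`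
(`N > 0`), so the rank would be `≤ n - 1`, a contradiction.  So `dt (vec 0 0 e_k) μ > 0` by `Om`.
(P3) `w_k ≠ 0`, `¬ HasB1 a w k`, `x_k ∤ f`: `μ_k ≥ 2`: otherwise `μ_k = ∑_l A(i l)_k = 1`: exactly one `l0` has `A(i l0)_k = 1`, the others `0`; `i l0 = inl i1`, `i1` on the face, `a_{i1 k} = 1` (`M ≥ 2`).  The other `n` independent vectors lie in `T ∩ {x_k = 0}`; forgetting the second coordinate (kernel spanned by `(0,1;0)`) they span a space of
dimension `≥ n - 1`, contained in the span in `HasB1`, which has dimension `≤ n - 1` (killed by `(-N; w)` and `(0; e_k)`): so `HasB1 a w k`.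
(P4) `w_k = 0` and no exponent on the face has `a_ik = 1`: all `A(i l)_k` are `0` or `≥ 2` and the sum is positive: `μ_k ≥ 2`.
-/

set_option autoImplicit false

namespace Pool.Agent.H56.SMC

open Finset AddMonoidAlgebra

theorem mux_rank_lower {n N : ℕ} (x : Fin N → Lat (n + 2)) (hx : LinearIndependent ℤ x)
    (S : Set (Unit ⊕ Fin n → ℝ))
    (hS : ∀ k, (fun y => ((x k (H11.fgt n y) : ℤ) : ℝ)) ∈ Submodule.span ℝ S) :
    N ≤ Module.finrank ℝ (Submodule.span ℝ S) + 1 := by
  set xr : Fin N → Fin (n + 2) → ℝ := fun k j => ((x k j : ℤ) : ℝ) with hxr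
  have h1 : LinearIndependent ℝ xr := H11.li_cast x hx
  set W := Submodule.span ℝ (Set.range xr) with hW
  have h2 : Module.finrank ℝ W = N := by
    rw [finrank_span_eq_card h1, Fintype.card_fin]
  set Φ : (Fin (n + 2) → ℝ) →ₗ[ℝ] (Unit ⊕ Fin n → ℝ) := LinearMap.funLeft ℝ ℝ (H11.fgt n) with hΦ
  have h3 := LinearMap.finrank_range_add_finrank_ker (Φ.domRestrict W)
  have h4 : LinearMap.range (Φ.domRestrict W) ≤ Submodule.span ℝ S := by
    rintro _ ⟨⟨w, hw⟩, rfl⟩
    have : W ≤ (Submodule.span ℝ S).comap Φ := by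
      rw [hW, Submodule.span_le]
      rintro _ ⟨k, rfl⟩
      exact hS k
    exact this hw
  have h5 : Module.finrank ℝ (LinearMap.ker (Φ.domRestrict W)) ≤ 1 := by
    have hinj : Function.Injective (((LinearMap.proj (R := ℝ) (φ := fun _ : Fin (n + 2) => ℝ)
        (Fin.succ 0)).comp W.subtype).comp (LinearMap.ker (Φ.domRestrict W)).subtype) := by
      refine (injective_iff_map_eq_zero _).2 ?_
      rintro ⟨⟨w, hw⟩, hw'⟩ hw1
      have h6 : ∀ y, w (H11.fgt n y) = 0 := fun y => congrFun hw' y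
      have h7 : w (Fin.succ 0) = 0 := hw1
      have h8 : w = 0 := by
        funext i
        refine Fin.cases ?_ (fun i => Fin.cases ?_ (fun i => ?_) i) i
        · exact h6 (Sum.inl ())
        · exact h7
        · exact h6 (Sum.inr i)
      subst h8
      rfl
    have := LinearMap.finrank_le_finrank_of_injective hinj
    simpa using this
  have h6 := Submodule.finrank_mono h4
  omega

theorem mux_rank_upper {n : ℕ} (S : Set (Unit ⊕ Fin n → ℝ)) (N : ℝ) (hN : N ≠ 0)
    (w : Fin n → ℝ) (k : Fin n)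
    (h1 : ∀ y ∈ S, -N * y (Sum.inl ()) + ∑ j, w j * y (Sum.inr j) = 0)
    (h2 : ∀ y ∈ S, y (Sum.inr k) = 0) : Module.finrank ℝ (Submodule.span ℝ S) ≤ n - 1 := by
  classical
  let L : (Unit ⊕ Fin n → ℝ) →ₗ[ℝ] ℝ × ℝ := LinearMap.prod
    ((-N) • LinearMap.proj (Sum.inl ()) + ∑ j, w j • LinearMap.proj (Sum.inr j))
    (LinearMap.proj (Sum.inr k))
  have hL : ∀ y, L y = (-N * y (Sum.inl ()) + ∑ j, w j * y (Sum.inr j), y (Sum.inr k)) := by
    intro y
    simp [L]
  have hsurj : Function.Surjective L := by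
    rintro ⟨p, q⟩
    refine ⟨Sum.elim (fun _ => (w k * q - p) / N) (Pi.single k q), ?_⟩
    rw [hL]
    simp only [Sum.elim_inl, Sum.elim_inr, Pi.single_eq_same, Prod.mk.injEq, and_true]
    rw [Finset.sum_eq_single k (fun j _ hj => by rw [Pi.single_eq_of_ne hj, mul_zero])
      (fun h => absurd (mem_univ k) h), Pi.single_eq_same]
    field_simp
    ring
  have h3 := L.finrank_range_add_finrank_ker
  rw [LinearMap.range_eq_top.2 hsurj, finrank_top] at h3
  have h4 : Module.finrank ℝ (ℝ × ℝ) = 2 := by simp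
  have h5 : Module.finrank ℝ (Unit ⊕ Fin n → ℝ) = n + 1 := by simp [add_comm]
  have hle : Submodule.span ℝ S ≤ LinearMap.ker L := by
    rw [Submodule.span_le]
    intro y hy
    rw [SetLike.mem_coe, LinearMap.mem_ker, hL, h1 y hy, h2 y hy]
    rfl
  have h6 := Submodule.finrank_mono hle
  omega

theorem mux_le {d N : ℕ} (x : Fin N → Lat d) (hx : LinearIndependent ℤ x) (h : Lat d)
    (h0 : h ≠ 0) (hh : ∀ k, dt h (x k) = 0) : N + 1 ≤ d := by
  have li1 : LinearIndependent ℤ (Fin.cons h x : Fin (N + 1) → Lat d) := by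
    refine LinearIndependent.finCons' _ _ hx ?_
    intro c y hy hcy
    have h5 : dt h y = 0 := by
      rw [Submodule.mem_span_range_iff_exists_fun] at hy
      obtain ⟨c, rfl⟩ := hy
      rw [dt_sum]
      exact sum_eq_zero fun k _ => by rw [dt_zsmul, hh, mul_zero]
    have h3 := congrArg (dt h) hcy
    rw [dt_add, dt_zsmul, dt_zero, h5, add_zero] at h3
    exact (mul_eq_zero.1 h3).resolve_right (fun h' => h0 (H11.dt_self _ h'))
  have h7 := li1.fintype_card_le_finrank
  rw [Fintype.card_fin, Module.finrank_pi, Fintype.card_fin] at h7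
  exact h7

theorem mux_ge {d N K : ℕ} (x : Fin N → Lat d) (y : Fin K → Lat d) (hy : LinearIndependent ℤ y)
    (hg : ∀ g : Lat d, (∀ k, dt g (x k) = 0) → ∀ k, dt g (y k) = 0) : K ≤ N := by
  classical
  set U := Submodule.span ℚ (Set.range fun k => facV (x k)) with hU
  have h1 : ∀ k, facV (y k) ∈ U := by
    intro k
    by_contra hcon
    obtain ⟨φ, hφ, hφU⟩ := Submodule.exists_dual_map_eq_bot_of_notMem hcon inferInstance
    have hφ0 : φ ≠ 0 := by
      rintro rfl
      exact hφ rfl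
    obtain ⟨h, γ, hγ, hφh, -⟩ := fac_scale φ hφ0
    have h2 : ∀ k, dt h (x k) = 0 := by
      intro k
      have h3 : φ (facV (x k)) = 0 := by
        have h4 : φ (facV (x k)) ∈ Submodule.map φ U :=
          Submodule.mem_map_of_mem (Submodule.subset_span ⟨k, rfl⟩)
        rw [hφU] at h4
        exact (Submodule.mem_bot ℚ).1 h4
      rw [hφh, LinearMap.smul_apply, facL_facV, smul_eq_mul] at h3
      exact_mod_cast (mul_eq_zero.1 h3).resolve_left hγ.ne'
    apply hφ
    rw [hφh, LinearMap.smul_apply, facL_facV, hg h h2 k]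
    simp
  have h2 : Submodule.span ℚ (Set.range fun k => facV (y k)) ≤ U := by
    rw [Submodule.span_le]
    rintro _ ⟨k, rfl⟩
    exact h1 k
  have h3 := Submodule.finrank_mono h2
  rw [finrank_span_eq_card ((fac_li y).1 hy), Fintype.card_fin] at h3
  have h4 : Module.finrank ℚ U ≤ N := by
    have := finrank_range_le_card (R := ℚ) (fun k => facV (x k))
    rw [Fintype.card_fin] at this
    exact this
  omega

theorem mux_sum_one {α : Type*} (s : Finset α) (f : α → ℤ) (hf : ∀ l ∈ s, 0 ≤ f l)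
    (h : ∑ l ∈ s, f l = 1) : ∃ l0 ∈ s, f l0 = 1 ∧ ∀ l ∈ s, l ≠ l0 → f l = 0 := by
  classical
  obtain ⟨l0, hl0, hne⟩ := exists_ne_zero_of_sum_ne_zero (by rw [h]; exact one_ne_zero)
  have h1 := Finset.add_sum_erase s f hl0
  have h2 : 0 ≤ ∑ l ∈ s.erase l0, f l := sum_nonneg fun l hl => hf l (mem_of_mem_erase hl)
  have h3 := hf l0 hl0
  have h4 : f l0 = 1 := by omega
  refine ⟨l0, hl0, h4, fun l hl hll => ?_⟩
  have h5 : ∑ l ∈ s.erase l0, f l = 0 := by omega
  exact (sum_eq_zero_iff_of_nonneg fun l hl => hf l (mem_of_mem_erase hl)).1 h5 l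
    (mem_erase.2 ⟨hll, hl⟩)

/-- MUX -/
theorem mux {n r : ℕ} (a : Fin r → (Fin n →₀ ℕ)) (κ : Fin r → ℂ) (hnd : Nondeg a κ)
    (w : Fin n → ℕ) (hw : FacetNormal a w) (hN : 0 < H22.wmin a w) (M : ℤ) (hM : 2 ≤ M)
    (lam : Option (Fin n) ⊕ Fin 0 → ℂ)
    (hlam : AlgebraicIndependent (Algebra.adjoin ℚ (Set.range κ)) lam)
    (H' : Lat (n + 2)) (hH' : ∀ i, 0 ≤ dt H' (cA a (bbM (Fin.elim0 : Fin 0 → Lat n) M) i))
    (hne : ∃ i, dt H' (cA a (bbM (Fin.elim0 : Fin 0 → Lat n) M) i) = 0)
    (hsub : ∀ i, dt H' (cA a (bbM (Fin.elim0 : Fin 0 → Lat n) M) i) = 0 →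
      dt (vec (-(H22.wmin a w : ℤ)) 0 (fun j => (w j : ℤ)))
        (cA a (bbM (Fin.elim0 : Fin 0 → Lat n) M) i) = 0) :
    ∃ (μ : Lat (n + 2)) (i : ℕ → Fin r ⊕ (Option (Fin n) ⊕ Fin 0)) (j0 : ℕ), j0 ≤ n ∧
      μ = ∑ l ∈ range (n + 1), cA a (bbM (Fin.elim0 : Fin 0 → Lat n) M) (i l) ∧
      (∀ l, l ≤ j0 → dt H' (cA a (bbM (Fin.elim0 : Fin 0 → Lat n) M) (i l)) = 0) ∧
      Om (cA a (bbM (Fin.elim0 : Fin 0 → Lat n) M)) H'
        (∑ l ∈ range (j0 + 1), cA a (bbM (Fin.elim0 : Fin 0 → Lat n) M) (i l)) ∧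
      ((∃ i1 i2, dt H' (cA a (bbM (Fin.elim0 : Fin 0 → Lat n) M) i1) = 0 ∧
        dt H' (cA a (bbM (Fin.elim0 : Fin 0 → Lat n) M) i2) = 0 ∧
        cA a (bbM (Fin.elim0 : Fin 0 → Lat n) M) i1 ≠
          cA a (bbM (Fin.elim0 : Fin 0 → Lat n) M) i2) → 1 ≤ j0) ∧
      (∀ l k, 0 ≤ (cA a (bbM (Fin.elim0 : Fin 0 → Lat n) M) (i l)) (Fin.succ (Fin.succ k))) ∧
      Om (cA a (bbM (Fin.elim0 : Fin 0 → Lat n) M))
        (vec (-(H22.wmin a w : ℤ)) 0 (fun j => (w j : ℤ))) μ ∧
      NotIn (cA a (bbM (Fin.elim0 : Fin 0 → Lat n) M)) (cC κ lam)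
        (vec (-(H22.wmin a w : ℤ)) 0 (fun j => (w j : ℤ))) (single μ 1) ∧
      (∀ k, w k ≠ 0 → (∃ i, a i k = 0) → ¬ HasB1 a w k → 2 ≤ μ (Fin.succ (Fin.succ k))) ∧
      (∀ k, w k = 0 → (∀ i, ∑ j, a i j * w j = H22.wmin a w → a i k ≠ 1) →
        2 ≤ μ (Fin.succ (Fin.succ k))) := by
  classical
  have hM0 : 0 < M := by linarith
  have hr : 0 < r := by
    rcases Nat.eq_zero_or_pos r with h | h
    · subst h
      have : H22.wmin a w = 0 := by
        unfold H22.wmin
        exact Nat.iInf_of_empty _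
      omega
    · exact h
  set A := cA a (bbM (Fin.elim0 : Fin 0 → Lat n) M) with hA
  set h0 : Lat (n + 2) := vec (-(H22.wmin a w : ℤ)) 0 (fun j => (w j : ℤ)) with hh0
  -- the coordinates
  have hAinl : ∀ i k, A (Sum.inl i) (Fin.succ (Fin.succ k)) = a i k := fun i k => rfl
  have hAnone : ∀ k, A (Sum.inr (Sum.inl none)) (Fin.succ (Fin.succ k)) = 0 := fun k => rfl
  have hAsome : ∀ j k, A (Sum.inr (Sum.inl (some j))) (Fin.succ (Fin.succ k)) =
      if k = j then M else 0 := by
    intro j k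
    show (M • ev j) k = _
    rw [Pi.smul_apply, smul_eq_mul, ev, Pi.single_apply]
    split_ifs <;> simp
  have hAnn : ∀ i k, 0 ≤ A i (Fin.succ (Fin.succ k)) := by
    rintro (i | (_ | j) | x) k
    · rw [hAinl]; positivity
    · rw [hAnone]
    · rw [hAsome]; split_ifs
      · exact hM0.le
      · exact le_refl _
    · exact x.elim0
  have hA1 : ∀ i k, A i (Fin.succ (Fin.succ k)) = 1 → ∃ i1, i = Sum.inl i1 ∧ a i1 k = 1 := by
    rintro (i | (_ | j) | x) k h
    · rw [hAinl] at h
      exact ⟨i, rfl, by exact_mod_cast h⟩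
    · rw [hAnone] at h
      exact absurd h zero_ne_one
    · rw [hAsome] at h
      split_ifs at h
      · omega
      · exact absurd h zero_ne_one
    · exact x.elim0
  -- the values of h0
  have h0inl : ∀ i, dt h0 (A (Sum.inl i)) =
      -(H22.wmin a w : ℤ) + ((∑ j, a i j * w j : ℕ) : ℤ) := by
    intro i
    rw [hh0, hA]
    simp only [cA]
    rw [dt_vec]
    push_cast
    simp only [mul_one, zero_mul, add_zero, mul_zero]
    congr 1
    exact sum_congr rfl fun j _ => mul_comm _ _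
  have h0some : ∀ j, dt h0 (A (Sum.inr (Sum.inl (some j)))) = M * w j := by
    intro j
    rw [hh0, hA]
    simp only [cA, bbM]
    rw [dt_vec]
    simp only [mul_zero, mul_one, zero_add, Pi.smul_apply, smul_eq_mul, ev, Pi.single_apply]
    rw [Finset.sum_eq_single j (fun k _ hk => by simp [hk]) (fun h => absurd (mem_univ j) h)]
    simp [mul_comm]
  have h0none : dt h0 (A (Sum.inr (Sum.inl none))) = 0 := by
    rw [hh0, hA]
    simp only [cA, bbM]
    rw [dt_vec]
    simp
  have h0face : ∀ i, dt h0 (A (Sum.inl i)) = 0 ↔ ∑ j, a i j * w j = H22.wmin a w := by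
    intro i
    rw [h0inl]
    omega
  have h0nn : ∀ i, 0 ≤ dt h0 (A i) := by
    rintro (i | (_ | j) | x)
    · rw [h0inl]
      have := H11.wmin_le a w i
      omega
    · rw [h0none]
    · rw [h0some]; positivity
    · exact x.elim0
  have h0ne : h0 ≠ 0 := by
    intro h
    have := congrFun h 0
    simp only [hh0, vec, Fin.cons_zero, Pi.zero_apply] at this
    omega
  have hδ : ∀ i, dt (vec 1 1 0 : Lat (n + 2)) (A i) = 1 := by
    rintro (i | k)
    · rw [hA]; simp only [cA]; rw [dt_vec]; simp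
    · rw [hA]; simp only [cA]; rw [dt_vec]; simp
  obtain ⟨s, j0, Hs, hj0, hHs, hHj, hnn, hz, hmono, hstrict, hrank⟩ :=
    flex A (vec 1 1 0) hδ h0 H' h0nn hH' hsub hne
  obtain ⟨m, h, hh, -, -, hfac⟩ := fac A (vec 1 1 0) hδ (fspan hr a _ M hM0)
  have hnd' := ndg a κ hnd (bbM (Fin.elim0 : Fin 0 → Lat n) M) lam hlam
  obtain ⟨i, hi1, hi2, hi3, hi4, hi5, hi6⟩ := flagb A (cC κ lam) h (vec 1 1 0) hδ hh hfac hnd'
    s Hs hnn hz hmono hstrict hrank
  have hmono' : ∀ l j, l ≤ j → j ≤ s → ∀ x, dt (Hs l) (A x) = 0 → dt (Hs j) (A x) = 0 := by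
    intro l j hlj
    induction j, hlj using Nat.le_induction with
    | base => exact fun _ x hx => hx
    | succ j hlj ih => exact fun hjs x hx => hmono j (by omega) x (ih (by omega) x hx)
  have hiT : ∀ l, l ≤ s → dt h0 (A (i l)) = 0 := by
    intro l hl
    rw [← hHs]
    exact hmono' l s hl le_rfl _ (hi1 l hl)
  -- the length of the chain
  have hsn : s = n := by
    obtain ⟨e, he0, he⟩ := fns a (Fin.elim0 : Fin 0 → Lat n) M hM0 w hw
    have h1 := mux_le (fun l : Fin (s + 1) => A (i l)) hi4 h0 h0ne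
      (fun l => hiT l (by omega))
    have h2 := mux_ge (fun l : Fin (s + 1) => A (i l)) _ he (by
      intro g hg k
      refine hi5 g (fun l hl => hg ⟨l, by omega⟩) _ ?_
      rw [hHs]
      exact he0 k)
    omega
  have hrg : range (s + 1) = range (n + 1) := by rw [hsn]
  -- the sum
  have hOm : Om A h0 (∑ l ∈ range (n + 1), A (i l)) := by
    have := hi3 s le_rfl
    rwa [hHs, hrg] at this
  have hNot : NotIn A (cC κ lam) h0 (single (∑ l ∈ range (n + 1), A (i l)) 1) := by
    rwa [hHs, hrg] at hi6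
  have hμ : ∀ k, (∑ l ∈ range (n + 1), A (i l)) (Fin.succ (Fin.succ k)) =
      ∑ l ∈ range (n + 1), A (i l) (Fin.succ (Fin.succ k)) := fun k => Finset.sum_apply _ _ _
  have hdtk : ∀ (k : Fin n) (u : Lat (n + 2)),
      dt (vec 0 0 (ev k)) u = u (Fin.succ (Fin.succ k)) := by
    intro k u
    rw [vec_surj u, dt_vec]
    simp only [zero_mul, zero_add]
    have := dt_ev k (fun j => u j.succ.succ)
    rw [dt] at this
    rw [this]
    rfl
  have hμ1 : ∀ k, 1 ≤ (∑ l ∈ range (n + 1), A (i l)) (Fin.succ (Fin.succ k)) := by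
    intro k
    have h1 := hOm (vec 0 0 (ev k)) (fun i => by rw [hdtk]; exact hAnn i k)
    rw [hdtk] at h1
    have h2 : (∑ l ∈ range (n + 1), A (i l)) (Fin.succ (Fin.succ k)) ≠ 0 := by
      intro hzero
      have h3 := h1.2.1 hzero
      by_cases hwk : w k = 0
      · have h4 := h3 (Sum.inr (Sum.inl (some k))) (by rw [h0some, hwk]; simp)
        rw [hdtk, hAsome, if_pos rfl] at h4
        omega
      · have h5 : ∀ i, ∑ j, a i j * w j = H22.wmin a w → a i k = 0 := by
          intro i hi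
          have h4 := h3 (Sum.inl i) ((h0face i).2 hi)
          rw [hdtk, hAinl] at h4
          exact_mod_cast h4
        have h6 := mux_rank_upper ({y | ∃ i, ∑ j, a i j * w j = H22.wmin a w ∧
            y = H22.rowR a i} ∪ {y | ∃ j, w j = 0 ∧ y = Sum.elim (fun _ => 0) (Pi.single j 1)} :
              Set (Unit ⊕ Fin n → ℝ)) (H22.wmin a w : ℝ) (by exact_mod_cast hN.ne')
          (fun j => (w j : ℝ)) k (by
            rintro y (⟨i, hi, rfl⟩ | ⟨j, hj, rfl⟩)
            · simp only [H22.rowR, Sum.elim_inl, Sum.elim_inr, mul_one]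
              rw [← hi]
              push_cast
              rw [neg_add_eq_zero]
              exact sum_congr rfl fun j _ => mul_comm _ _
            · simp only [Sum.elim_inl, Sum.elim_inr, mul_zero, zero_add]
              refine sum_eq_zero fun j' _ => ?_
              by_cases hjj : j' = j
              · rw [hjj, hj]; simp
              · rw [Pi.single_eq_of_ne hjj, mul_zero]) (by
            rintro y (⟨i, hi, rfl⟩ | ⟨j, hj, rfl⟩)
            · simp only [H22.rowR, Sum.elim_inr]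
              rw [h5 i hi]; simp
            · simp only [Sum.elim_inr]
              exact Pi.single_eq_of_ne (fun h => hwk (by rw [h]; exact hj)) _)
        rw [hw.2] at h6
        have := k.2
        omega
    omega
  refine ⟨∑ l ∈ range (n + 1), A (i l), i, j0, by omega, rfl, ?_, ?_, ?_,
    fun l k => hAnn _ _, hOm, hNot, ?_, ?_⟩
  · intro l hl
    exact (hHj _).1 (hmono' l j0 hl hj0 _ (hi1 l (by omega)))
  · intro g hg
    have h1 := hi3 j0 hj0 g hg
    simp only [hHj] at h1
    exact h1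
  · rintro ⟨i1, i2, h1, h2, h12⟩
    by_contra hcon
    have hj00 : j0 = 0 := by omega
    subst hj00
    obtain ⟨i0, -, hi0⟩ := hz
    exact h12 ((hi0 i1 ((hHj _).2 h1)).trans (hi0 i2 ((hHj _).2 h2)).symm)
  · -- (P3)
    intro k hwk _ hB
    by_contra hcon
    have h1 := hμ1 k
    have h2 : (∑ l ∈ range (n + 1), A (i l)) (Fin.succ (Fin.succ k)) = 1 := by omega
    rw [hμ] at h2
    obtain ⟨l0, hl0, hl1, hl2⟩ := mux_sum_one _ _ (fun l _ => hAnn _ _) h2
    obtain ⟨i1, hi1', hi1k⟩ := hA1 _ _ hl1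
    apply hB
    have hface : ∑ j, a i1 j * w j = H22.wmin a w := by
      rw [← h0face, ← hi1']
      exact hiT l0 (by rw [mem_range] at hl0; omega)
    refine ⟨?_, i1, hface, hi1k⟩
    rw [mem_range] at hl0
    have hli : LinearIndependent ℤ (fun l : Fin (n + 1) => A (i l)) := by
      have h3 := hi4.comp (Fin.cast (by rw [hsn]) : Fin (n + 1) → Fin (s + 1))
        (Fin.cast_injective _)
      exact h3
    have hli2 := hli.comp (Fin.succAbove ⟨l0, hl0⟩) Fin.succAbove_right_injective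
    have h4 := mux_rank_lower _ hli2 ({y | ∃ i, ∑ j, a i j * w j = H22.wmin a w ∧ a i k = 0 ∧
        y = H22.rowR a i} ∪ {y | ∃ j, w j = 0 ∧ y = Sum.elim (fun _ => 0) (Pi.single j 1)} :
          Set (Unit ⊕ Fin n → ℝ)) (by
      intro l
      have h5 : ((Fin.succAbove ⟨l0, hl0⟩ l : Fin (n + 1)) : ℕ) ≠ l0 := by
        intro h
        exact Fin.succAbove_ne ⟨l0, hl0⟩ l (Fin.ext h)
      have h6 : A (i ((Fin.succAbove ⟨l0, hl0⟩ l : Fin (n + 1)) : ℕ)) (Fin.succ (Fin.succ k)) = 0 :=
        hl2 _ (mem_range.2 (Fin.is_lt _)) h5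
      have h7 : dt h0 (A (i ((Fin.succAbove ⟨l0, hl0⟩ l : Fin (n + 1)) : ℕ))) = 0 :=
        hiT _ (by have := (Fin.succAbove ⟨l0, hl0⟩ l : Fin (n + 1)).2; omega)
      show (fun y => ((A (i ((Fin.succAbove ⟨l0, hl0⟩ l : Fin (n + 1)) : ℕ)) (H11.fgt n y) : ℤ) : ℝ))
        ∈ _
      generalize i ((Fin.succAbove ⟨l0, hl0⟩ l : Fin (n + 1)) : ℕ) = x at h6 h7
      rcases x with i' | (_ | j) | x
      · apply Submodule.subset_span
        left
        refine ⟨i', (h0face i').1 h7, by rw [hAinl] at h6; exact_mod_cast h6, ?_⟩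
        funext y
        rcases y with y | y
        · simp [hA, cA, H11.fgt, vec, H22.rowR]
        · simp only [H11.fgt, Sum.elim_inr, H22.rowR]
          rw [hAinl]
          simp
      · have : (fun y => ((A (Sum.inr (Sum.inl none)) (H11.fgt n y) : ℤ) : ℝ)) = 0 := by
          funext y
          rcases y with y | y
          · simp [hA, cA, H11.fgt, vec]
          · simp only [H11.fgt, Sum.elim_inr]
            rw [hAnone]
            simp
        rw [this]
        exact Submodule.zero_mem _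
      · have hwj : w j = 0 := by
          rw [h0some] at h7
          have := (mul_eq_zero.1 h7).resolve_left hM0.ne'
          exact_mod_cast this
        have : (fun y => ((A (Sum.inr (Sum.inl (some j))) (H11.fgt n y) : ℤ) : ℝ)) =
            (M : ℝ) • (Sum.elim (fun _ => 0) (Pi.single j 1) : Unit ⊕ Fin n → ℝ) := by
          funext y
          rcases y with y | y
          · simp [hA, cA, H11.fgt, vec]
          · simp only [H11.fgt, Sum.elim_inr, Pi.smul_apply, smul_eq_mul]
            rw [hAsome, Pi.single_apply]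
            split_ifs <;> simp
        rw [this]
        exact Submodule.smul_mem _ _ (Submodule.subset_span (Or.inr ⟨j, hwj, rfl⟩))
      · exact x.elim0)
    have h8 := mux_rank_upper ({y | ∃ i, ∑ j, a i j * w j = H22.wmin a w ∧ a i k = 0 ∧
        y = H22.rowR a i} ∪ {y | ∃ j, w j = 0 ∧ y = Sum.elim (fun _ => 0) (Pi.single j 1)} :
          Set (Unit ⊕ Fin n → ℝ)) (H22.wmin a w : ℝ) (by exact_mod_cast hN.ne')
      (fun j => (w j : ℝ)) k (by
        rintro y (⟨i, hi, hik, rfl⟩ | ⟨j, hj, rfl⟩)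
        · simp only [H22.rowR, Sum.elim_inl, Sum.elim_inr, mul_one]
          rw [← hi]
          push_cast
          rw [neg_add_eq_zero]
          exact sum_congr rfl fun j _ => mul_comm _ _
        · simp only [Sum.elim_inl, Sum.elim_inr, mul_zero, zero_add]
          refine sum_eq_zero fun j' _ => ?_
          by_cases hjj : j' = j
          · rw [hjj, hj]; simp
          · rw [Pi.single_eq_of_ne hjj, mul_zero]) (by
        rintro y (⟨i, hi, hik, rfl⟩ | ⟨j, hj, rfl⟩)
        · simp only [H22.rowR, Sum.elim_inr]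
          rw [hik]; simp
        · simp only [Sum.elim_inr]
          exact Pi.single_eq_of_ne (fun h => hwk (by rw [h]; exact hj)) _)
    have := k.2
    omega
  · -- (P4)
    intro k hwk hno
    by_contra hcon
    have h1 := hμ1 k
    have h2 : (∑ l ∈ range (n + 1), A (i l)) (Fin.succ (Fin.succ k)) = 1 := by omega
    rw [hμ] at h2
    obtain ⟨l0, hl0, hl1, hl2⟩ := mux_sum_one _ _ (fun l _ => hAnn _ _) h2
    obtain ⟨i1, hi1', hi1k⟩ := hA1 _ _ hl1
    refine hno i1 ?_ hi1k
    rw [← h0face, ← hi1']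
    exact hiT l0 (by rw [mem_range] at hl0; omega)

end Pool.Agent.H56.SMC
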