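import Pool.Agent.H56.SMC.CfgDefs

/-!
# RAYZ: rays with `N(v) = 0` (no `β`)

Proof.  `r > 0` (otherwise the span is that of the `(0,e_j)`, `v_j = 0`, of dimension `< n`).  All exponents `a_i` on the face of `v` satisfy `a_i·v = 0`, so all the vectors spanning vanish on `supp v`: `n ≤ 1 + (n - |supp v|)`, `|supp v| = 1`, `v = c e_k`, `gcd v = 1`: `v = e_k`, and `a_ik = 0` for the
`i` at which the minimum `0` is attained.
-/

set_option autoImplicit false

namespace Pool.Agent.H56.SMC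

open Finset AddMonoidAlgebra

/-- Two coordinates vanish on a set: the span has codimension at least two. -/
theorem rayz_two {C : Type*} [Fintype C] (A : Set (C → ℝ)) (c1 c2 : C) (hc : c1 ≠ c2)
    (h1 : ∀ y ∈ A, y c1 = 0) (h2 : ∀ y ∈ A, y c2 = 0) :
    Module.finrank ℝ (Submodule.span ℝ A) + 2 ≤ Fintype.card C := by
  classical
  let f : (C → ℝ) →ₗ[ℝ] (ℝ × ℝ) := (LinearMap.proj c1).prod (LinearMap.proj c2)
  have hf : Function.Surjective f := by
    rintro ⟨p, q⟩
    refine ⟨Pi.single c1 p + Pi.single c2 q, ?_⟩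
    simp [f, hc, hc.symm]
  have hle : Submodule.span ℝ A ≤ LinearMap.ker f := by
    rw [Submodule.span_le]
    intro y hy
    simp [f, h1 y hy, h2 y hy]
  have h3 := Submodule.finrank_mono hle
  have h4 := LinearMap.finrank_range_add_finrank_ker f
  rw [LinearMap.range_eq_top.2 hf, finrank_top] at h4
  simp at h4
  omega

/-- RAYZ -/
theorem rayz {n r : ℕ} (a : Fin r → (Fin n →₀ ℕ)) (v : Fin n → ℕ)
    (hv : RayNormal a (Fin.elim0 : Fin 0 → Fin n → ℤ) v) (hg : univ.gcd v = 1)
    (h0 : H22.wmin a v = 0) : ∃ k, v = Pi.single k 1 ∧ ∃ i, a i k = 0 := by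
  classical
  obtain ⟨hv0, -, hrank⟩ := hv
  -- an index in the support
  obtain ⟨k, hk⟩ : ∃ k, v k ≠ 0 := by
    by_contra hall
    push Not at hall
    exact hv0 (funext hall)
  have hface : ∀ i, ∑ j, a i j * v j = H22.wmin a v → ∀ j, v j ≠ 0 → a i j = 0 := by
    intro i hi j hj
    rw [h0, Finset.sum_eq_zero_iff] at hi
    exact (Nat.mul_eq_zero.1 (hi j (mem_univ j))).resolve_right hj
  have hcoord : ∀ j, v j ≠ 0 → ∀ y ∈ ({y | ∃ i, ∑ j, a i j * v j = H22.wmin a v ∧
      y = H22.rowR a i} ∪ {y | ∃ j, v j = 0 ∧ y = Sum.elim (fun _ => 0) (Pi.single j 1)} ∪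
      {y | ∃ k, ∑ j, (Fin.elim0 : Fin 0 → Fin n → ℤ) k j * v j = 0 ∧
        y = Sum.elim (fun _ => 0) (fun j => (((Fin.elim0 : Fin 0 → Fin n → ℤ) k j : ℤ) : ℝ))} :
        Set (Unit ⊕ Fin n → ℝ)), y (Sum.inr j) = 0 := by
    intro j hj y hy
    rcases hy with (⟨i, hi, rfl⟩ | ⟨j', hj', rfl⟩) | ⟨k, -⟩
    · simp [H22.rowR, hface i hi j hj]
    · have : j ≠ j' := fun h => hj (h ▸ hj')
      simp [this]
    · exact k.elim0
  have huniq : ∀ j, v j ≠ 0 → j = k := by
    intro j hj
    by_contra hjk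
    have := rayz_two _ (Sum.inr j : Unit ⊕ Fin n) (Sum.inr k) (by simpa using hjk)
      (hcoord j hj) (hcoord k hk)
    rw [hrank] at this
    simp at this
    omega
  have hvk : v = Pi.single k (v k) := by
    funext j
    by_cases hj : j = k
    · subst hj; simp
    · rw [Pi.single_eq_of_ne hj]
      by_contra hne
      exact hj (huniq j hne)
  have hvk1 : v k = 1 := by
    have h1 : v k ∣ univ.gcd v := by
      apply Finset.dvd_gcd
      intro j _
      by_cases hj : v j = 0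
      · rw [hj]; exact dvd_zero _
      · rw [huniq j hj]
    rw [hg] at h1
    exact Nat.dvd_one.1 h1
  refine ⟨k, by rw [hvk, hvk1], ?_⟩
  rcases isEmpty_or_nonempty (Fin r) with hr | hr
  · exfalso
    have := rayz_two _ (Sum.inl () : Unit ⊕ Fin n) (Sum.inr k) (by simp) (by
      intro y hy
      rcases hy with (⟨i, hi, rfl⟩ | ⟨j', hj', rfl⟩) | ⟨k, -⟩
      · exact (hr.false i).elim
      · simp
      · exact k.elim0) (hcoord k hk)
    rw [hrank] at this
    simp at this
    omega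
  · obtain ⟨i, hi⟩ : ∃ i, ∑ j, a i j * v j = H22.wmin a v := by
      have := ciInf_mem (fun i : Fin r => ∑ j, a i j * v j)
      obtain ⟨i, hi⟩ := this
      exact ⟨i, hi⟩
    exact ⟨i, hface i hi k hk⟩

end Pool.Agent.H56.SMC
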