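import Pool.Agent.H56.SMC.APPC
import Pool.Agent.H56.SMC.MUX
import Pool.Agent.H56.SMC.RAYZ

/-!
# NBX: faces without pyramids of height one

Proof.  `appc` with `m = 0`, `β = Fin.elim0`.  For given `M`, `lam`: `Z = {j : w_j = 0}`.  If `Z` is empty take `H' = h0` in `mux`.  Otherwise `H' = vec L M (w - ∑_{j∈Z} e_j)` with `L` large (`L + (w - 1_Z)·a_i > 0` for all `i`): value `0` exactly at the `(0,1;M e_j)`, `j ∈ Z` (value `M` at `(0,1;0)`, `M + M w_j` at `j ∉ Z`).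
`hsub` is clear.  By `Om A H' (∑_{l≤j0} A (i l))` and the functional `vec 0 0 e_k`, `k ∈ Z` (nonnegative, not vanishing at `(0,1;M e_k)`) some `l ≤ j0` has `A(i l)_k > 0`, and since `A (i l)` is one of the `(0,1;M e_j)`, `j ∈ Z`, `A(i l)_k = M`; so `μ_k ≥ M ≥ 2` for `k ∈ Z`.  For `w_k ≠ 0`, `∃ i, a i k = 0`: `μ_k ≥ 2` by `mux` and `NoB1`.
For a primitive `RayNormal` `v` with `wmin a v = 0`: `v = e_k`, `∃ i, a i k = 0` (`rayz`); `dt (vec 0 0 e_k) μ = μ_k ≥ 2 > 1 = wsum v`.  The second condition of `appc` is empty.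
-/

set_option autoImplicit false

namespace Pool.Agent.H56.SMC

open Finset AddMonoidAlgebra

theorem nbx_wmin_le {n r : ℕ} (a : Fin r → (Fin n →₀ ℕ)) (v : Fin n → ℕ) (i : Fin r) :
    H22.wmin a v ≤ ∑ j, a i j * v j := ciInf_le (OrderBot.bddBelow _) i

/-- `μ_k` as the value of a functional. -/
theorem nbx_dt {n : ℕ} (μ : Lat (n + 2)) (c0 : ℤ) (hc : c0 = 0) (k : Fin n) (v : Fin n → ℤ)
    (hv : v = Pi.single k 1) : dt (vec c0 0 v) μ = μ k.succ.succ := by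
  subst hv; subst hc
  rw [vec_surj μ, dt_vec]
  simp [Pi.single_apply, vec]

/-- The condition on the rays follows from `μ_k ≥ 2`. -/
theorem nbx_rays {n r : ℕ} (a : Fin r → (Fin n →₀ ℕ)) (w : Fin n → ℕ) (μ : Lat (n + 2))
    (hμ : ∀ k, (∃ i, a i k = 0) → 2 ≤ μ (Fin.succ (Fin.succ k)))
    (v : Fin n → ℕ) (hv : RayNormal a (Fin.elim0 : Fin 0 → Fin n → ℤ) v) (hg : univ.gcd v = 1) :
    (H22.wmin a v = 0 →
      (H22.wsum v : ℤ) < dt (vec (-(H22.wmin a v : ℤ)) 0 (fun j => (v j : ℤ))) μ) ∧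
    ((∃ k, ∑ j, (Fin.elim0 : Fin 0 → Fin n → ℤ) k j * v j = 0) → ∀ l : ℕ, 0 < l →
      H22.wsum v * H22.wmin a w = l * H22.wmin a w + H22.wmin a v * H22.wsum w →
      (l : ℤ) < dt (vec (-(H22.wmin a v : ℤ)) 0 (fun j => (v j : ℤ))) μ) := by
  classical
  refine ⟨fun h0 => ?_, fun ⟨k, _⟩ => k.elim0⟩
  obtain ⟨k, hk, hi⟩ := rayz a v hv hg h0
  rw [nbx_dt μ _ (by rw [h0]; simp) k (fun j => (v j : ℤ)) (by
    funext j
    rw [hk]
    by_cases hj : j = k
    · subst hj; simp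
    · simp [hj])]
  have h1 : H22.wsum v = 1 := by
    rw [hk, H22.wsum, Finset.sum_pi_single']
    simp
  have := hμ k hi
  rw [h1]
  push_cast
  linarith

/-- The functional `vec 0 0 e_k`. -/
theorem nbx_ek_nonneg {n r : ℕ} (a : Fin r → (Fin n →₀ ℕ)) (M : ℤ) (hM : 2 ≤ M) (k : Fin n)
    (i : Fin r ⊕ (Option (Fin n) ⊕ Fin 0)) :
    0 ≤ dt (vec 0 0 (Pi.single k 1)) (cA a (bbM (Fin.elim0 : Fin 0 → Lat n) M) i) := by
  rw [nbx_dt _ 0 rfl k _ rfl]
  rcases i with i | (_ | j) | j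
  · simp [cA, vec]
  · simp [cA, vec, bbM]
  · simp only [cA, vec, bbM, Fin.cons_succ, Pi.smul_apply, smul_eq_mul, ev]
    by_cases hj : k = j
    · subst hj; simp; linarith
    · simp [hj]
  · exact j.elim0

/-- `f = h0`: values. -/
theorem nbx_h0_nonneg {n r : ℕ} (a : Fin r → (Fin n →₀ ℕ)) (w : Fin n → ℕ) (M : ℤ) (hM : 2 ≤ M)
    (i : Fin r ⊕ (Option (Fin n) ⊕ Fin 0)) :
    0 ≤ dt (vec (-(H22.wmin a w : ℤ)) 0 (fun j => (w j : ℤ)))
      (cA a (bbM (Fin.elim0 : Fin 0 → Lat n) M) i) := by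
  rcases i with i | (_ | j) | j
  · rw [cA, dt_vec]
    have h1 := nbx_wmin_le a w i
    have h2 : (H22.wmin a w : ℤ) ≤ ∑ j, (w j : ℤ) * (a i j : ℤ) := by
      calc (H22.wmin a w : ℤ) ≤ ((∑ j, a i j * w j : ℕ) : ℤ) := by exact_mod_cast h1
        _ = _ := by push_cast; exact sum_congr rfl fun j _ => mul_comm _ _
    linarith
  · rw [cA, dt_vec]
    simp [bbM]
  · rw [cA, dt_vec]
    simp only [bbM, ev, Pi.smul_apply, smul_eq_mul]
    have : ∑ x, (w x : ℤ) * (M * (Pi.single j (1 : ℤ) : Fin n → ℤ) x) = w j * M := by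
      rw [Finset.sum_eq_single j]
      · simp
      · intro b _ hb; simp [hb]
      · simp
    rw [this]
    have : (0 : ℤ) ≤ w j * M := by positivity
    linarith
  · exact j.elim0

/-- the value of `vec L L2 q` at `(0,1;M e_j)` -/
theorem nbx_val {n r : ℕ} (a : Fin r → (Fin n →₀ ℕ)) (M L L2 : ℤ) (q : Fin n → ℤ) (j : Fin n) :
    dt (vec L L2 q) (cA a (bbM (Fin.elim0 : Fin 0 → Lat n) M) (Sum.inr (Sum.inl (some j)))) =
      L2 + M * q j := by
  rw [cA, dt_vec]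
  simp only [bbM, ev, Pi.smul_apply, smul_eq_mul]
  have : ∑ x, q x * (M * (Pi.single j (1 : ℤ) : Fin n → ℤ) x) = M * q j := by
    rw [Finset.sum_eq_single j]
    · simp [mul_comm]
    · intro b _ hb; simp [hb]
    · simp
  rw [this]
  ring

theorem nbx_val0 {n r : ℕ} (a : Fin r → (Fin n →₀ ℕ)) (M L L2 : ℤ) (q : Fin n → ℤ) :
    dt (vec L L2 q) (cA a (bbM (Fin.elim0 : Fin 0 → Lat n) M) (Sum.inr (Sum.inl none))) = L2 := by
  rw [cA, dt_vec]
  simp [bbM]

theorem nbx_vala {n r : ℕ} (a : Fin r → (Fin n →₀ ℕ)) (M L L2 : ℤ) (q : Fin n → ℤ) (i : Fin r) :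
    dt (vec L L2 q) (cA a (bbM (Fin.elim0 : Fin 0 → Lat n) M) (Sum.inl i)) =
      L + ∑ j, q j * (a i j : ℤ) := by
  rw [cA, dt_vec]
  ring

/-- The functional with zero set `{(0,1;M e_j) : w_j = 0}`. -/
theorem nbx_H' {n r : ℕ} (a : Fin r → (Fin n →₀ ℕ)) (w : Fin n → ℕ) (M : ℤ) (hM : 2 ≤ M)
    (hZ : ∃ k, w k = 0) : ∃ H' : Lat (n + 2),
      (∀ i, 0 ≤ dt H' (cA a (bbM (Fin.elim0 : Fin 0 → Lat n) M) i)) ∧
      ∀ i, dt H' (cA a (bbM (Fin.elim0 : Fin 0 → Lat n) M) i) = 0 ↔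
        ∃ j, w j = 0 ∧ i = Sum.inr (Sum.inl (some j)) := by
  classical
  set L : ℤ := 1 + ∑ i, ∑ j, (a i j : ℤ) with hL
  set q : Fin n → ℤ := fun j => (w j : ℤ) - if w j = 0 then 1 else 0 with hq
  have ha : ∀ i : Fin r, 0 < L + ∑ j, q j * (a i j : ℤ) := by
    intro i
    have h1 : ∑ j, (a i j : ℤ) ≤ ∑ i, ∑ j, (a i j : ℤ) :=
      single_le_sum (f := fun i => ∑ j, (a i j : ℤ))
        (fun i _ => sum_nonneg fun j _ => by positivity) (mem_univ i)
    have h2 : -∑ j, (a i j : ℤ) ≤ ∑ j, q j * (a i j : ℤ) := by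
      rw [← sum_neg_distrib]
      refine sum_le_sum fun j _ => ?_
      have h3 : (-1 : ℤ) ≤ q j := by
        simp only [hq]
        split_ifs with h
        · rw [h]; norm_num
        · have : (0 : ℤ) ≤ w j := by positivity
          linarith
      have h4 : (0 : ℤ) ≤ a i j := by positivity
      nlinarith
    linarith
  refine ⟨vec L M q, ?_, ?_⟩
  · rintro (i | (_ | j) | j)
    · rw [nbx_vala]; exact (ha i).le
    · rw [nbx_val0]; linarith
    · rw [nbx_val]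
      have h3 : (-1 : ℤ) ≤ q j := by
        simp only [hq]
        split_ifs with h
        · rw [h]; norm_num
        · have : (0 : ℤ) ≤ w j := by positivity
          linarith
      nlinarith
    · exact j.elim0
  · rintro (i | (_ | j) | j)
    · rw [nbx_vala]
      constructor
      · intro h; exact absurd h (ha i).ne'
      · rintro ⟨j, -, h⟩; exact absurd h (by simp)
    · rw [nbx_val0]
      constructor
      · intro h; omega
      · rintro ⟨j, -, h⟩; simp at h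
    · rw [nbx_val]
      constructor
      · intro h
        refine ⟨j, ?_, rfl⟩
        by_contra hw
        have h1 : q j = w j := by simp [hq, hw]
        rw [h1] at h
        have h2 : (0 : ℤ) ≤ w j := by positivity
        nlinarith
      · rintro ⟨j', hj', h⟩
        obtain rfl : j = j' := by simpa using h
        simp [hq, hj']
    · exact j.elim0

/-- The classes of `NBX`. -/
theorem nbx_mu {n r : ℕ} (a : Fin r → (Fin n →₀ ℕ)) (κ : Fin r → ℂ) (hnd : Nondeg a κ)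
    (w : Fin n → ℕ) (hw : FacetNormal a w) (hN : 0 < H22.wmin a w) (hnb : NoB1 a w) (M : ℤ)
    (hM : 2 ≤ M) (lam : Option (Fin n) ⊕ Fin 0 → ℂ)
    (hlam : AlgebraicIndependent (Algebra.adjoin ℚ (Set.range κ)) lam) :
    ∃ μ : Lat (n + 2), Om (cA a (bbM (Fin.elim0 : Fin 0 → Lat n) M))
        (vec (-(H22.wmin a w : ℤ)) 0 (fun j => (w j : ℤ))) μ ∧
      NotIn (cA a (bbM (Fin.elim0 : Fin 0 → Lat n) M)) (cC κ lam)
        (vec (-(H22.wmin a w : ℤ)) 0 (fun j => (w j : ℤ))) (single μ 1) ∧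
      ∀ k, (∃ i, a i k = 0) → 2 ≤ μ (Fin.succ (Fin.succ k)) := by
  classical
  by_cases hZ : ∃ k, w k = 0
  · obtain ⟨H', hH', hz⟩ := nbx_H' a w M hM hZ
    obtain ⟨k0, hk0⟩ := hZ
    obtain ⟨μ, i, j0, hj0, hμ, hiH, hOm', -, hnn, hOm, hNot, h3, -⟩ :=
      mux a κ hnd w hw hN M hM lam hlam H' hH' ⟨_, (hz _).2 ⟨k0, hk0, rfl⟩⟩ (by
        intro i hi
        obtain ⟨j, hj, rfl⟩ := (hz i).1 hi
        rw [nbx_val, hj]; simp)
    refine ⟨μ, hOm, hNot, fun k hk => ?_⟩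
    by_cases hwk : w k = 0
    · have h1 := hOm' (vec 0 0 (Pi.single k 1)) (nbx_ek_nonneg a M hM k)
      have h2 : dt (vec 0 0 (Pi.single k 1))
          (∑ l ∈ range (j0 + 1), cA a (bbM (Fin.elim0 : Fin 0 → Lat n) M) (i l)) ≠ 0 := by
        intro h3
        have h4 := h1.2.1 h3 (Sum.inr (Sum.inl (some k))) ((hz _).2 ⟨k, hwk, rfl⟩)
        rw [nbx_val] at h4
        simp at h4
        omega
      rw [dt_sum] at h2
      obtain ⟨l, hl, hl'⟩ := exists_ne_zero_of_sum_ne_zero h2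
      have hl1 : l ≤ j0 := by have := mem_range.1 hl; omega
      obtain ⟨j, hj, hij⟩ := (hz (i l)).1 (hiH l hl1)
      rw [hij, nbx_val] at hl'
      have hjk : j = k := by
        by_contra hne
        apply hl'
        simp [hne]
      subst hjk
      have h5 : M ≤ μ (Fin.succ (Fin.succ j)) := by
        rw [hμ, Finset.sum_apply]
        have h6 := single_le_sum
          (f := fun l => cA a (bbM (Fin.elim0 : Fin 0 → Lat n) M) (i l) (Fin.succ (Fin.succ j)))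
          (fun l _ => hnn l j) (mem_range.2 (show l < n + 1 by omega))
        refine le_trans ?_ h6
        simp [hij, cA, vec, bbM, ev]
      linarith
    · exact h3 k hwk hk (hnb k hwk hk)
  · push Not at hZ
    obtain ⟨μ, -, -, -, -, -, -, -, -, hOm, hNot, h3, -⟩ :=
      mux a κ hnd w hw hN M hM lam hlam (vec (-(H22.wmin a w : ℤ)) 0 (fun j => (w j : ℤ)))
        (nbx_h0_nonneg a w M hM) ⟨Sum.inr (Sum.inl none), by rw [nbx_val0]⟩ (fun _ h => h)
    exact ⟨μ, hOm, hNot, fun k hk => h3 k (hZ k) hk (hnb k (hZ k) hk)⟩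

/-- NBX -/
theorem nbx {n r : ℕ} (a : Fin r → (Fin n →₀ ℕ)) (κ : Fin r → ℂ)
    (hnd : Nondeg a κ) (b : Polynomial ℂ) (P : H22.WeylS n)
    (hfe : H22.FunctionalEquation (fpoly a κ) b P) (w : Fin n → ℕ) (hw : FacetNormal a w)
    (hN : 0 < H22.wmin a w) (hnb : NoB1 a w) :
    b.IsRoot (-(H22.wsum w : ℂ) / (H22.wmin a w : ℂ)) := by
  refine appc a κ hnd b P hfe w hw hN (Fin.elim0 : Fin 0 → Fin n → ℤ) (fun k => k.elim0) ?_
  intro M hM lam hlam
  obtain ⟨μ, h1, h2, h3⟩ := nbx_mu a κ hnd w hw hN hnb M hM lam hlam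
  exact ⟨μ, h1, h2, fun v hv hg => nbx_rays a w μ h3 v hv hg⟩

end Pool.Agent.H56.SMC
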