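import Pool.Agent.H56.SMC.APPC
import Pool.Agent.H56.SMC.MUX
import Pool.Agent.H56.SMC.RAYZ

/-!
# ONEX: one exceptional direction

Proof.  `appc` with `m = 0`, `β = Fin.elim0`; `k0` with `w_{k0} = 0`: then `NoB1 a w` holds and the argument of `NBX` applies: so the statement assumes `w k0 ≠ 0` or use `nbx`-like chain; here `hk0 : w k0 ≠ 0`.
For given `M`, `lam`: `q` = the maximum of `a_{i k0}` over the exponents `i` on the face of `w`; `q ≥ 1` (otherwise the rank in `FacetNormal` is `≤ n - 1`, see P2 of `MUX`).  `H' = vec (q - L N) L (L w - e_{k0})` with `L` large: value `q - a_{i k0} + L (w·a_i - N)` at `(1,0;a_i)` (`≥ 0`, and `0` exactly for the `i` on the face with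
`a_{i k0} = q`), `L` at `(0,1;0)`, `L + M L w_j > 0` at `j ≠ k0`, `L + M (L w_{k0} - 1) > 0` at `k0`.  So the face of `H'` is `{inl i : i on the face, a_{i k0} = q}`, not empty, contained in the face of `h0`.  `mux`.
`μ_{k0} ≥ 2`: if `q ≥ 2`: `A (i 0)_{k0} = q` and all other coordinates are `≥ 0`.  If `q = 1`: by `hB1` (`w_{k0} ≠ 0`, an exponent `i1` with `a_{i1 k0} = 1` on the face exists) there is another exponent `i2 ≠ i1` on the face with `a_{i2 k0} ≠ 0`, so `= 1`; `a i1 ≠ a i2` (injective), so `1 ≤ j0` and `A (i 0)_{k0} = A (i 1)_{k0} = 1`.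
For `k ≠ k0` with `∃ i, a i k = 0`: `hex` and the last two conclusions of `mux` give `μ_k ≥ 2`.  Rays as in `NBX`: `v = e_k`, `∃ i, a i k = 0`, `μ_k ≥ 2`.
-/

set_option autoImplicit false

namespace Pool.Agent.H56.SMC

open Finset AddMonoidAlgebra

/-- Two independent functionals vanish on a set: the span has codimension at least two. -/
theorem onex_rank {n : ℕ} (A : Set (Unit ⊕ Fin n → ℝ)) (N : ℝ) (hN : N ≠ 0) (w : Fin n → ℝ)
    (k : Fin n) (h1 : ∀ y ∈ A, -(N * y (Sum.inl ())) + ∑ j, w j * y (Sum.inr j) = 0)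
    (h2 : ∀ y ∈ A, y (Sum.inr k) = 0) :
    Module.finrank ℝ (Submodule.span ℝ A) + 1 ≤ n := by
  classical
  let f1 : (Unit ⊕ Fin n → ℝ) →ₗ[ℝ] ℝ :=
    -(N • LinearMap.proj (Sum.inl ())) + ∑ j, w j • LinearMap.proj (Sum.inr j)
  have hf1 : ∀ y, f1 y = -(N * y (Sum.inl ())) + ∑ j, w j * y (Sum.inr j) := by
    intro y
    simp [f1, LinearMap.sum_apply]
  let f : (Unit ⊕ Fin n → ℝ) →ₗ[ℝ] (ℝ × ℝ) := f1.prod (LinearMap.proj (Sum.inr k))
  have hf : Function.Surjective f := by
    rintro ⟨p, q⟩
    refine ⟨Sum.elim (fun _ => (w k * q - p) / N) (Pi.single k q), ?_⟩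
    have e1 : f1 (Sum.elim (fun _ => (w k * q - p) / N) (Pi.single k q)) = p := by
      rw [hf1]
      simp only [Sum.elim_inl, Sum.elim_inr]
      rw [Finset.sum_eq_single k]
      · rw [Pi.single_eq_same]
        field_simp
        ring
      · intro j _ hj
        rw [Pi.single_eq_of_ne hj, mul_zero]
      · intro h
        exact absurd (mem_univ k) h
    have e2 : (LinearMap.proj (Sum.inr k) : (Unit ⊕ Fin n → ℝ) →ₗ[ℝ] ℝ)
        (Sum.elim (fun _ => (w k * q - p) / N) (Pi.single k q)) = q := by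
      simp
    exact Prod.ext e1 e2
  have hle : Submodule.span ℝ A ≤ LinearMap.ker f := by
    rw [Submodule.span_le]
    intro y hy
    have e1 : f1 y = 0 := by rw [hf1]; exact h1 y hy
    have e2 : (LinearMap.proj (Sum.inr k) : (Unit ⊕ Fin n → ℝ) →ₗ[ℝ] ℝ) y = 0 := h2 y hy
    exact Prod.ext e1 e2
  have h3 := Submodule.finrank_mono hle
  have h4 := LinearMap.finrank_range_add_finrank_ker f
  rw [LinearMap.range_eq_top.2 hf, finrank_top] at h4
  simp at h4
  omega

/-- ONEX -/
theorem onex {n r : ℕ} (a : Fin r → (Fin n →₀ ℕ)) (ha : Function.Injective a) (κ : Fin r → ℂ)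
    (hnd : Nondeg a κ) (b : Polynomial ℂ) (P : H22.WeylS n)
    (hfe : H22.FunctionalEquation (fpoly a κ) b P) (w : Fin n → ℕ) (hw : FacetNormal a w)
    (hN : 0 < H22.wmin a w) (k0 : Fin n) (hk0 : w k0 ≠ 0) (hB1 : ¬ B1 a w k0)
    (hex : NoB1Except a w k0) :
    b.IsRoot (-(H22.wsum w : ℂ) / (H22.wmin a w : ℂ)) := by
  classical
  refine appc a κ hnd b P hfe w hw hN (Fin.elim0 : Fin 0 → Fin n → ℤ) (fun k => k.elim0) ?_
  intro M hM lam hlam
  -- minimum attained
  have hmin : ∀ i, H22.wmin a w ≤ ∑ j, a i j * w j := by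
    intro i
    exact ciInf_le ⟨0, fun x hx => Nat.zero_le x⟩ i
  have hr : Nonempty (Fin r) := by
    rcases isEmpty_or_nonempty (Fin r) with hr | hr
    · exfalso
      have : H22.wmin a w = 0 := by
        unfold H22.wmin
        exact Nat.iInf_of_empty _
      omega
    · exact hr
  -- an exponent on the face with a nonzero coordinate
  have hface : ∃ i, ∑ j, a i j * w j = H22.wmin a w ∧ a i k0 ≠ 0 := by
    by_contra hcon
    push Not at hcon
    have hle := onex_rank ({y | ∃ i, ∑ j, a i j * w j = H22.wmin a w ∧ y = H22.rowR a i} ∪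
      {y | ∃ j, w j = 0 ∧ y = Sum.elim (fun _ => 0) (Pi.single j 1)} :
        Set (Unit ⊕ Fin n → ℝ)) (H22.wmin a w : ℝ) (by
          have : (0 : ℝ) < H22.wmin a w := by exact_mod_cast hN
          exact this.ne') (fun j => (w j : ℝ)) k0 (by
          rintro y (⟨i, hi, rfl⟩ | ⟨j, hj, rfl⟩)
          · simp only [H22.rowR, Sum.elim_inl, Sum.elim_inr]
            have : ((∑ j, a i j * w j : ℕ) : ℝ) = H22.wmin a w := by exact_mod_cast hi
            push_cast at this
            rw [← this]
            have e : ∑ j, (w j : ℝ) * (a i j : ℝ) = ∑ j, (a i j : ℝ) * (w j : ℝ) :=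
              sum_congr rfl fun j _ => mul_comm _ _
            rw [e]
            ring
          · simp only [Sum.elim_inl, Sum.elim_inr]
            rw [Finset.sum_eq_single j]
            · simp [hj]
            · intro j' _ hj'
              rw [Pi.single_eq_of_ne hj', mul_zero]
            · intro h
              exact absurd (mem_univ j) h) (by
          rintro y (⟨i, hi, rfl⟩ | ⟨j, hj, rfl⟩)
          · simp [H22.rowR, hcon i hi]
          · have : k0 ≠ j := fun h => hk0 (h ▸ hj)
            simp [this])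
    rw [hw.2] at hle
    omega
  -- the maximum q
  obtain ⟨i0, hi0, hi0k⟩ := hface
  obtain ⟨im, him, hmax⟩ := Finset.exists_max_image
    (univ.filter (fun i => ∑ j, a i j * w j = H22.wmin a w)) (fun i => a i k0)
    ⟨i0, by simp [hi0]⟩
  set q : ℕ := a im k0 with hq
  have him' : ∑ j, a im j * w j = H22.wmin a w := (mem_filter.1 him).2
  have hmax' : ∀ i, ∑ j, a i j * w j = H22.wmin a w → a i k0 ≤ q := fun i hi =>
    hmax i (mem_filter.2 ⟨mem_univ _, hi⟩)
  have hq1 : 1 ≤ q := by
    have := hmax' i0 hi0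
    omega
  -- L
  set L : ℤ := 1 + ∑ i, (a i k0 : ℤ) with hL
  have hLle : ∀ i, (a i k0 : ℤ) + 1 ≤ L := by
    intro i
    have : (a i k0 : ℤ) ≤ ∑ i, (a i k0 : ℤ) :=
      Finset.single_le_sum (f := fun i => (a i k0 : ℤ)) (fun i _ => Int.natCast_nonneg _)
        (mem_univ i)
    omega
  have hL1 : 1 ≤ L := by
    have := hLle im
    have h0 : (0 : ℤ) ≤ (a im k0 : ℤ) := Int.natCast_nonneg _
    omega
  set H' : Lat (n + 2) := vec ((q : ℤ) - L * H22.wmin a w) L (fun j => L * w j - ev k0 j)
    with hH'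
  have hev : ∀ x : Fin n → ℤ, ∑ j, ev k0 j * x j = x k0 := by
    intro x
    have := dt_ev k0 x
    simpa [dt] using this
  -- values
  have hvl : ∀ i, dt H' (cA a (bbM (Fin.elim0 : Fin 0 → Lat n) M) (Sum.inl i)) =
      ((q : ℤ) - a i k0) + L * ((∑ j, a i j * w j : ℕ) - H22.wmin a w) := by
    intro i
    rw [hH']
    simp only [cA]
    rw [dt_vec]
    have e : ∑ j, (L * (w j : ℤ) - ev k0 j) * (a i j : ℤ) =
        L * (∑ j, a i j * w j : ℕ) - (a i k0 : ℤ) := by
      simp only [sub_mul, sum_sub_distrib]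
      rw [hev (fun j => (a i j : ℤ))]
      push_cast
      rw [mul_sum]
      congr 1
      exact sum_congr rfl fun j _ => by ring
    rw [e]
    ring
  have hvn : dt H' (cA a (bbM (Fin.elim0 : Fin 0 → Lat n) M) (Sum.inr (Sum.inl none))) = L := by
    rw [hH']
    simp only [cA, bbM]
    rw [dt_vec]
    simp
  have hvs : ∀ j, dt H' (cA a (bbM (Fin.elim0 : Fin 0 → Lat n) M) (Sum.inr (Sum.inl (some j)))) =
      L + M * (L * w j - ev k0 j) := by
    intro j
    rw [hH']
    simp only [cA, bbM]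
    rw [dt_vec]
    have e : ∑ j', (L * (w j' : ℤ) - ev k0 j') * (M • (ev j : Lat n)) j' =
        M * (L * w j - ev k0 j) := by
      have h1 : ∀ x : Fin n → ℤ, ∑ j', x j' * (M • (ev j : Lat n)) j' = M * x j := by
        intro x
        have := dt_ev j x
        simp only [dt] at this
        rw [← this, mul_sum]
        refine sum_congr rfl fun j' _ => ?_
        simp only [Pi.smul_apply, smul_eq_mul]
        ring
      exact h1 (fun j' => L * (w j' : ℤ) - ev k0 j')
    rw [e]
    ring
  have hvs0 : ∀ j, 0 < L + M * (L * w j - ev k0 j) := by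
    intro j
    have hge : 0 ≤ L * (w j : ℤ) - ev k0 j := by
      by_cases hj : j = k0
      · subst hj
        have : (1 : ℤ) ≤ w j := by
          have := Nat.pos_of_ne_zero hk0
          exact_mod_cast this
        simp only [ev, Pi.single_eq_same]
        nlinarith
      · simp only [ev, Pi.single_eq_of_ne hj, sub_zero]
        positivity
    have := mul_nonneg (by linarith : (0 : ℤ) ≤ M) hge
    linarith
  -- zero set
  have hzero : ∀ i, dt H' (cA a (bbM (Fin.elim0 : Fin 0 → Lat n) M) i) = 0 →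
      ∃ i', i = Sum.inl i' ∧ ∑ j, a i' j * w j = H22.wmin a w ∧ a i' k0 = q := by
    rintro (i | (_ | j) | k) hi
    · rw [hvl] at hi
      refine ⟨i, rfl, ?_⟩
      by_cases hf : ∑ j, a i j * w j = H22.wmin a w
      · refine ⟨hf, ?_⟩
        rw [hf] at hi
        simp at hi
        omega
      · exfalso
        have h1 : (1 : ℤ) ≤ ((∑ j, a i j * w j : ℕ) : ℤ) - H22.wmin a w := by
          have := hmin i
          omega
        have h2 := hLle i
        have h3 : L * 1 ≤ L * (((∑ j, a i j * w j : ℕ) : ℤ) - H22.wmin a w) :=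
          mul_le_mul_of_nonneg_left h1 (by linarith)
        have h4 : (0 : ℤ) ≤ q := Int.natCast_nonneg _
        linarith
    · rw [hvn] at hi
      omega
    · rw [hvs] at hi
      have := hvs0 j
      omega
    · exact k.elim0
  have hnonneg : ∀ i, 0 ≤ dt H' (cA a (bbM (Fin.elim0 : Fin 0 → Lat n) M) i) := by
    rintro (i | (_ | j) | k)
    · rw [hvl]
      by_cases hf : ∑ j, a i j * w j = H22.wmin a w
      · have := hmax' i hf
        rw [hf]
        simp
        exact this
      · have h1 : (1 : ℤ) ≤ ((∑ j, a i j * w j : ℕ) : ℤ) - H22.wmin a w := by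
          have := hmin i
          omega
        have h2 := hLle i
        have h3 : L * 1 ≤ L * (((∑ j, a i j * w j : ℕ) : ℤ) - H22.wmin a w) :=
          mul_le_mul_of_nonneg_left h1 (by linarith)
        have h4 : (0 : ℤ) ≤ q := Int.natCast_nonneg _
        linarith
    · rw [hvn]
      omega
    · rw [hvs]
      exact (hvs0 j).le
    · exact k.elim0
  have hface0 : ∀ i, ∑ j, a i j * w j = H22.wmin a w → a i k0 = q →
      dt H' (cA a (bbM (Fin.elim0 : Fin 0 → Lat n) M) (Sum.inl i)) = 0 := by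
    intro i hi hiq
    rw [hvl, hi, hiq]
    ring
  obtain ⟨μ, i, j0, hj0n, hμ, hin, hOm', hj0, hpos, hOm, hNot, hg1, hg2⟩ :=
    mux a κ hnd w hw hN M hM lam hlam H' hnonneg ⟨Sum.inl im, hface0 im him' rfl⟩ (by
      intro i hi
      obtain ⟨i', rfl, hi', -⟩ := hzero i hi
      simp only [cA]
      rw [dt_vec]
      have e : ∑ j, (w j : ℤ) * (a i' j : ℤ) = (H22.wmin a w : ℤ) := by
        rw [← hi']
        push_cast
        exact sum_congr rfl fun j _ => mul_comm _ _
      rw [e]
      ring)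
  refine ⟨μ, hOm, hNot, ?_⟩
  intro v hv hg
  refine ⟨?_, fun ⟨k, _⟩ => k.elim0⟩
  intro h0
  obtain ⟨k, rfl, hk⟩ := rayz a v hv hg h0
  have hs : H22.wsum (Pi.single k 1 : Fin n → ℕ) = 1 := by
    simp [H22.wsum]
  have hdt : dt (vec (-(H22.wmin a (Pi.single k 1 : Fin n → ℕ) : ℤ)) 0
      (fun j => (((Pi.single k 1 : Fin n → ℕ) j : ℕ) : ℤ))) μ = μ (Fin.succ (Fin.succ k)) := by
    rw [h0]
    conv_lhs => rw [vec_surj μ]
    rw [dt_vec]
    have e : ∑ j, (((Pi.single k 1 : Fin n → ℕ) j : ℕ) : ℤ) * μ j.succ.succ =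
        μ k.succ.succ := by
      rw [Finset.sum_eq_single k]
      · rw [Pi.single_eq_same]; simp
      · intro j _ hj
        rw [Pi.single_eq_of_ne hj]; simp
      · intro h
        exact absurd (mem_univ k) h
    rw [e]
    simp
  rw [hs, hdt]
  -- the coordinates are at least two
  suffices h2 : 2 ≤ μ (Fin.succ (Fin.succ k)) by
    push_cast
    linarith
  by_cases hkk : k = k0
  · subst hkk
    have hval : ∀ l, l ≤ j0 →
        (cA a (bbM (Fin.elim0 : Fin 0 → Lat n) M) (i l)) (Fin.succ (Fin.succ k)) = q := by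
      intro l hl
      obtain ⟨i', hi', -, hiq⟩ := hzero _ (hin l hl)
      rw [hi', ← hiq]
      simp [cA, vec]
    have hμk : μ (Fin.succ (Fin.succ k)) = ∑ l ∈ range (n + 1),
        (cA a (bbM (Fin.elim0 : Fin 0 → Lat n) M) (i l)) (Fin.succ (Fin.succ k)) := by
      rw [hμ, Finset.sum_apply]
    have hge : ∑ l ∈ range (j0 + 1),
        (cA a (bbM (Fin.elim0 : Fin 0 → Lat n) M) (i l)) (Fin.succ (Fin.succ k)) ≤
        ∑ l ∈ range (n + 1),
        (cA a (bbM (Fin.elim0 : Fin 0 → Lat n) M) (i l)) (Fin.succ (Fin.succ k)) := by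
      refine Finset.sum_le_sum_of_subset_of_nonneg ?_ (fun l _ _ => hpos l k)
      exact Finset.range_mono (by omega)
    have hsum : ∑ l ∈ range (j0 + 1),
        (cA a (bbM (Fin.elim0 : Fin 0 → Lat n) M) (i l)) (Fin.succ (Fin.succ k)) =
        ((j0 : ℤ) + 1) * q := by
      rw [Finset.sum_congr rfl (fun l hl => hval l (by
        have := Finset.mem_range.1 hl
        omega))]
      simp
    rw [hμk]
    refine le_trans ?_ hge
    rw [hsum]
    by_cases hq2 : 2 ≤ q
    · have : (2 : ℤ) ≤ q := by exact_mod_cast hq2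
      have h0 : (0 : ℤ) ≤ j0 := Int.natCast_nonneg _
      nlinarith
    · have hqe : q = 1 := by omega
      have hj01 : 1 ≤ j0 := by
        apply hj0
        -- a second exponent
        have hex2 : ∃ i2, ∑ j, a i2 j * w j = H22.wmin a w ∧ i2 ≠ im ∧ a i2 k ≠ 0 := by
          by_contra hcon
          push Not at hcon
          exact hB1 ⟨hk0, im, him', hqe ▸ hq.symm, fun i hi hne => hcon i hi hne⟩
        obtain ⟨i2, hi2, hne2, hi2k⟩ := hex2
        have hi2q : a i2 k = q := by
          have := hmax' i2 hi2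
          omega
        refine ⟨Sum.inl im, Sum.inl i2, hface0 im him' rfl, hface0 i2 hi2 hi2q, ?_⟩
        intro heq
        apply hne2
        apply ha
        ext j
        have := congrFun heq (Fin.succ (Fin.succ j))
        simp only [cA, vec, Fin.cons_succ] at this
        exact_mod_cast this.symm
      rw [hqe]
      have : (1 : ℤ) ≤ j0 := by exact_mod_cast hj01
      push_cast
      linarith
  · by_cases hwk : w k = 0
    · exact hg2 k hwk ((hex k hkk hk).2 hwk)
    · exact hg1 k hwk hk ((hex k hkk hk).1 hwk)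

end Pool.Agent.H56.SMC
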