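import Pool.Agent.H56.SMC.KD
import Pool.Agent.H56.SMC.CfgDefs

/-!
# TF: `H_0` has no `ε`-torsion (`ε = PowerSeries.X`)

Proof.  `X • x = ∑ D_j z_j`.  Reduce modulo `X` (`lmap PowerSeries.constantCoeff`, `lmap_Dop`): `∑ D̄_j z̄_j = 0`, so by `kd`
`z̄_j = ∑_k D̄_k ȳ_jk`.  Lift `y_jk = lmap PowerSeries.C ȳ_jk` (antisymmetric, supported in `S`).  All coefficients of
`w_j = z_j - ∑_k D_k y_jk` have constant coefficient `0`, so `w_j = X • z'_j` with `z'_j` supported in `S` (divide every coefficient by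
`X`, e.g. `PowerSeries.mk fun n => coeff (n+1)`).  `X • x = ∑ D_j w_j` (by `Dop_antisymm`) `= X • ∑ D_j z'_j`, and `X` is a
non-zero-divisor, so `x = ∑ D_j z'_j`.
-/

set_option autoImplicit false

namespace Pool.Agent.H56.SMC

open Finset AddMonoidAlgebra

/-- division of a power series by `X` (constant coefficient dropped) -/
noncomputable def tfq (φ : PA) : PA := PowerSeries.mk fun n => PowerSeries.coeff (n + 1) φ

theorem tfq_zero : tfq 0 = 0 := by
  ext n
  simp [tfq]

theorem tf_X_mul_tfq {φ : PA} (h : PowerSeries.constantCoeff φ = 0) :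
    (PowerSeries.X : PA) * tfq φ = φ := by
  have := PowerSeries.eq_X_mul_shift_add_const φ
  rw [h, map_zero, add_zero] at this
  exact this.symm

theorem tf_lmap_neg {R R' : Type} [CommRing R] [CommRing R'] {d : ℕ} (f : R →+* R') (x : LP R d) :
    lmap f (-x) = -lmap f x := by
  apply lp_ext
  intro u
  simp only [lmap_coeff, coeff_neg', map_neg]

/-- TF -/
theorem tf {d : ℕ} {ι : Type} [Fintype ι] (a : ι → Lat d) (c : ι → ℂ) (p : Fin d → PA)
    (S : Set (Lat d)) (δ : Lat d) (hδ : ∀ i, dt δ (a i) = 1) (C : ℤ) (hSδ : ∀ u ∈ S, C ≤ dt δ u)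
    (hS : ∀ u ∈ S, ∀ i, u + a i ∈ S) (hK : KExact a c S) (x : LP PA d)
    (h : Ex p a (fun i => PowerSeries.C (c i)) S ((PowerSeries.X : PA) • x)) :
    Ex p a (fun i => PowerSeries.C (c i)) S x := by
  classical
  obtain ⟨z, hz, hx⟩ := h
  obtain ⟨cc, hcc⟩ : ∃ cc : ι → PA, cc = fun i => PowerSeries.C (c i) := ⟨_, rfl⟩
  rw [← hcc] at hx ⊢
  obtain ⟨f, hf⟩ : ∃ f : PA →+* ℂ, f = PowerSeries.constantCoeff := ⟨_, rfl⟩
  have hfc : (fun i => f (cc i)) = c := by
    funext i
    rw [hf, hcc]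
    exact PowerSeries.constantCoeff_C _
  have h0 : ∑ j, Dop (fun j => f (p j)) a c (ev j) (lmap f (z j)) = 0 := by
    have h1 := congrArg (lmap f) hx
    rw [lmap_smul, lmap_sum] at h1
    simp only [lmap_Dop, hfc] at h1
    rw [← h1, hf, PowerSeries.constantCoeff_X, zero_smul]
  obtain ⟨yb, hybS, hyba, hyb⟩ := kd a c (fun j => f (p j)) S δ hδ C hSδ hS hK
    (fun j => lmap f (z j)) (fun j => (hz j).lmap f) h0
  let y : Fin d → Fin d → LP PA d := fun j k => lmap PowerSeries.C (yb j k)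
  have hyS : ∀ j k, Supp S (y j k) := fun j k => (hybS j k).lmap _
  have hya : ∀ j k, y j k = -y k j := by
    intro j k
    change lmap PowerSeries.C (yb j k) = -lmap PowerSeries.C (yb k j)
    rw [hyba j k, tf_lmap_neg]
  have hfy : ∀ j k, lmap f (y j k) = yb j k := by
    intro j k
    apply lp_ext
    intro u
    rw [lmap_coeff]
    change f (PowerSeries.C ((yb j k).coeff u)) = _
    rw [hf]
    exact PowerSeries.constantCoeff_C _
  let w : Fin d → LP PA d := fun j => z j - ∑ k, Dop p a cc (ev k) (y j k)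
  have hwS : ∀ j, Supp S (w j) := fun j =>
    (hz j).sub (Supp.sum _ fun k _ => (hyS j k).Dop p a cc _ (fun u hu i _ => hS u hu i))
  have hw0 : ∀ j u, PowerSeries.constantCoeff ((w j).coeff u) = 0 := by
    intro j u
    have h1 : lmap f (w j) = 0 := by
      change lmap f (z j - ∑ k, Dop p a cc (ev k) (y j k)) = 0
      rw [lmap_sub, lmap_sum]
      simp only [lmap_Dop, hfc, hfy]
      rw [← hyb j, sub_self]
    have h2 : (lmap f (w j)).coeff u = 0 := by rw [h1]; rfl
    rw [lmap_coeff, hf] at h2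
    exact h2
  let z' : Fin d → LP PA d := fun j => ofCoeff ((w j).coeff.mapRange tfq tfq_zero)
  have hz'c : ∀ j u, (z' j).coeff u = tfq ((w j).coeff u) := fun j u => rfl
  have hz'S : ∀ j, Supp S (z' j) := by
    intro j u hu
    apply hwS j u
    intro h1
    apply hu
    rw [hz'c, h1, tfq_zero]
  have hwz : ∀ j, w j = (PowerSeries.X : PA) • z' j := by
    intro j
    apply lp_ext
    intro u
    rw [coeff_smul', hz'c, tf_X_mul_tfq (hw0 j u)]
  refine ⟨z', hz'S, ?_⟩
  have h1 : (PowerSeries.X : PA) • x = (PowerSeries.X : PA) • ∑ j, Dop p a cc (ev j) (z' j) := by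
    rw [hx, Finset.smul_sum]
    have h2 : ∑ j, Dop p a cc (ev j) (z j) = ∑ j, Dop p a cc (ev j) (w j) := by
      have h3 : ∀ j, Dop p a cc (ev j) (z j) =
          Dop p a cc (ev j) (w j) + Dop p a cc (ev j) (∑ k, Dop p a cc (ev k) (y j k)) := by
        intro j
        rw [← Dop_add]
        congr 1
        change z j = z j - ∑ k, Dop p a cc (ev k) (y j k) + ∑ k, Dop p a cc (ev k) (y j k)
        rw [sub_add_cancel]
      rw [Finset.sum_congr rfl fun j _ => h3 j, Finset.sum_add_distrib,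
        Dop_antisymm p a cc lp_eq_neg_self y hya, add_zero]
    rw [h2]
    refine Finset.sum_congr rfl fun j _ => ?_
    rw [hwz j, Dop_smul]
  apply lp_ext
  intro u
  have h2 : ((PowerSeries.X : PA) • x).coeff u =
      ((PowerSeries.X : PA) • ∑ j, Dop p a cc (ev j) (z' j)).coeff u := by rw [h1]
  rw [coeff_smul', coeff_smul'] at h2
  exact mul_left_cancel₀ PowerSeries.X_ne_zero h2

end Pool.Agent.H56.SMC
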