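import Pool.Agent.H56.SMC.ZNA

/-!
# ZONE: no pole if all critical facets are pyramids of height one in one direction
-/

set_option autoImplicit false

namespace Pool.Agent.H56.SMC

open Finset AddMonoidAlgebra

/-- ZONE -/
theorem zone {n r : ℕ} (a : Fin r → (Fin n →₀ ℕ)) (ha : Function.Injective a) (k0 : Fin n)
    (hk0 : ∃ i, a i k0 = 0) (s0 : ℂ) (hs0 : s0 ≠ -1)
    (hcrit : ∀ w, FacetNormal a w → 0 < H22.wmin a w →
      s0 = -(H22.wsum w : ℂ) / (H22.wmin a w : ℂ) → B1 a w k0)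
    (𝒟 : ∀ τ, H22.FaceCones a τ) (𝒯 : ∀ τ, H22.FaceTriang a τ) :
    ¬ (H22.topZetaG a 𝒟 𝒯).denom.IsRoot s0 :=
  zone_local a ha s0 hs0 (fun _ => k0) (fun w hw => ⟨hk0, hcrit w hw.1 hw.2.1 hw.2.2⟩)
    (fun _ _ _ _ _ _ _ => rfl) 𝒟 𝒯

end Pool.Agent.H56.SMC
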