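import Pool.Agent.H56.SMC.NBX
import Pool.Agent.H56.SMC.ONEX
import Pool.Agent.H56.SMC.MAIN
import Pool.Agent.H56.SMC.ZONE

/-!
# UMAIN: assembly of the theorem with one exceptional direction
-/

set_option autoImplicit false

namespace Pool.Agent.H56.SMC

open Finset AddMonoidAlgebra

/-- The facets for which the root is proved. -/
def Root1 {n r : ℕ} (a : Fin r → (Fin n →₀ ℕ)) (w : Fin n → ℕ) : Prop :=
  Fine a w ∨ NoB1 a w ∨ ∃ k0, w k0 ≠ 0 ∧ ¬ B1 a w k0 ∧ NoB1Except a w k0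

theorem root1 {n r : ℕ} (a : Fin r → (Fin n →₀ ℕ)) (ha : Function.Injective a)
    (hne : ∃ i, a i ≠ 0) (κ : Fin r → ℂ) (hκ : ∀ i, κ i ≠ 0) (hnd : Nondeg a κ)
    (b : Polynomial ℂ) (P : H22.WeylS n) (hfe : H22.FunctionalEquation (fpoly a κ) b P)
    (w : Fin n → ℕ) (hw : FacetNormal a w) (hN : 0 < H22.wmin a w) (h1 : Root1 a w) :
    b.IsRoot (-(H22.wsum w : ℂ) / (H22.wmin a w : ℂ)) := by
  rcases h1 with hf | hnb | ⟨k0, hk0, hB, hex⟩
  · exact (main a ha hne κ hκ hnd b P hfe).1 w hw hN hf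
  · exact nbx a κ hnd b P hfe w hw hN hnb
  · exact onex a ha κ hnd b P hfe w hw hN k0 hk0 hB hex

/-- Every pole is a root if all critical facets but those of one exceptional direction are fine. -/
theorem umain {n r : ℕ} (a : Fin r → (Fin n →₀ ℕ)) (ha : Function.Injective a)
    (hne : ∃ i, a i ≠ 0) (κ : Fin r → ℂ) (hκ : ∀ i, κ i ≠ 0) (hnd : Nondeg a κ)
    (b : Polynomial ℂ) (P : H22.WeylS n) (hfe : H22.FunctionalEquation (fpoly a κ) b P)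
    (𝒟 : ∀ τ, H22.FaceCones a τ) (𝒯 : ∀ τ, H22.FaceTriang a τ) (s0 : ℂ)
    (hs : (H22.topZetaG a 𝒟 𝒯).denom.IsRoot s0) (k0 : Fin n)
    (hall : ∀ w, FacetNormal a w → 0 < H22.wmin a w →
      s0 = -(H22.wsum w : ℂ) / (H22.wmin a w : ℂ) → s0 ≠ -1 →
      Root1 a w ∨ ((∃ i, a i k0 = 0) ∧ B1 a w k0)) : b.IsRoot s0 := by
  by_contra hb
  have h1 : s0 ≠ -1 := by
    rintro rfl
    exact hb (bm1 a ha hne κ hκ b P hfe)
  have hcrit : ∀ w, FacetNormal a w → 0 < H22.wmin a w →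
      s0 = -(H22.wsum w : ℂ) / (H22.wmin a w : ℂ) → (∃ i, a i k0 = 0) ∧ B1 a w k0 := by
    intro w hw hN hs0
    rcases hall w hw hN hs0 h1 with h | h
    · exact absurd (hs0 ▸ root1 a ha hne κ hκ hnd b P hfe w hw hN h) hb
    · exact h
  rcases ztc a 𝒟 𝒯 s0 hs with h | ⟨w, hw, hN, hs0⟩
  · exact h1 h
  · exact zone a ha k0 (hcrit w hw hN hs0).1 s0 h1
      (fun w' hw' hN' hs' => (hcrit w' hw' hN' hs').2) 𝒟 𝒯 hs

/-- At most one bad index. -/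
theorem uone {n r : ℕ} (a : Fin r → (Fin n →₀ ℕ)) (ha : Function.Injective a)
    (hne : ∃ i, a i ≠ 0) (κ : Fin r → ℂ) (hκ : ∀ i, κ i ≠ 0) (hnd : Nondeg a κ)
    (b : Polynomial ℂ) (P : H22.WeylS n) (hfe : H22.FunctionalEquation (fpoly a κ) b P)
    (hone : ∀ k k', Bad a k → Bad a k' → k = k')
    (𝒟 : ∀ τ, H22.FaceCones a τ) (𝒯 : ∀ τ, H22.FaceTriang a τ) (s0 : ℂ)
    (hs : (H22.topZetaG a 𝒟 𝒯).denom.IsRoot s0) : b.IsRoot s0 := by
  by_cases hbad : ∃ k0, Bad a k0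
  · obtain ⟨k0, hk0⟩ := hbad
    refine umain a ha hne κ hκ hnd b P hfe 𝒟 𝒯 s0 hs k0 (fun w hw hN _ _ => ?_)
    have hnot : ∀ k, k ≠ k0 → (∃ i, a i k = 0) → ∀ i, a i k ≠ 1 := by
      intro k hk h0 i hi
      exact hk (hone k k0 ⟨h0, i, hi⟩ hk0)
    have hex : NoB1Except a w k0 := by
      intro k hk h0
      exact ⟨fun _ hB => by obtain ⟨_, i, _, hi⟩ := hB; exact hnot k hk h0 i hi,
        fun _ i _ => hnot k hk h0 i⟩
    by_cases hwk : w k0 = 0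
    · left; right; left
      intro k hk h0 hB
      by_cases hkk : k = k0
      · exact hk (hkk ▸ hwk)
      · obtain ⟨_, i, _, hi⟩ := hB
        exact hnot k hkk h0 i hi
    · by_cases hB : B1 a w k0
      · exact Or.inr ⟨hk0.1, hB⟩
      · exact Or.inl (Or.inr (Or.inr ⟨k0, hwk, hB, hex⟩))
  · by_contra hb
    have h1 : s0 ≠ -1 := by
      rintro rfl
      exact hb (bm1 a ha hne κ hκ b P hfe)
    rcases ztc a 𝒟 𝒯 s0 hs with h | ⟨w, hw, hN, hs0⟩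
    · exact h1 h
    · apply hb
      rw [hs0]
      refine root1 a ha hne κ hκ hnd b P hfe w hw hN (Or.inr (Or.inl ?_))
      intro k _ h0 hB
      obtain ⟨_, i, _, hi⟩ := hB
      exact hbad ⟨k, h0, i, hi⟩

end Pool.Agent.H56.SMC
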