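import Pool.Agent.H56.SMC.ZNDefs

/-!
# ZNH: heights

Proof.  Take generic heights `h` (`H60.RegTri.exists_generic`) and put `hp i = hm i = h i` for `i ≠ e`, `hp e = H`, `hm e = -H` with `H` large.  For an independent `σ` and `l ∉ σ` with `v l ∈ span (v '' σ)` the coefficients `β i`, `i ∈ σ`, are unique (`coeff_unique`), and there are finitely many pairs `(σ, l)`; each of the
conditions below is a strict inequality which holds for `H` larger than a bound depending on `(σ, l, β)`: `top`: `H > ∑ β_i h_i`; `bot`: `-H < ∑ β_i h_i`; `topl`: `β_e H > h_l - ∑_{i ≠ e} β_i h_i` (`β_e > 0`); `botl`: `β_e (-H) = |β_e| H > h_l - ∑_{i≠e}`.  Genericity of `hp` for `(σ, l)`: if `l = e`: by `top`; if `e ∉ σ`, `l ≠ e`: genericity of `h`;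
if `e ∈ σ` and `β_e = 0`: genericity of `h` for `σ.erase e`; if `β_e > 0`: `topl`; if `β_e < 0`: the same with the opposite inequality for `H` large.  The same for `hm`.
-/

set_option autoImplicit false

namespace Pool.Agent.H56.SMC

open Finset H60.RegTri

/-- A common bound for the finitely many bad pairs. -/
theorem ZNH_bound {ι κ : Type*} [Fintype ι] [DecidableEq ι] (v : ι → κ → ℝ)
    (e : ι) (h : ι → ℝ) : ∃ H : ℝ, 0 < H ∧ ∀ σ : Finset ι, LinearIndepOn ℝ v (σ : Set ι) →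
      ∀ l, l ∉ σ → ∀ β : ι → ℝ, v l = ∑ i ∈ σ, β i • v i →
        |∑ i ∈ σ.erase e, β i * h i| < H ∧
        (e ∈ σ → β e ≠ 0 → |∑ i ∈ σ.erase e, β i * h i - h l| < H * |β e|) := by
  classical
  let Bad : Finset ι × ι → Prop := fun p => LinearIndepOn ℝ v (p.1 : Set ι) ∧ p.2 ∉ p.1 ∧
    ∃ β : ι → ℝ, v p.2 = ∑ i ∈ p.1, β i • v i
  have hex : ∀ p : {p // Bad p}, ∃ β : ι → ℝ, v p.1.2 = ∑ i ∈ p.1.1, β i • v i := fun p => p.2.2.2
  choose β₀ hβ₀ using hex
  let B1 : {p // Bad p} → ℝ := fun p => |∑ i ∈ p.1.1.erase e, β₀ p i * h i|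
  let B2 : {p // Bad p} → ℝ := fun p => |∑ i ∈ p.1.1.erase e, β₀ p i * h i - h p.1.2| / |β₀ p e|
  have hB1 : ∀ p, 0 ≤ B1 p := fun p => abs_nonneg _
  have hB2 : ∀ p, 0 ≤ B2 p := fun p => div_nonneg (abs_nonneg _) (abs_nonneg _)
  refine ⟨1 + ∑ p, (B1 p + B2 p), ?_, ?_⟩
  · have : 0 ≤ ∑ p, (B1 p + B2 p) := Finset.sum_nonneg fun p _ => add_nonneg (hB1 p) (hB2 p)
    linarith
  · intro σ hσ l hl β hβ
    have hbad : Bad (σ, l) := ⟨hσ, hl, β, hβ⟩
    let p : {p // Bad p} := ⟨(σ, l), hbad⟩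
    have hco : ∀ i ∈ σ, β₀ p i = β i :=
      coeff_unique v σ hσ _ _ (by rw [← hβ₀ p, ← hβ])
    have hle : B1 p + B2 p ≤ ∑ p, (B1 p + B2 p) :=
      Finset.single_le_sum (f := fun p => B1 p + B2 p)
        (fun p _ => add_nonneg (hB1 p) (hB2 p)) (Finset.mem_univ p)
    have hsum : ∑ i ∈ σ.erase e, β₀ p i * h i = ∑ i ∈ σ.erase e, β i * h i :=
      Finset.sum_congr rfl fun i hi => by rw [hco i (Finset.mem_of_mem_erase hi)]
    have e1 : B1 p = |∑ i ∈ σ.erase e, β i * h i| := by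
      change |∑ i ∈ σ.erase e, β₀ p i * h i| = _
      rw [hsum]
    refine ⟨?_, ?_⟩
    · rw [← e1]
      have := hB2 p
      linarith
    · intro he hne
      have e2 : B2 p = |∑ i ∈ σ.erase e, β i * h i - h l| / |β e| := by
        change |∑ i ∈ σ.erase e, β₀ p i * h i - h l| / |β₀ p e| = _
        rw [hsum, hco e he]
      have hpos : 0 < |β e| := abs_pos.mpr hne
      rw [← div_lt_iff₀ hpos, ← e2]
      have := hB1 p
      linarith

theorem ZNH_sum_mem {ι : Type*} [DecidableEq ι] (e : ι) (h : ι → ℝ) (x : ℝ)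
    (σ : Finset ι) (β : ι → ℝ) (he : e ∈ σ) :
    ∑ i ∈ σ, β i * Function.update h e x i = β e * x + ∑ i ∈ σ.erase e, β i * h i := by
  rw [← Finset.add_sum_erase σ _ he, Function.update_self]
  congr 1
  refine Finset.sum_congr rfl fun i hi => ?_
  rw [Function.update_of_ne (Finset.ne_of_mem_erase hi)]

theorem ZNH_sum_notMem {ι : Type*} [DecidableEq ι] (e : ι) (h : ι → ℝ) (x : ℝ)
    (σ : Finset ι) (β : ι → ℝ) (he : e ∉ σ) :
    ∑ i ∈ σ, β i * Function.update h e x i = ∑ i ∈ σ, β i * h i := by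
  refine Finset.sum_congr rfl fun i hi => ?_
  have hne : i ≠ e := fun hh => he (by rw [← hh]; exact hi)
  rw [Function.update_of_ne hne]

theorem ZNH_generic {ι κ : Type*} [Fintype ι] [DecidableEq ι] (v : ι → κ → ℝ)
    (e : ι) (h : ι → ℝ) (hg : ∀ τ, GenericOn v h τ) (H : ℝ)
    (hH : ∀ σ : Finset ι, LinearIndepOn ℝ v (σ : Set ι) →
      ∀ l, l ∉ σ → ∀ β : ι → ℝ, v l = ∑ i ∈ σ, β i • v i →
        |∑ i ∈ σ.erase e, β i * h i| < H ∧
        (e ∈ σ → β e ≠ 0 → |∑ i ∈ σ.erase e, β i * h i - h l| < H * |β e|))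
    (x : ℝ) (hx : |x| = H) (τ : Finset ι) : GenericOn v (Function.update h e x) τ := by
  intro σ hστ hσ l hlτ hl β hβ heq
  obtain ⟨h1, h2⟩ := hH σ hσ l hl β hβ
  by_cases hle : l = e
  · subst hle
    rw [Function.update_self, ZNH_sum_notMem l h x σ β hl] at heq
    rw [Finset.erase_eq_of_notMem hl, ← heq, hx] at h1
    exact lt_irrefl _ h1
  · rw [Function.update_of_ne hle] at heq
    by_cases he : e ∈ σ
    · rw [ZNH_sum_mem e h x σ β he] at heq
      by_cases hb : β e = 0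
      · refine hg τ (σ.erase e) ((Finset.erase_subset _ _).trans hστ)
          (hσ.mono (by exact_mod_cast Finset.erase_subset e σ)) l hlτ
          (fun hh => hl (Finset.mem_of_mem_erase hh)) β ?_ ?_
        · rw [hβ, ← Finset.add_sum_erase σ _ he, hb, zero_smul, zero_add]
        · rw [heq, hb, zero_mul, zero_add]
      · have h3 := h2 he hb
        have h4 : ∑ i ∈ σ.erase e, β i * h i - h l = - (β e * x) := by rw [heq]; ring
        rw [h4, abs_neg, abs_mul, hx, mul_comm] at h3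
        exact lt_irrefl _ h3
    · rw [ZNH_sum_notMem e h x σ β he] at heq
      exact hg τ σ hστ hσ l hlτ hl β hβ heq

/-- ZNH -/
theorem exists_topBot {ι κ : Type*} [Fintype ι] [DecidableEq ι] [Fintype κ] (v : ι → κ → ℝ)
    (e : ι) : ∃ hp hm : ι → ℝ, TopBot v e hp hm := by
  obtain ⟨h, hg⟩ := exists_generic v
  obtain ⟨H, hH0, hH⟩ := ZNH_bound v e h
  refine ⟨Function.update h e H, Function.update h e (-H), ?_, ?_, ?_, ?_, ?_, ?_, ?_⟩
  · intro i hi
    rw [Function.update_of_ne hi, Function.update_of_ne hi]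
  · exact ZNH_generic v e h hg H hH H (abs_of_pos hH0)
  · exact ZNH_generic v e h hg H hH (-H) (by rw [abs_neg, abs_of_pos hH0])
  · intro σ he hσ β hβ
    rw [Function.update_self, ZNH_sum_notMem e h H σ β he]
    have h1 := (hH σ hσ e he β hβ).1
    rw [Finset.erase_eq_of_notMem he] at h1
    exact (abs_lt.mp h1).2
  · intro σ he hσ β hβ
    rw [Function.update_self, ZNH_sum_notMem e h (-H) σ β he]
    have h1 := (hH σ hσ e he β hβ).1
    rw [Finset.erase_eq_of_notMem he] at h1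
    exact (abs_lt.mp h1).1
  · intro σ he hσ l hl β hβ hpos
    have hle : l ≠ e := fun hh => hl (hh ▸ he)
    rw [Function.update_of_ne hle, ZNH_sum_mem e h H σ β he]
    have h1 := (hH σ hσ l hl β hβ).2 he hpos.ne'
    rw [abs_of_pos hpos] at h1
    have h2 := (abs_lt.mp h1).1
    nlinarith
  · intro σ he hσ l hl β hβ hneg
    have hle : l ≠ e := fun hh => hl (hh ▸ he)
    rw [Function.update_of_ne hle, ZNH_sum_mem e h (-H) σ β he]
    have h1 := (hH σ hσ l hl β hβ).2 he hneg.ne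
    rw [abs_of_neg hneg] at h1
    have h2 := (abs_lt.mp h1).1
    nlinarith

end Pool.Agent.H56.SMC
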