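import Pool.Agent.H56.SMC.ZNDefs
import Pool.Agent.H60.ConeExist

/-!
# ZNJ: the upper simplices of `D_τ`

Proof.  `upT_span`: `σ` is independent with `n + 1 - faceRank a τ` elements in `D_τ`, and `span D_τ` has at most this dimension (`H60.ConeExist.finrank_span_minCone_le`), so the spans agree.
`upT_cover`: `cover_upper` (with `ℓ = ∑ proj`, positive on `R` since facet normals are nonzero) for `raysIn a R τ` and `k` (in `cCone` by `hR.gen`) gives `σ'` upper with `k ∈ cCone σ'` whose span contains all rays of `D_τ`, hence `σ` (independent with `n + 1 - faceRank a τ` elements), so `σ'` has at least, and by `finrank_span_minCone_le` at most, this number of elements.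
-/

set_option autoImplicit false

namespace Pool.Agent.H56.SMC

open Finset H60.RegTri

theorem znj_span_le {n r : ℕ} (a : Fin r → (Fin n →₀ ℕ)) (R : Finset (Fin n → ℕ))
    (τ : Finset (Fin r)) (σ : Finset R) (hσ : σ ⊆ raysIn a R τ) :
    Submodule.span ℝ (rv R '' (σ : Set R)) ≤ Submodule.span ℝ (H22.minCone a τ) := by
  apply Submodule.span_mono
  rintro _ ⟨w, hw, rfl⟩
  exact mem_raysIn.1 (hσ hw)

/-- a simplex with the right number of elements spans -/
theorem upT_span {n r : ℕ} (a : Fin r → (Fin n →₀ ℕ)) (R : Finset (Fin n → ℕ))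
    (τ : Finset (Fin r)) (hτ : τ.Nonempty) (σ : Finset R) (hσ : σ ⊆ raysIn a R τ)
    (hind : LinearIndepOn ℝ (rv R) (σ : Set R)) (hcard : σ.card = n + 1 - H22.faceRank a τ)
    (k : Fin n → ℝ) (hk : k ∈ H22.minCone a τ) :
    k ∈ Submodule.span ℝ (rv R '' (σ : Set R)) := by
  classical
  have h1 := znj_span_le a R τ σ hσ
  have h2 := H60.ConeExist.finrank_span_minCone_le a τ hτ
  have h3 := H60.ConeExist.card_eq_finrank (rv R) σ hind
  have h4 := Submodule.eq_of_le_of_finrank_le h1 (by rw [← h3, hcard]; exact h2)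
  rw [h4]
  exact Submodule.subset_span hk

/-- the upper simplices cover `D_τ` -/
theorem upT_cover {n r : ℕ} (a : Fin r → (Fin n →₀ ℕ)) (R : Finset (Fin n → ℕ))
    (hR : RaySet a R) (h : R → ℝ) (hh : ∀ τ, GenericOn (rv R) h τ) (τ : Finset (Fin r))
    (hτ : τ.Nonempty) (σ : Finset R) (hσ : σ ⊆ raysIn a R τ)
    (hind : LinearIndepOn ℝ (rv R) (σ : Set R)) (hcard : σ.card = n + 1 - H22.faceRank a τ)
    (k : Fin n → ℝ) (hk : k ∈ H22.minCone a τ) :
    ∃ σ' ∈ upT R h (raysIn a R τ) (n + 1 - H22.faceRank a τ), k ∈ cCone (rv R) σ' := by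
  classical
  let ℓ : (Fin n → ℝ) →ₗ[ℝ] ℝ := ∑ j, LinearMap.proj j
  have hℓe : ∀ y, ℓ y = ∑ j, y j := by
    intro y
    simp [ℓ, LinearMap.sum_apply]
  have hℓ : ∀ w ∈ raysIn a R τ, 0 < ℓ (rv R w) := by
    intro w _
    rw [hℓe]
    have hw0 := (hR.facet w.1 w.2).1
    obtain ⟨j, hj⟩ : ∃ j, w.1 j ≠ 0 := by
      by_contra hall
      push Not at hall
      exact hw0 (funext hall)
    refine sum_pos' (fun i _ => ?_) ⟨j, mem_univ _, ?_⟩
    · simp [rv, H22.toReal]
    · simp only [rv, H22.toReal]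
      exact_mod_cast Nat.pos_of_ne_zero hj
  obtain ⟨σ', hup, hsp, hkσ⟩ := cover_upper (rv R) h (raysIn a R τ) ℓ hℓ (hh _) k
    (hR.gen τ hτ k hk)
  refine ⟨σ', ?_, hkσ⟩
  rw [mem_upT]
  refine ⟨hup, ?_⟩
  have h2 := H60.ConeExist.finrank_span_minCone_le a τ hτ
  have h3 := H60.ConeExist.card_eq_finrank (rv R) σ hind
  have h4 := H60.ConeExist.card_eq_finrank (rv R) σ' hup.2.1
  have h5 : Submodule.span ℝ (rv R '' (σ : Set R)) ≤ Submodule.span ℝ (rv R '' (σ' : Set R)) := by
    rw [Submodule.span_le]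
    rintro _ ⟨w, hw, rfl⟩
    exact hsp w (hσ hw)
  have h6 := Submodule.finrank_mono h5
  have h7 := Submodule.finrank_mono (znj_span_le a R τ σ' hup.1)
  omega

end Pool.Agent.H56.SMC
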