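import Pool.Agent.H56.SMC.ZNDefs

/-!
# ZNP: lower and upper points

Proof.  `low_mem`: otherwise `v e = ∑_{σ} β_i v_i` (span), `UpperOn` gives `hp e < ∑ β_i hp_i`, against `top`.
`low_pt`: let `x = ∑_{i ∈ σ.erase e} v i` and suppose `x - ε v_e ∈ cCone v G`.  `cover_upper` gives an upper `σ'` whose span contains all `v l`, with `x - ε v_e = ∑_{σ'} y_i v_i`, `y_i ≥ 0`; `e ∈ σ'` by `low_mem`.  So `x = ∑_{σ'} y'_i v_i` with `y'_e = y_e + ε > 0`, `y'_i = y_i` otherwise.
`height_le` for `σ` (coefficients `1` on `σ.erase e`, `0` at `e`) and the support of `y'`, and for `σ'` and `σ.erase e` (coefficients `1`), give both inequalities between the heights, so the support of `y'` is contained in `σ`, and `coeff_unique` for `σ` gives `y'_e = 0`: contradiction.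
`up_pt`: suppose `x + ε v_e ∈ cCone v G`.  `cover_upper` for `G` and `hm`: `σ' ⊆ G` upper in `G`, spanning, with `x + ε v_e = ∑_{σ'} y_i v_i`; `σ'` is upper in `insert e G` by `bot`.  `x + ε v_e = ∑_{σ} x_i v_i` with `x_i = 1` (`i ≠ e`), `x_e = ε`.  `height_le` for `σ'` and `σ`, and for `σ` and the support of `y`: the heights are equal and `σ ⊆ σ'`, so `e ∈ G`: contradiction.
-/

set_option autoImplicit false

namespace Pool.Agent.H56.SMC

open Finset H60.RegTri

/-- restriction to the support -/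
theorem znp_supp {ι κ : Type*} [DecidableEq ι] (v : ι → κ → ℝ) (h : ι → ℝ) (σ : Finset ι)
    (y : ι → ℝ) (hy : ∀ i ∈ σ, 0 ≤ y i) :
    ∑ i ∈ σ.filter (fun i => 0 < y i), y i • v i = ∑ i ∈ σ, y i • v i ∧
      ∑ i ∈ σ.filter (fun i => 0 < y i), y i * h i = ∑ i ∈ σ, y i * h i := by
  have h0 : ∀ i ∈ σ, i ∉ σ.filter (fun i => 0 < y i) → y i = 0 := by
    intro i hi hn
    rw [Finset.mem_filter, not_and] at hn
    exact le_antisymm (not_lt.1 (hn hi)) (hy i hi)
  constructor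
  · refine Finset.sum_subset (Finset.filter_subset _ _) fun i hi hn => ?_
    rw [h0 i hi hn, zero_smul]
  · refine Finset.sum_subset (Finset.filter_subset _ _) fun i hi hn => ?_
    rw [h0 i hi hn, zero_mul]

theorem low_mem {ι κ : Type*} [Fintype ι] [DecidableEq ι] [Fintype κ] (v : ι → κ → ℝ)
    (e : ι) (hp hm : ι → ℝ) (ht : TopBot v e hp hm) (G : Finset ι) (he : e ∈ G) (σ : Finset ι)
    (hσ : UpperOn v hp G σ) (hfull : v e ∈ Submodule.span ℝ (v '' (σ : Set ι))) : e ∈ σ := by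
  by_contra hn
  obtain ⟨β, hβ⟩ := (mem_span_iff v σ (v e)).1 hfull
  have h1 := hσ.2.2 e he hn β hβ
  have h2 := ht.top σ hn hσ.2.1 β hβ
  exact lt_irrefl _ (h1.trans h2)

theorem low_pt {ι κ : Type*} [Fintype ι] [DecidableEq ι] [Fintype κ] (v : ι → κ → ℝ)
    (e : ι) (hp hm : ι → ℝ) (ht : TopBot v e hp hm) (G : Finset ι) (he : e ∈ G)
    (ℓ : (κ → ℝ) →ₗ[ℝ] ℝ) (hℓ : ∀ i ∈ G, 0 < ℓ (v i)) (σ : Finset ι)
    (hσ : UpperOn v hp G σ) (hfull : ∀ l ∈ G, v l ∈ Submodule.span ℝ (v '' (σ : Set ι)))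
    (ε : ℝ) (hε : 0 < ε) : (∑ i ∈ σ.erase e, v i) - ε • v e ∉ cCone v G := by
  intro hmem
  have heσ := low_mem v e hp hm ht G he σ hσ (hfull e he)
  obtain ⟨σ', hσ', hfull', y, hy, hyeq⟩ := cover_upper v hp G ℓ hℓ (ht.genp G) _ hmem
  have heσ' := low_mem v e hp hm ht G he σ' hσ' (hfull' e he)
  set y' : ι → ℝ := fun i => y i + if i = e then ε else 0 with hy'
  have hy'0 : ∀ i ∈ σ', 0 ≤ y' i := by
    intro i hi
    have := hy i hi
    simp only [hy']
    split_ifs <;> linarith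
  have hy'e : 0 < y' e := by
    have := hy e heσ'
    simp only [hy', if_true]
    linarith
  have hx' : ∑ i ∈ σ', y' i • v i = ∑ i ∈ σ.erase e, v i := by
    simp only [hy', add_smul, Finset.sum_add_distrib, ite_smul, zero_smul]
    rw [Finset.sum_ite_eq' σ' e, if_pos heσ', ← hyeq]
    abel
  set c : ι → ℝ := fun i => if i = e then 0 else 1 with hc
  have hcx : ∑ i ∈ σ, c i • v i = ∑ i ∈ σ.erase e, v i := by
    rw [← Finset.add_sum_erase _ _ heσ]
    simp only [hc, if_true, zero_smul, zero_add]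
    refine Finset.sum_congr rfl fun i hi => ?_
    rw [if_neg (Finset.ne_of_mem_erase hi), one_smul]
  have hch : ∑ i ∈ σ, c i * hp i = ∑ i ∈ σ.erase e, 1 * hp i := by
    rw [← Finset.add_sum_erase _ _ heσ]
    simp only [hc, if_true, zero_mul, zero_add]
    refine Finset.sum_congr rfl fun i hi => ?_
    rw [if_neg (Finset.ne_of_mem_erase hi)]
  obtain ⟨s1, s2⟩ := znp_supp v hp σ' y' hy'0
  have hS2 : σ'.filter (fun i => 0 < y' i) ⊆ G := (Finset.filter_subset _ _).trans hσ'.1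
  obtain ⟨k1, k2⟩ := height_le v hp G σ (σ'.filter (fun i => 0 < y' i)) hσ hfull hS2 c y'
    (fun i hi => (Finset.mem_filter.1 hi).2) (by rw [hcx, s1, hx'])
  obtain ⟨k3, -⟩ := height_le v hp G σ' (σ.erase e) hσ' hfull'
    ((Finset.erase_subset _ _).trans hσ.1) y' (fun _ => 1) (fun _ _ => one_pos)
    (by rw [hx']; simp only [one_smul])
  have hsub := k2 (by rw [hch, s2]; exact k3)
  have heS : e ∈ σ'.filter (fun i => 0 < y' i) := Finset.mem_filter.2 ⟨heσ', hy'e⟩
  have huniq := coeff_unique v σ hσ.2.1 c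
    (fun i => if i ∈ σ'.filter (fun i => 0 < y' i) then y' i else 0) (by
      rw [hcx, ← hx', ← s1]
      simp only [ite_smul, zero_smul]
      rw [← Finset.sum_filter, Finset.filter_mem_eq_inter, Finset.inter_eq_right.2 hsub]) e heσ
  simp only [hc, if_true, if_pos heS] at huniq
  linarith

/-- ZNP -/
theorem up_pt {ι κ : Type*} [Fintype ι] [DecidableEq ι] [Fintype κ] (v : ι → κ → ℝ)
    (e : ι) (hp hm : ι → ℝ) (ht : TopBot v e hp hm) (G : Finset ι) (he : e ∉ G)
    (ℓ : (κ → ℝ) →ₗ[ℝ] ℝ) (hℓ : ∀ i ∈ G, 0 < ℓ (v i))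
    (heG : v e ∈ Submodule.span ℝ (v '' (G : Set ι))) (σ : Finset ι)
    (hσ : UpperOn v hm (insert e G) σ) (heσ : e ∈ σ)
    (hfull : ∀ l ∈ insert e G, v l ∈ Submodule.span ℝ (v '' (σ : Set ι)))
    (ε : ℝ) (hε : 0 < ε) : (∑ i ∈ σ.erase e, v i) + ε • v e ∉ cCone v G := by
  intro hmem
  obtain ⟨σ', hσ', hfull', y, hy, hyeq⟩ := cover_upper v hm G ℓ hℓ (ht.genm G) _ hmem
  have heσ' : e ∉ σ' := fun h => he (hσ'.1 h)
  have hup : UpperOn v hm (insert e G) σ' := by
    refine ⟨hσ'.1.trans (Finset.subset_insert _ _), hσ'.2.1, ?_⟩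
    intro l hl hln β hβ
    rcases Finset.mem_insert.1 hl with rfl | hl
    · exact ht.bot σ' heσ' hσ'.2.1 β hβ
    · exact hσ'.2.2 l hl hln β hβ
  have hspan : Submodule.span ℝ (v '' (G : Set ι)) ≤ Submodule.span ℝ (v '' (σ' : Set ι)) := by
    rw [Submodule.span_le]
    rintro _ ⟨i, hi, rfl⟩
    exact hfull' i hi
  have hfull'' : ∀ l ∈ insert e G, v l ∈ Submodule.span ℝ (v '' (σ' : Set ι)) := by
    intro l hl
    rcases Finset.mem_insert.1 hl with rfl | hl
    · exact hspan heG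
    · exact hfull' l hl
  set c : ι → ℝ := fun i => if i = e then ε else 1 with hc
  have hc0 : ∀ i ∈ σ, 0 < c i := by
    intro i _
    simp only [hc]
    split_ifs
    · exact hε
    · exact one_pos
  have hcx : ∑ i ∈ σ, c i • v i = (∑ i ∈ σ.erase e, v i) + ε • v e := by
    rw [← Finset.add_sum_erase _ _ heσ]
    simp only [hc, if_true]
    rw [add_comm]
    congr 1
    refine Finset.sum_congr rfl fun i hi => ?_
    rw [if_neg (Finset.ne_of_mem_erase hi), one_smul]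
  obtain ⟨s1, s2⟩ := znp_supp v hm σ' y hy
  obtain ⟨-, k2⟩ := height_le v hm (insert e G) σ' σ hup hfull'' hσ.1 y c hc0 (by rw [hcx, hyeq])
  obtain ⟨k3, -⟩ := height_le v hm (insert e G) σ (σ'.filter (fun i => 0 < y i)) hσ hfull
    ((Finset.filter_subset _ _).trans hup.1) c y (fun i hi => (Finset.mem_filter.1 hi).2)
    (by rw [hcx, s1, hyeq])
  exact heσ' (k2 (by rw [← s2]; exact k3) heσ)

end Pool.Agent.H56.SMC
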