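import Pool.Agent.H56.SMC.ZNQ
import Pool.Agent.H56.SMC.ZNJ
import Pool.Agent.H56.SMC.ZNL
import Pool.Agent.H56.SMC.ZNP

/-!
# ZNQU: from the pyramid to the base

Notation: `e = eN k0`.  `B1 a w k0`: all exponents on the face of `w` have `a_k0 = 0`, except one, `p_w`, which has `a_k0 = 1`; `w k0 ≠ 0`.  If `toReal w ∈ minCone a τ` then every `i ∈ τ` is on the face of `w` (`H22.wmin_eq`).
`pair_up`: `e ∉ B` since `e ∉ minCone a τ`.  `insert e B ⊆ raysIn a R τ'`, independent since `a_p - a_q` (`q ∈ τ'`) vanishes on `B` and is `1` on `e`.  Upper: for `v_l = ∑ β_i v_i`, `l ∈ raysIn a R τ'`, apply `a_p - a_q`: `β_e = (a_p - a_q)·v_l ≥ 0`; if `β_e > 0` use `topl`; if `β_e = 0` then `l ∈ raysIn a R τ` and `B` is upper in it.  Cardinality: `faceRank_pyr` and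
`faceRank a τ ≤ n` (`H60.ConeExist.finrank_span_minCone_le`: `minCone a τ` contains the critical `w ≠ 0`).  Multiplicity: `mulS_insert` with `φ = a_p - a_q`.
-/

set_option autoImplicit false

namespace Pool.Agent.H56.SMC

open Finset H60.RegTri

/-- The functional `a_p - a_q`. -/
noncomputable def ZNQU_phi {n r : ℕ} (a : Fin r → (Fin n →₀ ℕ)) (p q : Fin r) :
    (Fin n → ℝ) →ₗ[ℝ] ℝ where
  toFun x := ∑ j, (a p j : ℝ) * x j - ∑ j, (a q j : ℝ) * x j
  map_add' x y := by
    simp only [Pi.add_apply, mul_add, Finset.sum_add_distrib]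
    ring
  map_smul' c x := by
    simp only [Pi.smul_apply, smul_eq_mul, RingHom.id_apply, mul_sub, Finset.mul_sum]
    congr 1 <;> exact Finset.sum_congr rfl fun j _ => by ring

theorem ZNQU_phi_apply {n r : ℕ} (a : Fin r → (Fin n →₀ ℕ)) (p q : Fin r) (x : Fin n → ℝ) :
    ZNQU_phi a p q x = ∑ j, (a p j : ℝ) * x j - ∑ j, (a q j : ℝ) * x j := rfl

theorem ZNQU_sum_eN {n : ℕ} (b : Fin n → ℝ) (k0 : Fin n) :
    ∑ j, b j * H22.toReal (eN k0) j = b k0 := by
  rw [Finset.sum_eq_single k0]
  · simp [H22.toReal, eN]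
  · intro j _ hj
    simp [H22.toReal, eN, Pi.single_eq_of_ne hj]
  · intro h
    exact absurd (Finset.mem_univ _) h

/-- ZNQ -/
theorem pair_up {n r : ℕ} (a : Fin r → (Fin n →₀ ℕ)) (R : Finset (Fin n → ℕ))
    (hR : RaySet a R) (s0 : ℂ) (k0 : Fin n) (hp hm : R → ℝ)
    (ht : TopBot (rv R) ⟨eN k0, hR.unit k0⟩ hp hm) (τ : Finset (Fin r))
    (hτ : τ ∈ PP a R s0 k0) (hne : (τ.filter (fun i => a i k0 = 0)).Nonempty)
    (hcrit : ∀ w ∈ R, CritW a s0 w → H22.toReal w ∈ H22.minCone a τ → B1 a w k0)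
    (B : Finset R) (hB : B ∈ upT R hp (raysIn a R τ) (n + 1 - H22.faceRank a τ)) :
    ⟨eN k0, hR.unit k0⟩ ∉ B ∧ insert ⟨eN k0, hR.unit k0⟩ B ∈
      upT R hp (raysIn a R (τ.filter (fun i => a i k0 = 0)))
        (n + 1 - H22.faceRank a (τ.filter (fun i => a i k0 = 0))) ∧
      mulS (insert ⟨eN k0, hR.unit k0⟩ B) = mulS B := by
  classical
  obtain ⟨p, hpτ, hp1, hp0⟩ := pp_apex a R s0 k0 τ hτ hcrit
  obtain ⟨q, hq⟩ := hne
  have hqτ : q ∈ τ := (Finset.mem_filter.mp hq).1
  have hq0 : a q k0 = 0 := (Finset.mem_filter.mp hq).2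
  rw [mem_upT] at hB
  obtain ⟨hBU, hBc⟩ := hB
  have hpF : p ∉ τ.filter (fun i => a i k0 = 0) := by
    rw [Finset.mem_filter, hp1]
    simp
  have hτins : insert p (τ.filter (fun i => a i k0 = 0)) = τ := by
    ext i
    rw [Finset.mem_insert, Finset.mem_filter]
    constructor
    · rintro (h | h)
      · rw [h]; exact hpτ
      · exact h.1
    · intro h
      by_cases hi : i = p
      · exact Or.inl hi
      · exact Or.inr ⟨h, hp0 i h hi⟩
  set e : R := ⟨eN k0, hR.unit k0⟩ with hedef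
  have hrve : rv R e = H22.toReal (eN k0) := rfl
  -- the functional
  have hφ0 : ∀ w ∈ B, ZNQU_phi a p q (rv R w) = 0 := by
    intro w hw
    have hm1 := mem_raysIn.mp (hBU.1 hw)
    rw [ZNQU_phi_apply]
    have h1 := hm1.2 p hpτ q
    have h2 := hm1.2 q hqτ p
    linarith
  have hφe : ZNQU_phi a p q (rv R e) = 1 := by
    rw [ZNQU_phi_apply, hrve, ZNQU_sum_eN (fun j => (a p j : ℝ)), ZNQU_sum_eN (fun j => (a q j : ℝ)),
      hp1, hq0]
    simp
  have heB : e ∉ B := by
    intro h
    have := hφ0 e h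
    rw [hφe] at this
    exact one_ne_zero this
  have hsub : insert e B ⊆ raysIn a R (τ.filter (fun i => a i k0 = 0)) := by
    intro w hw
    rw [mem_raysIn]
    rw [Finset.mem_insert] at hw
    rcases hw with rfl | hw
    · refine ⟨fun j => ?_, fun i hi l => ?_⟩
      · rw [hrve]; exact Nat.cast_nonneg _
      · rw [hrve, ZNQU_sum_eN (fun j => (a i j : ℝ)), ZNQU_sum_eN (fun j => (a l j : ℝ)),
          (Finset.mem_filter.mp hi).2]
        simp
    · have hm1 := mem_raysIn.mp (hBU.1 hw)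
      exact ⟨hm1.1, fun i hi l => hm1.2 i (Finset.mem_filter.mp hi).1 l⟩
  have hind : LinearIndepOn ℝ (rv R) ((insert e B : Finset R) : Set R) := by
    rw [Finset.coe_insert]
    refine (linearIndepOn_insert (by exact_mod_cast heB)).mpr ⟨hBU.2.1, ?_⟩
    intro h
    obtain ⟨β, hβ⟩ := (mem_span_iff (rv R) B (rv R e)).mp h
    have := congrArg (ZNQU_phi a p q) hβ
    rw [hφe, map_sum] at this
    rw [Finset.sum_eq_zero (fun i hi => by rw [map_smul, hφ0 i hi, smul_zero])] at this
    exact one_ne_zero this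
  have hcalc : ∀ (l : R) (β : R → ℝ), rv R l = ∑ i ∈ insert e B, β i • rv R i →
      ZNQU_phi a p q (rv R l) = β e := by
    intro l β hl
    rw [hl, map_sum, Finset.sum_insert heB, map_smul, hφe, smul_eq_mul, mul_one]
    rw [Finset.sum_eq_zero (fun i hi => by rw [map_smul, hφ0 i hi, smul_zero]), add_zero]
  refine ⟨heB, ?_, ?_⟩
  · rw [mem_upT]
    refine ⟨⟨hsub, hind, ?_⟩, ?_⟩
    · intro l hl hlB β hβ
      have hβe := hcalc l β hβ
      have hlm := mem_raysIn.mp hl
      have hnn : 0 ≤ β e := by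
        rw [← hβe, ZNQU_phi_apply]
        have := hlm.2 q hq p
        linarith
      rcases hnn.lt_or_eq with hpos | hz
      · exact ht.topl (insert e B) (Finset.mem_insert_self _ _) hind l hlB β hβ hpos
      · have hlτ : l ∈ raysIn a R τ := by
          rw [mem_raysIn, ← hτins]
          refine ⟨hlm.1, fun i hi l' => ?_⟩
          rw [Finset.mem_insert] at hi
          rcases hi with rfl | hi
          · have h1 := hlm.2 q hq l'
            rw [ZNQU_phi_apply] at hβe
            linarith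
          · exact hlm.2 i hi l'
        have hlB' : l ∉ B := fun h => hlB (Finset.mem_insert_of_mem h)
        have := hBU.2.2 l hlτ hlB' β (by
          rw [hβ, Finset.sum_insert heB, ← hz, zero_smul, zero_add])
        rw [Finset.sum_insert heB, ← hz, zero_mul, zero_add]
        exact this
    · rw [Finset.card_insert_of_notMem heB, hBc]
      have h1 := faceRank_pyr a (τ.filter (fun i => a i k0 = 0)) p k0
        (fun i hi => (Finset.mem_filter.mp hi).2) (by rw [hp1]; exact one_ne_zero)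
      rw [hτins] at h1
      have h2 : H22.faceRank a τ ≤ n + 1 := by
        unfold H22.faceRank
        refine (Submodule.finrank_le _).trans ?_
        simp [Module.finrank_fintype_fun_eq_card, add_comm]
      omega
  · refine mulS_insert B e heB (fun j => (a p j : ℤ) - (a q j : ℤ)) ?_ ?_
    · intro w hw
      have h := hφ0 w hw
      rw [ZNQU_phi_apply] at h
      have h' : ((∑ j, ((a p j : ℤ) - (a q j : ℤ)) * ((w.1 j : ℕ) : ℤ) : ℤ) : ℝ) = 0 := by
        push_cast
        rw [← h, ← Finset.sum_sub_distrib]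
        exact Finset.sum_congr rfl fun j _ => by simp only [rv, H22.toReal]; ring
      exact_mod_cast h'
    · left
      have h := hφe
      rw [ZNQU_phi_apply] at h
      have h' : ((∑ j, ((a p j : ℤ) - (a q j : ℤ)) * ((e.1 j : ℕ) : ℤ) : ℤ) : ℝ) = 1 := by
        push_cast
        rw [← h, ← Finset.sum_sub_distrib]
        exact Finset.sum_congr rfl fun j _ => by simp only [rv, H22.toReal]; ring
      exact_mod_cast h'

end Pool.Agent.H56.SMC
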