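import Pool.Agent.H56.SMC.ZNQD
import Pool.Agent.H56.SMC.ZNQU
import Pool.Agent.H56.SMC.ZNJT
import Pool.Agent.H56.SMC.ZNH

/-!
# ZNF: the faces in the hyperplane `x_k0 = 0`

Proof.  Choose heights by `exists_topBot` (`v = rv R`, `e = eN k0`).  By `jf_tri` `J_τ'` and all `J_τ` are sums of `tm` over the upper simplices (heights `hp`); split them into the simplices which contain a critical ray and the others (regular by `tm_reg`).  `(τ, B) ↦ insert e B` is a bijection from the pairs `τ ∈ PP`, `τ.filter = τ'`, `B ∈ upT (raysIn a R τ)` with a critical element, onto the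
`σ ∈ upT (raysIn a R τ')` with a critical element: well defined by `pair_up`, onto by `pair_down` (`insert e (σ.erase e) = σ`; the critical element of `σ` is not `e`, since `wmin a e = 0`: some `i ∈ τ'` has `a_i k0 = 0`), injective: `B = (insert e B).erase e`, and for a critical `w ∈ B` both `τ₁`, `τ₂` are contained in the face of `w`, so by `B1` they have the same apex, `τ₁ = insert p τ' = τ₂`.
`tm (insert e B) = tm B`: `mulS` by `pair_up`, `WW a e = 1`.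
-/

set_option autoImplicit false

namespace Pool.Agent.H56.SMC

open Finset H60.RegTri

/-- the face of `w` -/
theorem ZNF_face {n r : ℕ} {a : Fin r → (Fin n →₀ ℕ)} {τ : Finset (Fin r)} {w : Fin n → ℕ}
    (hw : H22.toReal w ∈ H22.minCone a τ) {i : Fin r} (hi : i ∈ τ) :
    ∑ j, a i j * w j = H22.wmin a w := (H22.wmin_eq hw hi).symm

theorem ZNF_mono {n r : ℕ} {a : Fin r → (Fin n →₀ ℕ)} {τ' τ : Finset (Fin r)} (h : τ' ⊆ τ)
    {k : Fin n → ℝ} (hk : k ∈ H22.minCone a τ) : k ∈ H22.minCone a τ' :=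
  ⟨hk.1, fun i hi l => hk.2 i (h hi) l⟩

/-- a face with a critical ray is the base with the apex -/
theorem ZNF_apex {n r : ℕ} {a : Fin r → (Fin n →₀ ℕ)} {τ : Finset (Fin r)} {w : Fin n → ℕ}
    {k0 : Fin n} (hw : H22.toReal w ∈ H22.minCone a τ) (i1 : Fin r)
    (hi1 : ∀ i, ∑ j, a i j * w j = H22.wmin a w → i ≠ i1 → a i k0 = 0)
    (hne : ∃ i ∈ τ, a i k0 ≠ 0) (h1 : a i1 k0 = 1) :
    τ = insert i1 (τ.filter (fun i => a i k0 = 0)) := by
  classical
  ext i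
  rw [Finset.mem_insert, Finset.mem_filter]
  constructor
  · intro hi
    by_cases h : i = i1
    · exact Or.inl h
    · exact Or.inr ⟨hi, hi1 i (ZNF_face hw hi) h⟩
  · rintro (rfl | h)
    · obtain ⟨l, hl, hl0⟩ := hne
      by_cases h : l = i
      · rw [← h]; exact hl
      · exact absurd (hi1 l (ZNF_face hw hl) h) hl0
    · exact h.1

/-- ZNF -/
theorem face_reg {n r : ℕ} (a : Fin r → (Fin n →₀ ℕ)) (R : Finset (Fin n → ℕ))
    (hR : RaySet a R) (s0 : ℂ) (k0 : Fin n) (τ' : Finset (Fin r))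
    (hF : H22.IsFace a τ') (hne : τ'.Nonempty) (h0 : ∀ i ∈ τ', a i k0 = 0)
    (hcrit : ∀ w ∈ R, CritW a s0 w → H22.toReal w ∈ H22.minCone a τ' → B1 a w k0)
    (𝒟 : ∀ τ, H22.FaceCones a τ) :
    H37.SM.Reg s0 (H22.JfunG a τ' (𝒟 τ') -
      ∑ τ ∈ (PP a R s0 k0).filter (fun τ => τ.filter (fun i => a i k0 = 0) = τ'),
        H22.JfunG a τ (𝒟 τ)) := by
  classical
  obtain ⟨hp, hm, ht⟩ := exists_topBot (rv R) (⟨eN k0, hR.unit k0⟩ : R)
  set e : R := ⟨eN k0, hR.unit k0⟩ with he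
  set P := (PP a R s0 k0).filter (fun τ => τ.filter (fun i => a i k0 = 0) = τ') with hP
  set S : Finset (Fin r) → Finset (Finset R) := fun τ => upT R hp (raysIn a R τ) (n + 1 - H22.faceRank a τ) with hS
  set crit : Finset R → Prop := fun σ => ∃ w ∈ σ, CritW a s0 w.1 with hcr
  have hPm : ∀ τ ∈ P, τ ∈ PP a R s0 k0 ∧ τ.filter (fun i => a i k0 = 0) = τ' := by
    intro τ hτ
    exact Finset.mem_filter.1 hτ
  have hJ : ∀ τ, τ.Nonempty → H22.IsFace a τ → H22.JfunG a τ (𝒟 τ) =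
      ∑ σ ∈ (S τ).filter crit, tm a σ + ∑ σ ∈ (S τ).filter (fun σ => ¬ crit σ), tm a σ := by
    intro τ hτ hFτ
    rw [Finset.sum_filter_add_sum_filter_not]
    exact jf_tri a R hR hp ht.genp τ hτ hFτ (𝒟 τ)
  have hreg : ∀ τ, H37.SM.Reg s0 (∑ σ ∈ (S τ).filter (fun σ => ¬ crit σ), tm a σ) := by
    intro τ
    apply H37.SM.Reg.sum
    intro σ hσ
    rw [Finset.mem_filter] at hσ
    apply tm_reg a R hR s0 σ
    intro w hw hw2
    exact hσ.2 ⟨w, hw, hw2⟩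
  -- the critical element is not the unit vector
  have hwe : H22.wmin a (eN k0) = 0 := by
    obtain ⟨i, hi⟩ := hne
    have h1 : H22.wmin a (eN k0) ≤ ∑ j, a i j * eN k0 j := ciInf_le (OrderBot.bddBelow _) i
    have h2 : ∑ j, a i j * eN k0 j = a i k0 := by
      unfold eN
      rw [Finset.sum_eq_single k0]
      · simp
      · intro j _ hj
        rw [Pi.single_eq_of_ne hj, mul_zero]
      · intro h; exact absurd (Finset.mem_univ _) h
    rw [h2, h0 i hi] at h1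
    omega
  have hse : H22.wsum (eN k0) = 1 := by
    unfold H22.wsum eN
    rw [Finset.sum_eq_single k0]
    · simp
    · intro j _ hj
      exact Pi.single_eq_of_ne hj _
    · intro h; exact absurd (Finset.mem_univ _) h
  have hWe : WW a (eN k0) = 1 := by
    unfold WW
    rw [hwe, hse]
    simp
  have hce : ∀ w : R, CritW a s0 w.1 → w ≠ e := by
    rintro w hw rfl
    have := hw.2.1
    rw [he] at this
    simp only at this
    rw [hwe] at this
    exact lt_irrefl _ this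
  have hcτ : ∀ τ ∈ P, ∀ w ∈ R, CritW a s0 w → H22.toReal w ∈ H22.minCone a τ → B1 a w k0 := by
    intro τ hτ w hw hc hwτ
    refine hcrit w hw hc (ZNF_mono ?_ hwτ)
    rw [← (hPm τ hτ).2]
    exact Finset.filter_subset _ _
  have hneP : ∀ τ ∈ P, (τ.filter (fun i => a i k0 = 0)).Nonempty := by
    intro τ hτ
    rw [(hPm τ hτ).2]
    exact hne
  have hup : ∀ τ ∈ P, ∀ B ∈ S τ, e ∉ B ∧ insert e B ∈ S τ' ∧ mulS (insert e B) = mulS B := by
    intro τ hτ B hB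
    have h := pair_up a R hR s0 k0 hp hm ht τ (hPm τ hτ).1 (hneP τ hτ) (hcτ τ hτ) B hB
    rw [(hPm τ hτ).2] at h
    exact h
  have hbij : ∑ τ ∈ P, ∑ B ∈ (S τ).filter crit, tm a B = ∑ σ ∈ (S τ').filter crit, tm a σ := by
    rw [Finset.sum_sigma']
    refine Finset.sum_bij (fun x _ => insert e x.2) ?_ ?_ ?_ ?_
    · rintro ⟨τ, B⟩ hx
      obtain ⟨h1, hx2⟩ := Finset.mem_sigma.1 hx
      obtain ⟨h2, w, hw, hw2⟩ := Finset.mem_filter.1 hx2
      rw [Finset.mem_filter]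
      exact ⟨(hup τ h1 B h2).2.1, w, Finset.mem_insert_of_mem hw, hw2⟩
    · rintro ⟨τ₁, B₁⟩ hx₁ ⟨τ₂, B₂⟩ hx₂ h12
      simp only at h12
      obtain ⟨h1, hx1⟩ := Finset.mem_sigma.1 hx₁
      obtain ⟨h2, w, hw, hw2⟩ := Finset.mem_filter.1 hx1
      obtain ⟨h3, hx2⟩ := Finset.mem_sigma.1 hx₂
      obtain ⟨h4, _⟩ := Finset.mem_filter.1 hx2
      simp only at h1 h2 h3 h4 hw
      have hB : B₁ = B₂ := by
        rw [← Finset.erase_insert (hup τ₁ h1 B₁ h2).1, h12, Finset.erase_insert (hup τ₂ h3 B₂ h4).1]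
      subst hB
      have h5 : H22.toReal w.1 ∈ H22.minCone a τ₁ := mem_raysIn.1 ((mem_upT.1 h2).1.1 hw)
      have h6 : H22.toReal w.1 ∈ H22.minCone a τ₂ := mem_raysIn.1 ((mem_upT.1 h4).1.1 hw)
      obtain ⟨_, i1, _, h7, h8⟩ := hcτ τ₁ h1 w.1 w.2 hw2 h5
      have h9 := ZNF_apex h5 i1 h8 (mem_PP.1 (hPm τ₁ h1).1).2.2 h7
      have h10 := ZNF_apex h6 i1 h8 (mem_PP.1 (hPm τ₂ h3).1).2.2 h7
      rw [(hPm τ₁ h1).2] at h9
      rw [(hPm τ₂ h3).2] at h10
      rw [h9, h10]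
    · intro σ hσ
      rw [Finset.mem_filter] at hσ
      obtain ⟨h2, τ, h3, h4, h5⟩ := pair_down a R hR s0 k0 hp hm ht τ' hF hne h0 hcrit σ hσ.1 hσ.2
      obtain ⟨w, hw, hw2⟩ := hσ.2
      refine ⟨⟨τ, σ.erase e⟩, ?_, ?_⟩
      · exact Finset.mem_sigma.2 ⟨Finset.mem_filter.2 ⟨h3, h4⟩,
          Finset.mem_filter.2 ⟨h5, w, Finset.mem_erase.2 ⟨hce w hw2, hw⟩, hw2⟩⟩
      · exact Finset.insert_erase h2
    · rintro ⟨τ, B⟩ hx
      obtain ⟨h1, hx2⟩ := Finset.mem_sigma.1 hx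
      obtain ⟨h2, _⟩ := Finset.mem_filter.1 hx2
      simp only at h1 h2 ⊢
      obtain ⟨h3, h4, h5⟩ := hup τ h1 B h2
      unfold tm
      rw [h5, Finset.prod_insert h3]
      have h6 : WW a e.1 = 1 := hWe
      rw [h6, inv_one, one_mul]
  have hsum : ∑ τ ∈ P, H22.JfunG a τ (𝒟 τ) = ∑ τ ∈ P, ∑ B ∈ (S τ).filter crit, tm a B +
      ∑ τ ∈ P, ∑ B ∈ (S τ).filter (fun σ => ¬ crit σ), tm a B := by
    rw [← Finset.sum_add_distrib]
    apply Finset.sum_congr rfl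
    intro τ hτ
    obtain ⟨h1, _, i, hi, _⟩ := mem_PP.1 (hPm τ hτ).1
    exact hJ τ ⟨i, hi⟩ h1
  rw [hJ τ' hne hF, hsum, hbij]
  have h1 : (∑ σ ∈ (S τ').filter crit, tm a σ + ∑ σ ∈ (S τ').filter (fun σ => ¬ crit σ), tm a σ) -
      (∑ σ ∈ (S τ').filter crit, tm a σ + ∑ τ ∈ P, ∑ B ∈ (S τ).filter (fun σ => ¬ crit σ), tm a B) =
      ∑ σ ∈ (S τ').filter (fun σ => ¬ crit σ), tm a σ -
        ∑ τ ∈ P, ∑ B ∈ (S τ).filter (fun σ => ¬ crit σ), tm a B := by ring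
  rw [h1]
  exact (hreg τ').sub (H37.SM.Reg.sum _ _ fun τ _ => hreg τ)

end Pool.Agent.H56.SMC
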