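import Pool.Agent.H56.SMC.ZNL

/-!
# ZNLV: the normalised volume of a pyramid of height one

`nvol_pyr`: every simplex `σ` of `𝒯` contains `p` (otherwise `σ ⊆ τ`, its rank is at most `faceRank a τ < faceRank a (insert p τ)`).  The family of the `σ.erase p` is a `GoodFam a τ` (`Pool.Agent.H22.VolAdd`; `FaceTriang.goodFam` there gives the `GoodFam` of `𝒯` and of `𝒯'`; the open cones of `σ.erase p`, `σ'.erase p` are disjoint because adding `(1, a_p)` to a common point gives a common point of
the open cones of `σ`, `σ'`; `cover`: for `x` on `τ` generic apply `cover` of the `GoodFam` of `𝒯` to `x` extended by `1` at `p`: genericity: if `y + (1,a_p)` is in the span of the rows of `s`, `s.card < rank`, then, by the coordinate `k`, `p ∈ s` and `y` is in the span of `s.erase p`; the coefficient at `p` of the representation in `posCone σ` is `1` by the coordinate `k`).  So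
`nvol 𝒯' = ∑ faceVol (σ.erase p) = ∑ faceVol σ = nvol 𝒯` by `GoodFam.sum_eq` and `faceVol_pyr`.
-/

set_option autoImplicit false

namespace Pool.Agent.H56.SMC

open Finset H60.RegTri

theorem znlv_coord {n r : ℕ} (a : Fin r → (Fin n →₀ ℕ)) (k : Fin n) (s : Finset (Fin r))
    (x : Fin r → ℝ) :
    (∑ i ∈ s, x i • H22.rowR a i) (Sum.inr k) = ∑ i ∈ s, x i * (a i k : ℝ) := by
  simp [Finset.sum_apply, H22.rowR]

/-- the coordinate `k` of a combination of the rows of a subset of `insert p τ` -/
theorem znlv_coord' {n r : ℕ} (a : Fin r → (Fin n →₀ ℕ)) (τ : Finset (Fin r))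
    (p : Fin r) (k : Fin n) (h0 : ∀ i ∈ τ, a i k = 0) (h1 : a p k = 1) (s : Finset (Fin r))
    (hs : s ⊆ insert p τ) (x : Fin r → ℝ) :
    (∑ i ∈ s, x i • H22.rowR a i) (Sum.inr k) = if p ∈ s then x p else 0 := by
  classical
  rw [znlv_coord]
  have h : ∀ i ∈ s, x i * (a i k : ℝ) = if i = p then x p else 0 := by
    intro i hi
    by_cases hip : i = p
    · subst hip
      rw [h1, if_pos rfl]
      simp
    · rw [if_neg hip, h0 i]
      · simp
      · rcases Finset.mem_insert.1 (hs hi) with h | h
        · exact absurd h hip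
        · exact h
  rw [Finset.sum_congr rfl h, Finset.sum_ite_eq']

theorem znlv_add {n r : ℕ} (a : Fin r → (Fin n →₀ ℕ)) (σ : Finset (Fin r)) (p : Fin r)
    (hp : p ∈ σ) (x : Fin r → ℝ) (hx : x p = 1) :
    ∑ i ∈ σ, x i • H22.rowR a i = H22.rowR a p + ∑ i ∈ σ.erase p, x i • H22.rowR a i := by
  rw [← Finset.add_sum_erase σ _ hp, hx, one_smul]

/-- ZNL -/
theorem nvol_pyr {n r : ℕ} (a : Fin r → (Fin n →₀ ℕ)) (τ : Finset (Fin r)) (hτ : τ.Nonempty)
    (p : Fin r) (k : Fin n) (h0 : ∀ i ∈ τ, a i k = 0) (h1 : a p k = 1)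
    (𝒯 : H22.FaceTriang a (insert p τ)) (𝒯' : H22.FaceTriang a τ) :
    H22.nvol 𝒯 = H22.nvol 𝒯' := by
  classical
  have hpτ : p ∉ τ := fun h => by
    have := h0 p h
    omega
  have hrk : H22.faceRank a (insert p τ) = H22.faceRank a τ + 1 :=
    faceRank_pyr a τ p k h0 (by omega)
  have hG := 𝒯.goodFam (Finset.insert_nonempty p τ)
  -- every simplex contains `p`
  have hmem : ∀ σ ∈ 𝒯.S, p ∈ σ := by
    intro σ hσ
    by_contra hps
    have hsub : σ ⊆ τ := fun i hi => by
      rcases Finset.mem_insert.1 (𝒯.sub σ hσ hi) with h | h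
      · exact absurd (h ▸ hi) hps
      · exact h
    have hc := 𝒯.card σ hσ
    rw [hrk] at hc
    have h4 : H22.rowR a '' (σ : Set (Fin r)) = Set.range (fun i : σ => H22.rowR a i) := by
      ext y
      simp
    have h5 : Module.finrank ℝ (Submodule.span ℝ (H22.rowR a '' (σ : Set (Fin r)))) = σ.card := by
      rw [h4, finrank_span_eq_card (𝒯.indep σ hσ), Fintype.card_coe]
    have h6 : σ.card ≤ H22.faceRank a τ := by
      rw [← h5]
      exact Submodule.finrank_mono (Submodule.span_mono (Set.image_mono (by exact_mod_cast hsub)))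
    omega
  have hsubE : ∀ σ ∈ 𝒯.S, σ.erase p ⊆ τ := by
    intro σ hσ i hi
    rcases Finset.mem_insert.1 (𝒯.sub σ hσ (Finset.mem_of_mem_erase hi)) with h | h
    · exact absurd h (Finset.ne_of_mem_erase hi)
    · exact h
  have hinj : Set.InjOn (fun σ : Finset (Fin r) => σ.erase p) (𝒯.S : Set (Finset (Fin r))) := by
    intro σ hσ σ' hσ' h
    have h' : σ.erase p = σ'.erase p := h
    rw [← Finset.insert_erase (hmem σ hσ), ← Finset.insert_erase (hmem σ' hσ'), h']
  set F' : Finset (Finset (Fin r)) := 𝒯.S.image fun σ => σ.erase p with hF'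
  have hmemF' : ∀ σ', σ' ∈ F' ↔ ∃ σ ∈ 𝒯.S, σ.erase p = σ' := by
    intro σ'
    rw [hF', Finset.mem_image]
  -- `y + (1, a_p)` in the open cone of `σ`
  have hcone : ∀ σ ∈ 𝒯.S, ∀ y, y ∈ H22.posCone (H22.rowR a) (σ.erase p) →
      H22.rowR a p + y ∈ H22.posCone (H22.rowR a) σ := by
    rintro σ hσ y ⟨x, hx, rfl⟩
    refine ⟨Function.update x p 1, fun i hi => ?_, ?_⟩
    · by_cases hip : i = p
      · subst hip
        rw [Function.update_self]
        exact one_pos
      · rw [Function.update_of_ne hip]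
        exact hx i (Finset.mem_erase.2 ⟨hip, hi⟩)
    · rw [znlv_add a σ p (hmem σ hσ) _ (Function.update_self _ _ _)]
      congr 1
      refine Finset.sum_congr rfl fun i hi => ?_
      rw [Function.update_of_ne (Finset.ne_of_mem_erase hi)]
  have hGF' : H22.GoodFam a τ F' := by
    refine ⟨?_, ?_, ?_, ?_, ?_⟩
    · intro σ' hσ'
      obtain ⟨σ, hσ, rfl⟩ := (hmemF' σ').1 hσ'
      exact hsubE σ hσ
    · intro σ' hσ'
      obtain ⟨σ, hσ, rfl⟩ := (hmemF' σ').1 hσ'
      rw [Finset.card_erase_of_mem (hmem σ hσ), 𝒯.card σ hσ, hrk]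
      rfl
    · intro σ' hσ'
      obtain ⟨σ, hσ, rfl⟩ := (hmemF' σ').1 hσ'
      have h2 : LinearIndepOn ℝ (H22.rowR a) (σ : Set (Fin r)) := 𝒯.indep σ hσ
      have h3 : LinearIndepOn ℝ (H22.rowR a) ((σ.erase p : Finset (Fin r)) : Set (Fin r)) :=
        h2.mono (by
          intro i hi
          exact Finset.mem_of_mem_erase (Finset.mem_coe.1 hi))
      exact h3
    · intro σ1 hσ1 σ2 hσ2 hne
      obtain ⟨σ, hσ, rfl⟩ := (hmemF' σ1).1 hσ1
      obtain ⟨σ', hσ', rfl⟩ := (hmemF' σ2).1 hσ2
      rw [Set.disjoint_left]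
      intro y hy hy'
      have hne' : σ ≠ σ' := fun h => hne (by rw [h])
      exact Set.disjoint_left.1 (hG.disj σ hσ σ' hσ' hne') (hcone σ hσ y hy) (hcone σ' hσ' y hy')
    · intro x hx hgen
      set y := ∑ i ∈ τ, x i • H22.rowR a i with hy
      have hyk : y (Sum.inr k) = 0 := by
        rw [hy, znlv_coord]
        exact Finset.sum_eq_zero fun i hi => by rw [h0 i hi]; simp
      have hpk : H22.rowR a p (Sum.inr k) = 1 := by
        simp [H22.rowR, h1]
      have hsum : ∑ i ∈ insert p τ, (Function.update x p 1) i • H22.rowR a i =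
          H22.rowR a p + y := by
        rw [znlv_add a _ p (Finset.mem_insert_self p τ) _ (Function.update_self _ _ _),
          Finset.erase_insert hpτ]
        congr 1
        refine Finset.sum_congr rfl fun i hi => ?_
        have hip : i ≠ p := by
          rintro rfl
          exact hpτ hi
        rw [Function.update_of_ne hip]
      obtain ⟨σ, hσ, x', hx', hyx'⟩ := hG.cover (Function.update x p 1) (fun i hi => by
        by_cases hip : i = p
        · subst hip
          rw [Function.update_self]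
          exact zero_le_one
        · rw [Function.update_of_ne hip]
          rcases Finset.mem_insert.1 hi with h | h
          · exact absurd h hip
          · exact hx i h) (by
        intro s hs hsc hspan
        rw [hsum] at hspan
        obtain ⟨b, hb⟩ := (mem_span_iff (H22.rowR a) s _).1 hspan
        have h2 := congrFun hb (Sum.inr k)
        rw [znlv_coord' a τ p k h0 h1 s hs b, Pi.add_apply, hyk, hpk, add_zero] at h2
        by_cases hps : p ∈ s
        · rw [if_pos hps] at h2
          rw [znlv_add a s p hps b h2.symm] at hb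
          have hb' := add_left_cancel hb
          refine hgen (s.erase p) ?_ ?_ ?_
          · intro i hi
            rcases Finset.mem_insert.1 (hs (Finset.mem_of_mem_erase hi)) with h | h
            · exact absurd h (Finset.ne_of_mem_erase hi)
            · exact h
          · rw [Finset.card_erase_of_mem hps]
            have : 0 < s.card := Finset.card_pos.2 ⟨p, hps⟩
            omega
          · exact (mem_span_iff (H22.rowR a) (s.erase p) _).2 ⟨b, hb'⟩
        · rw [if_neg hps] at h2
          exact one_ne_zero h2)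
      rw [hsum] at hyx'
      refine ⟨σ.erase p, (hmemF' _).2 ⟨σ, hσ, rfl⟩, x',
        fun i hi => hx' i (Finset.mem_of_mem_erase hi), ?_⟩
      have h2 := congrFun hyx' (Sum.inr k)
      rw [znlv_coord' a τ p k h0 h1 σ (𝒯.sub σ hσ) x', Pi.add_apply, hyk, hpk, add_zero,
        if_pos (hmem σ hσ)] at h2
      rw [znlv_add a σ p (hmem σ hσ) x' h2.symm] at hyx'
      exact add_left_cancel hyx'
  obtain ⟨σ₀, hσ₀, -⟩ := 𝒯.cover (H22.pointR a p)
    (subset_convexHull ℝ _ ⟨p, by simp, rfl⟩)
  have hfin := hGF'.sum_eq (𝒯'.goodFam hτ) ((hmemF' _).2 ⟨σ₀, hσ₀, rfl⟩)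
  have hsumF : ∑ σ' ∈ F', H22.faceVol a σ' = ∑ σ ∈ 𝒯.S, H22.faceVol a σ := by
    rw [hF', Finset.sum_image hinj]
    refine Finset.sum_congr rfl fun σ hσ => ?_
    have h2 := faceVol_pyr a (σ.erase p) p (Finset.notMem_erase p σ) k
      (fun i hi => h0 i (hsubE σ hσ hi)) h1
    rw [Finset.insert_erase (hmem σ hσ)] at h2
    exact h2.symm
  unfold H22.nvol
  rw [← hsumF]
  exact hfin

end Pool.Agent.H56.SMC
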