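import Pool.Agent.H56.SMC.ZNDefs
import Pool.Agent.H22.G9

/-!
# ZNI: the integral of a linear form does not depend on the triangulation

Proof.  Both sides are rational functions (`H22.GoodR`, see `JfunG_good` in `Pool.Agent.H22.G9`: `GoodR.sum`, `GoodR.natCast`, `GoodR.prod`, `GoodR.inv_linear`), it suffices that the values at all real `s > 0` agree (`goodR_unique` in `Pool.Agent.H37.SM.ZUN`, or `ztb_goodR_unique` in `ZTB`, copy it).  For real `s > 0`, `V(k) = ∑_j (1 + s c_j) k_j`: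
for an independent `σ` with `n` elements `mulS σ * ∏_{w ∈ σ} 1 / (|w| + s (c·w)) = ∫ over oCone (rv R) σ of exp (-V k) dk`: enumerate `σ` by `Fin n`, `Q` the matrix with these columns, `mulS σ = |det Q|` (`latIndex_eq_det` in `Pool.Agent.H22.Lattice`, used with `N = ⊤` and the standard basis as in `coneMult_three` of `Pool.Agent.H37.SM.ZMU`),
change of variables `H22.change_var_real` and `integral_fintype_prod_volume_eq_prod`, `H22.integral_exp_pos`, exactly as at the end of the proof of `H22.cone_integral` (`Pool.Agent.H22.Cones`).  The open cones of one family are pairwise disjoint, and each differs from the closed cone by a null set (the hyperplanes where a coordinate vanishes), so the sum of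
the integrals is the integral over the union of the closed cones, the same set for both families.
-/

set_option autoImplicit false

namespace Pool.Agent.H56.SMC

open Finset H60.RegTri MeasureTheory

theorem ZNI_goodR_unique {Z Z' : RatFunc ℂ} {G : ℝ → ℂ} (h : H22.GoodR Z G)
    (h' : H22.GoodR Z' G) : Z = Z' := by
  obtain ⟨p, q, hq, hZ, hF⟩ := h
  obtain ⟨p', q', hq', hZ', hF'⟩ := h'
  have key : p * q' = p' * q := by
    apply Polynomial.eq_of_infinite_eval_eq
    refine Set.Infinite.mono (s := (fun s : ℝ => (s : ℂ)) '' Set.Ioi (0 : ℝ)) ?_ ?_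
    · rintro _ ⟨s, hs, rfl⟩
      have hs' : 0 < s := hs
      show Polynomial.eval (s : ℂ) (p * q') = Polynomial.eval (s : ℂ) (p' * q)
      have h1 := hF s hs'
      rw [hF' s hs', div_eq_div_iff (hq'.eval_ne hs') (hq.eval_ne hs')] at h1
      rw [Polynomial.eval_mul, Polynomial.eval_mul]
      exact h1.symm
    · refine Set.Infinite.image ?_ (Set.Ioi_infinite 0)
      intro x _ y _ hxy
      have : (x : ℂ) = (y : ℂ) := hxy
      exact_mod_cast this
  rw [hZ, hZ', div_eq_div_iff (H22.algMap_ne hq.1) (H22.algMap_ne hq'.1), ← map_mul, ← map_mul, key]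

/-- the lattice index of a full family is the determinant -/
theorem ZNI_mul {n : ℕ} {R : Finset (Fin n → ℕ)} {σ : Finset R} (e : Fin n ≃ σ)
    (Q : Matrix (Fin n) (Fin n) ℤ) (hQ : ∀ j c, Q j c = (((e c).1.1 j : ℕ) : ℤ))
    (hdet : Q.det ≠ 0) : mulS σ = Q.det.natAbs := by
  classical
  have h1 : mulS σ = H22.latIndex (fun (c : Fin n) (j : Fin n) => (((e c).1.1 j : ℕ) : ℤ)) := by
    unfold mulS H22.latIndex
    have : Set.range (fun (w : σ) (j : Fin n) => ((w.1.1 j : ℕ) : ℤ)) =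
        Set.range (fun (c : Fin n) (j : Fin n) => (((e c).1.1 j : ℕ) : ℤ)) := by
      ext v
      constructor
      · rintro ⟨w, rfl⟩
        exact ⟨e.symm w, by simp⟩
      · rintro ⟨c, rfl⟩
        exact ⟨e c, rfl⟩
    rw [this]
  rw [h1]
  let b : Module.Basis (Fin n) ℤ (⊤ : Submodule ℤ (Fin n → ℤ)) :=
    (Pi.basisFun ℤ (Fin n)).map Submodule.topEquiv.symm
  have hb : ∀ c, ((b c : (⊤ : Submodule ℤ (Fin n → ℤ))) : Fin n → ℤ) = Pi.single c 1 := by
    intro c
    simp only [b, Module.Basis.map_apply, Pi.basisFun_apply]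
    rfl
  refine H22.latIndex_eq_det (⊤ : Submodule ℤ (Fin n → ℤ)) (fun _ _ _ _ => trivial) b _ Q ?_ hdet
  intro c
  ext j
  simp only [hb, Finset.sum_apply, Pi.smul_apply, smul_eq_mul]
  rw [← hQ]
  simp [Pi.single_apply]

/-- the integral over one open cone -/
theorem ZNI_cone {n : ℕ} (R : Finset (Fin n → ℕ)) (hR : ∀ w ∈ R, w ≠ 0) (c : Fin n → ℕ)
    (σ : Finset R) (hσ : LinearIndepOn ℝ (rv R) (σ : Set R)) (hn : σ.card = n) :
    MeasurableSet (oCone (rv R) σ) ∧
    (∀ᵐ k : Fin n → ℝ, k ∈ cCone (rv R) σ → k ∈ oCone (rv R) σ) ∧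
    ∀ s : ℝ, 0 < s →
      ∫ k : Fin n → ℝ, (oCone (rv R) σ).indicator
        (fun k => Real.exp (-∑ j, (1 + s * c j) * k j)) k =
      (mulS σ : ℝ) * ∏ w ∈ σ, (1 / ((H22.wsum w.1 : ℝ) + s * ((∑ j, c j * w.1 j : ℕ) : ℝ))) ∧
      0 < (mulS σ : ℝ) *
        ∏ w ∈ σ, (1 / ((H22.wsum w.1 : ℝ) + s * ((∑ j, c j * w.1 j : ℕ) : ℝ))) := by
  classical
  have e : Fin n ≃ σ := (σ.equivFinOfCardEq hn).symm
  set Q : Matrix (Fin n) (Fin n) ℤ := fun j c' => (((e c').1.1 j : ℕ) : ℤ) with hQ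
  set A : Matrix (Fin n) (Fin n) ℝ := fun j c' => rv R (e c').1 j with hA
  have hAQ : A = Q.map (Int.castRingHom ℝ) := by
    ext j c'
    rw [Matrix.map_apply]
    simp [hA, hQ, rv, H22.toReal]
  have hdetAQ : A.det = (Q.det : ℝ) := by
    rw [hAQ]
    exact (RingHom.map_det (Int.castRingHom ℝ) Q).symm
  have hsumσ : ∀ x : R → ℝ, ∑ i ∈ σ, x i • rv R i = A.mulVec (fun c' => x (e c').1) := by
    intro x
    rw [← Finset.sum_coe_sort σ (fun i => x i • rv R i), ← Equiv.sum_comp e]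
    ext j
    simp only [Finset.sum_apply, Pi.smul_apply, smul_eq_mul, Matrix.mulVec, dotProduct, hA]
    exact Finset.sum_congr rfl fun c' _ => mul_comm _ _
  have hAdet : A.det ≠ 0 := by
    intro h0
    obtain ⟨x, hx0, hx⟩ := Matrix.exists_mulVec_eq_zero_iff.mpr h0
    apply hx0
    rw [linearIndepOn_finset_iff] at hσ
    set x' : R → ℝ := fun i => if h : i ∈ σ then x (e.symm ⟨i, h⟩) else 0 with hx'
    have h1 : (fun c' => x' (e c').1) = x := by
      funext c'
      simp [hx', (e c').2]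
    have h2 := hσ x' (by rw [hsumσ, h1, hx])
    funext c'
    have h3 := h2 (e c').1 (e c').2
    have h4 := congrFun h1 c'
    rw [← h4]
    exact h3
  have hQdet : Q.det ≠ 0 := by
    intro h0
    apply hAdet
    rw [hdetAQ, h0]; simp
  have hmul : (mulS σ : ℝ) = |A.det| := by
    rw [ZNI_mul e Q (fun _ _ => rfl) hQdet, hdetAQ, Nat.cast_natAbs]
    push_cast
    rfl
  have hinv : ∀ p, A.mulVec (A⁻¹.mulVec p) = p := by
    intro p
    rw [Matrix.mulVec_mulVec, Matrix.mul_nonsing_inv _ (isUnit_iff_ne_zero.mpr hAdet),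
      Matrix.one_mulVec]
  have hinv' : ∀ x, A⁻¹.mulVec (A.mulVec x) = x := by
    intro p
    rw [Matrix.mulVec_mulVec, Matrix.nonsing_inv_mul _ (isUnit_iff_ne_zero.mpr hAdet),
      Matrix.one_mulVec]
  have hset : oCone (rv R) σ = {p | ∀ c', 0 < (A⁻¹.mulVec p) c'} := by
    ext p
    constructor
    · rintro ⟨x, hx, rfl⟩ c'
      rw [hsumσ, hinv']
      exact hx _ (e c').2
    · intro hp
      set x' : R → ℝ := fun i => if h : i ∈ σ then (A⁻¹.mulVec p) (e.symm ⟨i, h⟩) else 0 with hx'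
      have h1 : (fun c' => x' (e c').1) = A⁻¹.mulVec p := by
        funext c'
        simp [hx', (e c').2]
      refine ⟨x', ?_, ?_⟩
      · intro i hi
        simp only [hx', dif_pos hi]
        exact hp _
      · rw [hsumσ, h1, hinv]
  have hmeas : MeasurableSet (oCone (rv R) σ) := by
    rw [hset]
    have h1 : {p : Fin n → ℝ | ∀ c', 0 < (A⁻¹.mulVec p) c'} =
        ⋂ c', {p | 0 < (A⁻¹.mulVec p) c'} := by
      ext p; simp
    rw [h1]
    refine MeasurableSet.iInter fun c' => ?_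
    exact measurableSet_lt measurable_const
      ((measurable_pi_apply c').comp (Continuous.matrix_mulVec continuous_const continuous_id).measurable)
  refine ⟨hmeas, ?_, ?_⟩
  · have hne : ∀ᵐ p : Fin n → ℝ, ∀ c', (A⁻¹.mulVec p) c' ≠ 0 := by
      rw [ae_all_iff]; intro c'
      have hB : (fun c'' => A⁻¹ c' c'') ≠ 0 := by
        intro h0
        have h1 := hinv' (Pi.single c' 1)
        have h2 := congrFun h1 c'
        simp only [Matrix.mulVec, dotProduct, Pi.single_eq_same] at h2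
        have h3 : ∀ c'', A⁻¹ c' c'' = 0 := fun c'' => congrFun h0 c''
        simp [h3] at h2
      exact H22.ae_form_ne _ hB
    filter_upwards [hne] with p hp hpc
    rw [hset]
    obtain ⟨x, hx0, hx⟩ := hpc
    intro c'
    have h1 := hp c'
    rw [hx, hsumσ, hinv'] at h1 ⊢
    exact lt_of_le_of_ne (hx0 _ (e c').2) (Ne.symm h1)
  · intro s hs
    have hw1 : ∀ w : R, (1 : ℝ) ≤ H22.wsum w.1 := by
      intro w
      have h1 : 0 < H22.wsum w.1 := by
        rw [Nat.pos_iff_ne_zero]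
        intro h0
        unfold H22.wsum at h0
        rw [Finset.sum_eq_zero_iff] at h0
        exact hR w.1 w.2 (funext fun j => h0 j (Finset.mem_univ _))
      exact_mod_cast h1
    have hβ : ∀ w : R, (0 : ℝ) < (H22.wsum w.1 : ℝ) + s * ((∑ j, c j * w.1 j : ℕ) : ℝ) := by
      intro w
      have h1 := hw1 w
      have h2 : (0 : ℝ) ≤ ((∑ j, c j * w.1 j : ℕ) : ℝ) := Nat.cast_nonneg _
      have h3 := mul_nonneg hs.le h2
      linarith
    have hpos : 0 < (mulS σ : ℝ) *
        ∏ w ∈ σ, (1 / ((H22.wsum w.1 : ℝ) + s * ((∑ j, c j * w.1 j : ℕ) : ℝ))) := by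
      apply mul_pos
      · rw [hmul]; exact abs_pos.2 hAdet
      · exact Finset.prod_pos fun w _ => one_div_pos.2 (hβ w)
    refine ⟨?_, hpos⟩
    have hrefl : (A.submatrix id (Equiv.refl (Fin n))).det = A.det := rfl
    rw [H22.change_var_real A (Equiv.refl _) (by rw [hrefl]; exact hAdet), hrefl, ← hmul]
    congr 1
    have hpt : ∀ x : Fin n → ℝ, (oCone (rv R) σ).indicator
        (fun k => Real.exp (-∑ j, (1 + s * c j) * k j)) (A.mulVec x) =
        ∏ c', (if 0 < x c' then Real.exp (-(x c' *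
          ((H22.wsum (e c').1.1 : ℝ) + s * ((∑ j, c j * (e c').1.1 j : ℕ) : ℝ)))) else 0) := by
      intro x
      by_cases hx : ∀ c', 0 < x c'
      · have hmemV : A.mulVec x ∈ oCone (rv R) σ := by
          rw [hset]
          intro c'; rw [hinv']; exact hx c'
        rw [Set.indicator_of_mem hmemV]
        have e3 : ∏ c', (if 0 < x c' then Real.exp (-(x c' *
          ((H22.wsum (e c').1.1 : ℝ) + s * ((∑ j, c j * (e c').1.1 j : ℕ) : ℝ)))) else 0) =
            Real.exp (∑ c', -(x c' *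
          ((H22.wsum (e c').1.1 : ℝ) + s * ((∑ j, c j * (e c').1.1 j : ℕ) : ℝ)))) := by
          rw [Real.exp_sum]
          exact Finset.prod_congr rfl fun c' _ => if_pos (hx c')
        rw [e3]
        congr 1
        rw [← Finset.sum_neg_distrib]
        have e4 : ∀ j, -((1 + s * (c j : ℝ)) * (A.mulVec x) j) =
            ∑ c', -((1 + s * (c j : ℝ)) * (((e c').1.1 j : ℝ) * x c')) := by
          intro j
          rw [Finset.sum_neg_distrib, ← Finset.mul_sum]
          rfl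
        simp only [e4]
        rw [Finset.sum_comm]
        refine Finset.sum_congr rfl fun c' _ => ?_
        rw [Finset.sum_neg_distrib]
        congr 1
        unfold H22.wsum
        push_cast
        rw [mul_add, Finset.mul_sum, Finset.mul_sum, Finset.mul_sum, ← Finset.sum_add_distrib]
        exact Finset.sum_congr rfl fun j _ => by ring
      · have hnm : A.mulVec x ∉ oCone (rv R) σ := by
          intro h
          apply hx
          intro c'
          rw [hset] at h
          have := h c'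
          rwa [hinv'] at this
        rw [Set.indicator_of_notMem hnm]
        push Not at hx
        obtain ⟨c', hc'⟩ := hx
        exact (Finset.prod_eq_zero (Finset.mem_univ c') (if_neg (not_lt.mpr hc'))).symm
    simp only [hpt]
    rw [integral_fintype_prod_volume_eq_prod (fun (c' : Fin n) (u : ℝ) =>
      if 0 < u then Real.exp (-(u * ((H22.wsum (e c').1.1 : ℝ) +
        s * ((∑ j, c j * (e c').1.1 j : ℕ) : ℝ)))) else 0)]
    rw [Finset.prod_congr rfl fun c' _ => H22.integral_exp_pos (hβ (e c').1)]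
    rw [← Finset.prod_coe_sort σ (fun w : R =>
      1 / ((H22.wsum w.1 : ℝ) + s * ((∑ j, c j * w.1 j : ℕ) : ℝ)))]
    exact Equiv.prod_comp e (fun w : σ =>
      1 / ((H22.wsum w.1.1 : ℝ) + s * ((∑ j, c j * w.1.1 j : ℕ) : ℝ)))

/-- the sum over one family -/
theorem ZNI_sum {n : ℕ} (R : Finset (Fin n → ℕ)) (hR : ∀ w ∈ R, w ≠ 0) (c : Fin n → ℕ)
    (S : Finset (Finset R))
    (hi : ∀ σ ∈ S, LinearIndepOn ℝ (rv R) (σ : Set R) ∧ σ.card = n)
    (hd : ∀ σ ∈ S, ∀ σ' ∈ S, σ ≠ σ' → Disjoint (oCone (rv R) σ) (oCone (rv R) σ'))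
    (s : ℝ) (hs : 0 < s) :
    ∑ σ ∈ S, (mulS σ : ℝ) *
        ∏ w ∈ σ, (1 / ((H22.wsum w.1 : ℝ) + s * ((∑ j, c j * w.1 j : ℕ) : ℝ))) =
      ∫ k : Fin n → ℝ, {y | ∃ σ ∈ S, y ∈ cCone (rv R) σ}.indicator
        (fun k => Real.exp (-∑ j, (1 + s * c j) * k j)) k := by
  classical
  rw [← Finset.sum_congr rfl fun σ hσ =>
    ((ZNI_cone R hR c σ (hi σ hσ).1 (hi σ hσ).2).2.2 s hs).1]
  rw [← integral_finsetSum]
  · apply integral_congr_ae
    have hae : ∀ᵐ k : Fin n → ℝ, ∀ σ ∈ S, k ∈ cCone (rv R) σ → k ∈ oCone (rv R) σ := by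
      rw [Filter.eventually_all_finset]
      intro σ hσ
      exact (ZNI_cone R hR c σ (hi σ hσ).1 (hi σ hσ).2).2.1
    filter_upwards [hae] with k hk
    by_cases h : ∃ σ ∈ S, k ∈ cCone (rv R) σ
    · have hm : k ∈ {y | ∃ σ ∈ S, y ∈ cCone (rv R) σ} := h
      rw [Set.indicator_of_mem hm]
      obtain ⟨σ, hσ, hkσ⟩ := h
      rw [Finset.sum_eq_single σ, Set.indicator_of_mem (hk σ hσ hkσ)]
      · intro σ' hσ' hne
        apply Set.indicator_of_notMem
        intro hk'
        exact (Set.disjoint_left.mp (hd σ hσ σ' hσ' (Ne.symm hne))) (hk σ hσ hkσ) hk'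
      · intro h'; exact absurd hσ h'
    · have hm : k ∉ {y | ∃ σ ∈ S, y ∈ cCone (rv R) σ} := h
      rw [Set.indicator_of_notMem hm]
      apply Finset.sum_eq_zero
      intro σ hσ
      apply Set.indicator_of_notMem
      rintro ⟨x, hx, hx'⟩
      exact h ⟨σ, hσ, x, fun i hi => (hx i hi).le, hx'⟩
  · intro σ hσ
    have h1 := (ZNI_cone R hR c σ (hi σ hσ).1 (hi σ hσ).2).2.2 s hs
    by_contra h2
    have h3 := integral_undef h2
    rw [h1.1] at h3
    exact absurd h3 h1.2.ne'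

/-- ZNI -/
theorem lin_eq {n : ℕ} (R : Finset (Fin n → ℕ)) (hR : ∀ w ∈ R, w ≠ 0) (c : Fin n → ℕ)
    (S S' : Finset (Finset R))
    (hi : ∀ σ ∈ S, LinearIndepOn ℝ (rv R) (σ : Set R) ∧ σ.card = n)
    (hi' : ∀ σ ∈ S', LinearIndepOn ℝ (rv R) (σ : Set R) ∧ σ.card = n)
    (hd : ∀ σ ∈ S, ∀ σ' ∈ S, σ ≠ σ' → Disjoint (oCone (rv R) σ) (oCone (rv R) σ'))
    (hd' : ∀ σ ∈ S', ∀ σ' ∈ S', σ ≠ σ' → Disjoint (oCone (rv R) σ) (oCone (rv R) σ'))
    (hcov : ∀ y, (∃ σ ∈ S, y ∈ cCone (rv R) σ) ↔ ∃ σ ∈ S', y ∈ cCone (rv R) σ) :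
    ∑ σ ∈ S, tmV c σ = ∑ σ ∈ S', tmV c σ := by
  classical
  have hw : ∀ w : R, 0 < H22.wsum w.1 := by
    intro w
    rw [Nat.pos_iff_ne_zero]
    intro h0
    unfold H22.wsum at h0
    rw [Finset.sum_eq_zero_iff] at h0
    exact hR w.1 w.2 (funext fun j => h0 j (Finset.mem_univ _))
  have hgood : ∀ T : Finset (Finset R), H22.GoodR (∑ σ ∈ T, tmV c σ)
      (fun s => ((∑ σ ∈ T, (mulS σ : ℝ) *
        ∏ w ∈ σ, (1 / ((H22.wsum w.1 : ℝ) + s * ((∑ j, c j * w.1 j : ℕ) : ℝ))) : ℝ) : ℂ)) := by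
    intro T
    refine H22.GoodR.congr (H22.GoodR.sum _ fun σ _ => (H22.GoodR.natCast _).mul
      (H22.GoodR.prod _ fun w _ => H22.GoodR.inv_linear (hw w))) ?_
    intro s _
    push_cast
    rfl
  refine ZNI_goodR_unique (hgood S) (H22.GoodR.congr (hgood S') ?_)
  intro s hs
  rw [ZNI_sum R hR c S hi hd s hs, ZNI_sum R hR c S' hi' hd' s hs]
  congr 2
  funext k
  congr 1
  ext y
  exact hcov y

end Pool.Agent.H56.SMC
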