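import Pool.Agent.H56.SMC.ZNQ
import Pool.Agent.H56.SMC.ZNI

/-!
# ZNV: the cone of an apex

Notation: `e = eN k0`, `p` an exponent with `a_p k0 = 1` such that `{p}` is a face, `G0 = raysIn a R {p}`, `G = insert e G0`.  `e ∉ G0`, since some `i` has `a_i k0 = 0 < 1`.
`span_vertex`: a weight vector `k` with minimal set `{p}`, moved by small multiples of `(1,…,1)`, is an interior point of `minCone a {p}`; every `y` is a difference of multiples of points of `minCone a {p}`, which is generated by `G0` (`hR.gen`).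
`vert_lin`: `lin_eq` for the two families; elements of `upT R h G n` are independent with `n` elements, so they span everything, `disjoint_oCone` applies; `cover_upper` (`ℓ = ∑ proj`) shows that both families cover exactly `cCone (rv R) G` (simplices whose span contains all `v l`, `l ∈ G`, have `n` elements by `hspan`).
-/

set_option autoImplicit false

namespace Pool.Agent.H56.SMC

open Finset H60.RegTri

theorem ZNV_cCone_span {n : ℕ} {R : Finset (Fin n → ℕ)} {G : Finset R} {y : Fin n → ℝ}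
    (h : y ∈ cCone (rv R) G) : y ∈ Submodule.span ℝ (rv R '' (G : Set R)) := by
  obtain ⟨x, -, hx⟩ := h
  exact (mem_span_iff _ _ _).2 ⟨x, hx⟩

theorem ZNV_move {n r : ℕ} (a : Fin r → (Fin n →₀ ℕ)) (p : Fin r) (k : Fin n → ℝ)
    (hk0 : ∀ j, 0 ≤ k j)
    (hk : ∀ l, l ≠ p → ∑ j, (a p j : ℝ) * k j < ∑ j, (a l j : ℝ) * k j)
    (u : Fin n → ℝ) (hu : ∀ j, 0 ≤ u j) :
    ∃ ε : ℝ, 0 < ε ∧ k + ε • u ∈ H22.minCone a {p} := by
  have hev : ∀ᶠ ε : ℝ in nhds 0, ∀ l, l ≠ p →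
      ∑ j, (a p j : ℝ) * (k + ε • u) j < ∑ j, (a l j : ℝ) * (k + ε • u) j := by
    rw [Filter.eventually_all]
    intro l
    by_cases hl : l = p
    · exact Filter.Eventually.of_forall fun ε h => absurd hl h
    · have hc1 : Continuous fun ε : ℝ => ∑ j, (a p j : ℝ) * (k + ε • u) j := by
        simp only [Pi.add_apply, Pi.smul_apply, smul_eq_mul]
        fun_prop
      have hc2 : Continuous fun ε : ℝ => ∑ j, (a l j : ℝ) * (k + ε • u) j := by
        simp only [Pi.add_apply, Pi.smul_apply, smul_eq_mul]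
        fun_prop
      have h0 : ∑ j, (a p j : ℝ) * (k + (0 : ℝ) • u) j <
          ∑ j, (a l j : ℝ) * (k + (0 : ℝ) • u) j := by
        simpa using hk l hl
      exact ((hc1.continuousAt (x := 0)).eventually_lt (hc2.continuousAt (x := 0)) h0).mono
        fun ε h _ => h
  have hev2 : ∀ᶠ ε : ℝ in nhdsWithin 0 (Set.Ioi 0), ∀ l, l ≠ p →
      ∑ j, (a p j : ℝ) * (k + ε • u) j < ∑ j, (a l j : ℝ) * (k + ε • u) j :=
    nhdsWithin_le_nhds hev
  have hpos : ∀ᶠ ε : ℝ in nhdsWithin 0 (Set.Ioi 0), ε ∈ Set.Ioi (0 : ℝ) := self_mem_nhdsWithin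
  obtain ⟨ε, h1, h2⟩ := (hev2.and hpos).exists
  have hε : (0 : ℝ) < ε := h2
  refine ⟨ε, hε, fun j => ?_, ?_⟩
  · simp only [Pi.add_apply, Pi.smul_apply, smul_eq_mul]
    exact add_nonneg (hk0 j) (mul_nonneg hε.le (hu j))
  · intro i hi l
    rw [Finset.mem_singleton] at hi
    subst hi
    by_cases hl : l = i
    · rw [hl]
    · exact (h1 l hl).le

theorem span_vertex {n r : ℕ} (a : Fin r → (Fin n →₀ ℕ)) (R : Finset (Fin n → ℕ))
    (hR : RaySet a R) (p : Fin r) (hF : H22.IsFace a {p}) (y : Fin n → ℝ) :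
    y ∈ Submodule.span ℝ (rv R '' (raysIn a R {p} : Set R)) := by
  obtain ⟨k, hk0, hk⟩ := hF
  have hp : ∀ l', ∑ j, (a p j : ℝ) * k j ≤ ∑ j, (a l' j : ℝ) * k j :=
    (hk p).1 (Finset.mem_singleton_self p)
  have hlt : ∀ l, l ≠ p → ∑ j, (a p j : ℝ) * k j < ∑ j, (a l j : ℝ) * k j := by
    intro l hl
    by_contra hcon
    push Not at hcon
    exact hl (Finset.mem_singleton.1 ((hk l).2 fun l' => hcon.trans (hp l')))
  have hgen : ∀ z ∈ H22.minCone a {p},
      z ∈ Submodule.span ℝ (rv R '' (raysIn a R {p} : Set R)) := fun z hz =>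
    ZNV_cCone_span (hR.gen {p} (Finset.singleton_nonempty p) z hz)
  have hkm : k ∈ H22.minCone a {p} := by
    refine ⟨hk0, fun i hi l => ?_⟩
    rw [Finset.mem_singleton] at hi
    rw [hi]
    exact hp l
  have hnn : ∀ u : Fin n → ℝ, (∀ j, 0 ≤ u j) →
      u ∈ Submodule.span ℝ (rv R '' (raysIn a R {p} : Set R)) := by
    intro u hu
    obtain ⟨ε, hε, hm⟩ := ZNV_move a p k hk0 hlt u hu
    have h1 := Submodule.sub_mem _ (hgen _ hm) (hgen _ hkm)
    rw [add_sub_cancel_left] at h1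
    have h2 := Submodule.smul_mem _ ε⁻¹ h1
    rwa [smul_smul, inv_mul_cancel₀ hε.ne', one_smul] at h2
  have h1 := hnn (fun j => y j + |y j|) (fun j => by linarith [neg_abs_le (y j)])
  have h2 := hnn (fun j => |y j|) (fun j => abs_nonneg _)
  have h3 := Submodule.sub_mem _ h1 h2
  have h4 : (fun j => y j + |y j|) - (fun j => |y j|) = y := by
    funext j
    simp
  rwa [h4] at h3

theorem ZNV_top {n : ℕ} {R : Finset (Fin n → ℕ)} {σ : Finset R}
    (hi : LinearIndepOn ℝ (rv R) (σ : Set R)) (hc : σ.card = n) (y : Fin n → ℝ) :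
    y ∈ Submodule.span ℝ (rv R '' (σ : Set R)) := by
  have h1 : Module.finrank ℝ (Submodule.span ℝ (rv R '' (σ : Set R))) = n := by
    have h2 : LinearIndependent ℝ (fun i : (σ : Set R) => rv R i) := hi
    have h3 := finrank_span_eq_card h2
    rw [show Set.range (fun i : (σ : Set R) => rv R i) = rv R '' (σ : Set R) by
      ext z; simp] at h3
    rw [h3]
    simp [hc]
  have h4 : Submodule.span ℝ (rv R '' (σ : Set R)) = ⊤ := by
    apply Submodule.eq_top_of_finrank_eq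
    rw [h1]
    simp
  rw [h4]
  trivial

theorem ZNV_card {n : ℕ} {R : Finset (Fin n → ℕ)} {σ : Finset R}
    (hi : LinearIndepOn ℝ (rv R) (σ : Set R))
    (hs : ∀ y, y ∈ Submodule.span ℝ (rv R '' (σ : Set R))) : σ.card = n := by
  have h2 : LinearIndependent ℝ (fun i : (σ : Set R) => rv R i) := hi
  have h3 := finrank_span_eq_card h2
  rw [show Set.range (fun i : (σ : Set R) => rv R i) = rv R '' (σ : Set R) by
    ext z; simp] at h3
  have h4 : Submodule.span ℝ (rv R '' (σ : Set R)) = ⊤ := by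
    rw [eq_top_iff]
    intro y _
    exact hs y
  rw [h4] at h3
  simp at h3
  omega

theorem ZNV_cover {n : ℕ} (R : Finset (Fin n → ℕ)) (hR : ∀ w ∈ R, w ≠ 0) (h : R → ℝ)
    (hh : ∀ τ, GenericOn (rv R) h τ) (G : Finset R)
    (hspan : ∀ y, y ∈ Submodule.span ℝ (rv R '' (G : Set R))) (y : Fin n → ℝ) :
    (∃ σ ∈ upT R h G n, y ∈ cCone (rv R) σ) ↔ y ∈ cCone (rv R) G := by
  classical
  constructor
  · rintro ⟨σ, hσ, x, hx, hy⟩
    obtain ⟨hσ1, -⟩ := mem_upT.1 hσ
    refine ⟨fun i => if i ∈ σ then x i else 0, fun i _ => ?_, ?_⟩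
    · by_cases hi : i ∈ σ
      · simp only [if_pos hi]
        exact hx i hi
      · simp only [if_neg hi]
        exact le_rfl
    · rw [hy, ← Finset.sum_subset hσ1.1]
      · exact Finset.sum_congr rfl fun i hi => by simp only [if_pos hi]
      · intro i _ hi
        simp only [if_neg hi, zero_smul]
  · intro hy
    let ℓ : (Fin n → ℝ) →ₗ[ℝ] ℝ := ∑ j, LinearMap.proj j
    have hℓ : ∀ i ∈ G, 0 < ℓ (rv R i) := by
      intro i _
      have h1 : ℓ (rv R i) = ∑ j, (i.1 j : ℝ) := by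
        simp [ℓ, rv, H22.toReal]
      rw [h1]
      have h2 : ∃ j, i.1 j ≠ 0 := by
        by_contra hcon
        push Not at hcon
        exact hR i.1 i.2 (funext hcon)
      obtain ⟨j, hj⟩ := h2
      refine Finset.sum_pos' (fun j _ => Nat.cast_nonneg _) ⟨j, Finset.mem_univ j, ?_⟩
      exact_mod_cast Nat.pos_of_ne_zero hj
    obtain ⟨σ, h1, h2, h3⟩ := cover_upper (rv R) h G ℓ hℓ (hh G) y hy
    refine ⟨σ, mem_upT.2 ⟨h1, ?_⟩, h3⟩
    refine ZNV_card h1.2.1 fun z => ?_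
    have h4 : Submodule.span ℝ (rv R '' (G : Set R)) ≤ Submodule.span ℝ (rv R '' (σ : Set R)) := by
      rw [Submodule.span_le]
      rintro _ ⟨l, hl, rfl⟩
      exact h2 l hl
    exact h4 (hspan z)

theorem vert_lin {n r : ℕ} (a : Fin r → (Fin n →₀ ℕ)) (R : Finset (Fin n → ℕ))
    (hR : RaySet a R) (h h' : R → ℝ) (hh : ∀ τ, GenericOn (rv R) h τ)
    (hh' : ∀ τ, GenericOn (rv R) h' τ) (G : Finset R)
    (hspan : ∀ y, y ∈ Submodule.span ℝ (rv R '' (G : Set R))) (c : Fin n → ℕ) :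
    ∑ σ ∈ upT R h G n, tmV c σ = ∑ σ ∈ upT R h' G n, tmV c σ := by
  have hR0 : ∀ w ∈ R, w ≠ 0 := fun w hw => (hR.facet w hw).1
  have hdis : ∀ h : R → ℝ, ∀ σ ∈ upT R h G n, ∀ σ' ∈ upT R h G n, σ ≠ σ' →
      Disjoint (oCone (rv R) σ) (oCone (rv R) σ') := by
    intro h σ hσ σ' hσ' hne
    obtain ⟨h1, h2⟩ := mem_upT.1 hσ
    obtain ⟨h3, h4⟩ := mem_upT.1 hσ'
    exact disjoint_oCone (rv R) h G σ σ' h1 (fun l _ => ZNV_top h1.2.1 h2 _) h3
      (fun l _ => ZNV_top h3.2.1 h4 _) hne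
  refine lin_eq R hR0 c _ _ ?_ ?_ (hdis h) (hdis h') ?_
  · intro σ hσ
    obtain ⟨h1, h2⟩ := mem_upT.1 hσ
    exact ⟨h1.2.1, h2⟩
  · intro σ hσ
    obtain ⟨h1, h2⟩ := mem_upT.1 hσ
    exact ⟨h1.2.1, h2⟩
  · intro y
    rw [ZNV_cover R hR0 h hh G hspan y, ZNV_cover R hR0 h' hh' G hspan y]

end Pool.Agent.H56.SMC
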