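import Pool.Agent.H56.SMC.ZNQ
import Pool.Agent.H56.SMC.ZNV
import Pool.Agent.H56.SMC.ZNL
import Pool.Agent.H56.SMC.ZNP

/-!
# ZNVU: from the edge to the apex

Notation: `e = eN k0`, `p` an exponent with `a_p k0 = 1` such that `{p}` is a face, `G0 = raysIn a R {p}`, `G = insert e G0`.  `e ∉ G0`, since some `i` has `a_i k0 = 0 < 1`.
`vpair_up`: `τ = {p, q}` by rank two: `pp_apex` and `rank_one` for `τ.erase p` (`faceRank_pyr`).  `insert e B ⊆ G`, independent (`a_q - a_p` vanishes on `B` and is `-1` on `e`).  Upper for `hm`: for `l ∈ G0`, `v_l = ∑ β_i v_i`, apply `a_q - a_p`: `-β_e ≥ 0`; if `β_e < 0` use `botl`, if `β_e = 0` then `l ∈ raysIn a R τ`, and `B` is upper in it.  Multiplicity: `mulS_insert`, `φ = a_q - a_p`.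
-/

set_option autoImplicit false

namespace Pool.Agent.H56.SMC

open Finset H60.RegTri

theorem ZNVU_mono {n r : ℕ} (a : Fin r → (Fin n →₀ ℕ)) (p : Fin r) (τ : Finset (Fin r))
    (hp : p ∈ τ) (k : Fin n → ℝ) (h : k ∈ H22.minCone a τ) : k ∈ H22.minCone a {p} := by
  refine ⟨h.1, ?_⟩
  intro i hi l
  rw [Finset.mem_singleton] at hi
  subst hi
  exact h.2 _ hp l

/-- the functional `a_q - a_p` -/
theorem ZNVU_phi_sum {n r : ℕ} (a : Fin r → (Fin n →₀ ℕ)) (p q : Fin r) {ι : Type*}
    (s : Finset ι) (β : ι → ℝ) (v : ι → Fin n → ℝ) (y : Fin n → ℝ)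
    (h : y = ∑ i ∈ s, β i • v i) :
    ∑ j, ((a q j : ℝ) - (a p j : ℝ)) * y j =
      ∑ i ∈ s, β i * ∑ j, ((a q j : ℝ) - (a p j : ℝ)) * v i j := by
  subst h
  simp only [Finset.sum_apply, Pi.smul_apply, smul_eq_mul, Finset.mul_sum]
  rw [Finset.sum_comm]
  refine Finset.sum_congr rfl fun i _ => Finset.sum_congr rfl fun j _ => ?_
  ring

/-- ZNV -/
theorem vpair_up {n r : ℕ} (a : Fin r → (Fin n →₀ ℕ)) (ha : Function.Injective a)
    (R : Finset (Fin n → ℕ)) (hR : RaySet a R) (s0 : ℂ) (k0 : Fin n) (hp hm : R → ℝ)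
    (ht : TopBot (rv R) ⟨eN k0, hR.unit k0⟩ hp hm) (p : Fin r) (h1 : a p k0 = 1)
    (hcrit : ∀ w ∈ R, CritW a s0 w → H22.toReal w ∈ H22.minCone a {p} → B1 a w k0)
    (τ : Finset (Fin r)) (hτ : τ ∈ PP a R s0 k0) (hpτ : p ∈ τ) (h2 : H22.faceRank a τ = 2)
    (B : Finset R) (hB : B ∈ upT R hp (raysIn a R τ) (n + 1 - H22.faceRank a τ)) :
    ⟨eN k0, hR.unit k0⟩ ∉ B ∧ insert ⟨eN k0, hR.unit k0⟩ B ∈
      upT R hm (insert ⟨eN k0, hR.unit k0⟩ (raysIn a R {p})) n ∧
      mulS (insert ⟨eN k0, hR.unit k0⟩ B) = mulS B := by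
  classical
  set e : R := ⟨eN k0, hR.unit k0⟩ with he
  obtain ⟨hU, hcard⟩ := mem_upT.1 hB
  obtain ⟨hBsub, hBind, hBup⟩ := hU
  -- the apex of `τ` is `p`
  obtain ⟨p', hp'τ, hp'1, hp'0⟩ := pp_apex a R s0 k0 τ hτ
    (fun w hw hc hm => hcrit w hw hc (ZNVU_mono a p τ hpτ _ hm))
  have hpp : p = p' := by
    by_contra hne
    have := hp'0 p hpτ hne
    omega
  subst hpp
  -- the base is one exponent
  have herk : H22.faceRank a (τ.erase p) = 1 := by
    have h := faceRank_pyr a (τ.erase p) p k0 (fun i hi => hp'0 i (Finset.mem_of_mem_erase hi)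
      (Finset.ne_of_mem_erase hi)) (by omega)
    rw [Finset.insert_erase hpτ, h2] at h
    omega
  have hene : (τ.erase p).Nonempty := by
    rw [Finset.nonempty_iff_ne_empty]
    intro h0
    rw [h0] at herk
    unfold H22.faceRank at herk
    rw [Finset.coe_empty, Set.image_empty, Submodule.span_empty, finrank_bot] at herk
    exact absurd herk (by norm_num)
  obtain ⟨q, hq⟩ := rank_one a ha (τ.erase p) hene herk
  have hqe : q ∈ τ.erase p := by rw [hq]; exact Finset.mem_singleton_self q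
  have hqp : q ≠ p := Finset.ne_of_mem_erase hqe
  have hqτ : q ∈ τ := Finset.mem_of_mem_erase hqe
  have hq0 : a q k0 = 0 := hp'0 q hqτ hqp
  have hτmem : ∀ i ∈ τ, i = p ∨ i = q := by
    intro i hi
    by_cases hip : i = p
    · exact Or.inl hip
    · right
      have : i ∈ τ.erase p := Finset.mem_erase.2 ⟨hip, hi⟩
      rw [hq] at this
      exact Finset.mem_singleton.1 this
  -- the functional
  have hφe : ∑ j, ((a q j : ℝ) - (a p j : ℝ)) * rv R e j = -1 := by
    have : ∀ j, ((a q j : ℝ) - (a p j : ℝ)) * rv R e j =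
        if j = k0 then ((a q k0 : ℝ) - (a p k0 : ℝ)) else 0 := by
      intro j
      by_cases hj : j = k0
      · subst hj
        simp [rv, H22.toReal, he, eN]
      · simp [rv, H22.toReal, he, eN, hj]
    rw [Finset.sum_congr rfl fun j _ => this j, Finset.sum_ite_eq' Finset.univ k0]
    simp [h1, hq0]
  have hφτ : ∀ w ∈ raysIn a R τ, ∑ j, ((a q j : ℝ) - (a p j : ℝ)) * rv R w j = 0 := by
    intro w hw
    have hw' := mem_raysIn.1 hw
    have e1 := hw'.2 q hqτ p
    have e2 := hw'.2 p hpτ q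
    have e3 : ∑ j, ((a q j : ℝ) - (a p j : ℝ)) * rv R w j =
        ∑ j, (a q j : ℝ) * rv R w j - ∑ j, (a p j : ℝ) * rv R w j := by
      rw [← Finset.sum_sub_distrib]
      exact Finset.sum_congr rfl fun j _ => by ring
    rw [e3]
    linarith
  have hφp : ∀ w ∈ raysIn a R {p}, 0 ≤ ∑ j, ((a q j : ℝ) - (a p j : ℝ)) * rv R w j := by
    intro w hw
    have hw' := mem_raysIn.1 hw
    have e2 := hw'.2 p (Finset.mem_singleton_self p) q
    have e3 : ∑ j, ((a q j : ℝ) - (a p j : ℝ)) * rv R w j =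
        ∑ j, (a q j : ℝ) * rv R w j - ∑ j, (a p j : ℝ) * rv R w j := by
      rw [← Finset.sum_sub_distrib]
      exact Finset.sum_congr rfl fun j _ => by ring
    rw [e3]
    linarith
  have heB : e ∉ B := by
    intro h
    have := hφτ e (hBsub h)
    rw [hφe] at this
    norm_num at this
  have hsub : raysIn a R τ ⊆ raysIn a R {p} := by
    intro w hw
    exact mem_raysIn.2 (ZNVU_mono a p τ hpτ _ (mem_raysIn.1 hw))
  refine ⟨heB, ?_, ?_⟩
  · rw [mem_upT]
    have hind : LinearIndepOn ℝ (rv R) ((insert e B : Finset R) : Set R) := by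
      rw [Finset.coe_insert]
      rw [linearIndepOn_insert (by simpa using heB)]
      refine ⟨hBind, ?_⟩
      intro hmem
      obtain ⟨β, hβ⟩ := (mem_span_iff (rv R) B (rv R e)).1 hmem
      have h3 := ZNVU_phi_sum a p q B β (rv R) (rv R e) hβ
      rw [hφe, Finset.sum_eq_zero fun i hi => by rw [hφτ i (hBsub hi), mul_zero]] at h3
      norm_num at h3
    refine ⟨⟨Finset.insert_subset_insert _ (hBsub.trans hsub), hind, ?_⟩, ?_⟩
    · intro l hl hlB β hβ
      have hle : l ≠ e := fun h => hlB (h ▸ Finset.mem_insert_self _ _)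
      have hlB' : l ∉ B := fun h => hlB (Finset.mem_insert_of_mem h)
      have hl0 : l ∈ raysIn a R {p} := (Finset.mem_insert.1 hl).resolve_left hle
      have h3 := ZNVU_phi_sum a p q (insert e B) β (rv R) (rv R l) hβ
      rw [Finset.sum_insert heB, hφe,
        Finset.sum_eq_zero (s := B) fun i hi => by rw [hφτ i (hBsub hi), mul_zero]] at h3
      have h4 := hφp l hl0
      rcases lt_or_eq_of_le (show β e ≤ 0 by linarith) with hb | hb
      · exact ht.botl (insert e B) (Finset.mem_insert_self _ _) hind l hlB β hβ hb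
      · rw [Finset.sum_insert heB, hb, zero_smul, zero_add] at hβ
        have hlτ : l ∈ raysIn a R τ := by
          rw [mem_raysIn]
          have hl' := mem_raysIn.1 hl0
          refine ⟨hl'.1, ?_⟩
          intro i hi l'
          have hpl := hl'.2 p (Finset.mem_singleton_self p)
          rcases hτmem i hi with h | h
          · rw [h]
            exact hpl l'
          · have e3 : ∑ j, ((a q j : ℝ) - (a p j : ℝ)) * rv R l j =
                ∑ j, (a q j : ℝ) * rv R l j - ∑ j, (a p j : ℝ) * rv R l j := by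
              rw [← Finset.sum_sub_distrib]
              exact Finset.sum_congr rfl fun j _ => by ring
            rw [h]
            have h5 := hpl l'
            have h6 : ∑ j, ((a q j : ℝ) - (a p j : ℝ)) * rv R l j = 0 := by
              rw [h3, hb]
              ring
            rw [e3] at h6
            linarith
        have h7 := hBup l hlτ hlB' β hβ
        rw [Finset.sum_insert heB, hb, zero_mul, zero_add, ← ht.same l hle]
        refine lt_of_lt_of_eq h7 ?_
        refine Finset.sum_congr rfl fun i hi => ?_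
        rw [ht.same i (fun h => heB (h ▸ hi))]
    · rw [Finset.card_insert_of_notMem heB, hcard, h2]
      have : 0 < n := lt_of_le_of_lt (Nat.zero_le _) k0.2
      omega
  · refine mulS_insert B e heB (fun j => (a q j : ℤ) - (a p j : ℤ)) ?_ (Or.inr ?_)
    · intro w hw
      have h3 := hφτ w (hBsub hw)
      have h4 : ((∑ j, ((a q j : ℤ) - (a p j : ℤ)) * ((w.1 j : ℕ) : ℤ) : ℤ) : ℝ) = 0 := by
        push_cast
        exact h3
      exact_mod_cast h4
    · have h4 : ((∑ j, ((a q j : ℤ) - (a p j : ℤ)) * ((e.1 j : ℕ) : ℤ) : ℤ) : ℝ) = -1 := by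
        push_cast
        exact hφe
      exact_mod_cast h4

end Pool.Agent.H56.SMC
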