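import Pool.Agent.H56.SMC.ZNVD
import Pool.Agent.H56.SMC.ZNVU
import Pool.Agent.H56.SMC.ZNJT
import Pool.Agent.H56.SMC.ZNH

/-!
# ZNW: the term of an apex

Proof.  Heights by `exists_topBot` (`v = rv R`, `e = eN k0`); `G0 = raysIn a R {p}`, `G = insert e G0`, `e ∉ G0` (some `i` has `a_i k0 = 0 < 1 = a_p k0`).  `J_p = ∑_{σ ∈ upT hp G0 n} tm σ` (`jf_tri`, `faceRank_single`), and `tm a σ = tmV (a p) σ` for `σ ⊆ G0` (`H22.wmin_eq`).  `σ ∈ upT hp G0 n` iff `σ ∈ upT hm G n` and `e ∉ σ` (`hp = hm` away from `e`; `bot`).  The `σ ∈ upT hm G n` with `e ∈ σ` and with a critical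
element correspond to the pairs `(τ, B)`, `τ ∈ PP`, `p ∈ τ`, rank two, `B ∈ upT hp (raysIn a R τ)` with a critical element (`vpair_down`, `vpair_up`; injective: `τ` is determined by `B`: `τ = {p, q}`, both `τ₁`, `τ₂` are contained in the face of a critical `w ∈ B` … more directly: the `n - 1` independent elements of `B` and `e` determine `a_q`: `a_{q₁} - a_{q₂}` vanishes on `B` and on `e`, so `q₁ = q₂`), with
`tmV (a p) (insert e B) = tm a B * (X + 1)⁻¹` (`VV (a p) e = 1 + X`).  The other `σ ∈ upT hm G n` with `e ∈ σ` are regular.  `∑_{upT hm G n} tmV = ∑_{upT hp G n} tmV` (`vert_lin`, `span_vertex`), and the right side is regular by `vlow` (for `w ∈ σ`, `w ≠ e`, `VV (a p) w = WW a w`, regular inverse; for `e` `(1 + X)⁻¹` is regular as `s0 ≠ -1`).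
-/

set_option autoImplicit false

namespace Pool.Agent.H56.SMC

open Finset H60.RegTri

theorem znw_sum_unit {n : ℕ} (k0 : Fin n) (c : Fin n → ℕ) :
    ∑ j, c j * (eN k0) j = c k0 := by
  rw [Finset.sum_eq_single k0]
  · simp [eN]
  · intro j _ hj
    simp [eN, Pi.single_eq_of_ne hj]
  · intro h
    exact absurd (mem_univ _) h

theorem znw_sum_unitR {n : ℕ} (k0 : Fin n) (c : Fin n → ℝ) :
    ∑ j, c j * H22.toReal (eN k0) j = c k0 := by
  rw [Finset.sum_eq_single k0]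
  · simp [eN, H22.toReal]
  · intro j _ hj
    simp [eN, H22.toReal, Pi.single_eq_of_ne hj]
  · intro h
    exact absurd (mem_univ _) h

theorem znw_notMem {n r : ℕ} (a : Fin r → (Fin n →₀ ℕ)) (R : Finset (Fin n → ℕ)) (k0 : Fin n)
    (he : eN k0 ∈ R) (p : Fin r) (h1 : a p k0 = 1) (hex : ∃ i, a i k0 = 0) :
    (⟨eN k0, he⟩ : R) ∉ raysIn a R {p} := by
  rw [mem_raysIn]
  rintro ⟨-, h⟩
  obtain ⟨i, hi⟩ := hex
  have h2 := h p (mem_singleton_self p) i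
  have h3 := znw_sum_unitR k0 (fun j => (a p j : ℝ))
  have h4 := znw_sum_unitR k0 (fun j => (a i j : ℝ))
  simp only [rv] at h2
  rw [h3, h4, h1, hi] at h2
  norm_num at h2

theorem znw_wsum {n : ℕ} (k0 : Fin n) : H22.wsum (eN k0) = 1 := by
  have h := znw_sum_unit k0 (fun _ => 1)
  simpa [H22.wsum] using h

theorem znw_VV_unit {n : ℕ} (k0 : Fin n) (c : Fin n → ℕ) (h1 : c k0 = 1) :
    VV c (eN k0) = RatFunc.X + 1 := by
  unfold VV
  rw [znw_wsum, znw_sum_unit, h1]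
  push_cast
  ring

theorem znw_VV {n r : ℕ} (a : Fin r → (Fin n →₀ ℕ)) (τ : Finset (Fin r)) (p : Fin r)
    (hp : p ∈ τ) (w : Fin n → ℕ) (hw : H22.toReal w ∈ H22.minCone a τ) :
    VV (a p) w = WW a w := by
  unfold VV WW
  rw [H22.wmin_eq hw hp]

theorem znw_reg_inv {n r : ℕ} (a : Fin r → (Fin n →₀ ℕ)) (s0 : ℂ) (w : Fin n → ℕ)
    (hw : FacetNormal a w) (h : ¬ CritW a s0 w) : H37.SM.Reg s0 (WW a w)⁻¹ := by
  unfold WW
  apply H37.SM.reg_inv_linear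
  intro h0
  by_cases hN : H22.wmin a w = 0
  · rw [hN] at h0
    have h2 : (H22.wsum w : ℂ) = 0 := by simpa using h0
    have h3 : H22.wsum w = 0 := by exact_mod_cast h2
    apply hw.1
    funext j
    have h4 : w j ≤ H22.wsum w :=
      Finset.single_le_sum (f := w) (fun _ _ => Nat.zero_le _) (mem_univ j)
    show w j = 0
    omega
  · apply h
    refine ⟨hw, Nat.pos_of_ne_zero hN, ?_⟩
    have h2 : (H22.wmin a w : ℂ) ≠ 0 := by exact_mod_cast hN
    field_simp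
    linear_combination h0

theorem znw_reg_unit (s0 : ℂ) (hs0 : s0 ≠ -1) :
    H37.SM.Reg s0 (RatFunc.X + 1 : RatFunc ℂ)⁻¹ := by
  have h := H37.SM.reg_inv_linear (s0 := s0) 1 1 (by
    intro h
    apply hs0
    push_cast at h
    linear_combination h)
  have h2 : ((1 : ℕ) : RatFunc ℂ) + ((1 : ℕ) : RatFunc ℂ) * RatFunc.X = RatFunc.X + 1 := by
    push_cast
    ring
  rwa [h2] at h

theorem znw_reg_prod {ι : Type*} (s0 : ℂ) (S : Finset ι) (f : ι → RatFunc ℂ)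
    (h : ∀ i ∈ S, H37.SM.Reg s0 (f i)) : H37.SM.Reg s0 (∏ i ∈ S, f i) := by
  classical
  induction S using Finset.induction_on with
  | empty =>
    rw [Finset.prod_empty]
    have := H37.SM.reg_natCast (s0 := s0) 1
    rwa [Nat.cast_one] at this
  | insert i T hi ih =>
    rw [Finset.prod_insert hi]
    exact (h i (Finset.mem_insert_self i T)).mul
      (ih fun j hj => h j (Finset.mem_insert_of_mem hj))

/-- the contribution of a simplex without critical rays to the integral of the linear form -/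
theorem znw_tmV_reg {n r : ℕ} (a : Fin r → (Fin n →₀ ℕ)) (R : Finset (Fin n → ℕ))
    (hR : RaySet a R) (s0 : ℂ) (hs0 : s0 ≠ -1) (k0 : Fin n) (p : Fin r) (h1 : a p k0 = 1)
    (σ : Finset R) (hσ : σ ⊆ insert ⟨eN k0, hR.unit k0⟩ (raysIn a R {p}))
    (hc : ∀ w ∈ σ, ¬ CritW a s0 w.1) : H37.SM.Reg s0 (tmV (a p) σ) := by
  unfold tmV
  refine (H37.SM.reg_natCast _).mul (znw_reg_prod s0 σ _ fun w hw => ?_)
  rcases mem_insert.1 (hσ hw) with h | h
  · rw [h]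
    show H37.SM.Reg s0 (VV (a p) (eN k0))⁻¹
    rw [znw_VV_unit k0 _ h1]
    exact znw_reg_unit s0 hs0
  · rw [znw_VV a {p} p (mem_singleton_self p) w.1 (mem_raysIn.1 h)]
    exact znw_reg_inv a s0 w.1 (hR.facet w.1 w.2) (hc w hw)

/-- simplices of the apex away from `e` -/
theorem znw_away {n : ℕ} (R : Finset (Fin n → ℕ)) (e : R)
    (hp hm : R → ℝ) (ht : TopBot (rv R) e hp hm) (G0 : Finset R) (he : e ∉ G0) (d : ℕ)
    (σ : Finset R) : (σ ∈ upT R hm (insert e G0) d ∧ e ∉ σ) ↔ σ ∈ upT R hp G0 d := by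
  rw [mem_upT, mem_upT]
  have key : ∀ σ : Finset R, σ ⊆ G0 → ∀ β : R → ℝ,
      ∑ i ∈ σ, β i * hp i = ∑ i ∈ σ, β i * hm i := by
    intro σ hσ β
    refine Finset.sum_congr rfl fun i hi => ?_
    rw [ht.same i (fun h => he (h ▸ hσ hi))]
  constructor
  · rintro ⟨⟨⟨h1, h2, h3⟩, h4⟩, h5⟩
    have h6 : σ ⊆ G0 := by
      intro i hi
      rcases mem_insert.1 (h1 hi) with h | h
      · exact absurd (h ▸ hi) h5
      · exact h
    refine ⟨⟨h6, h2, ?_⟩, h4⟩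
    intro l hl hlσ β hβ
    rw [key σ h6 β, ht.same l (fun h => he (h ▸ hl))]
    exact h3 l (mem_insert_of_mem hl) hlσ β hβ
  · rintro ⟨⟨h1, h2, h3⟩, h4⟩
    have h5 : e ∉ σ := fun h => he (h1 h)
    refine ⟨⟨⟨h1.trans (subset_insert _ _), h2, ?_⟩, h4⟩, h5⟩
    intro l hl hlσ β hβ
    rcases mem_insert.1 hl with h | h
    · subst h
      exact ht.bot σ h5 h2 β hβ
    · rw [← key σ h1 β, ← ht.same l (fun h' => he (h' ▸ h))]
      exact h3 l h hlσ β hβ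

/-- the face is determined by a simplex which spans its cone -/
theorem znw_sub {n r : ℕ} (a : Fin r → (Fin n →₀ ℕ)) (R : Finset (Fin n → ℕ)) (h : R → ℝ)
    (τ₁ τ₂ : Finset (Fin r)) (p : Fin r) (hp1 : p ∈ τ₁) (hp2 : p ∈ τ₂)
    (hF : H22.IsFace a τ₁) (B : Finset R)
    (hB1 : B ∈ upT R h (raysIn a R τ₁) (n + 1 - H22.faceRank a τ₁))
    (hB2 : B ⊆ raysIn a R τ₂) : τ₂ ⊆ τ₁ := by
  obtain ⟨k, hk0, hk⟩ := hF
  have hkm : k ∈ H22.minCone a τ₁ := ⟨hk0, fun i hi l => (hk i).1 hi l⟩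
  rw [mem_upT] at hB1
  have hs := upT_span a R τ₁ ⟨p, hp1⟩ B hB1.1.1 hB1.1.2.1 hB1.2 k hkm
  rw [mem_span_iff] at hs
  obtain ⟨β, hβ⟩ := hs
  intro i hi
  have key : ∀ w ∈ B, ∑ j, (a i j : ℝ) * rv R w j = ∑ j, (a p j : ℝ) * rv R w j := by
    intro w hw
    have h2 := (mem_raysIn.1 (hB2 hw)).2
    exact le_antisymm (h2 i hi p) (h2 p hp2 i)
  have hlin : ∀ q : Fin r, ∑ j, (a q j : ℝ) * k j =
      ∑ w ∈ B, β w * ∑ j, (a q j : ℝ) * rv R w j := by
    intro q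
    rw [hβ]
    simp only [Finset.sum_apply, Pi.smul_apply, smul_eq_mul, Finset.mul_sum]
    rw [Finset.sum_comm]
    refine Finset.sum_congr rfl fun w _ => Finset.sum_congr rfl fun j _ => ?_
    ring
  rw [hk]
  intro l
  have h5 : ∑ j, (a i j : ℝ) * k j = ∑ j, (a p j : ℝ) * k j := by
    rw [hlin, hlin]
    exact Finset.sum_congr rfl fun w hw => by rw [key w hw]
  rw [h5]
  exact (hk p).1 hp1 l

/-- ZNW -/
theorem vert_reg {n r : ℕ} (a : Fin r → (Fin n →₀ ℕ)) (ha : Function.Injective a)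
    (R : Finset (Fin n → ℕ)) (hR : RaySet a R) (s0 : ℂ) (hs0 : s0 ≠ -1) (k0 : Fin n)
    (p : Fin r) (h1 : a p k0 = 1) (hF : H22.IsFace a {p}) (hex : ∃ i, a i k0 = 0)
    (hcrit : ∀ w ∈ R, CritW a s0 w → H22.toReal w ∈ H22.minCone a {p} → B1 a w k0)
    (𝒟 : ∀ τ, H22.FaceCones a τ) :
    H37.SM.Reg s0 (H22.JfunG a {p} (𝒟 {p}) + (RatFunc.X + 1)⁻¹ *
      ∑ τ ∈ (PP a R s0 k0).filter (fun τ => p ∈ τ ∧ H22.faceRank a τ = 2),
        H22.JfunG a τ (𝒟 τ)) := by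
  classical
  obtain ⟨hp, hm, ht⟩ := exists_topBot (rv R) (⟨eN k0, hR.unit k0⟩ : R)
  have heG : (⟨eN k0, hR.unit k0⟩ : R) ∉ raysIn a R {p} :=
    znw_notMem a R k0 (hR.unit k0) p h1 hex
  have hce : ¬ CritW a s0 (eN k0) := by
    rintro ⟨-, h, -⟩
    obtain ⟨i, hi⟩ := hex
    have h2 : H22.wmin a (eN k0) ≤ ∑ j, a i j * (eN k0) j := by
      unfold H22.wmin
      exact ciInf_le (OrderBot.bddBelow _) i
    rw [znw_sum_unit, hi] at h2
    omega
  have hJp : H22.JfunG a {p} (𝒟 {p}) = ∑ σ ∈ upT R hp (raysIn a R {p}) n, tm a σ := by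
    rw [jf_tri a R hR hp ht.genp {p} (singleton_nonempty p) hF (𝒟 {p}), faceRank_single,
      Nat.add_sub_cancel]
  set T := (PP a R s0 k0).filter (fun τ => p ∈ τ ∧ H22.faceRank a τ = 2) with hT
  set U : Finset (Fin r) → Finset (Finset R) :=
    fun τ => upT R hp (raysIn a R τ) (n + 1 - H22.faceRank a τ) with hU
  have hJτ : ∀ τ ∈ T, H22.JfunG a τ (𝒟 τ) = ∑ B ∈ (U τ).filter (fun B => ∃ w ∈ B, CritW a s0 w.1),
      tm a B + ∑ B ∈ (U τ).filter (fun B => ¬ ∃ w ∈ B, CritW a s0 w.1), tm a B := by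
    intro τ hτ
    rw [hT, mem_filter, mem_PP] at hτ
    rw [Finset.sum_filter_add_sum_filter_not]
    exact jf_tri a R hR hp ht.genp τ ⟨p, hτ.2.1⟩ hτ.1.1 (𝒟 τ)
  have hlin := vert_lin a R hR hm hp ht.genm ht.genp
    (insert ⟨eN k0, hR.unit k0⟩ (raysIn a R {p})) (fun y => by
      have h := span_vertex a R hR p hF y
      refine Submodule.span_mono (Set.image_mono ?_) h
      rw [coe_insert]
      exact Set.subset_insert _ _) (a p)
  have hreg1 : H37.SM.Reg s0 (∑ σ ∈ upT R hp (insert ⟨eN k0, hR.unit k0⟩ (raysIn a R {p})) n,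
      tmV (a p) σ) := by
    refine H37.SM.Reg.sum _ _ fun σ hσ => ?_
    refine znw_tmV_reg a R hR s0 hs0 k0 p h1 σ (mem_upT.1 hσ).1.1 ?_
    exact (vlow a R hR s0 k0 hp hm ht p h1 hex hcrit σ hσ).2
  -- splitting
  have hsplit1 := Finset.sum_filter_add_sum_filter_not
    (upT R hm (insert ⟨eN k0, hR.unit k0⟩ (raysIn a R {p})) n)
    (fun σ => (⟨eN k0, hR.unit k0⟩ : R) ∉ σ) (tmV (a p))
  have hsplit2 := Finset.sum_filter_add_sum_filter_not
    ((upT R hm (insert ⟨eN k0, hR.unit k0⟩ (raysIn a R {p})) n).filter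
      (fun σ => ¬ (⟨eN k0, hR.unit k0⟩ : R) ∉ σ))
    (fun σ => ∃ w ∈ σ, CritW a s0 w.1) (tmV (a p))
  have hA : ∑ σ ∈ (upT R hm (insert ⟨eN k0, hR.unit k0⟩ (raysIn a R {p})) n).filter
      (fun σ => (⟨eN k0, hR.unit k0⟩ : R) ∉ σ), tmV (a p) σ = H22.JfunG a {p} (𝒟 {p}) := by
    rw [hJp]
    have h2 : (upT R hm (insert ⟨eN k0, hR.unit k0⟩ (raysIn a R {p})) n).filter
        (fun σ => (⟨eN k0, hR.unit k0⟩ : R) ∉ σ) = upT R hp (raysIn a R {p}) n := by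
      ext σ
      rw [mem_filter]
      exact znw_away R _ hp hm ht _ heG n σ
    rw [h2]
    refine Finset.sum_congr rfl fun σ hσ => ?_
    unfold tmV tm
    congr 1
    refine Finset.prod_congr rfl fun w hw => ?_
    rw [znw_VV a {p} p (mem_singleton_self p) w.1
      (mem_raysIn.1 ((mem_upT.1 hσ).1.1 hw))]
  have hC : H37.SM.Reg s0 (∑ σ ∈ ((upT R hm (insert ⟨eN k0, hR.unit k0⟩
      (raysIn a R {p})) n).filter (fun σ => ¬ (⟨eN k0, hR.unit k0⟩ : R) ∉ σ)).filter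
      (fun σ => ¬ ∃ w ∈ σ, CritW a s0 w.1), tmV (a p) σ) := by
    refine H37.SM.Reg.sum _ _ fun σ hσ => ?_
    rw [mem_filter, mem_filter] at hσ
    refine znw_tmV_reg a R hR s0 hs0 k0 p h1 σ (mem_upT.1 hσ.1.1).1.1 ?_
    intro w hw hcw
    exact hσ.2 ⟨w, hw, hcw⟩
  have hB : ∑ σ ∈ ((upT R hm (insert ⟨eN k0, hR.unit k0⟩
      (raysIn a R {p})) n).filter (fun σ => ¬ (⟨eN k0, hR.unit k0⟩ : R) ∉ σ)).filter
      (fun σ => ∃ w ∈ σ, CritW a s0 w.1), tmV (a p) σ =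
      (RatFunc.X + 1)⁻¹ * ∑ τ ∈ T, ∑ B ∈ (U τ).filter (fun B => ∃ w ∈ B, CritW a s0 w.1),
        tm a B := by
    rw [Finset.sum_sigma', Finset.mul_sum]
    symm
    have hup : ∀ x ∈ T.sigma fun τ => (U τ).filter (fun B => ∃ w ∈ B, CritW a s0 w.1),
        (⟨eN k0, hR.unit k0⟩ : R) ∉ x.2 ∧ insert ⟨eN k0, hR.unit k0⟩ x.2 ∈
          upT R hm (insert ⟨eN k0, hR.unit k0⟩ (raysIn a R {p})) n ∧
          mulS (insert ⟨eN k0, hR.unit k0⟩ x.2) = mulS x.2 := by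
      intro x hx
      rw [mem_sigma, mem_filter, mem_filter] at hx
      exact vpair_up a ha R hR s0 k0 hp hm ht p h1 hcrit x.1 hx.1.1 hx.1.2.1 hx.1.2.2 x.2 hx.2.1
    refine Finset.sum_bij (fun x _ => insert (⟨eN k0, hR.unit k0⟩ : R) x.2) ?_ ?_ ?_ ?_
    · intro x hx
      have h2 := hup x hx
      rw [mem_sigma, mem_filter] at hx
      obtain ⟨w, hw, hcw⟩ := (mem_filter.1 hx.2).2
      rw [mem_filter, mem_filter]
      exact ⟨⟨h2.2.1, fun h => h (mem_insert_self _ _)⟩, w, mem_insert_of_mem hw, hcw⟩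
    · intro x hx y hy hxy
      have h2 := hup x hx
      have h3 := hup y hy
      have h4 : x.2 = y.2 := by
        rw [← erase_insert h2.1, ← erase_insert h3.1, hxy]
      rw [mem_sigma, mem_filter, mem_PP, mem_filter] at hx hy
      have h5 : x.1 = y.1 := by
        apply subset_antisymm
        · refine znw_sub a R hp y.1 x.1 p hy.1.2.1 hx.1.2.1 hy.1.1.1 y.2 hy.2.1 ?_
          rw [← h4]
          exact (mem_upT.1 hx.2.1).1.1
        · refine znw_sub a R hp x.1 y.1 p hx.1.2.1 hy.1.2.1 hx.1.1.1 x.2 hx.2.1 ?_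
          rw [h4]
          exact (mem_upT.1 hy.2.1).1.1
      exact Sigma.ext h5 (heq_of_eq h4)
    · intro σ hσ
      rw [mem_filter, mem_filter] at hσ
      have he : (⟨eN k0, hR.unit k0⟩ : R) ∈ σ := not_not.1 hσ.1.2
      obtain ⟨τ, hτ, hpτ, h2, h3⟩ := vpair_down a ha R hR s0 k0 hp hm ht p h1 hF hex hcrit σ
        hσ.1.1 he hσ.2
      refine ⟨⟨τ, σ.erase ⟨eN k0, hR.unit k0⟩⟩, ?_, insert_erase he⟩
      rw [mem_sigma, mem_filter, mem_filter]
      refine ⟨⟨hτ, hpτ, h2⟩, h3, ?_⟩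
      obtain ⟨w, hw, hcw⟩ := hσ.2
      refine ⟨w, mem_erase.2 ⟨?_, hw⟩, hcw⟩
      rintro rfl
      exact hce hcw
    · intro x hx
      have h2 := hup x hx
      rw [mem_sigma, mem_filter, mem_filter] at hx
      unfold tmV tm
      rw [Finset.prod_insert h2.1, h2.2.2]
      have h3 : ∏ w ∈ x.2, (VV (a p) w.1)⁻¹ = ∏ w ∈ x.2, (WW a w.1)⁻¹ := by
        refine Finset.prod_congr rfl fun w hw => ?_
        rw [znw_VV a x.1 p hx.1.2.1 w.1 (mem_raysIn.1 ((mem_upT.1 hx.2.1).1.1 hw))]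
      rw [h3, znw_VV_unit k0 _ h1]
      ring
  have hD : H37.SM.Reg s0 (∑ τ ∈ T, ∑ B ∈ (U τ).filter (fun B => ¬ ∃ w ∈ B, CritW a s0 w.1),
      tm a B) := by
    refine H37.SM.Reg.sum _ _ fun τ _ => H37.SM.Reg.sum _ _ fun B hB => ?_
    rw [mem_filter] at hB
    exact tm_reg a R hR s0 B fun w hw hcw => hB.2 ⟨w, hw, hcw⟩
  rw [Finset.sum_congr rfl hJτ, Finset.sum_add_distrib, mul_add, ← add_assoc, ← hB, ← hA]
  have hfin : ∀ x y z t u : RatFunc ℂ, x + (y + z) = t → x + y + u = t - z + u := by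
    intro x y z t u h
    rw [← h]
    ring
  rw [hfin _ _ _ _ _ (by rw [hsplit2, hsplit1, hlin])]
  exact (hreg1.sub hC).add ((znw_reg_unit s0 hs0).mul hD)

end Pool.Agent.H56.SMC
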