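import Pool.Agent.H56.SMC.ZNQ
import Pool.Agent.H56.SMC.ZNJ
import Pool.Agent.H56.SMC.ZNL
import Pool.Agent.H56.SMC.ZNP

/-!
# ZNQD: from the base to the pyramid

Notation: `e = eN k0`.  `B1 a w k0`: all exponents on the face of `w` have `a_k0 = 0`, except one, `p_w`, which has `a_k0 = 1`; `w k0 ≠ 0`.  If `toReal w ∈ minCone a τ` then every `i ∈ τ` is on the face of `w` (`H22.wmin_eq`).
`pair_down`: `e ∈ raysIn a R τ'` as `a_i k0 = 0` on `τ'`, `e ∈ σ` by `low_mem` (span: `upT_span`).  Let `x = ∑_{i ∈ σ.erase e} rv i`.  The critical `w ∈ σ` is different from `e` (`wmin a e = 0`), so `x k0 ≥ w k0 ≥ 1`.  By `low_pt` (`ℓ = ∑ proj`) `x - ε e ∉ cCone (raysIn a R τ')`, so `x - ε e ∉ minCone a τ'` (`hR.gen`) for all `ε > 0`.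
If all `l` with `a_l k0 > 0` had `a_l·x > a_q·x` (`q ∈ τ'`), then `x - ε e ∈ minCone a τ'` for small `ε`.  So there is `l` with `a_l k0 > 0` and `a_l·x = a_q·x`.  Let `τ` be the set of all exponents minimal at `x` (`IsFace` with `k = x`).  `i ∈ τ` iff `i` is minimal at all elements of `σ.erase e` (they lie in `minCone a τ'`, sum of nonnegative terms).  So `τ` is contained in
the face of `w`, `l ∈ τ`, and `τ = insert p (τ.filter (a_k0 = 0))`, `p = l`.  `τ' ⊆ τ.filter (a_k0 = 0)`; conversely if `i ∈ τ`, `a_i k0 = 0`, then `a_i - a_q` vanishes on `σ.erase e` and on `e`, hence on the span of `σ`, which contains `minCone a τ'` (`upT_span`), in particular on the weight vector with minimal set exactly `τ'` (`hF`): `i ∈ τ'`.  `σ.erase e ⊆ raysIn a R τ`, it is upper there: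
for `l ∈ raysIn a R τ` (`⊆ raysIn a R τ'`), `l ∉ σ.erase e`, we have `l ≠ e` (as `e ∉ minCone a τ`: `a_p k0 = 1 > a_q k0`), and a relation `v_l = ∑_{σ.erase e} β_i v_i` is one over `σ` with `β_e = 0`.  Cardinality: `faceRank_pyr`.
-/

set_option autoImplicit false

namespace Pool.Agent.H56.SMC

open Finset H60.RegTri

theorem znqd_dot_add {n : ℕ} (c x y : Fin n → ℝ) :
    ∑ j, c j * (x + y) j = ∑ j, c j * x j + ∑ j, c j * y j := by
  rw [← Finset.sum_add_distrib]
  refine Finset.sum_congr rfl fun j _ => ?_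
  rw [Pi.add_apply]
  ring

theorem znqd_dot_sum {n : ℕ} {ι : Type*} (c : Fin n → ℝ) (s : Finset ι) (v : ι → Fin n → ℝ) :
    ∑ j, c j * (∑ i ∈ s, v i) j = ∑ i ∈ s, ∑ j, c j * v i j := by
  rw [Finset.sum_comm]
  refine Finset.sum_congr rfl fun j _ => ?_
  rw [Finset.sum_apply, Finset.mul_sum]

theorem znqd_rv_e {n : ℕ} (R : Finset (Fin n → ℕ)) (k0 : Fin n) (h : eN k0 ∈ R) (j : Fin n) :
    rv R ⟨eN k0, h⟩ j = if j = k0 then 1 else 0 := by
  simp only [rv, H22.toReal, eN, Pi.single_apply]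
  split_ifs <;> simp

theorem znqd_dot_e {n : ℕ} (R : Finset (Fin n → ℕ)) (k0 : Fin n) (h : eN k0 ∈ R)
    (c : Fin n → ℝ) : ∑ j, c j * rv R ⟨eN k0, h⟩ j = c k0 := by
  rw [Finset.sum_eq_single k0]
  · rw [znqd_rv_e, if_pos rfl, mul_one]
  · intro j _ hj
    rw [znqd_rv_e, if_neg hj, mul_zero]
  · intro hk
    exact absurd (Finset.mem_univ k0) hk

theorem znqd_eps {r : ℕ} (d : Fin r → ℝ) (hd : ∀ l, 0 < d l) :
    ∃ ε : ℝ, 0 < ε ∧ ε ≤ 1 ∧ ∀ l, ε ≤ d l := by
  rcases isEmpty_or_nonempty (Fin r) with hE | hN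
  · exact ⟨1, one_pos, le_rfl, fun l => (IsEmpty.false l).elim⟩
  · obtain ⟨l0, hl0⟩ := Finite.exists_min d
    exact ⟨min 1 (d l0), lt_min one_pos (hd l0), min_le_left _ _,
      fun l => (min_le_right _ _).trans (hl0 l)⟩

theorem znqd_ell {n : ℕ} {r : ℕ} (a : Fin r → (Fin n →₀ ℕ)) (R : Finset (Fin n → ℕ))
    (hR : RaySet a R) (i : R) :
    0 < (∑ j, (LinearMap.proj j : (Fin n → ℝ) →ₗ[ℝ] ℝ)) (rv R i) := by
  rw [LinearMap.sum_apply]
  have hne : i.1 ≠ 0 := (hR.facet i.1 i.2).1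
  obtain ⟨j, hj⟩ := Function.ne_iff.mp hne
  refine Finset.sum_pos' (fun j _ => ?_) ⟨j, Finset.mem_univ j, ?_⟩
  · simp [rv, H22.toReal]
  · simp only [rv, H22.toReal, LinearMap.proj_apply]
    exact_mod_cast Nat.pos_of_ne_zero hj

theorem pair_down {n r : ℕ} (a : Fin r → (Fin n →₀ ℕ)) (R : Finset (Fin n → ℕ))
    (hR : RaySet a R) (s0 : ℂ) (k0 : Fin n) (hp hm : R → ℝ)
    (ht : TopBot (rv R) ⟨eN k0, hR.unit k0⟩ hp hm) (τ' : Finset (Fin r))
    (hF : H22.IsFace a τ') (hne : τ'.Nonempty) (h0 : ∀ i ∈ τ', a i k0 = 0)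
    (hcrit : ∀ w ∈ R, CritW a s0 w → H22.toReal w ∈ H22.minCone a τ' → B1 a w k0)
    (σ : Finset R) (hσ : σ ∈ upT R hp (raysIn a R τ') (n + 1 - H22.faceRank a τ'))
    (hc : ∃ w ∈ σ, CritW a s0 w.1) :
    ⟨eN k0, hR.unit k0⟩ ∈ σ ∧ ∃ τ ∈ PP a R s0 k0, τ.filter (fun i => a i k0 = 0) = τ' ∧
      σ.erase ⟨eN k0, hR.unit k0⟩ ∈ upT R hp (raysIn a R τ) (n + 1 - H22.faceRank a τ) := by
  classical
  set e : R := ⟨eN k0, hR.unit k0⟩ with he
  have heval : ∀ c : Fin n → ℝ, ∑ j, c j * rv R e j = c k0 := fun c => znqd_dot_e R k0 _ c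
  obtain ⟨hup, hcard⟩ := mem_upT.mp hσ
  obtain ⟨hsub, hind, hupper⟩ := hup
  obtain ⟨q0, hq0⟩ := hne
  have hcone : ∀ u ∈ σ, rv R u ∈ H22.minCone a τ' := fun u hu => mem_raysIn.mp (hsub hu)
  -- `e` lies in the cone
  have heG : e ∈ raysIn a R τ' := by
    rw [mem_raysIn]
    refine ⟨fun j => ?_, fun i hi l => ?_⟩
    · rw [he, znqd_rv_e]
      split_ifs <;> norm_num
    · rw [heval, heval, h0 i hi]
      simp
  have hspan : ∀ k ∈ H22.minCone a τ', k ∈ Submodule.span ℝ (rv R '' (σ : Set R)) :=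
    fun k hk => upT_span a R τ' ⟨q0, hq0⟩ σ hsub hind hcard k hk
  have heσ : e ∈ σ := low_mem (rv R) e hp hm ht (raysIn a R τ') heG σ ⟨hsub, hind, hupper⟩
    (hspan _ (mem_raysIn.mp heG))
  refine ⟨heσ, ?_⟩
  set x : Fin n → ℝ := ∑ i ∈ σ.erase e, rv R i with hx
  have hcone0 : ∀ u ∈ σ.erase e, rv R u ∈ H22.minCone a τ' :=
    fun u hu => hcone u (Finset.mem_of_mem_erase hu)
  have hxdot : ∀ c : Fin n → ℝ, ∑ j, c j * x j = ∑ u ∈ σ.erase e, ∑ j, c j * rv R u j := by
    intro c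
    rw [hx, znqd_dot_sum]
  have hxcone : x ∈ H22.minCone a τ' := by
    refine ⟨fun j => ?_, fun i hi l => ?_⟩
    · rw [hx, Finset.sum_apply]
      exact Finset.sum_nonneg fun u hu => (hcone0 u hu).1 j
    · rw [hxdot (fun j => (a i j : ℝ)), hxdot (fun j => (a l j : ℝ))]
      exact Finset.sum_le_sum fun u hu => (hcone0 u hu).2 i hi l
  -- the critical element
  obtain ⟨w, hwσ, hw⟩ := hc
  have hwe : w ≠ e := by
    intro h
    have h1 : H22.wmin a w.1 = 0 := by
      rw [H22.wmin_eq (a := a) (σ := τ') (w := w.1) (hcone w hwσ) hq0, h]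
      refine Finset.sum_eq_zero fun j _ => ?_
      rw [he]
      simp only [eN, Pi.single_apply]
      split_ifs with hj
      · rw [hj, h0 q0 hq0]
        simp
      · simp
    exact absurd hw.2.1 (by rw [h1]; exact lt_irrefl 0)
  have hwσ0 : w ∈ σ.erase e := Finset.mem_erase.mpr ⟨hwe, hwσ⟩
  obtain ⟨hwk, i1, hi1, hi1k, hi1o⟩ := hcrit w.1 w.2 hw (hcone w hwσ)
  have hxk : 1 ≤ x k0 := by
    rw [hx, Finset.sum_apply]
    refine le_trans ?_ (Finset.single_le_sum (f := fun u => rv R u k0)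
      (fun u hu => (hcone0 u hu).1 k0) hwσ0)
    simp only [rv, H22.toReal]
    exact_mod_cast Nat.one_le_iff_ne_zero.mpr hwk
  -- an exponent above the hyperplane which is minimal at `x`
  obtain ⟨p, hpk, hpx⟩ : ∃ l, 0 < a l k0 ∧ ∀ l', ∑ j, (a l j : ℝ) * x j ≤
      ∑ j, (a l' j : ℝ) * x j := by
    by_contra hno
    push Not at hno
    have hgap : ∀ l, 0 < a l k0 → ∑ j, (a q0 j : ℝ) * x j < ∑ j, (a l j : ℝ) * x j := by
      intro l hl
      obtain ⟨l', hl'⟩ := hno l hl
      exact lt_of_le_of_lt (hxcone.2 q0 hq0 l') hl'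
    obtain ⟨ε, hε, hε1, hεl⟩ := znqd_eps
      (fun l => if 0 < a l k0 then (∑ j, (a l j : ℝ) * x j - ∑ j, (a q0 j : ℝ) * x j) /
        (a l k0 : ℝ) else 1) (by
        intro l
        split_ifs with hl
        · have h1 := hgap l hl
          have h2 : (0 : ℝ) < a l k0 := by exact_mod_cast hl
          exact div_pos (by linarith) h2
        · exact one_pos)
    have hnot := low_pt (rv R) e hp hm ht (raysIn a R τ') heG
      (∑ j, (LinearMap.proj j : (Fin n → ℝ) →ₗ[ℝ] ℝ)) (fun i _ => znqd_ell a R hR i) σ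
      ⟨hsub, hind, hupper⟩ (fun l hl => hspan _ (mem_raysIn.mp hl)) ε hε
    apply hnot
    apply hR.gen τ' ⟨q0, hq0⟩
    have hdot : ∀ c : Fin n → ℝ, ∑ j, c j * (x - ε • rv R e) j = ∑ j, c j * x j - ε * c k0 := by
      intro c
      rw [← heval c, Finset.mul_sum, ← Finset.sum_sub_distrib]
      refine Finset.sum_congr rfl fun j _ => ?_
      simp only [Pi.sub_apply, Pi.smul_apply, smul_eq_mul]
      ring
    refine ⟨fun j => ?_, fun i hi l => ?_⟩
    · simp only [Pi.sub_apply, Pi.smul_apply, smul_eq_mul]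
      rw [he, znqd_rv_e]
      split_ifs with hj
      · rw [hj]
        linarith
      · have := hxcone.1 j
        linarith
    · rw [hdot (fun j => (a i j : ℝ)), hdot (fun j => (a l j : ℝ)), h0 i hi]
      have h1 := hxcone.2 i hi q0
      by_cases hl : 0 < a l k0
      · have h2 := hεl l
        simp only [hl, if_true] at h2
        have h3 : (0 : ℝ) < a l k0 := by exact_mod_cast hl
        rw [le_div_iff₀ h3] at h2
        push_cast
        linarith
      · have h2 : a l k0 = 0 := by omega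
        rw [h2]
        have h3 := hxcone.2 i hi l
        simpa using h3
  -- the face of `x`
  set τ : Finset (Fin r) := Finset.univ.filter (fun i => ∀ l', ∑ j, (a i j : ℝ) * x j ≤
      ∑ j, (a l' j : ℝ) * x j) with hτ
  have hτm : ∀ i, i ∈ τ ↔ ∀ l', ∑ j, (a i j : ℝ) * x j ≤ ∑ j, (a l' j : ℝ) * x j := by
    intro i
    rw [hτ, Finset.mem_filter]
    simp
  have hτeq : ∀ i ∈ τ, ∀ u ∈ σ.erase e, ∑ j, (a i j : ℝ) * rv R u j =
      ∑ j, (a q0 j : ℝ) * rv R u j := by
    intro i hi u hu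
    have h1 := (hτm i).mp hi q0
    rw [hxdot (fun j => (a i j : ℝ)), hxdot (fun j => (a q0 j : ℝ))] at h1
    have h2 : ∀ u ∈ σ.erase e, ∑ j, (a q0 j : ℝ) * rv R u j ≤ ∑ j, (a i j : ℝ) * rv R u j :=
      fun u hu => (hcone0 u hu).2 q0 hq0 i
    have h3 := (Finset.sum_eq_sum_iff_of_le h2).mp (le_antisymm (Finset.sum_le_sum h2) h1)
    exact (h3 u hu).symm
  have hτcone : ∀ u ∈ σ.erase e, rv R u ∈ H22.minCone a τ := by
    intro u hu
    refine ⟨(hcone0 u hu).1, fun i hi l => ?_⟩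
    rw [hτeq i hi u hu]
    exact (hcone0 u hu).2 q0 hq0 l
  have hpτ : p ∈ τ := (hτm p).mpr hpx
  have hface : ∀ i ∈ τ, ∑ j, a i j * w.1 j = H22.wmin a w.1 := fun i hi =>
    (H22.wmin_eq (a := a) (σ := τ) (w := w.1) (hτcone w hwσ0) hi).symm
  have hpi1 : p = i1 := by
    by_contra h
    have := hi1o p (hface p hpτ) h
    omega
  have hp1 : a p k0 = 1 := by rw [hpi1, hi1k]
  have hother : ∀ i ∈ τ, i ≠ p → a i k0 = 0 := by
    intro i hi hip
    exact hi1o i (hface i hi) (by rw [← hpi1]; exact hip)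
  have hsubτ : τ' ⊆ τ := by
    intro i hi
    rw [hτm]
    exact hxcone.2 i hi
  have hfil : τ.filter (fun i => a i k0 = 0) = τ' := by
    ext i
    rw [Finset.mem_filter]
    constructor
    · rintro ⟨hi, hik⟩
      obtain ⟨k1, hk1, hk1m⟩ := hF
      have hk1c : k1 ∈ H22.minCone a τ' := ⟨hk1, fun i hi => (hk1m i).mp hi⟩
      have hlin : ∀ k ∈ Submodule.span ℝ (rv R '' (σ : Set R)),
          ∑ j, ((a i j : ℝ) - a q0 j) * k j = 0 := by
        intro k hk
        induction hk using Submodule.span_induction with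
        | mem k hk =>
          obtain ⟨u, hu, rfl⟩ := hk
          by_cases hue : u = e
          · rw [hue, heval (fun j => (a i j : ℝ) - a q0 j), hik, h0 q0 hq0]
            simp
          · have h1 := hτeq i hi u (Finset.mem_erase.mpr ⟨hue, hu⟩)
            simp only [sub_mul, Finset.sum_sub_distrib]
            linarith
        | zero => simp
        | add y z _ _ hy hz => rw [znqd_dot_add, hy, hz, add_zero]
        | smul c y _ hy =>
          have : ∑ j, ((a i j : ℝ) - a q0 j) * (c • y) j =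
              c * ∑ j, ((a i j : ℝ) - a q0 j) * y j := by
            rw [Finset.mul_sum]
            refine Finset.sum_congr rfl fun j _ => ?_
            simp only [Pi.smul_apply, smul_eq_mul]
            ring
          rw [this, hy, mul_zero]
      have h2 := hlin k1 (hspan k1 hk1c)
      simp only [sub_mul, Finset.sum_sub_distrib] at h2
      rw [hk1m]
      intro l'
      have h3 := hk1c.2 q0 hq0 l'
      linarith
    · intro hi
      exact ⟨hsubτ hi, h0 i hi⟩
  have hτins : τ = insert p τ' := by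
    ext i
    rw [Finset.mem_insert]
    constructor
    · intro hi
      by_cases hip : i = p
      · exact Or.inl hip
      · right
        rw [← hfil, Finset.mem_filter]
        exact ⟨hi, hother i hi hip⟩
    · rintro (rfl | hi)
      · exact hpτ
      · exact hsubτ hi
  refine ⟨τ, ?_, hfil, ?_⟩
  · rw [mem_PP]
    exact ⟨⟨x, hxcone.1, hτm⟩, ⟨w.1, w.2, hw, hτcone w hwσ0⟩, ⟨p, hpτ, by omega⟩⟩
  · rw [mem_upT]
    refine ⟨⟨fun u hu => mem_raysIn.mpr (hτcone u hu), hind.mono ?_, ?_⟩, ?_⟩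
    · exact_mod_cast Finset.erase_subset e σ
    · intro l hl hlσ β hβ
      have hlc := mem_raysIn.mp hl
      have hle : l ≠ e := by
        intro h
        have h1 := hlc.2 p hpτ q0
        rw [h, heval (fun j => (a p j : ℝ)), heval (fun j => (a q0 j : ℝ)), hp1, h0 q0 hq0] at h1
        norm_num at h1
      have hlσ' : l ∉ σ := fun h => hlσ (Finset.mem_erase.mpr ⟨hle, h⟩)
      have hl' : l ∈ raysIn a R τ' :=
        mem_raysIn.mpr ⟨hlc.1, fun i hi => hlc.2 i (hsubτ hi)⟩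
      have h1 : rv R l = ∑ i ∈ σ, (Function.update β e 0) i • rv R i := by
        rw [← Finset.add_sum_erase σ _ heσ, Function.update_self, zero_smul, zero_add, hβ]
        refine Finset.sum_congr rfl fun i hi => ?_
        rw [Function.update_of_ne (Finset.ne_of_mem_erase hi)]
      have h2 := hupper l hl' hlσ' _ h1
      rw [← Finset.add_sum_erase σ _ heσ, Function.update_self, zero_mul, zero_add] at h2
      refine lt_of_lt_of_eq h2 ?_
      refine Finset.sum_congr rfl fun i hi => ?_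
      rw [Function.update_of_ne (Finset.ne_of_mem_erase hi)]
    · rw [Finset.card_erase_of_mem heσ, hcard, hτins, faceRank_pyr a τ' p k0 h0 (by omega)]
      omega

end Pool.Agent.H56.SMC
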