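import Pool.Agent.H56.SMC.ZNQ
import Pool.Agent.H56.SMC.ZNV
import Pool.Agent.H56.SMC.ZNL
import Pool.Agent.H56.SMC.ZNP

/-!
# ZNVD: lower and upper simplices of the cone of an apex

Notation: `e = eN k0`, `p` an exponent with `a_p k0 = 1` such that `{p}` is a face, `G0 = raysIn a R {p}`, `G = insert e G0`.  `e ∉ G0`, since some `i` has `a_i k0 = 0 < 1`.
`vlow`: `e ∈ σ` by `low_mem`.  Let `w ∈ σ` be critical, so `w ≠ e` (`wmin a e = 0` as some `a_i k0 = 0`), `w ∈ G0`, `B1 a w k0`, its apex is `p` (as `p` is on the face of `w` and `a_p k0 = 1`).  `x = ∑_{σ.erase e} rv i`: `x k0 ≥ w k0 ≥ 1`; all elements of `σ.erase e` are in `minCone a {p}`; for `a_i k0 ≤ 1`: `(a_i - a_p)·(x - ε e) ≥ 0`; for `a_i k0 ≥ 2`: `i` is not on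
the face of `w`, `(a_i - a_p)·x ≥ (a_i - a_p)·w > 0`.  So `x - ε e ∈ minCone a {p} ⊆ cCone G` for small `ε > 0`, against `low_pt`.
`vpair_down`: `x = ∑_{σ.erase e} rv i ∈ minCone a {p}`.  By `up_pt` (span: `span_vertex`) `x + ε e ∉ cCone G0`, so `x + ε e ∉ minCone a {p}` for all `ε > 0`, so there is `q` with `a_q k0 = 0` and `a_q·x = a_p·x` (otherwise `(a_i - a_p)·(x + ε e) ≥ 0` for all `i` and small `ε`).  Let `τ` be the minimal set at `x`; `p, q ∈ τ`, `τ` is contained in the face of the critical `w ∈ σ`, so `a_i k0 = 0` for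
`i ∈ τ`, `i ≠ p`; then `a_i - a_q` vanishes on `σ.erase e` and on `e`, so on everything (`n` independent vectors): `a_i = a_q`, `i = q`.  `τ = {p, q}`, rank two (`faceRank_pyr`, `faceRank_single`).  `σ.erase e ⊆ raysIn a R τ` is upper for `hm`, and `hp = hm` away from `e`.
-/

set_option autoImplicit false

namespace Pool.Agent.H56.SMC

open Finset H60.RegTri

/-- the value of the exponent `i` at `y`, as a linear form -/
noncomputable def znvdL {n r : ℕ} (a : Fin r → (Fin n →₀ ℕ)) (i : Fin r) :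
    (Fin n → ℝ) →ₗ[ℝ] ℝ := ∑ j, (a i j : ℝ) • (LinearMap.proj j : (Fin n → ℝ) →ₗ[ℝ] ℝ)

theorem znvdL_apply {n r : ℕ} (a : Fin r → (Fin n →₀ ℕ)) (i : Fin r) (y : Fin n → ℝ) :
    znvdL a i y = ∑ j, (a i j : ℝ) * y j := by
  simp [znvdL, LinearMap.sum_apply]

theorem znvd_mem {n r : ℕ} (a : Fin r → (Fin n →₀ ℕ)) (τ : Finset (Fin r)) (y : Fin n → ℝ) :
    y ∈ H22.minCone a τ ↔ (∀ j, 0 ≤ y j) ∧ ∀ i ∈ τ, ∀ l, znvdL a i y ≤ znvdL a l y := by
  simp only [znvdL_apply]
  rfl

theorem znvdL_rv {n r : ℕ} (a : Fin r → (Fin n →₀ ℕ)) (i : Fin r) (R : Finset (Fin n → ℕ))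
    (w : R) : znvdL a i (rv R w) = ((∑ j, a i j * w.1 j : ℕ) : ℝ) := by
  rw [znvdL_apply]
  push_cast
  rfl

theorem znvd_rv_e {n : ℕ} (R : Finset (Fin n → ℕ)) (k0 : Fin n) (h : eN k0 ∈ R) (j : Fin n) :
    rv R ⟨eN k0, h⟩ j = if j = k0 then 1 else 0 := by
  change ((eN k0 j : ℕ) : ℝ) = _
  unfold eN
  rw [Pi.single_apply]
  split_ifs <;> simp

theorem znvdL_e {n r : ℕ} (a : Fin r → (Fin n →₀ ℕ)) (i : Fin r) (R : Finset (Fin n → ℕ))
    (k0 : Fin n) (h : eN k0 ∈ R) : znvdL a i (rv R ⟨eN k0, h⟩) = a i k0 := by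
  rw [znvdL_apply]
  simp [znvd_rv_e]

theorem znvd_span {n : ℕ} {R : Finset (Fin n → ℕ)} (σ : Finset R)
    (h : LinearIndepOn ℝ (rv R) (σ : Set R)) (hc : σ.card = n) (y : Fin n → ℝ) :
    y ∈ Submodule.span ℝ (rv R '' (σ : Set R)) := by
  have h1 : Submodule.span ℝ (rv R '' (σ : Set R)) = ⊤ := by
    have h2 : LinearIndependent ℝ (fun w : σ => rv R w) := h
    have h3 := h2.span_eq_top_of_card_eq_finrank' (by simp [hc])
    rw [← h3]
    congr 1
    ext z
    simp
  rw [h1]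
  trivial

/-- `e` is not in the cone of `{p}` -/
theorem znvd_e_notMem {n r : ℕ} (a : Fin r → (Fin n →₀ ℕ)) (R : Finset (Fin n → ℕ)) (k0 : Fin n)
    (he : eN k0 ∈ R) (p : Fin r) (h1 : a p k0 = 1) (hex : ∃ i, a i k0 = 0)
    (τ : Finset (Fin r)) (hp : p ∈ τ) : (⟨eN k0, he⟩ : R) ∉ raysIn a R τ := by
  intro h
  rw [mem_raysIn, znvd_mem] at h
  obtain ⟨i, hi⟩ := hex
  have h2 := h.2 p hp i
  rw [znvdL_e, znvdL_e, h1, hi] at h2
  norm_num at h2

/-- the positive linear form -/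
theorem znvd_pos {n r : ℕ} (a : Fin r → (Fin n →₀ ℕ)) (R : Finset (Fin n → ℕ))
    (hR : RaySet a R) (w : R) :
    0 < (∑ j, (LinearMap.proj j : (Fin n → ℝ) →ₗ[ℝ] ℝ)) (rv R w) := by
  have h1 : w.1 ≠ 0 := (hR.facet w.1 w.2).1
  rw [LinearMap.sum_apply]
  have h2 : ∃ j, w.1 j ≠ 0 := by
    by_contra h
    push Not at h
    exact h1 (funext h)
  obtain ⟨j, hj⟩ := h2
  have h3 : (0 : ℝ) < rv R w j := by
    change (0 : ℝ) < ((w.1 j : ℕ) : ℝ)
    exact_mod_cast Nat.pos_of_ne_zero hj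
  refine Finset.sum_pos' (fun l _ => ?_) ⟨j, mem_univ j, h3⟩
  change (0 : ℝ) ≤ ((w.1 l : ℕ) : ℝ)
  positivity

theorem znvd_erase_sub {n r : ℕ} {a : Fin r → (Fin n →₀ ℕ)} {R : Finset (Fin n → ℕ)} {e : R}
    {p : Fin r} {σ : Finset R} (h : σ ⊆ insert e (raysIn a R {p})) :
    ∀ w ∈ σ.erase e, rv R w ∈ H22.minCone a {p} := by
  intro w hw
  have h1 := h (mem_of_mem_erase hw)
  rw [mem_insert] at h1
  rcases h1 with h1 | h1
  · exact absurd h1 (ne_of_mem_erase hw)
  · exact mem_raysIn.1 h1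

/-- on the face of `w`, the apex is `p` -/
theorem znvd_apex {n r : ℕ} (a : Fin r → (Fin n →₀ ℕ)) (k0 : Fin n) (p : Fin r) (h1 : a p k0 = 1)
    (w : Fin n → ℕ) (hw : H22.toReal w ∈ H22.minCone a {p}) (hB : B1 a w k0) (i : Fin r)
    (hi : ∑ j, a i j * w j = ∑ j, a p j * w j) (hip : i ≠ p) : a i k0 = 0 := by
  have h2 := H22.wmin_eq hw (mem_singleton_self p)
  obtain ⟨-, i1, h3, h4, h5⟩ := hB
  have h6 : p = i1 := by
    by_contra h
    have := h5 p h2.symm h
    omega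
  subst h6
  exact h5 i (by rw [hi, h2]) hip

theorem vlow {n r : ℕ} (a : Fin r → (Fin n →₀ ℕ)) (R : Finset (Fin n → ℕ))
    (hR : RaySet a R) (s0 : ℂ) (k0 : Fin n) (hp hm : R → ℝ)
    (ht : TopBot (rv R) ⟨eN k0, hR.unit k0⟩ hp hm) (p : Fin r) (h1 : a p k0 = 1)
    (hex : ∃ i, a i k0 = 0)
    (hcrit : ∀ w ∈ R, CritW a s0 w → H22.toReal w ∈ H22.minCone a {p} → B1 a w k0)
    (σ : Finset R) (hσ : σ ∈ upT R hp (insert ⟨eN k0, hR.unit k0⟩ (raysIn a R {p})) n) :
    ⟨eN k0, hR.unit k0⟩ ∈ σ ∧ ∀ w ∈ σ, ¬ CritW a s0 w.1 := by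
  rw [mem_upT] at hσ
  obtain ⟨hup, hcard⟩ := hσ
  have hspan := znvd_span σ hup.2.1 hcard
  set e : R := ⟨eN k0, hR.unit k0⟩ with he
  refine ⟨low_mem (rv R) e hp hm ht _ (mem_insert_self _ _) σ hup (hspan _), ?_⟩
  intro w hw hcw
  have hwe : w ≠ e := by
    rintro rfl
    obtain ⟨i, hi⟩ := hex
    have h2 : H22.wmin a e.1 ≤ 0 := by
      refine (ciInf_le (OrderBot.bddBelow _) i).trans ?_
      rw [he]
      change ∑ j, a i j * eN k0 j ≤ 0
      unfold eN
      simp [Pi.single_apply, hi]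
    have h3 := hcw.2.1
    omega
  have hmem := znvd_erase_sub hup.1
  have hwE : w ∈ σ.erase e := mem_erase.2 ⟨hwe, hw⟩
  have hwm := hmem w hwE
  have hB := hcrit w.1 w.2 hcw hwm
  have hmem' : ∀ v ∈ σ.erase e, (∀ j, 0 ≤ rv R v j) ∧ ∀ l, znvdL a p (rv R v) ≤ znvdL a l (rv R v) :=
    fun v hv => ⟨(hmem v hv).1, ((znvd_mem a _ _).1 (hmem v hv)).2 p (mem_singleton_self p)⟩
  set x : Fin n → ℝ := ∑ i ∈ σ.erase e, rv R i with hx
  -- the value at `x` dominates the value at `w`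
  have hxw : ∀ i, znvdL a i (rv R w) - znvdL a p (rv R w) ≤ znvdL a i x - znvdL a p x := by
    intro i
    rw [hx, map_sum, map_sum, ← Finset.sum_sub_distrib]
    exact Finset.single_le_sum (f := fun v => znvdL a i (rv R v) - znvdL a p (rv R v))
      (fun v hv => sub_nonneg.2 ((hmem' v hv).2 i)) hwE
  have hxk : 1 ≤ x k0 := by
    have h2 : rv R w k0 ≤ x k0 := by
      rw [hx, Finset.sum_apply]
      exact Finset.single_le_sum (f := fun v => rv R v k0) (fun v hv => (hmem' v hv).1 k0) hwE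
    have h3 : (1 : ℝ) ≤ rv R w k0 := by
      change (1 : ℝ) ≤ ((w.1 k0 : ℕ) : ℝ)
      exact_mod_cast Nat.one_le_iff_ne_zero.2 hB.1
    linarith
  have hx0 : ∀ j, 0 ≤ x j := by
    intro j
    rw [hx, Finset.sum_apply]
    exact Finset.sum_nonneg fun v hv => (hmem' v hv).1 j
  set M : ℝ := ∑ i, (a i k0 : ℝ) with hM
  have hM0 : 0 ≤ M := Finset.sum_nonneg fun i _ => Nat.cast_nonneg _
  have hMi : ∀ i, (a i k0 : ℝ) ≤ M := fun i =>
    Finset.single_le_sum (f := fun i => (a i k0 : ℝ)) (fun i _ => Nat.cast_nonneg _) (mem_univ i)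
  have hε : (0 : ℝ) < 1 / (1 + M) := by positivity
  have hcone : x - (1 / (1 + M)) • rv R e ∈ H22.minCone a {p} := by
    rw [znvd_mem]
    refine ⟨fun j => ?_, fun i hi l => ?_⟩
    · rw [Pi.sub_apply, Pi.smul_apply, he, znvd_rv_e, smul_eq_mul]
      by_cases hj : j = k0
      · rw [if_pos hj, mul_one, hj]
        have : 1 / (1 + M) ≤ 1 := by
          rw [div_le_one (by positivity)]
          linarith
        linarith
      · rw [if_neg hj, mul_zero, sub_zero]
        exact hx0 j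
    · rw [mem_singleton] at hi
      subst hi
      rw [map_sub, map_sub, map_smul, map_smul, he, znvdL_e, znvdL_e, h1, smul_eq_mul, smul_eq_mul]
      have h2 := hxw l
      have h3 := (hmem' w hwE).2 l
      push_cast
      by_cases h4 : a l k0 ≤ 1
      · have h5 : (a l k0 : ℝ) ≤ 1 := by exact_mod_cast h4
        have h6 : 1 / (1 + M) * (a l k0 : ℝ) ≤ 1 / (1 + M) * 1 :=
          mul_le_mul_of_nonneg_left h5 hε.le
        linarith
      · -- `l` is not on the face of `w`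
        have h5 : znvdL a i (rv R w) + 1 ≤ znvdL a l (rv R w) := by
          rw [znvdL_rv, znvdL_rv] at h3 ⊢
          have h6 : ∑ j, a i j * w.1 j ≤ ∑ j, a l j * w.1 j := by exact_mod_cast h3
          have h7 : ∑ j, a i j * w.1 j ≠ ∑ j, a l j * w.1 j := by
            intro h8
            have h9 : l ≠ i := by
              rintro rfl
              omega
            have := znvd_apex a k0 i h1 w.1 hwm hB l h8.symm h9
            omega
          have h8 : ∑ j, a i j * w.1 j + 1 ≤ ∑ j, a l j * w.1 j := by omega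
          exact_mod_cast h8
        have h6 : 1 / (1 + M) * (a l k0 : ℝ) ≤ 1 := by
          rw [div_mul_eq_mul_div, one_mul, div_le_one (by positivity)]
          linarith [hMi l]
        linarith
  have hgen := hR.gen {p} ⟨p, mem_singleton_self p⟩ _ hcone
  refine low_pt (rv R) e hp hm ht (insert e (raysIn a R {p})) (mem_insert_self _ _)
    (∑ j, (LinearMap.proj j : (Fin n → ℝ) →ₗ[ℝ] ℝ)) (fun i _ => znvd_pos a R hR i) σ hup
    (fun l _ => hspan _) (1 / (1 + M)) hε ?_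
  obtain ⟨y, hy, hy2⟩ := hgen
  have hne : e ∉ raysIn a R {p} :=
    znvd_e_notMem a R k0 (hR.unit k0) p h1 hex {p} (mem_singleton_self p)
  refine ⟨fun i => if i = e then 0 else y i, fun i hi => ?_, ?_⟩
  · change 0 ≤ if i = e then 0 else y i
    split_ifs with h2
    · exact le_rfl
    · exact hy i ((mem_insert.1 hi).resolve_left h2)
  · change x - (1 / (1 + M)) • rv R e = _
    rw [Finset.sum_insert hne, hy2]
    beta_reduce
    rw [if_pos rfl, zero_smul, zero_add]
    refine Finset.sum_congr rfl fun i hi => ?_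
    rw [if_neg]
    rintro rfl
    exact hne hi

theorem vpair_down {n r : ℕ} (a : Fin r → (Fin n →₀ ℕ)) (ha : Function.Injective a)
    (R : Finset (Fin n → ℕ)) (hR : RaySet a R) (s0 : ℂ) (k0 : Fin n) (hp hm : R → ℝ)
    (ht : TopBot (rv R) ⟨eN k0, hR.unit k0⟩ hp hm) (p : Fin r) (h1 : a p k0 = 1)
    (hF : H22.IsFace a {p}) (hex : ∃ i, a i k0 = 0)
    (hcrit : ∀ w ∈ R, CritW a s0 w → H22.toReal w ∈ H22.minCone a {p} → B1 a w k0)
    (σ : Finset R) (hσ : σ ∈ upT R hm (insert ⟨eN k0, hR.unit k0⟩ (raysIn a R {p})) n)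
    (he : ⟨eN k0, hR.unit k0⟩ ∈ σ) (hc : ∃ w ∈ σ, CritW a s0 w.1) :
    ∃ τ ∈ PP a R s0 k0, p ∈ τ ∧ H22.faceRank a τ = 2 ∧
      σ.erase ⟨eN k0, hR.unit k0⟩ ∈ upT R hp (raysIn a R τ) (n + 1 - H22.faceRank a τ) := by
  rw [mem_upT] at hσ
  obtain ⟨hup, hcard⟩ := hσ
  have hspan := znvd_span σ hup.2.1 hcard
  set e : R := ⟨eN k0, hR.unit k0⟩ with hedef
  obtain ⟨w, hw, hcw⟩ := hc
  have hwe : w ≠ e := by
    rintro rfl
    obtain ⟨i, hi⟩ := hex
    have h2 : H22.wmin a e.1 ≤ 0 := by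
      refine (ciInf_le (OrderBot.bddBelow _) i).trans ?_
      rw [hedef]
      change ∑ j, a i j * eN k0 j ≤ 0
      unfold eN
      simp [Pi.single_apply, hi]
    have h3 := hcw.2.1
    omega
  have hmem := znvd_erase_sub hup.1
  have hwE : w ∈ σ.erase e := mem_erase.2 ⟨hwe, hw⟩
  have hwm := hmem w hwE
  have hB := hcrit w.1 w.2 hcw hwm
  have hmem' : ∀ v ∈ σ.erase e, (∀ j, 0 ≤ rv R v j) ∧ ∀ l, znvdL a p (rv R v) ≤ znvdL a l (rv R v) :=
    fun v hv => ⟨(hmem v hv).1, ((znvd_mem a _ _).1 (hmem v hv)).2 p (mem_singleton_self p)⟩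
  set x : Fin n → ℝ := ∑ i ∈ σ.erase e, rv R i with hx
  have hx0 : ∀ j, 0 ≤ x j := by
    intro j
    rw [hx, Finset.sum_apply]
    exact Finset.sum_nonneg fun v hv => (hmem' v hv).1 j
  -- the value at `x` is the sum of the values
  have hxN : ∀ i, znvdL a i x = ((∑ v ∈ σ.erase e, ∑ j, a i j * v.1 j : ℕ) : ℝ) := by
    intro i
    rw [hx, map_sum, Nat.cast_sum]
    exact Finset.sum_congr rfl fun v _ => znvdL_rv a i R v
  have hxp : ∀ l, znvdL a p x ≤ znvdL a l x := by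
    intro l
    rw [hx, map_sum, map_sum]
    exact Finset.sum_le_sum fun v hv => (hmem' v hv).2 l
  -- equality at `x` gives equality on `σ.erase e`
  have hxeq : ∀ i, znvdL a i x = znvdL a p x → ∀ v ∈ σ.erase e,
      znvdL a i (rv R v) = znvdL a p (rv R v) := by
    intro i hi v hv
    rw [hx, map_sum, map_sum] at hi
    have h2 := (Finset.sum_eq_sum_iff_of_le fun v hv => (hmem' v hv).2 i).1 hi.symm
    exact (h2 v hv).symm
  have hne : e ∉ raysIn a R {p} :=
    znvd_e_notMem a R k0 (hR.unit k0) p h1 hex {p} (mem_singleton_self p)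
  -- the exponent `q`
  have hq : ∃ q, a q k0 = 0 ∧ znvdL a q x = znvdL a p x := by
    by_contra hcon
    push Not at hcon
    refine up_pt (rv R) e hp hm ht (raysIn a R {p}) hne
      (∑ j, (LinearMap.proj j : (Fin n → ℝ) →ₗ[ℝ] ℝ)) (fun i _ => znvd_pos a R hR i)
      (span_vertex a R hR p hF _) σ hup he (fun l _ => hspan _) 1 one_pos ?_
    refine hR.gen {p} ⟨p, mem_singleton_self p⟩ _ ?_
    rw [znvd_mem]
    refine ⟨fun j => ?_, fun i hi l => ?_⟩
    · rw [Pi.add_apply, Pi.smul_apply, hedef, znvd_rv_e, smul_eq_mul]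
      have h2 := hx0 j
      by_cases h3 : j = k0
      · rw [if_pos h3, mul_one]
        linarith
      · rw [if_neg h3, mul_zero, add_zero]
        exact h2
    · rw [mem_singleton] at hi
      subst hi
      rw [map_add, map_add, map_smul, map_smul, hedef, znvdL_e, znvdL_e, h1, smul_eq_mul,
        smul_eq_mul, one_mul, one_mul]
      have h2 := hxp l
      rcases Nat.eq_zero_or_pos (a l k0) with h3 | h3
      · have h4 := hcon l h3
        rw [h3]
        rw [hxN, hxN] at h2 h4 ⊢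
        have h5 : (∑ v ∈ σ.erase e, ∑ j, a i j * v.1 j) ≤ ∑ v ∈ σ.erase e, ∑ j, a l j * v.1 j := by
          exact_mod_cast h2
        have h6 : (∑ v ∈ σ.erase e, ∑ j, a l j * v.1 j) ≠ ∑ v ∈ σ.erase e, ∑ j, a i j * v.1 j := by
          exact_mod_cast h4
        have h7 : (∑ v ∈ σ.erase e, ∑ j, a i j * v.1 j) + 1
            ≤ (∑ v ∈ σ.erase e, ∑ j, a l j * v.1 j) + 0 := by omega
        exact_mod_cast h7
      · have h4 : (1 : ℝ) ≤ (a l k0 : ℝ) := by exact_mod_cast h3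
        push_cast
        linarith
  obtain ⟨q, hq0, hqx⟩ := hq
  have hpq : p ≠ q := by
    rintro rfl
    omega
  -- every exponent which is minimal at `x` is `p` or `q`
  have htwo : ∀ i, znvdL a i x = znvdL a p x → i ≠ p → i = q := by
    intro i hi hip
    have h2 := hxeq i hi
    have h3 : a i k0 = 0 := by
      refine znvd_apex a k0 p h1 w.1 hwm hB i ?_ hip
      have h4 := h2 w hwE
      rw [znvdL_rv, znvdL_rv] at h4
      exact_mod_cast h4
    have h4 := hxeq q hqx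
    have h5 : ∀ v ∈ σ, znvdL a i (rv R v) = znvdL a q (rv R v) := by
      intro v hv
      by_cases hve : v = e
      · rw [hve, hedef, znvdL_e, znvdL_e, h3, hq0]
      · have hv' : v ∈ σ.erase e := mem_erase.2 ⟨hve, hv⟩
        rw [h2 v hv', h4 v hv']
    have h6 : ∀ y, znvdL a i y = znvdL a q y := by
      intro y
      have h7 := hspan y
      refine Submodule.span_induction (p := fun y _ => znvdL a i y = znvdL a q y) ?_ ?_ ?_ ?_ h7
      · rintro _ ⟨v, hv, rfl⟩
        exact h5 v hv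
      · rw [map_zero, map_zero]
      · intro y z _ _ hy hz
        rw [map_add, map_add, hy, hz]
      · intro c y _ hy
        rw [map_smul, map_smul, hy]
    apply ha
    ext j
    have h7 := h6 (Pi.single j 1)
    rw [znvdL_apply, znvdL_apply] at h7
    simp [Pi.single_apply] at h7
    exact h7
  have hrank : H22.faceRank a {p, q} = 2 := by
    have h2 := faceRank_pyr a {q} p k0 (by
      intro i hi
      rw [mem_singleton] at hi
      rw [hi, hq0]) (by rw [h1]; exact one_ne_zero)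
    rw [h2, faceRank_single]
  -- the rays of `σ.erase e` are in the cone of `{p, q}`
  have hpair : ∀ v ∈ σ.erase e, rv R v ∈ H22.minCone a {p, q} := by
    intro v hv
    rw [znvd_mem]
    refine ⟨(hmem' v hv).1, fun i hi l => ?_⟩
    rw [mem_insert, mem_singleton] at hi
    rcases hi with rfl | rfl
    · exact (hmem' v hv).2 l
    · rw [hxeq i hqx v hv]
      exact (hmem' v hv).2 l
  have hface : H22.IsFace a {p, q} := by
    refine ⟨x, hx0, fun l => ?_⟩
    simp only [← znvdL_apply]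
    constructor
    · intro hl l'
      rw [mem_insert, mem_singleton] at hl
      rcases hl with rfl | rfl
      · exact hxp l'
      · rw [hqx]
        exact hxp l'
    · intro hl
      have h2 : znvdL a l x = znvdL a p x := le_antisymm (hl p) (hxp l)
      rw [mem_insert, mem_singleton]
      by_cases hlp : l = p
      · exact Or.inl hlp
      · exact Or.inr (htwo l h2 hlp)
  refine ⟨{p, q}, mem_PP.2 ⟨hface, ⟨w.1, w.2, hcw, hpair w hwE⟩, p, mem_insert_self _ _, ?_⟩,
    mem_insert_self _ _, hrank, ?_⟩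
  · rw [h1]
    exact one_ne_zero
  · rw [mem_upT, hrank, card_erase_of_mem he, hcard]
    refine ⟨⟨fun v hv => mem_raysIn.2 (hpair v hv), hup.2.1.mono (by simp), ?_⟩, by omega⟩
    intro l hl hlσ β hβ
    have hle : l ≠ e := by
      rintro rfl
      exact znvd_e_notMem a R k0 (hR.unit k0) p h1 hex {p, q} (mem_insert_self _ _) hl
    have hlσ' : l ∉ σ := fun h => hlσ (mem_erase.2 ⟨hle, h⟩)
    have hl' : l ∈ raysIn a R {p} := by
      rw [mem_raysIn, znvd_mem] at hl ⊢
      refine ⟨hl.1, fun i hi => hl.2 i ?_⟩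
      rw [mem_singleton] at hi
      rw [hi]
      exact mem_insert_self _ _
    have h2 := hup.2.2 l (mem_insert_of_mem hl') hlσ' (fun i => if i = e then 0 else β i) (by
      rw [← Finset.add_sum_erase σ _ he, if_pos rfl, zero_smul, zero_add, hβ]
      refine Finset.sum_congr rfl fun i hi => ?_
      rw [if_neg (ne_of_mem_erase hi)])
    rw [← Finset.add_sum_erase σ _ he, if_pos rfl, zero_mul, zero_add, ← ht.same l hle] at h2
    refine h2.trans_le (le_of_eq ?_)
    refine Finset.sum_congr rfl fun i hi => ?_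
    rw [if_neg (ne_of_mem_erase hi), ht.same i (ne_of_mem_erase hi)]

end Pool.Agent.H56.SMC
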